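import Pool.Agent.SBD.Alg

/-!
# Row SBD-A01 : basic facts on `Δ = 1 - ∑ D(Z_i)²` and its eigenspaces

Everything follows from `A.skew` : `⟨D(X)u, v⟩ = -⟨u, D(X)v⟩` for `X ∈ 𝔤`.
* `inner_Del` : `⟨D(Z)²u, v⟩ = -⟨D(Z)u, D(Z)v⟩ = ⟨u, D(Z)²v⟩`.
* `re_inner_Del` : `Re⟨Δv, v⟩ = ‖v‖² + ∑ ‖D(Z_i)v‖²` by the same computation.
* `eig_ge` : `lam ‖u‖² = Re⟨Δu,u⟩ ≥ ‖u‖²`.
* `eig_orth` : `lam ⟨u,v⟩ = ⟨Δu,v⟩ = ⟨u,Δv⟩ = lam' ⟨u,v⟩` (`inner ℂ` is conjugate linear in the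
  first variable; `lam` is real).
* `norm_sq_sum` : Pythagoras, from `eig_orth` (expand `re ⟨∑f, ∑f⟩`).
* `D_Z_eig` : for `Z = Z_i`, `D(Z)` maps `V_lam` to `V_lam`: `[D(Z_i), ∑_j D(Z_j)²] = 0`.  Indeed
  `[Z_i, Z_j]` is skew-symmetric and in `𝔤`, so by `A.basis` (its `P`-coefficients vanish since
  `fip` of a symmetric and a skew-symmetric matrix is 0)
  `[Z_i,Z_j] = ∑_k c_{ijk} Z_k` with `c_{ijk} = fip (Z_k) [Z_i,Z_j] = -tr(Z_k [Z_i,Z_j])`, which is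
  antisymmetric in `(j,k)`; hence
  `∑_j [D(Z_i), D(Z_j)²] = ∑_j (D([Z_i,Z_j])D(Z_j) + D(Z_j)D([Z_i,Z_j]))
   = ∑_{j,k} c_{ijk} (D(Z_k)D(Z_j) + D(Z_j)D(Z_k)) = 0`.
* `norm_D_Z_le` : for `v ∈ V_lam`: `‖D(Z_i)v‖² ≤ (lam - 1)‖v‖² ≤ lam ‖v‖²`, from `re_inner_Del`.
-/

open scoped Matrix

noncomputable section

namespace SBD

namespace LieRep

variable {N : ℕ} {V : Type} [NormedAddCommGroup V] [InnerProductSpace ℂ V] (A : LieRep N V)

private theorem a01_Del (v : V) : A.Del v = v - ∑ i, A.D (A.Z i) (A.D (A.Z i) v) := by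
  unfold Del
  rw [LinearMap.sub_apply, LinearMap.id_apply, LinearMap.sum_apply]
  rfl

private theorem a01_mem {lam : ℝ} {v : V} : v ∈ A.eig lam ↔ A.Del v = (lam : ℂ) • v := Iff.rfl

theorem inner_Del (u v : V) : inner ℂ (A.Del u) v = inner ℂ u (A.Del v) := by
  rw [a01_Del, a01_Del, inner_sub_left, inner_sub_right, sum_inner, inner_sum]
  congr 1
  refine Finset.sum_congr rfl fun i _ => ?_
  rw [A.skew _ (A.Z_mem i), A.skew _ (A.Z_mem i), neg_neg]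

theorem re_inner_Del (v : V) :
    (inner ℂ (A.Del v) v).re = ‖v‖ ^ 2 + ∑ i, ‖A.D (A.Z i) v‖ ^ 2 := by
  rw [a01_Del, inner_sub_left, sum_inner, Complex.sub_re, Complex.re_sum, sub_eq_add_neg,
    ← Finset.sum_neg_distrib]
  congr 1
  · exact (norm_sq_eq_re_inner (𝕜 := ℂ) v).symm
  · refine Finset.sum_congr rfl fun i _ => ?_
    rw [A.skew _ (A.Z_mem i), Complex.neg_re, neg_neg]
    exact (norm_sq_eq_re_inner (𝕜 := ℂ) _).symm

private theorem a01_eig {lam : ℝ} {u : V} (hu : u ∈ A.eig lam) :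
    (inner ℂ (A.Del u) u).re = lam * ‖u‖ ^ 2 := by
  rw [(A.a01_mem).1 hu, inner_smul_left, Complex.conj_ofReal, Complex.re_ofReal_mul]
  congr 1
  exact (norm_sq_eq_re_inner (𝕜 := ℂ) u).symm

theorem eig_ge {lam : ℝ} {u : V} (hu : u ∈ A.eig lam) (h : u ≠ 0) : 1 ≤ lam := by
  have h1 := A.a01_eig hu
  rw [A.re_inner_Del] at h1
  have h2 : 0 ≤ ∑ i, ‖A.D (A.Z i) u‖ ^ 2 := Finset.sum_nonneg fun i _ => by positivity
  have h3 : 0 < ‖u‖ ^ 2 := by positivity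
  by_contra hc
  push Not at hc
  nlinarith

theorem eig_orth {lam lam' : ℝ} (hl : lam ≠ lam') {u v : V} (hu : u ∈ A.eig lam)
    (hv : v ∈ A.eig lam') : inner ℂ u v = 0 := by
  have h1 := A.inner_Del u v
  rw [(A.a01_mem).1 hu, (A.a01_mem).1 hv, inner_smul_left, inner_smul_right,
    Complex.conj_ofReal] at h1
  have h2 : ((lam : ℂ) - lam') * inner ℂ u v = 0 := by rw [sub_mul, h1, sub_self]
  rcases mul_eq_zero.1 h2 with h3 | h3
  · exact absurd (by exact_mod_cast sub_eq_zero.1 h3) hl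
  · exact h3

theorem norm_sq_sum (s : Finset ℝ) (f : ℝ → V) (hf : ∀ l ∈ s, f l ∈ A.eig l) :
    ‖∑ l ∈ s, f l‖ ^ 2 = ∑ l ∈ s, ‖f l‖ ^ 2 := by
  classical
  induction s using Finset.induction_on with
  | empty => simp
  | insert a s ha ih =>
    rw [Finset.sum_insert ha, Finset.sum_insert ha,
      ← ih fun l hl => hf l (Finset.mem_insert_of_mem hl)]
    have h1 : inner ℂ (f a) (∑ l ∈ s, f l) = 0 := by
      rw [inner_sum]
      refine Finset.sum_eq_zero fun l hl => ?_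
      have hne : a ≠ l := by
        rintro rfl
        exact ha hl
      exact A.eig_orth hne (hf a (Finset.mem_insert_self _ _))
        (hf l (Finset.mem_insert_of_mem hl))
    have h2 := norm_add_sq_eq_norm_sq_add_norm_sq_of_inner_eq_zero _ _ h1
    simpa only [sq] using h2

private theorem a01_fip (P W : Mat N) (hP : Pᵀ = P) (hW : Wᵀ = -W) : fip P W = 0 := by
  unfold fip
  have h1 : (Pᵀ * W).trace = -(Pᵀ * W).trace := by
    calc (Pᵀ * W).trace = ((Pᵀ * W)ᵀ).trace := (Matrix.trace_transpose _).symm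
      _ = (-W * P).trace := by rw [Matrix.transpose_mul, Matrix.transpose_transpose, hW]
      _ = -(W * P).trace := by rw [Matrix.neg_mul, Matrix.trace_neg]
      _ = -(Pᵀ * W).trace := by rw [Matrix.trace_mul_comm, hP]
  linarith

private theorem a01_tr (X Y Z : Mat N) : (X * Y * Z).trace = (Z * X * Y).trace := by
  rw [Matrix.trace_mul_comm, Matrix.mul_assoc]

private theorem a01_br (i j : Fin A.m) : A.Z i * A.Z j - A.Z j * A.Z i =
    ∑ k, fip (A.Z k) (A.Z i * A.Z j - A.Z j * A.Z i) • A.Z k := by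
  have h1 := A.basis _ (A.br _ (A.Z_mem i) _ (A.Z_mem j))
  have h2 : ∑ b, fip (A.P b) (A.Z i * A.Z j - A.Z j * A.Z i) • A.P b = 0 := by
    refine Finset.sum_eq_zero fun b _ => ?_
    rw [a01_fip _ _ (A.P_t b) ?_, zero_smul]
    rw [Matrix.transpose_sub, Matrix.transpose_mul, Matrix.transpose_mul, A.Z_t, A.Z_t]
    simp
  rw [h2, add_zero] at h1
  exact h1

private theorem a01_anti (i j k : Fin A.m) : fip (A.Z k) (A.Z i * A.Z j - A.Z j * A.Z i) =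
    -fip (A.Z j) (A.Z i * A.Z k - A.Z k * A.Z i) := by
  unfold fip
  rw [A.Z_t, A.Z_t]
  simp only [Matrix.neg_mul, Matrix.trace_neg, Matrix.mul_sub, Matrix.trace_sub,
    ← Matrix.mul_assoc]
  rw [a01_tr (A.Z j) (A.Z i) (A.Z k), ← a01_tr (A.Z k) (A.Z i) (A.Z j)]
  ring

private theorem a01_comm (i j : Fin A.m) (v : V) :
    A.D (A.Z i) (A.D (A.Z j) v) - A.D (A.Z j) (A.D (A.Z i) v) =
      ∑ k, fip (A.Z k) (A.Z i * A.Z j - A.Z j * A.Z i) • A.D (A.Z k) v := by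
  rw [← A.brD _ (A.Z_mem i) _ (A.Z_mem j)]
  conv_lhs => rw [A.a01_br i j, map_sum, LinearMap.sum_apply]
  refine Finset.sum_congr rfl fun k _ => ?_
  rw [map_smul, LinearMap.smul_apply]

private theorem a01_cas (i : Fin A.m) (v : V) :
    A.D (A.Z i) (∑ j, A.D (A.Z j) (A.D (A.Z j) v)) =
      ∑ j, A.D (A.Z j) (A.D (A.Z j) (A.D (A.Z i) v)) := by
  rw [map_sum, ← sub_eq_zero, ← Finset.sum_sub_distrib]
  set c : Fin A.m → Fin A.m → ℝ := fun k j => fip (A.Z k) (A.Z i * A.Z j - A.Z j * A.Z i) with hc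
  set S : V := ∑ j, ∑ k, c k j • (A.D (A.Z k) (A.D (A.Z j) v) + A.D (A.Z j) (A.D (A.Z k) v)) with hS
  have h1 : ∑ j, (A.D (A.Z i) (A.D (A.Z j) (A.D (A.Z j) v)) -
      A.D (A.Z j) (A.D (A.Z j) (A.D (A.Z i) v))) = S := by
    refine Finset.sum_congr rfl fun j _ => ?_
    have h2 := A.a01_comm i j (A.D (A.Z j) v)
    have h3 := congrArg (A.D (A.Z j)) (A.a01_comm i j v)
    rw [map_sub, map_sum] at h3
    have h4 : A.D (A.Z i) (A.D (A.Z j) (A.D (A.Z j) v)) -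
      A.D (A.Z j) (A.D (A.Z j) (A.D (A.Z i) v)) =
      (A.D (A.Z i) (A.D (A.Z j) (A.D (A.Z j) v)) - A.D (A.Z j) (A.D (A.Z i) (A.D (A.Z j) v))) +
      (A.D (A.Z j) (A.D (A.Z i) (A.D (A.Z j) v)) - A.D (A.Z j) (A.D (A.Z j) (A.D (A.Z i) v))) := by
      abel
    rw [h4, h2, h3, ← Finset.sum_add_distrib]
    refine Finset.sum_congr rfl fun k _ => ?_
    rw [smul_add, LinearMap.map_smul_of_tower]
  rw [h1]
  have h5 : S = -S := by
    conv_lhs => rw [hS, Finset.sum_comm]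
    rw [hS, ← Finset.sum_neg_distrib]
    refine Finset.sum_congr rfl fun k _ => ?_
    rw [← Finset.sum_neg_distrib]
    refine Finset.sum_congr rfl fun j _ => ?_
    have h6 : c k j = -c j k := A.a01_anti i j k
    rw [h6, neg_smul, add_comm]
  have h7 : (2 : ℂ) • S = 0 := by
    rw [two_smul]
    nth_rewrite 1 [h5]
    exact neg_add_cancel S
  exact (smul_eq_zero.1 h7).resolve_left two_ne_zero

theorem D_Z_eig {lam : ℝ} {v : V} (hv : v ∈ A.eig lam) (i : Fin A.m) :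
    A.D (A.Z i) v ∈ A.eig lam := by
  rw [a01_mem] at hv ⊢
  rw [a01_Del, ← A.a01_cas i v, ← map_sub, ← a01_Del, hv, map_smul]

theorem norm_D_Z_le {lam : ℝ} {v : V} (hv : v ∈ A.eig lam) (i : Fin A.m) :
    ‖A.D (A.Z i) v‖ ^ 2 ≤ lam * ‖v‖ ^ 2 := by
  have h1 := A.a01_eig hv
  rw [A.re_inner_Del] at h1
  have h2 : ‖A.D (A.Z i) v‖ ^ 2 ≤ ∑ i, ‖A.D (A.Z i) v‖ ^ 2 :=
    Finset.single_le_sum (f := fun i => ‖A.D (A.Z i) v‖ ^ 2) (fun i _ => by positivity)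
      (Finset.mem_univ i)
  have h3 : 0 ≤ ‖v‖ ^ 2 := by positivity
  linarith

end LieRep

end SBD
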