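import Pool.Agent.SBD.A01

/-!
# Row SBD-A02 : the spaces `low R = ⨆_{lam ≤ R} V_lam`

* `mem_low_iff` : the set of finite sums is a submodule containing every `V_lam`, `lam ≤ R`
  (`→`: `Submodule.iSup_induction`, merging two finite sums: use the union of the supports and the
  sum of the two functions, each made 0 outside its support; `←`: `Submodule.sum_mem`,
  `Submodule.mem_iSup_of_mem`).
* `mem_all` : the same argument for `⨆ lam, V_lam = ⊤`.
* `split_low` : from `mem_all`, split the finite sum according to `l ≤ R` or `R < l`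
  (`Finset.sum_filter_add_sum_filter_not`).
* `exists_low` : take `R` = a bound of the finite set.
* `re_inner_Del_le` : `v = ∑ f l`, `Re⟨Δv,v⟩ = ∑ l ‖f l‖² ≤ R ∑‖f l‖² = R‖v‖²`
  (`eig_orth`, `norm_sq_sum`).
* `sum_D_Z_le` : `∑_i ‖D(Z_i)v‖² ≤ R ‖v‖²` for `v ∈ low R`, from `re_inner_Del` (A01) and
  `re_inner_Del_le`.
* `orth_low` : write `z = y + ∑ f l` (`split_low`); `y ∈ low R` is orthogonal to `z` and to the
  `f l`, so `‖y‖² = 0`.
-/

open scoped Matrix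

noncomputable section

namespace SBD

namespace LieRep

variable {N : ℕ} {V : Type} [NormedAddCommGroup V] [InnerProductSpace ℂ V] (A : LieRep N V)

theorem low_mono {R S : ℝ} (h : R ≤ S) : A.low R ≤ A.low S :=
  iSup_le fun l => le_iSup (fun l : {x : ℝ // x ≤ S} => A.eig l) ⟨l.1, l.2.trans h⟩

theorem eig_le_low {lam R : ℝ} (h : lam ≤ R) : A.eig lam ≤ A.low R :=
  le_iSup (fun l : {x : ℝ // x ≤ R} => A.eig l) ⟨lam, h⟩

/-- the finite sums of eigenvectors with eigenvalues satisfying `p` -/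
private def a02Q (p : ℝ → Prop) : Submodule ℂ V where
  carrier := {v | ∃ (s : Finset ℝ) (f : ℝ → V), (∀ l ∈ s, p l ∧ f l ∈ A.eig l) ∧ v = ∑ l ∈ s, f l}
  add_mem' := by
    classical
    rintro a b ⟨s₁, f₁, h₁, rfl⟩ ⟨s₂, f₂, h₂, rfl⟩
    refine ⟨s₁ ∪ s₂, fun l => (if l ∈ s₁ then f₁ l else 0) + (if l ∈ s₂ then f₂ l else 0), ?_, ?_⟩
    · intro l hl
      refine ⟨?_, ?_⟩
      · rcases Finset.mem_union.1 hl with h | h
        · exact (h₁ l h).1
        · exact (h₂ l h).1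
      · refine (A.eig l).add_mem ?_ ?_
        · split_ifs with h
          · exact (h₁ l h).2
          · exact (A.eig l).zero_mem
        · split_ifs with h
          · exact (h₂ l h).2
          · exact (A.eig l).zero_mem
    · rw [Finset.sum_add_distrib, Finset.sum_ite_mem, Finset.sum_ite_mem,
        Finset.union_inter_cancel_left, Finset.union_inter_cancel_right]
  zero_mem' := ⟨∅, fun _ => 0, by simp, by simp⟩
  smul_mem' := by
    rintro c v ⟨s, f, h, rfl⟩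
    exact ⟨s, fun l => c • f l, fun l hl => ⟨(h l hl).1, (A.eig l).smul_mem c (h l hl).2⟩,
      Finset.smul_sum⟩

private theorem a02_eig (p : ℝ → Prop) (l : ℝ) (hl : p l) : A.eig l ≤ A.a02Q p := by
  intro v hv
  refine ⟨{l}, fun _ => v, ?_, by simp⟩
  intro l' hl'
  rw [Finset.mem_singleton] at hl'
  rw [hl']
  exact ⟨hl, hv⟩

theorem mem_low_iff {R : ℝ} {v : V} : v ∈ A.low R ↔
    ∃ (s : Finset ℝ) (f : ℝ → V), (∀ l ∈ s, l ≤ R ∧ f l ∈ A.eig l) ∧ v = ∑ l ∈ s, f l := by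
  constructor
  · intro hv
    have h : A.low R ≤ A.a02Q (fun l => l ≤ R) := iSup_le fun l => A.a02_eig _ l.1 l.2
    exact h hv
  · rintro ⟨s, f, h, rfl⟩
    exact Submodule.sum_mem _ fun l hl => A.eig_le_low (h l hl).1 (h l hl).2

theorem mem_all (hA : A.IsAdm) (v : V) :
    ∃ (s : Finset ℝ) (f : ℝ → V), (∀ l ∈ s, f l ∈ A.eig l) ∧ v = ∑ l ∈ s, f l := by
  have h : ⨆ lam : ℝ, A.eig lam ≤ A.a02Q (fun _ => True) :=
    iSup_le fun l => A.a02_eig _ l trivial
  rw [hA.top] at h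
  obtain ⟨s, f, h1, h2⟩ := h (Submodule.mem_top (x := v))
  exact ⟨s, f, fun l hl => (h1 l hl).2, h2⟩

theorem split_low (hA : A.IsAdm) (R : ℝ) (v : V) :
    ∃ y ∈ A.low R, ∃ (s : Finset ℝ) (f : ℝ → V), (∀ l ∈ s, R < l ∧ f l ∈ A.eig l) ∧
      v = y + ∑ l ∈ s, f l := by
  classical
  obtain ⟨s, f, h, rfl⟩ := A.mem_all hA v
  refine ⟨∑ l ∈ s.filter (fun l => l ≤ R), f l, ?_, s.filter (fun l => ¬ l ≤ R), f, ?_, ?_⟩
  · refine Submodule.sum_mem _ fun l hl => ?_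
    obtain ⟨h1, h2⟩ := Finset.mem_filter.1 hl
    exact A.eig_le_low h2 (h l h1)
  · intro l hl
    obtain ⟨h1, h2⟩ := Finset.mem_filter.1 hl
    exact ⟨not_le.1 h2, h l h1⟩
  · exact (Finset.sum_filter_add_sum_filter_not s (fun l => l ≤ R) f).symm

theorem exists_low (hA : A.IsAdm) (v : V) : ∃ R : ℝ, 1 ≤ R ∧ v ∈ A.low R := by
  obtain ⟨s, f, h, rfl⟩ := A.mem_all hA v
  refine ⟨1 + ∑ l ∈ s, |l|, ?_, ?_⟩
  · have := Finset.sum_nonneg (s := s) fun l _ => abs_nonneg l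
    linarith
  · refine Submodule.sum_mem _ fun l hl => A.eig_le_low ?_ (h l hl)
    have h1 := Finset.single_le_sum (f := fun l : ℝ => |l|) (fun l _ => abs_nonneg l) hl
    have h2 := le_abs_self l
    linarith

theorem re_inner_Del_le {R : ℝ} {v : V} (hv : v ∈ A.low R) :
    (inner ℂ (A.Del v) v).re ≤ R * ‖v‖ ^ 2 := by
  obtain ⟨s, f, h, rfl⟩ := A.mem_low_iff.1 hv
  rw [A.norm_sq_sum s f fun l hl => (h l hl).2, Finset.mul_sum]
  have h1 : A.Del (∑ l ∈ s, f l) = ∑ l ∈ s, (l : ℂ) • f l := by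
    rw [map_sum]
    exact Finset.sum_congr rfl fun l hl => (h l hl).2
  rw [h1, sum_inner, Complex.re_sum]
  refine Finset.sum_le_sum fun l hl => ?_
  rw [inner_smul_left, inner_sum, Finset.sum_eq_single l]
  · rw [Complex.conj_ofReal, Complex.re_ofReal_mul, inner_self_eq_norm_sq_to_K]
    have e : (((‖f l‖ : ℝ) : ℂ) ^ 2).re = ‖f l‖ ^ 2 := by
      rw [← Complex.ofReal_pow, Complex.ofReal_re]
    have e' : ((((RCLike.ofReal ‖f l‖ : ℂ)) ^ 2)).re = ‖f l‖ ^ 2 := e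
    rw [e']
    exact mul_le_mul_of_nonneg_right (h l hl).1 (sq_nonneg _)
  · intro l' hl' hne
    exact A.eig_orth (Ne.symm hne) (h l hl).2 (h l' hl').2
  · exact fun h' => absurd hl h'

theorem sum_D_Z_le {R : ℝ} {v : V} (hv : v ∈ A.low R) :
    ∑ i, ‖A.D (A.Z i) v‖ ^ 2 ≤ R * ‖v‖ ^ 2 := by
  have h1 := A.re_inner_Del v
  have h2 := A.re_inner_Del_le hv
  have h3 := sq_nonneg ‖v‖
  linarith

theorem orth_low (hA : A.IsAdm) {R : ℝ} {z : V} (hz : ∀ y ∈ A.low R, inner ℂ y z = 0) :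
    ∃ (s : Finset ℝ) (f : ℝ → V), (∀ l ∈ s, R < l ∧ f l ∈ A.eig l) ∧ z = ∑ l ∈ s, f l := by
  obtain ⟨y, hy, s, f, h, rfl⟩ := A.split_low hA R z
  refine ⟨s, f, h, ?_⟩
  have h1 := hz y hy
  have h2 : inner ℂ y (∑ l ∈ s, f l) = 0 := by
    obtain ⟨t, g, hg, rfl⟩ := A.mem_low_iff.1 hy
    rw [sum_inner]
    refine Finset.sum_eq_zero fun l' hl' => ?_
    rw [inner_sum]
    refine Finset.sum_eq_zero fun l hl => ?_
    refine A.eig_orth ?_ (hg l' hl').2 (h l hl).2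
    exact ne_of_lt (lt_of_le_of_lt (hg l' hl').1 (h l hl).1)
  rw [inner_add_right, h2, add_zero, inner_self_eq_zero] at h1
  rw [h1, zero_add]

end LieRep

end SBD

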