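import Pool.Agent.SBD.A02

/-!
# Row SBD-A03 : bandwidth.  `D(X)` maps `V_lam` into the sum of the `V_l` with `|l - lam| ≤ C √lam`.

PROOF.  Write `c j X := Z_j X - X Z_j` (`∈ 𝔤` for `X ∈ 𝔤`).  By `brD`
  `D(Z_j)² D(X) v = D(X) D(Z_j)² v + 2 D(c j X) D(Z_j) v + D(c j (c j X)) v`
(indeed `D(Z)D(X) = D(X)D(Z) + D([Z,X])`, apply it twice).  Hence for `ψ ∈ V_lam`, `X ∈ 𝔤`:
  (1) `Δ (D(X)ψ) = lam D(X)ψ - ∑_j (D(c j (c j X))ψ + 2 D(c j X) D(Z_j)ψ)`.
Fix `lam`, `l`.  Let `T(v)` denote the `V_l`-component of `v` in the decomposition of `A02.mem_all`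
(e.g. define `T` as the orthogonal projection onto `V_l`, which is finite-dimensional because
`V_l ≤ low l`; `T` is linear, `T ∘ Δ = l T` by `inner_Del`, `‖Tv‖ ≤ ‖v‖`; and `T` kills `V_{l'}`,
`l' ≠ l`).  Apply `T` to (1):
  (2) `(l - lam) T(D(X)ψ) = - ∑_j (T(D(c j (c j X))ψ) + 2 T(D(c j X) D(Z_j)ψ))`.
Let `B_1,…,B_d` be the basis `(Z_a),(P_b)` of `𝔤` (`A.basis`), and let
`M = sup { ‖T(D(B_α)ψ)‖ : α, ψ ∈ V_lam, ‖ψ‖ ≤ 1 }`: a finite number since `V_lam ≤ low lam` is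
finite-dimensional and `ψ ↦ T(D(B_α)ψ)` is linear on it (`LinearMap.toContinuousLinearMap`,
operator norm; or simply: there is a constant `M` with `‖T(D(B_α)ψ)‖ ≤ M‖ψ‖` for all `α, ψ`; take
the operator norms and let `M` be the largest of them).  Every `Y ∈ 𝔤` satisfies
`‖T(D(Y)ψ)‖ ≤ (∑_α |fip B_α Y|) M ‖ψ‖`.  The numbers `∑_α |fip B_α (c j B_β)|`,
`∑_α |fip B_α (c j (c j B_β))|` are bounded by a constant `C₁` not depending on `lam, l`; with
`m = A.m`, `D(Z_j)ψ ∈ V_lam`, `‖D(Z_j)ψ‖ ≤ √lam ‖ψ‖` (A01) we get from (2)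
  `|l - lam| M ≤ m C₁ (1 + 2 √lam) M`.
(For `M` = the maximum of the operator norms, for each `α`: `|l-lam| ‖T D(B_α)‖ ≤ m C₁(1+2√lam) M`.)
So `M = 0` unless `|l - lam| ≤ 3 m C₁ √lam` (`lam ≥ 1` may be assumed, else `ψ = 0` by `eig_ge` and
`s = ∅` works).  Take `C = 1 + 3 m C₁`.  If `M = 0` for `l` then the `V_l`-component of `D(X)ψ` is 0
for every `X ∈ 𝔤`, `ψ ∈ V_lam`; so in the decomposition `D(X)ψ = ∑_{l∈s} f l` of `mem_all` the terms
with `|l - lam| > C√lam` vanish; filter the finset.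
-/

open scoped Matrix

noncomputable section

namespace SBD

namespace LieRep

variable {N : ℕ} {V : Type} [NormedAddCommGroup V] [InnerProductSpace ℂ V] (A : LieRep N V)

/-- the basis of the Lie algebra -/
private def a03_B : Fin A.m ⊕ Fin A.n → Mat N := Sum.elim A.Z A.P

private theorem a03_B_mem (α : Fin A.m ⊕ Fin A.n) : a03_B A α ∈ A.𝔤 := by
  rcases α with i | i
  · exact A.Z_mem i
  · exact A.P_mem i

private theorem a03_basis (X : Mat N) (hX : X ∈ A.𝔤) :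
    X = ∑ α, fip (a03_B A α) X • a03_B A α := by
  rw [Fintype.sum_sum_type]
  exact A.basis X hX

/-- bracket with `Z` -/
private def a03_c (j : Fin A.m) (X : Mat N) : Mat N := A.Z j * X - X * A.Z j

private theorem a03_c_mem (j : Fin A.m) (X : Mat N) (hX : X ∈ A.𝔤) : a03_c A j X ∈ A.𝔤 :=
  A.br _ (A.Z_mem j) _ hX

/-- the commutator of `Δ` and `D(X)` -/
private theorem a03_comm (X : Mat N) (hX : X ∈ A.𝔤) (v : V) :
    A.Del (A.D X v) = A.D X (A.Del v) -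
      ∑ j, (A.D (a03_c A j (a03_c A j X)) v + (2 : ℂ) • A.D (a03_c A j X) (A.D (A.Z j) v)) := by
  have h1 : ∀ j, ∀ Y ∈ A.𝔤, ∀ u : V, A.D (A.Z j) (A.D Y u) = A.D Y (A.D (A.Z j) u) +
      A.D (a03_c A j Y) u := by
    intro j Y hY u
    have := A.brD _ (A.Z_mem j) _ hY u
    rw [a03_c, this]
    abel
  have h2 : ∀ j, A.D (A.Z j) (A.D (A.Z j) (A.D X v)) = A.D X (A.D (A.Z j) (A.D (A.Z j) v)) +
      (A.D (a03_c A j (a03_c A j X)) v + (2 : ℂ) • A.D (a03_c A j X) (A.D (A.Z j) v)) := by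
    intro j
    rw [h1 j X hX v, map_add, h1 j X hX, h1 j _ (a03_c_mem A j X hX), two_smul]
    abel
  have h3 : ∀ u : V, A.Del u = u - ∑ j, A.D (A.Z j) (A.D (A.Z j) u) := by
    intro u
    simp [Del, LinearMap.sum_apply]
  rw [h3, h3, map_sub, map_sum, Finset.sum_congr rfl fun j _ => h2 j, Finset.sum_add_distrib]
  abel

/-- the values of `D` through the basis -/
private theorem a03_exp (Y : Mat N) (hY : Y ∈ A.𝔤) (w v : V) (M : ℝ)
    (hM : ∀ α, ‖inner ℂ w (A.D (a03_B A α) v)‖ ≤ M) :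
    ‖inner ℂ w (A.D Y v)‖ ≤ (∑ α, |fip (a03_B A α) Y|) * M := by
  have h1 : A.D Y v = ∑ α, ((fip (a03_B A α) Y : ℝ) : ℂ) • A.D (a03_B A α) v := by
    conv_lhs => rw [a03_basis A Y hY]
    rw [map_sum, LinearMap.sum_apply]
    refine Finset.sum_congr rfl fun α _ => ?_
    rw [map_smul, LinearMap.smul_apply]
    exact (Complex.coe_smul _ _).symm
  rw [h1, inner_sum, Finset.sum_mul]
  refine (norm_sum_le _ _).trans (Finset.sum_le_sum fun α _ => ?_)
  rw [inner_smul_right, norm_mul, Complex.norm_real, Real.norm_eq_abs]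
  exact mul_le_mul_of_nonneg_left (hM α) (abs_nonneg _)

/-- the constant -/
private def a03_C1 : ℝ := ∑ j, ∑ β, ((∑ α, |fip (a03_B A α) (a03_c A j (a03_B A β))|) +
  ∑ α, |fip (a03_B A α) (a03_c A j (a03_c A j (a03_B A β)))|)

private theorem a03_C1_le (j : Fin A.m) (β : Fin A.m ⊕ Fin A.n) :
    (∑ α, |fip (a03_B A α) (a03_c A j (a03_B A β))|) ≤ a03_C1 A ∧
    (∑ α, |fip (a03_B A α) (a03_c A j (a03_c A j (a03_B A β)))|) ≤ a03_C1 A := by
  have h0 : ∀ j β, 0 ≤ (∑ α, |fip (a03_B A α) (a03_c A j (a03_B A β))|) :=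
    fun j β => Finset.sum_nonneg fun α _ => abs_nonneg _
  have h1 : ∀ j β, 0 ≤ (∑ α, |fip (a03_B A α) (a03_c A j (a03_c A j (a03_B A β)))|) :=
    fun j β => Finset.sum_nonneg fun α _ => abs_nonneg _
  have h2 : ((∑ α, |fip (a03_B A α) (a03_c A j (a03_B A β))|) +
      ∑ α, |fip (a03_B A α) (a03_c A j (a03_c A j (a03_B A β)))|) ≤ a03_C1 A := by
    refine le_trans ?_ (Finset.single_le_sum
      (f := fun j => ∑ β, ((∑ α, |fip (a03_B A α) (a03_c A j (a03_B A β))|) +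
        ∑ α, |fip (a03_B A α) (a03_c A j (a03_c A j (a03_B A β)))|))
      (fun j _ => Finset.sum_nonneg fun β _ => add_nonneg (h0 j β) (h1 j β))
      (Finset.mem_univ j))
    exact Finset.single_le_sum
      (f := fun β => ((∑ α, |fip (a03_B A α) (a03_c A j (a03_B A β))|) +
        ∑ α, |fip (a03_B A α) (a03_c A j (a03_c A j (a03_B A β)))|))
      (fun β _ => add_nonneg (h0 j β) (h1 j β)) (Finset.mem_univ β)
  exact ⟨by linarith [h1 j β], by linarith [h0 j β]⟩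

private theorem a03_C1_nonneg : 0 ≤ a03_C1 A :=
  Finset.sum_nonneg fun _ _ => Finset.sum_nonneg fun _ _ =>
    add_nonneg (Finset.sum_nonneg fun _ _ => abs_nonneg _)
      (Finset.sum_nonneg fun _ _ => abs_nonneg _)

/-- one step -/
private theorem a03_step {l lam M : ℝ} (hM : ∀ α, ∀ w ∈ A.eig l, ∀ v ∈ A.eig lam,
      ‖inner ℂ w (A.D (a03_B A α) v)‖ ≤ M * ‖w‖ * ‖v‖) (hM0 : 0 ≤ M) (h1 : 1 ≤ lam)
    (β : Fin A.m ⊕ Fin A.n) (w : V) (hw : w ∈ A.eig l) (v : V) (hv : v ∈ A.eig lam) :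
    |l - lam| * ‖inner ℂ w (A.D (a03_B A β) v)‖ ≤
      (A.m * a03_C1 A * (3 * Real.sqrt lam)) * M * ‖w‖ * ‖v‖ := by
  have hs1 : 1 ≤ Real.sqrt lam := by
    rw [show (1 : ℝ) = Real.sqrt 1 by simp]
    exact Real.sqrt_le_sqrt h1
  have hC := a03_C1_nonneg A
  set X := a03_B A β with hX
  have hXm : X ∈ A.𝔤 := a03_B_mem A β
  have hΔ : A.Del w = (l : ℂ) • w := hw
  have hΔv : A.Del v = (lam : ℂ) • v := hv
  have h2 : (l : ℂ) * inner ℂ w (A.D X v) = (lam : ℂ) * inner ℂ w (A.D X v) -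
      ∑ j, inner ℂ w (A.D (a03_c A j (a03_c A j X)) v +
        (2 : ℂ) • A.D (a03_c A j X) (A.D (A.Z j) v)) := by
    have h3 := A.inner_Del w (A.D X v)
    rw [hΔ, inner_smul_left, Complex.conj_ofReal, a03_comm A X hXm v, hΔv, inner_sub_right,
      map_smul, inner_smul_right, inner_sum] at h3
    exact h3
  have h3 : ((l - lam : ℝ) : ℂ) * inner ℂ w (A.D X v) =
      - ∑ j, inner ℂ w (A.D (a03_c A j (a03_c A j X)) v +
        (2 : ℂ) • A.D (a03_c A j X) (A.D (A.Z j) v)) := by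
    push_cast
    linear_combination h2
  have h4 : |l - lam| * ‖inner ℂ w (A.D X v)‖ = ‖∑ j, inner ℂ w (A.D (a03_c A j (a03_c A j X)) v +
        (2 : ℂ) • A.D (a03_c A j X) (A.D (A.Z j) v))‖ := by
    rw [← norm_neg (∑ j, _), ← h3, norm_mul, Complex.norm_real, Real.norm_eq_abs]
  rw [h4]
  have hwn := norm_nonneg w
  have hvn := norm_nonneg v
  have h5 : ∀ j, ‖inner ℂ w (A.D (a03_c A j (a03_c A j X)) v +
        (2 : ℂ) • A.D (a03_c A j X) (A.D (A.Z j) v))‖ ≤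
        a03_C1 A * (3 * Real.sqrt lam) * M * ‖w‖ * ‖v‖ := by
    intro j
    obtain ⟨c1, c2⟩ := a03_C1_le A j β
    have h6 : ‖inner ℂ w (A.D (a03_c A j (a03_c A j X)) v)‖ ≤ a03_C1 A * (M * ‖w‖ * ‖v‖) := by
      refine (a03_exp A _ (a03_c_mem A j _ (a03_c_mem A j X hXm)) w v (M * ‖w‖ * ‖v‖)
        (fun α => hM α w hw v hv)).trans ?_
      exact mul_le_mul_of_nonneg_right c2 (by positivity)
    have h7 : ‖A.D (A.Z j) v‖ ≤ Real.sqrt lam * ‖v‖ := by
      have h8 := A.norm_D_Z_le hv j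
      have h9 : lam * ‖v‖ ^ 2 = (Real.sqrt lam * ‖v‖) ^ 2 := by
        rw [mul_pow, Real.sq_sqrt (by linarith)]
      rw [h9] at h8
      exact (pow_le_pow_iff_left₀ (norm_nonneg _) (by positivity) two_ne_zero).1 h8
    have h10 : ‖inner ℂ w (A.D (a03_c A j X) (A.D (A.Z j) v))‖ ≤
        a03_C1 A * (M * ‖w‖ * (Real.sqrt lam * ‖v‖)) := by
      refine (a03_exp A _ (a03_c_mem A j X hXm) w _ (M * ‖w‖ * (Real.sqrt lam * ‖v‖))
        (fun α => (hM α w hw _ (A.D_Z_eig hv j)).trans ?_)).trans ?_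
      · exact mul_le_mul_of_nonneg_left h7 (by positivity)
      · exact mul_le_mul_of_nonneg_right c1 (by positivity)
    rw [inner_add_right, inner_smul_right]
    refine (norm_add_le _ _).trans ?_
    rw [norm_mul, Complex.norm_ofNat]
    have h11 : a03_C1 A * (M * ‖w‖ * ‖v‖) ≤ a03_C1 A * (M * ‖w‖ * ‖v‖) * Real.sqrt lam :=
      le_mul_of_one_le_right (by positivity) hs1
    nlinarith
  refine (norm_sum_le _ _).trans ((Finset.sum_le_sum fun j _ => h5 j).trans ?_)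
  rw [Finset.sum_const, Finset.card_univ, Fintype.card_fin, nsmul_eq_mul]
  apply le_of_eq
  ring

/-- the operators are bounded on the eigenspaces -/
private theorem a03_bd (hA : A.IsAdm) (lam : ℝ) : ∃ M : ℝ, 0 ≤ M ∧
    ∀ α, ∀ v ∈ A.eig lam, ‖A.D (a03_B A α) v‖ ≤ M * ‖v‖ := by
  haveI := hA.fin lam
  haveI : FiniteDimensional ℂ (A.eig lam) :=
    Submodule.finiteDimensional_of_le (A.eig_le_low le_rfl)
  have h1 : ∀ α, ∃ K : ℝ, 0 ≤ K ∧ ∀ v ∈ A.eig lam, ‖A.D (a03_B A α) v‖ ≤ K * ‖v‖ := by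
    intro α
    let F : A.eig lam →L[ℂ] V :=
      LinearMap.toContinuousLinearMap ((A.D (a03_B A α)).domRestrict (A.eig lam))
    refine ⟨‖F‖, F.opNorm_nonneg, fun v hv => ?_⟩
    exact F.le_opNorm ⟨v, hv⟩
  choose K hK0 hK using h1
  refine ⟨∑ α, K α, Finset.sum_nonneg fun α _ => hK0 α, fun α v hv => ?_⟩
  refine (hK α v hv).trans (mul_le_mul_of_nonneg_right ?_ (norm_nonneg _))
  exact Finset.single_le_sum (fun β _ => hK0 β) (Finset.mem_univ α)

/-- distant eigenspaces are orthogonal -/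
private theorem a03_far (hA : A.IsAdm) {l lam : ℝ} (h1 : 1 ≤ lam)
    (hl : (1 + A.m * a03_C1 A * 3) * Real.sqrt lam < |l - lam|) (α : Fin A.m ⊕ Fin A.n) (w : V)
    (hw : w ∈ A.eig l) (v : V) (hv : v ∈ A.eig lam) : inner ℂ w (A.D (a03_B A α) v) = 0 := by
  obtain ⟨M, hM0, hM⟩ := a03_bd A hA lam
  have hs1 : 1 ≤ Real.sqrt lam := by
    rw [show (1 : ℝ) = Real.sqrt 1 by simp]
    exact Real.sqrt_le_sqrt h1
  have hC1 := a03_C1_nonneg A
  set D := A.m * a03_C1 A * 3 with hD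
  have hD0 : 0 ≤ D := by positivity
  set q := D / (1 + D) with hq
  have hq0 : 0 ≤ q := by positivity
  have hq1 : q < 1 := by
    rw [hq, div_lt_one (by positivity)]
    linarith
  have h2 : ∀ n : ℕ, ∀ α, ∀ w ∈ A.eig l, ∀ v ∈ A.eig lam,
      ‖inner ℂ w (A.D (a03_B A α) v)‖ ≤ (q ^ n * M) * ‖w‖ * ‖v‖ := by
    intro n
    induction n with
    | zero =>
      intro α w hw v hv
      refine (norm_inner_le_norm _ _).trans ?_
      rw [pow_zero, one_mul]
      have := mul_le_mul_of_nonneg_left (hM α v hv) (norm_nonneg w)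
      linarith
    | succ n ih =>
      intro β w hw v hv
      have h3 := a03_step A ih (by positivity) h1 β w hw v hv
      have hb := norm_nonneg (inner ℂ w (A.D (a03_B A β) v))
      have h4 : (1 + D) * Real.sqrt lam * ‖inner ℂ w (A.D (a03_B A β) v)‖ ≤
          D * Real.sqrt lam * (q ^ n * M) * ‖w‖ * ‖v‖ := by
        refine (mul_le_mul_of_nonneg_right hl.le hb).trans (h3.trans (le_of_eq ?_))
        rw [hD]
        ring
      have h5 : (0 : ℝ) < (1 + D) * Real.sqrt lam := by positivity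
      refine le_of_mul_le_mul_left (h4.trans (le_of_eq ?_)) h5
      have h6 : (1 + D) * q = D := by
        rw [hq]
        field_simp
      calc D * Real.sqrt lam * (q ^ n * M) * ‖w‖ * ‖v‖
          = ((1 + D) * q) * Real.sqrt lam * (q ^ n * M) * ‖w‖ * ‖v‖ := by rw [h6]
        _ = (1 + D) * Real.sqrt lam * ((q ^ (n + 1) * M) * ‖w‖ * ‖v‖) := by ring
  have h3 : Filter.Tendsto (fun n : ℕ => (q ^ n * M) * ‖w‖ * ‖v‖) Filter.atTop (nhds 0) := by
    have := (((tendsto_pow_atTop_nhds_zero_of_lt_one hq0 hq1).mul_const M).mul_const ‖w‖).mul_const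
      ‖v‖
    simpa using this
  have h4 := ge_of_tendsto' h3 (fun n => h2 n α w hw v hv)
  exact norm_le_zero_iff.1 h4

theorem band (hA : A.IsAdm) : ∃ C : ℝ, 1 ≤ C ∧ ∀ X ∈ A.𝔤, ∀ lam : ℝ, ∀ ψ ∈ A.eig lam,
    ∃ (s : Finset ℝ) (f : ℝ → V),
      (∀ l ∈ s, |l - lam| ≤ C * Real.sqrt lam ∧ f l ∈ A.eig l) ∧ A.D X ψ = ∑ l ∈ s, f l := by
  classical
  have hC1 := a03_C1_nonneg A
  refine ⟨1 + A.m * a03_C1 A * 3, by nlinarith [mul_nonneg (Nat.cast_nonneg (α := ℝ) A.m) hC1], ?_⟩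
  intro X hX lam ψ hψ
  by_cases hψ0 : ψ = 0
  · refine ⟨∅, 0, by simp, ?_⟩
    rw [hψ0, map_zero, Finset.sum_empty]
  have h1 := A.eig_ge hψ hψ0
  obtain ⟨s, f, hf, hs⟩ := A.mem_all hA (A.D X ψ)
  refine ⟨s.filter fun l => |l - lam| ≤ (1 + A.m * a03_C1 A * 3) * Real.sqrt lam, f, ?_, ?_⟩
  · intro l hl
    rw [Finset.mem_filter] at hl
    exact ⟨hl.2, hf l hl.1⟩
  · rw [hs]
    symm
    refine Finset.sum_filter_of_ne fun l hl hne => ?_
    by_contra hlt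
    push Not at hlt
    apply hne
    have h2 : inner ℂ (f l) (A.D X ψ) = 0 := by
      have h3 := a03_exp A X hX (f l) ψ 0 (fun α => by
        rw [a03_far A hA h1 hlt α (f l) (hf l hl) ψ hψ, norm_zero])
      rw [mul_zero] at h3
      exact norm_le_zero_iff.1 h3
    rw [hs, inner_sum, Finset.sum_eq_single_of_mem l hl] at h2
    · exact inner_self_eq_zero.1 h2
    · intro l' hl' hne'
      exact A.eig_orth (Ne.symm hne') (hf l hl) (hf l' hl')

end LieRep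

end SBD

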