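import Pool.Agent.SBD.A02

/-!
# Row SBD-A04 : `∑ D(P_b)² = ∑ D(Z_a)² + z` and the norm bound `‖D(X)ψ‖ ≤ C √(fsq X) √R ‖ψ‖`

* `sum_P_sq` : `hA.tr 2` gives `z : ℂ` with `(A.X^2).trace = z • 1`.  On the other hand
  `(A.X^2).trace = ∑_{i,j} D(W i j) ∘ D(W j i)`.  Write `W i j = ∑_α σ_α (B_α)_{ij} B_α` where
  `B = (Z, P)`, `σ = -1` on `Z` and `+1` on `P`.  So the trace equals
  `∑_{α,β} σ_α σ_β tr(B_α B_β) D(B_α) D(B_β)`, and `tr(Z_a Z_b) = -fip(Z_a,Z_b) = -δ`,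
  `tr(P_a P_b) = δ`, `tr(Z_a P_b) = 0` (trace of the product of a skew and a symmetric matrix).
  So it equals `-∑ D(Z_a)² + ∑ D(P_b)²`.  The number `z` is real: if `V ≠ 0` take `v ≠ 0`;
  `⟨(−∑D(Z)²+∑D(P)²)v, v⟩` is real by skewness, and equals `conj z ‖v‖²`; if `V = 0` take `z = 0`.
* `norm_D_le` : for `ψ ∈ low R`, `R ≥ 1`:
  `∑_b ‖D(P_b)ψ‖² = -Re⟨∑ D(P_b)²ψ, ψ⟩ = -Re⟨∑D(Z_a)²ψ,ψ⟩ - z‖ψ‖² = ∑‖D(Z_a)ψ‖² - z‖ψ‖²
   ≤ (R + |z|)‖ψ‖² ≤ (1+|z|) R ‖ψ‖²` (`sum_D_Z_le`).  For `X ∈ 𝔤`: `X = ∑ fip(B_α,X) B_α`, so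
  `‖D(X)ψ‖ ≤ ∑ |fip(B_α,X)| ‖D(B_α)ψ‖ ≤ √(∑ fip(B_α,X)²) √(∑‖D(B_α)ψ‖²)` (Cauchy–Schwarz), and
  `∑_α fip(B_α,X)² = fsq X` (Parseval for the orthonormal basis: apply `fip · X` to `A.basis`;
  `fip` is bilinear), and `∑_α ‖D(B_α)ψ‖² ≤ (2+|z|) R ‖ψ‖²`.
-/

open scoped Matrix

noncomputable section

namespace SBD

namespace LieRep

variable {N : ℕ} {V : Type} [NormedAddCommGroup V] [InnerProductSpace ℂ V] (A : LieRep N V)

/-- the basis of `𝔤` -/
private def a04B : Fin A.m ⊕ Fin A.n → Mat N := Sum.elim A.Z A.P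

/-- the sign -/
private def a04s : Fin A.m ⊕ Fin A.n → ℝ := Sum.elim (fun _ => -1) (fun _ => 1)

private theorem a04_W (i j : Fin N) : A.W i j = ∑ α, (A.a04s α * A.a04B α i j) • A.a04B α := by
  unfold W
  rw [Fintype.sum_sum_type]
  simp only [a04s, a04B, Sum.elim_inl, Sum.elim_inr, one_mul, neg_mul, neg_smul,
    Finset.sum_neg_distrib]

private theorem a04_DW (i j : Fin N) (v : V) :
    A.D (A.W i j) v = ∑ α, (((A.a04s α * A.a04B α i j : ℝ)) : ℂ) • A.D (A.a04B α) v := by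
  rw [A.a04_W, map_sum, LinearMap.sum_apply]
  refine Finset.sum_congr rfl fun α _ => ?_
  rw [map_smul, LinearMap.smul_apply]
  exact (Complex.coe_smul _ _).symm

private theorem a04_tr (α β : Fin A.m ⊕ Fin A.n) :
    A.a04s α * A.a04s β * (A.a04B α * A.a04B β).trace = if α = β then A.a04s α else 0 := by
  rcases α with a | a <;> rcases β with b | b
  · have h := A.Z_o a b
    unfold fip at h
    rw [A.Z_t a, Matrix.neg_mul, Matrix.trace_neg] at h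
    simp only [a04s, a04B, Sum.elim_inl, Sum.inl.injEq]
    split_ifs at h ⊢ with hab <;> linarith
  · have h : (A.Z a * A.P b).trace = 0 := by
      have h1 : (A.Z a * A.P b).trace = -(A.Z a * A.P b).trace := by
        conv_lhs => rw [← Matrix.trace_transpose, Matrix.transpose_mul, A.P_t b, A.Z_t a,
          Matrix.mul_neg, Matrix.trace_neg, Matrix.trace_mul_comm]
      linarith
    simp [a04s, a04B, h]
  · have h : (A.P a * A.Z b).trace = 0 := by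
      have h1 : (A.P a * A.Z b).trace = -(A.P a * A.Z b).trace := by
        conv_lhs => rw [← Matrix.trace_transpose, Matrix.transpose_mul, A.P_t a, A.Z_t b,
          Matrix.neg_mul, Matrix.trace_neg, Matrix.trace_mul_comm]
      linarith
    simp [a04s, a04B, h]
  · have h := A.P_o a b
    unfold fip at h
    rw [A.P_t a] at h
    simp only [a04s, a04B, Sum.elim_inr, Sum.inr.injEq]
    split_ifs at h ⊢ with hab <;> linarith

private theorem a04_trace (v : V) :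
    (A.X ^ 2).trace v = ∑ α, ((A.a04s α : ℝ) : ℂ) • A.D (A.a04B α) (A.D (A.a04B α) v) := by
  have h1 : (A.X ^ 2).trace v = ∑ i, ∑ j, A.D (A.W i j) (A.D (A.W j i) v) := by
    rw [sq, Matrix.trace, LinearMap.sum_apply]
    refine Finset.sum_congr rfl fun i _ => ?_
    rw [Matrix.diag_apply, Matrix.mul_apply, LinearMap.sum_apply]
    rfl
  rw [h1]
  have h2 : ∀ i j, A.D (A.W i j) (A.D (A.W j i) v) = ∑ α, ∑ β,
      (((A.a04s α * A.a04s β * (A.a04B α i j * A.a04B β j i) : ℝ)) : ℂ) •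
        A.D (A.a04B α) (A.D (A.a04B β) v) := by
    intro i j
    rw [A.a04_DW]
    refine Finset.sum_congr rfl fun α _ => ?_
    rw [A.a04_DW, map_sum, Finset.smul_sum]
    refine Finset.sum_congr rfl fun β _ => ?_
    rw [map_smul, smul_smul]
    congr 1
    push_cast
    ring
  simp only [h2]
  have h3 : ∑ i, ∑ j, ∑ α, ∑ β,
      (((A.a04s α * A.a04s β * (A.a04B α i j * A.a04B β j i) : ℝ)) : ℂ) •
        A.D (A.a04B α) (A.D (A.a04B β) v) = ∑ α, ∑ β,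
      (((A.a04s α * A.a04s β * (A.a04B α * A.a04B β).trace : ℝ)) : ℂ) •
        A.D (A.a04B α) (A.D (A.a04B β) v) := by
    calc _ = ∑ i, ∑ α, ∑ j, ∑ β,
          (((A.a04s α * A.a04s β * (A.a04B α i j * A.a04B β j i) : ℝ)) : ℂ) •
            A.D (A.a04B α) (A.D (A.a04B β) v) :=
          Finset.sum_congr rfl fun i _ => Finset.sum_comm
      _ = ∑ α, ∑ i, ∑ j, ∑ β,
          (((A.a04s α * A.a04s β * (A.a04B α i j * A.a04B β j i) : ℝ)) : ℂ) •
            A.D (A.a04B α) (A.D (A.a04B β) v) := Finset.sum_comm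
      _ = ∑ α, ∑ i, ∑ β, ∑ j,
          (((A.a04s α * A.a04s β * (A.a04B α i j * A.a04B β j i) : ℝ)) : ℂ) •
            A.D (A.a04B α) (A.D (A.a04B β) v) :=
          Finset.sum_congr rfl fun α _ => Finset.sum_congr rfl fun i _ => Finset.sum_comm
      _ = ∑ α, ∑ β, ∑ i, ∑ j,
          (((A.a04s α * A.a04s β * (A.a04B α i j * A.a04B β j i) : ℝ)) : ℂ) •
            A.D (A.a04B α) (A.D (A.a04B β) v) :=
          Finset.sum_congr rfl fun α _ => Finset.sum_comm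
      _ = _ := by
          refine Finset.sum_congr rfl fun α _ => Finset.sum_congr rfl fun β _ => ?_
          simp only [← Finset.sum_smul]
          congr 1
          rw [Matrix.trace]
          simp only [Matrix.diag_apply, Matrix.mul_apply, Finset.mul_sum]
          push_cast
          rfl
  rw [h3]
  refine Finset.sum_congr rfl fun α _ => ?_
  rw [Finset.sum_eq_single α]
  · rw [A.a04_tr, if_pos rfl]
  · intro β _ hβ
    rw [A.a04_tr, if_neg (Ne.symm hβ), Complex.ofReal_zero, zero_smul]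
  · exact fun h => absurd (Finset.mem_univ _) h

private theorem a04_inner {X : Mat N} (hX : X ∈ A.𝔤) (v : V) :
    inner ℂ (A.D X (A.D X v)) v = ((-(‖A.D X v‖ ^ 2) : ℝ) : ℂ) := by
  rw [A.skew X hX, inner_self_eq_norm_sq_to_K]
  push_cast
  rfl

theorem sum_P_sq (hA : A.IsAdm) : ∃ z : ℝ, ∀ v : V,
    ∑ b, A.D (A.P b) (A.D (A.P b) v) = ∑ a, A.D (A.Z a) (A.D (A.Z a) v) + (z : ℂ) • v := by
  obtain ⟨z, hz⟩ := hA.tr 2 (by norm_num)
  have h1 : ∀ v : V, ∑ b, A.D (A.P b) (A.D (A.P b) v) =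
      ∑ a, A.D (A.Z a) (A.D (A.Z a) v) + z • v := by
    intro v
    have h2 := A.a04_trace v
    rw [hz, LinearMap.smul_apply, Module.End.one_apply, Fintype.sum_sum_type] at h2
    simp only [a04s, a04B, Sum.elim_inl, Sum.elim_inr, Complex.ofReal_neg, Complex.ofReal_one,
      neg_smul, one_smul, Finset.sum_neg_distrib] at h2
    rw [h2]
    abel
  by_cases hV : ∃ v : V, v ≠ 0
  · obtain ⟨v, hv⟩ := hV
    have h2 := congrArg (fun w => inner ℂ w v) (h1 v)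
    simp only [sum_inner, inner_add_left, inner_smul_left] at h2
    rw [Finset.sum_congr rfl fun b _ => A.a04_inner (A.P_mem b) v,
      Finset.sum_congr rfl fun b _ => A.a04_inner (A.Z_mem b) v, inner_self_eq_norm_sq_to_K,
      ← Complex.ofReal_sum, ← Complex.ofReal_sum] at h2
    have h3 := congrArg Complex.im h2
    have hn : 0 < ‖v‖ := norm_pos_iff.2 hv
    have h4 : ((starRingEnd ℂ) z * ((‖v‖ : ℝ) : ℂ) ^ 2).im = -z.im * ‖v‖ ^ 2 := by
      rw [← Complex.ofReal_pow, Complex.im_mul_ofReal, Complex.conj_im]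
    rw [Complex.ofReal_im, Complex.add_im, Complex.ofReal_im, zero_add] at h3
    have h5 : -z.im * ‖v‖ ^ 2 = 0 := by
      rw [← h4]
      exact h3.symm
    have h6 : z.im = 0 := by
      have : ‖v‖ ^ 2 ≠ 0 := by positivity
      rcases mul_eq_zero.1 h5 with h | h
      · linarith
      · exact absurd h this
    refine ⟨z.re, fun w => ?_⟩
    have h7 : ((z.re : ℝ) : ℂ) = z := by
      apply Complex.ext
      · simp
      · simp [h6]
    rw [h7]
    exact h1 w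
  · push Not at hV
    refine ⟨0, fun v => ?_⟩
    rw [hV (∑ b, A.D (A.P b) (A.D (A.P b) v)), hV (∑ a, A.D (A.Z a) (A.D (A.Z a) v)), hV v]
    simp

theorem norm_D_le (hA : A.IsAdm) : ∃ C : ℝ, 1 ≤ C ∧ ∀ X ∈ A.𝔤, ∀ R : ℝ, 1 ≤ R →
    ∀ ψ ∈ A.low R, ‖A.D X ψ‖ ≤ C * Real.sqrt (fsq X) * Real.sqrt R * ‖ψ‖ := by
  obtain ⟨z, hz⟩ := A.sum_P_sq hA
  have hC : 1 ≤ Real.sqrt (2 + |z|) := by
    rw [Real.one_le_sqrt]
    have := abs_nonneg z
    linarith
  refine ⟨Real.sqrt (2 + |z|), hC, fun X hX R hR ψ hψ => ?_⟩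
  have hZ := A.sum_D_Z_le hψ
  have hP : ∑ b, ‖A.D (A.P b) ψ‖ ^ 2 = ∑ a, ‖A.D (A.Z a) ψ‖ ^ 2 - z * ‖ψ‖ ^ 2 := by
    have h2 := congrArg (fun w => (inner ℂ w ψ).re) (hz ψ)
    simp only [sum_inner, inner_add_left, inner_smul_left] at h2
    rw [Finset.sum_congr rfl fun b _ => A.a04_inner (A.P_mem b) ψ,
      Finset.sum_congr rfl fun b _ => A.a04_inner (A.Z_mem b) ψ, inner_self_eq_norm_sq_to_K,
      ← Complex.ofReal_sum, ← Complex.ofReal_sum, Complex.conj_ofReal] at h2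
    have h4 : (((z : ℝ) : ℂ) * ((‖ψ‖ : ℝ) : ℂ) ^ 2).re = z * ‖ψ‖ ^ 2 := by
      rw [← Complex.ofReal_pow, ← Complex.ofReal_mul, Complex.ofReal_re]
    rw [Complex.ofReal_re, Complex.add_re, Complex.ofReal_re] at h2
    have h5 : -∑ b, ‖A.D (A.P b) ψ‖ ^ 2 = -∑ a, ‖A.D (A.Z a) ψ‖ ^ 2 + z * ‖ψ‖ ^ 2 := by
      rw [← h4, ← Finset.sum_neg_distrib, ← Finset.sum_neg_distrib]
      exact h2
    linarith
  have hn : 0 ≤ ‖ψ‖ ^ 2 := sq_nonneg _
  have hsum : ∑ α, ‖A.D (A.a04B α) ψ‖ ^ 2 ≤ (2 + |z|) * R * ‖ψ‖ ^ 2 := by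
    rw [Fintype.sum_sum_type]
    simp only [a04B, Sum.elim_inl, Sum.elim_inr]
    rw [hP]
    have h1 : -z ≤ |z| := neg_le_abs z
    have h2 : |z| ≤ |z| * R := le_mul_of_one_le_right (abs_nonneg z) hR
    have h3 : -z * ‖ψ‖ ^ 2 ≤ |z| * R * ‖ψ‖ ^ 2 := by
      apply mul_le_mul_of_nonneg_right _ hn
      linarith
    linarith
  -- the decomposition of `X`
  have hdec : X = ∑ α, fip (A.a04B α) X • A.a04B α := by
    rw [Fintype.sum_sum_type]
    exact A.basis X hX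
  have hpars : ∑ α, (fip (A.a04B α) X) ^ 2 = fsq X := by
    have h1 : fsq X = fip (∑ α, fip (A.a04B α) X • A.a04B α) X := by
      rw [← hdec]
      rfl
    rw [h1]
    unfold fip
    rw [Matrix.transpose_sum, Finset.sum_mul, Matrix.trace_sum]
    refine Finset.sum_congr rfl fun α _ => ?_
    rw [Matrix.transpose_smul, Matrix.smul_mul, Matrix.trace_smul, smul_eq_mul, sq]
  have h1 : ‖A.D X ψ‖ ≤ ∑ α, |fip (A.a04B α) X| * ‖A.D (A.a04B α) ψ‖ := by
    have e : A.D X ψ = ∑ α, fip (A.a04B α) X • A.D (A.a04B α) ψ := by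
      conv_lhs => rw [hdec]
      rw [map_sum, LinearMap.sum_apply]
      refine Finset.sum_congr rfl fun α _ => ?_
      rw [map_smul, LinearMap.smul_apply]
    rw [e]
    refine le_trans (norm_sum_le _ _) (Finset.sum_le_sum fun α _ => ?_)
    rw [norm_smul, Real.norm_eq_abs]
  have h2 : ∑ α, |fip (A.a04B α) X| * ‖A.D (A.a04B α) ψ‖ ≤
      Real.sqrt (∑ α, |fip (A.a04B α) X| ^ 2) * Real.sqrt (∑ α, ‖A.D (A.a04B α) ψ‖ ^ 2) :=
    Real.sum_mul_le_sqrt_mul_sqrt _ _ _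
  have h3 : ∑ α, |fip (A.a04B α) X| ^ 2 = fsq X := by
    rw [← hpars]
    exact Finset.sum_congr rfl fun α _ => sq_abs _
  rw [h3] at h2
  have h4 : Real.sqrt (∑ α, ‖A.D (A.a04B α) ψ‖ ^ 2) ≤
      Real.sqrt (2 + |z|) * Real.sqrt R * ‖ψ‖ := by
    refine le_trans (Real.sqrt_le_sqrt hsum) (le_of_eq ?_)
    rw [Real.sqrt_mul (by positivity), Real.sqrt_mul (by positivity), Real.sqrt_sq (norm_nonneg _)]
  calc ‖A.D X ψ‖ ≤ Real.sqrt (fsq X) * Real.sqrt (∑ α, ‖A.D (A.a04B α) ψ‖ ^ 2) := h1.trans h2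
    _ ≤ Real.sqrt (fsq X) * (Real.sqrt (2 + |z|) * Real.sqrt R * ‖ψ‖) := by gcongr
    _ = Real.sqrt (2 + |z|) * Real.sqrt (fsq X) * Real.sqrt R * ‖ψ‖ := by ring

end LieRep

end SBD

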