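import Pool.Agent.SBD.A03
import Pool.Agent.SBD.A04

/-!
# Row SBD-A05 : `D(X)` maps `low R` to `low (C R)`; words

* `D_low` : `ψ = ∑_{lam ∈ s} f lam`, `lam ≤ R` (`mem_low_iff`), `D(X)(f lam)` is a sum of elements of
  `V_l`, `l ≤ lam + C√lam ≤ (1+C) R` by `band` (if `f lam ≠ 0` then `lam ≥ 1`, so `√lam ≤ lam ≤ R`;
  if `f lam = 0` there is nothing to do).
* `words` : induction on the list: the product `D(X_1) ⋯ D(X_k)` (as a function) with all
  `X_i ∈ 𝔤`, `fsq X_i ≤ b`, maps `low R` (`R ≥ 1`) to `low (C R)` with norm `≤ C R^{k/2}`; constants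
  depend only on `k` and `b`.  (`List.foldr (fun X v => A.D X v) ψ l`.)
-/

open scoped Matrix

noncomputable section

namespace SBD

namespace LieRep

variable {N : ℕ} {V : Type} [NormedAddCommGroup V] [InnerProductSpace ℂ V] (A : LieRep N V)

theorem D_low (hA : A.IsAdm) : ∃ C : ℝ, 1 ≤ C ∧ ∀ X ∈ A.𝔤, ∀ R : ℝ, 1 ≤ R → ∀ ψ ∈ A.low R,
    A.D X ψ ∈ A.low (C * R) := by
  obtain ⟨C, hC, hband⟩ := A.band hA
  refine ⟨1 + C, by linarith, fun X hX R hR ψ hψ => ?_⟩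
  obtain ⟨s, f, hf, rfl⟩ := A.mem_low_iff.1 hψ
  rw [map_sum]
  refine Submodule.sum_mem _ fun lam hlam => ?_
  obtain ⟨h1, h2⟩ := hf lam hlam
  by_cases h0 : f lam = 0
  · rw [h0, map_zero]
    exact Submodule.zero_mem _
  have h3 := A.eig_ge h2 h0
  obtain ⟨t, g, hg, he⟩ := hband X hX lam (f lam) h2
  rw [he]
  refine Submodule.sum_mem _ fun l hl => A.eig_le_low ?_ (hg l hl).2
  have h4 := (abs_le.1 (hg l hl).1).2
  have h5 : Real.sqrt lam ≤ lam := by
    rw [Real.sqrt_le_left (by linarith)]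
    nlinarith
  have h6 : C * Real.sqrt lam ≤ C * lam := by gcongr
  nlinarith

theorem words (hA : A.IsAdm) (k : ℕ) (b : ℝ) : ∃ C : ℝ, 1 ≤ C ∧ ∀ l : List (Mat N),
    l.length = k → (∀ X ∈ l, X ∈ A.𝔤 ∧ fsq X ≤ b) → ∀ R : ℝ, 1 ≤ R → ∀ ψ ∈ A.low R,
      l.foldr (fun X v => A.D X v) ψ ∈ A.low (C * R) ∧
      ‖l.foldr (fun X v => A.D X v) ψ‖ ≤ C * (Real.sqrt R) ^ k * ‖ψ‖ := by
  obtain ⟨C₁, hC₁, h₁⟩ := A.D_low hA
  obtain ⟨C₂, hC₂, h₂⟩ := A.norm_D_le hA
  induction k with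
  | zero =>
    refine ⟨1, le_rfl, fun l hl _ R _ ψ hψ => ?_⟩
    rw [List.length_eq_zero_iff] at hl
    subst hl
    simpa using hψ
  | succ k ih =>
    obtain ⟨C, hC, ih⟩ := ih
    have hb : 0 ≤ Real.sqrt b := Real.sqrt_nonneg b
    have hsC : 1 ≤ Real.sqrt C := by
      rw [Real.one_le_sqrt]
      exact hC
    have hK : 0 ≤ C₂ * Real.sqrt b * Real.sqrt C * C := by positivity
    refine ⟨C₁ * C + C₂ * Real.sqrt b * Real.sqrt C * C, ?_, fun l hl hX R hR ψ hψ => ?_⟩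
    · nlinarith
    cases l with
    | nil => simp at hl
    | cons X l =>
      rw [List.length_cons, Nat.add_right_cancel_iff] at hl
      obtain ⟨h3, h4⟩ := ih l hl (fun Y hY => hX Y (List.mem_cons_of_mem _ hY)) R hR ψ hψ
      obtain ⟨hX1, hX2⟩ := hX X List.mem_cons_self
      set φ := l.foldr (fun X v => A.D X v) ψ with hφ
      have hCR : 1 ≤ C * R := by nlinarith
      show A.D X φ ∈ _ ∧ ‖A.D X φ‖ ≤ _
      constructor
      · refine A.low_mono ?_ (h₁ X hX1 (C * R) hCR φ h3)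
        have : 0 ≤ C₂ * Real.sqrt b * Real.sqrt C * C * R := by positivity
        nlinarith
      · have h5 := h₂ X hX1 (C * R) hCR φ h3
        have h6 : Real.sqrt (fsq X) ≤ Real.sqrt b := Real.sqrt_le_sqrt hX2
        have h7 : Real.sqrt (C * R) = Real.sqrt C * Real.sqrt R := Real.sqrt_mul (by linarith) R
        rw [h7] at h5
        have hsR := Real.sqrt_nonneg R
        calc ‖A.D X φ‖ ≤ C₂ * Real.sqrt (fsq X) * (Real.sqrt C * Real.sqrt R) * ‖φ‖ := h5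
          _ ≤ C₂ * Real.sqrt b * (Real.sqrt C * Real.sqrt R) *
              (C * (Real.sqrt R) ^ k * ‖ψ‖) := by gcongr
          _ = (C₂ * Real.sqrt b * Real.sqrt C * C) * (Real.sqrt R) ^ (k + 1) * ‖ψ‖ := by ring
          _ ≤ (C₁ * C + C₂ * Real.sqrt b * Real.sqrt C * C) * (Real.sqrt R) ^ (k + 1) * ‖ψ‖ := by
            have : 0 ≤ C₁ * C := by positivity
            gcongr
            linarith

end LieRep

end SBD

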