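import Pool.Agent.SBD.Alg

/-!
# Row SBD-A06 : the commutator `X Xᵀ - Xᵀ X` (purely algebraic; no topology)

Let `𝐙 = ∑ Z_a ⊗ D(Z_a)`, `𝐏 = ∑ P_b ⊗ D(P_b)` (matrices with entries in `End V`:
`𝐙_{ij} = ∑ (Z_a)_{ij} D(Z_a)` …).  Then `A.X = 𝐏 - 𝐙` and `A.Xᵀ = 𝐏 + 𝐙` (`Matrix.transpose`, which
only transposes the indices; `(Z_a)_{ji} = -(Z_a)_{ij}`), so
  `X Xᵀ - Xᵀ X = 2 (𝐏𝐙 - 𝐙𝐏)`, and
  `(𝐏𝐙 - 𝐙𝐏)_{ij} = ∑_{a,b} ((P_b Z_a)_{ij} D(P_b)D(Z_a) - (Z_a P_b)_{ij} D(Z_a)D(P_b))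
   = ∑_{a,b} [P_b,Z_a]_{ij} D(P_b)D(Z_a) - ∑_{a,b} (Z_a P_b)_{ij} D([Z_a,P_b])`.
`[P_b,Z_a] = P_b Z_a - Z_a P_b` is symmetric and in `𝔤`, so by `A.basis` it is `∑_c t P_c` with
`t = fip P_c [P_b,Z_a] = tr(P_c P_b Z_a - P_c Z_a P_b) = tr([Z_a,P_c] P_b) = fip P_b [Z_a,P_c]`
(`[Z_a,P_c]` is symmetric too; `fip` of a `Z` with a symmetric matrix is 0).  So
  `∑_b [P_b,Z_a]_{ij} D(P_b) = ∑_c (P_c)_{ij} D([Z_a,P_c])`
(using `A.basis` for `[Z_a,P_c]` and linearity of `D`), and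
  `(𝐏𝐙-𝐙𝐏)_{ij} = ∑_c (P_c)_{ij} ∑_a D([Z_a,P_c]) D(Z_a) - D(∑_{a,b} (Z_a P_b)_{ij} [Z_a,P_b])`.
Finally `[Δ, D(P)] = -∑_a [D(Z_a)², D(P)] = -∑_a (2 D([Z_a,P]) D(Z_a) + D([Z_a,[Z_a,P]]))`, so
  `2 ∑_a D([Z_a,P_c]) D(Z_a) = -[Δ,D(P_c)] - D(∑_a [Z_a,[Z_a,P_c]])`.
Hence the statement with
  `Y i j = -∑_c (P_c)_{ij} ∑_a [Z_a,[Z_a,P_c]] - 2 ∑_{a,b} (Z_a P_b)_{ij} [Z_a,P_b]`.
-/

open scoped Matrix

noncomputable section

namespace SBD


/-- the matrix with the entries `∑ (S_s)_{ij} D_s` -/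
def a06M {N p : ℕ} {R : Type} [Ring R] [Algebra ℝ R] (S : Fin p → Mat N) (DS : Fin p → R) :
    Matrix (Fin N) (Fin N) R := fun i j => ∑ s, S s i j • DS s

theorem a06_mul {N p q : ℕ} {R : Type} [Ring R] [Algebra ℝ R] (S : Fin p → Mat N)
    (T : Fin q → Mat N) (DS : Fin p → R) (DT : Fin q → R) (i j : Fin N) :
    (a06M S DS * a06M T DT) i j = ∑ s, ∑ t, (S s * T t) i j • (DS s * DT t) := by
  rw [Matrix.mul_apply]
  have h1 : ∀ l, a06M S DS i l * a06M T DT l j =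
      ∑ s, ∑ t, (S s i l * T t l j) • (DS s * DT t) := by
    intro l
    unfold a06M
    rw [Finset.sum_mul_sum]
    refine Finset.sum_congr rfl fun s _ => Finset.sum_congr rfl fun t _ => ?_
    rw [smul_mul_smul_comm]
  simp only [h1]
  rw [Finset.sum_comm]
  refine Finset.sum_congr rfl fun s _ => ?_
  rw [Finset.sum_comm]
  refine Finset.sum_congr rfl fun t _ => ?_
  rw [← Finset.sum_smul, Matrix.mul_apply]

theorem a06_fip_zero {N : ℕ} (Z S : Mat N) (hZ : Zᵀ = -Z) (hS : Sᵀ = S) : fip Z S = 0 := by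
  unfold fip
  have h1 : (Zᵀ * S).trace = (S * Z).trace := by
    rw [← Matrix.trace_transpose, Matrix.transpose_mul, Matrix.transpose_transpose, hS]
  have h2 : (Zᵀ * S).trace = -(S * Z).trace := by
    rw [hZ, Matrix.neg_mul, Matrix.trace_neg, Matrix.trace_mul_comm]
  linarith

theorem a06_fip_sym {N : ℕ} (Z P Q : Mat N) (hP : Pᵀ = P) (hQ : Qᵀ = Q) :
    fip Q (P * Z - Z * P) = fip P (Z * Q - Q * Z) := by
  unfold fip
  rw [hP, hQ, Matrix.mul_sub, Matrix.mul_sub, Matrix.trace_sub, Matrix.trace_sub,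
    ← Matrix.mul_assoc, ← Matrix.mul_assoc, ← Matrix.mul_assoc, ← Matrix.mul_assoc]
  have h1 : (Q * P * Z).trace = (P * Z * Q).trace := by
    rw [Matrix.mul_assoc, Matrix.trace_mul_comm]
  have h2 : (Q * Z * P).trace = (P * Q * Z).trace := by
    rw [Matrix.trace_mul_comm, ← Matrix.mul_assoc]
  rw [h1, h2]

theorem a06_symm {N : ℕ} (Z P : Mat N) (hZ : Zᵀ = -Z) (hP : Pᵀ = P) :
    (Z * P - P * Z)ᵀ = Z * P - P * Z := by
  rw [Matrix.transpose_sub, Matrix.transpose_mul, Matrix.transpose_mul, hZ, hP, Matrix.mul_neg,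
    Matrix.neg_mul]
  abel

namespace LieRep

variable {N : ℕ} {V : Type} [NormedAddCommGroup V] [InnerProductSpace ℂ V] (A : LieRep N V)

theorem a06_expand (S : Mat N) (hS : S ∈ A.𝔤) (hs : Sᵀ = S) : S = ∑ b, fip (A.P b) S • A.P b := by
  have h := A.basis S hS
  have h0 : ∑ i, fip (A.Z i) S • A.Z i = 0 :=
    Finset.sum_eq_zero fun i _ => by rw [a06_fip_zero _ _ (A.Z_t i) hs, zero_smul]
  rw [h0, zero_add] at h
  exact h

theorem a06_exch (a : Fin A.m) (i j : Fin N) :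
    ∑ b, (A.P b * A.Z a - A.Z a * A.P b) i j • A.P b =
      ∑ c, A.P c i j • (A.Z a * A.P c - A.P c * A.Z a) := by
  have hm1 : ∀ b, A.P b * A.Z a - A.Z a * A.P b ∈ A.𝔤 := fun b =>
    A.br _ (A.P_mem b) _ (A.Z_mem a)
  have hm2 : ∀ b, A.Z a * A.P b - A.P b * A.Z a ∈ A.𝔤 := fun b =>
    A.br _ (A.Z_mem a) _ (A.P_mem b)
  have hs2 : ∀ b, (A.Z a * A.P b - A.P b * A.Z a)ᵀ = A.Z a * A.P b - A.P b * A.Z a := fun b =>
    a06_symm _ _ (A.Z_t a) (A.P_t b)
  have hs1 : ∀ b, (A.P b * A.Z a - A.Z a * A.P b)ᵀ = A.P b * A.Z a - A.Z a * A.P b := fun b => by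
    have := hs2 b
    have e : A.P b * A.Z a - A.Z a * A.P b = -(A.Z a * A.P b - A.P b * A.Z a) := by abel
    rw [e, Matrix.transpose_neg, this]
  have h1 : ∀ b, (A.P b * A.Z a - A.Z a * A.P b) i j =
      ∑ c, fip (A.P c) (A.P b * A.Z a - A.Z a * A.P b) * A.P c i j := by
    intro b
    have h := congrFun (congrFun (a06_expand A _ (hm1 b) (hs1 b)) i) j
    rw [h, Matrix.sum_apply]
    rfl
  have h2 : ∀ c, A.P c i j • (A.Z a * A.P c - A.P c * A.Z a) =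
      ∑ b, (A.P c i j * fip (A.P b) (A.Z a * A.P c - A.P c * A.Z a)) • A.P b := by
    intro c
    conv_lhs => rw [a06_expand A _ (hm2 c) (hs2 c)]
    rw [Finset.smul_sum]
    exact Finset.sum_congr rfl fun b _ => by rw [smul_smul]
  simp only [h2]
  rw [Finset.sum_comm]
  refine Finset.sum_congr rfl fun b _ => ?_
  rw [← Finset.sum_smul, h1 b]
  congr 1
  refine Finset.sum_congr rfl fun c _ => ?_
  rw [a06_fip_sym _ _ _ (A.P_t b) (A.P_t c), mul_comm]

theorem a06_brD (X : Mat N) (hX : X ∈ A.𝔤) (Y : Mat N) (hY : Y ∈ A.𝔤) :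
    (A.D X * A.D Y : Module.End ℂ V) = A.D Y * A.D X + A.D (X * Y - Y * X) := by
  refine LinearMap.ext fun v => ?_
  have h := A.brD X hX Y hY v
  show A.D X (A.D Y v) = A.D Y (A.D X v) + A.D (X * Y - Y * X) v
  rw [h]
  abel

theorem a06_Del (P : Mat N) (hP : P ∈ A.𝔤) :
    ((2 : ℝ) • ∑ a, (A.D (A.Z a * P - P * A.Z a) * A.D (A.Z a)) : Module.End ℂ V) =
      -((A.Del : Module.End ℂ V) * A.D P - (A.D P : Module.End ℂ V) * A.Del) -
        A.D (∑ a, (A.Z a * (A.Z a * P - P * A.Z a) - (A.Z a * P - P * A.Z a) * A.Z a)) := by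
  have hD : (A.Del : Module.End ℂ V) =
      1 - ∑ a, (A.D (A.Z a) : Module.End ℂ V) * A.D (A.Z a) := rfl
  have key : ∀ a, (A.D (A.Z a) * A.D (A.Z a) * A.D P - A.D P * (A.D (A.Z a) * A.D (A.Z a)) :
      Module.End ℂ V) = (2 : ℝ) • (A.D (A.Z a * P - P * A.Z a) * A.D (A.Z a)) +
        A.D (A.Z a * (A.Z a * P - P * A.Z a) - (A.Z a * P - P * A.Z a) * A.Z a) := by
    intro a
    have h1 := a06_brD A _ (A.Z_mem a) _ hP
    have h2 := a06_brD A _ (A.Z_mem a) _ (A.br _ (A.Z_mem a) _ hP)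
    rw [mul_assoc, h1, mul_add, h2, ← mul_assoc, h1, add_mul, two_smul]
    noncomm_ring
  rw [hD, sub_mul, mul_sub, one_mul, mul_one, Finset.sum_mul, Finset.mul_sum, map_sum,
    Finset.smul_sum]
  have h3 : (∑ a, (A.D (A.Z a) * A.D (A.Z a) * A.D P : Module.End ℂ V)) -
      ∑ a, (A.D P * (A.D (A.Z a) * A.D (A.Z a)) : Module.End ℂ V) =
      ∑ a, ((2 : ℝ) • (A.D (A.Z a * P - P * A.Z a) * A.D (A.Z a)) : Module.End ℂ V) +
        ∑ a, A.D (A.Z a * (A.Z a * P - P * A.Z a) - (A.Z a * P - P * A.Z a) * A.Z a) := by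
    rw [← Finset.sum_sub_distrib, ← Finset.sum_add_distrib]
    exact Finset.sum_congr rfl fun a _ => key a
  rw [eq_sub_iff_add_eq, ← h3]
  abel

end LieRep

namespace LieRep

variable {N : ℕ} {V : Type} [NormedAddCommGroup V] [InnerProductSpace ℂ V] (A : LieRep N V)

theorem comm_X : ∃ Y : Fin N → Fin N → Mat N, (∀ i j, Y i j ∈ A.𝔤) ∧ ∀ i j, ∀ v : V,
    ((A.X * A.X.transpose - A.X.transpose * A.X) i j) v =
      -∑ c, ((A.P c i j : ℝ) : ℂ) • (A.Del (A.D (A.P c) v) - A.D (A.P c) (A.Del v)) +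
        A.D (Y i j) v := by
  obtain ⟨Q, hQ⟩ : ∃ Q : Fin A.n → Fin A.m → Mat N,
      Q = fun c a => A.Z a * A.P c - A.P c * A.Z a := ⟨_, rfl⟩
  have hQm : ∀ c a, Q c a ∈ A.𝔤 := fun c a => by
    rw [hQ]
    exact A.br _ (A.Z_mem a) _ (A.P_mem c)
  refine ⟨fun i j => -∑ c, A.P c i j • ∑ a, (A.Z a * Q c a - Q c a * A.Z a) -
    (2 : ℝ) • ∑ a, ∑ b, (A.Z a * A.P b) i j • Q b a, fun i j => ?_, fun i j v => ?_⟩
  · refine Submodule.sub_mem _ (Submodule.neg_mem _ ?_) (Submodule.smul_mem _ _ ?_)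
    · exact Submodule.sum_mem _ fun c _ => Submodule.smul_mem _ _
        (Submodule.sum_mem _ fun a _ => A.br _ (A.Z_mem a) _ (hQm c a))
    · exact Submodule.sum_mem _ fun a _ => Submodule.sum_mem _ fun b _ =>
        Submodule.smul_mem _ _ (hQm b a)
  · obtain ⟨PP, hPP⟩ : ∃ PP : Matrix (Fin N) (Fin N) (Module.End ℂ V),
        PP = a06M A.P (fun b => A.D (A.P b)) := ⟨_, rfl⟩
    obtain ⟨ZZ, hZZ⟩ : ∃ ZZ : Matrix (Fin N) (Fin N) (Module.End ℂ V),
        ZZ = a06M A.Z (fun a => A.D (A.Z a)) := ⟨_, rfl⟩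
    have hX : A.X = PP - ZZ := by
      ext1 i j
      rw [Matrix.sub_apply, hPP, hZZ]
      show A.D (A.W i j) = (∑ b, A.P b i j • A.D (A.P b)) - ∑ a, A.Z a i j • A.D (A.Z a)
      unfold W
      rw [map_add, map_neg, map_sum, map_sum]
      simp only [map_smul]
      abel
    have hXt : A.X.transpose = PP + ZZ := by
      ext1 i j
      rw [Matrix.transpose_apply, hX, Matrix.sub_apply, Matrix.add_apply]
      have e1 : PP j i = PP i j := by
        rw [hPP]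
        unfold a06M
        refine Finset.sum_congr rfl fun b _ => ?_
        have := congrFun (congrFun (A.P_t b) i) j
        rw [Matrix.transpose_apply] at this
        rw [this]
      have e2 : ZZ j i = -ZZ i j := by
        rw [hZZ]
        unfold a06M
        rw [← Finset.sum_neg_distrib]
        refine Finset.sum_congr rfl fun b _ => ?_
        have := congrFun (congrFun (A.Z_t b) i) j
        rw [Matrix.transpose_apply, Matrix.neg_apply] at this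
        rw [this, neg_smul]
      rw [e1, e2, sub_neg_eq_add]
    have hcomm : A.X * A.X.transpose - A.X.transpose * A.X = (2 : ℝ) • (PP * ZZ - ZZ * PP) := by
      rw [hXt, hX, two_smul]
      noncomm_ring
    have hPZ : (PP * ZZ - ZZ * PP) i j =
        ∑ a, ∑ c, A.P c i j • (A.D (Q c a) * A.D (A.Z a) : Module.End ℂ V) -
          A.D (∑ a, ∑ b, (A.Z a * A.P b) i j • Q b a) := by
      rw [Matrix.sub_apply, hPP, hZZ, a06_mul, a06_mul, Finset.sum_comm, map_sum,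
        ← Finset.sum_sub_distrib, ← Finset.sum_sub_distrib]
      refine Finset.sum_congr rfl fun a _ => ?_
      rw [map_sum, ← Finset.sum_sub_distrib]
      have h1 : ∀ b, ((A.P b * A.Z a) i j • (A.D (A.P b) * A.D (A.Z a)) -
          (A.Z a * A.P b) i j • (A.D (A.Z a) * A.D (A.P b)) : Module.End ℂ V) =
          (A.P b * A.Z a - A.Z a * A.P b) i j • (A.D (A.P b) * A.D (A.Z a) : Module.End ℂ V) -
            A.D ((A.Z a * A.P b) i j • Q b a) := by
        intro b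
        rw [a06_brD A _ (A.Z_mem a) _ (A.P_mem b), Matrix.sub_apply, sub_smul, smul_add, map_smul,
          hQ]
        abel
      simp only [h1]
      rw [Finset.sum_sub_distrib]
      congr 1
      have h2 := congrArg (fun M => (A.D M * A.D (A.Z a) : Module.End ℂ V)) (a06_exch A a i j)
      simp only [map_sum, map_smul] at h2
      rw [Finset.sum_mul, Finset.sum_mul] at h2
      simp only [smul_mul_assoc] at h2
      rw [h2, hQ]
    have hfin : ((2 : ℝ) • (PP * ZZ - ZZ * PP)) i j =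
        -(∑ c, A.P c i j • ((A.Del : Module.End ℂ V) * A.D (A.P c) -
          (A.D (A.P c) : Module.End ℂ V) * A.Del)) +
        A.D (-∑ c, A.P c i j • ∑ a, (A.Z a * Q c a - Q c a * A.Z a) -
          (2 : ℝ) • ∑ a, ∑ b, (A.Z a * A.P b) i j • Q b a) := by
      rw [Matrix.smul_apply, hPZ, smul_sub, map_sub, map_neg, map_smul]
      generalize A.D (∑ a, ∑ b, (A.Z a * A.P b) i j • Q b a) = G
      rw [map_sum, Finset.sum_comm, Finset.smul_sum]
      have h1 : ∀ c, ((2 : ℝ) • ∑ a, A.P c i j • (A.D (Q c a) * A.D (A.Z a)) : Module.End ℂ V) =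
          -(A.P c i j • ((A.Del : Module.End ℂ V) * A.D (A.P c) -
            (A.D (A.P c) : Module.End ℂ V) * A.Del)) -
            A.D (A.P c i j • ∑ a, (A.Z a * Q c a - Q c a * A.Z a)) := by
        intro c
        rw [← Finset.smul_sum, smul_comm, hQ, a06_Del A _ (A.P_mem c), smul_sub, smul_neg, map_smul]
      simp only [h1]
      rw [Finset.sum_sub_distrib, Finset.sum_neg_distrib]
      abel
    have hv := LinearMap.congr_fun hfin v
    rw [hcomm, hv]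
    rw [LinearMap.add_apply, LinearMap.neg_apply, LinearMap.sum_apply]
    congr 1

end LieRep

end SBD

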