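import Mathlib

/-!
# Row SBD-A07 : a matrix over a commutative ℚ-algebra with vanishing power traces is nilpotent

`B` a commutative `ℚ`-algebra (not nec. a domain), `M ∈ Mat_N(B)`, `tr(M^j) = 0` for `1 ≤ j ≤ N`;
then `M^N = 0`.

Proof: with `P(t) = det(1 - tM)` and `A = 1 - tM` over the power series ring one has
`P'(t) = - det(A) tr(A⁻¹ M) = - P(t) ∑ tr(M^{k+1}) t^k`.
-/

open Polynomial Matrix

private theorem SBD_A07_key {N : ℕ} {B : Type*} [CommRing B]
    (M : Matrix (Fin N) (Fin N) B) :
    ∃ D : PowerSeries B, ((derivative M.charpolyRev : B[X]) : PowerSeries B) =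
      D * PowerSeries.mk (fun k => (M ^ (k + 1)).trace) := by
  classical
  let T : PowerSeries B := PowerSeries.X
  let cc : B →+* PowerSeries B := PowerSeries.C
  let M' : Matrix (Fin N) (Fin N) (PowerSeries B) := M.map cc
  let A : Matrix (Fin N) (Fin N) (PowerSeries B) := 1 - T • M'
  let Ai : Matrix (Fin N) (Fin N) (PowerSeries B) := Matrix.of fun i j => PowerSeries.mk fun k => (M ^ k) i j
  have hAi : A * Ai = 1 := by
    have e1 : A * Ai = Ai - T • (M' * Ai) := by
      simp only [A, sub_mul, one_mul, smul_mul_assoc]
    rw [e1]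
    apply Matrix.ext
    intro i j
    ext k
    rw [Matrix.sub_apply, Matrix.smul_apply, smul_eq_mul, map_sub, Matrix.mul_apply]
    simp only [Ai, Matrix.of_apply, PowerSeries.coeff_mk, T, M', Matrix.map_apply, cc]
    have e2 : ((1 : Matrix (Fin N) (Fin N) (PowerSeries B)) i j) =
        PowerSeries.C ((1 : Matrix (Fin N) (Fin N) B) i j) := by
      by_cases h : i = j
      · subst h; simp
      · simp [h]
    rw [e2]
    rcases k with _ | k
    · simp
    · rw [PowerSeries.coeff_succ_X_mul, map_sum]
      simp only [PowerSeries.coeff_C_mul, PowerSeries.coeff_mk]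
      rw [pow_succ', Matrix.mul_apply, sub_self, PowerSeries.coeff_C]
      simp
  let f : B[X] →+* (PowerSeries B)[X] := Polynomial.eval₂RingHom (Polynomial.C.comp cc) (X + C T)
  have hfX : f X = X + C T := by simp [f]
  have hfC : ∀ b, f (C b) = C (cc b) := by intro b; simp [f]
  have h1 : f M.charpolyRev = (A.map C + (X : (PowerSeries B)[X]) • (-M').map C).det := by
    rw [Matrix.charpolyRev, RingHom.map_det]
    congr 1
    ext1 i j
    simp only [RingHom.mapMatrix_apply, Matrix.map_apply, Matrix.sub_apply, Matrix.smul_apply,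
      smul_eq_mul, map_sub, map_mul, hfX, hfC, Matrix.add_apply, A, M', Matrix.neg_apply, map_neg]
    have h2 : f ((1 : Matrix (Fin N) (Fin N) B[X]) i j) =
        C ((1 : Matrix (Fin N) (Fin N) (PowerSeries B)) i j) := by
      by_cases h : i = j
      · subst h; simp
      · simp [h]
    rw [h2]
    ring
  have h2 : (A.map C + (X : (PowerSeries B)[X]) • (-M').map C) =
      A.map C * (1 + (X : (PowerSeries B)[X]) • (-(Ai * M')).map C) := by
    have h3 : A.map C * (Ai * M').map (C : PowerSeries B →+* (PowerSeries B)[X]) = M'.map C := by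
      rw [← Matrix.map_mul, ← Matrix.mul_assoc, hAi, one_mul]
    have h4 : ∀ Y : Matrix (Fin N) (Fin N) (PowerSeries B), (-Y).map (C : PowerSeries B →+* (PowerSeries B)[X]) = -(Y.map C) := by
      intro Y; ext1 i j; simp
    rw [mul_add, mul_one, mul_smul_comm, h4, h4, Matrix.mul_neg, h3]
  have h5 : derivative (f M.charpolyRev) = f (derivative M.charpolyRev) := by
    have : ∀ p : B[X], derivative (f p) = f (derivative p) := by
      intro p
      induction p using Polynomial.induction_on' with
      | add p q hp hq => simp only [map_add, hp, hq]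
      | monomial n a =>
        rw [← Polynomial.C_mul_X_pow_eq_monomial, map_mul, map_pow, hfX, hfC,
          Polynomial.derivative_C_mul, Polynomial.derivative_C_mul, map_mul, hfC,
          Polynomial.derivative_pow, Polynomial.derivative_X_pow, map_mul, map_pow, hfX]
        simp
    exact this _
  have h6 : ∀ p : B[X], (f p).eval 0 = (p : PowerSeries B) := by
    intro p
    induction p using Polynomial.induction_on' with
    | add p q hp hq => simp only [map_add, Polynomial.eval_add, hp, hq, Polynomial.coe_add]
    | monomial n a =>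
      rw [← Polynomial.C_mul_X_pow_eq_monomial, map_mul, map_pow, hfX, hfC]
      simp [T, cc]
  refine ⟨-A.det, ?_⟩
  rw [← h6, ← h5, h1, h2, Matrix.det_mul, Polynomial.derivative_mul, Polynomial.eval_add,
    Polynomial.eval_mul, Polynomial.eval_mul, Matrix.derivative_det_one_add_X_smul]
  have h7 : (A.map (C : PowerSeries B →+* (PowerSeries B)[X])).det = C A.det := by
    rw [← RingHom.mapMatrix_apply, ← RingHom.map_det]
  rw [h7, Polynomial.derivative_C]
  simp only [Polynomial.eval_zero, zero_mul, zero_add, Polynomial.eval_C, Matrix.trace_neg]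
  rw [mul_neg, neg_mul]
  congr 2
  ext k
  rw [PowerSeries.coeff_mk, Matrix.trace, Matrix.trace, map_sum]
  apply Finset.sum_congr rfl
  intro i _
  rw [Matrix.diag_apply, Matrix.diag_apply, pow_succ, Matrix.mul_apply, Matrix.mul_apply, map_sum]
  apply Finset.sum_congr rfl
  intro j _
  exact (PowerSeries.coeff_mul_C k _ _).trans (by simp [Ai])

theorem SBD.matrix_nilpotent_of_traces {N : ℕ} {B : Type*} [CommRing B] [Algebra ℚ B]
    (M : Matrix (Fin N) (Fin N) B) (h : ∀ j, 1 ≤ j → j ≤ N → (M ^ j).trace = 0) :
    M ^ N = 0 := by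
  classical
  rcases subsingleton_or_nontrivial B with hB | hB
  · exact Subsingleton.elim _ _
  obtain ⟨D, hD⟩ := SBD_A07_key M
  have h1 : ∀ k, k < N → (derivative M.charpolyRev).coeff k = 0 := by
    intro k hk
    rw [← Polynomial.coeff_coe, hD, PowerSeries.coeff_mul]
    apply Finset.sum_eq_zero
    intro x hx
    have hx' := Finset.HasAntidiagonal.mem_antidiagonal.1 hx
    rw [PowerSeries.coeff_mk, h _ (by omega) (by omega), mul_zero]
  have h2 : ∀ k, k < N → M.charpolyRev.coeff (k + 1) = 0 := by
    intro k hk
    have := h1 k hk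
    rw [Polynomial.coeff_derivative] at this
    have hu : IsUnit ((k : B) + 1) := by
      have h3 : (algebraMap ℚ B) ((k : ℚ) + 1) = (k : B) + 1 := by simp
      rw [← h3]
      apply IsUnit.map
      have : ((k : ℚ) + 1) ≠ 0 := by positivity
      exact this.isUnit
    exact (hu.mul_left_eq_zero).1 this
  have h3 : M.charpoly.natDegree = N := by
    rw [Matrix.charpoly_natDegree_eq_dim, Fintype.card_fin]
  have h4 : M.charpoly = X ^ N := by
    ext i
    rw [Polynomial.coeff_X_pow]
    split_ifs with hi
    · subst hi
      have := M.charpoly_monic.coeff_natDegree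
      rw [h3] at this
      exact this
    · rcases lt_or_gt_of_ne hi with hi' | hi'
      · have h5 := h2 (N - i - 1) (by omega)
        rw [← Matrix.reverse_charpoly, Polynomial.coeff_reverse, h3, Polynomial.revAt_le
          (by omega)] at h5
        have h6 : N - (N - i - 1 + 1) = i := by omega
        rwa [h6] at h5
      · exact Polynomial.coeff_eq_zero_of_natDegree_lt (by omega)
  have h5 := Matrix.aeval_self_charpoly M
  rw [h4] at h5
  simpa using h5
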