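import Pool.Agent.SBD.A07

/-!
# Row SBD-A08 : the same modulo ideals of a noncommutative ring

`R` a ring (a ℚ-algebra), `I` a two-sided ideal, `J ⊇ I` a left ideal, `M ∈ Mat_N(R)` with entries
commuting modulo `I`, `tr(M^j) ∈ I` for `1 ≤ j ≤ N`, and all entries of `M Mᵀ - Mᵀ M` in `J`
(`Mᵀ` = transposed matrix).  Then all entries of `(Mᵀ M)^N` are in `J`.

PROOF.  Let `Q = R ⧸ I` (`Ideal.Quotient.ring`), `S = Algebra.adjoin ℚ {images of the entries of M}`
⊂ `Q`, commutative (`Algebra.isMulCommutative_adjoin` / `Algebra.adjoinCommRingOfComm`).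
`J' = {a ∈ S : a ∈ image of J in Q}`; since `J` is a left ideal, the image of `J` in `Q` is a left
ideal of `Q`, so `J'` is an ideal of the commutative ring `S`.  Let `B = S ⧸ J'` and `M_B ∈ Mat_N(B)`
the image of `M`.  Then `tr(M_B^j) = 0` (`1 ≤ j ≤ N`), so `M_B^N = 0` by A07, and
`M_B M_Bᵀ = M_Bᵀ M_B` (entries of the commutator are in `S` and in the image of `J`).
So `(M_Bᵀ M_B)^N = (M_Bᵀ)^N M_B^N = 0` (`Commute.mul_pow`).  So every entry of `(Mᵀ M)^N`
(its image in `Q` lies in `S`) has image in `J'`, i.e. it is congruent mod `I` to an element of `J`,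
so is in `J` (as `I ≤ J`).
(Alternative avoiding subtypes: work with the subring `S₀ = Algebra.adjoin ℚ (entries)` of `R`
itself, the two-sided ideal `I ∩ S₀`, etc.)
-/

private theorem A08_comm {N : ℕ} {S Q : Type*} [CommRing S] [Algebra ℚ S] [Ring Q] (φ : S →+* Q)
    (J : Ideal Q) (M : Matrix (Fin N) (Fin N) S)
    (htr : ∀ j, 1 ≤ j → j ≤ N → φ ((M ^ j).trace) ∈ J)
    (hnorm : ∀ i j, φ ((M * M.transpose - M.transpose * M) i j) ∈ J) :
    ∀ i j, φ (((M.transpose * M) ^ N) i j) ∈ J := by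
  let K : Ideal S := Ideal.comap φ J
  have hmem : ∀ s : S, φ s ∈ J ↔ Ideal.Quotient.mk K s = 0 := by
    intro s
    rw [Ideal.Quotient.eq_zero_iff_mem]
    exact Iff.rfl
  let π : S →+* (S ⧸ K) := Ideal.Quotient.mk K
  let B : Matrix (Fin N) (Fin N) (S ⧸ K) := π.mapMatrix M
  have hB0 : B ^ N = 0 := by
    refine SBD.matrix_nilpotent_of_traces B ?_
    intro j hj hjN
    have h1 : B ^ j = π.mapMatrix (M ^ j) := (map_pow π.mapMatrix M j).symm
    rw [h1]
    have h2 : (π.mapMatrix (M ^ j)).trace = π ((M ^ j).trace) :=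
      (AddMonoidHom.map_trace π (M ^ j)).symm
    rw [h2]
    exact (hmem _).1 (htr j hj hjN)
  have hT : π.mapMatrix M.transpose = B.transpose := rfl
  have hcom : B * B.transpose - B.transpose * B = 0 := by
    have h3 : B * B.transpose - B.transpose * B =
        π.mapMatrix (M * M.transpose - M.transpose * M) := by
      rw [map_sub, map_mul, map_mul, hT]
    rw [h3]
    ext i j
    exact (hmem _).1 (hnorm i j)
  have hC : Commute B.transpose B := (sub_eq_zero.1 hcom).symm
  have hfin : (B.transpose * B) ^ N = 0 := by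
    rw [hC.mul_pow, hB0, mul_zero]
  intro i j
  rw [hmem]
  have h4 : (B.transpose * B) ^ N = π.mapMatrix ((M.transpose * M) ^ N) := by
    rw [map_pow, map_mul, hT]
  rw [h4] at hfin
  exact congrFun (congrFun hfin i) j

theorem SBD.nc_nilpotent {N : ℕ} {R : Type*} [Ring R] [Algebra ℚ R] (I : Ideal R)
    [I.IsTwoSided] (J : Ideal R) (hIJ : I ≤ J) (M : Matrix (Fin N) (Fin N) R)
    (hcomm : ∀ i j k l, M i j * M k l - M k l * M i j ∈ I)
    (htr : ∀ j, 1 ≤ j → j ≤ N → (M ^ j).trace ∈ I)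
    (hnorm : ∀ i j, (M * M.transpose - M.transpose * M) i j ∈ J) :
    ∀ i j, ((M.transpose * M) ^ N) i j ∈ J := by
  let π : R →+* (R ⧸ I) := Ideal.Quotient.mk I
  have hπs : Function.Surjective π := Ideal.Quotient.mk_surjective
  let J' : Ideal (R ⧸ I) := Ideal.map π J
  have hJ' : ∀ r : R, π r ∈ J' ↔ r ∈ J := by
    intro r
    have h1 : Ideal.comap π (Ideal.map π J) = J ⊔ RingHom.ker π :=
      Ideal.comap_map_of_surjective' π hπs J
    have h2 : RingHom.ker π = I := Ideal.mk_ker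
    rw [h2, sup_eq_left.2 hIJ] at h1
    rw [← h1]
    exact Iff.rfl
  let s : Set (R ⧸ I) := Set.range fun p : Fin N × Fin N => π (M p.1 p.2)
  have hs : ∀ x ∈ s, ∀ y ∈ s, x * y = y * x := by
    rintro _ ⟨p, rfl⟩ _ ⟨q, rfl⟩
    change π (M p.1 p.2) * π (M q.1 q.2) = π (M q.1 q.2) * π (M p.1 p.2)
    rw [← map_mul, ← map_mul, ← sub_eq_zero, ← map_sub]
    exact Ideal.Quotient.eq_zero_iff_mem.2 (hcomm _ _ _ _)
  have hc : IsMulCommutative (Algebra.adjoin ℚ s) := Algebra.isMulCommutative_adjoin ℚ hs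
  let _ : CommRing (Algebra.adjoin ℚ s) :=
    { (inferInstance : Ring (Algebra.adjoin ℚ s)) with
      mul_comm := fun a b => hc.is_comm.comm a b }
  let φ : Algebra.adjoin ℚ s →+* (R ⧸ I) := (Algebra.adjoin ℚ s).val.toRingHom
  let MS : Matrix (Fin N) (Fin N) (Algebra.adjoin ℚ s) :=
    fun i j => ⟨π (M i j), Algebra.subset_adjoin ⟨(i, j), rfl⟩⟩
  have hMS : φ.mapMatrix MS = π.mapMatrix M := rfl
  have hMT : φ.mapMatrix MS.transpose = π.mapMatrix M.transpose := rfl
  have key := A08_comm φ J' MS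
    (by
      intro j hj hjN
      have h2 : φ ((MS ^ j).trace) = (φ.mapMatrix (MS ^ j)).trace :=
        AddMonoidHom.map_trace φ (MS ^ j)
      have h3 : (π.mapMatrix (M ^ j)).trace = π ((M ^ j).trace) :=
        (AddMonoidHom.map_trace π (M ^ j)).symm
      rw [h2, map_pow, hMS, ← map_pow, h3, hJ']
      exact hIJ (htr j hj hjN))
    (by
      intro i j
      have h2 : φ ((MS * MS.transpose - MS.transpose * MS) i j) =
          (φ.mapMatrix (MS * MS.transpose - MS.transpose * MS)) i j := rfl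
      have h3 : (π.mapMatrix (M * M.transpose - M.transpose * M)) i j =
          π ((M * M.transpose - M.transpose * M) i j) := rfl
      rw [h2, map_sub, map_mul, map_mul, hMS, hMT, ← map_mul, ← map_mul, ← map_sub, h3, hJ']
      exact hnorm i j)
  intro i j
  have h4 := key i j
  have h5 : φ (((MS.transpose * MS) ^ N) i j) = (φ.mapMatrix ((MS.transpose * MS) ^ N)) i j := rfl
  have h6 : (π.mapMatrix ((M.transpose * M) ^ N)) i j = π (((M.transpose * M) ^ N) i j) := rfl
  rw [h5, map_pow, map_mul, hMS, hMT, ← map_mul, ← map_pow, h6, hJ'] at h4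
  exact h4
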