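import Mathlib

/-!
# Row SBD-A09 : `⟨Tζ,ζ⟩^n ≤ ⟨T^n ζ,ζ⟩ ‖ζ‖^{2(n-1)}` for a positive symmetric operator

`E` a complex inner product space (not nec. complete), `T : E → E` linear, symmetric and positive.

PROOF.  `a_j := Re⟨T^j ζ, ζ⟩ ≥ 0` (for `j = 2i`: `‖T^i ζ‖²`; for `j = 2i+1`: `⟨T (T^i ζ), T^i ζ⟩`).
Log-convexity `a_j² ≤ a_{j-1} a_{j+1}` (`j ≥ 1`): the form `(x,y) = ⟨Tx,y⟩` is positive
semidefinite, so Cauchy–Schwarz (for it, and for the inner product itself) gives, with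
`x = T^i ζ`: `⟨T^{i+k} …⟩`: for `j = 2i`: `a_{2i} = ⟨T x', y'⟩` with `x' = T^{i-1}ζ`, `y' = T^{i}ζ`:
`a_{2i}² ≤ ⟨Tx',x'⟩⟨Ty',y'⟩ = a_{2i-1} a_{2i+1}`; for `j = 2i+1`: `a_j = ⟨T^{i+1}ζ, T^iζ⟩`,
`a_j² ≤ ‖T^{i+1}ζ‖²‖T^iζ‖² = a_{j+1} a_{j-1}`.
Then by induction on `n ≥ 1`: `a_1^n ≤ a_n a_0^{n-1}` : from `a_1^{n} ≤ a_n a_0^{n-1}` and
`a_1 a_n ≤ a_0 a_{n+1}` (which follows from log-convexity by induction: `a_1/a_0 ≤ a_2/a_1 ≤ …`; treat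
zero values separately: if some `a_j = 0` with `j ≥ 1` then `a_1 = 0` by log-convexity downwards,
and if `a_0 = 0` then `ζ = 0`).
-/

private theorem A09_symm {E : Type*} [NormedAddCommGroup E] [InnerProductSpace ℂ E] (T : E →ₗ[ℂ] E)
    (hs : ∀ x y, inner ℂ (T x) y = inner ℂ x (T y)) (i : ℕ) (x y : E) :
    inner ℂ ((T ^ i) x) y = inner ℂ x ((T ^ i) y) := by
  induction i generalizing x y with
  | zero => simp
  | succ i ih =>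
    have e : (T ^ (i + 1)) y = T ((T ^ i) y) := by rw [pow_succ', Module.End.mul_apply]
    rw [e, pow_succ, Module.End.mul_apply, ih, hs]

private theorem A09_nonneg {E : Type*} [NormedAddCommGroup E] [InnerProductSpace ℂ E] (T : E →ₗ[ℂ] E)
    (hs : ∀ x y, inner ℂ (T x) y = inner ℂ x (T y)) (hp : ∀ x, 0 ≤ (inner ℂ (T x) x).re)
    (m : ℕ) (z : E) : 0 ≤ (inner ℂ ((T ^ m) z) z).re := by
  obtain ⟨i, rfl | rfl⟩ := Nat.even_or_odd' m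
  · have h1 : (inner ℂ ((T ^ (2 * i)) z) z : ℂ) = inner ℂ ((T ^ i) z) ((T ^ i) z) := by
      rw [two_mul, pow_add, Module.End.mul_apply, A09_symm T hs]
    rw [h1]
    exact inner_self_nonneg (𝕜 := ℂ)
  · have h1 : (inner ℂ ((T ^ (2 * i + 1)) z) z : ℂ) = inner ℂ (T ((T ^ i) z)) ((T ^ i) z) := by
      have e : (T ^ (2 * i + 1)) z = (T ^ i) (T ((T ^ i) z)) := by
        rw [show 2 * i + 1 = i + (i + 1) by ring, pow_add, Module.End.mul_apply, pow_succ',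
          Module.End.mul_apply]
      rw [e, A09_symm T hs]
    rw [h1]
    exact hp _

private theorem A09_logconv {E : Type*} [NormedAddCommGroup E] [InnerProductSpace ℂ E]
    (T : E →ₗ[ℂ] E)
    (hs : ∀ x y, inner ℂ (T x) y = inner ℂ x (T y)) (hp : ∀ x, 0 ≤ (inner ℂ (T x) x).re)
    (ζ : E) (m : ℕ) :
    (inner ℂ ((T ^ (m + 1)) ζ) ζ).re ^ 2 ≤
      (inner ℂ ((T ^ m) ζ) ζ).re * (inner ℂ ((T ^ (m + 2)) ζ) ζ).re := by
  have hq : ∀ t : ℝ, 0 ≤ (inner ℂ ((T ^ (m + 2)) ζ) ζ).re * (t * t) +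
      (2 * (inner ℂ ((T ^ (m + 1)) ζ) ζ).re) * t + (inner ℂ ((T ^ m) ζ) ζ).re := by
    intro t
    have h := A09_nonneg T hs hp m (ζ + (t : ℂ) • T ζ)
    have e0 : (inner ℂ ((T ^ m) ζ) (T ζ) : ℂ) = inner ℂ ((T ^ (m + 1)) ζ) ζ := by
      rw [pow_succ', Module.End.mul_apply, hs]
    have e1 : (inner ℂ ((T ^ m) (T ζ)) ζ : ℂ) = inner ℂ ((T ^ (m + 1)) ζ) ζ := by
      rw [pow_succ, Module.End.mul_apply]
    have e2 : (inner ℂ ((T ^ m) (T ζ)) (T ζ) : ℂ) = inner ℂ ((T ^ (m + 2)) ζ) ζ := by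
      rw [← hs, show m + 2 = 1 + (m + 1) by ring, pow_add, pow_one, Module.End.mul_apply, pow_succ,
        Module.End.mul_apply]
    have e3 : (inner ℂ ((T ^ m) (ζ + (t : ℂ) • T ζ)) (ζ + (t : ℂ) • T ζ) : ℂ) =
        inner ℂ ((T ^ m) ζ) ζ + (t : ℂ) * inner ℂ ((T ^ (m + 1)) ζ) ζ +
          (t : ℂ) * inner ℂ ((T ^ (m + 1)) ζ) ζ + (t : ℂ) * (t : ℂ) * inner ℂ ((T ^ (m + 2)) ζ) ζ := by
      rw [map_add, map_smul, inner_add_left, inner_add_right, inner_add_right, inner_smul_left,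
        inner_smul_left, inner_smul_right, inner_smul_right, e0, e1, e2, Complex.conj_ofReal]
      ring
    rw [e3] at h
    simp only [Complex.add_re, Complex.mul_re, Complex.ofReal_re, Complex.ofReal_im, zero_mul,
      sub_zero, Complex.mul_im, mul_zero, add_zero] at h
    nlinarith [h]
  have hd := discrim_le_zero hq
  unfold discrim at hd
  nlinarith [hd]

theorem SBD.pos_pow {E : Type*} [NormedAddCommGroup E] [InnerProductSpace ℂ E] (T : E →ₗ[ℂ] E)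
    (hs : ∀ x y, inner ℂ (T x) y = inner ℂ x (T y)) (hp : ∀ x, 0 ≤ (inner ℂ (T x) x).re)
    (ζ : E) (n : ℕ) (hn : 1 ≤ n) :
    (inner ℂ (T ζ) ζ).re ^ n ≤ (inner ℂ ((T ^ n) ζ) ζ).re * (‖ζ‖ ^ 2) ^ (n - 1) := by
  have h0 : (inner ℂ ((T ^ 0) ζ) ζ).re = ‖ζ‖ ^ 2 := by
    rw [pow_zero, Module.End.one_apply]
    exact inner_self_eq_norm_sq (𝕜 := ℂ) ζ
  have hnn : ∀ m, 0 ≤ (inner ℂ ((T ^ m) ζ) ζ).re := fun m => A09_nonneg T hs hp m ζ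
  have hlc := A09_logconv T hs hp ζ
  have hstep : ∀ m, (inner ℂ ((T ^ 1) ζ) ζ).re * (inner ℂ ((T ^ m) ζ) ζ).re ≤
      (inner ℂ ((T ^ 0) ζ) ζ).re * (inner ℂ ((T ^ (m + 1)) ζ) ζ).re := by
    intro m
    induction m with
    | zero => rw [mul_comm]
    | succ m ih =>
      have h1 := hlc m
      rcases (hnn m).eq_or_lt with h2 | h2
      · rw [← h2, zero_mul] at h1
        have h3 : (inner ℂ ((T ^ (m + 1)) ζ) ζ).re = 0 := by
          have := sq_nonneg (inner ℂ ((T ^ (m + 1)) ζ) ζ).re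
          exact pow_eq_zero_iff (two_ne_zero) |>.1 (le_antisymm h1 this)
        rw [h3, mul_zero]
        exact mul_nonneg (hnn 0) (hnn _)
      · have h3 : (inner ℂ ((T ^ 1) ζ) ζ).re * (inner ℂ ((T ^ (m + 1)) ζ) ζ).re *
            (inner ℂ ((T ^ m) ζ) ζ).re ≤
            (inner ℂ ((T ^ 0) ζ) ζ).re * (inner ℂ ((T ^ (m + 1 + 1)) ζ) ζ).re *
            (inner ℂ ((T ^ m) ζ) ζ).re := by
          calc _ = ((inner ℂ ((T ^ 1) ζ) ζ).re * (inner ℂ ((T ^ m) ζ) ζ).re) *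
                (inner ℂ ((T ^ (m + 1)) ζ) ζ).re := by ring
            _ ≤ ((inner ℂ ((T ^ 0) ζ) ζ).re * (inner ℂ ((T ^ (m + 1)) ζ) ζ).re) *
                (inner ℂ ((T ^ (m + 1)) ζ) ζ).re := mul_le_mul_of_nonneg_right ih (hnn _)
            _ = (inner ℂ ((T ^ 0) ζ) ζ).re * ((inner ℂ ((T ^ (m + 1)) ζ) ζ).re ^ 2) := by ring
            _ ≤ (inner ℂ ((T ^ 0) ζ) ζ).re * ((inner ℂ ((T ^ m) ζ) ζ).re *
                (inner ℂ ((T ^ (m + 2)) ζ) ζ).re) := mul_le_mul_of_nonneg_left h1 (hnn 0)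
            _ = _ := by ring
        exact le_of_mul_le_mul_right h3 h2
  obtain ⟨k, rfl⟩ : ∃ k, n = k + 1 := ⟨n - 1, by omega⟩
  rw [Nat.add_sub_cancel, ← h0]
  have hT1 : (T ^ 1) ζ = T ζ := by rw [pow_one]
  rw [← hT1]
  clear hn
  induction k with
  | zero => simp
  | succ k ih =>
    calc (inner ℂ ((T ^ 1) ζ) ζ).re ^ (k + 1 + 1) =
          (inner ℂ ((T ^ 1) ζ) ζ).re * (inner ℂ ((T ^ 1) ζ) ζ).re ^ (k + 1) := by ring
      _ ≤ (inner ℂ ((T ^ 1) ζ) ζ).re * ((inner ℂ ((T ^ (k + 1)) ζ) ζ).re *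
          (inner ℂ ((T ^ 0) ζ) ζ).re ^ k) := mul_le_mul_of_nonneg_left ih (hnn 1)
      _ = ((inner ℂ ((T ^ 1) ζ) ζ).re * (inner ℂ ((T ^ (k + 1)) ζ) ζ).re) *
          (inner ℂ ((T ^ 0) ζ) ζ).re ^ k := by ring
      _ ≤ ((inner ℂ ((T ^ 0) ζ) ζ).re * (inner ℂ ((T ^ (k + 1 + 1)) ζ) ζ).re) *
          (inner ℂ ((T ^ 0) ζ) ζ).re ^ k :=
          mul_le_mul_of_nonneg_right (hstep _) (pow_nonneg (hnn 0) _)
      _ = _ := by ring
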