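import Pool.Agent.SBD.Alg
import Pool.Agent.SBD.A09

/-!
# Row SBD-A10 : positivity for the matrix `T = -Xᵀ X`

`T := -(A.X.transpose * A.X)`, an `N × N` matrix with entries in `End V`:
`T_{ij} = -∑_k X_{ki} X_{kj}`.  On `E = PiLp 2 (fun _ : Fin N => V)` (an inner product space) let
`a` be the operator `(aζ)_k = ∑_j X_{kj} ζ_j` and `𝐓` the operator `(𝐓ζ)_i = ∑_j T_{ij} ζ_j`.
Each `X_{kj} = D(W k j)` with `W k j ∈ 𝔤`, so is skew: `⟨X_{kj}u,v⟩ = -⟨u,X_{kj}v⟩`; hence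
`⟨𝐓ζ,η⟩ = ∑_{i,j,k} ⟨-X_{ki}X_{kj}ζ_j, η_i⟩ = ∑_{k} ⟨∑_j X_{kj}ζ_j, ∑_i X_{ki}η_i⟩ = ⟨aζ,aη⟩`: `𝐓` is
symmetric and positive.  A09 for `ζ = e_i ⊗ ψ` (the vector with `i`-th entry `ψ`, others 0), with
`(𝐓^n ζ)_i = (T^n)_{ii} ψ` (matrix multiplication ↔ composition), `‖ζ‖ = ‖ψ‖`:
  `Re⟨(T^n)_{ii}ψ,ψ⟩ (‖ψ‖²)^{n-1} ≥ (Re⟨T_{ii}ψ,ψ⟩)^n`, and
`∑_i Re⟨T_{ii}ψ,ψ⟩ = ∑_{i,k} ‖X_{ki}ψ‖² = ∑_{i,k} ‖D(W k i)ψ‖²`.  With `B = (Z,P)`, `σ` as in A04,
`D(W k i)ψ = ∑_α σ_α (B_α)_{ki} D(B_α)ψ`, so the sum is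
`∑_{α,β} σ_α σ_β fip(B_α,B_β) Re⟨D(B_α)ψ,D(B_β)ψ⟩ = ∑_α ‖D(B_α)ψ‖² =: S` (orthonormality; `fip` of a
`Z` with a `P` is 0).  As `N ≥ 1`, some `i` has `Re⟨T_{ii}ψ,ψ⟩ ≥ S/N`.
-/

open scoped Matrix

noncomputable section

namespace SBD

private theorem a10_norm {ι κ V : Type} [Fintype ι] [DecidableEq ι] [Fintype κ]
    [NormedAddCommGroup V] [InnerProductSpace ℂ V] (q : ι → κ → ℝ)
    (hq : ∀ α β, ∑ k, q α k * q β k = if α = β then 1 else 0) (c : ι → V) :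
    ∑ k, ‖∑ α, ((q α k : ℝ) : ℂ) • c α‖ ^ 2 = ∑ α, ‖c α‖ ^ 2 := by
  have h1 : ∀ k, ((‖∑ α, ((q α k : ℝ) : ℂ) • c α‖ ^ 2 : ℝ) : ℂ) =
      ∑ α, ∑ β, ((q α k * q β k : ℝ) : ℂ) * inner ℂ (c α) (c β) := by
    intro k
    have := inner_self_eq_norm_sq_to_K (𝕜 := ℂ) (∑ α, ((q α k : ℝ) : ℂ) • c α)
    rw [Complex.ofReal_pow]
    refine this.symm.trans ?_
    rw [sum_inner]
    refine Finset.sum_congr rfl fun α _ => ?_
    rw [inner_sum]
    refine Finset.sum_congr rfl fun β _ => ?_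
    rw [inner_smul_left, inner_smul_right, Complex.conj_ofReal]
    push_cast
    ring
  have h2 : ((∑ k, ‖∑ α, ((q α k : ℝ) : ℂ) • c α‖ ^ 2 : ℝ) : ℂ) = ((∑ α, ‖c α‖ ^ 2 : ℝ) : ℂ) := by
    rw [Complex.ofReal_sum, Finset.sum_congr rfl fun k _ => h1 k, Finset.sum_comm]
    rw [Complex.ofReal_sum]
    refine Finset.sum_congr rfl fun α _ => ?_
    rw [Finset.sum_comm]
    have h3 : ∀ β, ∑ k, ((q α k * q β k : ℝ) : ℂ) * inner ℂ (c α) (c β) =
        if α = β then inner ℂ (c α) (c β) else 0 := by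
      intro β
      rw [← Finset.sum_mul, ← Complex.ofReal_sum, hq]
      split_ifs <;> simp
    rw [Finset.sum_congr rfl fun β _ => h3 β, Finset.sum_ite_eq]
    simp only [Finset.mem_univ, if_true]
    rw [Complex.ofReal_pow]
    exact inner_self_eq_norm_sq_to_K (𝕜 := ℂ) (c α)
  exact_mod_cast h2

private theorem a10_fip {N : ℕ} (X Y : Mat N) : fip X Y = ∑ p : Fin N × Fin N, X p.1 p.2 * Y p.1 p.2 := by
  unfold fip
  rw [Matrix.trace, Fintype.sum_prod_type, Finset.sum_comm]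
  refine Finset.sum_congr rfl fun i _ => ?_
  rw [Matrix.diag_apply, Matrix.mul_apply]
  rfl

private theorem a10_fip0 {N : ℕ} (X Y : Mat N) (hX : Xᵀ = -X) (hY : Yᵀ = Y) : fip X Y = 0 := by
  have h : fip X Y = -fip X Y := by
    unfold fip
    conv_lhs => rw [← Matrix.trace_transpose, Matrix.transpose_mul, Matrix.transpose_transpose, hY,
      Matrix.trace_mul_comm]
    rw [hX, Matrix.neg_mul, Matrix.trace_neg, neg_neg]
  linarith

private theorem a10_fip1 {N : ℕ} (X Y : Mat N) (hX : Xᵀ = X) (hY : Yᵀ = -Y) : fip X Y = 0 := by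
  have h : fip X Y = fip Y X := by
    rw [a10_fip, a10_fip]
    exact Finset.sum_congr rfl fun p _ => mul_comm _ _
  rw [h]
  exact a10_fip0 Y X hY hX

/-- The operator given by a matrix of operators. -/
private def a10_op {N : ℕ} {V : Type} [NormedAddCommGroup V] [InnerProductSpace ℂ V]
    (M : Matrix (Fin N) (Fin N) (Module.End ℂ V)) :
    Module.End ℂ (PiLp 2 (fun _ : Fin N => V)) where
  toFun ζ := WithLp.toLp 2 (fun i => ∑ j, M i j (ζ j))
  map_add' ζ η := by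
    ext i
    simp [Finset.sum_add_distrib]
  map_smul' c ζ := by
    ext i
    simp [Finset.smul_sum]

private theorem a10_op_apply {N : ℕ} {V : Type} [NormedAddCommGroup V] [InnerProductSpace ℂ V]
    (M : Matrix (Fin N) (Fin N) (Module.End ℂ V)) (ζ : PiLp 2 (fun _ : Fin N => V)) (i : Fin N) :
    a10_op M ζ i = ∑ j, M i j (ζ j) := rfl

private theorem a10_op_mul {N : ℕ} {V : Type} [NormedAddCommGroup V] [InnerProductSpace ℂ V]
    (M M' : Matrix (Fin N) (Fin N) (Module.End ℂ V)) :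
    a10_op (M * M') = a10_op M * a10_op M' := by
  refine LinearMap.ext fun ζ => ?_
  ext i
  rw [Module.End.mul_apply, a10_op_apply, a10_op_apply]
  simp only [a10_op_apply, Matrix.mul_apply, LinearMap.sum_apply, Module.End.mul_apply, map_sum]
  exact Finset.sum_comm

private theorem a10_op_one {N : ℕ} {V : Type} [NormedAddCommGroup V] [InnerProductSpace ℂ V] :
    a10_op (1 : Matrix (Fin N) (Fin N) (Module.End ℂ V)) = 1 := by
  refine LinearMap.ext fun ζ => ?_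
  ext i
  rw [a10_op_apply, Finset.sum_eq_single i]
  · rw [Matrix.one_apply_eq]
    rfl
  · intro j _ hj
    rw [Matrix.one_apply_ne (Ne.symm hj)]
    rfl
  · simp

private theorem a10_op_pow {N : ℕ} {V : Type} [NormedAddCommGroup V] [InnerProductSpace ℂ V]
    (M : Matrix (Fin N) (Fin N) (Module.End ℂ V)) (n : ℕ) :
    a10_op (M ^ n) = a10_op M ^ n := by
  induction n with
  | zero => rw [pow_zero, pow_zero, a10_op_one]
  | succ n ih => rw [pow_succ, pow_succ, a10_op_mul, ih]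

private theorem a10_single {N : ℕ} {V : Type} [NormedAddCommGroup V] [InnerProductSpace ℂ V]
    (M : Matrix (Fin N) (Fin N) (Module.End ℂ V)) (i : Fin N) (ψ : V) :
    inner ℂ (a10_op M (WithLp.toLp 2 (Pi.single i ψ))) (WithLp.toLp 2 (Pi.single i ψ)) =
      inner ℂ (M i i ψ) ψ := by
  rw [PiLp.inner_apply, Finset.sum_eq_single i]
  · rw [a10_op_apply, Finset.sum_eq_single i]
    · simp
    · intro j _ hj
      simp [Pi.single_eq_of_ne hj]
    · simp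
  · intro j _ hj
    simp [Pi.single_eq_of_ne hj]
  · simp

private theorem a10_norm_single {N : ℕ} {V : Type} [NormedAddCommGroup V] [InnerProductSpace ℂ V]
    (i : Fin N) (ψ : V) :
    ‖(WithLp.toLp 2 (Pi.single i ψ) : PiLp 2 (fun _ : Fin N => V))‖ ^ 2 = ‖ψ‖ ^ 2 := by
  rw [PiLp.norm_sq_eq_of_L2, Finset.sum_eq_single i]
  · simp
  · intro j _ hj
    simp [Pi.single_eq_of_ne hj]
  · simp

namespace LieRep

variable {N : ℕ} {V : Type} [NormedAddCommGroup V] [InnerProductSpace ℂ V] (A : LieRep N V)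

private theorem a10_W_mem (i j : Fin N) : A.W i j ∈ A.𝔤 := by
  unfold W
  exact A.𝔤.add_mem (A.𝔤.neg_mem (A.𝔤.sum_mem fun a _ => A.𝔤.smul_mem _ (A.Z_mem a)))
    (A.𝔤.sum_mem fun b _ => A.𝔤.smul_mem _ (A.P_mem b))

private theorem a10_skew (i j : Fin N) (u v : V) :
    inner ℂ (A.X i j u) v = -inner ℂ u (A.X i j v) :=
  A.skew _ (A.a10_W_mem i j) u v

private theorem a10_T (i j : Fin N) (v : V) :
    (-(A.X.transpose * A.X)) i j v = -∑ k, A.X k i (A.X k j v) := by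
  rw [Matrix.neg_apply, LinearMap.neg_apply, Matrix.mul_apply, LinearMap.sum_apply]
  rfl

private theorem a10_inner (ζ η : PiLp 2 (fun _ : Fin N => V)) :
    inner ℂ (a10_op (-(A.X.transpose * A.X)) ζ) η =
      ∑ k, inner ℂ (∑ j, A.X k j (ζ j)) (∑ i, A.X k i (η i)) := by
  rw [PiLp.inner_apply]
  have h1 : ∀ i, inner ℂ (a10_op (-(A.X.transpose * A.X)) ζ i) (η i) =
      ∑ j, ∑ k, inner ℂ (A.X k j (ζ j)) (A.X k i (η i)) := by
    intro i
    rw [a10_op_apply, sum_inner]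
    refine Finset.sum_congr rfl fun j _ => ?_
    rw [a10_T, inner_neg_left, sum_inner, ← Finset.sum_neg_distrib]
    refine Finset.sum_congr rfl fun k _ => ?_
    rw [A.a10_skew, neg_neg]
  rw [Finset.sum_congr rfl fun i _ => h1 i]
  have h2 : ∀ k, inner ℂ (∑ j, A.X k j (ζ j)) (∑ i, A.X k i (η i)) =
      ∑ i, ∑ j, inner ℂ (A.X k j (ζ j)) (A.X k i (η i)) := by
    intro k
    rw [inner_sum]
    refine Finset.sum_congr rfl fun i _ => ?_
    rw [sum_inner]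
  rw [Finset.sum_congr rfl fun k _ => h2 k, Finset.sum_comm (s := (Finset.univ : Finset (Fin N)))
    (t := (Finset.univ : Finset (Fin N))) (f := fun k i => ∑ j, inner ℂ (A.X k j (ζ j)) (A.X k i (η i)))]
  refine Finset.sum_congr rfl fun i _ => ?_
  exact Finset.sum_comm

private theorem a10_X (k i : Fin N) (ψ : V) : A.X k i ψ =
    -∑ a, ((A.Z a k i : ℝ) : ℂ) • A.D (A.Z a) ψ + ∑ b, ((A.P b k i : ℝ) : ℂ) • A.D (A.P b) ψ := by
  show A.D (A.W k i) ψ = _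
  unfold W
  rw [map_add, map_neg, map_sum, map_sum, LinearMap.add_apply, LinearMap.neg_apply,
    LinearMap.sum_apply, LinearMap.sum_apply]
  congr 1
  · congr 1
    refine Finset.sum_congr rfl fun a _ => ?_
    rw [map_smul]
    rfl
  · refine Finset.sum_congr rfl fun a _ => ?_
    rw [map_smul]
    rfl

private theorem a10_sum (ψ : V) : ∑ p : Fin N × Fin N, ‖A.X p.1 p.2 ψ‖ ^ 2 =
    ∑ a, ‖A.D (A.Z a) ψ‖ ^ 2 + ∑ b, ‖A.D (A.P b) ψ‖ ^ 2 := by
  have h := a10_norm (ι := Fin A.m ⊕ Fin A.n) (κ := Fin N × Fin N)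
    (Sum.elim (fun a p => -A.Z a p.1 p.2) (fun b p => A.P b p.1 p.2)) (by
      intro α β
      rcases α with a | b <;> rcases β with a' | b'
      · simp only [Sum.elim_inl, neg_mul_neg, Sum.inl.injEq]
        rw [← a10_fip, A.Z_o]
      · simp only [Sum.elim_inl, Sum.elim_inr, reduceCtorEq, if_false, neg_mul,
          Finset.sum_neg_distrib]
        rw [← a10_fip, a10_fip0 _ _ (A.Z_t a) (A.P_t b'), neg_zero]
      · simp only [Sum.elim_inl, Sum.elim_inr, reduceCtorEq, if_false, mul_neg,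
          Finset.sum_neg_distrib]
        rw [← a10_fip, a10_fip1 _ _ (A.P_t b) (A.Z_t a'), neg_zero]
      · simp only [Sum.elim_inr, Sum.inr.injEq]
        rw [← a10_fip, A.P_o])
    (Sum.elim (fun a => A.D (A.Z a) ψ) (fun b => A.D (A.P b) ψ))
  rw [Fintype.sum_sum_type] at h
  simp only [Sum.elim_inl, Sum.elim_inr] at h
  rw [← h]
  refine Finset.sum_congr rfl fun p _ => ?_
  rw [Fintype.sum_sum_type, a10_X]
  simp only [Sum.elim_inl, Sum.elim_inr, Complex.ofReal_neg, neg_smul, Finset.sum_neg_distrib]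

theorem pos_X (hN : 0 < N) (n : ℕ) (hn : 1 ≤ n) (ψ : V) : ∃ i : Fin N,
    ((∑ a, ‖A.D (A.Z a) ψ‖ ^ 2 + ∑ b, ‖A.D (A.P b) ψ‖ ^ 2) / N) ^ n ≤
      (inner ℂ (((-(A.X.transpose * A.X)) ^ n) i i ψ) ψ).re * (‖ψ‖ ^ 2) ^ (n - 1) := by
  have hNR : (0 : ℝ) < N := by exact_mod_cast hN
  set S : ℝ := ∑ a, ‖A.D (A.Z a) ψ‖ ^ 2 + ∑ b, ‖A.D (A.P b) ψ‖ ^ 2 with hS
  have hS0 : 0 ≤ S := add_nonneg (Finset.sum_nonneg fun _ _ => sq_nonneg _)
    (Finset.sum_nonneg fun _ _ => sq_nonneg _)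
  have hTii : ∀ i, (inner ℂ ((-(A.X.transpose * A.X)) i i ψ) ψ).re = ∑ k, ‖A.X k i ψ‖ ^ 2 := by
    intro i
    rw [a10_T, inner_neg_left, sum_inner, ← Finset.sum_neg_distrib, Complex.re_sum]
    refine Finset.sum_congr rfl fun k _ => ?_
    rw [A.a10_skew, neg_neg, inner_self_eq_norm_sq_to_K (𝕜 := ℂ)]
    norm_cast
  have hsum : ∑ i, (inner ℂ ((-(A.X.transpose * A.X)) i i ψ) ψ).re = S := by
    rw [Finset.sum_congr rfl fun i _ => hTii i, hS, ← A.a10_sum ψ, Fintype.sum_prod_type,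
      Finset.sum_comm]
  obtain ⟨i, hi⟩ : ∃ i : Fin N, S / N ≤ (inner ℂ ((-(A.X.transpose * A.X)) i i ψ) ψ).re := by
    by_contra hcon
    push Not at hcon
    have hne : (Finset.univ : Finset (Fin N)).Nonempty := ⟨⟨0, hN⟩, Finset.mem_univ _⟩
    have := Finset.sum_lt_sum_of_nonempty hne (fun i _ => hcon i)
    rw [hsum, Finset.sum_const, Finset.card_univ, Fintype.card_fin, nsmul_eq_mul,
      mul_div_cancel₀ _ hNR.ne'] at this
    exact lt_irrefl _ this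
  refine ⟨i, ?_⟩
  have hs : ∀ x y : PiLp 2 (fun _ : Fin N => V),
      inner ℂ (a10_op (-(A.X.transpose * A.X)) x) y =
        inner ℂ x (a10_op (-(A.X.transpose * A.X)) y) := by
    intro x y
    rw [← inner_conj_symm x, a10_inner, a10_inner, map_sum]
    refine Finset.sum_congr rfl fun k _ => ?_
    rw [inner_conj_symm]
  have hp : ∀ x : PiLp 2 (fun _ : Fin N => V),
      0 ≤ (inner ℂ (a10_op (-(A.X.transpose * A.X)) x) x).re := by
    intro x
    rw [a10_inner, Complex.re_sum]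
    exact Finset.sum_nonneg fun k _ => inner_self_nonneg (𝕜 := ℂ)
  have key := pos_pow (a10_op (-(A.X.transpose * A.X))) hs hp
    (WithLp.toLp 2 (Pi.single i ψ)) n hn
  rw [← a10_op_pow, a10_single, a10_single, a10_norm_single] at key
  refine le_trans ?_ key
  exact pow_le_pow_left₀ (div_nonneg hS0 hNR.le) hi n

end LieRep

end SBD
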