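import Pool.Agent.SBD.A05
import Pool.Agent.SBD.A06
import Pool.Agent.SBD.A08
import Pool.Agent.SBD.A10

/-!
# Row SBD-A11 : the second moment bound

`∑_c ‖Δ D(P_c)ψ - lam D(P_c)ψ‖² ≥ c lam² ‖ψ‖²` for `ψ ∈ V_lam`, `lam ≥ lam0`.
(Asymptotic algebra of sequences of operators, by contradiction.)
-/

open scoped Matrix
open Filter Topology

noncomputable section

namespace SBD

namespace LieRep

variable {N : ℕ} {V : Type} [NormedAddCommGroup V] [InnerProductSpace ℂ V] (A : LieRep N V)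

/-- The algebra of the sequences of operators which are uniformly bounded on `low (M L_k)`. -/
private def A11_R (L : ℕ → ℝ) (hL : ∀ k, 1 ≤ L k) : Subalgebra ℂ (ℕ → Module.End ℂ V) where
  carrier := {T | ∀ M : ℝ, 1 ≤ M → ∃ C : ℝ, 1 ≤ C ∧ ∀ k, ∀ φ ∈ A.low (M * L k),
    T k φ ∈ A.low (C * L k) ∧ ‖T k φ‖ ≤ C * ‖φ‖}
  mul_mem' := by
    intro S T hS hT M hM
    obtain ⟨C1, hC1, h1⟩ := hT M hM
    obtain ⟨C2, hC2, h2⟩ := hS C1 hC1
    refine ⟨C2 * C1, one_le_mul_of_one_le_of_one_le hC2 hC1, ?_⟩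
    intro k φ hφ
    obtain ⟨h3, h4⟩ := h1 k φ hφ
    obtain ⟨h5, h6⟩ := h2 k _ h3
    refine ⟨?_, ?_⟩
    · have : C2 * L k ≤ C2 * C1 * L k := by
        have := hL k
        nlinarith [mul_nonneg (by linarith : (0:ℝ) ≤ C2) (by linarith : (0:ℝ) ≤ L k)]
      exact A.low_mono this h5
    · calc ‖(S * T) k φ‖ = ‖S k (T k φ)‖ := rfl
        _ ≤ C2 * ‖T k φ‖ := h6
        _ ≤ C2 * (C1 * ‖φ‖) := by gcongr
        _ = C2 * C1 * ‖φ‖ := by ring
  add_mem' := by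
    intro S T hS hT M hM
    obtain ⟨C1, hC1, h1⟩ := hT M hM
    obtain ⟨C2, hC2, h2⟩ := hS M hM
    refine ⟨C2 + C1, by linarith, ?_⟩
    intro k φ hφ
    obtain ⟨h3, h4⟩ := h1 k φ hφ
    obtain ⟨h5, h6⟩ := h2 k _ hφ
    have hLk := hL k
    refine ⟨?_, ?_⟩
    · have e : (S + T) k φ = S k φ + T k φ := rfl
      rw [e]
      refine Submodule.add_mem _ (A.low_mono ?_ h5) (A.low_mono ?_ h3)
      · nlinarith
      · nlinarith
    · calc ‖(S + T) k φ‖ = ‖S k φ + T k φ‖ := rfl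
        _ ≤ ‖S k φ‖ + ‖T k φ‖ := norm_add_le _ _
        _ ≤ C2 * ‖φ‖ + C1 * ‖φ‖ := by gcongr
        _ = (C2 + C1) * ‖φ‖ := by ring
  algebraMap_mem' := by
    intro r M hM
    refine ⟨M + ‖r‖, by linarith [norm_nonneg r], ?_⟩
    intro k φ hφ
    have hLk := hL k
    have e : (algebraMap ℂ (ℕ → Module.End ℂ V) r) k φ = r • φ := rfl
    rw [e]
    refine ⟨Submodule.smul_mem _ _ (A.low_mono ?_ hφ), ?_⟩
    · nlinarith [norm_nonneg r]
    · rw [norm_smul]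
      nlinarith [norm_nonneg r, norm_nonneg φ]

private theorem A11_mem_R (L : ℕ → ℝ) (hL : ∀ k, 1 ≤ L k) (T : ℕ → Module.End ℂ V) :
    T ∈ A.A11_R L hL ↔ ∀ M : ℝ, 1 ≤ M → ∃ C : ℝ, 1 ≤ C ∧ ∀ k, ∀ φ ∈ A.low (M * L k),
    T k φ ∈ A.low (C * L k) ∧ ‖T k φ‖ ≤ C * ‖φ‖ := Iff.rfl

/-- The ideal of the sequences of norm `O(1/√L_k)`. -/
private def A11_I (L : ℕ → ℝ) (hL : ∀ k, 1 ≤ L k) : Ideal (A.A11_R L hL) where
  carrier := {T | ∀ M : ℝ, 1 ≤ M → ∃ C : ℝ, 1 ≤ C ∧ ∀ k, ∀ φ ∈ A.low (M * L k),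
    ‖(T : ℕ → Module.End ℂ V) k φ‖ ≤ C / Real.sqrt (L k) * ‖φ‖}
  add_mem' := by
    intro S T hS hT M hM
    obtain ⟨C1, hC1, h1⟩ := hT M hM
    obtain ⟨C2, hC2, h2⟩ := hS M hM
    refine ⟨C2 + C1, by linarith, ?_⟩
    intro k φ hφ
    calc ‖((S + T : A.A11_R L hL) : ℕ → Module.End ℂ V) k φ‖
        = ‖(S : ℕ → Module.End ℂ V) k φ + (T : ℕ → Module.End ℂ V) k φ‖ := rfl
      _ ≤ ‖(S : ℕ → Module.End ℂ V) k φ‖ + ‖(T : ℕ → Module.End ℂ V) k φ‖ := norm_add_le _ _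
      _ ≤ C2 / Real.sqrt (L k) * ‖φ‖ + C1 / Real.sqrt (L k) * ‖φ‖ := by
          gcongr
          · exact h2 k φ hφ
          · exact h1 k φ hφ
      _ = (C2 + C1) / Real.sqrt (L k) * ‖φ‖ := by ring
  zero_mem' := by
    intro M hM
    refine ⟨1, le_refl _, ?_⟩
    intro k φ hφ
    have e : ((0 : A.A11_R L hL) : ℕ → Module.End ℂ V) k φ = 0 := rfl
    rw [e, norm_zero]
    positivity
  smul_mem' := by
    intro S T hT M hM
    obtain ⟨C1, hC1, h1⟩ := hT M hM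
    obtain ⟨C3, hC3, h3⟩ := T.2 M hM
    obtain ⟨C2, hC2, h2⟩ := S.2 C3 hC3
    refine ⟨C2 * C1, one_le_mul_of_one_le_of_one_le hC2 hC1, ?_⟩
    intro k φ hφ
    calc ‖((S • T : A.A11_R L hL) : ℕ → Module.End ℂ V) k φ‖
        = ‖(S : ℕ → Module.End ℂ V) k ((T : ℕ → Module.End ℂ V) k φ)‖ := rfl
      _ ≤ C2 * ‖(T : ℕ → Module.End ℂ V) k φ‖ := (h2 k _ (h3 k φ hφ).1).2
      _ ≤ C2 * (C1 / Real.sqrt (L k) * ‖φ‖) := by
          gcongr
          exact h1 k φ hφ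
      _ = C2 * C1 / Real.sqrt (L k) * ‖φ‖ := by ring

private theorem A11_mem_I (L : ℕ → ℝ) (hL : ∀ k, 1 ≤ L k) (T : A.A11_R L hL) :
    T ∈ A.A11_I L hL ↔ ∀ M : ℝ, 1 ≤ M → ∃ C : ℝ, 1 ≤ C ∧ ∀ k, ∀ φ ∈ A.low (M * L k),
    ‖(T : ℕ → Module.End ℂ V) k φ‖ ≤ C / Real.sqrt (L k) * ‖φ‖ := Iff.rfl

private theorem A11_two (L : ℕ → ℝ) (hL : ∀ k, 1 ≤ L k) : (A.A11_I L hL).IsTwoSided where
  mul_mem_of_left := by
    intro T S hT M hM
    obtain ⟨C1, hC1, h1⟩ := S.2 M hM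
    obtain ⟨C2, hC2, h2⟩ := hT C1 hC1
    refine ⟨C2 * C1, one_le_mul_of_one_le_of_one_le hC2 hC1, ?_⟩
    intro k φ hφ
    have hs : 0 ≤ C2 / Real.sqrt (L k) := by positivity
    calc ‖((T * S : A.A11_R L hL) : ℕ → Module.End ℂ V) k φ‖
        = ‖(T : ℕ → Module.End ℂ V) k ((S : ℕ → Module.End ℂ V) k φ)‖ := rfl
      _ ≤ C2 / Real.sqrt (L k) * ‖(S : ℕ → Module.End ℂ V) k φ‖ := h2 k _ (h1 k φ hφ).1
      _ ≤ C2 / Real.sqrt (L k) * (C1 * ‖φ‖) := by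
          gcongr
          exact (h1 k φ hφ).2
      _ = C2 * C1 / Real.sqrt (L k) * ‖φ‖ := by ring

/-- The left ideal of the sequences with `T_k ψ_k → 0`. -/
private def A11_J (L : ℕ → ℝ) (hL : ∀ k, 1 ≤ L k) (ψ : ℕ → V) (hψ : ∀ k, ψ k ∈ A.eig (L k)) :
    Ideal (A.A11_R L hL) where
  carrier := {T | Tendsto (fun k => ‖(T : ℕ → Module.End ℂ V) k (ψ k)‖) atTop (𝓝 0)}
  add_mem' := by
    intro S T hS hT
    have h : Tendsto (fun k => ‖(S : ℕ → Module.End ℂ V) k (ψ k)‖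
        + ‖(T : ℕ → Module.End ℂ V) k (ψ k)‖) atTop (𝓝 0) := by
      simpa using Filter.Tendsto.add hS hT
    exact squeeze_zero (fun k => norm_nonneg _) (fun k => norm_add_le _ _) h
  zero_mem' := by
    have e : (fun k => ‖((0 : A.A11_R L hL) : ℕ → Module.End ℂ V) k (ψ k)‖) = fun _ => (0:ℝ) := by
      funext k
      exact norm_zero
    show Tendsto (fun k => ‖((0 : A.A11_R L hL) : ℕ → Module.End ℂ V) k (ψ k)‖) atTop (𝓝 0)
    rw [e]
    exact tendsto_const_nhds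
  smul_mem' := by
    intro S T hT
    obtain ⟨C3, hC3, h3⟩ := T.2 1 (le_refl 1)
    obtain ⟨C2, hC2, h2⟩ := S.2 C3 hC3
    have h : Tendsto (fun k => C2 * ‖(T : ℕ → Module.End ℂ V) k (ψ k)‖) atTop (𝓝 0) := by
      simpa using Filter.Tendsto.const_mul C2 hT
    refine squeeze_zero (fun k => norm_nonneg _) (fun k => ?_) h
    have h4 : ψ k ∈ A.low (1 * L k) := A.eig_le_low (by linarith) (hψ k)
    exact (h2 k _ (h3 k _ h4).1).2

private theorem A11_mem_J (L : ℕ → ℝ) (hL : ∀ k, 1 ≤ L k) (ψ : ℕ → V)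
    (hψ : ∀ k, ψ k ∈ A.eig (L k)) (T : A.A11_R L hL) :
    T ∈ A.A11_J L hL ψ hψ ↔
      Tendsto (fun k => ‖(T : ℕ → Module.End ℂ V) k (ψ k)‖) atTop (𝓝 0) := Iff.rfl

private theorem A11_sqrt_tend (L : ℕ → ℝ) (hLk : ∀ k : ℕ, (k : ℝ) + 1 ≤ L k) (C : ℝ) :
    Tendsto (fun k => C / Real.sqrt (L k)) atTop (𝓝 0) := by
  have h1 : Tendsto L atTop atTop := by
    refine tendsto_atTop_mono hLk ?_
    exact tendsto_atTop_add_const_right _ _ tendsto_natCast_atTop_atTop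
  have h2 : Tendsto (fun k => Real.sqrt (L k)) atTop atTop :=
    Real.tendsto_sqrt_atTop.comp h1
  exact h2.const_div_atTop C

private theorem A11_I_le (L : ℕ → ℝ) (hL : ∀ k, 1 ≤ L k) (hLk : ∀ k : ℕ, (k : ℝ) + 1 ≤ L k)
    (ψ : ℕ → V) (hψ : ∀ k, ψ k ∈ A.eig (L k)) (hn : ∀ k, ‖ψ k‖ = 1) :
    A.A11_I L hL ≤ A.A11_J L hL ψ hψ := by
  intro T hT
  obtain ⟨C, hC, h⟩ := hT 1 (le_refl 1)
  refine squeeze_zero (fun k => norm_nonneg _) (fun k => ?_) (A11_sqrt_tend L hLk C)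
  have h4 : ψ k ∈ A.low (1 * L k) := A.eig_le_low (by linarith) (hψ k)
  have h5 := h k _ h4
  rw [hn k, mul_one] at h5
  exact h5

private theorem A11_W_mem (i j : Fin N) : A.W i j ∈ A.𝔤 := by
  unfold W
  refine Submodule.add_mem _ (Submodule.neg_mem _ ?_) ?_
  · exact Submodule.sum_mem _ fun a _ => Submodule.smul_mem _ _ (A.Z_mem a)
  · exact Submodule.sum_mem _ fun a _ => Submodule.smul_mem _ _ (A.P_mem a)

/-- `L_k^{-1/2} D(Y)` is in `R`. -/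
private theorem A11_D_mem (hA : A.IsAdm) (L : ℕ → ℝ) (hL : ∀ k, 1 ≤ L k) (Y : Mat N)
    (hY : Y ∈ A.𝔤) :
    (fun k => (((Real.sqrt (L k))⁻¹ : ℝ) : ℂ) • (A.D Y : Module.End ℂ V)) ∈ A.A11_R L hL := by
  intro M hM
  obtain ⟨C1, hC1, h1⟩ := A.D_low hA
  obtain ⟨C2, hC2, h2⟩ := A.norm_D_le hA
  refine ⟨C1 * M + C2 * Real.sqrt (fsq Y) * Real.sqrt M, ?_, ?_⟩
  · have : 1 ≤ C1 * M := one_le_mul_of_one_le_of_one_le hC1 hM
    have : 0 ≤ C2 * Real.sqrt (fsq Y) * Real.sqrt M := by positivity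
    linarith
  intro k φ hφ
  have hLk := hL k
  have hML : 1 ≤ M * L k := one_le_mul_of_one_le_of_one_le hM hLk
  have h3 := h1 Y hY _ hML φ hφ
  have h4 := h2 Y hY _ hML φ hφ
  have e : (((Real.sqrt (L k))⁻¹ : ℝ) : ℂ) • (A.D Y : Module.End ℂ V) φ
      = ((fun k => (((Real.sqrt (L k))⁻¹ : ℝ) : ℂ) • (A.D Y : Module.End ℂ V)) k) φ := rfl
  have h0 : 0 ≤ C2 * Real.sqrt (fsq Y) * Real.sqrt M := by positivity
  refine ⟨?_, ?_⟩
  · rw [← e]
    refine Submodule.smul_mem _ _ (A.low_mono ?_ h3)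
    nlinarith
  · rw [← e, norm_smul]
    have hs : 0 < Real.sqrt (L k) := Real.sqrt_pos.2 (by linarith)
    have e2 : ‖(((Real.sqrt (L k))⁻¹ : ℝ) : ℂ)‖ = (Real.sqrt (L k))⁻¹ := by
      rw [Complex.norm_real, Real.norm_of_nonneg (by positivity)]
    rw [e2]
    calc (Real.sqrt (L k))⁻¹ * ‖A.D Y φ‖
        ≤ (Real.sqrt (L k))⁻¹ * (C2 * Real.sqrt (fsq Y) * Real.sqrt (M * L k) * ‖φ‖) := by
          gcongr
      _ = C2 * Real.sqrt (fsq Y) * Real.sqrt M * ‖φ‖ := by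
          rw [Real.sqrt_mul (by linarith : (0:ℝ) ≤ M)]
          field_simp
      _ ≤ (C1 * M + C2 * Real.sqrt (fsq Y) * Real.sqrt M) * ‖φ‖ := by
          gcongr
          have : 1 ≤ C1 * M := one_le_mul_of_one_le_of_one_le hC1 hM
          linarith

/-- `‖L_k^{-1} D(Y) φ‖ ≤ C L_k^{-1/2} ‖φ‖`. -/
private theorem A11_D_small (hA : A.IsAdm) (L : ℕ → ℝ) (hL : ∀ k, 1 ≤ L k) (Y : Mat N)
    (hY : Y ∈ A.𝔤) (M : ℝ) (hM : 1 ≤ M) : ∃ C : ℝ, 1 ≤ C ∧ ∀ k, ∀ φ ∈ A.low (M * L k),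
      ‖(((L k)⁻¹ : ℝ) : ℂ) • A.D Y φ‖ ≤ C / Real.sqrt (L k) * ‖φ‖ := by
  obtain ⟨C2, hC2, h2⟩ := A.norm_D_le hA
  refine ⟨1 + C2 * Real.sqrt (fsq Y) * Real.sqrt M, ?_, ?_⟩
  · have : 0 ≤ C2 * Real.sqrt (fsq Y) * Real.sqrt M := by positivity
    linarith
  intro k φ hφ
  have hLk := hL k
  have hML : 1 ≤ M * L k := one_le_mul_of_one_le_of_one_le hM hLk
  have h4 := h2 Y hY _ hML φ hφ
  rw [norm_smul]
  have hs : 0 < Real.sqrt (L k) := Real.sqrt_pos.2 (by linarith)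
  have e2 : ‖(((L k)⁻¹ : ℝ) : ℂ)‖ = (L k)⁻¹ := by
    rw [Complex.norm_real, Real.norm_of_nonneg (by positivity)]
  rw [e2]
  have hsq : Real.sqrt (L k) * Real.sqrt (L k) = L k := Real.mul_self_sqrt (by linarith)
  calc (L k)⁻¹ * ‖A.D Y φ‖
      ≤ (L k)⁻¹ * (C2 * Real.sqrt (fsq Y) * Real.sqrt (M * L k) * ‖φ‖) := by
        gcongr
    _ = C2 * Real.sqrt (fsq Y) * Real.sqrt M / Real.sqrt (L k) * ‖φ‖ := by
        rw [Real.sqrt_mul (by linarith : (0:ℝ) ≤ M)]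
        rw [← hsq]
        field_simp
        rw [Real.sqrt_sq hs.le]
        ring
    _ ≤ (1 + C2 * Real.sqrt (fsq Y) * Real.sqrt M) / Real.sqrt (L k) * ‖φ‖ := by
        gcongr
        linarith

/-- The matrix `M` over `R`. -/
private def A11_M (hA : A.IsAdm) (L : ℕ → ℝ) (hL : ∀ k, 1 ≤ L k) :
    Matrix (Fin N) (Fin N) (A.A11_R L hL) := fun i j =>
  ⟨fun k => (((Real.sqrt (L k))⁻¹ : ℝ) : ℂ) • (A.D (A.W i j) : Module.End ℂ V),
    A.A11_D_mem hA L hL _ (A.A11_W_mem i j)⟩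

/-- evaluation at `k` -/
private def A11_ev (L : ℕ → ℝ) (hL : ∀ k, 1 ≤ L k) (k : ℕ) :
    A.A11_R L hL →+* Module.End ℂ V :=
  (Pi.evalRingHom (fun _ : ℕ => Module.End ℂ V) k).comp (A.A11_R L hL).val.toRingHom

private theorem A11_ev_apply (L : ℕ → ℝ) (hL : ∀ k, 1 ≤ L k) (k : ℕ) (T : A.A11_R L hL) :
    A.A11_ev L hL k T = (T : ℕ → Module.End ℂ V) k := rfl

private theorem A11_map_M (hA : A.IsAdm) (L : ℕ → ℝ) (hL : ∀ k, 1 ≤ L k) (k : ℕ) :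
    (A.A11_ev L hL k).mapMatrix (A.A11_M hA L hL)
      = (((Real.sqrt (L k))⁻¹ : ℝ) : ℂ) • A.X := by
  ext i j : 2
  rfl

private theorem A11_map_Mt (hA : A.IsAdm) (L : ℕ → ℝ) (hL : ∀ k, 1 ≤ L k) (k : ℕ) :
    (A.A11_ev L hL k).mapMatrix (A.A11_M hA L hL).transpose
      = (((Real.sqrt (L k))⁻¹ : ℝ) : ℂ) • A.X.transpose := by
  ext i j : 2
  rfl

private theorem A11_sq (l : ℝ) (hl : 1 ≤ l) : (((Real.sqrt l)⁻¹ : ℝ) : ℂ) * (((Real.sqrt l)⁻¹ : ℝ) : ℂ)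
    = ((l⁻¹ : ℝ) : ℂ) := by
  rw [← Complex.ofReal_mul, ← mul_inv, Real.mul_self_sqrt (by linarith)]

theorem Q_lower (hA : A.IsAdm) : ∃ c : ℝ, 0 < c ∧ ∃ lam0 : ℝ, 1 ≤ lam0 ∧
    ∀ lam, lam0 ≤ lam → ∀ ψ ∈ A.eig lam,
      c * lam ^ 2 * ‖ψ‖ ^ 2 ≤
        ∑ b, ‖A.Del (A.D (A.P b) ψ) - (lam : ℂ) • A.D (A.P b) ψ‖ ^ 2 := by
  classical
  rcases Nat.eq_zero_or_pos N with hN | hN
  · subst hN
    have hm : A.m = 0 := by
      by_contra hm
      have h1 := A.Z_o ⟨0, Nat.pos_of_ne_zero hm⟩ ⟨0, Nat.pos_of_ne_zero hm⟩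
      rw [if_pos rfl] at h1
      have h2 : fip (A.Z ⟨0, Nat.pos_of_ne_zero hm⟩) (A.Z ⟨0, Nat.pos_of_ne_zero hm⟩) = 0 := by
        unfold fip
        simp [Matrix.trace]
      linarith
    refine ⟨1, one_pos, 2, by norm_num, ?_⟩
    intro lam hlam ψ hψ
    have h1 : A.Del ψ = ψ := by
      unfold Del
      have : IsEmpty (Fin A.m) := by rw [hm]; infer_instance
      simp
    have h2 : A.Del ψ = (lam : ℂ) • ψ := hψ
    rw [h1] at h2
    have h3 : ((1 : ℂ) - (lam : ℂ)) • ψ = 0 := by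
      rw [sub_smul, one_smul, ← h2, sub_self]
    have h4 : ψ = 0 := by
      rcases smul_eq_zero.1 h3 with h | h
      · exfalso
        have : (lam : ℂ) = 1 := by linear_combination -h
        have : lam = 1 := by exact_mod_cast this
        linarith
      · exact h
    rw [h4]
    simp
  by_contra hcon
  push Not at hcon
  have hseq : ∀ k : ℕ, ∃ (l : ℝ) (ψ : V), (k : ℝ) + 1 ≤ l ∧ ψ ∈ A.eig l ∧ ‖ψ‖ = 1 ∧
      ∑ b, ‖A.Del (A.D (A.P b) ψ) - (l : ℂ) • A.D (A.P b) ψ‖ ^ 2 < l ^ 2 / ((k : ℝ) + 1) := by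
    intro k
    obtain ⟨l, hl, ψ, hψ, h⟩ := hcon (1 / ((k : ℝ) + 1)) (by positivity) ((k : ℝ) + 1) (by
      have : (0 : ℝ) ≤ k := Nat.cast_nonneg k
      linarith)
    have hne : ‖ψ‖ ≠ 0 := by
      intro h0
      rw [h0] at h
      have : 0 ≤ ∑ b, ‖A.Del (A.D (A.P b) ψ) - (l : ℂ) • A.D (A.P b) ψ‖ ^ 2 := by positivity
      have h2 : 1 / ((k : ℝ) + 1) * l ^ 2 * 0 ^ 2 = 0 := by ring
      rw [h2] at h
      linarith
    refine ⟨l, (((‖ψ‖)⁻¹ : ℝ) : ℂ) • ψ, hl, Submodule.smul_mem _ _ hψ, ?_, ?_⟩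
    · rw [norm_smul, Complex.norm_real, Real.norm_of_nonneg (by positivity)]
      field_simp
    · have e : ∀ b, ‖A.Del (A.D (A.P b) ((((‖ψ‖)⁻¹ : ℝ) : ℂ) • ψ))
          - (l : ℂ) • A.D (A.P b) ((((‖ψ‖)⁻¹ : ℝ) : ℂ) • ψ)‖ ^ 2
          = (‖ψ‖ ^ 2)⁻¹ * ‖A.Del (A.D (A.P b) ψ) - (l : ℂ) • A.D (A.P b) ψ‖ ^ 2 := by
        intro b
        rw [map_smul, map_smul, smul_comm (l : ℂ), ← smul_sub, norm_smul, Complex.norm_real,
          Real.norm_of_nonneg (by positivity), mul_pow, inv_pow]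
      rw [Finset.sum_congr rfl fun b _ => e b, ← Finset.mul_sum]
      have hp : 0 < ‖ψ‖ ^ 2 := by positivity
      rw [inv_mul_lt_iff₀ hp]
      calc _ < _ := h
        _ = ‖ψ‖ ^ 2 * (l ^ 2 / ((k : ℝ) + 1)) := by ring
  choose L ψ hLk hψ hn hQ using hseq
  have hL : ∀ k, 1 ≤ L k := by
    intro k
    have := hLk k
    have : (0 : ℝ) ≤ k := Nat.cast_nonneg k
    linarith
  have := A.A11_two L hL
  let _ : Algebra ℚ (A.A11_R L hL) :=
    Algebra.compHom (A.A11_R L hL) (algebraMap ℚ ℂ)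
  have hcomm : ∀ i j k l, A.A11_M hA L hL i j * A.A11_M hA L hL k l
      - A.A11_M hA L hL k l * A.A11_M hA L hL i j ∈ A.A11_I L hL := by
    intro i j k l M hM
    have hWm : A.W i j * A.W k l - A.W k l * A.W i j ∈ A.𝔤 :=
      A.br _ (A.A11_W_mem i j) _ (A.A11_W_mem k l)
    obtain ⟨C, hC, h⟩ := A.A11_D_small hA L hL _ hWm M hM
    refine ⟨C, hC, ?_⟩
    intro t φ hφ
    have h1 := h t φ hφ
    rw [A.brD _ (A.A11_W_mem i j) _ (A.A11_W_mem k l), ← A11_sq (L t) (hL t)] at h1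
    have e : ((A.A11_M hA L hL i j * A.A11_M hA L hL k l
        - A.A11_M hA L hL k l * A.A11_M hA L hL i j : A.A11_R L hL) : ℕ → Module.End ℂ V) t φ
        = (((Real.sqrt (L t))⁻¹ : ℝ) : ℂ) • A.D (A.W i j)
            ((((Real.sqrt (L t))⁻¹ : ℝ) : ℂ) • A.D (A.W k l) φ)
          - (((Real.sqrt (L t))⁻¹ : ℝ) : ℂ) • A.D (A.W k l)
            ((((Real.sqrt (L t))⁻¹ : ℝ) : ℂ) • A.D (A.W i j) φ) := rfl
    rw [e, map_smul, map_smul, smul_smul, smul_smul, ← smul_sub]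
    exact h1
  have htr : ∀ j, 1 ≤ j → j ≤ N → (A.A11_M hA L hL ^ j).trace ∈ A.A11_I L hL := by
    intro j hj _ M hM
    obtain ⟨z, hz⟩ := hA.tr j hj
    refine ⟨‖z‖ + 1, by linarith [norm_nonneg z], ?_⟩
    intro t φ hφ
    have e1 : A.A11_ev L hL t ((A.A11_M hA L hL ^ j).trace)
        = ((((Real.sqrt (L t))⁻¹ : ℝ) : ℂ) ^ j * z) • (1 : Module.End ℂ V) := by
      rw [AddMonoidHom.map_trace]
      have e2 : (A.A11_M hA L hL ^ j).map (A.A11_ev L hL t)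
          = (A.A11_ev L hL t).mapMatrix (A.A11_M hA L hL ^ j) := rfl
      rw [e2, map_pow, A11_map_M, smul_pow, Matrix.trace_smul, hz, smul_smul]
    have e3 : ((A.A11_M hA L hL ^ j).trace : ℕ → Module.End ℂ V) t φ
        = ((((Real.sqrt (L t))⁻¹ : ℝ) : ℂ) ^ j * z) • φ := by
      rw [← A11_ev_apply, e1]
      rfl
    rw [e3, norm_smul, norm_mul, norm_pow, Complex.norm_real,
      Real.norm_of_nonneg (by positivity)]
    have hs : 1 ≤ Real.sqrt (L t) := by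
      rw [show (1:ℝ) = Real.sqrt 1 by simp]
      exact Real.sqrt_le_sqrt (hL t)
    have hs1 : (Real.sqrt (L t))⁻¹ ≤ 1 := inv_le_one_of_one_le₀ hs
    have hs2 : ((Real.sqrt (L t))⁻¹) ^ j ≤ (Real.sqrt (L t))⁻¹ := by
      calc ((Real.sqrt (L t))⁻¹) ^ j ≤ ((Real.sqrt (L t))⁻¹) ^ 1 :=
            pow_le_pow_of_le_one (by positivity) hs1 hj
        _ = _ := pow_one _
    calc ((Real.sqrt (L t))⁻¹) ^ j * ‖z‖ * ‖φ‖ ≤ (Real.sqrt (L t))⁻¹ * (‖z‖ + 1) * ‖φ‖ := by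
          gcongr
          linarith
      _ = (‖z‖ + 1) / Real.sqrt (L t) * ‖φ‖ := by ring
  have hnorm : ∀ i j, (A.A11_M hA L hL * (A.A11_M hA L hL).transpose
      - (A.A11_M hA L hL).transpose * A.A11_M hA L hL) i j ∈ A.A11_J L hL ψ hψ := by
    intro i j
    obtain ⟨Y, hY, hcX⟩ := A.comm_X
    rw [A11_mem_J]
    obtain ⟨C, hC, hD⟩ := A.A11_D_small hA L hL (Y i j) (hY i j) 1 (le_refl 1)
    have key : ∀ t, ((A.A11_M hA L hL * (A.A11_M hA L hL).transpose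
      - (A.A11_M hA L hL).transpose * A.A11_M hA L hL) i j : ℕ → Module.End ℂ V) t (ψ t)
        = (((L t)⁻¹ : ℝ) : ℂ) • (((A.X * A.X.transpose - A.X.transpose * A.X) i j) (ψ t)) := by
      intro t
      rw [← A11_ev_apply]
      have e1 : A.A11_ev L hL t ((A.A11_M hA L hL * (A.A11_M hA L hL).transpose
          - (A.A11_M hA L hL).transpose * A.A11_M hA L hL) i j)
          = ((A.A11_ev L hL t).mapMatrix (A.A11_M hA L hL * (A.A11_M hA L hL).transpose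
          - (A.A11_M hA L hL).transpose * A.A11_M hA L hL)) i j := rfl
      rw [e1, map_sub, map_mul, map_mul, A11_map_M, A11_map_Mt, Matrix.smul_mul,
        Matrix.mul_smul, smul_smul, Matrix.smul_mul, Matrix.mul_smul, smul_smul, ← smul_sub,
        A11_sq _ (hL t)]
      rfl
    have hb : ∀ t, ‖((A.A11_M hA L hL * (A.A11_M hA L hL).transpose
      - (A.A11_M hA L hL).transpose * A.A11_M hA L hL) i j : ℕ → Module.End ℂ V) t (ψ t)‖
        ≤ (∑ c, |A.P c i j|) * Real.sqrt (1 / ((t : ℝ) + 1)) + C / Real.sqrt (L t) := by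
      intro t
      rw [key t, hcX i j (ψ t), smul_add]
      have hLt := hL t
      refine (norm_add_le _ _).trans (add_le_add ?_ ?_)
      · rw [norm_smul, norm_neg, Complex.norm_real, Real.norm_of_nonneg (by positivity)]
        have h1 : ‖∑ c, ((A.P c i j : ℝ) : ℂ) • (A.Del (A.D (A.P c) (ψ t))
            - A.D (A.P c) (A.Del (ψ t)))‖ ≤ ∑ c, |A.P c i j| * (L t * Real.sqrt (1 / ((t : ℝ) + 1))) := by
          refine (norm_sum_le _ _).trans (Finset.sum_le_sum fun c _ => ?_)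
          rw [norm_smul, Complex.norm_real, Real.norm_eq_abs]
          refine mul_le_mul_of_nonneg_left ?_ (abs_nonneg _)
          have h2 : A.Del (ψ t) = ((L t : ℝ) : ℂ) • ψ t := hψ t
          rw [h2, map_smul]
          have h3 : ‖A.Del (A.D (A.P c) (ψ t)) - ((L t : ℝ) : ℂ) • A.D (A.P c) (ψ t)‖ ^ 2
              ≤ (L t) ^ 2 / ((t : ℝ) + 1) := by
            refine le_trans ?_ (hQ t).le
            exact Finset.single_le_sum (f := fun b =>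
              ‖A.Del (A.D (A.P b) (ψ t)) - ((L t : ℝ) : ℂ) • A.D (A.P b) (ψ t)‖ ^ 2)
              (fun b _ => by positivity) (Finset.mem_univ c)
          refine (sq_le_sq₀ (norm_nonneg _) (by positivity)).1 ?_
          rw [mul_pow, Real.sq_sqrt (by positivity)]
          calc _ ≤ _ := h3
            _ = _ := by ring
        calc (L t)⁻¹ * ‖∑ c, ((A.P c i j : ℝ) : ℂ) • (A.Del (A.D (A.P c) (ψ t))
            - A.D (A.P c) (A.Del (ψ t)))‖
            ≤ (L t)⁻¹ * ∑ c, |A.P c i j| * (L t * Real.sqrt (1 / ((t : ℝ) + 1))) := by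
              gcongr
          _ = (∑ c, |A.P c i j|) * Real.sqrt (1 / ((t : ℝ) + 1)) := by
              rw [← Finset.sum_mul]
              field_simp
      · have h4 : ψ t ∈ A.low (1 * L t) := A.eig_le_low (by linarith) (hψ t)
        have h5 := hD t _ h4
        rw [hn t, mul_one] at h5
        exact h5
    have hlim : Tendsto (fun t : ℕ => (∑ c, |A.P c i j|) * Real.sqrt (1 / ((t : ℝ) + 1))
        + C / Real.sqrt (L t)) atTop (𝓝 0) := by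
      have h1 : Tendsto (fun t : ℕ => Real.sqrt (1 / ((t : ℝ) + 1))) atTop (𝓝 0) := by
        have h0 : Tendsto (fun t : ℕ => Real.sqrt (1 / ((t : ℝ) + 1))) atTop (𝓝 (Real.sqrt 0)) :=
          (Real.continuous_sqrt.tendsto 0).comp tendsto_one_div_add_atTop_nhds_zero_nat
        rwa [Real.sqrt_zero] at h0
      have h2 := (h1.const_mul (∑ c, |A.P c i j|)).add (A11_sqrt_tend L hLk C)
      simpa using h2
    exact squeeze_zero (fun k => norm_nonneg _) hb hlim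
  have hfin := SBD.nc_nilpotent (A.A11_I L hL) (A.A11_J L hL ψ hψ)
    (A.A11_I_le L hL hLk ψ hψ hn) (A.A11_M hA L hL) hcomm htr hnorm
  -- the contradiction
  have hsum : Tendsto (fun t => ∑ i : Fin N,
      ‖((((A.A11_M hA L hL).transpose * A.A11_M hA L hL) ^ N) i i : ℕ → Module.End ℂ V) t (ψ t)‖)
      atTop (𝓝 0) := by
    have : Tendsto (fun t => ∑ i : Fin N,
      ‖((((A.A11_M hA L hL).transpose * A.A11_M hA L hL) ^ N) i i : ℕ → Module.End ℂ V) t (ψ t)‖)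
      atTop (𝓝 (∑ i : Fin N, (0:ℝ))) := by
      refine tendsto_finsetSum _ fun i _ => ?_
      exact (A11_mem_J A L hL ψ hψ _).1 (hfin i i)
    simpa using this
  have hNr : (0 : ℝ) < N := by exact_mod_cast hN
  have hlow : ∀ t : ℕ, 1 ≤ t → (1 / (2 * (N : ℝ))) ^ N ≤ ∑ i : Fin N,
      ‖((((A.A11_M hA L hL).transpose * A.A11_M hA L hL) ^ N) i i : ℕ → Module.End ℂ V) t (ψ t)‖ := by
    intro t ht
    obtain ⟨i, hi⟩ := A.pos_X hN N hN (ψ t)
    have hLt : (2 : ℝ) ≤ L t := by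
      have h1 := hLk t
      have h2 : (1 : ℝ) ≤ t := by exact_mod_cast ht
      linarith
    refine le_trans ?_ (Finset.single_le_sum (f := fun i : Fin N =>
      ‖((((A.A11_M hA L hL).transpose * A.A11_M hA L hL) ^ N) i i : ℕ → Module.End ℂ V) t (ψ t)‖)
      (fun b _ => norm_nonneg _) (Finset.mem_univ i))
    have key : ((((A.A11_M hA L hL).transpose * A.A11_M hA L hL) ^ N) i i :
        ℕ → Module.End ℂ V) t (ψ t)
        = (((L t)⁻¹ : ℝ) : ℂ) ^ N • (((A.X.transpose * A.X) ^ N) i i (ψ t)) := by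
      rw [← A11_ev_apply]
      have e1 : A.A11_ev L hL t ((((A.A11_M hA L hL).transpose * A.A11_M hA L hL) ^ N) i i)
          = ((A.A11_ev L hL t).mapMatrix (((A.A11_M hA L hL).transpose * A.A11_M hA L hL) ^ N))
            i i := rfl
      rw [e1, map_pow, map_mul, A11_map_M, A11_map_Mt, Matrix.smul_mul,
        Matrix.mul_smul, smul_smul, A11_sq _ (hL t), smul_pow]
      rfl
    rw [key, norm_smul, norm_pow, Complex.norm_real, Real.norm_of_nonneg (by positivity)]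
    rw [hn t] at hi
    have e2 : (-(A.X.transpose * A.X)) ^ N = ((-1 : ℂ) ^ N) • ((A.X.transpose * A.X) ^ N) := by
      rw [← neg_one_smul ℂ (A.X.transpose * A.X), smul_pow]
    have e3 : (inner ℂ (((-(A.X.transpose * A.X)) ^ N) i i (ψ t)) (ψ t)).re
        ≤ ‖((A.X.transpose * A.X) ^ N) i i (ψ t)‖ := by
      rw [e2]
      have e4 : (((-1 : ℂ) ^ N) • ((A.X.transpose * A.X) ^ N)) i i (ψ t)
          = ((-1 : ℂ) ^ N) • (((A.X.transpose * A.X) ^ N) i i (ψ t)) := rfl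
      rw [e4]
      refine (Complex.re_le_norm _).trans ((norm_inner_le_norm _ _).trans ?_)
      rw [hn t, mul_one, norm_smul, norm_pow, norm_neg, norm_one, one_pow, one_mul]
    have e5 := A.re_inner_Del (ψ t)
    have e6 : A.Del (ψ t) = ((L t : ℝ) : ℂ) • ψ t := hψ t
    rw [e6, inner_smul_left, inner_self_eq_norm_sq_to_K, hn t] at e5
    have e7 : L t = 1 + ∑ a, ‖A.D (A.Z a) (ψ t)‖ ^ 2 := by
      simpa using e5
    have e8 : (L t - 1) ≤ ∑ a, ‖A.D (A.Z a) (ψ t)‖ ^ 2 + ∑ b, ‖A.D (A.P b) (ψ t)‖ ^ 2 := by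
      have : 0 ≤ ∑ b, ‖A.D (A.P b) (ψ t)‖ ^ 2 := by positivity
      linarith
    have e9 : ((L t - 1) / N) ^ N ≤ ‖((A.X.transpose * A.X) ^ N) i i (ψ t)‖ := by
      calc ((L t - 1) / N) ^ N
          ≤ ((∑ a, ‖A.D (A.Z a) (ψ t)‖ ^ 2 + ∑ b, ‖A.D (A.P b) (ψ t)‖ ^ 2) / N) ^ N := by
            have : 0 ≤ (L t - 1) := by linarith
            gcongr
        _ ≤ _ := hi
        _ = (inner ℂ (((-(A.X.transpose * A.X)) ^ N) i i (ψ t)) (ψ t)).re := by simp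
        _ ≤ _ := e3
    calc (1 / (2 * (N : ℝ))) ^ N ≤ ((L t)⁻¹ * ((L t - 1) / N)) ^ N := by
          gcongr
          rw [div_le_iff₀ (by positivity)]
          have : (L t)⁻¹ * ((L t - 1) / N) * (2 * N) = 2 * (1 - (L t)⁻¹) := by
            field_simp
          rw [this]
          have : (L t)⁻¹ ≤ 2⁻¹ := inv_anti₀ (by norm_num) hLt
          linarith
      _ = ((L t)⁻¹) ^ N * ((L t - 1) / N) ^ N := mul_pow _ _ _
      _ ≤ ((L t)⁻¹) ^ N * ‖((A.X.transpose * A.X) ^ N) i i (ψ t)‖ := by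
          gcongr
  have hpos : (0 : ℝ) < (1 / (2 * (N : ℝ))) ^ N := by positivity
  have h1 := (hsum.eventually (gt_mem_nhds hpos)).and (eventually_ge_atTop 1)
  obtain ⟨t, ht1, ht2⟩ := h1.exists
  exact absurd (hlow t ht2) (not_le.2 ht1)

end LieRep

end SBD
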