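import Pool.Agent.SBD.A05

/-!
# Row SBD-A12 : the first moment bound

`|∑_b Re⟨ΔD(P_b)ψ - lam D(P_b)ψ, D(P_b)ψ⟩| ≤ C lam ‖ψ‖²` for `ψ ∈ V_lam`.

PROOF.  Let `Q_b v := Δ D(P_b) v - D(P_b) Δ v`.  By A04 (`sum_P_sq`) `∑_b D(P_b)² = ∑_a D(Z_a)² + z
= (z+1) - Δ`, which commutes with `Δ`; so `∑_b (Q_b D(P_b) + D(P_b) Q_b) = 0` and
`2 ∑_b D(P_b) Q_b = ∑_b (D(P_b)Q_b - Q_bD(P_b))`.  For `ψ ∈ V_lam`: `ΔD(P_b)ψ - lam D(P_b)ψ = Q_bψ`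
and `⟨Q_bψ, D(P_b)ψ⟩ = -⟨D(P_b)Q_bψ,ψ⟩` (skew).  So the first moment is
`-½ ∑_b Re⟨(D(P_b)Q_b - Q_bD(P_b))ψ,ψ⟩`.  With `c_a X = Z_a X - X Z_a`,
`Q_b = -∑_a (2 D(c_a P_b) D(Z_a) + D(c_a c_a P_b))` (see A06), and by `brD`
`[D(P), D(Y)D(Z)] = D([P,Y])D(Z) + D(Y)D([P,Z])`: so `(D(P_b)Q_b - Q_bD(P_b))ψ` is a fixed finite
combination of words of length ≤ 2 applied to `ψ`, each of norm `≤ C lam‖ψ‖` by `words` (A05, with
`R = lam ≥ 1`; for `lam < 1`, `ψ = 0`).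
-/

open scoped Matrix

noncomputable section

namespace SBD

namespace LieRep

variable {N : ℕ} {V : Type} [NormedAddCommGroup V] [InnerProductSpace ℂ V] (A : LieRep N V)

/-- words of length two applied to an eigenvector -/
theorem w2 (hA : A.IsAdm) {X Y : Mat N} (hX : X ∈ A.𝔤) (hY : Y ∈ A.𝔤) :
    ∃ C : ℝ, 0 ≤ C ∧ ∀ lam : ℝ, ∀ ψ ∈ A.eig lam, ‖A.D X (A.D Y ψ)‖ ≤ C * (lam * ‖ψ‖) := by
  obtain ⟨C, hC, h⟩ := A.words hA 2 (max (fsq X) (fsq Y))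
  refine ⟨C, by linarith, fun lam ψ hψ => ?_⟩
  by_cases h0 : ψ = 0
  · simp [h0]
  have hl := A.eig_ge hψ h0
  have h1 := (h [X, Y] rfl (by
    intro W hW
    simp only [List.mem_cons, List.not_mem_nil, or_false] at hW
    rcases hW with rfl | rfl
    · exact ⟨hX, le_max_left _ _⟩
    · exact ⟨hY, le_max_right _ _⟩) lam hl ψ (A.eig_le_low le_rfl hψ)).2
  simp only [List.foldr_cons, List.foldr_nil] at h1
  rw [Real.sq_sqrt (by linarith)] at h1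
  linarith [h1]

/-- words of length one applied to an eigenvector -/
theorem w1 (hA : A.IsAdm) {X : Mat N} (hX : X ∈ A.𝔤) :
    ∃ C : ℝ, 0 ≤ C ∧ ∀ lam : ℝ, ∀ ψ ∈ A.eig lam, ‖A.D X ψ‖ ≤ C * (lam * ‖ψ‖) := by
  obtain ⟨C, hC, h⟩ := A.words hA 1 (fsq X)
  refine ⟨C, by linarith, fun lam ψ hψ => ?_⟩
  by_cases h0 : ψ = 0
  · simp [h0]
  have hl := A.eig_ge hψ h0
  have h1 := (h [X] rfl (by
    intro W hW
    simp only [List.mem_cons, List.not_mem_nil, or_false] at hW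
    rw [hW]
    exact ⟨hX, le_rfl⟩) lam hl ψ (A.eig_le_low le_rfl hψ)).2
  simp only [List.foldr_cons, List.foldr_nil, pow_one] at h1
  have h2 : Real.sqrt lam ≤ lam := by
    rw [Real.sqrt_le_left (by linarith)]
    nlinarith
  have h3 : C * Real.sqrt lam * ‖ψ‖ ≤ C * lam * ‖ψ‖ := by
    gcongr
  linarith [h1, h3]

/-- `[D(X), D(Y)] = D([X,Y])` -/
theorem DD {X Y : Mat N} (hX : X ∈ A.𝔤) (hY : Y ∈ A.𝔤) (v : V) :
    A.D X (A.D Y v) = A.D Y (A.D X v) + A.D (X * Y - Y * X) v := by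
  rw [A.brD X hX Y hY v]
  abel

/-- the formula for `[Δ, D(X)]` -/
theorem Q_eq {X : Mat N} (hX : X ∈ A.𝔤) (v : V) :
    A.Del (A.D X v) - A.D X (A.Del v) =
      -∑ a, ((2 : ℂ) • A.D (A.Z a * X - X * A.Z a) (A.D (A.Z a) v) +
        A.D (A.Z a * (A.Z a * X - X * A.Z a) - (A.Z a * X - X * A.Z a) * A.Z a) v) := by
  have h1 : ∀ w : V, A.Del w = w - ∑ i, A.D (A.Z i) (A.D (A.Z i) w) := by
    intro w
    simp [Del, LinearMap.sum_apply]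
  rw [h1, h1, map_sub, map_sum]
  have h2 : ∀ a, A.D (A.Z a) (A.D (A.Z a) (A.D X v)) =
      A.D X (A.D (A.Z a) (A.D (A.Z a) v)) +
      ((2 : ℂ) • A.D (A.Z a * X - X * A.Z a) (A.D (A.Z a) v) +
        A.D (A.Z a * (A.Z a * X - X * A.Z a) - (A.Z a * X - X * A.Z a) * A.Z a) v) := by
    intro a
    have hc : A.Z a * X - X * A.Z a ∈ A.𝔤 := A.br _ (A.Z_mem a) _ hX
    rw [A.DD (A.Z_mem a) hX v, map_add, A.DD (A.Z_mem a) hX (A.D (A.Z a) v),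
      A.DD (A.Z_mem a) hc v, two_smul]
    abel
  rw [Finset.sum_congr rfl (fun a _ => h2 a), Finset.sum_add_distrib]
  abel

/-- the double commutator bound for one `b` -/
theorem dbl (hA : A.IsAdm) {P : Mat N} (hP : P ∈ A.𝔤) :
    ∃ C : ℝ, 0 ≤ C ∧ ∀ lam : ℝ, ∀ ψ ∈ A.eig lam,
      ‖A.D P (A.Del (A.D P ψ) - A.D P (A.Del ψ)) -
        (A.Del (A.D P (A.D P ψ)) - A.D P (A.Del (A.D P ψ)))‖ ≤ C * (lam * ‖ψ‖) := by
  have hc : ∀ a, A.Z a * P - P * A.Z a ∈ A.𝔤 := fun a => A.br _ (A.Z_mem a) _ hP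
  have hcc : ∀ a, A.Z a * (A.Z a * P - P * A.Z a) - (A.Z a * P - P * A.Z a) * A.Z a ∈ A.𝔤 :=
    fun a => A.br _ (A.Z_mem a) _ (hc a)
  have e1 : ∀ a, ∃ C : ℝ, 0 ≤ C ∧ ∀ lam : ℝ, ∀ ψ ∈ A.eig lam,
      ‖A.D (P * (A.Z a * P - P * A.Z a) - (A.Z a * P - P * A.Z a) * P) (A.D (A.Z a) ψ)‖ ≤
        C * (lam * ‖ψ‖) := fun a => A.w2 hA (A.br _ hP _ (hc a)) (A.Z_mem a)
  have e2 : ∀ a, ∃ C : ℝ, 0 ≤ C ∧ ∀ lam : ℝ, ∀ ψ ∈ A.eig lam,
      ‖A.D (A.Z a * P - P * A.Z a) (A.D (P * A.Z a - A.Z a * P) ψ)‖ ≤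
        C * (lam * ‖ψ‖) := fun a => A.w2 hA (hc a) (A.br _ hP _ (A.Z_mem a))
  have e3 : ∀ a, ∃ C : ℝ, 0 ≤ C ∧ ∀ lam : ℝ, ∀ ψ ∈ A.eig lam,
      ‖A.D (P * (A.Z a * (A.Z a * P - P * A.Z a) - (A.Z a * P - P * A.Z a) * A.Z a) -
        (A.Z a * (A.Z a * P - P * A.Z a) - (A.Z a * P - P * A.Z a) * A.Z a) * P) ψ‖ ≤
        C * (lam * ‖ψ‖) := fun a => A.w1 hA (A.br _ hP _ (hcc a))
  choose C1 h1 h1' using e1
  choose C2 h2 h2' using e2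
  choose C3 h3 h3' using e3
  refine ⟨∑ a, (2 * C1 a + 2 * C2 a + C3 a), Finset.sum_nonneg (fun a _ => by
    have := h1 a; have := h2 a; have := h3 a; positivity), fun lam ψ hψ => ?_⟩
  rw [A.Q_eq hP ψ, A.Q_eq hP (A.D P ψ), map_neg, map_sum]
  have h4 : ∀ a, A.D P ((2 : ℂ) • A.D (A.Z a * P - P * A.Z a) (A.D (A.Z a) ψ) +
        A.D (A.Z a * (A.Z a * P - P * A.Z a) - (A.Z a * P - P * A.Z a) * A.Z a) ψ) =
      ((2 : ℂ) • A.D (A.Z a * P - P * A.Z a) (A.D (A.Z a) (A.D P ψ)) +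
        A.D (A.Z a * (A.Z a * P - P * A.Z a) - (A.Z a * P - P * A.Z a) * A.Z a) (A.D P ψ)) +
      ((2 : ℂ) • A.D (P * (A.Z a * P - P * A.Z a) - (A.Z a * P - P * A.Z a) * P)
          (A.D (A.Z a) ψ) +
       (2 : ℂ) • A.D (A.Z a * P - P * A.Z a) (A.D (P * A.Z a - A.Z a * P) ψ) +
       A.D (P * (A.Z a * (A.Z a * P - P * A.Z a) - (A.Z a * P - P * A.Z a) * A.Z a) -
        (A.Z a * (A.Z a * P - P * A.Z a) - (A.Z a * P - P * A.Z a) * A.Z a) * P) ψ) := by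
    intro a
    rw [map_add, map_smul, A.DD hP (hc a) (A.D (A.Z a) ψ), A.DD hP (A.Z_mem a) ψ,
      A.DD hP (hcc a) ψ, map_add]
    simp only [smul_add]
    abel
  rw [Finset.sum_congr rfl (fun a _ => h4 a), Finset.sum_add_distrib]
  have h5 : ∀ S T : V, -(S + T) - -S = -T := fun S T => by abel
  rw [h5, norm_neg, Finset.sum_mul]
  refine (norm_sum_le _ _).trans (Finset.sum_le_sum fun a _ => ?_)
  have i1 := h1' a lam ψ hψ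
  have i2 := h2' a lam ψ hψ
  have i3 := h3' a lam ψ hψ
  refine (norm_add_le _ _).trans ?_
  refine (add_le_add_left (norm_add_le _ _) _).trans ?_
  rw [norm_smul, norm_smul, Complex.norm_ofNat]
  nlinarith [i1, i2, i3]

theorem first_moment (hA : A.IsAdm) : ∃ C : ℝ, 0 ≤ C ∧ ∀ lam : ℝ, ∀ ψ ∈ A.eig lam,
    |∑ b, (inner ℂ (A.Del (A.D (A.P b) ψ) - (lam : ℂ) • A.D (A.P b) ψ) (A.D (A.P b) ψ)).re| ≤
      C * lam * ‖ψ‖ ^ 2 := by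
  have e1 : ∀ b, ∃ C : ℝ, 0 ≤ C ∧ ∀ lam : ℝ, ∀ ψ ∈ A.eig lam,
      ‖A.D (A.P b) (A.Del (A.D (A.P b) ψ) - A.D (A.P b) (A.Del ψ)) -
        (A.Del (A.D (A.P b) (A.D (A.P b) ψ)) - A.D (A.P b) (A.Del (A.D (A.P b) ψ)))‖ ≤
          C * (lam * ‖ψ‖) := fun b => A.dbl hA (A.P_mem b)
  choose C1 h1 h1' using e1
  obtain ⟨z, hz⟩ := A.sum_P_sq hA
  refine ⟨∑ b, C1 b, Finset.sum_nonneg (fun b _ => h1 b), fun lam ψ hψ => ?_⟩
  have hψ' : A.Del ψ = (lam : ℂ) • ψ := hψ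
  have hl0 : 0 ≤ lam * ‖ψ‖ := by
    by_cases h0 : ψ = 0
    · simp [h0]
    · have := A.eig_ge hψ h0
      positivity
  -- the first moment as an inner product
  have h2 : ∀ b, (inner ℂ (A.Del (A.D (A.P b) ψ) - (lam : ℂ) • A.D (A.P b) ψ)
      (A.D (A.P b) ψ)).re =
      -(inner ℂ ψ (A.D (A.P b) (A.Del (A.D (A.P b) ψ) - A.D (A.P b) (A.Del ψ)))).re := by
    intro b
    have h3 : A.Del (A.D (A.P b) ψ) - A.D (A.P b) (A.Del ψ) =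
        A.Del (A.D (A.P b) ψ) - (lam : ℂ) • A.D (A.P b) ψ := by
      rw [hψ', map_smul]
    rw [h3]
    have h4 := A.skew (A.P b) (A.P_mem b) ψ
      (A.Del (A.D (A.P b) ψ) - (lam : ℂ) • A.D (A.P b) ψ)
    rw [← inner_conj_symm, h4, Complex.conj_re, Complex.neg_re]
  rw [Finset.sum_congr rfl (fun b _ => h2 b), Finset.sum_neg_distrib, abs_neg]
  -- the symmetric part vanishes
  have hD1 : ∀ w : V, A.Del w = w - ∑ i, A.D (A.Z i) (A.D (A.Z i) w) := by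
    intro w
    simp [Del, LinearMap.sum_apply]
  have hPs : ∀ v : V, ∑ b, A.D (A.P b) (A.D (A.P b) v) = ((z : ℂ) + 1) • v - A.Del v := by
    intro v
    rw [hz, hD1, add_smul, one_smul]
    abel
  have h6 : ∑ b, (A.D (A.P b) (A.Del (A.D (A.P b) ψ) - A.D (A.P b) (A.Del ψ)) +
        (A.Del (A.D (A.P b) (A.D (A.P b) ψ)) - A.D (A.P b) (A.Del (A.D (A.P b) ψ)))) = 0 := by
    have : ∀ b, A.D (A.P b) (A.Del (A.D (A.P b) ψ) - A.D (A.P b) (A.Del ψ)) +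
        (A.Del (A.D (A.P b) (A.D (A.P b) ψ)) - A.D (A.P b) (A.Del (A.D (A.P b) ψ))) =
        A.Del (A.D (A.P b) (A.D (A.P b) ψ)) - A.D (A.P b) (A.D (A.P b) (A.Del ψ)) := by
      intro b
      rw [map_sub]
      abel
    rw [Finset.sum_congr rfl (fun b _ => this b), Finset.sum_sub_distrib, ← map_sum, hPs, hPs,
      map_sub, map_smul]
    abel
  have h7 : (2 : ℂ) • ∑ b, A.D (A.P b) (A.Del (A.D (A.P b) ψ) - A.D (A.P b) (A.Del ψ)) =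
      ∑ b, (A.D (A.P b) (A.Del (A.D (A.P b) ψ) - A.D (A.P b) (A.Del ψ)) -
        (A.Del (A.D (A.P b) (A.D (A.P b) ψ)) - A.D (A.P b) (A.Del (A.D (A.P b) ψ)))) := by
    rw [Finset.sum_add_distrib] at h6
    rw [Finset.sum_sub_distrib, two_smul]
    have := eq_neg_of_add_eq_zero_right h6
    rw [this]
    abel
  have h8 : ‖∑ b, A.D (A.P b) (A.Del (A.D (A.P b) ψ) - A.D (A.P b) (A.Del ψ))‖ ≤
      (∑ b, C1 b) * (lam * ‖ψ‖) := by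
    have h9 : 2 * ‖∑ b, A.D (A.P b) (A.Del (A.D (A.P b) ψ) - A.D (A.P b) (A.Del ψ))‖ ≤
        (∑ b, C1 b) * (lam * ‖ψ‖) := by
      have h10 := congrArg norm h7
      rw [norm_smul, Complex.norm_ofNat] at h10
      rw [h10, Finset.sum_mul]
      exact (norm_sum_le _ _).trans (Finset.sum_le_sum fun b _ => h1' b lam ψ hψ)
    linarith [norm_nonneg (∑ b, A.D (A.P b) (A.Del (A.D (A.P b) ψ) - A.D (A.P b) (A.Del ψ)))]
  rw [← Complex.re_sum, ← inner_sum]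
  refine (Complex.abs_re_le_norm _).trans ((norm_inner_le_norm _ _).trans ?_)
  refine (mul_le_mul_of_nonneg_left h8 (norm_nonneg _)).trans (le_of_eq ?_)
  ring

end LieRep

end SBD
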