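import Pool.Agent.SBD.A11
import Pool.Agent.SBD.A12

/-!
# Row SBD-A13 : some `D(P_b)ψ` has a large component well below `lam`

PROOF.  For `ψ ∈ V_lam`, `ψ ≠ 0`, `‖ψ‖ = 1` (by homogeneity), `lam ≥ 1` large, write by `band` (A03)
`D(P_b)ψ = ∑_{l∈s_b} f_b(l)`, `f_b(l) ∈ V_l`, `|l-lam| ≤ C√lam`.  Put `w_b(l) = ‖f_b(l)‖²`.
 * `ΔD(P_b)ψ - lam D(P_b)ψ = ∑ (l-lam) f_b(l)`, so (orthogonality) A11 says
   `∑_b∑_l (l-lam)² w_b(l) ≥ c₁ lam²`, hence `∑_b∑_l |l-lam| w_b(l) ≥ c₁ lam²/(C√lam) = c₂ lam^{3/2}`.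
 * A12: `|∑_b∑_l (l-lam) w_b(l)| ≤ C₃ lam`.
 * So `N := ∑_b∑_{l<lam} (lam-l) w_b(l) ≥ ½(c₂ lam^{3/2} - C₃ lam) ≥ c₄ lam^{3/2}` with `c₄ = c₂/4`, for
   `lam` large.
 * `∑_b∑_l w_b(l) = ∑_b‖D(P_b)ψ‖² ≤ C₅ lam` (A04, `fsq P_b = 1`, at most `n` terms).
 * With `δ = c₄/(2C₅)` (WLOG `C₅ ≥ 1`): the terms with `lam - δ√lam < l` contribute at most
   `δ√lam·C₅lam = ½c₄lam^{3/2}` to `N`, the others at most `C√lam ∑_b∑_{l ≤ lam-δ√lam} w_b(l)`.  So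
   `∑_b∑_{l≤lam-δ√lam} w_b(l) ≥ (c₄/(2C)) lam`, and some `b` has
   `∑_{l≤lam-δ√lam} w_b(l) ≥ (c₄/(2C n)) lam` (`n = A.n ≥ 1` as the sum is positive).
 * Put `y = ∑_{l∈s_b, l≤lam-δ√lam} f_b(l) ∈ low(lam-δ√lam)`, and `s` = the rest.
-/

open scoped Matrix

noncomputable section

namespace SBD

namespace LieRep

variable {N : ℕ} {V : Type} [NormedAddCommGroup V] [InnerProductSpace ℂ V] (A : LieRep N V)

private theorem beta_inner (lam : ℝ) (s : Finset ℝ) (f : ℝ → V)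
    (hf : ∀ l ∈ s, f l ∈ A.eig l) :
    (inner ℂ (∑ l ∈ s, ((l : ℂ) - (lam : ℂ)) • f l) (∑ l ∈ s, f l)).re =
      ∑ l ∈ s, (l - lam) * ‖f l‖ ^ 2 := by
  rw [sum_inner, Complex.re_sum]
  refine Finset.sum_congr rfl fun l hl => ?_
  rw [inner_sum, Finset.sum_eq_single l]
  · rw [inner_smul_left, inner_self_eq_norm_sq_to_K]
    have : (starRingEnd ℂ) ((l : ℂ) - (lam : ℂ)) = ((l - lam : ℝ) : ℂ) := by
      rw [map_sub, Complex.conj_ofReal, Complex.conj_ofReal]; push_cast; ring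
    rw [this, Complex.re_ofReal_mul]
    norm_cast
  · intro k hk hkl
    rw [inner_smul_left, A.eig_orth (Ne.symm hkl) (hf l hl) (hf k hk), mul_zero]
  · intro h; exact absurd hl h

private theorem beta_Del (lam : ℝ) (s : Finset ℝ) (f : ℝ → V)
    (hf : ∀ l ∈ s, f l ∈ A.eig l) :
    A.Del (∑ l ∈ s, f l) - (lam : ℂ) • (∑ l ∈ s, f l) =
      ∑ l ∈ s, ((l : ℂ) - (lam : ℂ)) • f l := by
  rw [map_sum, Finset.smul_sum, ← Finset.sum_sub_distrib]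
  refine Finset.sum_congr rfl fun l hl => ?_
  have h : A.Del (f l) = (l : ℂ) • f l := hf l hl
  rw [h, sub_smul]

private theorem beta_sq (lam : ℝ) (s : Finset ℝ) (f : ℝ → V)
    (hf : ∀ l ∈ s, f l ∈ A.eig l) :
    ‖∑ l ∈ s, ((l : ℂ) - (lam : ℂ)) • f l‖ ^ 2 = ∑ l ∈ s, (l - lam) ^ 2 * ‖f l‖ ^ 2 := by
  rw [A.norm_sq_sum s (fun l => ((l : ℂ) - (lam : ℂ)) • f l)
    (fun l hl => (A.eig l).smul_mem _ (hf l hl))]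
  refine Finset.sum_congr rfl fun l hl => ?_
  have : ‖(l : ℂ) - (lam : ℂ)‖ = |l - lam| := by
    rw [← Complex.ofReal_sub, Complex.norm_real, Real.norm_eq_abs]
  rw [norm_smul, this, mul_pow, sq_abs]

theorem beta (hA : A.IsAdm) : ∃ c : ℝ, 0 < c ∧ ∃ δ : ℝ, 0 < δ ∧ ∃ lam0 : ℝ, 1 ≤ lam0 ∧
    ∀ lam, lam0 ≤ lam → ∀ ψ ∈ A.eig lam, ψ ≠ 0 → ∃ b : Fin A.n,
      ∃ y ∈ A.low (lam - δ * Real.sqrt lam), ∃ (s : Finset ℝ) (f : ℝ → V),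
        (∀ l ∈ s, lam - δ * Real.sqrt lam < l ∧ f l ∈ A.eig l) ∧
        A.D (A.P b) ψ = y + ∑ l ∈ s, f l ∧ c * Real.sqrt lam * ‖ψ‖ ≤ ‖y‖ := by
  obtain ⟨C1, hC1, hband⟩ := A.band hA
  obtain ⟨c1, hc1, lam1, hlam1, hQ⟩ := A.Q_lower hA
  obtain ⟨C3, hC3, hF⟩ := A.first_moment hA
  obtain ⟨C5, hC5, hN⟩ := A.norm_D_le hA
  have hC1' : 0 < C1 := by linarith
  have hC5' : 0 < C5 := by linarith
  obtain ⟨n, hn⟩ : ∃ n : ℝ, n = (A.n : ℝ) + 1 := ⟨_, rfl⟩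
  have hn1 : 1 ≤ n := by
    have : (0 : ℝ) ≤ (A.n : ℝ) := Nat.cast_nonneg _
    linarith
  have hn0 : 0 < n := by linarith
  obtain ⟨δ, hδd⟩ : ∃ δ : ℝ, δ = c1 / (8 * C1 * n * C5 ^ 2) := ⟨_, rfl⟩
  have hδ : 0 < δ := by rw [hδd]; positivity
  obtain ⟨κ, hκd⟩ : ∃ κ : ℝ, κ = c1 / (4 * C1 ^ 2) := ⟨_, rfl⟩
  have hκ : 0 < κ := by rw [hκd]; positivity
  refine ⟨Real.sqrt (κ / n), by positivity, δ, hδ, max lam1 ((4 * C1 * C3 / c1) ^ 2),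
    hlam1.trans (le_max_left _ _), ?_⟩
  intro lam hlam ψ hψ hψ0
  have hl1 : lam1 ≤ lam := (le_max_left _ _).trans hlam
  have hl2 : (4 * C1 * C3 / c1) ^ 2 ≤ lam := (le_max_right _ _).trans hlam
  have hlam1' : 1 ≤ lam := hlam1.trans hl1
  obtain ⟨r, hr⟩ : ∃ r : ℝ, r = Real.sqrt lam := ⟨_, rfl⟩
  have hr2 : r ^ 2 = lam := by rw [hr]; exact Real.sq_sqrt (by linarith)
  have hr0 : 0 < r := by rw [hr]; exact Real.sqrt_pos.2 (by linarith)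
  have hr3 : 4 * C1 * C3 / c1 ≤ r := by rw [hr]; exact Real.le_sqrt_of_sq_le hl2
  rw [← hr]
  have hψn : 0 < ‖ψ‖ := norm_pos_iff.2 hψ0
  choose s f hsf hsum using fun b : Fin A.n => hband (A.P b) (A.P_mem b) lam ψ hψ
  rw [← hr] at hsf
  have hf : ∀ b, ∀ l ∈ s b, f b l ∈ A.eig l := fun b l hl => (hsf b l hl).2
  -- total mass
  have hW : ∑ b, ∑ l ∈ s b, ‖f b l‖ ^ 2 ≤ n * C5 ^ 2 * r ^ 2 * ‖ψ‖ ^ 2 := by
    have h1 : ∀ b : Fin A.n, ∑ l ∈ s b, ‖f b l‖ ^ 2 ≤ C5 ^ 2 * r ^ 2 * ‖ψ‖ ^ 2 := by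
      intro b
      rw [← A.norm_sq_sum (s b) (f b) (hf b), ← hsum b]
      have h2 := hN (A.P b) (A.P_mem b) lam hlam1' ψ (A.eig_le_low le_rfl hψ)
      have h3 : fsq (A.P b) = 1 := by
        have := A.P_o b b
        simpa [fsq] using this
      rw [h3, Real.sqrt_one, mul_one, ← hr] at h2
      calc ‖A.D (A.P b) ψ‖ ^ 2 ≤ (C5 * r * ‖ψ‖) ^ 2 := pow_le_pow_left₀ (norm_nonneg _) h2 2
        _ = C5 ^ 2 * r ^ 2 * ‖ψ‖ ^ 2 := by ring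
    calc ∑ b, ∑ l ∈ s b, ‖f b l‖ ^ 2 ≤ ∑ _b : Fin A.n, C5 ^ 2 * r ^ 2 * ‖ψ‖ ^ 2 :=
          Finset.sum_le_sum fun b _ => h1 b
      _ = (A.n : ℝ) * (C5 ^ 2 * r ^ 2 * ‖ψ‖ ^ 2) := by simp
      _ ≤ n * (C5 ^ 2 * r ^ 2 * ‖ψ‖ ^ 2) :=
          mul_le_mul_of_nonneg_right (by linarith) (by positivity)
      _ = n * C5 ^ 2 * r ^ 2 * ‖ψ‖ ^ 2 := by ring
  -- second moment
  have hS2 : c1 * r ^ 4 * ‖ψ‖ ^ 2 ≤ ∑ b, ∑ l ∈ s b, (l - lam) ^ 2 * ‖f b l‖ ^ 2 := by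
    have h1 := hQ lam hl1 ψ hψ
    have h2 : ∀ b, ‖A.Del (A.D (A.P b) ψ) - (lam : ℂ) • A.D (A.P b) ψ‖ ^ 2 =
        ∑ l ∈ s b, (l - lam) ^ 2 * ‖f b l‖ ^ 2 := by
      intro b
      rw [hsum b, A.beta_Del lam (s b) (f b) (hf b), A.beta_sq lam (s b) (f b) (hf b)]
    rw [Finset.sum_congr rfl fun b _ => h2 b] at h1
    calc c1 * r ^ 4 * ‖ψ‖ ^ 2 = c1 * lam ^ 2 * ‖ψ‖ ^ 2 := by rw [← hr2]; ring
      _ ≤ _ := h1
  -- first moment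
  have hS1 : |∑ b, ∑ l ∈ s b, (l - lam) * ‖f b l‖ ^ 2| ≤ C3 * r ^ 2 * ‖ψ‖ ^ 2 := by
    have h1 := hF lam ψ hψ
    have h2 : ∀ b, (inner ℂ (A.Del (A.D (A.P b) ψ) - (lam : ℂ) • A.D (A.P b) ψ)
        (A.D (A.P b) ψ)).re = ∑ l ∈ s b, (l - lam) * ‖f b l‖ ^ 2 := by
      intro b
      rw [hsum b, A.beta_Del lam (s b) (f b) (hf b), A.beta_inner lam (s b) (f b) (hf b)]
    rw [Finset.sum_congr rfl fun b _ => h2 b, ← hr2] at h1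
    rw [← hr2]
    exact h1
  -- the pointwise inequality
  have hpt : ∀ b, ∀ l ∈ s b,
      (l - lam) ^ 2 * ‖f b l‖ ^ 2 / (C1 * r) - (l - lam) * ‖f b l‖ ^ 2 ≤
        2 * (δ * r) * ‖f b l‖ ^ 2 +
          2 * (C1 * r) * (if l ≤ lam - δ * r then ‖f b l‖ ^ 2 else 0) := by
    intro b l hl
    have h1 := (hsf b l hl).1
    have h2 := abs_le.1 h1
    have hw : 0 ≤ ‖f b l‖ ^ 2 := by positivity
    have hCr : 0 < C1 * r := by positivity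
    have h3 : (l - lam) ^ 2 / (C1 * r) ≤ |l - lam| := by
      rw [div_le_iff₀ hCr, ← sq_abs, sq]
      exact mul_le_mul_of_nonneg_left h1 (abs_nonneg _)
    have h4 : (l - lam) ^ 2 * ‖f b l‖ ^ 2 / (C1 * r) ≤ |l - lam| * ‖f b l‖ ^ 2 := by
      calc (l - lam) ^ 2 * ‖f b l‖ ^ 2 / (C1 * r) = (l - lam) ^ 2 / (C1 * r) * ‖f b l‖ ^ 2 := by
            ring
        _ ≤ _ := mul_le_mul_of_nonneg_right h3 hw
    split_ifs with h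
    · have h5 : |l - lam| - (l - lam) ≤ 2 * (C1 * r) := by
        rcases abs_cases (l - lam) with ⟨h6, _⟩ | ⟨h6, _⟩ <;> rw [h6] <;> linarith
      have h6 := mul_le_mul_of_nonneg_right h5 hw
      have h7 : 0 ≤ 2 * (δ * r) * ‖f b l‖ ^ 2 := by positivity
      linarith
    · have h5 : |l - lam| - (l - lam) ≤ 2 * (δ * r) := by
        have h8 : 0 < δ * r := by positivity
        push Not at h
        rcases abs_cases (l - lam) with ⟨h6, _⟩ | ⟨h6, _⟩ <;> rw [h6] <;> linarith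
      have h6 := mul_le_mul_of_nonneg_right h5 hw
      linarith
  have hsumpt : (∑ b, ∑ l ∈ s b, (l - lam) ^ 2 * ‖f b l‖ ^ 2) / (C1 * r) -
      ∑ b, ∑ l ∈ s b, (l - lam) * ‖f b l‖ ^ 2 ≤
        2 * (δ * r) * (∑ b, ∑ l ∈ s b, ‖f b l‖ ^ 2) +
          2 * (C1 * r) * ∑ b, ∑ l ∈ s b, (if l ≤ lam - δ * r then ‖f b l‖ ^ 2 else 0) := by
    rw [Finset.sum_div, Finset.mul_sum, Finset.mul_sum, ← Finset.sum_sub_distrib,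
      ← Finset.sum_add_distrib]
    refine Finset.sum_le_sum fun b _ => ?_
    rw [Finset.sum_div, Finset.mul_sum, Finset.mul_sum, ← Finset.sum_sub_distrib,
      ← Finset.sum_add_distrib]
    exact Finset.sum_le_sum fun l hl => hpt b l hl
  obtain ⟨W', hW'⟩ : ∃ W' : ℝ, W' = ∑ b, ∑ l ∈ s b,
    (if l ≤ lam - δ * r then ‖f b l‖ ^ 2 else 0) := ⟨_, rfl⟩
  have hmain : κ * r ^ 2 * ‖ψ‖ ^ 2 ≤ W' := by
    rw [← hW'] at hsumpt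
    have hCr : 0 < C1 * r := by positivity
    have e1 : c1 * r ^ 4 * ‖ψ‖ ^ 2 / (C1 * r) ≤
        (∑ b, ∑ l ∈ s b, (l - lam) ^ 2 * ‖f b l‖ ^ 2) / (C1 * r) :=
      div_le_div_of_nonneg_right hS2 hCr.le
    have e1' : c1 * r ^ 4 * ‖ψ‖ ^ 2 / (C1 * r) = c1 / C1 * r ^ 3 * ‖ψ‖ ^ 2 := by
      field_simp
    have e2 := (abs_le.1 hS1).2
    have e3 : 2 * (δ * r) * (∑ b, ∑ l ∈ s b, ‖f b l‖ ^ 2) ≤
        2 * (δ * r) * (n * C5 ^ 2 * r ^ 2 * ‖ψ‖ ^ 2) :=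
      mul_le_mul_of_nonneg_left hW (by positivity)
    have e3' : 2 * (δ * r) * (n * C5 ^ 2 * r ^ 2 * ‖ψ‖ ^ 2) =
        c1 / C1 / 4 * r ^ 3 * ‖ψ‖ ^ 2 := by
      rw [hδd]; field_simp; ring
    have e4 : C3 * r ^ 2 * ‖ψ‖ ^ 2 ≤ c1 / C1 / 4 * r ^ 3 * ‖ψ‖ ^ 2 := by
      have h5 : C3 ≤ c1 / C1 / 4 * r := by
        have h6 := mul_le_mul_of_nonneg_left hr3 (show 0 ≤ c1 / C1 / 4 by positivity)
        have h7 : c1 / C1 / 4 * (4 * C1 * C3 / c1) = C3 := by field_simp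
        rw [h7] at h6
        exact h6
      have h8 := mul_le_mul_of_nonneg_right h5 (show 0 ≤ r ^ 2 * ‖ψ‖ ^ 2 by positivity)
      calc C3 * r ^ 2 * ‖ψ‖ ^ 2 = C3 * (r ^ 2 * ‖ψ‖ ^ 2) := by ring
        _ ≤ _ := h8
        _ = _ := by ring
    have e5 : c1 / C1 / 2 * r ^ 3 * ‖ψ‖ ^ 2 ≤ 2 * (C1 * r) * W' := by
      have h9 : c1 / C1 * r ^ 3 * ‖ψ‖ ^ 2 = c1 / C1 / 2 * r ^ 3 * ‖ψ‖ ^ 2 +
        c1 / C1 / 4 * r ^ 3 * ‖ψ‖ ^ 2 + c1 / C1 / 4 * r ^ 3 * ‖ψ‖ ^ 2 := by ring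
      linarith
    have e6 : κ * r ^ 2 * ‖ψ‖ ^ 2 * (2 * (C1 * r)) = c1 / C1 / 2 * r ^ 3 * ‖ψ‖ ^ 2 := by
      rw [hκd]; field_simp; ring
    have e7 : κ * r ^ 2 * ‖ψ‖ ^ 2 * (2 * (C1 * r)) ≤ W' * (2 * (C1 * r)) := by
      rw [e6]; linarith
    exact le_of_mul_le_mul_right e7 (by positivity)
  -- choose b
  have hex : ∃ b : Fin A.n, κ / n * r ^ 2 * ‖ψ‖ ^ 2 ≤
      ∑ l ∈ s b, (if l ≤ lam - δ * r then ‖f b l‖ ^ 2 else 0) := by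
    by_contra hcon
    push Not at hcon
    have h1 : W' ≤ ∑ _b : Fin A.n, κ / n * r ^ 2 * ‖ψ‖ ^ 2 := by
      rw [hW']
      exact Finset.sum_le_sum fun b _ => (hcon b).le
    have h2 : ∑ _b : Fin A.n, κ / n * r ^ 2 * ‖ψ‖ ^ 2 =
        (A.n : ℝ) * (κ / n * r ^ 2 * ‖ψ‖ ^ 2) := by simp
    have h3 : (A.n : ℝ) = n - 1 := by rw [hn]; ring
    have h4 : (n - 1) * (κ / n * r ^ 2 * ‖ψ‖ ^ 2) = κ * r ^ 2 * ‖ψ‖ ^ 2 -
        κ / n * r ^ 2 * ‖ψ‖ ^ 2 := by field_simp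
    have h5 : 0 < κ / n * r ^ 2 * ‖ψ‖ ^ 2 := by positivity
    rw [h2, h3, h4] at h1
    linarith
  obtain ⟨b, hb⟩ := hex
  refine ⟨b, ∑ l ∈ (s b).filter (fun l => l ≤ lam - δ * r), f b l, ?_,
    (s b).filter (fun l => ¬ l ≤ lam - δ * r), f b, ?_, ?_, ?_⟩
  · refine Submodule.sum_mem _ fun l hl => ?_
    rw [Finset.mem_filter] at hl
    exact A.eig_le_low hl.2 (hf b l hl.1)
  · intro l hl
    rw [Finset.mem_filter] at hl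
    exact ⟨lt_of_not_ge hl.2, hf b l hl.1⟩
  · rw [hsum b, Finset.sum_filter_add_sum_filter_not]
  · have h1 : ‖∑ l ∈ (s b).filter (fun l => l ≤ lam - δ * r), f b l‖ ^ 2 =
        ∑ l ∈ s b, (if l ≤ lam - δ * r then ‖f b l‖ ^ 2 else 0) := by
      rw [A.norm_sq_sum _ (f b) (fun l hl => hf b l (Finset.mem_filter.1 hl).1),
        Finset.sum_filter]
    rw [← h1] at hb
    have h2 : (Real.sqrt (κ / n) * r * ‖ψ‖) ^ 2 = κ / n * r ^ 2 * ‖ψ‖ ^ 2 := by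
      rw [mul_pow, mul_pow, Real.sq_sqrt (by positivity)]
    rw [← h2] at hb
    exact (sq_le_sq₀ (by positivity) (norm_nonneg _)).1 hb

end LieRep

end SBD
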