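import Pool.Agent.SBD.A02

/-!
# Row SBD-A14 : almost invariant forms; diagonalisation on an eigenspace

* `AlmostInv A ε B` : `B` is a positive definite sesquilinear form (conjugate linear in the first
  variable) with `B(Δu,v) = B(u,Δv)` and `|B(D(P_j)u,v) + B(u,D(P_j)v)| ≤ ε √B(u,u) √B(v,v)`.
* `B_orth` : `lam B(u,v) = B(Δu,v) = B(u,Δv) = lam' B(u,v)`.
* `B_sum` : for `v = ∑_{l∈s} f l`, `f l ∈ V_l`: `Re B(v,v) = ∑ Re B(f l,f l)`.
* `diag` : on the finite-dimensional space `V_lam` (`≤ low lam`) there is a linear map `S` with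
  `B(u,v) = ⟨Su,v⟩` (Riesz / finite-dimensional duality; e.g. pick an orthonormal basis `b` of
  `V_lam` and put `S u = ∑_i conj(B(u,b_i))… b_i`; `⟨∑_i c_i b_i, v⟩ = ∑ conj c_i ⟨b_i,v⟩`, so
  `c_i = conj B(u,b_i) = B(b_i,u)`); `S` is symmetric, so (`LinearMap.IsSymmetric.eigenvectorBasis`)
  there is an orthonormal basis `e_i` of `V_lam` with `S e_i = t_i e_i`, `t_i` real:
  `B(e_i,φ) = t_i ⟨e_i,φ⟩` for `φ ∈ V_lam`.
-/

open scoped Matrix

noncomputable section

namespace SBD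

namespace LieRep

variable {N : ℕ} {V : Type} [NormedAddCommGroup V] [InnerProductSpace ℂ V] (A : LieRep N V)

/-- Almost invariant positive definite forms. -/
structure AlmostInv (ε : ℝ) (B : V → V → ℂ) : Prop where
  add_left : ∀ u u' v, B (u + u') v = B u v + B u' v
  smul_left : ∀ (c : ℂ) u v, B (c • u) v = (starRingEnd ℂ) c * B u v
  add_right : ∀ u v v', B u (v + v') = B u v + B u v'
  smul_right : ∀ (c : ℂ) u v, B u (c • v) = c * B u v
  symm : ∀ u v, B v u = (starRingEnd ℂ) (B u v)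
  pos : ∀ v, v ≠ 0 → 0 < (B v v).re
  del : ∀ u v, B (A.Del u) v = B u (A.Del v)
  alm : ∀ j u v, ‖B (A.D (A.P j) u) v + B u (A.D (A.P j) v)‖ ≤
    ε * Real.sqrt (B u u).re * Real.sqrt (B v v).re

variable {A}

private theorem A14_zero_left {ε : ℝ} {B : V → V → ℂ} (hB : A.AlmostInv ε B) (v : V) :
    B 0 v = 0 := by
  have h := hB.smul_left 0 0 v
  simpa using h

private theorem A14_zero_right {ε : ℝ} {B : V → V → ℂ} (hB : A.AlmostInv ε B) (v : V) :
    B v 0 = 0 := by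
  have h := hB.smul_right 0 v 0
  simpa using h

private theorem A14_sum_left {ι : Type*} {ε : ℝ} {B : V → V → ℂ} (hB : A.AlmostInv ε B)
    (s : Finset ι) (f : ι → V) (v : V) : B (∑ i ∈ s, f i) v = ∑ i ∈ s, B (f i) v := by
  classical
  induction s using Finset.induction_on with
  | empty => simpa using A14_zero_left hB v
  | insert a s ha ih => rw [Finset.sum_insert ha, Finset.sum_insert ha, hB.add_left, ih]

private theorem A14_sum_right {ι : Type*} {ε : ℝ} {B : V → V → ℂ} (hB : A.AlmostInv ε B)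
    (s : Finset ι) (f : ι → V) (v : V) : B v (∑ i ∈ s, f i) = ∑ i ∈ s, B v (f i) := by
  classical
  induction s using Finset.induction_on with
  | empty => simpa using A14_zero_right hB v
  | insert a s ha ih => rw [Finset.sum_insert ha, Finset.sum_insert ha, hB.add_right, ih]

private theorem A14_self {ε : ℝ} {B : V → V → ℂ} (hB : A.AlmostInv ε B) (v : V) :
    B v v = ((B v v).re : ℂ) := by
  have h := hB.symm v v
  exact (Complex.conj_eq_iff_real.1 h.symm).elim fun r hr => by rw [hr]; simp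

private theorem A14_nonneg {ε : ℝ} {B : V → V → ℂ} (hB : A.AlmostInv ε B) (v : V) :
    0 ≤ (B v v).re := by
  by_cases h : v = 0
  · rw [h, A14_zero_left hB]; simp
  · exact (hB.pos v h).le

theorem AlmostInv.orth {ε : ℝ} {B : V → V → ℂ} (hB : A.AlmostInv ε B) {lam lam' : ℝ}
    (hl : lam ≠ lam') {u v : V} (hu : u ∈ A.eig lam) (hv : v ∈ A.eig lam') : B u v = 0 := by
  have h1 : A.Del u = (lam : ℂ) • u := hu
  have h2 : A.Del v = (lam' : ℂ) • v := hv
  have h3 := hB.del u v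
  rw [h1, h2, hB.smul_left, hB.smul_right, Complex.conj_ofReal] at h3
  have h4 : ((lam : ℂ) - lam') * B u v = 0 := by rw [sub_mul, h3, sub_self]
  rcases mul_eq_zero.1 h4 with h5 | h5
  · exact absurd (by exact_mod_cast sub_eq_zero.1 h5) hl
  · exact h5

theorem AlmostInv.cs {ε : ℝ} {B : V → V → ℂ} (hB : A.AlmostInv ε B) (u v : V) :
    ‖B u v‖ ≤ Real.sqrt (B u u).re * Real.sqrt (B v v).re := by
  by_cases hv : v = 0
  · rw [hv, A14_zero_right hB, norm_zero]
    positivity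
  have hp : 0 < (B v v).re := hB.pos v hv
  set p : ℝ := (B v v).re with hpdef
  set q : ℝ := (B u u).re with hqdef
  set z : ℂ := B v u with hz
  have huv : B u v = (starRingEnd ℂ) z := hB.symm v u
  have hvv : B v v = (p : ℂ) := A14_self hB v
  have huu : B u u = (q : ℂ) := A14_self hB u
  have hw := A14_nonneg hB ((p : ℂ) • u + (-z) • v)
  have e : B ((p : ℂ) • u + (-z) • v) ((p : ℂ) • u + (-z) • v)
      = ((p * (p * q - ‖z‖ ^ 2) : ℝ) : ℂ) := by
    rw [hB.add_left, hB.add_right, hB.add_right, hB.smul_left, hB.smul_right, hB.smul_left,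
      hB.smul_right, hB.smul_left, hB.smul_right, hB.smul_left, hB.smul_right, huu, hvv, huv,
      ← hz, Complex.conj_ofReal, map_neg]
    have hzz : (starRingEnd ℂ) z * z = ((‖z‖ ^ 2 : ℝ) : ℂ) := by
      rw [Complex.conj_mul']; push_cast; ring
    push_cast
    push_cast at hzz
    linear_combination (-(p : ℂ)) * hzz
  rw [e, Complex.ofReal_re] at hw
  have h1 : ‖z‖ ^ 2 ≤ p * q := by
    have := nonneg_of_mul_nonneg_right hw hp
    linarith
  have h2 : ‖B u v‖ = ‖z‖ := by rw [huv, RCLike.norm_conj]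
  rw [h2, ← Real.sqrt_mul (A14_nonneg hB u)]
  apply Real.le_sqrt_of_sq_le
  linarith [mul_comm p q]

theorem AlmostInv.sum {ε : ℝ} {B : V → V → ℂ} (hB : A.AlmostInv ε B) (s : Finset ℝ)
    (f : ℝ → V) (hf : ∀ l ∈ s, f l ∈ A.eig l) :
    (B (∑ l ∈ s, f l) (∑ l ∈ s, f l)).re = ∑ l ∈ s, (B (f l) (f l)).re := by
  rw [A14_sum_left hB, Complex.re_sum]
  refine Finset.sum_congr rfl fun l hl => ?_
  rw [A14_sum_right hB, Finset.sum_eq_single l]
  · intro l' hl' hne
    exact hB.orth (Ne.symm hne) (hf l hl) (hf l' hl')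
  · intro h
    exact absurd hl h

private theorem A14_gen {ε : ℝ} {B : V → V → ℂ} (hB : A.AlmostInv ε B) (W : Submodule ℂ V)
    [FiniteDimensional ℂ W] :
    ∃ (d : ℕ) (e : Fin d → V) (t : Fin d → ℝ), Orthonormal ℂ e ∧ (∀ i, e i ∈ W) ∧
      (∀ i, ∀ φ ∈ W, B (e i) φ = (t i : ℂ) * inner ℂ (e i) φ) ∧
      ∀ ψ ∈ W, ψ = ∑ i, inner ℂ (e i) ψ • e i := by
  classical
  let b := stdOrthonormalBasis ℂ W
  let S : W →ₗ[ℂ] W :=
    { toFun := fun u => ∑ i, B (b i : V) (u : V) • b i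
      map_add' := by
        intro x y
        rw [← Finset.sum_add_distrib]
        refine Finset.sum_congr rfl fun i _ => ?_
        rw [Submodule.coe_add, hB.add_right, add_smul]
      map_smul' := by
        intro c x
        rw [RingHom.id_apply, Finset.smul_sum]
        refine Finset.sum_congr rfl fun i _ => ?_
        rw [Submodule.coe_smul, hB.smul_right, mul_smul] }
  have hS : ∀ u v : W, inner ℂ (S u) v = B (u : V) (v : V) := by
    intro u v
    have h1 : inner ℂ (S u) v = ∑ i, B (u : V) (b i : V) * inner ℂ (b i) v := by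
      change inner ℂ (∑ i, B (b i : V) (u : V) • b i) v = _
      rw [sum_inner]
      refine Finset.sum_congr rfl fun i _ => ?_
      rw [inner_smul_left, ← hB.symm]
    have h2 : (v : V) = ∑ i, inner ℂ (b i) v • (b i : V) := by
      conv_lhs => rw [← b.sum_repr' v]
      rw [Submodule.coe_sum]
      rfl
    rw [h1]
    conv_rhs => rw [h2]
    rw [A14_sum_right hB]
    refine Finset.sum_congr rfl fun i _ => ?_
    rw [hB.smul_right, mul_comm]
  have hsym : S.IsSymmetric := by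
    intro u v
    rw [hS, ← inner_conj_symm, hS, ← hB.symm]
  have hn : Module.finrank ℂ W = Module.finrank ℂ W := rfl
  let e := hsym.eigenvectorBasis hn
  refine ⟨Module.finrank ℂ W, fun i => (e i : V), fun i => hsym.eigenvalues hn i, ?_,
    fun i => (e i).2, ?_, ?_⟩
  · have h := e.orthonormal
    exact h.comp_linearIsometry W.subtypeₗᵢ
  · intro i φ hφ
    have h1 : inner ℂ (S (e i)) (⟨φ, hφ⟩ : W) = B (e i : V) φ := hS (e i) ⟨φ, hφ⟩
    rw [← h1, hsym.apply_eigenvectorBasis hn i, inner_smul_left]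
    rw [RCLike.conj_ofReal]
    rfl
  · intro ψ hψ
    have h := e.sum_repr' (⟨ψ, hψ⟩ : W)
    have h2 := congrArg (fun x : W => (x : V)) h
    simp only [Submodule.coe_sum] at h2
    refine h2.symm.trans (Finset.sum_congr rfl fun i _ => ?_)
    rw [Submodule.coe_smul, Submodule.coe_inner]

theorem AlmostInv.diag {ε : ℝ} {B : V → V → ℂ} (hB : A.AlmostInv ε B) (hA : A.IsAdm) (lam : ℝ) :
    ∃ (d : ℕ) (e : Fin d → V) (t : Fin d → ℝ), Orthonormal ℂ e ∧ (∀ i, e i ∈ A.eig lam) ∧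
      (∀ i, ∀ φ ∈ A.eig lam, B (e i) φ = (t i : ℂ) * inner ℂ (e i) φ) ∧
      ∀ ψ ∈ A.eig lam, ψ = ∑ i, inner ℂ (e i) ψ • e i := by
  have := hA.fin lam
  have : FiniteDimensional ℂ (A.eig lam) :=
    Submodule.finiteDimensional_of_le (A.eig_le_low (le_refl lam))
  exact A14_gen hB (A.eig lam)

/-- `B` is comparable to the norm on every `low R`. -/
theorem AlmostInv.compare {ε : ℝ} {B : V → V → ℂ} (hB : A.AlmostInv ε B) (hA : A.IsAdm) (R : ℝ) :
    ∃ C : ℝ, 0 < C ∧ ∀ ψ ∈ A.low R, ‖ψ‖ ^ 2 ≤ C * (B ψ ψ).re ∧ (B ψ ψ).re ≤ C * ‖ψ‖ ^ 2 := by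
  have := hA.fin R
  obtain ⟨d, e, t, ho, he, ht, hex⟩ := A14_gen hB (A.low R)
  have htp : ∀ i, 0 < t i := by
    intro i
    have h1 := ht i (e i) (he i)
    have h2 : inner ℂ (e i) (e i) = (1 : ℂ) := by
      rw [inner_self_eq_norm_sq_to_K, ho.1 i]; simp
    rw [h2, mul_one] at h1
    have h3 : e i ≠ 0 := by
      intro h
      have := ho.1 i
      rw [h, norm_zero] at this
      exact zero_ne_one this
    have h4 := hB.pos (e i) h3
    rw [h1, Complex.ofReal_re] at h4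
    exact h4
  have hnorm : ∀ ψ ∈ A.low R, ‖ψ‖ ^ 2 = ∑ i, ‖inner ℂ (e i) ψ‖ ^ 2 := by
    intro ψ hψ
    have h1 : ((‖ψ‖ ^ 2 : ℝ) : ℂ) = inner ℂ ψ ψ := by
      rw [inner_self_eq_norm_sq_to_K]; push_cast; rfl
    have h2 : inner ℂ ψ ψ = ∑ i, ((‖inner ℂ (e i) ψ‖ ^ 2 : ℝ) : ℂ) := by
      have h3 : inner ℂ ψ ψ = inner ℂ (∑ i, inner ℂ (e i) ψ • e i) ψ :=
        congrArg (fun x => inner ℂ x ψ) (hex ψ hψ)
      rw [h3, sum_inner]
      refine Finset.sum_congr rfl fun i _ => ?_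
      rw [inner_smul_left, Complex.conj_mul']
      push_cast; rfl
    rw [h2] at h1
    exact_mod_cast h1
  have hBB : ∀ ψ ∈ A.low R, (B ψ ψ).re = ∑ i, t i * ‖inner ℂ (e i) ψ‖ ^ 2 := by
    intro ψ hψ
    have h2 : B ψ ψ = ∑ i, ((t i * ‖inner ℂ (e i) ψ‖ ^ 2 : ℝ) : ℂ) := by
      have h4 : B ψ ψ = B (∑ i, inner ℂ (e i) ψ • e i) ψ :=
        congrArg (fun x => B x ψ) (hex ψ hψ)
      rw [h4, A14_sum_left hB]
      refine Finset.sum_congr rfl fun i _ => ?_
      rw [hB.smul_left, ht i ψ hψ]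
      have h3 := Complex.conj_mul' (inner ℂ (e i) ψ)
      push_cast
      linear_combination (t i : ℂ) * h3
    rw [h2, Complex.re_sum]
    simp only [Complex.ofReal_re]
  have hle : ∀ i, t i ≤ 1 + ∑ j, (t j + (t j)⁻¹) := by
    intro i
    have h1 : t i + (t i)⁻¹ ≤ ∑ j, (t j + (t j)⁻¹) :=
      Finset.single_le_sum (f := fun j => t j + (t j)⁻¹)
        (fun j _ => (add_pos (htp j) (inv_pos.2 (htp j))).le) (Finset.mem_univ i)
    have h2 := inv_pos.2 (htp i)
    linarith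
  have hle' : ∀ i, (t i)⁻¹ ≤ 1 + ∑ j, (t j + (t j)⁻¹) := by
    intro i
    have h1 : t i + (t i)⁻¹ ≤ ∑ j, (t j + (t j)⁻¹) :=
      Finset.single_le_sum (f := fun j => t j + (t j)⁻¹)
        (fun j _ => (add_pos (htp j) (inv_pos.2 (htp j))).le) (Finset.mem_univ i)
    have h2 := htp i
    linarith
  refine ⟨1 + ∑ j, (t j + (t j)⁻¹), ?_, ?_⟩
  · have : 0 ≤ ∑ j, (t j + (t j)⁻¹) :=
      Finset.sum_nonneg fun j _ => (add_pos (htp j) (inv_pos.2 (htp j))).le
    linarith
  · intro ψ hψ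
    rw [hnorm ψ hψ, hBB ψ hψ]
    constructor
    · rw [Finset.mul_sum]
      refine Finset.sum_le_sum fun i _ => ?_
      have h1 : 1 ≤ (1 + ∑ j, (t j + (t j)⁻¹)) * t i := by
        have := mul_le_mul_of_nonneg_right (hle' i) (htp i).le
        rwa [inv_mul_cancel₀ (htp i).ne'] at this
      nlinarith [sq_nonneg ‖inner ℂ (e i) ψ‖]
    · rw [Finset.mul_sum]
      refine Finset.sum_le_sum fun i _ => ?_
      exact mul_le_mul_of_nonneg_right (hle i) (sq_nonneg _)

end LieRep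

end SBD
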