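import Pool.Agent.SBD.A13
import Pool.Agent.SBD.A14

/-!
# Row SBD-A15 : one step of the chain

Let `c, δ, lam0` be as in A13, `lam ≥ lam0`, `ψ ∈ V_lam`, `‖ψ‖ = 1`, `t = B(ψ,ψ)` and assume
`B(ψ,φ) = t⟨ψ,φ⟩` for `φ ∈ V_lam`.  Take `b, y, s, f` from A13: `D(P_b)ψ = y + z`, `z = ∑_{l∈s} f l`,
`y ∈ low μ`, `μ = lam - δ√lam`, `‖y‖ ≥ c√lam`.  Then
 * `B(D(P_b)ψ, y) = B(y,y)`, since `B(z,y) = 0` (`AlmostInv.orth`, all `l ∈ s` are `> μ`; write `y` as
   a sum of eigenvectors with eigenvalues `≤ μ`);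
 * `B(ψ, D(P_b)y) = t⟨ψ, D(P_b)y⟩` : write `D(P_b)y = ∑_l g l` (`mem_all`); both sides only see the
   term `l = lam` (`AlmostInv.orth`, `eig_orth`);
 * `⟨ψ, D(P_b)y⟩ = -⟨D(P_b)ψ,y⟩ = -⟨y+z,y⟩ = -‖y‖²`.
So `|B(y,y) - t‖y‖²| ≤ ε √t √B(y,y)`.  Put `β = B(y,y)/‖y‖² > 0`: `|β - t| ≤ (ε/‖y‖) √(tβ)`, so with
`x = log(t/β)`: `2 sinh(|x|/2) = |t-β|/√(tβ) ≤ ε/‖y‖ ≤ ε/(c√lam)`, and `|x| ≤ 2 sinh(|x|/2)`.
Hence `t ≤ β exp(ε/(c√lam))` and `β ≤ t exp(ε/(c√lam))`.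
(Elementary variant of the last step: if `t ≥ β` put `r = √(t/β) ≥ 1`, `r - 1/r ≤ η := ε/(c√lam)`,
and `2 log r ≤ r - 1/r`.)
-/

open scoped Matrix

noncomputable section

namespace SBD

namespace LieRep

variable {N : ℕ} {V : Type} [NormedAddCommGroup V] [InnerProductSpace ℂ V] (A : LieRep N V)

private theorem A15_exp {a b η : ℝ} (ha : 0 < a) (hb : 0 < b) (hη : 0 ≤ η)
    (h : a - b ≤ η * Real.sqrt (a * b)) : a ≤ Real.exp η * b := by
  by_cases hab : a ≤ b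
  · have h1 : 1 ≤ Real.exp η := Real.one_le_exp hη
    nlinarith
  rw [not_le] at hab
  set x : ℝ := Real.log (a / b) with hx
  have hx0 : 0 ≤ x := Real.log_nonneg (by rw [le_div_iff₀ hb]; linarith)
  have hax : a = b * Real.exp x := by
    rw [hx, Real.exp_log (div_pos ha hb)]; field_simp
  set r : ℝ := Real.exp (x / 2) with hr
  have hrr : r * r = Real.exp x := by
    rw [hr, ← Real.exp_add]; ring_nf
  have hrp : 0 < r := Real.exp_pos _
  have hs : Real.sqrt (a * b) = b * r := by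
    have : a * b = (b * r) ^ 2 := by rw [hax, ← hrr]; ring
    rw [this, Real.sqrt_sq (mul_pos hb hrp).le]
  rw [hs, hax, ← hrr] at h
  have h1 : r * r - 1 ≤ η * r := by
    have : b * (r * r - 1) ≤ b * (η * r) := by nlinarith
    exact le_of_mul_le_mul_left this hb
  have h2 : r - r⁻¹ ≤ η := by
    have h3 : (r - r⁻¹) * r ≤ η * r := by
      rw [sub_mul, inv_mul_cancel₀ hrp.ne']; exact h1
    exact le_of_mul_le_mul_right h3 hrp
  have h3 : Real.sinh (x / 2) = (r - r⁻¹) / 2 := by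
    rw [Real.sinh_eq, hr, Real.exp_neg]
  have h4 : x / 2 ≤ Real.sinh (x / 2) := Real.self_le_sinh_iff.2 (by linarith)
  have h5 : x ≤ η := by rw [h3] at h4; linarith
  rw [hax, mul_comm]
  exact mul_le_mul_of_nonneg_right (Real.exp_le_exp.2 h5) hb.le

private theorem A15_zl {ε : ℝ} {B : V → V → ℂ} (hB : A.AlmostInv ε B) (v : V) :
    B 0 v = 0 := by
  have h := hB.smul_left 0 0 v
  simpa using h

private theorem A15_zr {ε : ℝ} {B : V → V → ℂ} (hB : A.AlmostInv ε B) (v : V) :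
    B v 0 = 0 := by
  have h := hB.smul_right 0 v 0
  simpa using h

private theorem A15_sl {ι : Type*} {ε : ℝ} {B : V → V → ℂ} (hB : A.AlmostInv ε B)
    (s : Finset ι) (f : ι → V) (v : V) : B (∑ i ∈ s, f i) v = ∑ i ∈ s, B (f i) v := by
  classical
  induction s using Finset.induction_on with
  | empty => simpa using A15_zl A hB v
  | insert a s ha ih => rw [Finset.sum_insert ha, Finset.sum_insert ha, hB.add_left, ih]

private theorem A15_sr {ι : Type*} {ε : ℝ} {B : V → V → ℂ} (hB : A.AlmostInv ε B)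
    (s : Finset ι) (f : ι → V) (v : V) : B v (∑ i ∈ s, f i) = ∑ i ∈ s, B v (f i) := by
  classical
  induction s using Finset.induction_on with
  | empty => simpa using A15_zr A hB v
  | insert a s ha ih => rw [Finset.sum_insert ha, Finset.sum_insert ha, hB.add_right, ih]

private theorem A15_re {ε : ℝ} {B : V → V → ℂ} (hB : A.AlmostInv ε B) (v : V) :
    B v v = ((B v v).re : ℂ) := by
  have h := hB.symm v v
  exact (Complex.conj_eq_iff_real.1 h.symm).elim fun r hr => by rw [hr]; simp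

theorem step (hA : A.IsAdm) : ∃ c : ℝ, 0 < c ∧ ∃ δ : ℝ, 0 < δ ∧ ∃ lam0 : ℝ, 1 ≤ lam0 ∧
    ∀ ε : ℝ, 0 ≤ ε → ∀ B : V → V → ℂ, A.AlmostInv ε B →
    ∀ lam, lam0 ≤ lam → ∀ ψ ∈ A.eig lam, ‖ψ‖ = 1 →
    (∀ φ ∈ A.eig lam, B ψ φ = B ψ ψ * inner ℂ ψ φ) →
    ∃ y ∈ A.low (lam - δ * Real.sqrt lam), y ≠ 0 ∧
      (B ψ ψ).re * ‖y‖ ^ 2 ≤ Real.exp (ε / (c * Real.sqrt lam)) * (B y y).re ∧
      (B y y).re ≤ Real.exp (ε / (c * Real.sqrt lam)) * ((B ψ ψ).re * ‖y‖ ^ 2) := by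
  obtain ⟨c, hc, δ, hδ, lam0, hlam0, H⟩ := A.beta hA
  refine ⟨c, hc, δ, hδ, lam0, hlam0, ?_⟩
  intro ε hε B hB lam hlam ψ hψ hψ1 hev
  obtain ⟨b, y, hy, s, f, hf, hD, hyc⟩ := H lam hlam ψ hψ (by rintro rfl; simp at hψ1)
  have hlamp : 0 < lam := by linarith
  have hsq : 0 < Real.sqrt lam := Real.sqrt_pos.2 hlamp
  rw [hψ1, mul_one] at hyc
  have hcs : 0 < c * Real.sqrt lam := mul_pos hc hsq
  have hyp : 0 < ‖y‖ := lt_of_lt_of_le hcs hyc
  have hy0 : y ≠ 0 := norm_pos_iff.1 hyp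
  have hψ0 : ψ ≠ 0 := by
    intro h
    rw [h, norm_zero] at hψ1
    exact zero_ne_one hψ1
  obtain ⟨s1, g, hg, hyg⟩ := A.mem_low_iff.1 hy
  -- the two cross terms
  have hzy : B (∑ l ∈ s, f l) y = 0 := by
    rw [hyg, A15_sl A hB]
    refine Finset.sum_eq_zero fun l hl => ?_
    rw [A15_sr A hB]
    refine Finset.sum_eq_zero fun l' hl' => ?_
    have h1 := (hf l hl).1
    have h2 := (hg l' hl').1
    exact hB.orth (by linarith [h1, h2] : l ≠ l') (hf l hl).2 (hg l' hl').2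
  have hzi : inner ℂ (∑ l ∈ s, f l) y = (0 : ℂ) := by
    rw [hyg, sum_inner]
    refine Finset.sum_eq_zero fun l hl => ?_
    rw [inner_sum]
    refine Finset.sum_eq_zero fun l' hl' => ?_
    have h1 := (hf l hl).1
    have h2 := (hg l' hl').1
    exact A.eig_orth (by linarith [h1, h2] : l ≠ l') (hf l hl).2 (hg l' hl').2
  have h1 : B (A.D (A.P b) ψ) y = B y y := by
    rw [hD, hB.add_left, hzy, add_zero]
  obtain ⟨s2, k, hk, hyk⟩ := A.mem_all hA (A.D (A.P b) y)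
  have h2 : B ψ (A.D (A.P b) y) = B ψ ψ * inner ℂ ψ (A.D (A.P b) y) := by
    rw [hyk, A15_sr A hB, inner_sum, Finset.mul_sum]
    refine Finset.sum_congr rfl fun l hl => ?_
    by_cases hll : lam = l
    · subst hll
      exact hev _ (hk _ hl)
    · rw [hB.orth hll hψ (hk l hl), A.eig_orth hll hψ (hk l hl), mul_zero]
  have h3 : inner ℂ ψ (A.D (A.P b) y) = -((‖y‖ ^ 2 : ℝ) : ℂ) := by
    have h4 := A.skew (A.P b) (A.P_mem b) ψ y
    rw [hD, inner_add_left, hzi, add_zero, inner_self_eq_norm_sq_to_K] at h4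
    rw [← neg_eq_iff_eq_neg, ← h4]
    push_cast
    rfl
  have h5 := hB.alm b ψ y
  rw [h1, h2, h3, A15_re A hB y, A15_re A hB ψ] at h5
  have hbp : 0 < (B y y).re := hB.pos y hy0
  have htp : 0 < (B ψ ψ).re := hB.pos ψ hψ0
  set β : ℝ := (B y y).re with hβ
  set t : ℝ := (B ψ ψ).re with ht
  have h6 : |β - t * ‖y‖ ^ 2| ≤ ε * Real.sqrt t * Real.sqrt β := by
    have e : ((β : ℂ) + (t : ℂ) * -((‖y‖ ^ 2 : ℝ) : ℂ)) = ((β - t * ‖y‖ ^ 2 : ℝ) : ℂ) := by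
      push_cast; ring
    rw [Complex.ofReal_re, Complex.ofReal_re, e, Complex.norm_real, Real.norm_eq_abs] at h5
    exact h5
  have hN : 0 < ‖y‖ ^ 2 := by positivity
  have ha : 0 < t * ‖y‖ ^ 2 := mul_pos htp hN
  have hsN : Real.sqrt (t * ‖y‖ ^ 2 * β) = Real.sqrt t * ‖y‖ * Real.sqrt β := by
    rw [Real.sqrt_mul ha.le, Real.sqrt_mul htp.le, Real.sqrt_sq hyp.le]
  have hη : 0 ≤ ε / (c * Real.sqrt lam) := div_nonneg hε hcs.le
  have h7 : ε * Real.sqrt t * Real.sqrt β ≤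
      ε / (c * Real.sqrt lam) * Real.sqrt (t * ‖y‖ ^ 2 * β) := by
    rw [hsN]
    have h8 : ε ≤ ε / (c * Real.sqrt lam) * ‖y‖ := by
      rw [div_mul_eq_mul_div, le_div_iff₀ hcs]
      exact mul_le_mul_of_nonneg_left hyc hε
    have h9 : 0 ≤ Real.sqrt t * Real.sqrt β := by positivity
    calc ε * Real.sqrt t * Real.sqrt β = ε * (Real.sqrt t * Real.sqrt β) := by ring
      _ ≤ (ε / (c * Real.sqrt lam) * ‖y‖) * (Real.sqrt t * Real.sqrt β) :=
        mul_le_mul_of_nonneg_right h8 h9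
      _ = _ := by ring
  have h10 := abs_le.1 (h6.trans h7)
  refine ⟨y, hy, hy0, ?_, ?_⟩
  · exact A15_exp ha hbp hη (by linarith [h10.1])
  · refine A15_exp hbp ha hη ?_
    rw [mul_comm β]
    linarith [h10.2]

end LieRep

end SBD
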