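import Pool.Agent.SBD.A15

/-!
# Row SBD-A16 : the chain.  `C⁻¹ lam^{-aε} ‖ψ‖² ≤ B(ψ,ψ) ≤ C lam^{aε} ‖ψ‖²` on `V_lam`

PROOF.  `c, δ, lam0` from A15; `a = 1/(cδ)`.  Let `C` be the constant of `AlmostInv.compare` for
`R = lam0`, `C ≥ 1` WLOG.  Claim: for all `n : ℕ` and all `lam ≤ δ n` (and `lam ≥ 1`, otherwise
`ψ = 0`), `ψ ∈ V_lam`:
  (1) `B(ψ,ψ) ≤ C lam^{aε}‖ψ‖²`,  (2) `‖ψ‖² ≤ C lam^{aε} B(ψ,ψ)`.
Induction on `n`.  If `lam ≤ lam0` use `compare` (`lam^{aε} ≥ 1`).  If `lam > lam0`: by `diag`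
(A14) and orthogonality (`ψ = ∑ ⟨e_i,ψ⟩e_i`, `B(ψ,ψ) = ∑ t_i|⟨e_i,ψ⟩|²`, `‖ψ‖² = ∑|⟨e_i,ψ⟩|²`)
it suffices to show `t_i ≤ C lam^{aε}` and `1 ≤ C lam^{aε} t_i`.  Apply A15 to `e_i`
(`B(e_i,e_i) = t_i`): `y ∈ low μ`, `μ = lam - δ√lam ≤ lam - δ ≤ δ(n-1)`.  Write `y = ∑ g_l`,
`l ≤ μ` (only `l ≥ 1` matter: `g_l = 0` otherwise); by the induction hypothesis and
`AlmostInv.sum`, `norm_sq_sum`: `B(y,y) ≤ C μ^{aε}‖y‖²` and `‖y‖² ≤ C μ^{aε} B(y,y)` (`μ ≥ 1` since
`y ≠ 0`).  Now `μ = lam(1-δ/√lam) ≤ lam e^{-δ/√lam}`, so `μ^{aε} ≤ lam^{aε} e^{-aεδ/√lam}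
= lam^{aε} e^{-ε/(c√lam)}`.  Hence `t_i ‖y‖² ≤ e^{ε/(c√lam)} B(y,y) ≤ C lam^{aε}‖y‖²` and
`‖y‖² ≤ C μ^{aε} B(y,y) ≤ C μ^{aε} e^{ε/(c√lam)} t_i ‖y‖² ≤ C lam^{aε} t_i‖y‖²`.
-/

open scoped Matrix

noncomputable section

namespace SBD

namespace LieRep

variable {N : ℕ} {V : Type} [NormedAddCommGroup V] [InnerProductSpace ℂ V] (A : LieRep N V)

private theorem A16_zero_left {ε : ℝ} {B : V → V → ℂ} (hB : A.AlmostInv ε B) (v : V) :
    B 0 v = 0 := by
  have h := hB.smul_left 0 0 v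
  rw [zero_smul, map_zero, zero_mul] at h
  exact h

private theorem A16_sum_left {ε : ℝ} {B : V → V → ℂ} (hB : A.AlmostInv ε B) {ι : Type}
    (s : Finset ι) (g : ι → V) (v : V) : B (∑ i ∈ s, g i) v = ∑ i ∈ s, B (g i) v := by
  classical
  induction s using Finset.induction_on with
  | empty => simpa using A16_zero_left A hB v
  | insert i s hi ih => rw [Finset.sum_insert hi, Finset.sum_insert hi, hB.add_left, ih]

private theorem A16_nonneg {ε : ℝ} {B : V → V → ℂ} (hB : A.AlmostInv ε B) (v : V) :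
    0 ≤ (B v v).re := by
  by_cases h : v = 0
  · rw [h, A16_zero_left A hB]
    simp
  · exact (hB.pos v h).le

/-- `B(x • v, x • v) = x² B(v,v)` for real `x`. -/
private theorem A16_smul {ε : ℝ} {B : V → V → ℂ} (hB : A.AlmostInv ε B) (x : ℝ) (v : V) :
    (B ((x : ℂ) • v) ((x : ℂ) • v)).re = x ^ 2 * (B v v).re := by
  rw [hB.smul_left, hB.smul_right, Complex.conj_ofReal, ← mul_assoc, ← Complex.ofReal_mul,
    Complex.re_ofReal_mul]
  ring

/-- A bound on all the eigenspaces `V_l`, `l ≤ R`, gives a bound on `low R`. -/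
private theorem A16_low {ε : ℝ} {B : V → V → ℂ} (hB : A.AlmostInv ε B) {C p R : ℝ} (hC : 0 ≤ C)
    (hp : 0 ≤ p)
    (h : ∀ l ≤ R, ∀ v ∈ A.eig l, ‖v‖ ^ 2 ≤ C * l ^ p * (B v v).re ∧
      (B v v).re ≤ C * l ^ p * ‖v‖ ^ 2) {y : V} (hy : y ∈ A.low R) :
    ‖y‖ ^ 2 ≤ C * R ^ p * (B y y).re ∧ (B y y).re ≤ C * R ^ p * ‖y‖ ^ 2 := by
  obtain ⟨s, f, hf, rfl⟩ := A.mem_low_iff.mp hy
  have key : ∀ l ∈ s, ‖f l‖ ^ 2 ≤ C * R ^ p * (B (f l) (f l)).re ∧
      (B (f l) (f l)).re ≤ C * R ^ p * ‖f l‖ ^ 2 := by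
    intro l hl
    by_cases h0 : f l = 0
    · rw [h0, A16_zero_left A hB]
      simp
    · have h1 := A.eig_ge (hf l hl).2 h0
      have h2 : l ^ p ≤ R ^ p := Real.rpow_le_rpow (by linarith) (hf l hl).1 hp
      have h3 : C * l ^ p ≤ C * R ^ p := mul_le_mul_of_nonneg_left h2 hC
      obtain ⟨h4, h5⟩ := h l (hf l hl).1 (f l) (hf l hl).2
      exact ⟨h4.trans (mul_le_mul_of_nonneg_right h3 (A16_nonneg A hB _)),
        h5.trans (mul_le_mul_of_nonneg_right h3 (by positivity))⟩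
  rw [A.norm_sq_sum s f (fun l hl => (hf l hl).2), hB.sum s f (fun l hl => (hf l hl).2),
    Finset.mul_sum, Finset.mul_sum]
  exact ⟨Finset.sum_le_sum fun l hl => (key l hl).1, Finset.sum_le_sum fun l hl => (key l hl).2⟩

/-- `μ^p ≤ lam^p e^{-pδ/√lam}` for `μ = lam - δ √lam`. -/
private theorem A16_pow {δ lam p : ℝ} (hlam : 1 ≤ lam) (hp : 0 ≤ p)
    (hμ : 0 ≤ lam - δ * Real.sqrt lam) :
    (lam - δ * Real.sqrt lam) ^ p * Real.exp (p * δ / Real.sqrt lam) ≤ lam ^ p := by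
  have hs : 0 < Real.sqrt lam := Real.sqrt_pos.mpr (by linarith)
  have hss : Real.sqrt lam * Real.sqrt lam = lam := Real.mul_self_sqrt (by linarith)
  have h1 : lam - δ * Real.sqrt lam ≤ lam * Real.exp (-(δ / Real.sqrt lam)) := by
    have h2 := Real.add_one_le_exp (-(δ / Real.sqrt lam))
    have h3 : lam - δ * Real.sqrt lam = lam * (-(δ / Real.sqrt lam) + 1) := by
      have h4 : lam * (δ / Real.sqrt lam) = δ * Real.sqrt lam := by
        rw [mul_div_assoc', div_eq_iff hs.ne', mul_assoc, hss]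
        ring
      rw [mul_add, mul_one, mul_neg, h4]
      ring
    rw [h3]
    exact mul_le_mul_of_nonneg_left h2 (by linarith)
  have h5 : (lam - δ * Real.sqrt lam) ^ p ≤ (lam * Real.exp (-(δ / Real.sqrt lam))) ^ p :=
    Real.rpow_le_rpow hμ h1 hp
  rw [Real.mul_rpow (by linarith) (Real.exp_pos _).le, ← Real.exp_mul] at h5
  calc (lam - δ * Real.sqrt lam) ^ p * Real.exp (p * δ / Real.sqrt lam)
      ≤ lam ^ p * Real.exp (-(δ / Real.sqrt lam) * p) * Real.exp (p * δ / Real.sqrt lam) :=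
        mul_le_mul_of_nonneg_right h5 (Real.exp_pos _).le
    _ = lam ^ p * Real.exp (-(δ / Real.sqrt lam) * p + p * δ / Real.sqrt lam) := by
        rw [mul_assoc, ← Real.exp_add]
    _ = lam ^ p := by
        have : -(δ / Real.sqrt lam) * p + p * δ / Real.sqrt lam = 0 := by ring
        rw [this, Real.exp_zero, mul_one]

theorem chain (hA : A.IsAdm) : ∃ a : ℝ, 0 < a ∧ ∀ ε : ℝ, 0 ≤ ε → ∀ B : V → V → ℂ,
    A.AlmostInv ε B → ∃ C : ℝ, 1 ≤ C ∧ ∀ lam : ℝ, ∀ ψ ∈ A.eig lam,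
      ‖ψ‖ ^ 2 ≤ C * lam ^ (a * ε) * (B ψ ψ).re ∧
      (B ψ ψ).re ≤ C * lam ^ (a * ε) * ‖ψ‖ ^ 2 := by
  obtain ⟨c, hc, δ, hδ, lam0, hlam0, hstep⟩ := A.step hA
  refine ⟨1 / (c * δ), by positivity, fun ε hε B hB => ?_⟩
  obtain ⟨C0, hC0, hcmp⟩ := hB.compare hA lam0
  set p : ℝ := 1 / (c * δ) * ε with hp
  have hp0 : 0 ≤ p := by positivity
  have hpδ : p * δ = ε / c := by
    rw [hp]
    field_simp
  refine ⟨max 1 C0, le_max_left _ _, ?_⟩
  set C : ℝ := max 1 C0 with hCdef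
  have hC1 : 1 ≤ C := le_max_left _ _
  have hC2 : C0 ≤ C := le_max_right _ _
  have hC : 0 ≤ C := by linarith
  have main : ∀ n : ℕ, ∀ lam ≤ δ * n, ∀ ψ ∈ A.eig lam,
      ‖ψ‖ ^ 2 ≤ C * lam ^ p * (B ψ ψ).re ∧ (B ψ ψ).re ≤ C * lam ^ p * ‖ψ‖ ^ 2 := by
    intro n
    induction n with
    | zero =>
      intro lam hlam ψ hψ
      have h0 : ψ = 0 := by
        by_contra h
        have h1 := A.eig_ge hψ h
        simp only [Nat.cast_zero, mul_zero] at hlam
        linarith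
      rw [h0, A16_zero_left A hB]
      simp
    | succ n ih =>
      intro lam hlam ψ hψ
      by_cases h0 : ψ = 0
      · rw [h0, A16_zero_left A hB]
        simp
      have hlam1 := A.eig_ge hψ h0
      have hone : 1 ≤ lam ^ p := Real.one_le_rpow hlam1 hp0
      by_cases hle : lam ≤ lam0
      · obtain ⟨h1, h2⟩ := hcmp ψ (A.eig_le_low hle hψ)
        have h3 : C0 ≤ C * lam ^ p := by nlinarith
        exact ⟨h1.trans (mul_le_mul_of_nonneg_right h3 (A16_nonneg A hB _)),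
          h2.trans (mul_le_mul_of_nonneg_right h3 (by positivity))⟩
      · push Not at hle
        obtain ⟨d, e, t, heo, hel, het, hspan⟩ := hB.diag hA lam
        have hBe : ∀ i, B (e i) (e i) = (t i : ℂ) := by
          intro i
          rw [het i _ (hel i), inner_self_eq_norm_sq_to_K, heo.1 i]
          simp
        have hti : ∀ i, t i ≤ C * lam ^ p ∧ 1 ≤ C * lam ^ p * t i := by
          intro i
          have hne : ‖e i‖ = 1 := heo.1 i
          obtain ⟨y, hy, hy0, h1, h2⟩ := hstep ε hε B hB lam hle.le (e i) (hel i) hne (by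
            intro φ hφ
            rw [hBe i]
            exact het i φ hφ)
          have hs1 : 1 ≤ Real.sqrt lam := by
            rw [Real.one_le_sqrt]
            exact hlam1
          have hs0 : 0 < Real.sqrt lam := by linarith
          have hμn : lam - δ * Real.sqrt lam ≤ δ * n := by
            push_cast at hlam
            nlinarith
          have hμ1 : 1 ≤ lam - δ * Real.sqrt lam := by
            obtain ⟨s, f, hf, hys⟩ := A.mem_low_iff.mp hy
            by_contra hlt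
            push Not at hlt
            apply hy0
            rw [hys]
            refine Finset.sum_eq_zero fun l hl => ?_
            by_contra hne0
            have h5 := A.eig_ge (hf l hl).2 hne0
            have h6 := (hf l hl).1
            linarith
          obtain ⟨h3, h4⟩ := A16_low A hB (C := C) (p := p) hC hp0
            (fun l hl v hv => ih l (hl.trans hμn) v hv) hy
          rw [hBe i, Complex.ofReal_re] at h1 h2
          have hexp : p * δ / Real.sqrt lam = ε / (c * Real.sqrt lam) := by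
            rw [hpδ, div_div]
          have h5 := A16_pow (δ := δ) hlam1 hp0 (by linarith)
          rw [hexp] at h5
          set E := Real.exp (ε / (c * Real.sqrt lam)) with hE
          have hE0 : 0 < E := Real.exp_pos _
          set M := (lam - δ * Real.sqrt lam) ^ p with hM
          have hM0 : 0 ≤ M := Real.rpow_nonneg (by linarith) _
          have hyp : 0 < ‖y‖ ^ 2 := by
            have := norm_pos_iff.mpr hy0
            positivity
          have ht0 : 0 < t i := by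
            have h6 := hB.pos (e i) (by
              intro h7
              rw [h7, norm_zero] at hne
              exact zero_ne_one hne)
            rwa [hBe i, Complex.ofReal_re] at h6
          constructor
          · have h6 : t i * ‖y‖ ^ 2 ≤ C * lam ^ p * ‖y‖ ^ 2 := by
              calc t i * ‖y‖ ^ 2 ≤ E * (B y y).re := h1
                _ ≤ E * (C * M * ‖y‖ ^ 2) := mul_le_mul_of_nonneg_left h4 hE0.le
                _ = C * (M * E) * ‖y‖ ^ 2 := by ring
                _ ≤ C * lam ^ p * ‖y‖ ^ 2 :=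
                  mul_le_mul_of_nonneg_right (mul_le_mul_of_nonneg_left h5 hC) hyp.le
            exact le_of_mul_le_mul_right h6 hyp
          · have h6 : 1 * ‖y‖ ^ 2 ≤ C * lam ^ p * t i * ‖y‖ ^ 2 := by
              calc 1 * ‖y‖ ^ 2 = ‖y‖ ^ 2 := one_mul _
                _ ≤ C * M * (B y y).re := h3
                _ ≤ C * M * (E * (t i * ‖y‖ ^ 2)) :=
                  mul_le_mul_of_nonneg_left h2 (mul_nonneg hC hM0)
                _ = C * (M * E) * (t i * ‖y‖ ^ 2) := by ring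
                _ ≤ C * lam ^ p * (t i * ‖y‖ ^ 2) :=
                  mul_le_mul_of_nonneg_right (mul_le_mul_of_nonneg_left h5 hC) (by positivity)
                _ = C * lam ^ p * t i * ‖y‖ ^ 2 := by ring
            exact le_of_mul_le_mul_right h6 hyp
        have hzz : ∀ i, (starRingEnd ℂ) (inner ℂ (e i) ψ) * inner ℂ (e i) ψ =
            ((‖(inner ℂ (e i) ψ : ℂ)‖ ^ 2 : ℝ) : ℂ) := by
          intro i
          rw [Complex.conj_mul']
          push_cast
          ring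
        have hBψ : (B ψ ψ).re = ∑ i, t i * ‖(inner ℂ (e i) ψ : ℂ)‖ ^ 2 := by
          have h1 : B ψ ψ = ∑ i, (((t i * ‖(inner ℂ (e i) ψ : ℂ)‖ ^ 2 : ℝ)) : ℂ) := by
            calc B ψ ψ = B (∑ i, inner ℂ (e i) ψ • e i) ψ := by rw [← hspan ψ hψ]
              _ = ∑ i, B (inner ℂ (e i) ψ • e i) ψ := A16_sum_left A hB _ _ _
              _ = _ := by
                refine Finset.sum_congr rfl fun i _ => ?_
                rw [hB.smul_left, het i ψ hψ, mul_left_comm, hzz i]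
                push_cast
                ring
          rw [h1, ← Complex.ofReal_sum, Complex.ofReal_re]
        have hnψ : ‖ψ‖ ^ 2 = ∑ i, ‖(inner ℂ (e i) ψ : ℂ)‖ ^ 2 := by
          have h1 : inner ℂ ψ ψ = ∑ i, (((‖(inner ℂ (e i) ψ : ℂ)‖ ^ 2 : ℝ)) : ℂ) := by
            calc inner ℂ ψ ψ = inner ℂ (∑ i, inner ℂ (e i) ψ • e i) ψ := by rw [← hspan ψ hψ]
              _ = ∑ i, inner ℂ (inner ℂ (e i) ψ • e i) ψ := sum_inner _ _ _
              _ = _ := by
                refine Finset.sum_congr rfl fun i _ => ?_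
                rw [inner_smul_left, hzz i]
          rw [← Complex.ofReal_sum, inner_self_eq_norm_sq_to_K] at h1
          apply Complex.ofReal_injective
          rw [← h1]
          push_cast
          rfl
        rw [hBψ, hnψ, Finset.mul_sum, Finset.mul_sum]
        constructor
        · refine Finset.sum_le_sum fun i _ => ?_
          have := mul_le_mul_of_nonneg_right (hti i).2
            (by positivity : (0 : ℝ) ≤ ‖(inner ℂ (e i) ψ : ℂ)‖ ^ 2)
          linarith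
        · refine Finset.sum_le_sum fun i _ => ?_
          exact mul_le_mul_of_nonneg_right (hti i).1 (by positivity)
  intro lam ψ hψ
  obtain ⟨n, hn⟩ := exists_nat_ge (lam / δ)
  refine main n lam ?_ ψ hψ
  rw [div_le_iff₀ hδ] at hn
  linarith

/-- The same for general vectors: `u = ∑ f l`, `v = D_s u = ∑ l^{s/2} f l` with `s ≥ a ε`. -/
theorem chain_sob (hA : A.IsAdm) : ∃ a : ℝ, 0 < a ∧ ∀ ε : ℝ, 0 ≤ ε → ∀ B : V → V → ℂ,
    A.AlmostInv ε B → ∃ C : ℝ, 1 ≤ C ∧
      (∀ S : ℝ, a * ε ≤ S → ∀ (s : Finset ℝ) (f : ℝ → V), (∀ l ∈ s, f l ∈ A.eig l) →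
        ‖∑ l ∈ s, f l‖ ^ 2 ≤ C * (B (∑ l ∈ s, ((l ^ (S / 2) : ℝ) : ℂ) • f l)
          (∑ l ∈ s, ((l ^ (S / 2) : ℝ) : ℂ) • f l)).re) ∧
      (∀ R : ℝ, 1 ≤ R → ∀ v ∈ A.low R, (B v v).re ≤ C * R ^ (a * ε) * ‖v‖ ^ 2) := by
  obtain ⟨a, ha, h⟩ := A.chain hA
  refine ⟨a, ha, fun ε hε B hB => ?_⟩
  obtain ⟨C, hC1, hC⟩ := h ε hε B hB
  refine ⟨C, hC1, fun S hS s f hf => ?_, fun R _ v hv => ?_⟩
  · rw [A.norm_sq_sum s f hf,
      hB.sum s (fun l => ((l ^ (S / 2) : ℝ) : ℂ) • f l) (fun l hl => (A.eig l).smul_mem _ (hf l hl)),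
      Finset.mul_sum]
    refine Finset.sum_le_sum fun l hl => ?_
    rw [A16_smul A hB]
    by_cases h0 : f l = 0
    · rw [h0, A16_zero_left A hB]
      simp
    · have h1 := A.eig_ge (hf l hl) h0
      have h2 : (l ^ (S / 2)) ^ 2 = l ^ S := by
        rw [← Real.rpow_natCast, ← Real.rpow_mul (by linarith)]
        congr 1
        push_cast
        ring
      have h3 : l ^ (a * ε) ≤ l ^ S := Real.rpow_le_rpow_of_exponent_le h1 hS
      rw [h2, ← mul_assoc]
      exact (hC l (f l) (hf l hl)).1.trans (mul_le_mul_of_nonneg_right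
        (mul_le_mul_of_nonneg_left h3 (by linarith)) (A16_nonneg A hB _))
  · exact (A16_low A hB (by linarith) (by positivity) (fun l _ v hv => hC l v hv) hv).2

end LieRep

end SBD
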