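import Pool.Agent.SBD.Defs

open scoped Matrix

noncomputable section

namespace SBD

/-- A skew-symmetric representation `D` of a Lie algebra `𝔤 = 𝔨 ⊕ 𝔭` of real matrices on a complex
pre-Hilbert space `V`.  `Z` (resp. `P`) is an orthonormal basis of the skew-symmetric (resp.
symmetric) part of `𝔤`. -/
structure LieRep (N : ℕ) (V : Type) [NormedAddCommGroup V] [InnerProductSpace ℂ V] where
  𝔤 : Submodule ℝ (Mat N)
  br : ∀ X ∈ 𝔤, ∀ Y ∈ 𝔤, X * Y - Y * X ∈ 𝔤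
  m : ℕ
  n : ℕ
  Z : Fin m → Mat N
  P : Fin n → Mat N
  Z_mem : ∀ i, Z i ∈ 𝔤
  P_mem : ∀ i, P i ∈ 𝔤
  Z_t : ∀ i, (Z i)ᵀ = -Z i
  P_t : ∀ i, (P i)ᵀ = P i
  Z_o : ∀ i j, fip (Z i) (Z j) = if i = j then 1 else 0
  P_o : ∀ i j, fip (P i) (P j) = if i = j then 1 else 0
  basis : ∀ X ∈ 𝔤, X = ∑ i, fip (Z i) X • Z i + ∑ i, fip (P i) X • P i
  D : Mat N →ₗ[ℝ] (V →ₗ[ℂ] V)
  skew : ∀ X ∈ 𝔤, ∀ u v : V, inner ℂ (D X u) v = -inner ℂ u (D X v)
  brD : ∀ X ∈ 𝔤, ∀ Y ∈ 𝔤, ∀ v : V, D (X * Y - Y * X) v = D X (D Y v) - D Y (D X v)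

namespace LieRep

variable {N : ℕ} {V : Type} [NormedAddCommGroup V] [InnerProductSpace ℂ V] (A : LieRep N V)

/-- `Δ = 1 - ∑ D(Z_i)²`. -/
def Del : V →ₗ[ℂ] V := LinearMap.id - ∑ i, A.D (A.Z i) ∘ₗ A.D (A.Z i)

/-- The eigenspace `V_lam` of `Δ`. -/
def eig (lam : ℝ) : Submodule ℂ V where
  carrier := {v | A.Del v = (lam : ℂ) • v}
  add_mem' := by
    intro a b ha hb
    simp only [Set.mem_ofPred_eq] at *
    rw [map_add, ha, hb, smul_add]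
  zero_mem' := by simp
  smul_mem' := by
    intro c v hv
    simp only [Set.mem_ofPred_eq] at *
    rw [map_smul, hv, smul_comm]

/-- The sum of the eigenspaces `V_lam`, `lam ≤ R`. -/
def low (R : ℝ) : Submodule ℂ V := ⨆ lam : {x : ℝ // x ≤ R}, A.eig lam

/-- `W i j = -∑ (Z_a)_{ij} Z_a + ∑ (P_b)_{ij} P_b`. -/
def W (i j : Fin N) : Mat N := -∑ a, A.Z a i j • A.Z a + ∑ b, A.P b i j • A.P b

/-- The `N × N` matrix of operators with entries `D(W i j)`. -/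
def X : Matrix (Fin N) (Fin N) (Module.End ℂ V) := fun i j => A.D (A.W i j)

/-- The representation is admissible, spanned by the eigenvectors of `Δ`, and the operators
`tr (X^j)` are scalars. -/
structure IsAdm : Prop where
  fin : ∀ R, FiniteDimensional ℂ (A.low R)
  top : ⨆ lam : ℝ, A.eig lam = ⊤
  tr : ∀ j, 1 ≤ j → ∃ z : ℂ, (A.X ^ j).trace = z • (1 : Module.End ℂ V)

end LieRep

end SBD
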