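import Pool.Agent.SBD.Alg

/-!
# Definitions for the analytic part
-/

open MeasureTheory Filter Topology
open scoped ENNReal NNReal Matrix

noncomputable section

namespace SBD

variable {N : ℕ} {G : Type} [Group G] [TopologicalSpace G]
  {H : Type} [NormedAddCommGroup H] [InnerProductSpace ℂ H]

/-- The weight `Θ(g) = 1 + ‖ι(g)‖² + ‖ι(g⁻¹)‖²`. -/
def Th (L : LieData N G) (g : G) : ℝ := 1 + fsq (L.ι g) + fsq (L.ι g⁻¹)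

/-- A `K`-conjugation invariant bump function `f` supported in `O`, with its derivative `Lf X` in
the direction `X` : `f (e(tX) x) = f x + t (Lf X x) + o(t)` uniformly in `x`. -/
structure Bump [MeasurableSpace G] (L : LieData N G) (μ : Measure G) (O : Set G) (f : G → ℝ)
    (Lf : Mat N → G → ℝ) : Prop where
  cont : Continuous f
  supp : HasCompactSupport f
  nonneg : ∀ x, 0 ≤ f x
  out : ∀ x, x ∉ O → f x = 0
  int : ∫ x, f x ∂μ = 1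
  conj : ∀ k ∈ L.K, ∀ x, f (k * x * k⁻¹) = f x
  Lcont : ∀ X, Continuous (Lf X)
  Lsupp : ∀ X, HasCompactSupport (Lf X)
  Ladd : ∀ X Y x, Lf (X + Y) x = Lf X x + Lf Y x
  Lsmul : ∀ (t : ℝ) X x, Lf (t • X) x = t * Lf X x
  deriv : ∀ X ∈ L.𝔤, ∀ η : ℝ, 0 < η → ∃ δ : ℝ, 0 < δ ∧ ∀ t : ℝ, |t| ≤ δ → ∀ x,
    |f (L.e (t • X) * x) - f x - t * Lf X x| ≤ η * |t|

/-- `π(f) u = ∫ f(x) π(x) u dx`. -/
def sm [MeasurableSpace G] (π : G →* (H ≃ₗᵢ[ℂ] H)) (μ : Measure G) (f : G → ℝ) (u : H) : H :=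
  ∫ x, ((f x : ℝ) : ℂ) • π x u ∂μ

/-- `D X` is the derivative of `π(e(tX))` on the `K`-finite vectors. -/
def Dif (L : LieData N G) (π : G →* (H ≃ₗᵢ[ℂ] H))
    (D : Mat N →ₗ[ℝ] (KFin L π →ₗ[ℂ] KFin L π)) : Prop :=
  ∀ X ∈ L.𝔤, ∀ u : KFin L π,
    HasDerivAt (fun t : ℝ => π (L.e (t • X)) (u : H)) ((D X u : KFin L π) : H) 0

/-- The `(𝔤,K)`-module package of `π`. -/
structure IsPkg (L : LieData N G) (π : G →* (H ≃ₗᵢ[ℂ] H)) (A : LieRep N (KFin L π)) : Prop where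
  cont : ∀ v : H, Continuous fun g => π g v
  irr : ∀ W : Submodule ℂ H, IsClosed (W : Set H) → (∀ g : G, ∀ v ∈ W, π g v ∈ W) →
    W = ⊥ ∨ W = ⊤
  g_eq : A.𝔤 = L.𝔤
  dif : Dif L π A.D
  adm : A.IsAdm
  cas : ∀ (u : KFin L π) (c : ℝ), IsCas L π (u : H) c ↔ u ∈ A.eig (1 + c)
  kinv : ∀ k ∈ L.K, ∀ (lam : ℝ) (u : KFin L π), u ∈ A.eig lam →
    ∃ u' ∈ A.eig lam, ((u' : KFin L π) : H) = π k (u : H)
  line : ∀ X ∈ L.𝔤, ∀ (u : KFin L π) (t : ℝ),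
    HasDerivAt (fun s : ℝ => π (L.e (s • X)) (u : H)) (π (L.e (t • X)) ((A.D X u : KFin L π) : H)) t
  weak : ∀ X ∈ L.𝔤, ∀ (u v : KFin L π) (g : G),
    inner ℂ (u : H) (π g ((A.D X v : KFin L π) : H)) =
      -inner ℂ ((A.D (L.ι g * X * L.ι g⁻¹) u : KFin L π) : H) (π g (v : H))
  smooth : ∀ [MeasurableSpace G] [BorelSpace G] [IsTopologicalGroup G] [LocallyCompactSpace G]
    [T2Space G] [SecondCountableTopology G] (μ : Measure G) [μ.IsHaarMeasure]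
    [μ.IsMulRightInvariant], ∀ u ∈ KFin L π, ∀ O ∈ 𝓝 (1 : G),
    ∃ (f : G → ℝ) (Lf : Mat N → G → ℝ), Bump L μ O f Lf ∧ ∃ u' ∈ KFin L π, u = sm π μ f u'

/-- The weighted form `B_ε(u,v) = ∫ Θ^{-ε} conj(m_{w,u}) m_{w,v}`. -/
def Bf [MeasurableSpace G] (L : LieData N G) (π : G →* (H ≃ₗᵢ[ℂ] H)) (μ : Measure G) (ε : ℝ)
    (w : H) (u v : KFin L π) : ℂ :=
  ∫ g, ((Th L g ^ (-ε) : ℝ) : ℂ) *
    ((starRingEnd ℂ) (mc π w (u : H) g) * mc π w (v : H) g) ∂μ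

/-- `F(v)(g) = ∑ |⟨w_i, π(g) v⟩|²`. -/
def Fw (π : G →* (H ≃ₗᵢ[ℂ] H)) {d : ℕ} (w : Fin d → H) (v : H) (g : G) : ℝ :=
  ∑ i, ‖mc π (w i) v g‖ ^ 2

end SBD
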