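import Pool.Agent.SBD.An

/-!
# Row SBD-P04 : the operators `π(f)`

All integrands are continuous with compact support (`x ↦ π x u` is continuous), so integrable
(`Continuous.integrable_of_hasCompactSupport`).
* `sm_add`, `sm_smul` : linearity of the integral.
* `sm_norm_le` : `‖∫ f(x) π(x)u‖ ≤ ∫ |f| ‖u‖`.
* `sm_comm` : `π k (∫ f(x) π(x) u) = ∫ f(x) π(k x) u = ∫ f(x) π(kxk⁻¹) π(k) u = ∫ f(k⁻¹xk) π(x) π(k)u`
  (bi-invariance of `μ`) and `f(k⁻¹ x k) = f(x)` (`k⁻¹ ∈ K`).
* `sm_comm_clm` : `π(f)` commutes with `π(x₀)`-independent bounded operators: here only: if `T` is a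
  continuous linear map then `T (sm f u) = ∫ f(x) T(π(x)u)` (`ContinuousLinearMap.integral_comp_comm`).
* `inner_sm` / `sm_inner` : `⟨w, π(f)u⟩ = ∫ f(x) ⟨w, π(x)u⟩`, `⟨π(f)w, v⟩ = ∫ f(x) ⟨π(x)w, v⟩`
  (`f` real).
* `approx` : `W` finite-dimensional, `η > 0`.  On the unit ball of `W` (compact) the map
  `(x,u) ↦ ‖π(x)u - u‖` is jointly continuous (`‖π(x)u-π(y)v‖ ≤ ‖u-v‖ + ‖π(x)v-π(y)v‖`), vanishing at
  `x = 1`; so there is a neighbourhood `O` of `1` with `‖π(x)u-u‖ ≤ η‖u‖` for `x ∈ O`, `u ∈ W`.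
  (Or: use an orthonormal basis of `W`.)  Then
  `‖π(f)u - u‖ = ‖∫ f(x)(π(x)u-u)‖ ≤ ∫ f(x) η‖u‖ = η‖u‖`.
-/

open MeasureTheory Filter Topology
open scoped ENNReal NNReal Matrix

noncomputable section

set_option linter.unusedSectionVars false

namespace SBD

variable {N : ℕ} {G : Type} [Group G] [TopologicalSpace G] [IsTopologicalGroup G]
  [LocallyCompactSpace G] [T2Space G]
variable [SecondCountableTopology G] [MeasurableSpace G] [BorelSpace G]
variable {H : Type} [NormedAddCommGroup H] [InnerProductSpace ℂ H] [CompleteSpace H]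

variable (π : G →* (H ≃ₗᵢ[ℂ] H)) (hc : ∀ v : H, Continuous fun g => π g v) (μ : Measure G)
  [μ.IsHaarMeasure] (f : G → ℝ) (hf : Continuous f) (hs : HasCompactSupport f)

include hc hf hs

omit [IsTopologicalGroup G] [LocallyCompactSpace G] [T2Space G] [SecondCountableTopology G]
  [μ.IsHaarMeasure] [CompleteSpace H] in
private theorem P04_int [IsFiniteMeasureOnCompacts μ] (u : H) :
    Integrable (fun x => ((f x : ℝ) : ℂ) • π x u) μ := by
  refine Continuous.integrable_of_hasCompactSupport ?_ ?_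
  · exact (Complex.continuous_ofReal.comp hf).smul (hc u)
  · exact (hs.comp_left (g := fun r : ℝ => (r : ℂ)) Complex.ofReal_zero).smul_right

theorem sm_add (u v : H) : sm π μ f (u + v) = sm π μ f u + sm π μ f v := by
  unfold sm
  rw [← integral_add (P04_int π hc μ f hf hs u) (P04_int π hc μ f hf hs v)]
  refine integral_congr_ae (Eventually.of_forall fun x => ?_)
  simp only [map_add, smul_add]

theorem sm_smul (c : ℂ) (u : H) : sm π μ f (c • u) = c • sm π μ f u := by
  unfold sm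
  rw [← integral_smul]
  refine integral_congr_ae (Eventually.of_forall fun x => ?_)
  simp only [map_smul]
  rw [smul_comm]

theorem sm_norm_le (u : H) : ‖sm π μ f u‖ ≤ (∫ x, |f x| ∂μ) * ‖u‖ := by
  unfold sm
  refine (norm_integral_le_integral_norm _).trans (le_of_eq ?_)
  rw [← integral_mul_const]
  refine integral_congr_ae (Eventually.of_forall fun x => ?_)
  simp only [norm_smul, LinearIsometryEquiv.norm_map, Complex.norm_real, Real.norm_eq_abs]

theorem sm_comm [μ.IsMulRightInvariant] (L : LieData N G)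
    (hconj : ∀ k ∈ L.K, ∀ x, f (k * x * k⁻¹) = f x) (k : G) (hk : k ∈ L.K) (u : H) :
    π k (sm π μ f u) = sm π μ f (π k u) := by
  have h1 : π k (sm π μ f u) = ∫ x, ((f x : ℝ) : ℂ) • π (k * x) u ∂μ := by
    unfold sm
    have h2 := ((π k).toContinuousLinearEquiv.toContinuousLinearMap).integral_comp_comm
      (P04_int π hc μ f hf hs u)
    have h3 : (π k) (∫ x, ((f x : ℝ) : ℂ) • π x u ∂μ) =
        ((π k).toContinuousLinearEquiv.toContinuousLinearMap) (∫ x, ((f x : ℝ) : ℂ) • π x u ∂μ) :=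
      rfl
    rw [h3, ← h2]
    refine integral_congr_ae (Eventually.of_forall fun x => ?_)
    show (π k) (((f x : ℝ) : ℂ) • π x u) = ((f x : ℝ) : ℂ) • π (k * x) u
    rw [map_smul, map_mul π k x]
    rfl
  rw [h1]
  have h4 : ∀ x, ((f x : ℝ) : ℂ) • π (k * x) u =
      (fun y => ((f y : ℝ) : ℂ) • π y (π k u)) (k * (x * k⁻¹)) := by
    intro x
    show _ = ((f (k * (x * k⁻¹)) : ℝ) : ℂ) • π (k * (x * k⁻¹)) (π k u)
    rw [← mul_assoc, hconj k hk x]
    have h5 : π (k * x) u = π (k * x * k⁻¹) (π k u) := by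
      have h6 : π (k * x) = π (k * x * k⁻¹) * π k := by
        rw [← map_mul, inv_mul_cancel_right]
      rw [h6]
      rfl
    rw [h5]
  have h7 : ∫ x, ((f x : ℝ) : ℂ) • π (k * x) u ∂μ =
      ∫ x, (fun y => ((f y : ℝ) : ℂ) • π y (π k u)) (k * (x * k⁻¹)) ∂μ :=
    integral_congr_ae (Eventually.of_forall fun x => h4 x)
  rw [h7]
  rw [integral_mul_right_eq_self (μ := μ)
    (fun x => (fun y => ((f y : ℝ) : ℂ) • π y (π k u)) (k * x)) k⁻¹]
  rw [integral_mul_left_eq_self (μ := μ) (fun y => ((f y : ℝ) : ℂ) • π y (π k u)) k]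
  rfl

theorem clm_sm (T : H →L[ℂ] H) (u : H) :
    T (sm π μ f u) = ∫ x, ((f x : ℝ) : ℂ) • T (π x u) ∂μ := by
  unfold sm
  rw [← T.integral_comp_comm (P04_int π hc μ f hf hs u)]
  refine integral_congr_ae (Eventually.of_forall fun x => ?_)
  simp only [map_smul]

theorem inner_sm (w u : H) : inner ℂ w (sm π μ f u) = ∫ x, ((f x : ℝ) : ℂ) * inner ℂ w (π x u) ∂μ := by
  unfold sm
  rw [← integral_inner (P04_int π hc μ f hf hs u) w]
  refine integral_congr_ae (Eventually.of_forall fun x => ?_)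
  simp only [inner_smul_right]

theorem sm_inner (w v : H) : inner ℂ (sm π μ f w) v = ∫ x, ((f x : ℝ) : ℂ) * inner ℂ (π x w) v ∂μ := by
  have h1 := inner_sm π hc μ f hf hs v w
  rw [← inner_conj_symm (𝕜 := ℂ) (sm π μ f w) v, h1, ← integral_conj]
  refine integral_congr_ae (Eventually.of_forall fun x => ?_)
  show (starRingEnd ℂ) (((f x : ℝ) : ℂ) * inner ℂ v (π x w)) = _
  rw [map_mul, Complex.conj_ofReal, inner_conj_symm]

omit hf hs in
theorem approx (W : Submodule ℂ H) [FiniteDimensional ℂ W] (η : ℝ) (hη : 0 < η) :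
    ∃ O ∈ 𝓝 (1 : G), ∀ f : G → ℝ, Continuous f → HasCompactSupport f → (∀ x, 0 ≤ f x) →
      (∀ x, x ∉ O → f x = 0) → ∫ x, f x ∂μ = 1 → ∀ u ∈ W, ‖sm π μ f u - u‖ ≤ η * ‖u‖ := by
  let b := stdOrthonormalBasis ℂ W
  let F : G → ℝ := fun x => ∑ i, ‖π x ((b i : W) : H) - ((b i : W) : H)‖
  have hF : Continuous F := by
    refine continuous_finsetSum _ fun i _ => ?_
    exact ((hc _).sub continuous_const).norm
  have hF1 : F 1 = 0 := by
    refine Finset.sum_eq_zero fun i _ => ?_
    rw [map_one]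
    show ‖((b i : W) : H) - ((b i : W) : H)‖ = 0
    rw [sub_self, norm_zero]
  have hpt : ∀ x : G, ∀ u ∈ W, ‖π x u - u‖ ≤ F x * ‖u‖ := by
    intro x u hu
    have h1 : u = ∑ i, (inner ℂ (b i) (⟨u, hu⟩ : W)) • ((b i : W) : H) := by
      have h2 := b.sum_repr' (⟨u, hu⟩ : W)
      have h3 := congrArg (fun w : W => (w : H)) h2
      simp only [Submodule.coe_sum, Submodule.coe_smul] at h3
      exact h3.symm
    have h4 : π x u - u = ∑ i, (inner ℂ (b i) (⟨u, hu⟩ : W)) •
        (π x ((b i : W) : H) - ((b i : W) : H)) := by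
      conv_lhs => rw [h1]
      rw [map_sum, ← Finset.sum_sub_distrib]
      refine Finset.sum_congr rfl fun i _ => ?_
      rw [map_smul, smul_sub]
    rw [h4]
    refine (norm_sum_le _ _).trans ?_
    rw [Finset.sum_mul]
    refine Finset.sum_le_sum fun i _ => ?_
    rw [norm_smul, mul_comm]
    refine mul_le_mul_of_nonneg_left ?_ (norm_nonneg _)
    refine (norm_inner_le_norm _ _).trans ?_
    rw [b.orthonormal.1 i, one_mul]
    exact le_refl _
  refine ⟨{x | F x < η}, ?_, ?_⟩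
  · exact (isOpen_lt hF continuous_const).mem_nhds (by show F 1 < η; rw [hF1]; exact hη)
  · intro f hf hs h0 hout hint u hu
    have h1 : sm π μ f u - u = ∫ x, ((f x : ℝ) : ℂ) • (π x u - u) ∂μ := by
      have h2 : ∫ x, ((f x : ℝ) : ℂ) • u ∂μ = u := by
        rw [integral_smul_const]
        have h7 : ∫ x, ((f x : ℝ) : ℂ) ∂μ = ((∫ x, f x ∂μ : ℝ) : ℂ) := integral_ofReal
        rw [h7, hint]
        simp
      have h3 : Integrable (fun x => ((f x : ℝ) : ℂ) • u) μ := by
        refine Integrable.smul_const ?_ u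
        exact (hf.integrable_of_hasCompactSupport hs).ofReal
      conv_lhs => rw [← h2]
      rw [h2]
      have h4 : sm π μ f u - u = ∫ x, ((f x : ℝ) : ℂ) • π x u ∂μ - ∫ x, ((f x : ℝ) : ℂ) • u ∂μ := by
        rw [h2]; rfl
      rw [h4, ← integral_sub (P04_int π hc μ f hf hs u) h3]
      refine integral_congr_ae (Eventually.of_forall fun x => ?_)
      simp only [smul_sub]
    rw [h1]
    have h5 : ∀ x, ‖((f x : ℝ) : ℂ) • (π x u - u)‖ ≤ f x * (η * ‖u‖) := by
      intro x
      rw [norm_smul, Complex.norm_real, Real.norm_eq_abs, abs_of_nonneg (h0 x)]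
      by_cases hx : x ∈ {x | F x < η}
      · refine mul_le_mul_of_nonneg_left ?_ (h0 x)
        refine (hpt x u hu).trans ?_
        exact mul_le_mul_of_nonneg_right (le_of_lt hx) (norm_nonneg _)
      · rw [hout x hx, zero_mul, zero_mul]
    have h6 : Integrable (fun x => f x * (η * ‖u‖)) μ :=
      (hf.integrable_of_hasCompactSupport hs).mul_const _
    refine (norm_integral_le_of_norm_le h6 (Eventually.of_forall h5)).trans ?_
    rw [integral_mul_const, hint, one_mul]

end SBD
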