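import Pool.Agent.SBD.P01
import Pool.Agent.SBD.P04
import Pool.Agent.SBD.A02

/-!
# Row SBD-C01 : the local `L²` bound for `F(v)(g) = ∑ |⟨w_i, π(g)v⟩|²`

PROOF.  `w₀ ∈ A.low Λ` for some `Λ` (`exists_low`, with `w₀` as an element of `KFin L π`).
`W' = A.low Λ` is finite-dimensional; let `w_i` be an orthonormal basis of `W'` (mapped to `H`).
`W'` is `K`-invariant (`hP.kinv` and `mem_low_iff`); since `π(k)⁻¹ = π(k⁻¹)` also preserves `W'`,
`∑_i |⟨w_i, π(k)v⟩|² = ‖P π(k) v‖² = ‖P v‖²` with `P` = orthogonal projection onto `W'`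
(`P π(k) = π(k) P`).
Let `f` be a bump function (`hP.smooth`, applied to `u = 0`, gives bump functions in every
neighbourhood `O`; choose `O` from `approx` (P04) with `W = ` image of `W'` in `H` and `η = 1/2`).
`T := π(f)` maps `W'` to `W'`: for `y ∈ A.eig lam`: `π(f)y ∈ KFin` (image of a finite-dimensional
`K`-invariant space under `π(f)`, which commutes with `π(k)`, `sm_comm`), and
`π(e(tZ))π(f)y = π(f)π(e(tZ))y` for `Z ∈ 𝔨`; differentiate (`hP.line`; `π(f)` is bounded linear):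
`D(Z)π(f)y = π(f)D(Z)y`; so `Δπ(f)y = π(f)Δy = lam π(f)y`.
As `‖Ty - y‖ ≤ ½‖y‖` on `W'`, `T|_{W'}` is bijective and `‖y‖ ≤ 2‖Ty‖`.  So `w_i = T w_i'` with
`w_i' ∈ W'`, `‖w_i'‖ ≤ 2`.
`mc π (w_i) v g = ⟨π(f)w_i', π(g)v⟩ = ∫ f(x)⟨π(x)w_i', π(g)v⟩ dx = ∫ f(x) ⟨w_i', π(x⁻¹g)v⟩ dx`
(`sm_inner`), and `|⟨w_i', π(h)v⟩|² ≤ ‖w_i'‖² F(v)(h) ≤ 4 F(v)(h)` (`w_i' = ∑ ⟨w_j,w_i'⟩ w_j`,
Cauchy–Schwarz).  Since `∫ f = 1`: `|mc π (w_i) v g|² ≤ ∫ f(x) 4 F(v)(x⁻¹g) dx
≤ 4 sup f ∫_{U} F(v)(x⁻¹g) dx`, `U = tsupport f` compact.  Sum over `i`: `C = 4 d sup f`.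
-/

open MeasureTheory Filter Topology
open scoped ENNReal NNReal Matrix

noncomputable section

namespace SBD

variable {N : ℕ} {G : Type} [Group G] [TopologicalSpace G] [IsTopologicalGroup G]
  [LocallyCompactSpace G] [T2Space G]
variable [SecondCountableTopology G] [MeasurableSpace G] [BorelSpace G]
variable {H : Type} [NormedAddCommGroup H] [InnerProductSpace ℂ H] [CompleteSpace H]

omit [SecondCountableTopology G] [IsTopologicalGroup G] [LocallyCompactSpace G] [T2Space G]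
  [Group G] in
private theorem C01_jensen (μ : Measure G) [IsFiniteMeasureOnCompacts μ] (f : G → ℝ)
    (hf : Continuous f) (hs : HasCompactSupport f) (h0 : ∀ x, 0 ≤ f x) (h1 : ∫ x, f x ∂μ = 1)
    (h : G → ℝ) (hh : Continuous h) : (∫ x, f x * h x ∂μ) ^ 2 ≤ ∫ x, f x * h x ^ 2 ∂μ := by
  set c := ∫ x, f x * h x ∂μ with hc
  have i0 : Integrable f μ := hf.integrable_of_hasCompactSupport hs
  have i1 : Integrable (fun x => f x * h x) μ :=
    (hf.mul hh).integrable_of_hasCompactSupport hs.mul_right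
  have i2 : Integrable (fun x => f x * h x ^ 2) μ :=
    (hf.mul (hh.pow 2)).integrable_of_hasCompactSupport hs.mul_right
  have e1 : ∫ x, f x * (h x - c) ^ 2 ∂μ = (∫ x, f x * h x ^ 2 ∂μ) - c ^ 2 := by
    have e2 : ∀ x, f x * (h x - c) ^ 2 = f x * h x ^ 2 - 2 * c * (f x * h x) + c ^ 2 * f x := by
      intro x
      ring
    calc ∫ x, f x * (h x - c) ^ 2 ∂μ
        = ∫ x, (f x * h x ^ 2 - 2 * c * (f x * h x) + c ^ 2 * f x) ∂μ :=
          integral_congr_ae (Filter.Eventually.of_forall e2)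
      _ = (∫ x, (f x * h x ^ 2 - 2 * c * (f x * h x)) ∂μ) + ∫ x, c ^ 2 * f x ∂μ :=
          integral_add (i2.sub (i1.const_mul _)) (i0.const_mul _)
      _ = ((∫ x, f x * h x ^ 2 ∂μ) - ∫ x, 2 * c * (f x * h x) ∂μ) + ∫ x, c ^ 2 * f x ∂μ := by
          rw [integral_sub i2 (i1.const_mul _)]
      _ = (∫ x, f x * h x ^ 2 ∂μ) - c ^ 2 := by
          rw [integral_const_mul, integral_const_mul, h1, ← hc]
          ring
  have e3 : 0 ≤ ∫ x, f x * (h x - c) ^ 2 ∂μ :=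
    integral_nonneg fun x => mul_nonneg (h0 x) (sq_nonneg _)
  linarith

private theorem C01_sum {H : Type} [NormedAddCommGroup H] [InnerProductSpace ℂ H]
    (W : Submodule ℂ H) [FiniteDimensional ℂ W] {d : ℕ} (b : OrthonormalBasis (Fin d) ℂ W)
    (u : H) : ∑ i, ‖inner ℂ ((b i : W) : H) u‖ ^ 2 = ‖W.orthogonalProjectionOnto u‖ ^ 2 := by
  rw [← b.sum_sq_norm_inner_right (W.orthogonalProjectionOnto u)]
  refine Finset.sum_congr rfl fun i _ => ?_
  rw [Submodule.inner_orthogonalProjectionOnto_eq_of_mem_left]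

private theorem C01_inv {H : Type} [NormedAddCommGroup H] [InnerProductSpace ℂ H]
    (W : Submodule ℂ H) [FiniteDimensional ℂ W] (T : H ≃ₗᵢ[ℂ] H) (hT : ∀ x ∈ W, T x ∈ W)
    (hT' : ∀ x ∈ W, T.symm x ∈ W) (v : H) :
    ‖W.orthogonalProjectionOnto (T v)‖ = ‖W.orthogonalProjectionOnto v‖ := by
  have h1 : W.orthogonalProjectionOnto (T v) =
      ⟨T (W.orthogonalProjectionOnto v : H), hT _ (W.orthogonalProjectionOnto v).2⟩ := by
    refine ext_inner_left ℂ fun x => ?_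
    rw [Submodule.inner_orthogonalProjectionOnto_eq_of_mem_left, Submodule.coe_inner]
    have e1 : inner ℂ (x : H) (T v) = inner ℂ (T.symm (x : H)) v := by
      rw [← T.inner_map_map (T.symm (x : H)) v, T.apply_symm_apply]
    have e2 : inner ℂ (x : H) (T (W.orthogonalProjectionOnto v : H)) =
        inner ℂ (T.symm (x : H)) (W.orthogonalProjectionOnto v : H) := by
      rw [← T.inner_map_map (T.symm (x : H)) (W.orthogonalProjectionOnto v : H),
        T.apply_symm_apply]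
    rw [e1]
    change _ = inner ℂ (x : H) (T (W.orthogonalProjectionOnto v : H))
    rw [e2]
    have e3 := Submodule.inner_orthogonalProjectionOnto_eq_of_mem_left
      (⟨T.symm (x : H), hT' _ x.2⟩ : W) v
    rw [Submodule.coe_inner] at e3
    exact e3.symm
  rw [h1]
  exact T.norm_map _

theorem smoothing (L : LieData N G) (π : G →* (H ≃ₗᵢ[ℂ] H)) (A : LieRep N (KFin L π))
    (hP : IsPkg L π A) (μ : Measure G) [μ.IsHaarMeasure] [μ.IsMulRightInvariant] (w₀ : H)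
    (hw₀ : w₀ ∈ KFin L π) :
    ∃ (d : ℕ) (w : Fin d → H), (∀ i, w i ∈ KFin L π) ∧ Orthonormal ℂ w ∧
      w₀ ∈ Submodule.span ℂ (Set.range w) ∧
      (∀ k ∈ L.K, ∀ v : H, ∑ i, ‖inner ℂ (w i) (π k v)‖ ^ 2 = ∑ i, ‖inner ℂ (w i) v‖ ^ 2) ∧
      ∃ U : Set G, IsCompact U ∧ ∃ C : ℝ, 0 ≤ C ∧ ∀ (v : H) (g : G),
        Fw π w v g ≤ C * ∫ x in U, Fw π w v (x⁻¹ * g) ∂μ := by
  have hc := hP.cont
  obtain ⟨Λ, -, hΛ⟩ := A.exists_low hP.adm ⟨w₀, hw₀⟩
  have hfin : FiniteDimensional ℂ (A.low Λ) := hP.adm.fin Λ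
  let WH : Submodule ℂ H := (A.low Λ).map (KFin L π).subtype
  have hWfin : FiniteDimensional ℂ WH :=
    inferInstanceAs (FiniteDimensional ℂ ((A.low Λ).map (KFin L π).subtype))
  have hWmem : ∀ y ∈ A.low Λ, ((y : KFin L π) : H) ∈ WH := fun y hy =>
    Submodule.mem_map_of_mem (f := (KFin L π).subtype) hy
  have hWKF : ∀ x ∈ WH, x ∈ KFin L π := by
    intro x hx
    obtain ⟨y, -, rfl⟩ := Submodule.mem_map.1 hx
    exact y.2
  have heigW : ∀ l ≤ Λ, ∀ y ∈ A.eig l, ((y : KFin L π) : H) ∈ WH := fun l hl y hy =>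
    hWmem y (A.eig_le_low hl hy)
  have hred : ∀ S : H →ₗ[ℂ] H, (∀ l ≤ Λ, ∀ y ∈ A.eig l, S ((y : KFin L π) : H) ∈ WH) →
      ∀ x ∈ WH, S x ∈ WH := by
    intro S hS x hx
    obtain ⟨y, hy, rfl⟩ := Submodule.mem_map.1 hx
    obtain ⟨s, f, hf, rfl⟩ := (A.mem_low_iff).1 hy
    rw [map_sum, map_sum]
    exact Submodule.sum_mem _ fun l hl => hS l (hf l hl).1 _ (hf l hl).2
  have hWK : ∀ k ∈ L.K, ∀ x ∈ WH, π k x ∈ WH := by
    intro k hk
    refine hred (π k).toLinearEquiv.toLinearMap ?_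
    intro l hl y hy
    obtain ⟨u', hu', he⟩ := hP.kinv k hk l y hy
    change π k (y : H) ∈ WH
    rw [← he]
    exact heigW l hl u' hu'
  obtain ⟨O, hO, hOf⟩ := approx π hc μ WH (1 / 2) (by norm_num)
  obtain ⟨f, Lf, hB, -⟩ := hP.smooth μ 0 (Submodule.zero_mem _) O hO
  have hap : ∀ u ∈ WH, ‖sm π μ f u - u‖ ≤ 1 / 2 * ‖u‖ :=
    hOf f hB.cont hB.supp hB.nonneg hB.out hB.int
  let Tl : H →ₗ[ℂ] H :=
    { toFun := sm π μ f
      map_add' := sm_add π hc μ f hB.cont hB.supp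
      map_smul' := sm_smul π hc μ f hB.cont hB.supp }
  have hTl : ∀ u, Tl u = sm π μ f u := fun _ => rfl
  let Tc : H →L[ℂ] H := Tl.mkContinuous (∫ x, |f x| ∂μ) (sm_norm_le π hc μ f hB.cont hB.supp)
  have hTc : ∀ u, Tc u = Tl u := fun _ => rfl
  have hTk : ∀ k ∈ L.K, ∀ u, π k (Tl u) = Tl (π k u) := fun k hk u =>
    sm_comm π hc μ f hB.cont hB.supp L hB.conj k hk u
  have hTKF : ∀ x ∈ WH, Tl x ∈ KFin L π := by
    intro x hx
    refine ⟨WH.map Tl, inferInstance, Submodule.mem_map_of_mem hx, ?_⟩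
    rintro k hk _ ⟨y, hy, rfl⟩
    exact ⟨π k y, hWK k hk y hy, (hTk k hk y).symm⟩
  have hcomm : ∀ Z ∈ L.𝔤, Zᵀ = -Z → ∀ (y z : KFin L π), (z : H) = Tl (y : H) →
      ((A.D Z z : KFin L π) : H) = Tl ((A.D Z y : KFin L π) : H) := by
    intro Z hZ hZt y z hz
    have h1 := hP.dif Z hZ z
    have h2 := hP.dif Z hZ y
    have h3 : HasDerivAt (fun t : ℝ => Tc (π (L.e (t • Z)) (y : H)))
        (Tc ((A.D Z y : KFin L π) : H)) 0 :=
      (Tc.restrictScalars ℝ).hasFDerivAt.comp_hasDerivAt (0 : ℝ) h2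
    have h4 : (fun t : ℝ => π (L.e (t • Z)) (z : H)) =
        fun t : ℝ => Tc (π (L.e (t • Z)) (y : H)) := by
      funext t
      rw [hz, hTk _ (e_mem_K L hZ hZt t)]
      rfl
    rw [h4] at h1
    exact h1.unique h3
  have hZg : ∀ i, A.Z i ∈ L.𝔤 := fun i => hP.g_eq ▸ A.Z_mem i
  have hDelH : ∀ y : KFin L π, ((A.Del y : KFin L π) : H) =
      (y : H) - ∑ i, ((A.D (A.Z i) (A.D (A.Z i) y) : KFin L π) : H) := by
    intro y
    have e1 : A.Del y = y - ∑ i, A.D (A.Z i) (A.D (A.Z i) y) := by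
      unfold LieRep.Del
      rw [LinearMap.sub_apply, LinearMap.sum_apply]
      rfl
    rw [e1, Submodule.coe_sub, Submodule.coe_sum]
  have hDel : ∀ (y z : KFin L π), (z : H) = Tl (y : H) →
      ((A.Del z : KFin L π) : H) = Tl ((A.Del y : KFin L π) : H) := by
    intro y z hz
    rw [hDelH, hDelH, map_sub, map_sum, ← hz]
    congr 1
    refine Finset.sum_congr rfl fun i _ => ?_
    exact hcomm _ (hZg i) (A.Z_t i) _ _ (hcomm _ (hZg i) (A.Z_t i) y z hz)
  have hTW : ∀ x ∈ WH, Tl x ∈ WH := by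
    refine hred Tl ?_
    intro l hl y hy
    have hz := hTKF _ (heigW l hl y hy)
    refine heigW l hl ⟨Tl (y : H), hz⟩ ?_
    have h1 : A.Del y = (l : ℂ) • y := hy
    change A.Del ⟨Tl (y : H), hz⟩ = (l : ℂ) • (⟨Tl (y : H), hz⟩ : KFin L π)
    apply Subtype.ext
    rw [hDel y ⟨Tl (y : H), hz⟩ rfl, h1, Submodule.coe_smul, Submodule.coe_smul, map_smul]
  let T' : WH →ₗ[ℂ] WH := Tl.restrict hTW
  have hT'v : ∀ y : WH, ((T' y : WH) : H) = sm π μ f (y : H) := fun _ => rfl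
  have hlow : ∀ y : WH, ‖y‖ ≤ 2 * ‖T' y‖ := by
    intro y
    have h1 := hap (y : H) y.2
    have h2 : ‖(y : H)‖ ≤ ‖sm π μ f (y : H)‖ + ‖sm π μ f (y : H) - y‖ := by
      have h3 := norm_sub_le (sm π μ f (y : H)) (sm π μ f (y : H) - y)
      rwa [sub_sub_cancel] at h3
    have h4 : ‖T' y‖ = ‖sm π μ f (y : H)‖ := rfl
    have h5 : ‖y‖ = ‖(y : H)‖ := rfl
    rw [h4, h5]
    linarith
  have hinj : Function.Injective T' := by
    rw [← LinearMap.ker_eq_bot, LinearMap.ker_eq_bot']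
    intro y hy
    have h1 := hlow y
    rw [hy, norm_zero, mul_zero] at h1
    exact norm_le_zero_iff.1 h1
  have hsur : Function.Surjective T' := LinearMap.injective_iff_surjective.1 hinj
  let b := stdOrthonormalBasis ℂ WH
  choose w' hw' using fun i => hsur (b i)
  have hw'n : ∀ i, ‖w' i‖ ≤ 2 := by
    intro i
    have h1 := hlow (w' i)
    rw [hw' i, b.norm_eq_one] at h1
    linarith
  obtain ⟨M, hM⟩ := hB.supp.exists_bound_of_continuous hB.cont
  have hM0 : 0 ≤ M := (norm_nonneg (f 1)).trans (hM 1)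
  have hMf : ∀ x, f x ≤ M := fun x => (le_abs_self _).trans (hM x)
  let w : Fin (Module.finrank ℂ WH) → H := fun i => ((b i : WH) : H)
  have hFc : ∀ (v : H) (g : G), Continuous fun x : G => Fw π w v (x⁻¹ * g) := by
    intro v g
    unfold Fw mc
    refine continuous_finsetSum _ fun i _ => ?_
    exact (continuous_const.inner ((hc v).comp (continuous_inv.mul continuous_const))).norm.pow 2
  have hFP : ∀ (v : H) (g : G), Fw π w v g = ‖WH.orthogonalProjectionOnto (π g v)‖ ^ 2 := by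
    intro v g
    unfold Fw mc
    exact C01_sum WH b (π g v)
  refine ⟨Module.finrank ℂ WH, w, fun i => hWKF _ (b i).2, ?_, ?_, ?_, tsupport f, hB.supp,
    4 * M * Module.finrank ℂ WH, by positivity, ?_⟩
  · exact b.orthonormal.comp_linearIsometry WH.subtypeₗᵢ
  · have h1 : (∑ i, b.repr ⟨w₀, hWmem _ hΛ⟩ i • b i : WH) = ⟨w₀, hWmem _ hΛ⟩ := b.sum_repr _
    have h2 := congrArg (fun z : WH => (z : H)) h1
    change ((∑ i, b.repr ⟨w₀, hWmem _ hΛ⟩ i • b i : WH) : H) = w₀ at h2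
    rw [← h2, Submodule.coe_sum]
    refine Submodule.sum_mem _ fun i _ => ?_
    rw [Submodule.coe_smul]
    exact Submodule.smul_mem _ _ (Submodule.subset_span ⟨i, rfl⟩)
  · intro k hk v
    have hk' : ∀ x ∈ WH, (π k).symm x ∈ WH := by
      intro x hx
      have h1 : (π k).symm = π k⁻¹ := by
        rw [map_inv]
        rfl
      rw [h1]
      exact hWK _ (L.K.inv_mem hk) x hx
    rw [C01_sum WH b, C01_sum WH b, C01_inv WH (π k) (hWK k hk) hk']
  · intro v g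
    have key : ∀ i, ‖mc π (w i) v g‖ ^ 2 ≤ 4 * M * ∫ x in tsupport f, Fw π w v (x⁻¹ * g) ∂μ := by
      intro i
      have hcont : Continuous fun x : G => ‖inner ℂ ((w' i : WH) : H) (π (x⁻¹ * g) v)‖ :=
        (continuous_const.inner ((hc v).comp (continuous_inv.mul continuous_const))).norm
      have e1 : mc π (w i) v g =
          ∫ x, ((f x : ℝ) : ℂ) * inner ℂ ((w' i : WH) : H) (π (x⁻¹ * g) v) ∂μ := by
        have h1 : w i = sm π μ f ((w' i : WH) : H) := by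
          rw [← hT'v, hw' i]
        unfold mc
        rw [h1, sm_inner π hc μ f hB.cont hB.supp]
        refine integral_congr_ae (Filter.Eventually.of_forall fun x => ?_)
        change ((f x : ℝ) : ℂ) * inner ℂ (π x ((w' i : WH) : H)) (π g v) = _
        congr 1
        rw [← (π x).inner_map_map ((w' i : WH) : H) (π (x⁻¹ * g) v), map_mul]
        congr 1
        rw [map_inv]
        exact ((π x).apply_symm_apply (π g v)).symm
      have e2 : ‖mc π (w i) v g‖ ≤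
          ∫ x, f x * ‖inner ℂ ((w' i : WH) : H) (π (x⁻¹ * g) v)‖ ∂μ := by
        rw [e1]
        refine (norm_integral_le_integral_norm _).trans (le_of_eq ?_)
        refine integral_congr_ae (Filter.Eventually.of_forall fun x => ?_)
        change ‖((f x : ℝ) : ℂ) * inner ℂ ((w' i : WH) : H) (π (x⁻¹ * g) v)‖ = _
        rw [norm_mul, Complex.norm_real, Real.norm_of_nonneg (hB.nonneg x)]
      have e3 : ‖mc π (w i) v g‖ ^ 2 ≤
          ∫ x, f x * ‖inner ℂ ((w' i : WH) : H) (π (x⁻¹ * g) v)‖ ^ 2 ∂μ :=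
        (pow_le_pow_left₀ (norm_nonneg _) e2 2).trans
          (C01_jensen μ f hB.cont hB.supp hB.nonneg hB.int _ hcont)
      have e4 : ∀ x, ‖inner ℂ ((w' i : WH) : H) (π (x⁻¹ * g) v)‖ ^ 2 ≤
          4 * Fw π w v (x⁻¹ * g) := by
        intro x
        rw [hFP, ← Submodule.inner_orthogonalProjectionOnto_eq_of_mem_left]
        have h5 := norm_inner_le_norm (𝕜 := ℂ) (w' i)
          (WH.orthogonalProjectionOnto (π (x⁻¹ * g) v))
        have h6 : ‖inner ℂ (w' i) (WH.orthogonalProjectionOnto (π (x⁻¹ * g) v))‖ ≤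
            2 * ‖WH.orthogonalProjectionOnto (π (x⁻¹ * g) v)‖ :=
          h5.trans (mul_le_mul_of_nonneg_right (hw'n i) (norm_nonneg _))
        calc ‖inner ℂ (w' i) (WH.orthogonalProjectionOnto (π (x⁻¹ * g) v))‖ ^ 2
            ≤ (2 * ‖WH.orthogonalProjectionOnto (π (x⁻¹ * g) v)‖) ^ 2 :=
              pow_le_pow_left₀ (norm_nonneg _) h6 2
          _ = 4 * ‖WH.orthogonalProjectionOnto (π (x⁻¹ * g) v)‖ ^ 2 := by ring
      have e5 : ∫ x, f x * ‖inner ℂ ((w' i : WH) : H) (π (x⁻¹ * g) v)‖ ^ 2 ∂μ =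
          ∫ x in tsupport f, f x * ‖inner ℂ ((w' i : WH) : H) (π (x⁻¹ * g) v)‖ ^ 2 ∂μ := by
        refine (setIntegral_eq_integral_of_forall_compl_eq_zero fun x hx => ?_).symm
        rw [image_eq_zero_of_notMem_tsupport hx, zero_mul]
      have e6 : ∫ x in tsupport f, f x * ‖inner ℂ ((w' i : WH) : H) (π (x⁻¹ * g) v)‖ ^ 2 ∂μ ≤
          ∫ x in tsupport f, 4 * M * Fw π w v (x⁻¹ * g) ∂μ := by
        refine integral_mono ?_ ?_ fun x => ?_
        · exact ((hB.cont.mul (hcont.pow 2)).continuousOn).integrableOn_compact hB.supp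
        · exact ((continuous_const.mul (hFc v g)).continuousOn).integrableOn_compact hB.supp
        · have h7 := e4 x
          have h8 := hMf x
          have h9 := hB.nonneg x
          have h10 : 0 ≤ ‖inner ℂ ((w' i : WH) : H) (π (x⁻¹ * g) v)‖ ^ 2 := sq_nonneg _
          calc f x * ‖inner ℂ ((w' i : WH) : H) (π (x⁻¹ * g) v)‖ ^ 2
              ≤ M * (4 * Fw π w v (x⁻¹ * g)) := mul_le_mul h8 h7 h10 hM0
            _ = 4 * M * Fw π w v (x⁻¹ * g) := by ring
      rw [e5] at e3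
      refine (e3.trans e6).trans (le_of_eq ?_)
      exact integral_const_mul _ _
    calc Fw π w v g = ∑ i, ‖mc π (w i) v g‖ ^ 2 := rfl
      _ ≤ ∑ _i : Fin (Module.finrank ℂ WH),
          4 * M * ∫ x in tsupport f, Fw π w v (x⁻¹ * g) ∂μ := Finset.sum_le_sum fun i _ => key i
      _ = 4 * M * Module.finrank ℂ WH * ∫ x in tsupport f, Fw π w v (x⁻¹ * g) ∂μ := by
          rw [Finset.sum_const, Finset.card_univ, Fintype.card_fin, nsmul_eq_mul]
          ring

end SBD
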