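import Pool.Agent.SBD.M02
import Pool.Agent.SBD.A04

/-!
# Row SBD-C02 : rapid decay in `lam`

PROOF.  Let `u ∈ A.eig lam`.  `lam ⟨w, π(g)u⟩ = ⟨w, π(g)Δu⟩ = ⟨w,π(g)u⟩ - ∑_i ⟨w, π(g)D(Z_i)²u⟩` and by
`hP.weak` twice `⟨w, π(g)D(Z)²u⟩ = ⟨D(gZ)²w, π(g)u⟩`, `gZ := ι(g)Zι(g⁻¹) ∈ 𝔤`.  Expanding `gZ` in the
orthonormal basis `B_α` of `𝔤` (`A.basis`, `hP.g_eq`): `‖D(gZ)²w‖ ≤ ∑_{α,β} |fip(B_α,gZ)||fip(B_β,gZ)|
‖D(B_α)D(B_β)w‖ ≤ C_w fsq(gZ) ≤ C_w Θ(g)²` (`|fip(B,Y)| ≤ √(fsq Y)` for `fsq B = 1`; `fsq_ad_le`, M02).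
So `lam |⟨w,π(g)u⟩| ≤ (‖w‖ + m C_w Θ(g)²)‖u‖ ≤ C Θ(g)²‖u‖`.
-/

open MeasureTheory Filter Topology
open scoped ENNReal NNReal Matrix

noncomputable section

namespace SBD

variable {N : ℕ} {G : Type} [Group G] [TopologicalSpace G] [IsTopologicalGroup G]
  [LocallyCompactSpace G] [T2Space G]
variable {H : Type} [NormedAddCommGroup H] [InnerProductSpace ℂ H] [CompleteSpace H]

private theorem c02_fip {N : ℕ} (X Y : Mat N) :
    fip X Y = ∑ p : Fin N × Fin N, X p.1 p.2 * Y p.1 p.2 := by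
  unfold fip
  rw [Matrix.trace, Fintype.sum_prod_type, Finset.sum_comm]
  refine Finset.sum_congr rfl fun i _ => ?_
  rw [Matrix.diag_apply, Matrix.mul_apply]
  rfl

private theorem c02_cs {N : ℕ} (X Y : Mat N) : fip X Y ^ 2 ≤ fsq X * fsq Y := by
  unfold fsq
  rw [c02_fip, c02_fip, c02_fip]
  refine (Finset.sum_mul_sq_le_sq_mul_sq Finset.univ (fun p : Fin N × Fin N => X p.1 p.2)
    (fun p => Y p.1 p.2)).trans (le_of_eq ?_)
  congr 1 <;> exact Finset.sum_congr rfl fun p _ => sq _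

private theorem c02_norm {N : ℕ} {V : Type} [NormedAddCommGroup V] [InnerProductSpace ℂ V]
    (A : LieRep N V) (w : V) : ∃ S : ℝ, 0 ≤ S ∧ ∀ Y ∈ A.𝔤, ‖A.D Y (A.D Y w)‖ ≤ fsq Y * S := by
  let B : Fin A.m ⊕ Fin A.n → Mat N := Sum.elim A.Z A.P
  have hB : ∀ α, fsq (B α) = 1 := by
    intro α
    rcases α with a | b
    · show fip (A.Z a) (A.Z a) = 1
      rw [A.Z_o, if_pos rfl]
    · show fip (A.P b) (A.P b) = 1
      rw [A.P_o, if_pos rfl]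
  have hexp : ∀ Y ∈ A.𝔤, ∀ x : V, A.D Y x = ∑ α, ((fip (B α) Y : ℝ) : ℂ) • A.D (B α) x := by
    intro Y hY x
    conv_lhs => rw [A.basis Y hY]
    rw [map_add, map_sum, map_sum, LinearMap.add_apply, LinearMap.sum_apply, LinearMap.sum_apply,
      Fintype.sum_sum_type]
    congr 1
    · refine Finset.sum_congr rfl fun a _ => ?_
      rw [map_smul]
      rfl
    · refine Finset.sum_congr rfl fun a _ => ?_
      rw [map_smul]
      rfl
  refine ⟨∑ α, ∑ β, ‖A.D (B α) (A.D (B β) w)‖, Finset.sum_nonneg fun _ _ =>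
    Finset.sum_nonneg fun _ _ => norm_nonneg _, ?_⟩
  intro Y hY
  rw [hexp Y hY, Finset.mul_sum]
  refine (norm_sum_le _ _).trans (Finset.sum_le_sum fun α _ => ?_)
  rw [hexp Y hY w, map_sum, Finset.smul_sum, Finset.mul_sum]
  refine (norm_sum_le _ _).trans (Finset.sum_le_sum fun β _ => ?_)
  rw [map_smul, smul_smul, norm_smul]
  refine mul_le_mul_of_nonneg_right ?_ (norm_nonneg _)
  rw [← Complex.ofReal_mul, Complex.norm_real, Real.norm_eq_abs, abs_le]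
  have h1 := c02_cs (B α) Y
  have h2 := c02_cs (B β) Y
  rw [hB, one_mul] at h1 h2
  constructor
  · nlinarith [sq_nonneg (fip (B α) Y + fip (B β) Y)]
  · nlinarith [sq_nonneg (fip (B α) Y - fip (B β) Y)]

theorem rapid (L : LieData N G) (π : G →* (H ≃ₗᵢ[ℂ] H)) (A : LieRep N (KFin L π))
    (hP : IsPkg L π A) (w : H) (hw : w ∈ KFin L π) : ∃ C : ℝ, 0 < C ∧ ∀ lam : ℝ, 1 ≤ lam →
      ∀ u ∈ A.eig lam, ∀ g : G, ‖mc π w (u : H) g‖ ≤ C * (Th L g ^ 2 / lam) * ‖u‖ := by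
  obtain ⟨S, hS0, hS⟩ := c02_norm A (⟨w, hw⟩ : KFin L π)
  refine ⟨‖w‖ + A.m * S + 1, by positivity, ?_⟩
  intro lam hlam u hu g
  have hlam0 : 0 < lam := lt_of_lt_of_le one_pos hlam
  have hTh : 1 ≤ Th L g ^ 2 := one_le_pow₀ (one_le_Th L g)
  have hpi : ∀ x : H, ‖π g x‖ = ‖x‖ := fun x => (π g).norm_map x
  -- the two uses of the weak formula
  have hZ : ∀ i, inner ℂ w (π g ((A.D (A.Z i) (A.D (A.Z i) u) : KFin L π) : H)) =
      inner ℂ ((A.D (L.ι g * A.Z i * L.ι g⁻¹) (A.D (L.ι g * A.Z i * L.ι g⁻¹)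
        (⟨w, hw⟩ : KFin L π)) : KFin L π) : H) (π g (u : H)) := by
    intro i
    have hZm : A.Z i ∈ L.𝔤 := hP.g_eq ▸ A.Z_mem i
    have e1 := hP.weak (A.Z i) hZm (⟨w, hw⟩ : KFin L π) (A.D (A.Z i) u) g
    have e2 := hP.weak (A.Z i) hZm (A.D (L.ι g * A.Z i * L.ι g⁻¹) (⟨w, hw⟩ : KFin L π)) u g
    rw [e2, neg_neg] at e1
    exact e1
  have hbd : ∀ i, ‖inner ℂ w (π g ((A.D (A.Z i) (A.D (A.Z i) u) : KFin L π) : H))‖ ≤
      Th L g ^ 2 * S * ‖u‖ := by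
    intro i
    rw [hZ i]
    have hYm : L.ι g * A.Z i * L.ι g⁻¹ ∈ A.𝔤 := by
      rw [hP.g_eq]
      exact L.ad_mem g _ (hP.g_eq ▸ A.Z_mem i)
    have h1 := norm_inner_le_norm (𝕜 := ℂ)
      ((A.D (L.ι g * A.Z i * L.ι g⁻¹) (A.D (L.ι g * A.Z i * L.ι g⁻¹)
        (⟨w, hw⟩ : KFin L π)) : KFin L π) : H) (π g (u : H))
    rw [hpi] at h1
    refine h1.trans ?_
    refine mul_le_mul_of_nonneg_right ?_ (norm_nonneg _)
    have h2 := hS _ hYm
    refine le_trans ?_ (h2.trans ?_)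
    · exact le_rfl
    · refine mul_le_mul_of_nonneg_right ?_ hS0
      have h3 := fsq_ad_le L g (A.Z i)
      have h4 : fsq (A.Z i) = 1 := by
        show fip (A.Z i) (A.Z i) = 1
        rw [A.Z_o, if_pos rfl]
      rwa [h4, mul_one] at h3
  -- the eigenvalue equation
  have hdel : (lam : ℂ) * mc π w (u : H) g = inner ℂ w (π g (u : H)) -
      ∑ i, inner ℂ w (π g ((A.D (A.Z i) (A.D (A.Z i) u) : KFin L π) : H)) := by
    have hu' : A.Del u = (lam : ℂ) • u := hu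
    have e0 : ((A.Del u : KFin L π) : H) = (lam : ℂ) • (u : H) := by
      rw [hu']
      rfl
    have e1 : ((A.Del u : KFin L π) : H) = (u : H) -
        ∑ i, ((A.D (A.Z i) (A.D (A.Z i) u) : KFin L π) : H) := by
      unfold LieRep.Del
      rw [LinearMap.sub_apply, LinearMap.sum_apply]
      push_cast
      rfl
    unfold mc
    rw [← inner_smul_right, ← map_smul, ← e0, e1, map_sub, map_sum, inner_sub_right, inner_sum]
  have hn : lam * ‖mc π w (u : H) g‖ ≤ ‖w‖ * ‖u‖ + A.m * (Th L g ^ 2 * S * ‖u‖) := by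
    have h1 : lam * ‖mc π w (u : H) g‖ = ‖(lam : ℂ) * mc π w (u : H) g‖ := by
      rw [norm_mul, Complex.norm_real, Real.norm_of_nonneg hlam0.le]
    rw [h1, hdel]
    refine (norm_sub_le _ _).trans (add_le_add ?_ ?_)
    · have h2 := norm_inner_le_norm (𝕜 := ℂ) w (π g (u : H))
      rw [hpi] at h2
      exact h2
    · refine (norm_sum_le _ _).trans ((Finset.sum_le_sum fun i _ => hbd i).trans (le_of_eq ?_))
      rw [Finset.sum_const, Finset.card_univ, Fintype.card_fin, nsmul_eq_mul]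
  have hu0 : 0 ≤ ‖u‖ := norm_nonneg _
  have hfin : lam * ‖mc π w (u : H) g‖ ≤ (‖w‖ + A.m * S + 1) * Th L g ^ 2 * ‖u‖ := by
    refine hn.trans ?_
    have h1 : ‖w‖ * ‖u‖ ≤ ‖w‖ * ‖u‖ * Th L g ^ 2 :=
      le_mul_of_one_le_right (by positivity) hTh
    have h2 : 0 ≤ Th L g ^ 2 * ‖u‖ := by positivity
    nlinarith
  have : ‖mc π w (u : H) g‖ ≤ ((‖w‖ + A.m * S + 1) * Th L g ^ 2 * ‖u‖) / lam := by
    rw [le_div_iff₀ hlam0]
    linarith
  refine this.trans (le_of_eq ?_)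
  ring

end SBD
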