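import Pool.Agent.SBD.P01

/-!
# Row SBD-M02 : the weight `Θ = Th L`

`fsq M = ∑ M_ij² ≥ 0`; Frobenius norm `√(fsq M)` is submultiplicative: `fsq (A B) ≤ fsq A * fsq B`
(Cauchy–Schwarz).
* `Th_inv` : definition.  * `Th_K_left`, `Th_K_right` : `fsq (k M) = fsq M = fsq (M k)` for orthogonal
  `k`; `ι(k) ι(k)ᵀ = 1`.
* `Th_mul_le` : `1 + ab + a'b' ≤ (1+a+a')(1+b+b')`.
* `Th_line` : `fsq(M exp(tX))^{1/2} ≤ ∑_n |t|^n/n! fsq(M X^n)^{1/2} ≤ fsq(M)^{1/2} exp(|t| fsq(X)^{1/2})`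
  (or Gronwall for `t ↦ fsq(M exp(tX))`, derivative `2 fip(M exp(tX), M exp(tX) X)`), the same for
  `ι((g e(tX))⁻¹) = exp(-tX) ι(g⁻¹)`.
* `fsq_ad_le` : `fsq(ι g X ι g⁻¹) ≤ fsq(ι g) fsq(X) fsq(ι g⁻¹) ≤ Θ(g)² fsq X`.
-/

open MeasureTheory Filter Topology
open scoped ENNReal NNReal Matrix

noncomputable section

namespace SBD

variable {N : ℕ} {G : Type} [Group G] [TopologicalSpace G] [IsTopologicalGroup G]
  [LocallyCompactSpace G] [T2Space G]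

theorem m02_fsq_eq (M : Mat N) : fsq M = ∑ i, ∑ j, M i j ^ 2 := by
  unfold fsq fip
  rw [Matrix.trace, Finset.sum_comm]
  refine Finset.sum_congr rfl fun j _ => ?_
  rw [Matrix.diag_apply, Matrix.mul_apply]
  refine Finset.sum_congr rfl fun i _ => ?_
  rw [Matrix.transpose_apply, sq]

theorem m02_fsq_nonneg (M : Mat N) : 0 ≤ fsq M := by
  rw [m02_fsq_eq]
  exact Finset.sum_nonneg fun i _ => Finset.sum_nonneg fun j _ => sq_nonneg _

theorem m02_fsq_transpose (M : Mat N) : fsq Mᵀ = fsq M := by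
  rw [m02_fsq_eq, m02_fsq_eq, Finset.sum_comm]
  rfl

theorem m02_fsq_mul_le (A B : Mat N) : fsq (A * B) ≤ fsq A * fsq B := by
  rw [m02_fsq_eq, m02_fsq_eq A, m02_fsq_eq B]
  have h1 : ∀ i j, (A * B) i j ^ 2 ≤ (∑ k, A i k ^ 2) * ∑ k, B k j ^ 2 := by
    intro i j
    rw [Matrix.mul_apply]
    exact Finset.sum_mul_sq_le_sq_mul_sq _ _ _
  calc ∑ i, ∑ j, (A * B) i j ^ 2 ≤ ∑ i, ∑ j, (∑ k, A i k ^ 2) * ∑ k, B k j ^ 2 :=
        Finset.sum_le_sum fun i _ => Finset.sum_le_sum fun j _ => h1 i j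
    _ = (∑ i, ∑ k, A i k ^ 2) * ∑ j, ∑ k, B k j ^ 2 := by
        rw [Finset.sum_mul_sum]
    _ = (∑ i, ∑ j, A i j ^ 2) * ∑ i, ∑ j, B i j ^ 2 := by
        rw [Finset.sum_comm (f := fun j k => B k j ^ 2)]

theorem m02_fsq_cont : Continuous (fun M : Mat N => fsq M) := by
  have : (fun M : Mat N => fsq M) = fun M => ∑ i, ∑ j, M i j ^ 2 := funext m02_fsq_eq
  rw [this]
  fun_prop

section frob

open scoped Matrix.Norms.Frobenius

private theorem m02_norm_sq (M : Mat N) : ‖M‖ ^ 2 = fsq M := by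
  have h0 : 0 ≤ ∑ i, ∑ j, ‖M i j‖ ^ (2 : ℝ) :=
    Finset.sum_nonneg fun i _ => Finset.sum_nonneg fun j _ => Real.rpow_nonneg (norm_nonneg _) _
  rw [Matrix.frobenius_norm_def, ← Real.rpow_natCast, ← Real.rpow_mul h0, m02_fsq_eq]
  norm_num

private theorem m02_norm_pow (M Y : Mat N) (n : ℕ) : ‖M * Y ^ n‖ ≤ ‖M‖ * ‖Y‖ ^ n := by
  induction n with
  | zero => rw [pow_zero, pow_zero, mul_one, mul_one]
  | succ n ih =>
    rw [pow_succ, pow_succ, ← mul_assoc, ← mul_assoc]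
    exact (norm_mul_le _ _).trans (mul_le_mul_of_nonneg_right ih (norm_nonneg _))

private theorem m02_norm_exp (M Y : Mat N) :
    ‖M * NormedSpace.exp Y‖ ≤ ‖M‖ * Real.exp ‖Y‖ := by
  have h1 : HasSum (fun n : ℕ => (n.factorial⁻¹ : ℝ) • Y ^ n) (NormedSpace.exp Y) :=
    NormedSpace.exp_series_hasSum_exp' (𝕂 := ℝ) Y
  have h2 := h1.mul_left M
  have h3 : HasSum (fun n : ℕ => ‖M‖ * (‖Y‖ ^ n / n.factorial)) (‖M‖ * Real.exp ‖Y‖) := by
    rw [Real.exp_eq_exp_ℝ]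
    exact (NormedSpace.expSeries_div_hasSum_exp ‖Y‖).mul_left _
  rw [← h2.tsum_eq]
  refine tsum_of_norm_bounded h3 fun n => ?_
  rw [mul_smul_comm, norm_smul, norm_inv, Real.norm_natCast]
  calc ((n.factorial : ℝ))⁻¹ * ‖M * Y ^ n‖ ≤ ((n.factorial : ℝ))⁻¹ * (‖M‖ * ‖Y‖ ^ n) :=
        mul_le_mul_of_nonneg_left (m02_norm_pow M Y n) (by positivity)
    _ = ‖M‖ * (‖Y‖ ^ n / n.factorial) := by ring

theorem m02_exp_right (M X : Mat N) (t : ℝ) :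
    fsq (M * NormedSpace.exp (t • X)) ≤ Real.exp (2 * |t| * Real.sqrt (fsq X)) * fsq M := by
  have h1 := m02_norm_exp M (t • X)
  have hX : ‖X‖ = Real.sqrt (fsq X) := by
    rw [← m02_norm_sq, Real.sqrt_sq (norm_nonneg _)]
  rw [norm_smul, Real.norm_eq_abs, hX] at h1
  have h2 := pow_le_pow_left₀ (norm_nonneg _) h1 2
  rw [m02_norm_sq, mul_pow, m02_norm_sq, ← Real.exp_nat_mul] at h2
  calc fsq (M * NormedSpace.exp (t • X)) ≤ fsq M * Real.exp ((2 : ℕ) * (|t| * √(fsq X))) := h2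
    _ = Real.exp (2 * |t| * Real.sqrt (fsq X)) * fsq M := by
        rw [mul_comm (fsq M)]
        congr 2
        push_cast
        ring

end frob

theorem m02_exp_left (M X : Mat N) (t : ℝ) :
    fsq (NormedSpace.exp (t • X) * M) ≤ Real.exp (2 * |t| * Real.sqrt (fsq X)) * fsq M := by
  have h := m02_exp_right Mᵀ Xᵀ t
  rw [m02_fsq_transpose X, m02_fsq_transpose M] at h
  rw [← m02_fsq_transpose (NormedSpace.exp (t • X) * M), Matrix.transpose_mul,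
    ← Matrix.exp_transpose, Matrix.transpose_smul]
  exact h

theorem m02_orth {k : Mat N} (hk : k * kᵀ = 1) (M : Mat N) :
    fsq (k * M) = fsq M ∧ fsq (M * k) = fsq M := by
  have hk' : kᵀ * k = 1 := mul_eq_one_comm.mp hk
  constructor
  · unfold fsq fip
    rw [Matrix.transpose_mul, Matrix.mul_assoc, ← Matrix.mul_assoc kᵀ, hk', Matrix.one_mul]
  · unfold fsq fip
    rw [Matrix.transpose_mul, Matrix.trace_mul_comm, Matrix.mul_assoc, ← Matrix.mul_assoc k, hk,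
      Matrix.one_mul, Matrix.trace_mul_comm]

variable (L : LieData N G)

theorem one_le_Th (g : G) : 1 ≤ Th L g := by
  unfold Th
  have h1 := m02_fsq_nonneg (L.ι g)
  have h2 := m02_fsq_nonneg (L.ι g⁻¹)
  linarith

theorem Th_cont : Continuous (Th L) := by
  have h1 : Continuous fun g => fsq (L.ι g) := m02_fsq_cont.comp L.ι_cont
  have h2 : Continuous fun g => fsq (L.ι g⁻¹) := m02_fsq_cont.comp (L.ι_cont.comp continuous_inv)
  exact (continuous_const.add h1).add h2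

theorem Th_inv (g : G) : Th L g⁻¹ = Th L g := by
  unfold Th
  rw [inv_inv]
  ring

theorem Th_K_left {k : G} (hk : k ∈ L.K) (g : G) : Th L (k * g) = Th L g := by
  have h1 : L.ι k * (L.ι k)ᵀ = 1 := hk
  have h2 : L.ι k⁻¹ * (L.ι k⁻¹)ᵀ = 1 := inv_mem hk
  unfold Th
  rw [mul_inv_rev, map_mul, map_mul, (m02_orth h1 _).1, (m02_orth h2 _).2]

theorem Th_K_right {k : G} (hk : k ∈ L.K) (g : G) : Th L (g * k) = Th L g := by
  have h1 : L.ι k * (L.ι k)ᵀ = 1 := hk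
  have h2 : L.ι k⁻¹ * (L.ι k⁻¹)ᵀ = 1 := inv_mem hk
  unfold Th
  rw [mul_inv_rev, map_mul, map_mul, (m02_orth h1 _).2, (m02_orth h2 _).1]

theorem Th_mul_le (g h : G) : Th L (g * h) ≤ Th L g * Th L h := by
  unfold Th
  rw [mul_inv_rev, map_mul, map_mul]
  have h1 := m02_fsq_mul_le (L.ι g) (L.ι h)
  have h2 := m02_fsq_mul_le (L.ι h⁻¹) (L.ι g⁻¹)
  have a1 := m02_fsq_nonneg (L.ι g)
  have a2 := m02_fsq_nonneg (L.ι g⁻¹)
  have a3 := m02_fsq_nonneg (L.ι h)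
  have a4 := m02_fsq_nonneg (L.ι h⁻¹)
  nlinarith [mul_nonneg a1 a3, mul_nonneg a2 a4, mul_nonneg a1 a4, mul_nonneg a2 a3]

theorem Th_line {X : Mat N} (hX : X ∈ L.𝔤) (g : G) (t : ℝ) :
    Th L (g * L.e (t • X)) ≤ Real.exp (2 * |t| * Real.sqrt (fsq X)) * Th L g := by
  have h1 : L.ι (g * L.e (t • X)) = L.ι g * NormedSpace.exp (t • X) := by
    rw [map_mul, L.ι_e _ (L.𝔤.smul_mem t hX)]
  have h2 : L.ι (g * L.e (t • X))⁻¹ = NormedSpace.exp ((-t) • X) * L.ι g⁻¹ := by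
    rw [mul_inv_rev, map_mul, ← e_neg L (L.𝔤.smul_mem t hX), ← neg_smul,
      L.ι_e _ (L.𝔤.smul_mem (-t) hX)]
  have h3 := m02_exp_right (L.ι g) X t
  have h4 := m02_exp_left (L.ι g⁻¹) X (-t)
  rw [abs_neg] at h4
  have h5 : 1 ≤ Real.exp (2 * |t| * Real.sqrt (fsq X)) :=
    Real.one_le_exp (by positivity)
  unfold Th
  rw [h1, h2]
  linarith

theorem fsq_ad_le (g : G) (X : Mat N) : fsq (L.ι g * X * L.ι g⁻¹) ≤ Th L g ^ 2 * fsq X := by
  have h1 := m02_fsq_mul_le (L.ι g * X) (L.ι g⁻¹)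
  have h2 := m02_fsq_mul_le (L.ι g) X
  have a1 := m02_fsq_nonneg (L.ι g)
  have a2 := m02_fsq_nonneg (L.ι g⁻¹)
  have a3 := m02_fsq_nonneg X
  have a4 : fsq (L.ι g) ≤ Th L g := by unfold Th; linarith
  have a5 : fsq (L.ι g⁻¹) ≤ Th L g := by unfold Th; linarith
  calc fsq (L.ι g * X * L.ι g⁻¹) ≤ fsq (L.ι g * X) * fsq (L.ι g⁻¹) := h1
    _ ≤ (fsq (L.ι g) * fsq X) * fsq (L.ι g⁻¹) := mul_le_mul_of_nonneg_right h2 a2
    _ = (fsq (L.ι g) * fsq (L.ι g⁻¹)) * fsq X := by ring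
    _ ≤ (Th L g * Th L g) * fsq X :=
        mul_le_mul_of_nonneg_right (mul_le_mul a4 a5 a2 (a1.trans a4)) a3
    _ = Th L g ^ 2 * fsq X := by ring

end SBD
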