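import Pool.Agent.SBD.P01
import Pool.Agent.SBD.M02

/-!
# Row SBD-C03 : conjugates of small elements of `K` by large elements are large

PROOF.  `N ≥ 1` since there is `Z ≠ 0`.  `‖Y‖ := √(fsq Y)`.
(a) There is `γ > 0` such that for every `X ∈ 𝔭 = {X ∈ 𝔤, Xᵀ = X}` there is `Z ∈ 𝔤`, `Zᵀ = -Z`, `fsq Z = 1`
with `fsq(XZ - ZX) ≥ γ² fsq X`: with an orthonormal basis `Z_j` of `𝔨` (P01 `exists_bases`; nonempty),
`X ↦ ∑_j fsq(XZ_j - Z_jX)` is continuous, and positive on the compact unit sphere of `𝔭` by `L.ss`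
(a `Z ∈ 𝔨` not commuting with `X` is a combination of the `Z_j`); so `≥ mγ²` there; homogeneity.
(If `𝔭 = 0` any unit `Z ∈ 𝔨`, `γ = 1`.)
(b) Let `g = k e(X)` (`L.polar`), `X ∈ 𝔭`, `Z` as in (a).  `ι(g e(sZ) g⁻¹) = k exp(X)exp(sZ)exp(-X) kᵀ`, so
`fsq` of it is `fsq(exp(X)exp(sZ)exp(-X))`.  `Θ(g) = 1 + fsq(exp X) + fsq(exp(-X)) ≤ (1+2N)e^{2‖X‖}`
(`fsq(exp X) ≤ N e^{2‖X‖}`, as in M02).
Spectral theorem: `X = O diag(x) Oᵀ`, `O` orthogonal (`Matrix.IsHermitian.spectral_theorem` over `ℝ`);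
`exp X = O diag(e^x) Oᵀ` (`Matrix.exp_conj`, `Matrix.exp_diagonal`).  Put `Z' = OᵀZO` (skew, `fsq Z' = 1`).
`Oᵀ(exp(X)exp(sZ)exp(-X))O` has entries `e^{x_i-x_j} exp(sZ')_{ij}`, and
`fsq(XZ-ZX) = ∑ (x_i-x_j)² Z'_{ij}² ≥ γ²‖X‖²`.
(c) `‖X‖ ≥ 1`: there are `i,j` with `(x_i-x_j)²Z'_{ij}² ≥ γ²‖X‖²/N²`; since `|x_i-x_j| ≤ 2‖X‖`,
`|Z'_{ij}| ≥ γ/(2N)`; since `|Z'_{ij}| ≤ 1`, `|x_i-x_j| ≥ γ‖X‖/N`; exchanging `i,j` (`Z'` is skew) we may
assume `x_i - x_j ≥ γ‖X‖/N > 0`.  `i ≠ j`, and `|exp(sZ')_{ij} - sZ'_{ij}| ≤ 2s²` for `|s| ≤ 1`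
(`‖exp(sZ') - 1 - sZ'‖ ≤ ∑_{n≥2} |s|^n/n!`).  So for `|s| ≤ t₀ := min(1/2, γ/(8N))`:
`|exp(sZ')_{ij}| ≥ |s|γ/(4N)` and `fsq ≥ e^{2γ‖X‖/N} s²γ²/(16N²)`.  With `κ = γ/N`,
`Θ(g)^κ ≤ (1+2N)^κ e^{2κ‖X‖}`: fine with `c ≤ γ²/(16N²(1+2N)^κ)`.
(d) `‖X‖ < 1`: `Θ(g)^κ ≤ ((1+2N)e²)^κ`, and `fsq(M) ≥ (tr M)²/N` with `M = exp(X)exp(sZ)exp(-X)`,
`tr M = tr exp(sZ) ≥ N(1-2s²) ≥ N/2` for `|s| ≤ 1/2`; so `fsq ≥ N/4`: fine for small `c`.
-/

open MeasureTheory Filter Topology
open scoped ENNReal NNReal Matrix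

noncomputable section

namespace SBD

variable {N : ℕ}

theorem c03_fsq (X : Mat N) : fsq X = ∑ i, ∑ j, X i j ^ 2 := by
  unfold fsq fip
  simp only [Matrix.trace, Matrix.diag_apply, Matrix.mul_apply, Matrix.transpose_apply]
  rw [Finset.sum_comm]
  exact Finset.sum_congr rfl fun i _ => Finset.sum_congr rfl fun j _ => by ring

theorem c03_fsq_nonneg (X : Mat N) : 0 ≤ fsq X := by
  rw [c03_fsq]
  positivity

theorem c03_entry (X : Mat N) (i j : Fin N) : X i j ^ 2 ≤ fsq X := by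
  rw [c03_fsq]
  have h1 := Finset.single_le_sum (f := fun i => ∑ j, X i j ^ 2)
    (fun i _ => Finset.sum_nonneg fun j _ => sq_nonneg _) (Finset.mem_univ i)
  have h2 := Finset.single_le_sum (f := fun j => X i j ^ 2)
    (fun j _ => sq_nonneg _) (Finset.mem_univ j)
  exact h2.trans h1

theorem c03_fsq_orth (O A : Mat N) (h1 : O * Oᵀ = 1) :
    fsq (Oᵀ * A * O) = fsq A := by
  unfold fsq fip
  rw [Matrix.transpose_mul, Matrix.transpose_mul, Matrix.transpose_transpose]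
  calc (Oᵀ * (Aᵀ * O) * (Oᵀ * A * O)).trace = (Oᵀ * (Aᵀ * (O * Oᵀ) * A) * O).trace := by
        simp only [Matrix.mul_assoc]
    _ = (Oᵀ * (Aᵀ * A) * O).trace := by rw [h1, Matrix.mul_one]
    _ = (O * (Oᵀ * (Aᵀ * A))).trace := Matrix.trace_mul_comm _ _
    _ = (Aᵀ * A).trace := by rw [← Matrix.mul_assoc, h1, Matrix.one_mul]

theorem c03_diag (X : Mat N) (hX : Xᵀ = X) : ∃ (O : Mat N) (x : Fin N → ℝ),
    O * Oᵀ = 1 ∧ Oᵀ * O = 1 ∧ X = O * Matrix.diagonal x * Oᵀ := by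
  have hH : X.IsHermitian := by
    rw [Matrix.IsHermitian, Matrix.conjTranspose_eq_transpose_of_trivial]
    exact hX
  refine ⟨(hH.eigenvectorUnitary : Mat N), hH.eigenvalues, ?_, ?_, ?_⟩
  · have h1 := Unitary.coe_mul_star_self hH.eigenvectorUnitary
    rwa [Unitary.coe_star, Matrix.star_eq_conjTranspose, Matrix.conjTranspose_eq_transpose_of_trivial] at h1
  · have h1 := Unitary.coe_star_mul_self hH.eigenvectorUnitary
    rwa [Matrix.star_eq_conjTranspose, Matrix.conjTranspose_eq_transpose_of_trivial] at h1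
  · have h1 := hH.spectral_theorem
    rw [Unitary.conjStarAlgAut_apply, Matrix.star_eq_conjTranspose,
      Matrix.conjTranspose_eq_transpose_of_trivial] at h1
    exact h1

theorem c03_exp_conj (O A : Mat N) (h1 : O * Oᵀ = 1) :
    NormedSpace.exp (O * A * Oᵀ) = O * NormedSpace.exp A * Oᵀ := by
  have h2 : O⁻¹ = Oᵀ := Matrix.inv_eq_right_inv h1
  have h3 : IsUnit O := (Matrix.isUnit_iff_isUnit_det O).2 (by
    have h4 := congrArg Matrix.det h1
    rw [Matrix.det_mul, Matrix.det_one] at h4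
    exact IsUnit.of_mul_eq_one _ h4)
  rw [← h2]
  exact Matrix.exp_conj O A h3

theorem c03_exp_diagonal (x : Fin N → ℝ) :
    NormedSpace.exp (Matrix.diagonal x : Mat N) = Matrix.diagonal (fun i => Real.exp (x i)) := by
  rw [Matrix.exp_diagonal]
  congr 1
  funext i
  rw [Pi.coe_exp, Real.exp_eq_exp_ℝ]

section

attribute [local instance] Matrix.linftyOpNormedRing Matrix.linftyOpNormedAlgebra

theorem c03_exp_norm (A : Mat N) (hA : ‖A‖ ≤ 1) : ‖NormedSpace.exp A - 1 - A‖ ≤ ‖A‖ ^ 2 := by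
  have h1 : HasSum (fun n : ℕ => ((n.factorial : ℝ)⁻¹) • A ^ n) (NormedSpace.exp A) :=
    NormedSpace.exp_series_hasSum_exp' (𝕂 := ℝ) A
  have h2 : HasSum (fun n : ℕ => ((n.factorial : ℝ)⁻¹) • ‖A‖ ^ n) (Real.exp ‖A‖) := by
    rw [Real.exp_eq_exp_ℝ]
    exact NormedSpace.exp_series_hasSum_exp' (𝕂 := ℝ) ‖A‖
  have h3 := (hasSum_nat_add_iff' 2).2 h1
  have h4 := (hasSum_nat_add_iff' 2).2 h2
  have h5 := h3.norm_le_of_bounded h4 (fun n => by
    rw [norm_smul, norm_inv, Real.norm_natCast, smul_eq_mul]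
    apply mul_le_mul_of_nonneg_left _ (by positivity)
    exact norm_pow_le' A (by omega))
  simp only [Finset.sum_range_succ, Finset.sum_range_zero, Nat.factorial, Nat.cast_one, inv_one,
    pow_zero, pow_one, one_smul, zero_add, Nat.mul_one] at h5
  rw [sub_sub]
  refine h5.trans ?_
  have h6 := Real.abs_exp_sub_one_sub_id_le (x := ‖A‖) (by rwa [abs_norm])
  have h7 := le_abs_self (Real.exp ‖A‖ - 1 - ‖A‖)
  linarith

theorem c03_norm_le (A : Mat N) (a : ℝ) (ha : 0 ≤ a) (h : ∀ i j, |A i j| ≤ a) : ‖A‖ ≤ N * a := by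
  have h0 : (0 : ℝ) ≤ N * a := by positivity
  rw [Matrix.linfty_opNorm_def]
  have h1 : (Finset.univ : Finset (Fin N)).sup (fun i => ∑ j, ‖A i j‖₊) ≤ ⟨N * a, h0⟩ := by
    apply Finset.sup_le
    intro i _
    rw [← NNReal.coe_le_coe]
    push_cast
    calc ∑ j, ‖A i j‖ ≤ ∑ j : Fin N, a := Finset.sum_le_sum fun j _ => h i j
      _ = N * a := by simp
  exact_mod_cast h1

theorem c03_entry_le_norm (A : Mat N) (i j : Fin N) : |A i j| ≤ ‖A‖ := by
  rw [Matrix.linfty_opNorm_def]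
  have h1 : ‖A i j‖₊ ≤ (Finset.univ : Finset (Fin N)).sup (fun i => ∑ j, ‖A i j‖₊) := by
    have h2 : ∑ j, ‖A i j‖₊ ≤ (Finset.univ : Finset (Fin N)).sup (fun i => ∑ j, ‖A i j‖₊) :=
      Finset.le_sup (f := fun i => ∑ j, ‖A i j‖₊) (Finset.mem_univ i)
    have h3 : ‖A i j‖₊ ≤ ∑ j, ‖A i j‖₊ :=
      Finset.single_le_sum (f := fun j => ‖A i j‖₊) (fun _ _ => zero_le) (Finset.mem_univ j)
    exact h3.trans h2
  exact_mod_cast h1

theorem c03_exp_entry (A : Mat N) (hA : fsq A ≤ 1) (s : ℝ) (hs : N * |s| ≤ 1) (i j : Fin N)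
    (hij : i ≠ j) : |NormedSpace.exp (s • A) i j - s * A i j| ≤ (N * |s|) ^ 2 := by
  have h1 : ∀ i j, |A i j| ≤ 1 := fun i j => by
    have := (c03_entry A i j).trans hA
    rwa [sq_le_one_iff_abs_le_one] at this
  have h2 : ‖s • A‖ ≤ N * |s| := by
    apply c03_norm_le _ _ (abs_nonneg s)
    intro i j
    rw [Matrix.smul_apply, smul_eq_mul, abs_mul]
    calc |s| * |A i j| ≤ |s| * 1 := mul_le_mul_of_nonneg_left (h1 i j) (abs_nonneg s)
      _ = |s| := mul_one _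
  have h3 := c03_exp_norm (s • A) (h2.trans hs)
  have h4 := c03_entry_le_norm (NormedSpace.exp (s • A) - 1 - s • A) i j
  rw [Matrix.sub_apply, Matrix.sub_apply, Matrix.one_apply_ne hij, sub_zero, Matrix.smul_apply,
    smul_eq_mul] at h4
  refine h4.trans (h3.trans ?_)
  exact pow_le_pow_left₀ (norm_nonneg _) h2 2

end


theorem c03_key (hN : 1 ≤ N) (X Z : Mat N) (hX : Xᵀ = X) (hZ : Zᵀ = -Z) (hZ1 : fsq Z = 1)
    (ρ : ℝ) (hρ : 0 < ρ) (hX0 : 0 < fsq X) (h : ρ ^ 2 * fsq X ≤ fsq (X * Z - Z * X)) (s : ℝ)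
    (hs1 : N * |s| ≤ 1) (hs2 : |s| ≤ ρ / (4 * N ^ 3)) :
    Real.exp (2 * (ρ / N) * Real.sqrt (fsq X)) * (s ^ 2 * (ρ ^ 2 / (16 * N ^ 2))) ≤
      fsq (NormedSpace.exp X * NormedSpace.exp (s • Z) * NormedSpace.exp (-X)) := by
  have hN0 : (0 : ℝ) < N := by exact_mod_cast hN
  obtain ⟨O, x, h1, h2, hXO⟩ := c03_diag X hX
  set Z' : Mat N := Oᵀ * Z * O with hZ'
  have hZZ' : Z = O * Z' * Oᵀ := by
    rw [hZ']
    calc Z = (O * Oᵀ) * Z * (O * Oᵀ) := by rw [h1, Matrix.one_mul, Matrix.mul_one]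
      _ = _ := by simp only [Matrix.mul_assoc]
  have hZ't : Z'ᵀ = -Z' := by
    rw [hZ', Matrix.transpose_mul, Matrix.transpose_mul, Matrix.transpose_transpose, hZ]
    simp [Matrix.mul_assoc]
  have hZ'1 : fsq Z' = 1 := by rw [hZ', c03_fsq_orth O Z h1, hZ1]
  have hn : Real.sqrt (fsq X) ^ 2 = fsq X := Real.sq_sqrt hX0.le
  have hn0 : 0 < Real.sqrt (fsq X) := Real.sqrt_pos.2 hX0
  set n : ℝ := Real.sqrt (fsq X) with hndef
  -- the norm of `X`
  have hfx : fsq X = ∑ i, x i ^ 2 := by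
    have e1 : fsq (Oᵀ * X * O) = fsq X := c03_fsq_orth O X h1
    have e2 : Oᵀ * X * O = Matrix.diagonal x := by
      rw [hXO]
      calc Oᵀ * (O * Matrix.diagonal x * Oᵀ) * O = (Oᵀ * O) * Matrix.diagonal x * (Oᵀ * O) := by
            simp only [Matrix.mul_assoc]
        _ = _ := by rw [h2, Matrix.one_mul, Matrix.mul_one]
    rw [← e1, e2, c03_fsq]
    apply Finset.sum_congr rfl
    intro i _
    rw [Finset.sum_eq_single i]
    · rw [Matrix.diagonal_apply_eq]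
    · intro j _ hj
      rw [Matrix.diagonal_apply_ne _ hj.symm]
      ring
    · intro hi
      exact absurd (Finset.mem_univ i) hi
  have hxi : ∀ i, |x i| ≤ n := by
    intro i
    apply abs_le_of_sq_le_sq _ hn0.le
    rw [hn, hfx]
    exact Finset.single_le_sum (f := fun i => x i ^ 2) (fun _ _ => sq_nonneg _)
      (Finset.mem_univ i)
  -- the commutator
  have hcomm : fsq (X * Z - Z * X) = ∑ i, ∑ j, ((x i - x j) * Z' i j) ^ 2 := by
    rw [← c03_fsq_orth O (X * Z - Z * X) h1]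
    have e2 : Oᵀ * (X * Z - Z * X) * O = Matrix.diagonal x * Z' - Z' * Matrix.diagonal x := by
      rw [hXO, hZ']
      calc Oᵀ * (O * Matrix.diagonal x * Oᵀ * Z - Z * (O * Matrix.diagonal x * Oᵀ)) * O
          = (Oᵀ * O) * Matrix.diagonal x * (Oᵀ * Z * O) -
              (Oᵀ * Z * O) * Matrix.diagonal x * (Oᵀ * O) := by
            simp only [Matrix.mul_assoc, Matrix.mul_sub, Matrix.sub_mul]
        _ = _ := by rw [h2, Matrix.one_mul, Matrix.mul_one]
    rw [e2, c03_fsq]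
    apply Finset.sum_congr rfl
    intro i _
    apply Finset.sum_congr rfl
    intro j _
    rw [Matrix.sub_apply, Matrix.diagonal_mul, Matrix.mul_diagonal]
    ring
  -- a large entry
  have hbig : ∃ i j, (ρ * n / N) ^ 2 ≤ ((x i - x j) * Z' i j) ^ 2 := by
    by_contra hcon
    push Not at hcon
    have e1 : ∑ i, ∑ j, ((x i - x j) * Z' i j) ^ 2 < ∑ i : Fin N, ∑ j : Fin N, (ρ * n / N) ^ 2 := by
      have hne : (Finset.univ : Finset (Fin N)).Nonempty := ⟨⟨0, by omega⟩, Finset.mem_univ _⟩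
      apply Finset.sum_lt_sum_of_nonempty hne
      intro i _
      apply Finset.sum_lt_sum_of_nonempty hne
      intro j _
      exact hcon i j
    rw [← hcomm] at e1
    have e2 : ∑ i : Fin N, ∑ j : Fin N, (ρ * n / N) ^ 2 = ρ ^ 2 * fsq X := by
      simp only [Finset.sum_const, Finset.card_univ, Fintype.card_fin, nsmul_eq_mul]
      rw [← hn]
      field_simp
    linarith
  have hentry : ∀ i j, |Z' i j| ≤ 1 := fun i j => by
    have := (c03_entry Z' i j).trans hZ'1.le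
    rwa [sq_le_one_iff_abs_le_one] at this
  have hbig2 : ∃ i j, ρ * n / N ≤ x i - x j ∧ ρ / (2 * N) ≤ |Z' i j| := by
    obtain ⟨i, j, hij⟩ := hbig
    have e0 : 0 < ρ * n / N := by positivity
    have e1 : ρ * n / N ≤ |x i - x j| * |Z' i j| := by
      rw [← abs_mul]
      rw [← sq_abs ((x i - x j) * Z' i j)] at hij
      exact (pow_le_pow_iff_left₀ e0.le (abs_nonneg _) two_ne_zero).1 hij
    have e2 : ρ * n / N ≤ |x i - x j| := by
      have := mul_le_mul_of_nonneg_left (hentry i j) (abs_nonneg (x i - x j))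
      linarith
    have e3 : |x i - x j| ≤ 2 * n := by
      have := abs_sub (x i) (x j)
      linarith [hxi i, hxi j]
    have e4 : ρ / (2 * N) ≤ |Z' i j| := by
      have e5 : ρ * n / N ≤ (2 * n) * |Z' i j| :=
        e1.trans (mul_le_mul_of_nonneg_right e3 (abs_nonneg _))
      have e6 : (2 * n) * (ρ / (2 * N)) ≤ (2 * n) * |Z' i j| := by
        have e7 : (2 * n) * (ρ / (2 * N)) = ρ * n / N := by field_simp
        rw [e7]
        exact e5
      exact le_of_mul_le_mul_left e6 (by positivity)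
    rcases le_total (x j) (x i) with hle | hle
    · exact ⟨i, j, by rwa [abs_of_nonneg (by linarith)] at e2, e4⟩
    · refine ⟨j, i, ?_, ?_⟩
      · rw [abs_of_nonpos (by linarith)] at e2
        linarith
      · have e8 : Z' j i = -Z' i j := by
          have := congrFun (congrFun hZ't i) j
          rwa [Matrix.transpose_apply, Matrix.neg_apply] at this
        rw [e8, abs_neg]
        exact e4
  obtain ⟨i, j, hij1, hij2⟩ := hbig2
  have hne : i ≠ j := by
    rintro rfl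
    rw [sub_self] at hij1
    have : 0 < ρ * n / N := by positivity
    linarith
  -- the entry of `exp (s Z')`
  have hE := c03_exp_entry Z' hZ'1.le s hs1 i j hne
  have hE2 : |s| * (ρ / (4 * N)) ≤ |NormedSpace.exp (s • Z') i j| := by
    have e1 : |s * Z' i j| ≤ |NormedSpace.exp (s • Z') i j| +
        |NormedSpace.exp (s • Z') i j - s * Z' i j| := by
      have := abs_sub (NormedSpace.exp (s • Z') i j) (NormedSpace.exp (s • Z') i j - s * Z' i j)
      rwa [sub_sub_cancel] at this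
    have e2 : |s| * (ρ / (2 * N)) ≤ |s * Z' i j| := by
      rw [abs_mul]
      exact mul_le_mul_of_nonneg_left hij2 (abs_nonneg s)
    have e3 : (N * |s|) ^ 2 ≤ |s| * (ρ / (4 * N)) := by
      have e4 : |s| * |s| ≤ |s| * (ρ / (4 * N ^ 3)) :=
        mul_le_mul_of_nonneg_left hs2 (abs_nonneg s)
      calc (N * |s|) ^ 2 = N ^ 2 * (|s| * |s|) := by ring
        _ ≤ N ^ 2 * (|s| * (ρ / (4 * N ^ 3))) := mul_le_mul_of_nonneg_left e4 (by positivity)
        _ = |s| * (ρ / (4 * N)) := by field_simp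
    have e5 : |s| * (ρ / (2 * N)) = 2 * (|s| * (ρ / (4 * N))) := by
      field_simp
      norm_num
    linarith
  -- the conjugated matrix
  have hM : fsq (NormedSpace.exp X * NormedSpace.exp (s • Z) * NormedSpace.exp (-X)) =
      fsq (Matrix.diagonal (fun i => Real.exp (x i)) * NormedSpace.exp (s • Z') *
        Matrix.diagonal (fun i => Real.exp (-x i))) := by
    have e1 : NormedSpace.exp X = O * Matrix.diagonal (fun i => Real.exp (x i)) * Oᵀ := by
      rw [hXO, c03_exp_conj O _ h1, c03_exp_diagonal]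
    have e2 : NormedSpace.exp (-X) = O * Matrix.diagonal (fun i => Real.exp (-x i)) * Oᵀ := by
      have e3 : -X = O * Matrix.diagonal (fun i => -x i) * Oᵀ := by
        have e4 : Matrix.diagonal (fun i => -x i) = -Matrix.diagonal x := by
          ext a b
          by_cases hab : a = b
          · subst hab; simp
          · simp [Matrix.diagonal_apply_ne _ hab]
        rw [e4, Matrix.mul_neg, Matrix.neg_mul, ← hXO]
      rw [e3, c03_exp_conj O _ h1, c03_exp_diagonal]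
    have e3 : NormedSpace.exp (s • Z) = O * NormedSpace.exp (s • Z') * Oᵀ := by
      rw [← c03_exp_conj O _ h1]
      congr 1
      conv_lhs => rw [hZZ']
      simp
    rw [← c03_fsq_orth O (NormedSpace.exp X * NormedSpace.exp (s • Z) * NormedSpace.exp (-X)) h1,
      e1, e2, e3]
    congr 1
    calc Oᵀ * (O * Matrix.diagonal (fun i => Real.exp (x i)) * Oᵀ *
          (O * NormedSpace.exp (s • Z') * Oᵀ) *
          (O * Matrix.diagonal (fun i => Real.exp (-x i)) * Oᵀ)) * O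
        = (Oᵀ * O) * Matrix.diagonal (fun i => Real.exp (x i)) * (Oᵀ * O) *
          NormedSpace.exp (s • Z') * (Oᵀ * O) *
          Matrix.diagonal (fun i => Real.exp (-x i)) * (Oᵀ * O) := by
          simp only [Matrix.mul_assoc]
      _ = _ := by
          rw [h2]
          simp only [Matrix.one_mul, Matrix.mul_one]
  rw [hM]
  refine le_trans ?_ (c03_entry _ i j)
  rw [Matrix.mul_diagonal, Matrix.diagonal_mul]
  have e1 : (Real.exp (x i) * NormedSpace.exp (s • Z') i j * Real.exp (-x j)) ^ 2 =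
      Real.exp (2 * (x i - x j)) * |NormedSpace.exp (s • Z') i j| ^ 2 := by
    rw [sq_abs, show 2 * (x i - x j) = (x i + -x j) + (x i + -x j) by ring, Real.exp_add,
      Real.exp_add]
    ring
  rw [e1]
  have e2 : Real.exp (2 * (ρ / N) * n) ≤ Real.exp (2 * (x i - x j)) := by
    apply Real.exp_le_exp.2
    have : 2 * (ρ / N) * n = 2 * (ρ * n / N) := by ring
    linarith
  have e3 : s ^ 2 * (ρ ^ 2 / (16 * N ^ 2)) ≤ |NormedSpace.exp (s • Z') i j| ^ 2 := by
    have e4 : s ^ 2 * (ρ ^ 2 / (16 * N ^ 2)) = (|s| * (ρ / (4 * N))) ^ 2 := by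
      rw [mul_pow, sq_abs, div_pow]
      ring
    rw [e4]
    exact pow_le_pow_left₀ (by positivity) hE2 2
  exact mul_le_mul e2 e3 (by positivity) (Real.exp_pos _).le


theorem c03_fip_comm (A B : Mat N) : fip A B = fip B A := by
  unfold fip
  rw [← Matrix.trace_transpose, Matrix.transpose_mul, Matrix.transpose_transpose]

theorem c03_fsq_smul (t : ℝ) (A : Mat N) : fsq (t • A) = t ^ 2 * fsq A := by
  rw [c03_fsq, c03_fsq, Finset.mul_sum]
  apply Finset.sum_congr rfl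
  intro i _
  rw [Finset.mul_sum]
  apply Finset.sum_congr rfl
  intro j _
  rw [Matrix.smul_apply, smul_eq_mul]
  ring

theorem c03_fsq_cont : Continuous (fun A : Mat N => fsq A) := by
  have h1 : (fun A : Mat N => fsq A) = fun A : Mat N => ∑ i, ∑ j, A i j ^ 2 := by
    funext A; exact c03_fsq A
  rw [h1]
  refine continuous_finsetSum _ fun i _ => continuous_finsetSum _ fun j _ => ?_
  exact (continuous_id.matrix_elem i j).pow 2

theorem c03_fsq_eq_zero {A : Mat N} (h : fsq A = 0) : A = 0 := by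
  ext i j
  have h1 := c03_entry A i j
  rw [h] at h1
  have h2 : A i j ^ 2 = 0 := le_antisymm h1 (sq_nonneg _)
  simpa using h2

variable {G : Type} [Group G] [TopologicalSpace G] [IsTopologicalGroup G]
  [LocallyCompactSpace G] [T2Space G]

omit [IsTopologicalGroup G] [LocallyCompactSpace G] [T2Space G] in
theorem c03_sphere (L : LieData N G) :
    IsCompact {X : Mat N | X ∈ L.𝔤 ∧ Xᵀ = X ∧ fsq X = 1} := by
  have hbox : IsCompact (Set.pi Set.univ fun _ : Fin N =>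
      Set.pi Set.univ fun _ : Fin N => Set.Icc (-1 : ℝ) 1) :=
    isCompact_univ_pi fun _ => isCompact_univ_pi fun _ => isCompact_Icc
  have hcl : IsClosed {X : Mat N | X ∈ L.𝔤 ∧ Xᵀ = X ∧ fsq X = 1} := by
    have h1 : IsClosed (L.𝔤 : Set (Mat N)) := Submodule.closed_of_finiteDimensional L.𝔤
    have h2 : IsClosed {X : Mat N | Xᵀ = X} := isClosed_eq continuous_id.matrix_transpose continuous_id
    have h3 : IsClosed {X : Mat N | fsq X = 1} := isClosed_eq c03_fsq_cont continuous_const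
    exact h1.inter (h2.inter h3)
  refine hbox.of_isClosed_subset hcl ?_
  intro X hX
  rw [Set.mem_univ_pi]
  intro i
  rw [Set.mem_univ_pi]
  intro j
  rw [Set.mem_Icc, ← abs_le]
  have := (c03_entry X i j).trans hX.2.2.le
  rwa [sq_le_one_iff_abs_le_one] at this

/-- part (a) -/
theorem c03_gamma (L : LieData N G) (hk : ∃ Z ∈ L.𝔤, Zᵀ = -Z ∧ Z ≠ 0) :
    ∃ γ : ℝ, 0 < γ ∧ ∀ X ∈ L.𝔤, Xᵀ = X → ∃ Z ∈ L.𝔤, Zᵀ = -Z ∧ fsq Z = 1 ∧
      γ * fsq X ≤ fsq (X * Z - Z * X) := by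
  obtain ⟨m, n, Z, P, hZ, hP, hPo, hbas⟩ := exists_bases L
  obtain ⟨Z₀, hZ₀, hZ₀t, hZ₀0⟩ := hk
  have hm : 0 < m := by
    rcases Nat.eq_zero_or_pos m with h0 | h0
    · subst h0
      exfalso
      apply hZ₀0
      rw [hZ.2.2 Z₀ hZ₀ hZ₀t]
      simp
    · exact h0
  have hm0 : (0 : ℝ) < m := by exact_mod_cast hm
  have hZ1 : ∀ j, fsq (Z j) = 1 := fun j => by
    have := hZ.2.1 j j
    rwa [if_pos rfl] at this
  set F : Mat N → ℝ := fun X => ∑ j, fsq (X * Z j - Z j * X) with hF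
  have hFc : Continuous F := by
    refine continuous_finsetSum _ fun j _ => ?_
    exact c03_fsq_cont.comp ((continuous_id.mul continuous_const).sub
      (continuous_const.mul continuous_id))
  have hpos : ∀ X ∈ L.𝔤, Xᵀ = X → fsq X = 1 → 0 < F X := by
    intro X hX hXt hX1
    have hX0 : X ≠ 0 := by
      rintro rfl
      rw [c03_fsq] at hX1
      simp at hX1
    obtain ⟨Y, hY, hYt, hXY⟩ := L.ss X hX hXt hX0
    have h0 : 0 ≤ F X := Finset.sum_nonneg fun j _ => c03_fsq_nonneg _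
    rcases h0.lt_or_eq with h | h
    · exact h
    · exfalso
      apply hXY
      have h1 : ∀ j, X * Z j = Z j * X := by
        intro j
        have h2 := (Finset.sum_eq_zero_iff_of_nonneg (fun j _ => c03_fsq_nonneg _)).1 h.symm j
          (Finset.mem_univ j)
        exact sub_eq_zero.1 (c03_fsq_eq_zero h2)
      rw [hZ.2.2 Y hY hYt, Finset.mul_sum, Finset.sum_mul]
      apply Finset.sum_congr rfl
      intro j _
      rw [Matrix.mul_smul, Matrix.smul_mul, h1 j]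
  -- a positive lower bound on the sphere
  have hlow : ∃ μ : ℝ, 0 < μ ∧ ∀ X ∈ L.𝔤, Xᵀ = X → fsq X = 1 → μ ≤ F X := by
    by_cases hne : {X : Mat N | X ∈ L.𝔤 ∧ Xᵀ = X ∧ fsq X = 1}.Nonempty
    · obtain ⟨X₀, hX₀, hmin⟩ := (c03_sphere L).exists_isMinOn hne hFc.continuousOn
      refine ⟨F X₀, hpos X₀ hX₀.1 hX₀.2.1 hX₀.2.2, fun X hX hXt hX1 => ?_⟩
      exact hmin ⟨hX, hXt, hX1⟩
    · refine ⟨1, one_pos, fun X hX hXt hX1 => ?_⟩
      exact absurd ⟨X, hX, hXt, hX1⟩ hne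
  obtain ⟨μ, hμ, hlow⟩ := hlow
  refine ⟨μ / m, by positivity, fun X hX hXt => ?_⟩
  by_contra hcon
  push Not at hcon
  have h1 : ∀ j, fsq (X * Z j - Z j * X) < μ / m * fsq X := fun j =>
    hcon (Z j) (hZ.1 j).1 (hZ.1 j).2 (hZ1 j)
  have h2 : F X < μ * fsq X := by
    have h3 : F X < ∑ _j : Fin m, μ / m * fsq X :=
      Finset.sum_lt_sum_of_nonempty ⟨⟨0, hm⟩, Finset.mem_univ _⟩ fun j _ => h1 j
    have h4 : ∑ _j : Fin m, μ / m * fsq X = μ * fsq X := by
      simp only [Finset.sum_const, Finset.card_univ, Fintype.card_fin, nsmul_eq_mul]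
      field_simp
    linarith
  have h0 : 0 ≤ F X := Finset.sum_nonneg fun j _ => c03_fsq_nonneg _
  have hX0 : 0 < fsq X := by
    rcases (c03_fsq_nonneg X).lt_or_eq with h | h
    · exact h
    · rw [← h, mul_zero] at h2
      linarith
  have hn : Real.sqrt (fsq X) ^ 2 = fsq X := Real.sq_sqrt hX0.le
  have hn0 : 0 < Real.sqrt (fsq X) := Real.sqrt_pos.2 hX0
  set t : ℝ := (Real.sqrt (fsq X))⁻¹ with ht
  have ht2 : t ^ 2 * fsq X = 1 := by
    rw [ht, inv_pow, hn, inv_mul_cancel₀ hX0.ne']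
  have h5 : F (t • X) = t ^ 2 * F X := by
    rw [hF]
    simp only
    rw [Finset.mul_sum]
    apply Finset.sum_congr rfl
    intro j _
    rw [← c03_fsq_smul]
    congr 1
    rw [Matrix.smul_mul, Matrix.mul_smul, smul_sub]
  have h6 := hlow (t • X) (L.𝔤.smul_mem t hX) (by rw [Matrix.transpose_smul, hXt])
    (by rw [c03_fsq_smul, ht2])
  rw [h5] at h6
  have h7 : t ^ 2 * F X < t ^ 2 * (μ * fsq X) := by
    apply mul_lt_mul_of_pos_left h2
    rw [ht]
    positivity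
  have h8 : t ^ 2 * (μ * fsq X) = μ := by
    rw [mul_left_comm, ht2, mul_one]
  linarith

theorem matrix_est (L : LieData N G) (hk : ∃ Z ∈ L.𝔤, Zᵀ = -Z ∧ Z ≠ 0) :
    ∃ c : ℝ, 0 < c ∧ ∃ t₀ : ℝ, 0 < t₀ ∧ ∃ κ : ℝ, 0 < κ ∧ ∀ g : G,
      ∃ Z ∈ L.𝔤, Zᵀ = -Z ∧ fsq Z = 1 ∧ ∀ s : ℝ, |s| ≤ t₀ →
        c * s ^ 2 * Th L g ^ κ ≤ fsq (L.ι (g * L.e (s • Z) * g⁻¹)) := by
  obtain ⟨γ, hγ, hγX⟩ := c03_gamma L hk
  have hN : 1 ≤ N := by
    obtain ⟨Z₀, hZ₀, hZ₀t, hZ₀0⟩ := hk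
    rcases Nat.eq_zero_or_pos N with h0 | h0
    · subst h0
      exfalso
      apply hZ₀0
      ext i j
      exact i.elim0
    · exact h0
  have hN0 : (0 : ℝ) < N := by exact_mod_cast hN
  have hN1 : (1 : ℝ) ≤ N := by exact_mod_cast hN
  set ρ : ℝ := Real.sqrt γ with hρdef
  have hρ : 0 < ρ := Real.sqrt_pos.2 hγ
  have hρ2 : ρ ^ 2 = γ := Real.sq_sqrt hγ.le
  set κ : ℝ := ρ / N with hκdef
  have hκ : 0 < κ := by positivity
  set A : ℝ := (1 + 2 * (N : ℝ)) ^ κ with hA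
  have hA0 : 0 < A := Real.rpow_pos_of_pos (by positivity) κ
  set b : ℝ := min 1 (ρ ^ 2 / (16 * N ^ 2)) with hb
  have hb0 : 0 < b := lt_min one_pos (by positivity)
  refine ⟨b / A, by positivity, min (1 / N) (ρ / (4 * N ^ 3)), lt_min (by positivity)
    (by positivity), κ, hκ, fun g => ?_⟩
  obtain ⟨k, X, hX, hXt, hkk, rfl⟩ := L.polar g
  obtain ⟨Z, hZ, hZt, hZ1, hXZ⟩ := hγX X hX hXt
  refine ⟨Z, hZ, hZt, hZ1, fun s hs => ?_⟩
  have hs1 : |s| ≤ 1 / N := hs.trans (min_le_left _ _)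
  have hs2 : |s| ≤ ρ / (4 * N ^ 3) := hs.trans (min_le_right _ _)
  have hs3 : N * |s| ≤ 1 := by
    rw [le_div_iff₀ hN0] at hs1
    linarith
  have hkK : k ∈ L.K := hkk
  -- the weight
  have hTh1 : Th L (1 : G) = 1 + 2 * N := by
    unfold Th
    rw [inv_one, map_one]
    have : fsq (1 : Mat N) = N := by
      unfold fsq fip
      rw [Matrix.transpose_one, Matrix.one_mul, Matrix.trace_one, Fintype.card_fin]
    rw [this]
    ring
  have hTh : Th L (k * L.e X) ≤ Real.exp (2 * Real.sqrt (fsq X)) * (1 + 2 * N) := by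
    rw [Th_K_left L hkK]
    have h1 := Th_line L hX (1 : G) 1
    rw [one_mul, one_smul, abs_one, mul_one, hTh1] at h1
    exact h1
  have hThκ : Th L (k * L.e X) ^ κ ≤ Real.exp (2 * κ * Real.sqrt (fsq X)) * A := by
    have h1 : 0 ≤ Th L (k * L.e X) := by linarith [one_le_Th L (k * L.e X)]
    have h2 := Real.rpow_le_rpow h1 hTh hκ.le
    rw [Real.mul_rpow (Real.exp_pos _).le (by positivity), ← Real.exp_mul] at h2
    have h3 : 2 * Real.sqrt (fsq X) * κ = 2 * κ * Real.sqrt (fsq X) := by ring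
    rwa [h3] at h2
  have hlhs : b / A * s ^ 2 * Th L (k * L.e X) ^ κ ≤
      Real.exp (2 * κ * Real.sqrt (fsq X)) * (s ^ 2 * b) := by
    calc b / A * s ^ 2 * Th L (k * L.e X) ^ κ
        ≤ b / A * s ^ 2 * (Real.exp (2 * κ * Real.sqrt (fsq X)) * A) :=
          mul_le_mul_of_nonneg_left hThκ (by positivity)
      _ = _ := by field_simp
  refine hlhs.trans ?_
  -- the conjugate
  have hconj : fsq (L.ι (k * L.e X * L.e (s • Z) * (k * L.e X)⁻¹)) =
      fsq (L.ι (L.e X * L.e (s • Z) * (L.e X)⁻¹)) := by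
    have h1 : k * L.e X * L.e (s • Z) * (k * L.e X)⁻¹ =
        k * (L.e X * L.e (s • Z) * (L.e X)⁻¹) * k⁻¹ := by group
    rw [h1, map_mul, map_mul]
    exact fip_ad_K L hkK _ _
  rw [hconj]
  have hM : L.ι (L.e X * L.e (s • Z) * (L.e X)⁻¹) =
      NormedSpace.exp X * NormedSpace.exp (s • Z) * NormedSpace.exp (-X) := by
    rw [map_mul, map_mul, ← e_neg L hX, L.ι_e X hX, L.ι_e (s • Z) (L.𝔤.smul_mem s hZ),
      L.ι_e (-X) (L.𝔤.neg_mem hX)]
  rcases (c03_fsq_nonneg X).lt_or_eq with hX0 | hX0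
  · rw [hM]
    have h1 := c03_key hN X Z hXt hZt hZ1 ρ hρ hX0 (by rw [hρ2]; exact hXZ) s hs3 hs2
    refine le_trans ?_ h1
    apply mul_le_mul_of_nonneg_left _ (Real.exp_pos _).le
    exact mul_le_mul_of_nonneg_left (min_le_right _ _) (sq_nonneg s)
  · have hX00 := c03_fsq_eq_zero hX0.symm
    rw [← hX0, Real.sqrt_zero, mul_zero, Real.exp_zero, one_mul]
    have h1 : L.e X * L.e (s • Z) * (L.e X)⁻¹ = L.e (s • Z) := by
      rw [hX00, e_zero]
      group
    rw [h1]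
    have h2 : L.e (s • Z) ∈ L.K := e_mem_K L hZ hZt s
    have h3 : fsq (L.ι (L.e (s • Z))) = N := by
      have h4 : L.ι (L.e (s • Z)) * (L.ι (L.e (s • Z)))ᵀ = 1 := h2
      unfold fsq fip
      rw [Matrix.trace_mul_comm, h4, Matrix.trace_one, Fintype.card_fin]
    rw [h3]
    have h5 : s ^ 2 ≤ 1 := by
      rw [sq_le_one_iff_abs_le_one]
      have : |s| ≤ N * |s| := by
        have := mul_le_mul_of_nonneg_right hN1 (abs_nonneg s)
        linarith
      linarith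
    have h6 : b ≤ 1 := min_le_left _ _
    calc s ^ 2 * b ≤ 1 * 1 := mul_le_mul h5 h6 hb0.le zero_le_one
      _ ≤ N := by linarith

end SBD
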