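import Pool.Agent.SBD.C03

/-!
# Row SBD-C04 : few translates return to a compact set

PROOF.  `c, t₀, κ'` from C03, `κ = κ'/2`.  Let `U` be compact; `U U⁻¹` is compact, so `fsq ∘ ι ≤ C_U` on it
(`C_U > 0`).  If `t, t' ∈ [0,t₀]` both satisfy `g e(tZ) y⁻¹ ∈ U`, then
`g e((t-t')Z) g⁻¹ = (g e(tZ)y⁻¹)(g e(t'Z)y⁻¹)⁻¹ ∈ UU⁻¹` (`e(tZ)e(t'Z)⁻¹ = e((t-t')Z)`) and `|t-t'| ≤ t₀`, so
`c|t-t'|²Θ(g)^{κ'} ≤ C_U`, `|t-t'| ≤ √(C_U/c) Θ(g)^{-κ'/2} =: ρ`.  A set of real numbers with all distances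
`≤ ρ` is contained in a closed interval `[t-ρ,t+ρ]`, of length `2ρ`.
-/

open MeasureTheory Filter Topology
open scoped ENNReal NNReal Matrix

noncomputable section

namespace SBD

variable {N : ℕ} {G : Type} [Group G] [TopologicalSpace G] [IsTopologicalGroup G]
  [LocallyCompactSpace G] [T2Space G]

open scoped Pointwise in
theorem bad_set (L : LieData N G) (hk : ∃ Z ∈ L.𝔤, Zᵀ = -Z ∧ Z ≠ 0) :
    ∃ κ : ℝ, 0 < κ ∧ ∃ t₀ : ℝ, 0 < t₀ ∧ ∀ U : Set G, IsCompact U → ∃ C : ℝ, 0 < C ∧ ∀ g : G,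
      ∃ Z ∈ L.𝔤, Zᵀ = -Z ∧ fsq Z = 1 ∧ ∀ y : G,
        volume {t : ℝ | t ∈ Set.Icc 0 t₀ ∧ g * L.e (t • Z) * y⁻¹ ∈ U} ≤
          ENNReal.ofReal (C * Th L g ^ (-κ)) := by
  obtain ⟨c, hc, t₀, ht₀, κ, hκ, h⟩ := matrix_est L hk
  refine ⟨κ / 2, by positivity, t₀, ht₀, ?_⟩
  intro U hU
  have hcont : Continuous fun x : G => fsq (L.ι x) := by
    unfold fsq fip
    have h1 := L.ι_cont
    exact (h1.matrix_transpose.matrix_mul h1).matrix_trace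
  have hc2 : IsCompact (U * U⁻¹) := hU.mul hU.inv
  obtain ⟨B, hB⟩ := hc2.bddAbove_image hcont.continuousOn
  obtain ⟨M, hM0, hM⟩ : ∃ M : ℝ, 0 < M ∧ ∀ x ∈ U * U⁻¹, fsq (L.ι x) ≤ M :=
    ⟨max B 1, lt_of_lt_of_le one_pos (le_max_right _ _),
      fun x hx => (hB (Set.mem_image_of_mem _ hx)).trans (le_max_left _ _)⟩
  have hMc : 0 < M / c := div_pos hM0 hc
  refine ⟨2 * Real.sqrt (M / c), mul_pos two_pos (Real.sqrt_pos.mpr hMc), ?_⟩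
  intro g
  obtain ⟨Z, hZ, hZt, hZ1, hZs⟩ := h g
  refine ⟨Z, hZ, hZt, hZ1, ?_⟩
  intro y
  have hT : 1 ≤ Th L g := one_le_Th L g
  have hT0 : 0 < Th L g := lt_of_lt_of_le one_pos hT
  obtain ⟨ρ, hρ⟩ : ∃ ρ : ℝ, ρ = Real.sqrt (M / c) * Th L g ^ (-(κ / 2)) := ⟨_, rfl⟩
  have hρ0 : 0 ≤ ρ := by
    rw [hρ]
    exact mul_nonneg (Real.sqrt_nonneg _) (Real.rpow_nonneg hT0.le _)
  have hρ2 : ρ ^ 2 * (c * Th L g ^ κ) = M := by
    rw [hρ, mul_pow, Real.sq_sqrt hMc.le, ← Real.rpow_natCast (Th L g ^ (-(κ / 2))) 2,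
      ← Real.rpow_mul hT0.le]
    have h1 : -(κ / 2) * ((2 : ℕ) : ℝ) = -κ := by push_cast; ring
    rw [h1, Real.rpow_neg hT0.le]
    have h2 : Th L g ^ κ ≠ 0 := (Real.rpow_pos_of_pos hT0 _).ne'
    field_simp
  by_cases hne : ({t : ℝ | t ∈ Set.Icc 0 t₀ ∧ g * L.e (t • Z) * y⁻¹ ∈ U}).Nonempty
  · obtain ⟨t, ht, htU⟩ := hne
    have hsub : {t : ℝ | t ∈ Set.Icc 0 t₀ ∧ g * L.e (t • Z) * y⁻¹ ∈ U} ⊆
        Set.Icc (t - ρ) (t + ρ) := by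
      rintro t' ⟨ht', ht'U⟩
      have hdiff : |t' - t| ≤ t₀ := by
        rw [abs_le]
        constructor
        · linarith [ht'.1, ht.2]
        · linarith [ht'.2, ht.1]
      have hconj : g * L.e ((t' - t) • Z) * g⁻¹ =
          (g * L.e (t' • Z) * y⁻¹) * (g * L.e (t • Z) * y⁻¹)⁻¹ := by
        have h0 := L.e_add Z hZ (t' - t) t
        rw [sub_add_cancel] at h0
        rw [h0]
        group
      have h1 := hZs (t' - t) hdiff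
      rw [hconj] at h1
      have h2 := hM _ (Set.mul_mem_mul ht'U (Set.inv_mem_inv.mpr htU))
      have h3 : c * (t' - t) ^ 2 * Th L g ^ κ ≤ M := h1.trans h2
      have h5 : 0 < c * Th L g ^ κ := mul_pos hc (Real.rpow_pos_of_pos hT0 _)
      have h4 : (t' - t) ^ 2 ≤ ρ ^ 2 := by
        have h6 : (t' - t) ^ 2 * (c * Th L g ^ κ) ≤ ρ ^ 2 * (c * Th L g ^ κ) := by
          rw [hρ2]
          calc (t' - t) ^ 2 * (c * Th L g ^ κ) = c * (t' - t) ^ 2 * Th L g ^ κ := by ring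
            _ ≤ M := h3
        exact le_of_mul_le_mul_right h6 h5
      have h7 := abs_le_of_sq_le_sq' h4 hρ0
      constructor
      · linarith [h7.1]
      · linarith [h7.2]
    calc volume {t : ℝ | t ∈ Set.Icc 0 t₀ ∧ g * L.e (t • Z) * y⁻¹ ∈ U}
        ≤ volume (Set.Icc (t - ρ) (t + ρ)) := measure_mono hsub
      _ = ENNReal.ofReal (2 * ρ) := by rw [Real.volume_Icc]; congr 1; ring
      _ = ENNReal.ofReal (2 * Real.sqrt (M / c) * Th L g ^ (-(κ / 2))) := by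
          rw [hρ]; congr 1; ring
  · rw [Set.not_nonempty_iff_eq_empty] at hne
    rw [hne]
    simp

end SBD
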