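import Pool.Agent.SBD.An

/-!
# Row SBD-M01 : a bi-invariant Haar measure is inversion invariant

PROOF.  `μ.inv` (`Measure.inv`, `= map Inv.inv μ`) is left invariant because `μ` is right invariant, and
is a Haar measure (regular/finite on compacts, positive on opens).  By uniqueness
(`MeasureTheory.Measure.isMulLeftInvariant_eq_smul`, `haarScalarFactor`, second countable locally
compact) `μ.inv = c • μ`.  For a compact symmetric neighbourhood `S` of `1` (`S = S₀ ∩ S₀⁻¹`),
`0 < μ S < ∞` and `μ.inv S = μ S⁻¹ = μ S`, so `c = 1`.
-/

open MeasureTheory Filter Topology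
open scoped ENNReal NNReal Matrix

noncomputable section

namespace SBD

variable {N : ℕ} {G : Type} [Group G] [TopologicalSpace G] [IsTopologicalGroup G]
  [LocallyCompactSpace G] [T2Space G]
variable [SecondCountableTopology G] [MeasurableSpace G] [BorelSpace G]

theorem isInvInvariant (μ : Measure G) [μ.IsHaarMeasure] [μ.IsMulRightInvariant] :
    μ.IsInvInvariant := by
  constructor
  have hfin : IsFiniteMeasureOnCompacts μ.inv := by
    constructor
    intro K hK
    rw [Measure.inv_apply]
    exact hK.inv.measure_lt_top
  let c : ℝ≥0∞ := Measure.haarScalarFactor μ.inv μ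
  have hc : μ.inv = c • μ := Measure.isMulLeftInvariant_eq_smul μ.inv μ
  have : Measure.map Inv.inv (Measure.map Inv.inv μ) = c ^ 2 • μ := by
    rw [← Measure.inv_def μ, hc, Measure.map_smul, ← Measure.inv_def μ, hc, smul_smul, pow_two]
  have μeq : μ = c ^ 2 • μ := by
    rw [Measure.map_map continuous_inv.measurable continuous_inv.measurable] at this
    simpa only [inv_involutive, Function.Involutive.comp_self, Measure.map_id]
  have K : TopologicalSpace.PositiveCompacts G := Classical.arbitrary _
  have : c ^ 2 * μ K = 1 ^ 2 * μ K := by
    conv_rhs => rw [μeq]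
    simp
  have : c ^ 2 = 1 ^ 2 :=
    (ENNReal.mul_left_inj (Measure.measure_pos_of_nonempty_interior _ K.interior_nonempty).ne'
          K.isCompact.measure_lt_top.ne).1 this
  have : c = 1 := (ENNReal.pow_right_strictMono two_ne_zero).injective this
  rw [hc, this, one_smul]

end SBD
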