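import Pool.Agent.SBD.C01
import Pool.Agent.SBD.C04
import Pool.Agent.SBD.M01

/-!
# Row SBD-C05 : averages over one-parameter subgroups of `K`

PROOF.  `κ, t₀` from C04.  Given `w₀`, take `d, w, U, C₁` from C01, and `C_U` from C04 for `U`; for `g` take
`Z` from C04.  Write `F(y) = Fw π w v y ≥ 0` (continuous in `y`), `h_t = g e(tZ)`.
`ofReal F(h_t) ≤ C₁ ∫⁻_{x∈U} ofReal F(x⁻¹h_t) dx` (`ofReal_integral_eq_lintegral_ofReal`, `F(x⁻¹h)` is
continuous so integrable on the compact `U`)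
`= C₁ ∫⁻_y 1[h_t y⁻¹ ∈ U] ofReal F(y) dy` (substitution `x = h_t y⁻¹ = h_t / y`; left and inversion
invariance: `lintegral_div_left_eq_self`, M01).
Integrate over `t ∈ [0,t₀]`, Tonelli (`(t,y) ↦ 1[h_t y⁻¹ ∈ U]` is measurable: `U` is closed and
`(t,y) ↦ h_t y⁻¹` continuous):
`∫⁻_t ofReal F(h_t) ≤ C₁ ∫⁻_y ofReal F(y) · vol{t ∈ [0,t₀] : h_t y⁻¹ ∈ U} dy`.
If that set of `t` is nonempty then `y = x⁻¹h_t` with `x ∈ U`, so `Θ(y) ≤ Θ(x⁻¹)Θ(g e(tZ)) = Θ(x)Θ(g)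
≤ C₂Θ(g)` (M02; `e(tZ) ∈ K`; `C₂ ≥ 1` bounds `Θ` on `U`), hence `1 ≤ (C₂Θ(g))^ε Θ(y)^{-ε}
≤ C₂ Θ(g)^ε Θ(y)^{-ε}` for `0 ≤ ε ≤ 1`.  The volume is `≤ C_UΘ(g)^{-κ}` (C04), and `0` if the set is
empty.  So `C = C₁C_UC₂ (+1)`.
-/

open MeasureTheory Filter Topology
open scoped ENNReal NNReal Matrix

noncomputable section

namespace SBD

variable {N : ℕ} {G : Type} [Group G] [TopologicalSpace G] [IsTopologicalGroup G]
  [LocallyCompactSpace G] [T2Space G]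
variable [SecondCountableTopology G] [MeasurableSpace G] [BorelSpace G]
variable {H : Type} [NormedAddCommGroup H] [InnerProductSpace ℂ H] [CompleteSpace H]

theorem avg (L : LieData N G) (π : G →* (H ≃ₗᵢ[ℂ] H)) (A : LieRep N (KFin L π))
    (hP : IsPkg L π A) (μ : Measure G) [μ.IsHaarMeasure] [μ.IsMulRightInvariant]
    (hk : ∃ Z ∈ L.𝔤, Zᵀ = -Z ∧ Z ≠ 0) :
    ∃ κ : ℝ, 0 < κ ∧ ∃ t₀ : ℝ, 0 < t₀ ∧ ∀ w₀ ∈ KFin L π,
    ∃ (d : ℕ) (w : Fin d → H), (∀ i, w i ∈ KFin L π) ∧ Orthonormal ℂ w ∧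
      w₀ ∈ Submodule.span ℂ (Set.range w) ∧
      (∀ k ∈ L.K, ∀ v : H, ∑ i, ‖inner ℂ (w i) (π k v)‖ ^ 2 = ∑ i, ‖inner ℂ (w i) v‖ ^ 2) ∧
      ∃ C : ℝ, 0 < C ∧ ∀ g : G, ∃ Z ∈ L.𝔤, Zᵀ = -Z ∧ fsq Z = 1 ∧
        ∀ ε : ℝ, 0 ≤ ε → ε ≤ 1 → ∀ v : H,
          ∫⁻ t in Set.Icc 0 t₀, ENNReal.ofReal (Fw π w v (g * L.e (t • Z))) ≤
            ENNReal.ofReal (C * Th L g ^ (-κ + ε)) *
              ∫⁻ y, ENNReal.ofReal (Th L y ^ (-ε) * Fw π w v y) ∂μ := by
  classical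
  obtain ⟨κ, hκ, t₀, ht₀, hbad⟩ := bad_set L hk
  refine ⟨κ, hκ, t₀, ht₀, fun w₀ hw₀ => ?_⟩
  obtain ⟨d, w, hw, hwo, hspan, hinv, U, hU, C₁, hC₁, hsm⟩ := smoothing L π A hP μ w₀ hw₀
  refine ⟨d, w, hw, hwo, hspan, hinv, ?_⟩
  obtain ⟨CU, hCU, hbadU⟩ := hbad U hU
  obtain ⟨C₂, hC₂1, hC₂⟩ : ∃ C₂ : ℝ, 1 ≤ C₂ ∧ ∀ x ∈ U, Th L x ≤ C₂ := by
    obtain ⟨B, hB⟩ := (hU.image (Th_cont L)).bddAbove
    exact ⟨max 1 B, le_max_left _ _, fun x hx => (hB ⟨x, hx, rfl⟩).trans (le_max_right _ _)⟩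
  have hC₂0 : 0 < C₂ := by linarith
  refine ⟨(C₁ + 1) * CU * C₂, by positivity, fun g => ?_⟩
  obtain ⟨Z, hZ, hZt, hZ1, hvol⟩ := hbadU g
  refine ⟨Z, hZ, hZt, hZ1, fun ε hε0 hε1 v => ?_⟩
  have hFc : Continuous (Fw π w v) := by
    unfold Fw mc
    exact continuous_finsetSum _ fun i _ =>
      ((continuous_const.inner (hP.cont v)).norm).pow 2
  have hF0 : ∀ y, 0 ≤ Fw π w v y := fun y => Finset.sum_nonneg fun i _ => by positivity
  have hinvμ : μ.IsInvInvariant := isInvInvariant μ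
  have hUc : IsClosed U := hU.isClosed
  set F : G → ℝ≥0∞ := fun y => ENNReal.ofReal (Fw π w v y) with hF
  have hFm : Measurable F := (ENNReal.continuous_ofReal.comp hFc).measurable
  have step1 : ∀ h : G, F h ≤ ENNReal.ofReal C₁ *
      ∫⁻ y, {y : G | h * y⁻¹ ∈ U}.indicator F y ∂μ := by
    intro h
    have hc : Continuous fun x : G => Fw π w v (x⁻¹ * h) := by fun_prop
    have hint : IntegrableOn (fun x : G => Fw π w v (x⁻¹ * h)) U μ :=
      hc.continuousOn.integrableOn_compact hU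
    have e1 : ENNReal.ofReal (∫ x in U, Fw π w v (x⁻¹ * h) ∂μ) =
        ∫⁻ x in U, F (x⁻¹ * h) ∂μ :=
      ofReal_integral_eq_lintegral_ofReal hint (Filter.Eventually.of_forall fun x => hF0 _)
    have e2 : ∫⁻ x in U, F (x⁻¹ * h) ∂μ = ∫⁻ y, {y : G | h * y⁻¹ ∈ U}.indicator F y ∂μ := by
      rw [← lintegral_indicator hUc.measurableSet,
        ← lintegral_div_left_eq_self (μ := μ) (U.indicator fun x => F (x⁻¹ * h)) h]
      refine lintegral_congr fun y => ?_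
      by_cases hy : h * y⁻¹ ∈ U
      · rw [Set.indicator_of_mem (show h / y ∈ U by rwa [div_eq_mul_inv]),
          Set.indicator_of_mem (show y ∈ {y : G | h * y⁻¹ ∈ U} from hy)]
        congr 1
        rw [inv_div, div_mul_cancel]
      · rw [Set.indicator_of_notMem (show h / y ∉ U by rwa [div_eq_mul_inv]),
          Set.indicator_of_notMem (show y ∉ {y : G | h * y⁻¹ ∈ U} from hy)]
    calc F h ≤ ENNReal.ofReal (C₁ * ∫ x in U, Fw π w v (x⁻¹ * h) ∂μ) :=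
          ENNReal.ofReal_le_ofReal (hsm v h)
      _ = ENNReal.ofReal C₁ * ENNReal.ofReal (∫ x in U, Fw π w v (x⁻¹ * h) ∂μ) :=
          ENNReal.ofReal_mul hC₁
      _ = _ := by rw [e1, e2]
  have hlc : Continuous fun t : ℝ => L.e (t • Z) := e_line_cont L hZ
  set E : Set (ℝ × G) := {p | g * L.e (p.1 • Z) * p.2⁻¹ ∈ U} with hE
  have hEm : MeasurableSet E := by
    refine (hUc.preimage ?_).measurableSet
    exact (continuous_const.mul (hlc.comp continuous_fst)).mul continuous_snd.inv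
  have hjm : Measurable fun p : ℝ × G => E.indicator (fun p => F p.2) p :=
    (hFm.comp measurable_snd).indicator hEm
  have hmeas : ∀ y : G, MeasurableSet {t : ℝ | g * L.e (t • Z) * y⁻¹ ∈ U} := fun y =>
    measurable_prodMk_right hEm
  have step2 : ∫⁻ t in Set.Icc 0 t₀, F (g * L.e (t • Z)) ≤
      ENNReal.ofReal C₁ * ∫⁻ y, (∫⁻ t in Set.Icc 0 t₀, E.indicator (fun p => F p.2) (t, y)) ∂μ := by
    calc ∫⁻ t in Set.Icc 0 t₀, F (g * L.e (t • Z))
        ≤ ∫⁻ t in Set.Icc 0 t₀, ENNReal.ofReal C₁ *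
            ∫⁻ y, E.indicator (fun p => F p.2) (t, y) ∂μ := by
          refine lintegral_mono fun t => ?_
          refine (step1 _).trans (le_of_eq ?_)
          congr 1
      _ = ENNReal.ofReal C₁ * ∫⁻ t in Set.Icc 0 t₀,
            ∫⁻ y, E.indicator (fun p => F p.2) (t, y) ∂μ :=
          lintegral_const_mul' _ _ ENNReal.ofReal_ne_top
      _ = _ := by
          rw [lintegral_lintegral_swap hjm.aemeasurable]
  have step3 : ∀ y : G, ∫⁻ t in Set.Icc 0 t₀, E.indicator (fun p => F p.2) (t, y) ≤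
      ENNReal.ofReal (CU * C₂ * Th L g ^ (-κ + ε)) *
        ENNReal.ofReal (Th L y ^ (-ε) * Fw π w v y) := by
    intro y
    have e1 : ∫⁻ t in Set.Icc 0 t₀, E.indicator (fun p => F p.2) (t, y) =
        F y * volume {t : ℝ | t ∈ Set.Icc 0 t₀ ∧ g * L.e (t • Z) * y⁻¹ ∈ U} := by
      have e2 : (fun t : ℝ => E.indicator (fun p => F p.2) (t, y)) =
          {t : ℝ | g * L.e (t • Z) * y⁻¹ ∈ U}.indicator (fun _ => F y) := by
        funext t
        rfl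
      rw [e2, lintegral_indicator_const (hmeas y), Measure.restrict_apply (hmeas y)]
      congr 2
      ext t
      exact and_comm
    rw [e1]
    have hTg : 1 ≤ Th L g := one_le_Th L g
    have hTy : 1 ≤ Th L y := one_le_Th L y
    have hTg0 : 0 < Th L g := by linarith
    have hTy0 : 0 < Th L y := by linarith
    by_cases hne : ({t : ℝ | t ∈ Set.Icc 0 t₀ ∧ g * L.e (t • Z) * y⁻¹ ∈ U}).Nonempty
    · obtain ⟨t, -, ht⟩ := hne
      have h1 : Th L y ≤ C₂ * Th L g := by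
        have e3 : y = (g * L.e (t • Z) * y⁻¹)⁻¹ * (g * L.e (t • Z)) := by group
        calc Th L y = Th L ((g * L.e (t • Z) * y⁻¹)⁻¹ * (g * L.e (t • Z))) := by rw [← e3]
          _ ≤ Th L (g * L.e (t • Z) * y⁻¹)⁻¹ * Th L (g * L.e (t • Z)) := Th_mul_le L _ _
          _ = Th L (g * L.e (t • Z) * y⁻¹) * Th L g := by
              rw [Th_inv, Th_K_right L (e_mem_K L hZ hZt t)]
          _ ≤ C₂ * Th L g := mul_le_mul_of_nonneg_right (hC₂ _ ht) hTg0.le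
      have h2 : Th L y ^ ε ≤ C₂ * Th L g ^ ε := by
        calc Th L y ^ ε ≤ (C₂ * Th L g) ^ ε := Real.rpow_le_rpow hTy0.le h1 hε0
          _ = C₂ ^ ε * Th L g ^ ε := Real.mul_rpow hC₂0.le hTg0.le
          _ ≤ C₂ ^ (1 : ℝ) * Th L g ^ ε := mul_le_mul_of_nonneg_right
              (Real.rpow_le_rpow_of_exponent_le hC₂1 hε1) (Real.rpow_nonneg hTg0.le _)
          _ = C₂ * Th L g ^ ε := by rw [Real.rpow_one]
      have h3 : 1 ≤ C₂ * Th L g ^ ε * Th L y ^ (-ε) := by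
        rw [Real.rpow_neg hTy0.le, ← div_eq_mul_inv, le_div_iff₀ (Real.rpow_pos_of_pos hTy0 _),
          one_mul]
        exact h2
      have h4 : Fw π w v y * (CU * Th L g ^ (-κ)) ≤
          (CU * C₂ * Th L g ^ (-κ + ε)) * (Th L y ^ (-ε) * Fw π w v y) := by
        have e4 : (CU * C₂ * Th L g ^ (-κ + ε)) * (Th L y ^ (-ε) * Fw π w v y) =
            (Fw π w v y * (CU * Th L g ^ (-κ))) * (C₂ * Th L g ^ ε * Th L y ^ (-ε)) := by
          rw [Real.rpow_add hTg0]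
          ring
        rw [e4]
        exact le_mul_of_one_le_right
          (mul_nonneg (hF0 y) (mul_nonneg hCU.le (Real.rpow_nonneg hTg0.le _))) h3
      calc F y * volume {t : ℝ | t ∈ Set.Icc 0 t₀ ∧ g * L.e (t • Z) * y⁻¹ ∈ U}
          ≤ F y * ENNReal.ofReal (CU * Th L g ^ (-κ)) := by gcongr; exact hvol y
        _ = ENNReal.ofReal (Fw π w v y * (CU * Th L g ^ (-κ))) := by
            rw [hF, ENNReal.ofReal_mul (hF0 y)]
        _ ≤ ENNReal.ofReal ((CU * C₂ * Th L g ^ (-κ + ε)) * (Th L y ^ (-ε) * Fw π w v y)) :=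
            ENNReal.ofReal_le_ofReal h4
        _ = _ := ENNReal.ofReal_mul (by positivity)
    · rw [Set.not_nonempty_iff_eq_empty.mp hne, measure_empty, mul_zero]
      exact zero_le
  calc ∫⁻ t in Set.Icc 0 t₀, ENNReal.ofReal (Fw π w v (g * L.e (t • Z)))
      ≤ ENNReal.ofReal C₁ *
          ∫⁻ y, (∫⁻ t in Set.Icc 0 t₀, E.indicator (fun p => F p.2) (t, y)) ∂μ := step2
    _ ≤ ENNReal.ofReal C₁ * ∫⁻ y, ENNReal.ofReal (CU * C₂ * Th L g ^ (-κ + ε)) *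
          ENNReal.ofReal (Th L y ^ (-ε) * Fw π w v y) ∂μ := by
        gcongr with y
        exact step3 y
    _ = ENNReal.ofReal (C₁ * (CU * C₂ * Th L g ^ (-κ + ε))) *
          ∫⁻ y, ENNReal.ofReal (Th L y ^ (-ε) * Fw π w v y) ∂μ := by
        rw [lintegral_const_mul' _ _ ENNReal.ofReal_ne_top, ← mul_assoc, ← ENNReal.ofReal_mul hC₁]
    _ ≤ ENNReal.ofReal ((C₁ + 1) * CU * C₂ * Th L g ^ (-κ + ε)) *
          ∫⁻ y, ENNReal.ofReal (Th L y ^ (-ε) * Fw π w v y) ∂μ := by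
        refine mul_le_mul' (ENNReal.ofReal_le_ofReal ?_) le_rfl
        have h5 : 0 ≤ CU * C₂ * Th L g ^ (-κ + ε) := by
          have := one_le_Th L g
          positivity
        calc C₁ * (CU * C₂ * Th L g ^ (-κ + ε)) ≤ (C₁ + 1) * (CU * C₂ * Th L g ^ (-κ + ε)) :=
              mul_le_mul_of_nonneg_right (by linarith) h5
          _ = _ := by ring

end SBD
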