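import Pool.Agent.SBD.M05
import Pool.Agent.SBD.A14

/-!
# Row SBD-M06 : `B_ε` is an `AlmostInv (2ε)` form

Sesquilinearity: linearity of the integral (`Bf_integrable`) and of `mc π w` in the second variable.
`symm`: conjugate of an integral.  `pos`: `Bf_pos`.  `del`: `Δ = 1 - ∑ D(Z_i)²` and
`B(D(Z)²u, v) = -B(D(Z)u, D(Z)v) = B(u, D(Z)²v)` by `Bf_K` (`A.Z_mem`, `hP.g_eq`, `A.Z_t`).
`alm`: `Bf_deriv` with `X = A.P j`, `fsq (A.P j) = 1` (`A.P_o`).
-/

open MeasureTheory Filter Topology
open scoped ENNReal NNReal Matrix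

noncomputable section

namespace SBD

variable {N : ℕ} {G : Type} [Group G] [TopologicalSpace G] [IsTopologicalGroup G]
  [LocallyCompactSpace G] [T2Space G]
variable [SecondCountableTopology G] [MeasurableSpace G] [BorelSpace G]
variable {H : Type} [NormedAddCommGroup H] [InnerProductSpace ℂ H] [CompleteSpace H]

theorem almostInv (L : LieData N G) (π : G →* (H ≃ₗᵢ[ℂ] H)) (A : LieRep N (KFin L π))
    (hP : IsPkg L π A) (μ : Measure G) [μ.IsHaarMeasure] [μ.IsMulRightInvariant]
    (ht : Tempered L π μ) {ε : ℝ} (hε : 0 < ε) {w : H} (hw : w ∈ KFin L π) (hw0 : w ≠ 0) :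
    A.AlmostInv (2 * ε) (Bf L π μ ε w) := by
  have hint := Bf_integrable L π A hP μ ht hε hw
  have hadd_left : ∀ u u' v, Bf L π μ ε w (u + u') v = Bf L π μ ε w u v + Bf L π μ ε w u' v := by
    intro u u' v
    unfold Bf
    rw [← integral_add (hint u v) (hint u' v)]
    refine integral_congr_ae (Eventually.of_forall fun g => ?_)
    simp only [mc, Submodule.coe_add, map_add, inner_add_right]
    ring
  have hadd_right : ∀ u v v', Bf L π μ ε w u (v + v') = Bf L π μ ε w u v + Bf L π μ ε w u v' := by
    intro u v v'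
    unfold Bf
    rw [← integral_add (hint u v) (hint u v')]
    refine integral_congr_ae (Eventually.of_forall fun g => ?_)
    simp only [mc, Submodule.coe_add, map_add, inner_add_right]
    ring
  have hK := fun (i : Fin A.m) (u v : KFin L π) => Bf_K L π A hP μ ht hε hw
    (Z := A.Z i) (by rw [← hP.g_eq]; exact A.Z_mem i) (A.Z_t i) u v
  refine ⟨hadd_left, ?_, hadd_right, ?_, ?_, ?_, ?_, ?_⟩
  · intro c u v
    unfold Bf
    rw [← integral_const_mul]
    refine integral_congr_ae (Eventually.of_forall fun g => ?_)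
    simp only [mc, Submodule.coe_smul, map_smul, inner_smul_right, map_mul]
    ring
  · intro c u v
    unfold Bf
    rw [← integral_const_mul]
    refine integral_congr_ae (Eventually.of_forall fun g => ?_)
    simp only [mc, Submodule.coe_smul, map_smul, inner_smul_right, map_mul]
    ring
  · intro u v
    unfold Bf
    rw [← integral_conj]
    refine integral_congr_ae (Eventually.of_forall fun g => ?_)
    simp only [map_mul, Complex.conj_conj, Complex.conj_ofReal]
    ring
  · intro v hv
    exact Bf_pos L π A hP μ ht hε hw hw0 v hv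
  · intro u v
    let f : KFin L π →+ ℂ := AddMonoidHom.mk' (fun x => Bf L π μ ε w x v)
      (fun x y => hadd_left x y v)
    let f' : KFin L π →+ ℂ := AddMonoidHom.mk' (fun x => Bf L π μ ε w u x)
      (fun x y => hadd_right u x y)
    have hf : ∀ x, Bf L π μ ε w x v = f x := fun x => rfl
    have hf' : ∀ x, Bf L π μ ε w u x = f' x := fun x => rfl
    rw [hf, hf']
    unfold LieRep.Del
    simp only [LinearMap.sub_apply, LinearMap.id_apply, LinearMap.sum_apply, LinearMap.comp_apply,
      map_sub, map_sum]
    have h0 : f u = f' v := rfl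
    rw [h0]
    congr 1
    refine Finset.sum_congr rfl fun i _ => ?_
    rw [← hf, ← hf']
    have h1 := hK i (A.D (A.Z i) u) v
    have h2 := hK i u (A.D (A.Z i) v)
    linear_combination h1 - h2
  · intro j u v
    have h := Bf_deriv L π A hP μ ht hε hw (X := A.P j)
      (by rw [← hP.g_eq]; exact A.P_mem j) u v
    have h1 : fsq (A.P j) = 1 := by
      unfold fsq
      rw [A.P_o, if_pos rfl]
    rw [h1, Real.sqrt_one, mul_one] at h
    exact h

end SBD
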