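import Pool.Agent.SBD.C05
import Pool.Agent.SBD.M06
import Pool.Agent.SBD.A16
import Pool.Agent.SBD.A04

/-!
# Row SBD-C06 : pointwise decay of matrix coefficients, polynomial in the eigenvalue

PROOF.  `κ, t₀` from C05; the new exponent is `κ/8`.  For `w₀ = w` take `d, w_i, C₁` from C05.  Let
`ε = min 1 (κ/2)`.  Let `R ≥ 1`, `v ∈ A.low R`.
(1) `∫ Θ^{-ε} F(v) = ∑_i Re Bf(ε, w_i)(v,v) ≤ C₂ R^{2aε} ‖v‖²` by M06 and the second clause of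
`chain_sob` (A16) (`w_i ≠ 0` since orthonormal; `F(v) = ∑‖mc π (w_i) v‖²`, `Bf_self`); as lintegral:
`ofReal_integral_eq_lintegral_ofReal` with `Bf_integrable_norm`.
(2) For `Z ∈ 𝔨`, `fsq Z = 1`, `0 ≤ t`: `‖π(e(tZ))v - v‖ ≤ t‖D(Z)v‖ ≤ t C₃√R‖v‖` (mean value inequality with
`hP.line`, `‖π(e(sZ))D(Z)v‖ = ‖D(Z)v‖`; A04 `norm_D_le`).  `F(v)(g)^{1/2} = ‖P π(g)v‖` (`P` = projection
to the span of the `w_i`; or Minkowski/Bessel directly), so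
`F(v)(g) ≤ 2F(v)(g e(tZ)) + 2F'` with `F' = ∑|⟨w_i, π(g)(v - π(e(tZ))v)⟩|² ≤ ‖v - π(e(tZ))v‖²` (Bessel:
`Orthonormal.sum_inner_products_le`).  So `F(v)(g) ≤ 2F(v)(g e(tZ)) + 2t²C₃²R‖v‖²`.
(3) Let `Z` be the element given by C05 for `g`, `t₁ = t₀Θ(g)^{-κ/8} ≤ t₀`.  Integrate (2) over
`[0,t₁]`: `t₁F(v)(g) ≤ 2∫_0^{t₀}F(v)(g e(tZ))dt + 2t₁³C₃²R‖v‖²`
`≤ 2C₁Θ^{-κ+ε}C₂R^{2aε}‖v‖² + 2t₁³C₃²R‖v‖²`; so
`F(v)(g) ≤ C(Θ^{-κ+ε+κ/8}R^{2a} + Θ^{-κ/4}R)‖v‖² ≤ C' R^{2a+1} Θ(g)^{-κ/4}‖v‖²`.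
(4) `w ∈ span(w_i)`: `|⟨w,π(g)v⟩|² ≤ ‖w‖²F(v)(g)`.
-/

open MeasureTheory Filter Topology
open scoped ENNReal NNReal Matrix

noncomputable section

namespace SBD

variable {N : ℕ} {G : Type} [Group G] [TopologicalSpace G] [IsTopologicalGroup G]
  [LocallyCompactSpace G] [T2Space G]
variable [SecondCountableTopology G] [MeasurableSpace G] [BorelSpace G]
variable {H : Type} [NormedAddCommGroup H] [InnerProductSpace ℂ H] [CompleteSpace H]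

theorem c06_two (L : LieData N G) (π : G →* (H ≃ₗᵢ[ℂ] H)) {d : ℕ} (w : Fin d → H)
    (ho : Orthonormal ℂ w) (v : H) (g h : G) :
    Fw π w v g ≤ 2 * Fw π w v (g * h) + 2 * ‖v - π h v‖ ^ 2 := by
  have h1 : ∀ i, ‖mc π (w i) v g‖ ^ 2 ≤ 2 * ‖mc π (w i) v (g * h)‖ ^ 2 +
      2 * ‖inner ℂ (w i) (π g (v - π h v))‖ ^ 2 := by
    intro i
    have e1 : mc π (w i) v g = mc π (w i) v (g * h) + inner ℂ (w i) (π g (v - π h v)) := by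
      unfold mc
      rw [map_sub, inner_sub_right, map_mul]
      show _ = inner ℂ (w i) (π g (π h v)) + _
      ring
    rw [e1]
    have h2 := norm_add_le (mc π (w i) v (g * h)) (inner ℂ (w i) (π g (v - π h v)))
    have h3 : ‖mc π (w i) v (g * h) + inner ℂ (w i) (π g (v - π h v))‖ ^ 2 ≤
        (‖mc π (w i) v (g * h)‖ + ‖inner ℂ (w i) (π g (v - π h v))‖) ^ 2 :=
      pow_le_pow_left₀ (norm_nonneg _) h2 2
    nlinarith [sq_nonneg (‖mc π (w i) v (g * h)‖ - ‖inner ℂ (w i) (π g (v - π h v))‖)]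
  have h4 : ∑ i, ‖inner ℂ (w i) (π g (v - π h v))‖ ^ 2 ≤ ‖v - π h v‖ ^ 2 := by
    have := ho.sum_inner_products_le (x := π g (v - π h v)) (s := Finset.univ)
    rwa [LinearIsometryEquiv.norm_map] at this
  unfold Fw
  calc ∑ i, ‖mc π (w i) v g‖ ^ 2 ≤ ∑ i, (2 * ‖mc π (w i) v (g * h)‖ ^ 2 +
      2 * ‖inner ℂ (w i) (π g (v - π h v))‖ ^ 2) := Finset.sum_le_sum fun i _ => h1 i
    _ = 2 * ∑ i, ‖mc π (w i) v (g * h)‖ ^ 2 +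
        2 * ∑ i, ‖inner ℂ (w i) (π g (v - π h v))‖ ^ 2 := by
          rw [Finset.sum_add_distrib, Finset.mul_sum, Finset.mul_sum]
    _ ≤ _ := by linarith

theorem c06_line (L : LieData N G) (π : G →* (H ≃ₗᵢ[ℂ] H)) (A : LieRep N (KFin L π))
    (hP : IsPkg L π A) (Z : Mat N) (hZ : Z ∈ L.𝔤) (v : KFin L π) (t : ℝ) (ht : 0 ≤ t) :
    ‖(v : H) - π (L.e (t • Z)) (v : H)‖ ≤ t * ‖A.D Z v‖ := by
  have h1 : ∀ x ∈ Set.Icc (0 : ℝ) t,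
      HasDerivWithinAt (fun s : ℝ => π (L.e (s • Z)) (v : H))
        (π (L.e (x • Z)) ((A.D Z v : KFin L π) : H)) (Set.Icc (0 : ℝ) t) x :=
    fun x _ => (hP.line Z hZ v x).hasDerivWithinAt
  have h2 := norm_image_sub_le_of_norm_deriv_le_segment' (C := ‖A.D Z v‖) h1
    (fun x _ => by
      rw [LinearIsometryEquiv.norm_map]
      rfl) t ⟨ht, le_rfl⟩
  rw [zero_smul, e_zero, map_one, sub_zero] at h2
  rw [← norm_neg]
  have e : -((v : H) - π (L.e (t • Z)) (v : H)) = π (L.e (t • Z)) (v : H) - (1 : H ≃ₗᵢ[ℂ] H) (v : H) := by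
    show _ = π (L.e (t • Z)) (v : H) - (v : H)
    abel
  rw [e, mul_comm]
  exact h2

theorem c06_lint (L : LieData N G) (π : G →* (H ≃ₗᵢ[ℂ] H)) (A : LieRep N (KFin L π))
    (hP : IsPkg L π A) (μ : Measure G) [μ.IsHaarMeasure] [μ.IsMulRightInvariant]
    (ht : Tempered L π μ) {ε : ℝ} (hε : 0 < ε) {d : ℕ} (w : Fin d → H)
    (hw : ∀ i, w i ∈ KFin L π) (v : KFin L π) :
    ∫⁻ y, ENNReal.ofReal (Th L y ^ (-ε) * Fw π w (v : H) y) ∂μ =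
      ENNReal.ofReal (∑ i, (Bf L π μ ε (w i) v v).re) := by
  have h1 : ∀ i, Integrable (fun g => Th L g ^ (-ε) * ‖mc π (w i) (v : H) g‖ ^ 2) μ := by
    intro i
    have := Bf_integrable_norm L π A hP μ ht hε (hw i) v v
    refine this.congr (Filter.Eventually.of_forall fun g => ?_)
    show _ = Th L g ^ (-ε) * ‖mc π (w i) (v : H) g‖ ^ 2
    rw [sq]
  have h2 : ∀ y, Th L y ^ (-ε) * Fw π w (v : H) y =
      ∑ i, Th L y ^ (-ε) * ‖mc π (w i) (v : H) y‖ ^ 2 := by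
    intro y
    unfold Fw
    rw [Finset.mul_sum]
  have h3 : ∫ y, Th L y ^ (-ε) * Fw π w (v : H) y ∂μ = ∑ i, (Bf L π μ ε (w i) v v).re := by
    simp only [h2]
    rw [integral_finset_sum _ fun i _ => h1 i]
    refine Finset.sum_congr rfl fun i _ => ?_
    rw [Bf_self L π A hP μ ht hε (hw i) v, Complex.ofReal_re]
  rw [← h3, ofReal_integral_eq_lintegral_ofReal]
  · simp only [h2]
    exact integrable_finset_sum _ fun i _ => h1 i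
  · refine Filter.Eventually.of_forall fun g => ?_
    have h4 : 0 ≤ Th L g := zero_le_one.trans (one_le_Th L g)
    unfold Fw
    exact mul_nonneg (Real.rpow_nonneg h4 _) (Finset.sum_nonneg fun i _ => by positivity)

/-- the final computation with real numbers -/
theorem c06_real (F Θ κ ε a R V C₁ C₂ C₃ t₀ : ℝ) (hΘ : 1 ≤ Θ) (hκ : 0 < κ)
    (hε' : ε ≤ κ / 2) (hε1 : ε ≤ 1) (ha : 0 ≤ a) (hR : 1 ≤ R) (hV : 0 ≤ V) (h1 : 0 ≤ C₁)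
    (h2 : 0 ≤ C₂) (ht₀ : 0 < t₀)
    (h : (t₀ * Θ ^ (-(κ / 8))) * F ≤ 2 * (C₁ * Θ ^ (-κ + ε) * (C₂ * R ^ (a * (2 * ε)) * V)) +
      (t₀ * Θ ^ (-(κ / 8))) * (2 * ((t₀ * Θ ^ (-(κ / 8))) ^ 2 * (C₃ ^ 2 * R * V)))) :
    F ≤ (2 * C₁ * C₂ / t₀ + 2 * t₀ ^ 2 * C₃ ^ 2) * R ^ (2 * a + 1) * Θ ^ (-(κ / 4)) * V := by
  have hΘ0 : 0 < Θ := by linarith
  have hR0 : 0 < R := by linarith
  have hp : 0 < Θ ^ (-(κ / 8)) := Real.rpow_pos_of_pos hΘ0 _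
  have ht1 : 0 < t₀ * Θ ^ (-(κ / 8)) := mul_pos ht₀ hp
  have e1 : Θ ^ (-κ + ε) ≤ Θ ^ (-(κ / 8)) * Θ ^ (-(κ / 4)) := by
    rw [← Real.rpow_add hΘ0]
    exact Real.rpow_le_rpow_of_exponent_le hΘ (by linarith)
  have e2 : R ^ (a * (2 * ε)) ≤ R ^ (2 * a + 1) := by
    apply Real.rpow_le_rpow_of_exponent_le hR
    nlinarith
  have e3 : R ≤ R ^ (2 * a + 1) := by
    calc R = R ^ (1 : ℝ) := (Real.rpow_one R).symm
      _ ≤ _ := Real.rpow_le_rpow_of_exponent_le hR (by linarith)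
  have e4 : (Θ ^ (-(κ / 8))) ^ 2 = Θ ^ (-(κ / 4)) := by
    rw [← Real.rpow_natCast, ← Real.rpow_mul hΘ0.le]
    congr 1
    push_cast
    ring
  have hRp : 0 < R ^ (2 * a + 1) := Real.rpow_pos_of_pos hR0 _
  have hq : 0 < Θ ^ (-(κ / 4)) := Real.rpow_pos_of_pos hΘ0 _
  have hRe : 0 < R ^ (a * (2 * ε)) := Real.rpow_pos_of_pos hR0 _
  have k1 : 2 * (C₁ * Θ ^ (-κ + ε) * (C₂ * R ^ (a * (2 * ε)) * V)) ≤
      (t₀ * Θ ^ (-(κ / 8))) * ((2 * C₁ * C₂ / t₀) * R ^ (2 * a + 1) * Θ ^ (-(κ / 4)) * V) := by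
    have : 2 * (C₁ * Θ ^ (-κ + ε) * (C₂ * R ^ (a * (2 * ε)) * V)) ≤
        2 * (C₁ * (Θ ^ (-(κ / 8)) * Θ ^ (-(κ / 4))) * (C₂ * R ^ (2 * a + 1) * V)) := by
      gcongr
    refine this.trans (le_of_eq ?_)
    field_simp
  have k2 : (t₀ * Θ ^ (-(κ / 8))) * (2 * ((t₀ * Θ ^ (-(κ / 8))) ^ 2 * (C₃ ^ 2 * R * V))) ≤
      (t₀ * Θ ^ (-(κ / 8))) * ((2 * t₀ ^ 2 * C₃ ^ 2) * R ^ (2 * a + 1) * Θ ^ (-(κ / 4)) * V) := by
    apply mul_le_mul_of_nonneg_left _ ht1.le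
    rw [mul_pow, e4]
    have : 2 * (t₀ ^ 2 * Θ ^ (-(κ / 4)) * (C₃ ^ 2 * R * V)) ≤
        2 * (t₀ ^ 2 * Θ ^ (-(κ / 4)) * (C₃ ^ 2 * R ^ (2 * a + 1) * V)) := by
      gcongr
    refine this.trans (le_of_eq ?_)
    ring
  have k3 : (t₀ * Θ ^ (-(κ / 8))) * F ≤ (t₀ * Θ ^ (-(κ / 8))) *
      ((2 * C₁ * C₂ / t₀ + 2 * t₀ ^ 2 * C₃ ^ 2) * R ^ (2 * a + 1) * Θ ^ (-(κ / 4)) * V) := by
    calc _ ≤ _ := h
      _ ≤ _ := add_le_add k1 k2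
      _ = _ := by ring
  exact le_of_mul_le_mul_left k3 ht1


theorem decay (L : LieData N G) (π : G →* (H ≃ₗᵢ[ℂ] H)) (A : LieRep N (KFin L π))
    (hP : IsPkg L π A) (μ : Measure G) [μ.IsHaarMeasure] [μ.IsMulRightInvariant]
    (ht : Tempered L π μ) (hk : ∃ Z ∈ L.𝔤, Zᵀ = -Z ∧ Z ≠ 0) :
    ∃ κ : ℝ, 0 < κ ∧ ∃ a : ℝ, 0 ≤ a ∧ ∀ w ∈ KFin L π, ∃ C : ℝ, 0 < C ∧ ∀ R : ℝ, 1 ≤ R →
      ∀ v ∈ A.low R, ∀ g : G, ‖mc π w (v : H) g‖ ≤ C * R ^ a * Th L g ^ (-κ) * ‖v‖ := by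
  obtain ⟨κ, hκ, t₀, ht₀, hav⟩ := avg L π A hP μ hk
  obtain ⟨a, ha, hch⟩ := A.chain_sob hP.adm
  obtain ⟨C₃, hC₃, hD⟩ := A.norm_D_le hP.adm
  refine ⟨κ / 8, by positivity, a + 1 / 2, by positivity, ?_⟩
  intro w₀ hw₀
  obtain ⟨d, w, hwK, ho, hsp, -, C₁, hC₁, hg⟩ := hav w₀ hw₀
  obtain ⟨ε, hε0, hε1, hε2⟩ : ∃ ε : ℝ, 0 < ε ∧ ε ≤ 1 ∧ ε ≤ κ / 2 :=
    ⟨min 1 (κ / 2), lt_min one_pos (by positivity), min_le_left _ _, min_le_right _ _⟩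
  have hc : ∀ i, ∃ C : ℝ, 1 ≤ C ∧ ∀ R : ℝ, 1 ≤ R → ∀ v ∈ A.low R,
      (Bf L π μ ε (w i) v v).re ≤ C * R ^ (a * (2 * ε)) * ‖v‖ ^ 2 := by
    intro i
    obtain ⟨C, hC, -, h2⟩ := hch (2 * ε) (by positivity) _
      (almostInv L π A hP μ ht hε0 (hwK i) (ho.ne_zero i))
    exact ⟨C, hC, h2⟩
  choose Ci hCi1 hCi2 using hc
  have hC₂ : 0 ≤ ∑ i, Ci i := Finset.sum_nonneg fun i _ => zero_le_one.trans (hCi1 i)
  have hC' : 0 ≤ 2 * C₁ * (∑ i, Ci i) / t₀ + 2 * t₀ ^ 2 * C₃ ^ 2 := by positivity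
  have key : ∀ R : ℝ, 1 ≤ R → ∀ v ∈ A.low R, ∀ g : G,
      Fw π w (v : H) g ≤ (2 * C₁ * (∑ i, Ci i) / t₀ + 2 * t₀ ^ 2 * C₃ ^ 2) * R ^ (2 * a + 1) *
        Th L g ^ (-(κ / 4)) * ‖v‖ ^ 2 := by
    intro R hR v hv g
    have hR0 : 0 < R := by linarith
    obtain ⟨Z, hZ, hZt, hZ1, hint⟩ := hg g
    have i1 := hint ε hε0.le hε1 (v : H)
    rw [c06_lint L π A hP μ ht hε0 w hwK v] at i1
    have i2 : ∑ i, (Bf L π μ ε (w i) v v).re ≤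
        (∑ i, Ci i) * R ^ (a * (2 * ε)) * ‖v‖ ^ 2 := by
      calc _ ≤ ∑ i, Ci i * R ^ (a * (2 * ε)) * ‖v‖ ^ 2 :=
            Finset.sum_le_sum fun i _ => hCi2 i R hR v hv
        _ = _ := by rw [← Finset.sum_mul, ← Finset.sum_mul]
    have hΘ : 1 ≤ Th L g := one_le_Th L g
    have hΘ0 : 0 < Th L g := by linarith
    have hp : 0 < Th L g ^ (-(κ / 8)) := Real.rpow_pos_of_pos hΘ0 _
    have hp1 : Th L g ^ (-(κ / 8)) ≤ 1 :=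
      Real.rpow_le_one_of_one_le_of_nonpos hΘ (by linarith)
    apply c06_real (Fw π w (v : H) g) (Th L g) κ ε a R (‖v‖ ^ 2) C₁ (∑ i, Ci i) C₃ t₀ hΘ hκ hε2
      hε1 ha.le hR (by positivity) hC₁.le hC₂ ht₀
    obtain ⟨t₁, ht₁e⟩ : ∃ t₁, t₁ = t₀ * Th L g ^ (-(κ / 8)) := ⟨_, rfl⟩
    rw [← ht₁e]
    have ht₁ : 0 < t₁ := by rw [ht₁e]; positivity
    have ht₁' : t₁ ≤ t₀ := by
      rw [ht₁e]
      calc t₀ * Th L g ^ (-(κ / 8)) ≤ t₀ * 1 := by gcongr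
        _ = t₀ := mul_one _
    have hF0 : ∀ x : G, 0 ≤ Fw π w (v : H) x := fun x =>
      Finset.sum_nonneg fun i _ => by positivity
    have pw : ∀ t ∈ Set.Icc 0 t₁, Fw π w (v : H) g ≤ 2 * Fw π w (v : H) (g * L.e (t • Z)) +
        2 * (t₁ ^ 2 * (C₃ ^ 2 * R * ‖v‖ ^ 2)) := by
      intro t htt
      have p1 := c06_two L π w ho (v : H) g (L.e (t • Z))
      have p2 := c06_line L π A hP Z hZ v t htt.1
      have p3 := hD Z (by rw [hP.g_eq]; exact hZ) R hR v hv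
      rw [hZ1, Real.sqrt_one, mul_one] at p3
      have p4 : ‖(v : H) - π (L.e (t • Z)) (v : H)‖ ≤ t₁ * (C₃ * Real.sqrt R * ‖v‖) := by
        calc _ ≤ t * ‖A.D Z v‖ := p2
          _ ≤ t₁ * (C₃ * Real.sqrt R * ‖v‖) := by
            apply mul_le_mul htt.2 p3 (norm_nonneg _) ht₁.le
      have p5 : ‖(v : H) - π (L.e (t • Z)) (v : H)‖ ^ 2 ≤ t₁ ^ 2 * (C₃ ^ 2 * R * ‖v‖ ^ 2) := by
        calc _ ≤ (t₁ * (C₃ * Real.sqrt R * ‖v‖)) ^ 2 := pow_le_pow_left₀ (norm_nonneg _) p4 2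
          _ = _ := by rw [mul_pow, mul_pow, mul_pow, Real.sq_sqrt hR0.le]
      linarith
    have hE0 : 0 ≤ 2 * (t₁ ^ 2 * (C₃ ^ 2 * R * ‖v‖ ^ 2)) := by positivity
    have hM0 : 0 ≤ C₁ * Th L g ^ (-κ + ε) := by positivity
    have hN0 : 0 ≤ (∑ i, Ci i) * R ^ (a * (2 * ε)) * ‖v‖ ^ 2 := by positivity
    have int1 : ENNReal.ofReal (t₁ * Fw π w (v : H) g) ≤
        ENNReal.ofReal (2 * (C₁ * Th L g ^ (-κ + ε) *
          ((∑ i, Ci i) * R ^ (a * (2 * ε)) * ‖v‖ ^ 2)) +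
          t₁ * (2 * (t₁ ^ 2 * (C₃ ^ 2 * R * ‖v‖ ^ 2)))) := by
      calc ENNReal.ofReal (t₁ * Fw π w (v : H) g)
          = ∫⁻ _ in Set.Icc 0 t₁, ENNReal.ofReal (Fw π w (v : H) g) := by
            rw [setLIntegral_const, Real.volume_Icc, sub_zero, ENNReal.ofReal_mul ht₁.le, mul_comm]
        _ ≤ ∫⁻ t in Set.Icc 0 t₁, (ENNReal.ofReal 2 *
              ENNReal.ofReal (Fw π w (v : H) (g * L.e (t • Z))) +
              ENNReal.ofReal (2 * (t₁ ^ 2 * (C₃ ^ 2 * R * ‖v‖ ^ 2)))) := by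
            apply setLIntegral_mono' measurableSet_Icc
            intro t htt
            rw [← ENNReal.ofReal_mul zero_le_two, ← ENNReal.ofReal_add
              (mul_nonneg zero_le_two (hF0 _)) hE0]
            exact ENNReal.ofReal_le_ofReal (pw t htt)
        _ = ENNReal.ofReal 2 * (∫⁻ t in Set.Icc 0 t₁,
              ENNReal.ofReal (Fw π w (v : H) (g * L.e (t • Z)))) +
              ENNReal.ofReal (t₁ * (2 * (t₁ ^ 2 * (C₃ ^ 2 * R * ‖v‖ ^ 2)))) := by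
            rw [lintegral_add_right _ measurable_const,
              lintegral_const_mul' _ _ ENNReal.ofReal_ne_top, setLIntegral_const,
              Real.volume_Icc, sub_zero, ENNReal.ofReal_mul ht₁.le, mul_comm (ENNReal.ofReal t₁)]
        _ ≤ ENNReal.ofReal 2 * (ENNReal.ofReal (C₁ * Th L g ^ (-κ + ε)) *
              ENNReal.ofReal ((∑ i, Ci i) * R ^ (a * (2 * ε)) * ‖v‖ ^ 2)) +
              ENNReal.ofReal (t₁ * (2 * (t₁ ^ 2 * (C₃ ^ 2 * R * ‖v‖ ^ 2)))) := by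
            gcongr
            refine (lintegral_mono_set (Set.Icc_subset_Icc_right ht₁')).trans (i1.trans ?_)
            gcongr
        _ = _ := by
            rw [← ENNReal.ofReal_mul hM0, ← ENNReal.ofReal_mul zero_le_two,
              ← ENNReal.ofReal_add (by positivity) (by positivity)]
    exact (ENNReal.ofReal_le_ofReal_iff (by positivity)).1 int1
  obtain ⟨c, hcw⟩ := (Submodule.mem_span_range_iff_exists_fun ℂ).1 hsp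
  refine ⟨(∑ i, ‖c i‖) * Real.sqrt (2 * C₁ * (∑ i, Ci i) / t₀ + 2 * t₀ ^ 2 * C₃ ^ 2) + 1,
    by positivity, ?_⟩
  intro R hR v hv g
  have hR0 : 0 < R := by linarith
  have hΘ : 1 ≤ Th L g := one_le_Th L g
  have hΘ0 : 0 < Th L g := by linarith
  have hk1 := key R hR v hv g
  have hRp : 0 < R ^ (a + 1 / 2) := Real.rpow_pos_of_pos hR0 _
  have hq : 0 < Th L g ^ (-(κ / 8)) := Real.rpow_pos_of_pos hΘ0 _
  have e1 : R ^ (2 * a + 1) = (R ^ (a + 1 / 2)) ^ 2 := by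
    rw [← Real.rpow_natCast, ← Real.rpow_mul hR0.le]
    congr 1
    push_cast
    ring
  have e2 : Th L g ^ (-(κ / 4)) = (Th L g ^ (-(κ / 8))) ^ 2 := by
    rw [← Real.rpow_natCast, ← Real.rpow_mul hΘ0.le]
    congr 1
    push_cast
    ring
  have hmi : ∀ i, ‖mc π (w i) (v : H) g‖ ≤
      Real.sqrt (2 * C₁ * (∑ i, Ci i) / t₀ + 2 * t₀ ^ 2 * C₃ ^ 2) * R ^ (a + 1 / 2) *
        Th L g ^ (-(κ / 8)) * ‖v‖ := by
    intro i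
    apply le_of_sq_le_sq _ (by positivity)
    calc ‖mc π (w i) (v : H) g‖ ^ 2 ≤ Fw π w (v : H) g :=
          Finset.single_le_sum (f := fun i => ‖mc π (w i) (v : H) g‖ ^ 2)
            (fun i _ => by positivity) (Finset.mem_univ i)
      _ ≤ _ := hk1
      _ = _ := by rw [mul_pow, mul_pow, mul_pow, Real.sq_sqrt hC', e1, e2]
  have e3 : mc π w₀ (v : H) g = ∑ i, (starRingEnd ℂ) (c i) * mc π (w i) (v : H) g := by
    unfold mc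
    rw [← hcw, sum_inner]
    exact Finset.sum_congr rfl fun i _ => by rw [inner_smul_left]
  rw [e3]
  calc ‖∑ i, (starRingEnd ℂ) (c i) * mc π (w i) (v : H) g‖
      ≤ ∑ i, ‖(starRingEnd ℂ) (c i) * mc π (w i) (v : H) g‖ := norm_sum_le _ _
    _ ≤ ∑ i, ‖c i‖ * (Real.sqrt (2 * C₁ * (∑ i, Ci i) / t₀ + 2 * t₀ ^ 2 * C₃ ^ 2) *
        R ^ (a + 1 / 2) * Th L g ^ (-(κ / 8)) * ‖v‖) := by
        apply Finset.sum_le_sum
        intro i _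
        rw [norm_mul, RCLike.norm_conj]
        exact mul_le_mul_of_nonneg_left (hmi i) (norm_nonneg _)
    _ = ((∑ i, ‖c i‖) * Real.sqrt (2 * C₁ * (∑ i, Ci i) / t₀ + 2 * t₀ ^ 2 * C₃ ^ 2)) *
        R ^ (a + 1 / 2) * Th L g ^ (-(κ / 8)) * ‖v‖ := by
        rw [← Finset.sum_mul]
        ring
    _ ≤ _ := by
        have : 0 ≤ R ^ (a + 1 / 2) * Th L g ^ (-(κ / 8)) * ‖v‖ := by positivity
        nlinarith

end SBD
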