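import Pool.Agent.SBD.C06

/-!
# Row SBD-C07 : `‖m_v‖_r ≤ C_δ R^δ ‖v‖` for `v ∈ low R`

PROOF.  `w = 0`: trivial.  `r = ∞`: `‖mc π w v g‖ ≤ ‖w‖‖v‖`.  Let `2 < r < ∞` (real number `r`), `κ, a, C₀` from
C06, `a₁` from A16.  Let `0 < η ≤ 1`, `ε = κη(r-2)`.  Pointwise
`|m| ≤ ‖w‖‖v‖` and `|m| ≤ C₀R^aΘ^{-κ}‖v‖` give `|m| ≤ (‖w‖‖v‖)^{1-η}(C₀R^aΘ^{-κ}‖v‖)^η`, so
`|m|^{r-2} ≤ C₁ R^{aη(r-2)} Θ^{-ε} ‖v‖^{r-2}`, and
`∫|m|^r ≤ C₁R^{aη(r-2)}‖v‖^{r-2} ∫Θ^{-ε}|m|² = C₁R^{aη(r-2)}‖v‖^{r-2} Re Bf(ε,w)(v,v)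
≤ C₂ R^{aη(r-2)+2a₁ε}‖v‖^r` (M06 and the second clause of `chain_sob`).  The `r`-th root has exponent
`≤ η(a + 2a₁κ)(r-2)/r ≤ η(a+2a₁κ) ≤ δ` for `η` small; `C₂` depends on `η, r, w` only.
-/

open MeasureTheory Filter Topology
open scoped ENNReal NNReal Matrix

noncomputable section

namespace SBD

variable {N : ℕ} {G : Type} [Group G] [TopologicalSpace G] [IsTopologicalGroup G]
  [LocallyCompactSpace G] [T2Space G]
variable [SecondCountableTopology G] [MeasurableSpace G] [BorelSpace G]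
variable {H : Type} [NormedAddCommGroup H] [InnerProductSpace ℂ H] [CompleteSpace H]

omit [SecondCountableTopology G] [IsTopologicalGroup G] [LocallyCompactSpace G] [T2Space G]
  [CompleteSpace H] [MeasurableSpace G] [BorelSpace G] in
private theorem c07_bd (L : LieData N G) (π : G →* (H ≃ₗᵢ[ℂ] H)) (w : H) (v : KFin L π) (g : G) :
    ‖mc π w (v : H) g‖ ≤ ‖w‖ * ‖v‖ := by
  unfold mc
  refine (norm_inner_le_norm _ _).trans ?_
  rw [LinearIsometryEquiv.norm_map]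
  exact le_rfl

/-- `x ≤ P`, `x ≤ Q T` give `x ^ ρ ≤ P ^ ((1-η)(ρ-2)) Q ^ (η(ρ-2)) T ^ (η(ρ-2)) x ^ 2` -/
private theorem c07_pt {x P Q T η ρ : ℝ} (hx : 0 ≤ x) (hP : 0 ≤ P) (hQ : 0 ≤ Q) (hT : 0 < T)
    (hxP : x ≤ P) (hxQ : x ≤ Q * T) (hη : 0 < η) (hη1 : η ≤ 1) (hρ : 2 < ρ) :
    x ^ ρ ≤ P ^ ((1 - η) * (ρ - 2)) * Q ^ (η * (ρ - 2)) * T ^ (η * (ρ - 2)) * x ^ 2 := by
  have h2 : 0 < ρ - 2 := by linarith
  have h3 : 0 ≤ (1 - η) * (ρ - 2) := mul_nonneg (by linarith) h2.le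
  have h4 : 0 ≤ η * (ρ - 2) := by positivity
  have h5 : x ^ ρ = x ^ ((1 - η) * (ρ - 2)) * x ^ (η * (ρ - 2)) * x ^ 2 := by
    rcases eq_or_lt_of_le hx with h0 | h0
    · rw [← h0, Real.zero_rpow (by linarith)]
      simp
    · rw [← Real.rpow_add h0, ← Real.rpow_natCast x 2, ← Real.rpow_add h0]
      congr 1
      push_cast
      ring
  rw [h5]
  have h6 : x ^ ((1 - η) * (ρ - 2)) ≤ P ^ ((1 - η) * (ρ - 2)) := Real.rpow_le_rpow hx hxP h3
  have h7 : x ^ (η * (ρ - 2)) ≤ Q ^ (η * (ρ - 2)) * T ^ (η * (ρ - 2)) := by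
    rw [← Real.mul_rpow hQ hT.le]
    exact Real.rpow_le_rpow hx hxQ h4
  have h8 : x ^ ((1 - η) * (ρ - 2)) * x ^ (η * (ρ - 2)) ≤
      P ^ ((1 - η) * (ρ - 2)) * (Q ^ (η * (ρ - 2)) * T ^ (η * (ρ - 2))) :=
    mul_le_mul h6 h7 (Real.rpow_nonneg hx _) (Real.rpow_nonneg hP _)
  calc x ^ ((1 - η) * (ρ - 2)) * x ^ (η * (ρ - 2)) * x ^ 2
      ≤ P ^ ((1 - η) * (ρ - 2)) * (Q ^ (η * (ρ - 2)) * T ^ (η * (ρ - 2))) * x ^ 2 :=
        mul_le_mul_of_nonneg_right h8 (by positivity)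
    _ = _ := by ring

theorem block (L : LieData N G) (π : G →* (H ≃ₗᵢ[ℂ] H)) (A : LieRep N (KFin L π))
    (hP : IsPkg L π A) (μ : Measure G) [μ.IsHaarMeasure] [μ.IsMulRightInvariant]
    (ht : Tempered L π μ) (hk : ∃ Z ∈ L.𝔤, Zᵀ = -Z ∧ Z ≠ 0) (w : H) (hw : w ∈ KFin L π)
    (r : ℝ≥0∞) (hr : 2 < r) (δ : ℝ) (hδ : 0 < δ) :
    ∃ C : ℝ, 0 < C ∧ ∀ R : ℝ, 1 ≤ R → ∀ v ∈ A.low R,
      pr π μ w r (v : H) ≤ ENNReal.ofReal (C * R ^ δ * ‖v‖) := by
  obtain ⟨κ, hκ, a, ha, hdec⟩ := decay L π A hP μ ht hk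
  obtain ⟨a₁, ha₁, hch⟩ := A.chain_sob hP.adm
  by_cases hw0 : w = 0
  · refine ⟨1, one_pos, fun R hR v hv => ?_⟩
    have h1 : mc π w (v : H) = 0 := by
      funext g
      simp [mc, hw0]
    unfold pr
    rw [h1, eLpNorm_zero]
    exact zero_le
  by_cases hri : r = ∞
  · refine ⟨‖w‖ + 1, by positivity, fun R hR v hv => ?_⟩
    unfold pr
    rw [hri, eLpNorm_exponent_top]
    refine (eLpNormEssSup_le_of_ae_bound (C := ‖w‖ * ‖v‖)
      (Filter.Eventually.of_forall fun g => c07_bd L π w v g)).trans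
      (ENNReal.ofReal_le_ofReal ?_)
    have h1 : 1 ≤ R ^ δ := Real.one_le_rpow hR hδ.le
    have h2 : ‖w‖ * 1 ≤ (‖w‖ + 1) * R ^ δ :=
      mul_le_mul (by linarith) h1 zero_le_one (by positivity)
    calc ‖w‖ * ‖v‖ = (‖w‖ * 1) * ‖v‖ := by ring
      _ ≤ ((‖w‖ + 1) * R ^ δ) * ‖v‖ := mul_le_mul_of_nonneg_right h2 (norm_nonneg _)
  -- the main case
  obtain ⟨C₀, hC₀, hdec⟩ := hdec w hw
  set ρ : ℝ := r.toReal with hρdef
  have hρ : 2 < ρ := by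
    have h1 := (ENNReal.toReal_lt_toReal ENNReal.ofNat_ne_top hri).2 hr
    simpa using h1
  have hr0 : r ≠ 0 := fun h => by
    rw [h] at hr
    exact absurd hr (by simp)
  set η : ℝ := min 1 (δ / (a + 2 * a₁ * κ + 1)) with hηdef
  have hden : 0 < a + 2 * a₁ * κ + 1 := by positivity
  have hη : 0 < η := lt_min one_pos (by positivity)
  have hη1 : η ≤ 1 := min_le_left _ _
  have hηδ : η * (a + 2 * a₁ * κ) ≤ δ := by
    have h1 : η ≤ δ / (a + 2 * a₁ * κ + 1) := min_le_right _ _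
    have h2 : 0 ≤ a + 2 * a₁ * κ := by positivity
    calc η * (a + 2 * a₁ * κ) ≤ δ / (a + 2 * a₁ * κ + 1) * (a + 2 * a₁ * κ) :=
          mul_le_mul_of_nonneg_right h1 h2
      _ ≤ δ / (a + 2 * a₁ * κ + 1) * (a + 2 * a₁ * κ + 1) :=
          mul_le_mul_of_nonneg_left (by linarith) (by positivity)
      _ = δ := by field_simp
  set ε : ℝ := κ * (η * (ρ - 2)) with hεdef
  have hρ2 : 0 < ρ - 2 := by linarith
  have hε : 0 < ε := by positivity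
  obtain ⟨C', hC', -, hlow⟩ := hch (2 * ε) (by positivity) (Bf L π μ ε w)
    (almostInv L π A hP μ ht hε hw hw0)
  have hwn : 0 < ‖w‖ := norm_pos_iff.2 hw0
  set C₁ : ℝ := ‖w‖ ^ ((1 - η) * (ρ - 2)) * C₀ ^ (η * (ρ - 2)) with hC₁def
  have hC₁ : 0 < C₁ := by positivity
  refine ⟨C₁ * C' + 1, by positivity, fun R hR v hv => ?_⟩
  have hR0 : 0 < R := by linarith
  have hRa : 0 < R ^ a := Real.rpow_pos_of_pos hR0 _
  have hvn : 0 ≤ ‖v‖ := norm_nonneg v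
  have hTh : ∀ g, 0 < Th L g := fun g => lt_of_lt_of_le one_pos (one_le_Th L g)
  -- pointwise
  set K : ℝ := C₁ * R ^ (a * (η * (ρ - 2))) * ‖v‖ ^ (ρ - 2) with hKdef
  have hK : 0 ≤ K := by positivity
  have hpt : ∀ g, ‖mc π w (v : H) g‖ ^ ρ ≤ K * (Th L g ^ (-ε) * (‖mc π w (v : H) g‖ ^ 2)) := by
    intro g
    have h1 := c07_pt (norm_nonneg (mc π w (v : H) g)) (mul_nonneg hwn.le hvn)
      (show 0 ≤ C₀ * R ^ a * ‖v‖ by positivity)
      (show 0 < Th L g ^ (-κ) from Real.rpow_pos_of_pos (hTh g) _) (c07_bd L π w v g)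
      (show ‖mc π w (v : H) g‖ ≤ C₀ * R ^ a * ‖v‖ * Th L g ^ (-κ) by
        have := hdec R hR v hv g
        calc _ ≤ _ := this
          _ = _ := by ring) hη hη1 hρ
    refine h1.trans (le_of_eq ?_)
    have h2 : (Th L g ^ (-κ)) ^ (η * (ρ - 2)) = Th L g ^ (-ε) := by
      rw [← Real.rpow_mul (hTh g).le, hεdef]
      congr 1
      ring
    have h3 : (‖w‖ * ‖v‖) ^ ((1 - η) * (ρ - 2)) =
        ‖w‖ ^ ((1 - η) * (ρ - 2)) * ‖v‖ ^ ((1 - η) * (ρ - 2)) := Real.mul_rpow hwn.le hvn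
    have h4 : (C₀ * R ^ a * ‖v‖) ^ (η * (ρ - 2)) =
        C₀ ^ (η * (ρ - 2)) * R ^ (a * (η * (ρ - 2))) * ‖v‖ ^ (η * (ρ - 2)) := by
      rw [Real.mul_rpow (by positivity) hvn, Real.mul_rpow hC₀.le hRa.le, ← Real.rpow_mul hR0.le]
    have h5 : ‖v‖ ^ ((1 - η) * (ρ - 2)) * ‖v‖ ^ (η * (ρ - 2)) = ‖v‖ ^ (ρ - 2) := by
      rw [← Real.rpow_add_of_nonneg hvn (mul_nonneg (by linarith) hρ2.le) (by positivity)]
      congr 1
      ring
    rw [h2, h3, h4, hKdef, ← h5, hC₁def]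
    ring
  have hint : Integrable (fun g => K * (Th L g ^ (-ε) * (‖mc π w (v : H) g‖ ^ 2))) μ := by
    refine Integrable.const_mul ?_ K
    have h1 := Bf_integrable_norm L π A hP μ ht hε hw v v
    refine h1.congr (Filter.Eventually.of_forall fun g => ?_)
    show _ = Th L g ^ (-ε) * (‖mc π w (v : H) g‖ ^ 2)
    rw [pow_two]
  have hself : (∫ g, Th L g ^ (-ε) * ‖mc π w (v : H) g‖ ^ 2 ∂μ) = (Bf L π μ ε w v v).re := by
    rw [Bf_self L π A hP μ ht hε hw v, Complex.ofReal_re]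
  have hI : ∫⁻ g, ‖mc π w (v : H) g‖ₑ ^ ρ ∂μ ≤
      ENNReal.ofReal (((C₁ * C' + 1) * R ^ δ * ‖v‖) ^ ρ) := by
    calc ∫⁻ g, ‖mc π w (v : H) g‖ₑ ^ ρ ∂μ
        ≤ ∫⁻ g, ENNReal.ofReal (K * (Th L g ^ (-ε) * (‖mc π w (v : H) g‖ ^ 2))) ∂μ := by
          refine lintegral_mono fun g => ?_
          rw [← ofReal_norm, ENNReal.ofReal_rpow_of_nonneg (norm_nonneg _) (by linarith)]
          exact ENNReal.ofReal_le_ofReal (hpt g)
      _ = ENNReal.ofReal (∫ g, K * (Th L g ^ (-ε) * (‖mc π w (v : H) g‖ ^ 2)) ∂μ) :=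
          (ofReal_integral_eq_lintegral_ofReal hint (Filter.Eventually.of_forall fun g =>
            mul_nonneg hK (mul_nonneg (Real.rpow_nonneg (hTh g).le _) (by positivity)))).symm
      _ = ENNReal.ofReal (K * (Bf L π μ ε w v v).re) := by
          rw [integral_const_mul, hself]
      _ ≤ ENNReal.ofReal (((C₁ * C' + 1) * R ^ δ * ‖v‖) ^ ρ) := by
          refine ENNReal.ofReal_le_ofReal ?_
          have h1 := hlow R hR v hv
          have h2 : ‖v‖ ^ (ρ - 2) * ‖v‖ ^ 2 = ‖v‖ ^ ρ := by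
            rw [← Real.rpow_natCast ‖v‖ 2, ← Real.rpow_add_of_nonneg hvn hρ2.le (by positivity)]
            congr 1
            push_cast
            ring
          have h3 : R ^ (a * (η * (ρ - 2))) * R ^ (a₁ * (2 * ε)) ≤ R ^ (δ * ρ) := by
            rw [← Real.rpow_add hR0]
            refine Real.rpow_le_rpow_of_exponent_le hR ?_
            calc a * (η * (ρ - 2)) + a₁ * (2 * ε) = η * (a + 2 * a₁ * κ) * (ρ - 2) := by
                  rw [hεdef]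
                  ring
              _ ≤ δ * (ρ - 2) := mul_le_mul_of_nonneg_right hηδ hρ2.le
              _ ≤ δ * ρ := mul_le_mul_of_nonneg_left (by linarith) hδ.le
          have h4 : C₁ * C' ≤ (C₁ * C' + 1) ^ ρ := by
            have h5 : 1 ≤ C₁ * C' + 1 := by
              have : 0 < C₁ * C' := by positivity
              linarith
            have h6 : (C₁ * C' + 1) ^ (1 : ℝ) ≤ (C₁ * C' + 1) ^ ρ :=
              Real.rpow_le_rpow_of_exponent_le h5 (by linarith)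
            rw [Real.rpow_one] at h6
            linarith
          have hC'0 : 0 < C' := by linarith
          calc K * (Bf L π μ ε w v v).re
              ≤ K * (C' * R ^ (a₁ * (2 * ε)) * ‖v‖ ^ 2) := mul_le_mul_of_nonneg_left h1 hK
            _ = C₁ * C' * (R ^ (a * (η * (ρ - 2))) * R ^ (a₁ * (2 * ε))) *
                  (‖v‖ ^ (ρ - 2) * ‖v‖ ^ 2) := by
                rw [hKdef]
                ring
            _ ≤ (C₁ * C' + 1) ^ ρ * R ^ (δ * ρ) * ‖v‖ ^ ρ := by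
                rw [h2]
                refine mul_le_mul_of_nonneg_right ?_ (Real.rpow_nonneg hvn _)
                exact mul_le_mul h4 h3 (by positivity) (by positivity)
            _ = ((C₁ * C' + 1) * R ^ δ * ‖v‖) ^ ρ := by
                rw [Real.mul_rpow (by positivity) hvn, Real.mul_rpow (by positivity)
                  (by positivity), ← Real.rpow_mul hR0.le]
  unfold pr
  rw [eLpNorm_eq_lintegral_rpow_enorm_toReal hr0 hri, ← hρdef]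
  calc (∫⁻ g, ‖mc π w (v : H) g‖ₑ ^ ρ ∂μ) ^ (1 / ρ)
      ≤ (ENNReal.ofReal (((C₁ * C' + 1) * R ^ δ * ‖v‖) ^ ρ)) ^ (1 / ρ) :=
        ENNReal.rpow_le_rpow hI (by positivity)
    _ = ENNReal.ofReal ((C₁ * C' + 1) * R ^ δ * ‖v‖) := by
        rw [ENNReal.ofReal_rpow_of_nonneg (by positivity) (by positivity),
          ← Real.rpow_mul (by positivity), mul_one_div_cancel (by linarith), Real.rpow_one]

end SBD
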