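import Pool.Agent.SBD.An
import Pool.Agent.SBD.A02

/-!
# Row SBD-P16 : the operators `D_s` in terms of the eigenspaces of `Δ`

* `sob_iff` : `→`: given `x_i, c_i`, group by the value `l = 1 + c_i ≥ 1`: `s' = image (1 + c_i)`,
  `f l = ∑_{i : 1+c_i = l} x_i ∈ A.eig l` (`IsPkg.cas`).  `←`: enumerate the finset.
* `sob_exists_unique` : existence by `mem_all` (A02) [drop the terms with `l < 1`, which vanish by
  `eig_ge`]; uniqueness: if `u = ∑_{l∈s} f l = ∑_{l∈s'} f' l` then (make both functions 0 outside,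
  union of the supports) `f l = f' l` by orthogonality of the eigenspaces, so `D_s u` agrees.
  `v ∈ KFin` is automatic.
-/

open MeasureTheory Filter Topology
open scoped ENNReal NNReal Matrix

noncomputable section

namespace SBD

variable {N : ℕ} {G : Type} [Group G] [TopologicalSpace G] [IsTopologicalGroup G]
  [LocallyCompactSpace G] [T2Space G]
variable {H : Type} [NormedAddCommGroup H] [InnerProductSpace ℂ H] [CompleteSpace H]

/-- an eigenvector decomposition of `0` is trivial -/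
private theorem p16_zero {V : Type} [NormedAddCommGroup V] [InnerProductSpace ℂ V]
    (A : LieRep N V) (s : Finset ℝ) (F : ℝ → V) (hF : ∀ l ∈ s, F l ∈ A.eig l)
    (h0 : ∑ l ∈ s, F l = 0) : ∀ l ∈ s, F l = 0 := by
  have h1 := LieRep.norm_sq_sum A s F hF
  rw [h0, norm_zero, zero_pow two_ne_zero] at h1
  have h2 := (Finset.sum_eq_zero_iff_of_nonneg (fun l _ => sq_nonneg ‖F l‖)).mp h1.symm
  intro l hl
  exact norm_eq_zero.mp (pow_eq_zero_iff two_ne_zero |>.mp (h2 l hl))

private theorem p16_ite {V : Type} [NormedAddCommGroup V] [InnerProductSpace ℂ V]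
    (s t : Finset ℝ) (f : ℝ → V) (h : s ⊆ t) (g : ℝ → ℂ) :
    ∑ l ∈ s, g l • f l = ∑ l ∈ t, g l • (if l ∈ s then f l else 0) := by
  classical
  rw [← Finset.sum_subset h (fun l _ hl => by rw [if_neg hl, smul_zero])]
  refine Finset.sum_congr rfl fun l hl => ?_
  rw [if_pos hl]

private theorem p16_uniq {V : Type} [NormedAddCommGroup V] [InnerProductSpace ℂ V]
    (A : LieRep N V) (s s' : Finset ℝ) (f f' : ℝ → V) (hf : ∀ l ∈ s, f l ∈ A.eig l)
    (hf' : ∀ l ∈ s', f' l ∈ A.eig l) (h : ∑ l ∈ s, f l = ∑ l ∈ s', f' l) (g : ℝ → ℂ) :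
    ∑ l ∈ s, g l • f l = ∑ l ∈ s', g l • f' l := by
  classical
  have e1 := fun g : ℝ → ℂ => p16_ite s (s ∪ s') f Finset.subset_union_left g
  have e2 := fun g : ℝ → ℂ => p16_ite s' (s ∪ s') f' Finset.subset_union_right g
  have h0 : ∑ l ∈ s ∪ s', ((if l ∈ s then f l else 0) - (if l ∈ s' then f' l else 0)) = 0 := by
    rw [Finset.sum_sub_distrib]
    have a1 := e1 (fun _ => 1)
    have a2 := e2 (fun _ => 1)
    simp only [one_smul] at a1 a2
    rw [← a1, ← a2, h, sub_self]
  have h1 := p16_zero A (s ∪ s')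
    (fun l => (if l ∈ s then f l else 0) - (if l ∈ s' then f' l else 0)) (by
      intro l _
      refine Submodule.sub_mem _ ?_ ?_
      · split_ifs with hl
        · exact hf l hl
        · exact Submodule.zero_mem _
      · split_ifs with hl
        · exact hf' l hl
        · exact Submodule.zero_mem _) h0
  rw [e1 g, e2 g, ← sub_eq_zero, ← Finset.sum_sub_distrib]
  refine Finset.sum_eq_zero fun l hl => ?_
  rw [← smul_sub, h1 l hl, smul_zero]

variable (L : LieData N G) (π : G →* (H ≃ₗᵢ[ℂ] H)) (A : LieRep N (KFin L π)) (hP : IsPkg L π A)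

include hP

theorem sob_iff (S : ℝ) (u v : H) : Sob L π S u v ↔
    ∃ (s : Finset ℝ) (f : ℝ → KFin L π), (∀ l ∈ s, 1 ≤ l ∧ f l ∈ A.eig l) ∧
      u = ((∑ l ∈ s, f l : KFin L π) : H) ∧
      v = ((∑ l ∈ s, ((l ^ (S / 2) : ℝ) : ℂ) • f l : KFin L π) : H) := by
  classical
  constructor
  · rintro ⟨n, x, c, h, hu, hv⟩
    let y : Fin n → KFin L π := fun i => ⟨x i, (h i).1⟩
    refine ⟨Finset.univ.image fun i => 1 + c i,
      fun l => ∑ i ∈ Finset.univ.filter (fun i => 1 + c i = l), y i, ?_, ?_, ?_⟩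
    · intro l hl
      obtain ⟨i, -, rfl⟩ := Finset.mem_image.mp hl
      refine ⟨by linarith [(h i).2.1], ?_⟩
      refine Submodule.sum_mem _ fun j hj => ?_
      rw [← (Finset.mem_filter.mp hj).2]
      exact (hP.cas (y j) (c j)).mp (h j).2.2
    · rw [Finset.sum_fiberwise_of_maps_to (fun i _ => Finset.mem_image_of_mem _ (Finset.mem_univ i)),
        hu, Submodule.coe_sum]
    · have h1 : ∑ l ∈ Finset.univ.image (fun i => 1 + c i), ((l ^ (S / 2) : ℝ) : ℂ) •
          ∑ i ∈ Finset.univ.filter (fun i => 1 + c i = l), y i =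
          ∑ i, (((1 + c i) ^ (S / 2) : ℝ) : ℂ) • y i := by
        rw [← Finset.sum_fiberwise_of_maps_to (s := Finset.univ)
          (t := Finset.univ.image fun i => 1 + c i) (g := fun i => 1 + c i)
          (fun i _ => Finset.mem_image_of_mem _ (Finset.mem_univ i))]
        refine Finset.sum_congr rfl fun l _ => ?_
        rw [Finset.smul_sum]
        refine Finset.sum_congr rfl fun i hi => ?_
        rw [(Finset.mem_filter.mp hi).2]
      rw [h1, hv, Submodule.coe_sum]
      rfl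
  · rintro ⟨s, f, h, hu, hv⟩
    refine ⟨s.card, fun i => (f (s.equivFin.symm i) : H), fun i => (s.equivFin.symm i : ℝ) - 1,
      ?_, ?_, ?_⟩
    · intro i
      have hi := h _ (s.equivFin.symm i).2
      refine ⟨(f (s.equivFin.symm i)).2, by linarith [hi.1], ?_⟩
      rw [hP.cas, add_sub_cancel]
      exact hi.2
    · rw [hu, Submodule.coe_sum, ← Finset.sum_coe_sort s (fun l => ((f l : KFin L π) : H))]
      exact (Equiv.sum_comp s.equivFin.symm (fun l : s => ((f l : KFin L π) : H))).symm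
    · rw [hv, Submodule.coe_sum,
        ← Finset.sum_coe_sort s (fun l => ((((l ^ (S / 2) : ℝ) : ℂ) • f l : KFin L π) : H))]
      simp only [add_sub_cancel]
      exact (Equiv.sum_comp s.equivFin.symm
        (fun l : s => (((((l : ℝ) ^ (S / 2) : ℝ) : ℂ) • f l : KFin L π) : H))).symm

theorem sob_exists_unique (S : ℝ) (u : H) (hu : u ∈ KFin L π) : ∃! v : H, Sob L π S u v := by
  classical
  obtain ⟨s, f, hf, hs⟩ := LieRep.mem_all A hP.adm ⟨u, hu⟩
  have h1 : ∑ l ∈ s, f l = ∑ l ∈ s.filter (fun l => 1 ≤ l), f l := by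
    symm
    refine Finset.sum_subset (Finset.filter_subset _ _) fun l hl hn => ?_
    by_contra h0
    exact hn (Finset.mem_filter.mpr ⟨hl, LieRep.eig_ge A (hf l hl) h0⟩)
  refine ⟨((∑ l ∈ s.filter (fun l => 1 ≤ l), ((l ^ (S / 2) : ℝ) : ℂ) • f l : KFin L π) : H),
    ?_, ?_⟩
  · refine (sob_iff L π A hP S u _).mpr ⟨s.filter (fun l => 1 ≤ l), f, ?_, ?_, rfl⟩
    · intro l hl
      rw [Finset.mem_filter] at hl
      exact ⟨hl.2, hf l hl.1⟩
    · rw [← h1, ← hs]
  · intro w hw
    obtain ⟨s', f', h', hu', hw'⟩ := (sob_iff L π A hP S u w).mp hw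
    rw [hw']
    congr 1
    refine p16_uniq A s' (s.filter fun l => 1 ≤ l) f' f (fun l hl => (h' l hl).2)
      (fun l hl => hf l (Finset.mem_filter.mp hl).1) ?_ (fun l => ((l ^ (S / 2) : ℝ) : ℂ))
    rw [← h1, ← hs]
    exact Subtype.ext hu'.symm

end SBD
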