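import Pool.Agent.SBD.C07
import Pool.Agent.SBD.P16

/-!
# Row SBD-C08 : `p^r ≲ q_s` for every `s > 0` (so `d_→([p^r],[q]) = 0`)

PROOF.  `ks`: let `s > 0`, `C` from C07 with `δ = s/4`.  By `sob_iff` (P16) `u = ∑_{l∈T} f l`,
`v = ∑_{l∈T} l^{s/2} f l`, `l ≥ 1`.  For `k : ℕ` let `u_k = ∑_{l∈T, 2^k ≤ l < 2^{k+1}} f l` and `v_k` the same
part of `v`; `u = ∑_k u_k` (finite sum, group by `k = ⌊log₂ l⌋`, `Nat.log`/`Int.log` or
`Nat.floor (Real.logb 2 l)`), `u_k ∈ low 2^{k+1}`, `‖u_k‖ ≤ 2^{-ks/2}‖v_k‖ ≤ 2^{-ks/2}‖v‖` (orthogonality,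
`norm_sq_sum` A01).  By Minkowski (`eLpNorm_add_le`, `eLpNorm_sum_le`; `1 ≤ r`)
`p^r(u) ≤ ∑_k C 2^{(k+1)s/4} 2^{-ks/2}‖v‖ ≤ C' ‖v‖` with `C' = C 2^{s/4} ∑_k 2^{-ks/4}`.
`dTo_zero`: `dTo ≤ ofReal s` for all `s > 0`.
-/

open MeasureTheory Filter Topology
open scoped ENNReal NNReal Matrix

noncomputable section

namespace SBD

variable {N : ℕ} {G : Type} [Group G] [TopologicalSpace G] [IsTopologicalGroup G]
  [LocallyCompactSpace G] [T2Space G]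
variable [SecondCountableTopology G] [MeasurableSpace G] [BorelSpace G]
variable {H : Type} [NormedAddCommGroup H] [InnerProductSpace ℂ H] [CompleteSpace H]

variable (L : LieData N G) (π : G →* (H ≃ₗᵢ[ℂ] H)) (A : LieRep N (KFin L π))
    (hP : IsPkg L π A) (μ : Measure G) [μ.IsHaarMeasure] [μ.IsMulRightInvariant]
    (ht : Tempered L π μ) (hk : ∃ Z ∈ L.𝔤, Zᵀ = -Z ∧ Z ≠ 0) (w : H) (hw : w ∈ KFin L π)
    (r : ℝ≥0∞) (hr : 2 < r)

omit [IsTopologicalGroup G] [LocallyCompactSpace G] [T2Space G] [SecondCountableTopology G]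
  [MeasurableSpace G] [BorelSpace G] [CompleteSpace H] in
theorem c08_part (s : ℝ) (hs : 0 < s) (T : Finset ℝ) (f : ℝ → KFin L π)
    (hf : ∀ l ∈ T, 1 ≤ l ∧ f l ∈ A.eig l) (k : ℕ) (κ : ℝ → ℕ)
    (hκ : ∀ l ∈ T, (2 : ℝ) ^ κ l ≤ l) :
    ‖∑ l ∈ T with κ l = k, f l‖ ≤ (2 : ℝ) ^ (-(k * s / 2)) *
      ‖(∑ l ∈ T, ((l ^ (s / 2) : ℝ) : ℂ) • f l : KFin L π)‖ := by
  have h1 : ‖∑ l ∈ T with κ l = k, f l‖ ^ 2 = ∑ l ∈ T with κ l = k, ‖f l‖ ^ 2 :=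
    A.norm_sq_sum _ _ fun l hl => (hf l (Finset.mem_filter.1 hl).1).2
  have h2 : ‖(∑ l ∈ T, ((l ^ (s / 2) : ℝ) : ℂ) • f l : KFin L π)‖ ^ 2 =
      ∑ l ∈ T, ‖((l ^ (s / 2) : ℝ) : ℂ) • f l‖ ^ 2 :=
    A.norm_sq_sum _ _ fun l hl => (A.eig l).smul_mem _ (hf l hl).2
  have h3 : ∑ l ∈ T with κ l = k, ‖f l‖ ^ 2 ≤ ((2 : ℝ) ^ (-(k * s / 2))) ^ 2 *
      ∑ l ∈ T, ‖((l ^ (s / 2) : ℝ) : ℂ) • f l‖ ^ 2 := by
    rw [Finset.mul_sum]
    refine le_trans (Finset.sum_le_sum (g := fun l => ((2 : ℝ) ^ (-(k * s / 2))) ^ 2 *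
      ‖((l ^ (s / 2) : ℝ) : ℂ) • f l‖ ^ 2) ?_)
      (Finset.sum_le_sum_of_subset_of_nonneg (Finset.filter_subset _ _)
        fun _ _ _ => by positivity)
    intro l hl
    obtain ⟨hl1, hl2⟩ := Finset.mem_filter.1 hl
    have hl0 : (0 : ℝ) < l := lt_of_lt_of_le one_pos (hf l hl1).1
    have h4 : (2 : ℝ) ^ (k * s / 2) ≤ l ^ (s / 2) := by
      have h5 : (2 : ℝ) ^ (k * s / 2) = ((2 : ℝ) ^ k) ^ (s / 2) := by
        rw [← Real.rpow_natCast, ← Real.rpow_mul (by norm_num)]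
        congr 1; ring
      rw [h5]
      apply Real.rpow_le_rpow (by positivity) _ (by positivity)
      rw [← hl2]; exact hκ l hl1
    have h6 : 1 ≤ (2 : ℝ) ^ (-(k * s / 2)) * l ^ (s / 2) := by
      have h7 : (1 : ℝ) = (2 : ℝ) ^ (-(k * s / 2)) * (2 : ℝ) ^ (k * s / 2) := by
        rw [← Real.rpow_add (by norm_num)]; simp
      rw [h7]
      exact mul_le_mul_of_nonneg_left h4 (by positivity)
    have h8 : ‖((l ^ (s / 2) : ℝ) : ℂ) • f l‖ = l ^ (s / 2) * ‖f l‖ := by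
      rw [norm_smul, Complex.norm_real, Real.norm_of_nonneg (by positivity)]
    rw [h8, ← mul_pow, ← mul_assoc]
    apply pow_le_pow_left₀ (norm_nonneg _)
    exact le_mul_of_one_le_left (norm_nonneg _) h6
  rw [← h1, ← h2, ← mul_pow] at h3
  exact (pow_le_pow_iff_left₀ (norm_nonneg _) (by positivity) two_ne_zero).1 h3

include hP ht hk hw hr

theorem ks (s : ℝ) (hs : 0 < s) : ∃ C : ℝ≥0, ∀ u v : H, Sob L π s u v →
    pr π μ w r u ≤ C * qn v := by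
  obtain ⟨C, hC0, hC⟩ := block L π A hP μ ht hk w hw r hr (s / 4) (by positivity)
  set x : ℝ := (2 : ℝ) ^ (-(s / 4)) with hx
  have hx0 : 0 < x := by positivity
  have hx1 : x < 1 := Real.rpow_lt_one_of_one_lt_of_neg (by norm_num) (by linarith)
  have hr1 : 1 ≤ r := le_trans (by norm_num) hr.le
  set C' : ℝ := C * (2 : ℝ) ^ (s / 4) * (1 - x)⁻¹ with hC'
  have hC'0 : 0 ≤ C' := by
    have : 0 ≤ (1 - x)⁻¹ := inv_nonneg.2 (by linarith)
    positivity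
  refine ⟨C'.toNNReal, fun u v huv => ?_⟩
  obtain ⟨T, f, hf, hu, hv⟩ := (sob_iff L π A hP s u v).1 huv
  set κ : ℝ → ℕ := fun l => ⌊Real.logb 2 l⌋₊ with hκd
  have hκ1 : ∀ l ∈ T, (2 : ℝ) ^ κ l ≤ l := by
    intro l hl
    have hl0 : (0 : ℝ) < l := lt_of_lt_of_le one_pos (hf l hl).1
    have h1 : (κ l : ℝ) ≤ Real.logb 2 l :=
      Nat.floor_le (Real.logb_nonneg (by norm_num) (hf l hl).1)
    have h2 := (Real.le_logb_iff_rpow_le (by norm_num) hl0).1 h1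
    rwa [Real.rpow_natCast] at h2
  have hκ2 : ∀ l ∈ T, l ≤ (2 : ℝ) ^ (κ l + 1) := by
    intro l hl
    have hl0 : (0 : ℝ) < l := lt_of_lt_of_le one_pos (hf l hl).1
    have h1 : Real.logb 2 l ≤ ((κ l + 1 : ℕ) : ℝ) := by
      push_cast; exact (Nat.lt_floor_add_one _).le
    have h2 := (Real.logb_le_iff_le_rpow (by norm_num) hl0).1 h1
    rwa [Real.rpow_natCast] at h2
  set K : Finset ℕ := T.image κ with hK
  set uk : ℕ → KFin L π := fun k => ∑ l ∈ T with κ l = k, f l with huk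
  have husum : u = ∑ k ∈ K, ((uk k : KFin L π) : H) := by
    rw [hu, ← Submodule.coe_sum]
    congr 1
    exact (Finset.sum_fiberwise_of_maps_to (fun l hl => Finset.mem_image_of_mem κ hl) _).symm
  have hmc : mc π w u = ∑ k ∈ K, mc π w ((uk k : KFin L π) : H) := by
    funext g
    rw [Finset.sum_apply]
    simp only [mc]
    rw [husum, map_sum, inner_sum]
  have hpk : ∀ k ∈ K, pr π μ w r ((uk k : KFin L π) : H) ≤
      ENNReal.ofReal (C * (2 : ℝ) ^ (s / 4) * x ^ k * ‖v‖) := by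
    intro k _
    have hlow : uk k ∈ A.low ((2 : ℝ) ^ (k + 1)) := by
      apply Submodule.sum_mem
      intro l hl
      obtain ⟨hl1, hl2⟩ := Finset.mem_filter.1 hl
      have h1 : l ≤ (2 : ℝ) ^ (k + 1) := by rw [← hl2]; exact hκ2 l hl1
      exact Submodule.mem_iSup_of_mem (⟨l, h1⟩ : {y : ℝ // y ≤ (2 : ℝ) ^ (k + 1)}) (hf l hl1).2
    refine (hC _ (one_le_pow₀ (by norm_num)) (uk k) hlow).trans ?_
    apply ENNReal.ofReal_le_ofReal
    have h1 := c08_part L π A s hs T f hf k κ hκ1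
    have h2 : ‖v‖ = ‖(∑ l ∈ T, ((l ^ (s / 2) : ℝ) : ℂ) • f l : KFin L π)‖ := by rw [hv]; rfl
    rw [← h2] at h1
    have h3 : C * ((2 : ℝ) ^ (k + 1)) ^ (s / 4) * ‖uk k‖ ≤
        C * ((2 : ℝ) ^ (k + 1)) ^ (s / 4) * ((2 : ℝ) ^ (-(k * s / 2)) * ‖v‖) :=
      mul_le_mul_of_nonneg_left h1 (by positivity)
    refine h3.trans (le_of_eq ?_)
    have h4 : ((2 : ℝ) ^ (k + 1)) ^ (s / 4) = (2 : ℝ) ^ (s / 4) * (2 : ℝ) ^ (k * s / 4) := by
      rw [← Real.rpow_natCast, ← Real.rpow_mul (by norm_num), ← Real.rpow_add (by norm_num)]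
      congr 1; push_cast; ring
    have h5 : x ^ k = (2 : ℝ) ^ (k * s / 4) * (2 : ℝ) ^ (-(k * s / 2)) := by
      rw [hx, ← Real.rpow_natCast, ← Real.rpow_mul (by norm_num), ← Real.rpow_add (by norm_num)]
      congr 1; ring
    rw [h4, h5]; ring
  have hmeas : ∀ k ∈ K, AEStronglyMeasurable (mc π w ((uk k : KFin L π) : H)) μ := fun k _ =>
    (ht w hw _ (uk k).2 r hr).1
  calc pr π μ w r u = eLpNorm (∑ k ∈ K, mc π w ((uk k : KFin L π) : H)) r μ := by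
        rw [pr, hmc]
    _ ≤ ∑ k ∈ K, eLpNorm (mc π w ((uk k : KFin L π) : H)) r μ := eLpNorm_sum_le hmeas hr1
    _ ≤ ∑ k ∈ K, ENNReal.ofReal (C * (2 : ℝ) ^ (s / 4) * x ^ k * ‖v‖) := Finset.sum_le_sum hpk
    _ = ENNReal.ofReal (∑ k ∈ K, C * (2 : ℝ) ^ (s / 4) * x ^ k * ‖v‖) :=
        (ENNReal.ofReal_sum_of_nonneg fun k _ => by positivity).symm
    _ ≤ ENNReal.ofReal (C' * ‖v‖) := by
        apply ENNReal.ofReal_le_ofReal
        have h1 : ∑ k ∈ K, x ^ k ≤ (1 - x)⁻¹ := by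
          rw [← tsum_geometric_of_lt_one hx0.le hx1]
          exact (summable_geometric_of_lt_one hx0.le hx1).sum_le_tsum _
            fun _ _ => by positivity
        have h2 : ∑ k ∈ K, C * (2 : ℝ) ^ (s / 4) * x ^ k * ‖v‖ =
            C * (2 : ℝ) ^ (s / 4) * (∑ k ∈ K, x ^ k) * ‖v‖ := by
          rw [Finset.mul_sum, Finset.sum_mul]
        rw [h2, hC']
        gcongr
    _ = C'.toNNReal * qn v := by
        rw [ENNReal.ofReal_mul hC'0, qn, ofReal_norm_eq_enorm]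
        rfl

theorem dTo_zero : dTo L π (pr π μ w r) qn = 0 := by
  by_contra h
  have h0 : 0 < dTo L π (pr π μ w r) qn := pos_iff_ne_zero.2 h
  obtain ⟨t, -, ht1, ht2⟩ := ENNReal.lt_iff_exists_real_btwn.1 h0
  have ht0 : 0 < t := ENNReal.ofReal_pos.1 ht1
  obtain ⟨C, hC⟩ := ks L π A hP μ ht hk w hw r hr t ht0
  have h1 : dTo L π (pr π μ w r) qn ≤ ENNReal.ofReal t :=
    sInf_le ⟨t, ht0.le, rfl, C, fun u v _ huv => hC u v huv⟩
  exact absurd h1 (not_le.2 ht2)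

end SBD
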