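import Pool.Agent.SBD.Defs

/-!
# Row SBD-C09 : random signs

* `sign4` : induction on `d` (`Fin.consEquiv`/`Fin.snoc`, or prove it for `Finset`s): for complex
  `S, a`: `‖S+a‖⁴ + ‖S-a‖⁴ = 2[(‖S‖²+‖a‖²)² + 4(Re S conj a)²] ≤ 2[‖S‖⁴ + 6‖S‖²‖a‖² + ‖a‖⁴]`, and
  `∑_σ ‖S_σ‖² = 2^d ∑‖a_j‖²` (same induction), so with `Σ = ∑_{j<d}‖a_j‖²`:
  `∑ ≤ 2[3·2^dΣ² + 6·2^dΣ‖a‖² + 2^d‖a‖⁴] ≤ 3·2^{d+1}(Σ+‖a‖²)²`.
* `sign_r` : for `0 < r ≤ 4`, Jensen / power mean (`Real.inner_le_nnorm…`, or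
  `Real.rpow_arith_mean_le_arith_mean_rpow` with exponent `4/r ≥ 1`):
  `(2^{-d}∑‖S_σ‖^r)^{4/r} ≤ 2^{-d}∑‖S_σ‖⁴ ≤ 3Σ²`, so `2^{-d}∑‖S_σ‖^r ≤ 3^{r/4}Σ^{r/2} ≤ 3Σ^{r/2}`.
-/

open MeasureTheory Filter Topology
open scoped ENNReal NNReal Matrix

noncomputable section

namespace SBD

variable {N : ℕ} {G : Type} [Group G] [TopologicalSpace G] [IsTopologicalGroup G]
  [LocallyCompactSpace G] [T2Space G]

/-- splitting off the first sign -/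
theorem C09_split (d : ℕ) (F : (Fin (d + 1) → Bool) → ℝ) :
    ∑ σ, F σ = ∑ τ : Fin d → Bool, (F (Fin.cons true τ) + F (Fin.cons false τ)) := by
  rw [← (Fin.consEquiv fun _ : Fin (d + 1) => Bool).sum_comp F, Fintype.sum_prod_type,
    Fintype.sum_bool, ← Finset.sum_add_distrib]
  rfl

theorem C09_sum_true (d : ℕ) (a : Fin (d + 1) → ℂ) (τ : Fin d → Bool) :
    ∑ j, (if (Fin.cons true τ : Fin (d + 1) → Bool) j then a j else -a j) =
      a 0 + ∑ j : Fin d, (if τ j then a j.succ else -a j.succ) := by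
  rw [Fin.sum_univ_succ]
  simp only [Fin.cons_zero, Fin.cons_succ, if_true]

theorem C09_sum_false (d : ℕ) (a : Fin (d + 1) → ℂ) (τ : Fin d → Bool) :
    ∑ j, (if (Fin.cons false τ : Fin (d + 1) → Bool) j then a j else -a j) =
      -a 0 + ∑ j : Fin d, (if τ j then a j.succ else -a j.succ) := by
  rw [Fin.sum_univ_succ]
  simp only [Fin.cons_zero, Fin.cons_succ, Bool.false_eq_true, if_false]

theorem C09_sq (a S : ℂ) : ‖a + S‖ ^ 2 + ‖-a + S‖ ^ 2 = 2 * (‖a‖ ^ 2 + ‖S‖ ^ 2) := by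
  have h1 := norm_add_sq_real a S
  have h2 := norm_add_sq_real (-a) S
  rw [norm_neg, inner_neg_left] at h2
  linarith

theorem C09_four (a S : ℂ) : ‖a + S‖ ^ 4 + ‖-a + S‖ ^ 4 ≤
    2 * (‖S‖ ^ 4 + 6 * (‖S‖ ^ 2 * ‖a‖ ^ 2) + ‖a‖ ^ 4) := by
  have h1 := norm_add_sq_real a S
  have h2 := norm_add_sq_real (-a) S
  rw [norm_neg, inner_neg_left] at h2
  have h3 := abs_real_inner_le_norm a S
  have h4 : (inner ℝ a S) ^ 2 ≤ (‖a‖ * ‖S‖) ^ 2 := by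
    rw [← sq_abs (inner ℝ a S)]
    exact pow_le_pow_left₀ (abs_nonneg _) h3 2
  have h5 : ‖a + S‖ ^ 4 + ‖-a + S‖ ^ 4 = (‖a + S‖ ^ 2) ^ 2 + (‖-a + S‖ ^ 2) ^ 2 := by ring
  rw [h5, h1, h2]
  nlinarith

theorem C09_sum_sq (d : ℕ) (a : Fin d → ℂ) :
    ∑ σ : Fin d → Bool, ‖∑ j, (if σ j then a j else -a j)‖ ^ 2 = 2 ^ d * ∑ j, ‖a j‖ ^ 2 := by
  induction d with
  | zero => simp
  | succ d ih =>
    rw [C09_split]
    have h : ∀ τ : Fin d → Bool,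
        ‖∑ j, (if (Fin.cons true τ : Fin (d + 1) → Bool) j then a j else -a j)‖ ^ 2 +
        ‖∑ j, (if (Fin.cons false τ : Fin (d + 1) → Bool) j then a j else -a j)‖ ^ 2 =
        2 * (‖a 0‖ ^ 2 + ‖∑ j : Fin d, (if τ j then a j.succ else -a j.succ)‖ ^ 2) := by
      intro τ
      rw [C09_sum_true, C09_sum_false, C09_sq]
    rw [Finset.sum_congr rfl fun τ _ => h τ, ← Finset.mul_sum, Finset.sum_add_distrib,
      ih fun j => a j.succ, Fin.sum_univ_succ]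
    rw [Finset.sum_const, Finset.card_univ, Fintype.card_fun, Fintype.card_bool, Fintype.card_fin,
      nsmul_eq_mul]
    push_cast
    ring

theorem sign4 (d : ℕ) (a : Fin d → ℂ) :
    ∑ σ : Fin d → Bool, ‖∑ j, (if σ j then a j else -a j)‖ ^ 4 ≤
      3 * 2 ^ d * (∑ j, ‖a j‖ ^ 2) ^ 2 := by
  induction d with
  | zero => simp
  | succ d ih =>
    rw [C09_split]
    have h : ∀ τ : Fin d → Bool,
        ‖∑ j, (if (Fin.cons true τ : Fin (d + 1) → Bool) j then a j else -a j)‖ ^ 4 +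
        ‖∑ j, (if (Fin.cons false τ : Fin (d + 1) → Bool) j then a j else -a j)‖ ^ 4 ≤
        2 * (‖∑ j : Fin d, (if τ j then a j.succ else -a j.succ)‖ ^ 4 +
          6 * (‖∑ j : Fin d, (if τ j then a j.succ else -a j.succ)‖ ^ 2 * ‖a 0‖ ^ 2) +
          ‖a 0‖ ^ 4) := by
      intro τ
      rw [C09_sum_true, C09_sum_false]
      exact C09_four _ _
    refine (Finset.sum_le_sum fun τ _ => h τ).trans ?_
    rw [← Finset.mul_sum, Finset.sum_add_distrib, Finset.sum_add_distrib, ← Finset.mul_sum,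
      ← Finset.sum_mul, C09_sum_sq, Finset.sum_const, Finset.card_univ, Fintype.card_fun,
      Fintype.card_bool, Fintype.card_fin, nsmul_eq_mul, Fin.sum_univ_succ]
    have h1 := ih fun j => a j.succ
    push_cast
    set Q : ℝ := ∑ j : Fin d, ‖a j.succ‖ ^ 2 with hQ
    set t : ℝ := ‖a 0‖ with ht
    set F : ℝ := ∑ σ : Fin d → Bool, ‖∑ j : Fin d, (if σ j then a j.succ else -a j.succ)‖ ^ 4
      with hF
    have h2 : (0 : ℝ) ≤ 2 ^ d * t ^ 4 := by positivity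
    have h3 : 3 * 2 ^ (d + 1) * (t ^ 2 + Q) ^ 2 =
        2 * (3 * 2 ^ d * Q ^ 2 + 6 * (2 ^ d * Q * t ^ 2) + 2 ^ d * t ^ 4) + 4 * (2 ^ d * t ^ 4) := by
      ring
    rw [h3]
    linarith

theorem sign_r (d : ℕ) (a : Fin d → ℂ) (r : ℝ) (hr : 0 < r) (hr4 : r ≤ 4) :
    ∑ σ : Fin d → Bool, ‖∑ j, (if σ j then a j else -a j)‖ ^ r ≤
      3 * 2 ^ d * (∑ j, ‖a j‖ ^ 2) ^ (r / 2) := by
  set S : (Fin d → Bool) → ℝ := fun σ => ‖∑ j, (if σ j then a j else -a j)‖ with hS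
  set Q : ℝ := ∑ j, ‖a j‖ ^ 2 with hQ
  have hQ0 : 0 ≤ Q := Finset.sum_nonneg fun j _ => by positivity
  have hS0 : ∀ σ, 0 ≤ S σ := fun σ => norm_nonneg _
  have h2d : (0 : ℝ) < 2 ^ d := by positivity
  have h4 : ∑ σ, S σ ^ 4 ≤ 3 * 2 ^ d * Q ^ 2 := sign4 d a
  have hw : ∑ _σ : Fin d → Bool, ((2 : ℝ) ^ d)⁻¹ = 1 := by
    rw [Finset.sum_const, Finset.card_univ, Fintype.card_fun, Fintype.card_bool, Fintype.card_fin,
      nsmul_eq_mul]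
    push_cast
    exact mul_inv_cancel₀ h2d.ne'
  have hp : 1 ≤ 4 / r := by
    rw [le_div_iff₀ hr]
    linarith
  have hJ := Real.rpow_arith_mean_le_arith_mean_rpow Finset.univ
    (fun _ : Fin d → Bool => ((2 : ℝ) ^ d)⁻¹) (fun σ => S σ ^ r)
    (fun σ _ => by positivity) hw (fun σ _ => Real.rpow_nonneg (hS0 σ) r) hp
  have h5 : ∀ σ, (S σ ^ r) ^ (4 / r) = S σ ^ 4 := by
    intro σ
    rw [← Real.rpow_mul (hS0 σ), mul_div_cancel₀ _ hr.ne']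
    exact_mod_cast Real.rpow_natCast (S σ) 4
  simp only [h5] at hJ
  rw [← Finset.mul_sum, ← Finset.mul_sum] at hJ
  set M : ℝ := ((2 : ℝ) ^ d)⁻¹ * ∑ σ, S σ ^ r with hM
  have hM0 : 0 ≤ M := mul_nonneg (by positivity)
    (Finset.sum_nonneg fun σ _ => Real.rpow_nonneg (hS0 σ) r)
  have h6 : M ^ (4 / r) ≤ 3 * Q ^ 2 := by
    refine hJ.trans ?_
    rw [inv_mul_le_iff₀ h2d]
    linarith
  have h7 : M ≤ (3 * Q ^ 2) ^ (r / 4) := by
    have h8 : M = (M ^ (4 / r)) ^ (r / 4) := by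
      rw [← Real.rpow_mul hM0]
      have : 4 / r * (r / 4) = 1 := by field_simp
      rw [this, Real.rpow_one]
    rw [h8]
    exact Real.rpow_le_rpow (Real.rpow_nonneg hM0 _) h6 (by positivity)
  have h8 : (3 * Q ^ 2) ^ (r / 4) = 3 ^ (r / 4) * Q ^ (r / 2) := by
    rw [Real.mul_rpow (by norm_num) (by positivity), ← Real.rpow_natCast Q 2, ← Real.rpow_mul hQ0]
    congr 2
    push_cast
    ring
  have h9 : (3 : ℝ) ^ (r / 4) ≤ 3 := by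
    calc (3 : ℝ) ^ (r / 4) ≤ 3 ^ (1 : ℝ) :=
          Real.rpow_le_rpow_of_exponent_le (by norm_num) (by linarith)
      _ = 3 := Real.rpow_one 3
  have h10 : M ≤ 3 * Q ^ (r / 2) := by
    rw [h8] at h7
    exact h7.trans (mul_le_mul_of_nonneg_right h9 (Real.rpow_nonneg hQ0 _))
  have h11 : ∑ σ, S σ ^ r = 2 ^ d * M := by
    rw [hM, ← mul_assoc, mul_inv_cancel₀ h2d.ne', one_mul]
  rw [h11]
  calc 2 ^ d * M ≤ 2 ^ d * (3 * Q ^ (r / 2)) := mul_le_mul_of_nonneg_left h10 h2d.le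
    _ = 3 * 2 ^ d * Q ^ (r / 2) := by ring

end SBD
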