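import Pool.Agent.SBD.C05
import Pool.Agent.SBD.C02
import Pool.Agent.SBD.M06
import Pool.Agent.SBD.A16

/-!
# Row SBD-C10 : the square function of an eigenspace

`v_j` an orthonormal basis of `A.eig lam`; `Ψ²(g) = ∑_j |⟨w, π(g)v_j⟩|²`.

PROOF.  `κ, t₀` from C05, `a := 2a₁` with `a₁` from A16 (`chain_sob`).  For `w` take `d', w_i, C₁` from C05
(`w₀ = w`).  `|⟨w,π(g)v⟩|² ≤ ‖w‖²F(v)(g)`, `F = Fw π w_•`.
(1) third claim, and the same for `F`: for `0 < ε`, `∫Θ^{-ε}‖mc π w_i v_j‖² = Re Bf(ε,w_i)(v_j,v_j) ≤ C₂lam^{2a₁ε}`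
(M06, `chain_sob`, `v_j ∈ low lam`, `‖v_j‖ = 1`), so `∫Θ^{-ε}∑_jF(v_j) ≤ C₃ d lam^{2a₁ε}`; for `w` itself the
same (if `w = 0` everything is 0).
(2) `Φ(g) := ∑_jF(v_j)(g)` satisfies `Φ(gk) = Φ(g)` for `k ∈ K`: for `y ∈ H`
`∑_j|⟨y, π(k)v_j⟩|² = ∑_j|⟨y,v_j⟩|²`, because `(π(k)v_j)` is another orthonormal basis of the (image in
`H` of the) finite-dimensional space `A.eig lam` (`hP.kinv`); both sides are the squared norm of the
projection of `y`.  (Elementary: `π(k)v_j = ∑_i u_{ij}v_i` with a unitary matrix `u`.)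
(3) first claim: with `Z` from C05 for `g`: `t₀Φ(g) = ∫_0^{t₀}Φ(g e(tZ))dt ≤ C₁Θ(g)^{-κ+ε}∫Θ^{-ε}Φ
≤ C₁C₃ d lam^{2a₁ε}Θ(g)^{-κ+ε}`, and `Ψ² ≤ ‖w‖²Φ`.
(4) second claim: C02 for each `v_j`: `|⟨w,π(g)v_j⟩|² ≤ C²Θ(g)⁴/lam²`; sum over `j`.
-/

open MeasureTheory Filter Topology
open scoped ENNReal NNReal Matrix

noncomputable section

namespace SBD

variable {N : ℕ} {G : Type} [Group G] [TopologicalSpace G] [IsTopologicalGroup G]
  [LocallyCompactSpace G] [T2Space G]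
variable [SecondCountableTopology G] [MeasurableSpace G] [BorelSpace G]
variable {H : Type} [NormedAddCommGroup H] [InnerProductSpace ℂ H] [CompleteSpace H]

omit [IsTopologicalGroup G] [LocallyCompactSpace G] [T2Space G] [SecondCountableTopology G]
  [MeasurableSpace G] [BorelSpace G] [CompleteSpace H] in
/-- `‖⟨y, π(k)v_j⟩‖²` summed over `j` is at most the sum for `k = 1`. -/
private theorem c10_le (L : LieData N G) (π : G →* (H ≃ₗᵢ[ℂ] H)) (A : LieRep N (KFin L π))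
    (hP : IsPkg L π A) {lam : ℝ} {d : ℕ} {v : Fin d → KFin L π} (hv : Orthonormal ℂ v)
    (hm : ∀ j, v j ∈ A.eig lam) (hs : ∀ x ∈ A.eig lam, x = ∑ j, inner ℂ (v j) x • v j)
    {k : G} (hk : k ∈ L.K) (y : H) :
    ∑ j, ‖(inner ℂ y (π k ((v j : KFin L π) : H)) : ℂ)‖ ^ 2 ≤
      ∑ j, ‖(inner ℂ y ((v j : KFin L π) : H) : ℂ)‖ ^ 2 := by
  have hv' : Orthonormal ℂ (fun j => ((v j : KFin L π) : H)) :=
    hv.comp_linearIsometry (KFin L π).subtypeₗᵢ
  have hvk : Orthonormal ℂ (fun j => π k ((v j : KFin L π) : H)) :=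
    hv'.comp_linearIsometry (π k).toLinearIsometry
  obtain ⟨l, hl⟩ : ∃ l : Fin d → ℂ, ∀ j, l j = inner ℂ ((v j : KFin L π) : H) y := ⟨_, fun _ => rfl⟩
  obtain ⟨p, hp⟩ : ∃ p : H, p = ∑ j, l j • ((v j : KFin L π) : H) := ⟨_, rfl⟩
  have h1 : ∀ j, inner ℂ ((v j : KFin L π) : H) p = l j := by
    intro j
    rw [hp]
    exact hv'.inner_right_fintype l j
  have h2 : ‖p‖ ^ 2 = ∑ j, ‖l j‖ ^ 2 := by
    have h3 : ((‖p‖ ^ 2 : ℝ) : ℂ) = ((∑ j, ‖l j‖ ^ 2 : ℝ) : ℂ) := by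
      have h30 : (inner ℂ p p : ℂ) = ((‖p‖ ^ 2 : ℝ) : ℂ) := by
        rw [Complex.ofReal_pow]
        exact inner_self_eq_norm_sq_to_K (𝕜 := ℂ) p
      rw [← h30]
      nth_rewrite 1 [hp]
      rw [sum_inner, Complex.ofReal_sum]
      refine Finset.sum_congr rfl fun j _ => ?_
      rw [inner_smul_left, h1, Complex.conj_mul']
      push_cast
      rfl
    exact_mod_cast h3
  have h4 : ∀ j, (inner ℂ y (π k ((v j : KFin L π) : H)) : ℂ) =
      inner ℂ p (π k ((v j : KFin L π) : H)) := by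
    intro j
    obtain ⟨u', hu', hu⟩ := hP.kinv k hk lam (v j) (hm j)
    have h5 := congrArg (fun q : KFin L π => (q : H)) (hs u' hu')
    have h6 : π k ((v j : KFin L π) : H) =
        ∑ i, (inner ℂ (v i) u' : ℂ) • ((v i : KFin L π) : H) := by
      rw [← hu]
      refine h5.trans ?_
      simp
    rw [h6, inner_sum, inner_sum]
    refine Finset.sum_congr rfl fun i _ => ?_
    rw [inner_smul_right, inner_smul_right]
    congr 1
    have h7 := congrArg (starRingEnd ℂ) (h1 i)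
    rw [inner_conj_symm, hl, inner_conj_symm] at h7
    exact h7.symm
  calc ∑ j, ‖(inner ℂ y (π k ((v j : KFin L π) : H)) : ℂ)‖ ^ 2
      = ∑ j, ‖(inner ℂ (π k ((v j : KFin L π) : H)) p : ℂ)‖ ^ 2 := by
        refine Finset.sum_congr rfl fun j _ => ?_
        rw [h4, ← inner_conj_symm, Complex.norm_conj]
    _ ≤ ‖p‖ ^ 2 := hvk.sum_inner_products_le p (s := Finset.univ)
    _ = ∑ j, ‖(inner ℂ y ((v j : KFin L π) : H) : ℂ)‖ ^ 2 := by
        rw [h2]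
        refine Finset.sum_congr rfl fun j _ => ?_
        rw [hl, ← inner_conj_symm, Complex.norm_conj]

omit [TopologicalSpace G] [IsTopologicalGroup G] [LocallyCompactSpace G] [T2Space G]
  [SecondCountableTopology G] [MeasurableSpace G] [BorelSpace G] [CompleteSpace H] in
/-- `⟨w, π(g)x⟩ = ⟨π(g⁻¹)w, x⟩`. -/
private theorem c10_adj (π : G →* (H ≃ₗᵢ[ℂ] H)) (g : G) (w x : H) :
    (inner ℂ w (π g x) : ℂ) = inner ℂ (π g⁻¹ w) x := by
  have h1 : π g (π g⁻¹ w) = w := by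
    have h2 : π g (π g⁻¹ w) = (π g * π g⁻¹) w := rfl
    rw [h2, ← map_mul, mul_inv_cancel, map_one]
    rfl
  rw [← (π g).inner_map_map (π g⁻¹ w) x, h1]

omit [IsTopologicalGroup G] [LocallyCompactSpace G] [T2Space G] [SecondCountableTopology G]
  [MeasurableSpace G] [BorelSpace G] [CompleteSpace H] in
private theorem c10_eq (L : LieData N G) (π : G →* (H ≃ₗᵢ[ℂ] H)) (A : LieRep N (KFin L π))
    (hP : IsPkg L π A) {lam : ℝ} {d : ℕ} {v : Fin d → KFin L π} (hv : Orthonormal ℂ v)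
    (hm : ∀ j, v j ∈ A.eig lam) (hs : ∀ x ∈ A.eig lam, x = ∑ j, inner ℂ (v j) x • v j)
    {k : G} (hk : k ∈ L.K) (y : H) (g : G) :
    ∑ j, ‖mc π y ((v j : KFin L π) : H) (g * k)‖ ^ 2 =
      ∑ j, ‖mc π y ((v j : KFin L π) : H) g‖ ^ 2 := by
  have h1 : ∀ (g' k' : G), k' ∈ L.K → ∑ j, ‖mc π y ((v j : KFin L π) : H) (g' * k')‖ ^ 2 ≤
      ∑ j, ‖mc π y ((v j : KFin L π) : H) g'‖ ^ 2 := by
    intro g' k' hk'
    have h2 := c10_le L π A hP hv hm hs hk' (π g'⁻¹ y)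
    calc ∑ j, ‖mc π y ((v j : KFin L π) : H) (g' * k')‖ ^ 2
        = ∑ j, ‖(inner ℂ (π g'⁻¹ y) (π k' ((v j : KFin L π) : H)) : ℂ)‖ ^ 2 := by
          refine Finset.sum_congr rfl fun j _ => ?_
          unfold mc
          rw [map_mul, ← c10_adj]
          rfl
      _ ≤ _ := h2
      _ = _ := by
          refine Finset.sum_congr rfl fun j _ => ?_
          unfold mc
          rw [c10_adj π g']
  refine le_antisymm (h1 g k hk) ?_
  have h3 := h1 (g * k) k⁻¹ (L.K.inv_mem hk)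
  rw [mul_inv_cancel_right] at h3
  exact h3

omit [TopologicalSpace G] [IsTopologicalGroup G] [LocallyCompactSpace G] [T2Space G]
  [SecondCountableTopology G] [MeasurableSpace G] [BorelSpace G] [CompleteSpace H] in
/-- `|⟨w,π(g)v⟩|² ≤ ‖w‖² F(v)(g)`. -/
private theorem c10_span (π : G →* (H ≃ₗᵢ[ℂ] H)) {d : ℕ} {w : Fin d → H} (hw : Orthonormal ℂ w)
    {w₀ : H} (h0 : w₀ ∈ Submodule.span ℂ (Set.range w)) (v : H) (g : G) :
    ‖mc π w₀ v g‖ ^ 2 ≤ ‖w₀‖ ^ 2 * Fw π w v g := by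
  obtain ⟨l, hl⟩ := (Submodule.mem_span_range_iff_exists_fun ℂ).1 h0
  have h1 : ‖w₀‖ ^ 2 = ∑ j, ‖l j‖ ^ 2 := by
    have h2 : ((‖w₀‖ ^ 2 : ℝ) : ℂ) = ((∑ j, ‖l j‖ ^ 2 : ℝ) : ℂ) := by
      have h30 : (inner ℂ w₀ w₀ : ℂ) = ((‖w₀‖ ^ 2 : ℝ) : ℂ) := by
        rw [Complex.ofReal_pow]
        exact inner_self_eq_norm_sq_to_K (𝕜 := ℂ) w₀
      rw [← h30]
      have h3 : ∀ j, inner ℂ (w j) w₀ = l j := by
        intro j
        rw [← hl]
        exact hw.inner_right_fintype l j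
      nth_rewrite 1 [← hl]
      rw [sum_inner, Complex.ofReal_sum]
      refine Finset.sum_congr rfl fun j _ => ?_
      rw [inner_smul_left, h3, Complex.conj_mul']
      push_cast
      rfl
    exact_mod_cast h2
  have h4 : mc π w₀ v g = ∑ j, (starRingEnd ℂ) (l j) * mc π (w j) v g := by
    unfold mc
    rw [← hl, sum_inner]
    refine Finset.sum_congr rfl fun j _ => ?_
    rw [inner_smul_left]
  have h5 : ‖mc π w₀ v g‖ ≤ ∑ j, ‖l j‖ * ‖mc π (w j) v g‖ := by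
    rw [h4]
    refine (norm_sum_le _ _).trans (le_of_eq ?_)
    refine Finset.sum_congr rfl fun j _ => ?_
    rw [norm_mul, Complex.norm_conj]
  calc ‖mc π w₀ v g‖ ^ 2 ≤ (∑ j, ‖l j‖ * ‖mc π (w j) v g‖) ^ 2 :=
        pow_le_pow_left₀ (norm_nonneg _) h5 2
    _ ≤ (∑ j, ‖l j‖ ^ 2) * ∑ j, ‖mc π (w j) v g‖ ^ 2 := Finset.sum_mul_sq_le_sq_mul_sq _ _ _
    _ = ‖w₀‖ ^ 2 * Fw π w v g := by rw [h1]; rfl

theorem psi (L : LieData N G) (π : G →* (H ≃ₗᵢ[ℂ] H)) (A : LieRep N (KFin L π))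
    (hP : IsPkg L π A) (μ : Measure G) [μ.IsHaarMeasure] [μ.IsMulRightInvariant]
    (ht : Tempered L π μ) (hk : ∃ Z ∈ L.𝔤, Zᵀ = -Z ∧ Z ≠ 0) :
    ∃ κ : ℝ, 0 < κ ∧ ∃ a : ℝ, 0 ≤ a ∧ ∀ w ∈ KFin L π, ∀ ε : ℝ, 0 < ε → ε ≤ 1 →
      ∃ C : ℝ, 0 < C ∧ ∀ lam : ℝ, 1 ≤ lam → ∀ (d : ℕ) (v : Fin d → KFin L π),
        Orthonormal ℂ v → (∀ j, v j ∈ A.eig lam) →
        (∀ x ∈ A.eig lam, x = ∑ j, inner ℂ (v j) x • v j) →
        (∀ g : G, ∑ j, ‖mc π w ((v j : KFin L π) : H) g‖ ^ 2 ≤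
          C * d * (lam ^ (a * ε) * Th L g ^ (-κ + ε))) ∧
        (∀ g : G, ∑ j, ‖mc π w ((v j : KFin L π) : H) g‖ ^ 2 ≤
          C * d * (Th L g ^ 4 / lam ^ 2)) ∧
        ∫⁻ g, ENNReal.ofReal (Th L g ^ (-ε) * ∑ j, ‖mc π w ((v j : KFin L π) : H) g‖ ^ 2) ∂μ ≤
          ENNReal.ofReal (C * d * lam ^ (a * ε)) := by
  obtain ⟨κ, hκ, t₀, ht₀, havg⟩ := avg L π A hP μ hk
  obtain ⟨a₁, ha₁, hch⟩ := A.chain_sob hP.adm
  refine ⟨κ, hκ, 2 * a₁, by positivity, fun w₀ hw₀ ε hε hε1 => ?_⟩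
  obtain ⟨dw, w, hwK, hwo, hw0, -, C₁, hC₁, hF⟩ := havg w₀ hw₀
  obtain ⟨C₄, hC₄, hrap⟩ := rapid L π A hP w₀ hw₀
  have hwne : ∀ i, w i ≠ 0 := fun i => hwo.ne_zero i
  have hAI : ∀ i, A.AlmostInv (2 * ε) (Bf L π μ ε (w i)) := fun i =>
    almostInv L π A hP μ ht hε (hwK i) (hwne i)
  have hC2 : ∀ i, ∃ C : ℝ, 1 ≤ C ∧ ∀ R : ℝ, 1 ≤ R → ∀ v ∈ A.low R,
      (Bf L π μ ε (w i) v v).re ≤ C * R ^ (a₁ * (2 * ε)) * ‖v‖ ^ 2 := by
    intro i
    obtain ⟨C, h1, -, h2⟩ := hch (2 * ε) (by positivity) _ (hAI i)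
    exact ⟨C, h1, h2⟩
  choose C₂ hC₂1 hC₂ using hC2
  obtain ⟨C₃, hC₃⟩ : ∃ C₃ : ℝ, C₃ = ∑ i, C₂ i := ⟨_, rfl⟩
  have hC₃0 : 0 ≤ C₃ := by
    rw [hC₃]
    exact Finset.sum_nonneg fun i _ => le_trans zero_le_one (hC₂1 i)
  have hTh0 : ∀ g : G, 0 < Th L g := fun g => lt_of_lt_of_le one_pos (one_le_Th L g)
  -- the integral of `F(v)`
  have hint : ∀ lam : ℝ, 1 ≤ lam → ∀ v : KFin L π, v ∈ A.eig lam → ‖v‖ = 1 →
      ∫⁻ y, ENNReal.ofReal (Th L y ^ (-ε) * Fw π w (v : H) y) ∂μ ≤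
        ENNReal.ofReal (C₃ * lam ^ (2 * a₁ * ε)) := by
    intro lam hlam v hv hv1
    have hlow : v ∈ A.low lam := by
      have h1 : A.eig ((⟨lam, le_refl lam⟩ : {x : ℝ // x ≤ lam}) : ℝ) ≤ A.low lam :=
        le_iSup (fun l : {x : ℝ // x ≤ lam} => A.eig l) ⟨lam, le_refl lam⟩
      exact h1 hv
    have hi : ∀ i, Integrable (fun g => Th L g ^ (-ε) * ‖mc π (w i) (v : H) g‖ ^ 2) μ := by
      intro i
      refine (Bf_integrable_norm L π A hP μ ht hε (hwK i) v v).congr ?_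
      refine Filter.Eventually.of_forall fun g => ?_
      show _ = _
      ring
    have h2 : (fun y => Th L y ^ (-ε) * Fw π w (v : H) y) =
        fun y => ∑ i, Th L y ^ (-ε) * ‖mc π (w i) (v : H) y‖ ^ 2 := by
      funext y
      unfold Fw
      rw [Finset.mul_sum]
    have h3 : Integrable (fun y => Th L y ^ (-ε) * Fw π w (v : H) y) μ := by
      rw [h2]
      exact integrable_finsetSum _ fun i _ => hi i
    rw [← ofReal_integral_eq_lintegral_ofReal h3 (Filter.Eventually.of_forall fun y => by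
      show (0 : ℝ) ≤ _
      unfold Fw
      have := hTh0 y
      positivity)]
    apply ENNReal.ofReal_le_ofReal
    rw [h2, integral_finsetSum _ fun i _ => hi i, hC₃, Finset.sum_mul]
    refine Finset.sum_le_sum fun i _ => ?_
    have h4 := Bf_self L π A hP μ ht hε (hwK i) v
    have h5 := hC₂ i lam hlam v hlow
    rw [h4, Complex.ofReal_re, hv1] at h5
    refine h5.trans (le_of_eq ?_)
    rw [show a₁ * (2 * ε) = 2 * a₁ * ε by ring]
    ring
  refine ⟨‖w₀‖ ^ 2 * (C₁ * C₃ / t₀) + C₄ ^ 2 + ‖w₀‖ ^ 2 * C₃, by positivity,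
    fun lam hlam d v hv hm hs => ?_⟩
  have hv1 : ∀ j, ‖v j‖ = 1 := fun j => hv.1 j
  have hlam0 : 0 < lam := lt_of_lt_of_le one_pos hlam
  refine ⟨fun g => ?_, fun g => ?_, ?_⟩
  · -- first claim
    obtain ⟨Z, hZ, hZt, -, hav⟩ := hF g
    have hPhi : ∀ t : ℝ, ∑ j, Fw π w ((v j : KFin L π) : H) (g * L.e (t • Z)) =
        ∑ j, Fw π w ((v j : KFin L π) : H) g := by
      intro t
      unfold Fw
      rw [Finset.sum_comm, Finset.sum_comm (f := fun j i => ‖mc π (w i) ((v j : KFin L π) : H) g‖ ^ 2)]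
      refine Finset.sum_congr rfl fun i _ => ?_
      exact c10_eq L π A hP hv hm hs (e_mem_K L hZ hZt t) (w i) g
    have hFm : ∀ j, Measurable fun t : ℝ =>
        ENNReal.ofReal (Fw π w ((v j : KFin L π) : H) (g * L.e (t • Z))) := by
      intro j
      refine (Continuous.measurable ?_).ennreal_ofReal
      unfold Fw mc
      refine continuous_finsetSum _ fun i _ => ?_
      refine (Continuous.norm ?_).pow 2
      refine Continuous.inner continuous_const ?_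
      exact (hP.cont _).comp (continuous_const.mul (e_line_cont L hZ))
    have h1 : ∑ j, ∫⁻ t in Set.Icc 0 t₀,
        ENNReal.ofReal (Fw π w ((v j : KFin L π) : H) (g * L.e (t • Z))) =
        ENNReal.ofReal (t₀ * ∑ j, Fw π w ((v j : KFin L π) : H) g) := by
      rw [← lintegral_finsetSum _ fun j _ => hFm j]
      have h2 : ∀ t : ℝ, ∑ j, ENNReal.ofReal (Fw π w ((v j : KFin L π) : H) (g * L.e (t • Z))) =
          ENNReal.ofReal (∑ j, Fw π w ((v j : KFin L π) : H) g) := by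
        intro t
        rw [← ENNReal.ofReal_sum_of_nonneg fun j _ => by unfold Fw; positivity, hPhi]
      simp_rw [h2]
      rw [lintegral_const, Measure.restrict_apply_univ, Real.volume_Icc, sub_zero,
        ← ENNReal.ofReal_mul (Finset.sum_nonneg fun j _ => by unfold Fw; positivity), mul_comm]
    have h3 : ∀ j, ∫⁻ t in Set.Icc 0 t₀,
        ENNReal.ofReal (Fw π w ((v j : KFin L π) : H) (g * L.e (t • Z))) ≤
        ENNReal.ofReal (C₁ * Th L g ^ (-κ + ε) * (C₃ * lam ^ (2 * a₁ * ε))) := by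
      intro j
      have hnn : 0 ≤ C₁ * Th L g ^ (-κ + ε) := by
        have := hTh0 g
        positivity
      rw [ENNReal.ofReal_mul hnn]
      refine (hav ε hε.le hε1 _).trans ?_
      exact mul_le_mul_right (hint lam hlam (v j) (hm j) (hv1 j)) _
    have h4 : t₀ * ∑ j, Fw π w ((v j : KFin L π) : H) g ≤
        d * (C₁ * Th L g ^ (-κ + ε) * (C₃ * lam ^ (2 * a₁ * ε))) := by
      have hnn : 0 ≤ C₁ * Th L g ^ (-κ + ε) * (C₃ * lam ^ (2 * a₁ * ε)) := by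
        have := hTh0 g
        positivity
      have h5 : ENNReal.ofReal (t₀ * ∑ j, Fw π w ((v j : KFin L π) : H) g) ≤
          ENNReal.ofReal (d * (C₁ * Th L g ^ (-κ + ε) * (C₃ * lam ^ (2 * a₁ * ε)))) := by
        rw [← h1]
        refine (Finset.sum_le_sum fun j _ => h3 j).trans (le_of_eq ?_)
        rw [Finset.sum_const, Finset.card_univ, Fintype.card_fin, nsmul_eq_mul,
          ENNReal.ofReal_mul (Nat.cast_nonneg d), ENNReal.ofReal_natCast]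
      rwa [ENNReal.ofReal_le_ofReal_iff (by positivity)] at h5
    have h6 : ∑ j, ‖mc π w₀ ((v j : KFin L π) : H) g‖ ^ 2 ≤
        ‖w₀‖ ^ 2 * ∑ j, Fw π w ((v j : KFin L π) : H) g := by
      rw [Finset.mul_sum]
      exact Finset.sum_le_sum fun j _ => c10_span π hwo hw0 _ g
    have h7 : ∑ j, Fw π w ((v j : KFin L π) : H) g ≤
        C₁ * C₃ / t₀ * d * (lam ^ (2 * a₁ * ε) * Th L g ^ (-κ + ε)) := by
      rw [mul_comm] at h4
      rw [← le_div_iff₀ ht₀] at h4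
      refine h4.trans (le_of_eq ?_)
      field_simp
    have hX : 0 ≤ d * (lam ^ (2 * a₁ * ε) * Th L g ^ (-κ + ε)) := by
      have := hTh0 g
      positivity
    calc ∑ j, ‖mc π w₀ ((v j : KFin L π) : H) g‖ ^ 2
        ≤ ‖w₀‖ ^ 2 * ∑ j, Fw π w ((v j : KFin L π) : H) g := h6
      _ ≤ ‖w₀‖ ^ 2 * (C₁ * C₃ / t₀ * d * (lam ^ (2 * a₁ * ε) * Th L g ^ (-κ + ε))) :=
          mul_le_mul_of_nonneg_left h7 (by positivity)
      _ = ‖w₀‖ ^ 2 * (C₁ * C₃ / t₀) * (d * (lam ^ (2 * a₁ * ε) * Th L g ^ (-κ + ε))) := by ring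
      _ ≤ (‖w₀‖ ^ 2 * (C₁ * C₃ / t₀) + C₄ ^ 2 + ‖w₀‖ ^ 2 * C₃) *
          (d * (lam ^ (2 * a₁ * ε) * Th L g ^ (-κ + ε))) := by
          refine mul_le_mul_of_nonneg_right ?_ hX
          have : 0 ≤ C₄ ^ 2 + ‖w₀‖ ^ 2 * C₃ := by positivity
          linarith
      _ = _ := by ring
  · -- second claim
    have h1 : ∀ j, ‖mc π w₀ ((v j : KFin L π) : H) g‖ ^ 2 ≤ C₄ ^ 2 * (Th L g ^ 4 / lam ^ 2) := by
      intro j
      have h2 := hrap lam hlam (v j) (hm j) g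
      rw [hv1, mul_one] at h2
      refine (pow_le_pow_left₀ (norm_nonneg _) h2 2).trans (le_of_eq ?_)
      field_simp
    have hX : 0 ≤ d * (Th L g ^ 4 / lam ^ 2) := by positivity
    calc ∑ j, ‖mc π w₀ ((v j : KFin L π) : H) g‖ ^ 2
        ≤ ∑ _j : Fin d, C₄ ^ 2 * (Th L g ^ 4 / lam ^ 2) := Finset.sum_le_sum fun j _ => h1 j
      _ = C₄ ^ 2 * (d * (Th L g ^ 4 / lam ^ 2)) := by
          rw [Finset.sum_const, Finset.card_univ, Fintype.card_fin, nsmul_eq_mul]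
          ring
      _ ≤ (‖w₀‖ ^ 2 * (C₁ * C₃ / t₀) + C₄ ^ 2 + ‖w₀‖ ^ 2 * C₃) *
          (d * (Th L g ^ 4 / lam ^ 2)) := by
          refine mul_le_mul_of_nonneg_right ?_ hX
          have h8 : 0 ≤ ‖w₀‖ ^ 2 * (C₁ * C₃ / t₀) := by positivity
          have h9 : 0 ≤ ‖w₀‖ ^ 2 * C₃ := by positivity
          linarith
      _ = _ := by ring
  · -- third claim
    have h1 : ∀ y, ENNReal.ofReal (Th L y ^ (-ε) * ∑ j, ‖mc π w₀ ((v j : KFin L π) : H) y‖ ^ 2) ≤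
        ∑ j, ENNReal.ofReal (‖w₀‖ ^ 2) *
          ENNReal.ofReal (Th L y ^ (-ε) * Fw π w ((v j : KFin L π) : H) y) := by
      intro y
      have hy := hTh0 y
      have h2 : ∀ j, ENNReal.ofReal (‖w₀‖ ^ 2) *
          ENNReal.ofReal (Th L y ^ (-ε) * Fw π w ((v j : KFin L π) : H) y) =
          ENNReal.ofReal (‖w₀‖ ^ 2 * (Th L y ^ (-ε) * Fw π w ((v j : KFin L π) : H) y)) := by
        intro j
        rw [ENNReal.ofReal_mul (p := ‖w₀‖ ^ 2) (by positivity)]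
      simp_rw [h2]
      rw [← ENNReal.ofReal_sum_of_nonneg fun j _ => by unfold Fw; positivity]
      apply ENNReal.ofReal_le_ofReal
      rw [Finset.mul_sum]
      refine Finset.sum_le_sum fun j _ => ?_
      have h3 := c10_span π hwo hw0 ((v j : KFin L π) : H) y
      calc Th L y ^ (-ε) * ‖mc π w₀ ((v j : KFin L π) : H) y‖ ^ 2
          ≤ Th L y ^ (-ε) * (‖w₀‖ ^ 2 * Fw π w ((v j : KFin L π) : H) y) :=
            mul_le_mul_of_nonneg_left h3 (by positivity)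
        _ = _ := by ring
    have hmeas : ∀ j, Measurable fun y => ENNReal.ofReal (‖w₀‖ ^ 2) *
        ENNReal.ofReal (Th L y ^ (-ε) * Fw π w ((v j : KFin L π) : H) y) := by
      intro j
      refine Measurable.const_mul ?_ _
      refine (Continuous.measurable ?_).ennreal_ofReal
      refine Continuous.mul ?_ ?_
      · exact (Th_cont L).rpow_const fun y => Or.inl (hTh0 y).ne'
      · unfold Fw mc
        refine continuous_finsetSum _ fun i _ => ?_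
        refine (Continuous.norm ?_).pow 2
        exact Continuous.inner continuous_const (hP.cont _)
    calc ∫⁻ y, ENNReal.ofReal (Th L y ^ (-ε) * ∑ j, ‖mc π w₀ ((v j : KFin L π) : H) y‖ ^ 2) ∂μ
        ≤ ∫⁻ y, ∑ j, ENNReal.ofReal (‖w₀‖ ^ 2) *
          ENNReal.ofReal (Th L y ^ (-ε) * Fw π w ((v j : KFin L π) : H) y) ∂μ :=
          lintegral_mono h1
      _ = ∑ j, ∫⁻ y, ENNReal.ofReal (‖w₀‖ ^ 2) *
          ENNReal.ofReal (Th L y ^ (-ε) * Fw π w ((v j : KFin L π) : H) y) ∂μ :=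
          lintegral_finsetSum _ fun j _ => hmeas j
      _ ≤ ∑ _j : Fin d, ENNReal.ofReal (‖w₀‖ ^ 2) *
          ENNReal.ofReal (C₃ * lam ^ (2 * a₁ * ε)) := by
          refine Finset.sum_le_sum fun j _ => ?_
          rw [lintegral_const_mul' _ _ ENNReal.ofReal_ne_top]
          exact mul_le_mul_right (hint lam hlam (v j) (hm j) (hv1 j)) _
      _ = ENNReal.ofReal (d * (‖w₀‖ ^ 2 * (C₃ * lam ^ (2 * a₁ * ε)))) := by
          rw [Finset.sum_const, Finset.card_univ, Fintype.card_fin, nsmul_eq_mul,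
            ENNReal.ofReal_mul (Nat.cast_nonneg d), ENNReal.ofReal_natCast,
            ENNReal.ofReal_mul (p := ‖w₀‖ ^ 2) (by positivity)]
      _ ≤ _ := by
          apply ENNReal.ofReal_le_ofReal
          have hX : 0 ≤ d * lam ^ (2 * a₁ * ε) := by positivity
          calc d * (‖w₀‖ ^ 2 * (C₃ * lam ^ (2 * a₁ * ε)))
              = ‖w₀‖ ^ 2 * C₃ * (d * lam ^ (2 * a₁ * ε)) := by ring
            _ ≤ (‖w₀‖ ^ 2 * (C₁ * C₃ / t₀) + C₄ ^ 2 + ‖w₀‖ ^ 2 * C₃) *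
                (d * lam ^ (2 * a₁ * ε)) := by
                refine mul_le_mul_of_nonneg_right ?_ hX
                have h8 : 0 ≤ ‖w₀‖ ^ 2 * (C₁ * C₃ / t₀) := by positivity
                have h9 : 0 ≤ C₄ ^ 2 := by positivity
                linarith
            _ = _ := by ring

end SBD
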