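import Pool.Agent.SBD.C09
import Pool.Agent.SBD.C10

/-!
# Row SBD-C11 : vectors with small `p^r` norm

PROOF.  `κ₀, a` from C10; WLOG replace `κ₀` by `κ = min κ₀ 4` (`Θ ≥ 1`, so the first bound of C10 stays true).
`c = κ/8`.  Let `2 < r ≤ 4`, `w`, `δ > 0`.  Let `ε > 0` be small (chosen below, depending on `r, δ, κ, a`).
Let `lam ≥ 1`, `d = dim A.eig lam ≥ 1`, `v_j` an orthonormal basis of `A.eig lam` (finite-dimensional,
`stdOrthonormalBasis`), `Ψ² = ∑|⟨w,π(g)v_j⟩|²`.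
(1) `(Ψ²/(Cd))^{(r-2)/2} Θ^ε ≤ lam^{-κ(r-2)/8 + ε(a(r-2)/2 + r)}`:
  if `Θ ≥ lam^{1/4}`: first bound of C10:
  `(lam^{aε}Θ^{-κ+ε})^{(r-2)/2}Θ^ε = lam^{aε(r-2)/2} Θ^{-κ(r-2)/2 + ε(r-2)/2+ε}`, and if `ε` is so small that
  the exponent `-κ(r-2)/2 + εr/2` of `Θ` is negative, this is
  `≤ lam^{aε(r-2)/2 + (1/4)(-κ(r-2)/2+εr/2)}`;
  if `Θ ≤ lam^{1/4}`: second bound: `(Θ⁴/lam²)^{(r-2)/2}Θ^ε ≤ lam^{-(r-2)/2 + ε/4} ≤ lam^{-κ(r-2)/8+ε/4}`
  (`κ ≤ 4`).
(2) `∫Ψ^r = ∫ (Ψ²)^{(r-2)/2}Θ^ε · Θ^{-ε}Ψ² ≤ (Cd)^{(r-2)/2} lam^{-κ(r-2)/8+ε(…)} · C d lam^{aε}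
   = C' d^{r/2} lam^{-κ(r-2)/8 + ε(…)}`.
(3) By `sign_r` (C09) pointwise and integration, `∑_σ ∫|⟨w,π(g)x_σ⟩|^r ≤ 3·2^d∫Ψ^r`,
`x_σ = ∑_j ±v_j` (`mc` is linear in the vector), so some `σ` has `∫|mc π w x_σ|^r ≤ 3∫Ψ^r`
(`Finset.exists_le_of_sum_le`).  `‖x_σ‖² = d`.  `x = x_σ/√d`: `‖x‖ = 1` and
`∫|mc π w x|^r ≤ 3C' lam^{-κ(r-2)/8+ε(…)}`; `r`-th root: `pr ≤ C'' lam^{-(κ/8)(1-2/r) + ε(…)/r}`; choose `ε` with
`ε(…)/r ≤ δ`.
-/

open MeasureTheory Filter Topology
open scoped ENNReal NNReal Matrix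

noncomputable section

namespace SBD

variable {N : ℕ} {G : Type} [Group G] [TopologicalSpace G] [IsTopologicalGroup G]
  [LocallyCompactSpace G] [T2Space G]
variable [SecondCountableTopology G] [MeasurableSpace G] [BorelSpace G]
variable {H : Type} [NormedAddCommGroup H] [InnerProductSpace ℂ H] [CompleteSpace H]

/-- the real inequality -/
private theorem c11_real {κ a ε pp r lam T D S : ℝ} (hκ4 : κ ≤ 4) (ha : 0 ≤ a) (hε : 0 < ε)
    (hp : 0 < pp) (hr : r = 2 * pp + 2) (hεκ : -κ * pp + ε * (pp + 1) ≤ 0) (hlam : 1 ≤ lam)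
    (hT : 1 ≤ T) (hD : 0 < D) (hS : 0 ≤ S) (h1 : S ≤ D * (lam ^ (a * ε) * T ^ (-κ + ε)))
    (h2 : S ≤ D * (T ^ 4 / lam ^ 2)) :
    S ^ (r / 2) ≤ D ^ pp * lam ^ (-κ * pp / 4 + ε * (a * pp + r)) * (T ^ (-ε) * S) := by
  have hl0 : 0 < lam := by linarith
  have hT0 : 0 < T := by linarith
  set E := -κ * pp / 4 + ε * (a * pp + r) with hE
  have key : S ^ pp ≤ D ^ pp * (lam ^ E * T ^ (-ε)) := by
    rcases le_total (lam ^ (1 / 4 : ℝ)) T with hc | hc
    · have h3 : S ^ pp ≤ (D * (lam ^ (a * ε) * T ^ (-κ + ε))) ^ pp :=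
        Real.rpow_le_rpow hS h1 hp.le
      refine h3.trans ?_
      rw [Real.mul_rpow hD.le (by positivity), Real.mul_rpow (by positivity) (by positivity),
        ← Real.rpow_mul hl0.le, ← Real.rpow_mul hT0.le]
      refine mul_le_mul_of_nonneg_left ?_ (by positivity)
      set q := (-κ + ε) * pp + ε with hq
      have hq0 : q ≤ 0 := by
        rw [hq]
        linarith
      have h4 : T ^ q ≤ lam ^ (q / 4) := by
        have h5 := Real.rpow_le_rpow_of_nonpos (by positivity) hc hq0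
        rw [← Real.rpow_mul hl0.le] at h5
        have h6 : 1 / 4 * q = q / 4 := by ring
        rwa [h6] at h5
      have h7 : T ^ ((-κ + ε) * pp) = T ^ q * T ^ (-ε) := by
        rw [← Real.rpow_add hT0]
        congr 1
        rw [hq]
        ring
      rw [h7, ← mul_assoc]
      refine mul_le_mul_of_nonneg_right ?_ (by positivity)
      calc lam ^ (a * ε * pp) * T ^ q ≤ lam ^ (a * ε * pp) * lam ^ (q / 4) :=
            mul_le_mul_of_nonneg_left h4 (by positivity)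
        _ = lam ^ (a * ε * pp + q / 4) := by rw [Real.rpow_add hl0]
        _ ≤ lam ^ E := by
            refine Real.rpow_le_rpow_of_exponent_le hlam ?_
            rw [hE, hq, hr]
            nlinarith [mul_pos hε hp]
    · have hT4 : T ^ 4 ≤ lam := by
        have h3 := pow_le_pow_left₀ hT0.le hc 4
        rwa [← Real.rpow_natCast (lam ^ (1 / 4 : ℝ)) 4, ← Real.rpow_mul hl0.le,
          show (1 / 4 : ℝ) * ((4 : ℕ) : ℝ) = 1 by norm_num, Real.rpow_one] at h3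
      have h3 : S ≤ D * lam ^ (-1 : ℝ) := by
        refine h2.trans (mul_le_mul_of_nonneg_left ?_ hD.le)
        rw [Real.rpow_neg_one, div_le_iff₀ (by positivity)]
        refine hT4.trans (le_of_eq ?_)
        field_simp
      have h4 : S ^ pp ≤ (D * lam ^ (-1 : ℝ)) ^ pp := Real.rpow_le_rpow hS h3 hp.le
      refine h4.trans ?_
      rw [Real.mul_rpow hD.le (by positivity), ← Real.rpow_mul hl0.le]
      refine mul_le_mul_of_nonneg_left ?_ (by positivity)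
      have h5 : lam ^ (-ε / 4) ≤ T ^ (-ε) := by
        have h6 := Real.rpow_le_rpow_of_nonpos hT0 hc (show -ε ≤ 0 by linarith)
        rw [← Real.rpow_mul hl0.le] at h6
        have h7 : 1 / 4 * -ε = -ε / 4 := by ring
        rwa [h7] at h6
      calc lam ^ (-1 * pp) ≤ lam ^ (E + -ε / 4) := by
            refine Real.rpow_le_rpow_of_exponent_le hlam ?_
            rw [hE, hr]
            nlinarith [mul_pos hε hp, mul_nonneg (mul_nonneg hε.le ha) hp.le]
        _ = lam ^ E * lam ^ (-ε / 4) := Real.rpow_add hl0 _ _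
        _ ≤ lam ^ E * T ^ (-ε) := mul_le_mul_of_nonneg_left h5 (by positivity)
  have h8 : S ^ (r / 2) = S ^ pp * S := by
    have h9 : r / 2 = pp + 1 := by rw [hr]; ring
    rw [h9, Real.rpow_add_one' hS (by linarith)]
  rw [h8]
  calc S ^ pp * S ≤ (D ^ pp * (lam ^ E * T ^ (-ε))) * S := mul_le_mul_of_nonneg_right key hS
    _ = D ^ pp * lam ^ E * (T ^ (-ε) * S) := by ring

/-- the integral of the power of the square function -/
private theorem c11_int (L : LieData N G) (μ : Measure G) (S : G → ℝ) {κ a ε pp r lam D : ℝ}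
    (hκ4 : κ ≤ 4) (ha : 0 ≤ a) (hε : 0 < ε)
    (hp : 0 < pp) (hr : r = 2 * pp + 2) (hεκ : -κ * pp + ε * (pp + 1) ≤ 0) (hlam : 1 ≤ lam)
    (hD : 0 < D) (hS : ∀ g, 0 ≤ S g) (h1 : ∀ g, S g ≤ D * (lam ^ (a * ε) * Th L g ^ (-κ + ε)))
    (h2 : ∀ g, S g ≤ D * (Th L g ^ 4 / lam ^ 2))
    (h3 : ∫⁻ g, ENNReal.ofReal (Th L g ^ (-ε) * S g) ∂μ ≤ ENNReal.ofReal (D * lam ^ (a * ε))) :
    ∫⁻ g, ENNReal.ofReal (S g ^ (r / 2)) ∂μ ≤ ENNReal.ofReal (D ^ (r / 2) *
      lam ^ (-κ * pp / 4 + ε * (a * pp + r) + a * ε)) := by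
  have hl0 : 0 < lam := by linarith
  set E := -κ * pp / 4 + ε * (a * pp + r) with hE
  have hK : 0 ≤ D ^ pp * lam ^ E := by positivity
  calc ∫⁻ g, ENNReal.ofReal (S g ^ (r / 2)) ∂μ
      ≤ ∫⁻ g, ENNReal.ofReal (D ^ pp * lam ^ E) *
          ENNReal.ofReal (Th L g ^ (-ε) * S g) ∂μ := by
        refine lintegral_mono fun g => ?_
        rw [← ENNReal.ofReal_mul hK]
        exact ENNReal.ofReal_le_ofReal (c11_real hκ4 ha hε hp hr hεκ hlam (one_le_Th L g) hD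
          (hS g) (h1 g) (h2 g))
    _ = ENNReal.ofReal (D ^ pp * lam ^ E) *
          ∫⁻ g, ENNReal.ofReal (Th L g ^ (-ε) * S g) ∂μ :=
        lintegral_const_mul' _ _ ENNReal.ofReal_ne_top
    _ ≤ ENNReal.ofReal (D ^ pp * lam ^ E) * ENNReal.ofReal (D * lam ^ (a * ε)) := by gcongr
    _ = ENNReal.ofReal (D ^ (r / 2) * lam ^ (E + a * ε)) := by
        rw [← ENNReal.ofReal_mul hK]
        congr 1
        have h9 : r / 2 = pp + 1 := by rw [hr]; ring
        rw [h9, Real.rpow_add hD, Real.rpow_one, Real.rpow_add hl0 E (a * ε)]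
        ring

/-- a choice of signs -/
private theorem c11_sign (μ : Measure G) (d : ℕ) (m : Fin d → G → ℂ) (hm : ∀ j, Continuous (m j))
    (r : ℝ) (hr : 0 < r) (hr4 : r ≤ 4) : ∃ σ : Fin d → Bool,
      ∫⁻ g, ‖∑ j, (if σ j then m j g else -m j g)‖ₑ ^ r ∂μ ≤
        3 * ∫⁻ g, ENNReal.ofReal ((∑ j, ‖m j g‖ ^ 2) ^ (r / 2)) ∂μ := by
  set I := ∫⁻ g, ENNReal.ofReal ((∑ j, ‖m j g‖ ^ 2) ^ (r / 2)) ∂μ with hI
  by_contra! hcon
  have hI0 : I ≠ ⊤ := by
    intro h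
    have h1 := hcon (fun _ => true)
    rw [h, ENNReal.mul_top (by norm_num)] at h1
    exact not_top_lt h1
  have h1 : ∑ _σ : Fin d → Bool, 3 * I <
      ∑ σ : Fin d → Bool, ∫⁻ g, ‖∑ j, (if σ j then m j g else -m j g)‖ₑ ^ r ∂μ :=
    ENNReal.sum_lt_sum_of_nonempty Finset.univ_nonempty fun σ _ => hcon σ
  have hc : ∀ σ : Fin d → Bool, Continuous fun g => ∑ j, (if σ j then m j g else -m j g) := by
    intro σ
    refine continuous_finsetSum _ fun j _ => ?_
    by_cases hσ : σ j = true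
    · simp only [hσ, if_true]
      exact hm j
    · simp only [hσ]
      exact (hm j).neg
  have h2 : ∑ σ : Fin d → Bool, ∫⁻ g, ‖∑ j, (if σ j then m j g else -m j g)‖ₑ ^ r ∂μ ≤
      ENNReal.ofReal (3 * 2 ^ d) * I := by
    rw [← lintegral_finsetSum Finset.univ fun σ _ =>
      ((hc σ).measurable.enorm.pow_const r), hI, ← lintegral_const_mul' _ _ ENNReal.ofReal_ne_top]
    refine lintegral_mono fun g => ?_
    have h3 := sign_r d (fun j => m j g) r hr hr4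
    have h4 : ∑ σ : Fin d → Bool, ‖∑ j, (if σ j then m j g else -m j g)‖ₑ ^ r =
        ENNReal.ofReal (∑ σ : Fin d → Bool, ‖∑ j, (if σ j then m j g else -m j g)‖ ^ r) := by
      rw [ENNReal.ofReal_sum_of_nonneg fun σ _ => by positivity]
      refine Finset.sum_congr rfl fun σ _ => ?_
      rw [← ENNReal.ofReal_rpow_of_nonneg (norm_nonneg _) hr.le, ofReal_norm]
    show ∑ σ : Fin d → Bool, ‖∑ j, (if σ j then m j g else -m j g)‖ₑ ^ r ≤ _
    rw [h4, ← ENNReal.ofReal_mul (by positivity)]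
    exact ENNReal.ofReal_le_ofReal h3
  rw [Finset.sum_const, Finset.card_univ, Fintype.card_fun, Fintype.card_bool, Fintype.card_fin,
    nsmul_eq_mul] at h1
  have h5 : ENNReal.ofReal (3 * 2 ^ d) * I = ((2 ^ d : ℕ) : ℝ≥0∞) * (3 * I) := by
    rw [ENNReal.ofReal_mul (by norm_num), ENNReal.ofReal_pow (by norm_num)]
    simp only [ENNReal.ofReal_ofNat]
    push_cast
    ring
  rw [h5] at h2
  exact absurd (h1.trans_le h2) (lt_irrefl _)

theorem small_vec (L : LieData N G) (π : G →* (H ≃ₗᵢ[ℂ] H)) (A : LieRep N (KFin L π))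
    (hP : IsPkg L π A) (μ : Measure G) [μ.IsHaarMeasure] [μ.IsMulRightInvariant]
    (ht : Tempered L π μ) (hk : ∃ Z ∈ L.𝔤, Zᵀ = -Z ∧ Z ≠ 0) :
    ∃ c : ℝ, 0 < c ∧ ∀ r : ℝ, 2 < r → r ≤ 4 → ∀ w ∈ KFin L π, ∀ δ : ℝ, 0 < δ →
      ∃ C : ℝ, 0 < C ∧ ∀ lam : ℝ, 1 ≤ lam → A.eig lam ≠ ⊥ →
        ∃ x ∈ A.eig lam, ‖x‖ = 1 ∧ pr π μ w (ENNReal.ofReal r) (x : H) ≤
          ENNReal.ofReal (C * lam ^ (-(c * (1 - 2 / r)) + δ)) := by
  classical
  obtain ⟨κ₀, hκ₀, a, ha, hpsi⟩ := psi L π A hP μ ht hk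
  set κ := min κ₀ 4 with hκdef
  have hκ0 : 0 < κ := lt_min hκ₀ (by norm_num)
  have hκ4 : κ ≤ 4 := min_le_right _ _
  refine ⟨κ / 8, by positivity, fun r hr2 hr4 w hw δ hδ => ?_⟩
  set pp := (r - 2) / 2 with hpp
  have hp : 0 < pp := by rw [hpp]; linarith
  have hr : r = 2 * pp + 2 := by rw [hpp]; ring
  have hr0 : 0 < r := by linarith
  have hden : 0 < a * pp + r + a := by positivity
  set ε := min 1 (min (κ * pp / (pp + 1)) (δ * r / (a * pp + r + a))) with hεdef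
  have hε : 0 < ε := lt_min one_pos (lt_min (by positivity) (by positivity))
  have hε1 : ε ≤ 1 := min_le_left _ _
  have hε2 : ε ≤ κ * pp / (pp + 1) := (min_le_right _ _).trans (min_le_left _ _)
  have hε3 : ε ≤ δ * r / (a * pp + r + a) := (min_le_right _ _).trans (min_le_right _ _)
  have hεκ : -κ * pp + ε * (pp + 1) ≤ 0 := by
    rw [le_div_iff₀ (by linarith)] at hε2
    linarith
  have hεδ : ε * (a * pp + r + a) ≤ δ * r := by
    rwa [le_div_iff₀ hden] at hε3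
  obtain ⟨C, hC, hCall⟩ := hpsi w hw ε hε hε1
  refine ⟨(3 * C ^ (r / 2)) ^ (1 / r), by positivity, fun lam hlam hne => ?_⟩
  have hl0 : 0 < lam := by linarith
  haveI hfin : FiniteDimensional ℂ (A.eig lam) := by
    haveI := hP.adm.fin lam
    exact Submodule.finiteDimensional_of_le (A.eig_le_low le_rfl)
  set d := Module.finrank ℂ (A.eig lam) with hd
  let b := stdOrthonormalBasis ℂ (A.eig lam)
  let v : Fin d → KFin L π := fun j => (b j : KFin L π)
  have hvo : Orthonormal ℂ v := b.orthonormal.comp_linearIsometry (A.eig lam).subtypeₗᵢ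
  have hve : ∀ j, v j ∈ A.eig lam := fun j => (b j).2
  have hvs : ∀ x ∈ A.eig lam, x = ∑ j, inner ℂ (v j) x • v j := by
    intro x hx
    have h1 := b.sum_repr' ⟨x, hx⟩
    have h2 := congrArg (A.eig lam).subtype h1
    rw [map_sum] at h2
    exact h2.symm
  have hd0 : 0 < d := by
    rw [hd, Module.finrank_pos_iff]
    exact (Submodule.nontrivial_iff_ne_bot).2 hne
  have hd0r : (0 : ℝ) < d := by exact_mod_cast hd0
  obtain ⟨hA1, hA2, hA3⟩ := hCall lam hlam d v hvo hve hvs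
  set m : Fin d → G → ℂ := fun j => mc π w ((v j : KFin L π) : H) with hm
  have hmc : ∀ j, Continuous (m j) := fun j =>
    continuous_const.inner (hP.cont ((v j : KFin L π) : H))
  have hS0 : ∀ g, 0 ≤ ∑ j, ‖m j g‖ ^ 2 := fun g => Finset.sum_nonneg fun j _ => by positivity
  have hI := c11_int L μ (fun g => ∑ j, ‖m j g‖ ^ 2) (κ := κ) (a := a) (ε := ε) (pp := pp) (r := r)
    (lam := lam) (D := C * d) hκ4 ha hε hp hr hεκ hlam (by positivity) hS0
    (fun g => by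
      refine (hA1 g).trans ?_
      refine mul_le_mul_of_nonneg_left ?_ (by positivity)
      refine mul_le_mul_of_nonneg_left ?_ (by positivity)
      refine Real.rpow_le_rpow_of_exponent_le (one_le_Th L g) ?_
      have : κ ≤ κ₀ := min_le_left _ _
      linarith)
    hA2 hA3
  obtain ⟨σ, hσ⟩ := c11_sign μ d m hmc r hr0 hr4
  let c : Fin d → ℂ := fun j => if σ j then 1 else -1
  let xs : KFin L π := ∑ j, c j • v j
  have hxs : xs ∈ A.eig lam := Submodule.sum_mem _ fun j _ => Submodule.smul_mem _ _ (hve j)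
  have hxn : ‖xs‖ = Real.sqrt d := by
    have h1 : inner ℂ xs xs = (d : ℂ) := by
      show inner ℂ (∑ j, c j • v j) (∑ j, c j • v j) = (d : ℂ)
      rw [hvo.inner_sum]
      have h2 : ∀ j ∈ (Finset.univ : Finset (Fin d)), (starRingEnd ℂ) (c j) * c j = 1 := by
        intro j _
        show (starRingEnd ℂ) (if σ j then 1 else -1) * (if σ j then 1 else -1) = 1
        split_ifs <;> simp
      rw [Finset.sum_congr rfl h2]
      simp
    have h3 : ‖xs‖ ^ 2 = d := by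
      rw [← inner_self_eq_norm_sq (𝕜 := ℂ), h1]
      simp
    rw [← h3, Real.sqrt_sq (norm_nonneg _)]
  have hsd : 0 < Real.sqrt d := Real.sqrt_pos.2 hd0r
  refine ⟨(((Real.sqrt d)⁻¹ : ℝ) : ℂ) • xs, Submodule.smul_mem _ _ hxs, ?_, ?_⟩
  · rw [norm_smul, hxn, Complex.norm_real, Real.norm_of_nonneg (by positivity),
      inv_mul_cancel₀ hsd.ne']
  have hmx : ∀ g, mc π w (((((Real.sqrt d)⁻¹ : ℝ) : ℂ) • xs : KFin L π) : H) g =
      (((Real.sqrt d)⁻¹ : ℝ) : ℂ) * ∑ j, (if σ j then m j g else -m j g) := by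
    intro g
    have h1 : (((((Real.sqrt d)⁻¹ : ℝ) : ℂ) • xs : KFin L π) : H) =
        (((Real.sqrt d)⁻¹ : ℝ) : ℂ) • ∑ j, c j • ((v j : KFin L π) : H) := by
      show (KFin L π).subtype ((((Real.sqrt d)⁻¹ : ℝ) : ℂ) • ∑ j, c j • v j) = _
      rw [map_smul, map_sum]
      rfl
    rw [mc, h1, map_smul, inner_smul_right, map_sum, inner_sum]
    congr 1
    refine Finset.sum_congr rfl fun j _ => ?_
    rw [map_smul, inner_smul_right]
    show (if σ j then (1 : ℂ) else -1) * m j g = _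
    split_ifs <;> simp
  have hrt : (ENNReal.ofReal r).toReal = r := ENNReal.toReal_ofReal hr0.le
  have hr' : ENNReal.ofReal r ≠ 0 := by
    rw [Ne, ENNReal.ofReal_eq_zero, not_le]
    exact hr0
  rw [pr, eLpNorm_eq_lintegral_rpow_enorm_toReal hr' ENNReal.ofReal_ne_top, hrt]
  set F := -κ * pp / 4 + ε * (a * pp + r) + a * ε with hF
  have hint : ∫⁻ g, ‖mc π w (((((Real.sqrt d)⁻¹ : ℝ) : ℂ) • xs : KFin L π) : H) g‖ₑ ^ r ∂μ ≤
      ENNReal.ofReal (3 * C ^ (r / 2) * lam ^ F) := by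
    have h1 : ∀ g, ‖mc π w (((((Real.sqrt d)⁻¹ : ℝ) : ℂ) • xs : KFin L π) : H) g‖ₑ ^ r =
        ENNReal.ofReal ((Real.sqrt d)⁻¹ ^ r) *
          ‖∑ j, (if σ j then m j g else -m j g)‖ₑ ^ r := by
      intro g
      rw [hmx, enorm_mul, ENNReal.mul_rpow_of_nonneg _ _ hr0.le]
      congr 1
      rw [← ofReal_norm, Complex.norm_real, Real.norm_of_nonneg (by positivity),
        ENNReal.ofReal_rpow_of_nonneg (by positivity) hr0.le]
    rw [lintegral_congr h1, lintegral_const_mul' _ _ ENNReal.ofReal_ne_top]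
    calc ENNReal.ofReal ((Real.sqrt d)⁻¹ ^ r) *
          ∫⁻ g, ‖∑ j, (if σ j then m j g else -m j g)‖ₑ ^ r ∂μ
        ≤ ENNReal.ofReal ((Real.sqrt d)⁻¹ ^ r) *
          (3 * ENNReal.ofReal ((C * d) ^ (r / 2) * lam ^ F)) := by
          refine mul_le_mul_right (hσ.trans (mul_le_mul_right hI _)) _
      _ = ENNReal.ofReal (3 * C ^ (r / 2) * lam ^ F) := by
          rw [show (3 : ℝ≥0∞) = ENNReal.ofReal 3 by simp,
            ← ENNReal.ofReal_mul (by norm_num), ← ENNReal.ofReal_mul (by positivity)]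
          congr 1
          rw [Real.mul_rpow hC.le hd0r.le, Real.inv_rpow hsd.le, Real.sqrt_eq_rpow,
            ← Real.rpow_mul hd0r.le]
          have h2 : 1 / 2 * r = r / 2 := by ring
          rw [h2]
          have h3 : (d : ℝ) ^ (r / 2) ≠ 0 := by positivity
          field_simp
  refine (ENNReal.rpow_le_rpow hint (by positivity)).trans ?_
  rw [ENNReal.ofReal_rpow_of_nonneg (by positivity) (by positivity)]
  refine ENNReal.ofReal_le_ofReal ?_
  rw [Real.mul_rpow (by positivity) (by positivity), ← Real.rpow_mul hl0.le]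
  refine mul_le_mul_of_nonneg_left (Real.rpow_le_rpow_of_exponent_le hlam ?_) (by positivity)
  have h4 : -(κ / 8 * (1 - 2 / r)) + δ = (-κ * pp / 4 + δ * r) * (1 / r) := by
    rw [hpp]
    field_simp
    ring
  rw [h4]
  refine mul_le_mul_of_nonneg_right ?_ (by positivity)
  rw [hF]
  linarith

end SBD
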