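import Pool.Agent.SBD.P04
import Pool.Agent.SBD.M01

/-!
# Row SBD-C12 : `p^r_w ≲ p^4_{w''}` for `r ≥ 4`

PROOF.  By `hP.smooth` (with `O = univ`) `w = π(f)w''`, `w'' ∈ KFin`, `f ≥ 0` continuous, compactly supported,
`∫f = 1`, `U = tsupport f`, `f ≤ c`.  For `v ∈ H`, with `m = mc π w v`, `m'' = mc π w'' v`:
`m(g) = ⟨π(f)w'', π(g)v⟩ = ∫ f(x)⟨π(x)w'',π(g)v⟩dx = ∫ f(x) m''(x⁻¹g) dx` (`sm_inner`, P04; `π(x)` unitary).
By Jensen/Hölder (`∫f = 1`): `|m(g)|⁴ ≤ ∫ f(x)|m''(x⁻¹g)|⁴dx ≤ c ∫|m''(x⁻¹g)|⁴dx = c∫|m''|⁴` (inversion and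
right invariance, M01: substitute `y = x⁻¹g`), so `sup|m| ≤ c^{1/4}‖m''‖_4`; and integrating over `g`
(Tonelli, left invariance): `∫|m|⁴ ≤ ∫f(x)∫|m''(x⁻¹g)|⁴dg dx = ∫|m''|⁴`, `‖m‖_4 ≤ ‖m''‖_4`.
For `4 ≤ r < ∞`: `∫|m|^r ≤ (sup|m|)^{r-4}∫|m|⁴ ≤ c^{(r-4)/4}‖m''‖_4^r`.  If `‖m''‖_4 = ∞` there is nothing to
prove (take `C ≥ 1`); do everything with `lintegral`s.
-/

open MeasureTheory Filter Topology
open scoped ENNReal NNReal Matrix

noncomputable section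

namespace SBD

variable {N : ℕ} {G : Type} [Group G] [TopologicalSpace G] [IsTopologicalGroup G]
  [LocallyCompactSpace G] [T2Space G]
variable [SecondCountableTopology G] [MeasurableSpace G] [BorelSpace G]
variable {H : Type} [NormedAddCommGroup H] [InnerProductSpace ℂ H] [CompleteSpace H]

omit [IsTopologicalGroup G] [LocallyCompactSpace G] [T2Space G] in
/-- Jensen's inequality with exponent `4` -/
theorem C12_jensen (μ : Measure G) (f : G → ℝ) (hf : Continuous f)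
    (hint : ∫⁻ x, ENNReal.ofReal (f x) ∂μ = 1) (F : G → ℂ) (hF : Continuous F) :
    (∫⁻ x, ENNReal.ofReal (f x) * ‖F x‖ₑ ∂μ) ^ (4 : ℝ) ≤
      ∫⁻ x, ENNReal.ofReal (f x) * ‖F x‖ₑ ^ (4 : ℝ) ∂μ := by
  have hfm : Measurable fun x => ENNReal.ofReal (f x) := hf.measurable.ennreal_ofReal
  set ν : Measure G := μ.withDensity fun x => ENNReal.ofReal (f x) with hν
  have : IsProbabilityMeasure ν := ⟨by
    rw [hν, withDensity_apply _ MeasurableSet.univ, setLIntegral_univ]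
    exact hint⟩
  have h := eLpNorm_le_eLpNorm_of_exponent_le (p := 1) (q := 4) (μ := ν) (f := F) (by norm_num)
    hF.aestronglyMeasurable
  rw [eLpNorm_one_eq_lintegral_enorm,
    eLpNorm_eq_lintegral_rpow_enorm_toReal (by norm_num) (by norm_num)] at h
  have h4 : (4 : ℝ≥0∞).toReal = 4 := by norm_num
  rw [h4] at h
  have h1 : ∫⁻ x, ‖F x‖ₑ ∂ν = ∫⁻ x, ENNReal.ofReal (f x) * ‖F x‖ₑ ∂μ :=
    lintegral_withDensity_eq_lintegral_mul μ hfm hF.enorm.measurable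
  have h2 : ∫⁻ x, ‖F x‖ₑ ^ (4 : ℝ) ∂ν = ∫⁻ x, ENNReal.ofReal (f x) * ‖F x‖ₑ ^ (4 : ℝ) ∂μ :=
    lintegral_withDensity_eq_lintegral_mul μ hfm (hF.enorm.measurable.pow_const _)
  rw [h1, h2] at h
  calc (∫⁻ x, ENNReal.ofReal (f x) * ‖F x‖ₑ ∂μ) ^ (4 : ℝ)
      ≤ ((∫⁻ x, ENNReal.ofReal (f x) * ‖F x‖ₑ ^ (4 : ℝ) ∂μ) ^ (1 / (4 : ℝ))) ^ (4 : ℝ) :=
        ENNReal.rpow_le_rpow h (by norm_num)
    _ = ∫⁻ x, ENNReal.ofReal (f x) * ‖F x‖ₑ ^ (4 : ℝ) ∂μ := by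
        rw [← ENNReal.rpow_mul]
        norm_num

omit [IsTopologicalGroup G] [LocallyCompactSpace G] [T2Space G] [SecondCountableTopology G]
  [BorelSpace G] [Group G] [TopologicalSpace G] in
/-- from the sup bound and the `L⁴` bound to `L^r` -/
theorem C12_interp (μ : Measure G) (m : G → ℂ) (c : ℝ≥0) (I : ℝ≥0∞)
    (hsup : ∀ g, ‖m g‖ₑ ^ (4 : ℝ) ≤ c * I) (h4 : ∫⁻ g, ‖m g‖ₑ ^ (4 : ℝ) ∂μ ≤ I) (r : ℝ≥0∞)
    (hr : 4 ≤ r) : ∃ C : ℝ≥0, (∀ c' : ℝ≥0, c' = c → C = c ^ (1 / 4 - 1 / r.toReal)) ∧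
      eLpNorm m r μ ≤ C * I ^ (1 / 4 : ℝ) := by
  refine ⟨c ^ (1 / 4 - 1 / r.toReal), fun _ _ => rfl, ?_⟩
  rcases eq_or_ne r ⊤ with rfl | hrt
  · rw [eLpNorm_exponent_top]
    refine eLpNormEssSup_le_of_ae_enorm_bound (Filter.Eventually.of_forall fun g => ?_)
    rw [ENNReal.toReal_top, div_zero, sub_zero, ENNReal.coe_rpow_of_nonneg _ (by norm_num),
      ← ENNReal.mul_rpow_of_nonneg _ _ (by norm_num)]
    calc ‖m g‖ₑ = (‖m g‖ₑ ^ (4 : ℝ)) ^ (1 / 4 : ℝ) := by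
          rw [← ENNReal.rpow_mul]
          norm_num
      _ ≤ (c * I) ^ (1 / 4 : ℝ) := ENNReal.rpow_le_rpow (hsup g) (by norm_num)
  · set ρ : ℝ := r.toReal with hρ
    have hρ4 : 4 ≤ ρ := by
      have h := ENNReal.toReal_mono hrt hr
      norm_num at h
      exact h
    have hρ0 : 0 < ρ := by linarith
    have hr0 : r ≠ 0 := by
      rintro rfl
      rw [hρ, ENNReal.toReal_zero] at hρ0
      exact lt_irrefl _ hρ0
    have hθ : 0 ≤ 1 / 4 - 1 / ρ := by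
      have : 1 / ρ ≤ 1 / 4 := one_div_le_one_div_of_le (by norm_num) hρ4
      linarith
    rw [eLpNorm_eq_lintegral_rpow_enorm_toReal hr0 hrt, ← hρ]
    have h1 : ∀ g, ‖m g‖ₑ ^ ρ ≤ (c * I) ^ ((ρ - 4) / 4) * ‖m g‖ₑ ^ (4 : ℝ) := by
      intro g
      have h2 : ‖m g‖ₑ ^ ρ = (‖m g‖ₑ ^ (4 : ℝ)) ^ ((ρ - 4) / 4) * ‖m g‖ₑ ^ (4 : ℝ) := by
        rw [← ENNReal.rpow_mul, ← ENNReal.rpow_add_of_nonneg _ _ (by linarith) (by norm_num)]
        congr 1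
        ring
      rw [h2]
      gcongr
      exact hsup g
    have h2 : ∫⁻ g, ‖m g‖ₑ ^ ρ ∂μ ≤ (c * I) ^ ((ρ - 4) / 4) * I := by
      refine (lintegral_mono h1).trans ?_
      by_cases hcI : (c * I) ^ ((ρ - 4) / 4) = ⊤
      · by_cases hI0 : I = 0
        · have h3 : ∫⁻ g, ‖m g‖ₑ ^ (4 : ℝ) ∂μ = 0 := le_antisymm (h4.trans hI0.le) bot_le
          rw [hI0, mul_zero] at hcI
          rcases eq_or_lt_of_le (show 0 ≤ (ρ - 4) / 4 by linarith) with h5 | h5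
          · rw [← h5, ENNReal.rpow_zero] at hcI
            exact absurd hcI ENNReal.one_ne_top
          · rw [ENNReal.zero_rpow_of_pos h5] at hcI
            exact absurd hcI ENNReal.zero_ne_top
        · rw [hcI, ENNReal.top_mul hI0]
          exact le_top
      · rw [lintegral_const_mul' _ _ hcI]
        gcongr
    calc (∫⁻ g, ‖m g‖ₑ ^ ρ ∂μ) ^ (1 / ρ) ≤ ((c * I) ^ ((ρ - 4) / 4) * I) ^ (1 / ρ) :=
          ENNReal.rpow_le_rpow h2 (by positivity)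
      _ = ((c : ℝ≥0∞) ^ ((ρ - 4) / 4) * I ^ (ρ / 4)) ^ (1 / ρ) := by
          have h6 : (c * I) ^ ((ρ - 4) / 4) = (c : ℝ≥0∞) ^ ((ρ - 4) / 4) * I ^ ((ρ - 4) / 4) :=
            ENNReal.mul_rpow_of_nonneg _ _ (by linarith)
          rw [h6, mul_assoc]
          congr 2
          have h5 : I ^ ((ρ - 4) / 4) * I = I ^ ((ρ - 4) / 4) * I ^ (1 : ℝ) := by
            rw [ENNReal.rpow_one]
          rw [h5, ← ENNReal.rpow_add_of_nonneg _ _ (by linarith) (by norm_num)]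
          congr 1
          ring
      _ = (c : ℝ≥0∞) ^ (1 / 4 - 1 / ρ) * I ^ (1 / 4 : ℝ) := by
          rw [ENNReal.mul_rpow_of_nonneg _ _ (by positivity), ← ENNReal.rpow_mul,
            ← ENNReal.rpow_mul]
          congr 2
          · field_simp
          · field_simp
      _ = ((c ^ (1 / 4 - 1 / ρ) : ℝ≥0) : ℝ≥0∞) * I ^ (1 / 4 : ℝ) := by
          rw [ENNReal.coe_rpow_of_nonneg _ hθ]

theorem compare4 (L : LieData N G) (π : G →* (H ≃ₗᵢ[ℂ] H)) (A : LieRep N (KFin L π))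
    (hP : IsPkg L π A) (μ : Measure G) [μ.IsHaarMeasure] [μ.IsMulRightInvariant] (w : H)
    (hw : w ∈ KFin L π) :
    ∃ w'' ∈ KFin L π, ∀ r : ℝ≥0∞, 4 ≤ r → ∃ C : ℝ≥0, ∀ v : H,
      pr π μ w r v ≤ C * pr π μ w'' 4 v := by
  obtain ⟨f, Lf, hB, w2, hw2, hww⟩ := hP.smooth μ w hw Set.univ Filter.univ_mem
  have : μ.IsInvInvariant := isInvInvariant (G := G) μ
  obtain ⟨c0, hc0⟩ := hB.cont.bounded_above_of_compact_support hB.supp
  set c : ℝ≥0 := c0.toNNReal with hc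
  have hfc : ∀ x, ENNReal.ofReal (f x) ≤ (c : ℝ≥0∞) := by
    intro x
    have h1 : f x ≤ c0 := (le_abs_self _).trans (hc0 x)
    rw [hc]
    exact ENNReal.ofReal_le_ofReal h1
  have hfi : Integrable f μ := hB.cont.integrable_of_hasCompactSupport hB.supp
  have hint : ∫⁻ x, ENNReal.ofReal (f x) ∂μ = 1 := by
    rw [← ofReal_integral_eq_lintegral_ofReal hfi (Filter.Eventually.of_forall hB.nonneg), hB.int,
      ENNReal.ofReal_one]
  refine ⟨w2, hw2, fun r hr => ⟨c ^ (1 / 4 - 1 / r.toReal), fun v => ?_⟩⟩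
  have hmc : ∀ u : H, Continuous (mc π u v) := fun u => continuous_const.inner (hP.cont v)
  set m : G → ℂ := mc π w v with hm
  set m2 : G → ℂ := mc π w2 v with hm2
  set I : ℝ≥0∞ := ∫⁻ x, ‖m2 x‖ₑ ^ (4 : ℝ) ∂μ with hI
  have hconv : ∀ g, m g = ∫ x, ((f x : ℝ) : ℂ) * m2 (x⁻¹ * g) ∂μ := by
    intro g
    change inner ℂ w (π g v) = _
    rw [hww, sm_inner π hP.cont μ f hB.cont hB.supp]
    refine integral_congr_ae (Filter.Eventually.of_forall fun x => ?_)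
    change ((f x : ℝ) : ℂ) * inner ℂ (π x w2) (π g v) =
      ((f x : ℝ) : ℂ) * inner ℂ w2 (π (x⁻¹ * g) v)
    congr 1
    have h1 : π g v = π x (π (x⁻¹ * g) v) := by
      have h2 : π g = π x * π (x⁻¹ * g) := by
        rw [← map_mul]
        congr 1
        group
      rw [h2]
      rfl
    rw [h1, LinearIsometryEquiv.inner_map_map]
  have hshift : ∀ g, Continuous fun x : G => m2 (x⁻¹ * g) := fun g =>
    (hmc w2).comp (continuous_inv.mul continuous_const)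
  have hpt : ∀ g, ‖m g‖ₑ ^ (4 : ℝ) ≤
      ∫⁻ x, ENNReal.ofReal (f x) * ‖m2 (x⁻¹ * g)‖ₑ ^ (4 : ℝ) ∂μ := by
    intro g
    refine le_trans ?_ (C12_jensen μ f hB.cont hint _ (hshift g))
    refine ENNReal.rpow_le_rpow ?_ (by norm_num)
    rw [hconv g]
    refine (enorm_integral_le_lintegral_enorm _).trans_eq ?_
    refine lintegral_congr fun x => ?_
    rw [enorm_mul]
    congr 1
    rw [← ofReal_norm, Complex.norm_real, Real.norm_of_nonneg (hB.nonneg x)]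
  have hsup : ∀ g, ‖m g‖ₑ ^ (4 : ℝ) ≤ c * I := by
    intro g
    refine (hpt g).trans ?_
    calc ∫⁻ x, ENNReal.ofReal (f x) * ‖m2 (x⁻¹ * g)‖ₑ ^ (4 : ℝ) ∂μ
        ≤ ∫⁻ x, (c : ℝ≥0∞) * ‖m2 (x⁻¹ * g)‖ₑ ^ (4 : ℝ) ∂μ := by
          refine lintegral_mono fun x => ?_
          gcongr
          exact hfc x
      _ = c * ∫⁻ x, ‖m2 (x⁻¹ * g)‖ₑ ^ (4 : ℝ) ∂μ :=
          lintegral_const_mul' _ _ ENNReal.coe_ne_top
      _ = c * I := by
          congr 1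
          rw [lintegral_inv_eq_self (μ := μ) (fun x => ‖m2 (x * g)‖ₑ ^ (4 : ℝ)), hI,
            lintegral_mul_right_eq_self (μ := μ) (fun x => ‖m2 x‖ₑ ^ (4 : ℝ)) g]
  have h4 : ∫⁻ g, ‖m g‖ₑ ^ (4 : ℝ) ∂μ ≤ I := by
    refine (lintegral_mono hpt).trans ?_
    rw [lintegral_lintegral_swap]
    · calc ∫⁻ x, ∫⁻ g, ENNReal.ofReal (f x) * ‖m2 (x⁻¹ * g)‖ₑ ^ (4 : ℝ) ∂μ ∂μ
          = ∫⁻ x, ENNReal.ofReal (f x) * I ∂μ := by
            refine lintegral_congr fun x => ?_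
            rw [lintegral_const_mul' _ _ ENNReal.ofReal_ne_top, hI,
              lintegral_mul_left_eq_self (μ := μ) (fun g => ‖m2 g‖ₑ ^ (4 : ℝ)) x⁻¹]
        _ = (∫⁻ x, ENNReal.ofReal (f x) ∂μ) * I :=
            lintegral_mul_const _ hB.cont.measurable.ennreal_ofReal
        _ ≤ I := by rw [hint, one_mul]
    · refine Measurable.aemeasurable ?_
      refine Measurable.mul ?_ ?_
      · exact (hB.cont.comp continuous_snd).measurable.ennreal_ofReal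
      · exact ((hmc w2).comp
          (continuous_snd.inv.mul continuous_fst)).enorm.measurable.pow_const _
  obtain ⟨C, hC, hCle⟩ := C12_interp μ m c I hsup h4 r hr
  rw [hC c rfl] at hCle
  refine hCle.trans_eq ?_
  congr 1
  change I ^ (1 / 4 : ℝ) = eLpNorm m2 4 μ
  rw [eLpNorm_eq_lintegral_rpow_enorm_toReal (by norm_num) (by norm_num)]
  have h5 : (4 : ℝ≥0∞).toReal = 4 := by norm_num
  rw [h5]

end SBD
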