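import Pool.Agent.SBD.An

/-!
# Row SBD-P01 : basic facts on `LieData`

* `e_zero` : `e_add` with `s = t = 0` : `e 0 = e 0 * e 0`.
* `e_neg` : `e_add` with `s = 1, t = -1` : `1 = e 0 = e X * e (-X)`.
* `e_line_cont` : `t ↦ t • X` is continuous with values in `𝔤`, `e_cont`.
* `K_compact` : `K = ι⁻¹ {M | M Mᵀ = 1}`; the orthogonal group is compact (closed, entries bounded
  by 1: `∑_j M_ij² = 1`), `ι_proper`.
* `e_mem_K` : `ι(e(tZ)) = exp(tZ)` and `exp(tZ) exp(tZ)ᵀ = exp(tZ) exp(tZᵀ) = exp(tZ) exp(-tZ) = 1`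
  (`Matrix.exp_transpose`, `Matrix.exp_neg`/`Matrix.exp_add_of_commute`).
* `K_inv` : for `k ∈ K`, `ι(k⁻¹) = ι(k)ᵀ` (see the proof in `LieData.K`).
* `ad_K_t` : `(ι k X ι(k)ᵀ)ᵀ = ι k Xᵀ ι(k)ᵀ`.
* `fip_ad_K` : `fip (kXk⁻¹) (kYk⁻¹) = tr(k Xᵀ kᵀ k Y kᵀ) = tr(Xᵀ Y)`, as `kᵀ k = 1`.
* `exists_bases` : `fip` is an inner product on `Mat N` (`fip X Y = ∑ X_ij Y_ij`); `𝔨 = {X ∈ 𝔤 : Xᵀ=-X}`
  and `𝔭 = {X ∈ 𝔤 : Xᵀ = X}` are subspaces, orthogonal to each other (`fip X Y = fip Xᵀ Yᵀ` ), and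
  `X = (X - Xᵀ)/2 + (X + Xᵀ)/2` with both parts in `𝔤` (`transpose_mem`).  Choose orthonormal bases
  (e.g. transport to `EuclideanSpace ℝ (Fin N × Fin N)` and use `stdOrthonormalBasis` of the
  submodule; or use `InnerProductSpace.Core`).
-/

open MeasureTheory Filter Topology
open scoped ENNReal NNReal Matrix

noncomputable section

namespace SBD

variable {N : ℕ} {G : Type} [Group G] [TopologicalSpace G] [IsTopologicalGroup G]
  [LocallyCompactSpace G] [T2Space G]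

variable (L : LieData N G)

theorem e_zero : L.e 0 = 1 := by
  have h := L.e_add 0 L.𝔤.zero_mem 0 0
  simp only [smul_zero] at h
  exact left_eq_mul.1 h

theorem e_neg {X : Mat N} (hX : X ∈ L.𝔤) : L.e (-X) = (L.e X)⁻¹ := by
  have h := L.e_add X hX 1 (-1)
  rw [add_neg_cancel, zero_smul, e_zero, one_smul, neg_smul, one_smul] at h
  exact (inv_eq_of_mul_eq_one_right h.symm).symm

theorem e_line_cont {X : Mat N} (hX : X ∈ L.𝔤) : Continuous fun t : ℝ => L.e (t • X) :=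
  L.e_cont.comp_continuous (continuous_id.smul continuous_const) fun t => L.𝔤.smul_mem t hX

/-- the orthogonal matrices form a compact set -/
theorem P01_orth_compact : IsCompact {M : Mat N | M * Mᵀ = 1} := by
  have h1 : IsCompact {M : Mat N | ∀ i j, M i j ∈ Set.Icc (-1 : ℝ) 1} := by
    have h2 : IsCompact (Set.pi (Set.univ : Set (Fin N)) fun _ =>
        Set.pi (Set.univ : Set (Fin N)) fun _ => Set.Icc (-1 : ℝ) 1) :=
      isCompact_univ_pi fun _ => isCompact_univ_pi fun _ => isCompact_Icc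
    have h3 : {M : Mat N | ∀ i j, M i j ∈ Set.Icc (-1 : ℝ) 1} =
        (Set.pi (Set.univ : Set (Fin N)) fun _ =>
          Set.pi (Set.univ : Set (Fin N)) fun _ => Set.Icc (-1 : ℝ) 1) :=
      Set.ext fun M => ⟨fun h i _ j _ => h i j, fun h i j => h i trivial j trivial⟩
    rw [h3]
    exact h2
  have hc : IsClosed {M : Mat N | M * Mᵀ = 1} :=
    isClosed_eq (continuous_id.matrix_mul continuous_id.matrix_transpose) continuous_const
  refine h1.of_isClosed_subset hc ?_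
  intro M hM i j
  have h3 : (M * Mᵀ) i i = 1 := by
    have h4 : M * Mᵀ = 1 := hM
    rw [h4, Matrix.one_apply_eq]
  rw [Matrix.mul_apply] at h3
  have h4 : M i j * M i j ≤ 1 := by
    rw [← h3]
    have h5 := Finset.single_le_sum (f := fun j => M i j * Mᵀ j i) (s := Finset.univ)
      (fun k _ => by
        simp only [Matrix.transpose_apply]
        exact mul_self_nonneg _) (Finset.mem_univ j)
    simpa only [Matrix.transpose_apply] using h5
  rw [Set.mem_Icc, ← abs_le]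
  exact abs_le_one_iff_mul_self_le_one.2 h4

theorem K_compact : IsCompact (L.K : Set G) :=
  L.ι_proper _ P01_orth_compact

theorem e_mem_K {Z : Mat N} (hZ : Z ∈ L.𝔤) (ht : Zᵀ = -Z) (t : ℝ) : L.e (t • Z) ∈ L.K := by
  change L.ι (L.e (t • Z)) * (L.ι (L.e (t • Z)))ᵀ = 1
  rw [L.ι_e _ (L.𝔤.smul_mem t hZ), ← Matrix.exp_transpose, Matrix.transpose_smul, ht, smul_neg,
    ← Matrix.exp_add_of_commute _ _ (show Commute (t • Z) (-(t • Z)) from
      (Commute.refl (t • Z)).neg_right), add_neg_cancel,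
    NormedSpace.exp_zero]

theorem K_inv {k : G} (hk : k ∈ L.K) : L.ι k⁻¹ = (L.ι k)ᵀ := by
  have hk' : L.ι k * (L.ι k)ᵀ = 1 := hk
  have h1 : L.ι k⁻¹ * L.ι k = 1 := by rw [← map_mul]; simp
  calc L.ι k⁻¹ = L.ι k⁻¹ * (L.ι k * (L.ι k)ᵀ) := by rw [hk', Matrix.mul_one]
    _ = (L.ι k)ᵀ := by rw [← Matrix.mul_assoc, h1, Matrix.one_mul]

theorem P01_inv_mul (k : G) : L.ι k⁻¹ * L.ι k = 1 := by
  rw [← map_mul]; simp

theorem P01_inv_t {k : G} (hk : k ∈ L.K) : (L.ι k⁻¹)ᵀ = L.ι k := by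
  rw [K_inv L hk, Matrix.transpose_transpose]

theorem ad_K_t {k : G} (hk : k ∈ L.K) (X : Mat N) :
    (L.ι k * X * L.ι k⁻¹)ᵀ = L.ι k * Xᵀ * L.ι k⁻¹ := by
  rw [Matrix.transpose_mul, Matrix.transpose_mul, P01_inv_t L hk, ← K_inv L hk, Matrix.mul_assoc]

theorem fip_ad_K {k : G} (hk : k ∈ L.K) (X Y : Mat N) :
    fip (L.ι k * X * L.ι k⁻¹) (L.ι k * Y * L.ι k⁻¹) = fip X Y := by
  unfold fip
  rw [ad_K_t L hk]
  have h1 : L.ι k * Xᵀ * L.ι k⁻¹ * (L.ι k * Y * L.ι k⁻¹) = L.ι k * (Xᵀ * Y) * L.ι k⁻¹ := by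
    calc L.ι k * Xᵀ * L.ι k⁻¹ * (L.ι k * Y * L.ι k⁻¹)
        = L.ι k * Xᵀ * (L.ι k⁻¹ * L.ι k) * (Y * L.ι k⁻¹) := by simp only [Matrix.mul_assoc]
      _ = L.ι k * (Xᵀ * Y) * L.ι k⁻¹ := by
        rw [P01_inv_mul, Matrix.mul_one]
        simp only [Matrix.mul_assoc]
  rw [h1, Matrix.mul_assoc, Matrix.trace_mul_comm, Matrix.mul_assoc, P01_inv_mul, Matrix.mul_one]

theorem P01_fip_eq (X Y : Mat N) : fip X Y = ∑ p : Fin N × Fin N, X p.1 p.2 * Y p.1 p.2 := by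
  unfold fip
  rw [Matrix.trace, Fintype.sum_prod_type, Finset.sum_comm]
  refine Finset.sum_congr rfl fun i _ => ?_
  rw [Matrix.diag_apply, Matrix.mul_apply]
  rfl

theorem P01_fip_t (X Y : Mat N) : fip Xᵀ Yᵀ = fip X Y := by
  unfold fip
  rw [Matrix.transpose_transpose, Matrix.trace_mul_comm, ← Matrix.trace_transpose (Xᵀ * Y),
    Matrix.transpose_mul, Matrix.transpose_transpose]

/-- the matrices as a Euclidean space -/
def P01_Phi (N : ℕ) : Mat N ≃ₗ[ℝ] EuclideanSpace ℝ (Fin N × Fin N) where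
  toFun X := WithLp.toLp 2 fun p => X p.1 p.2
  invFun x := fun i j => x (i, j)
  map_add' _ _ := rfl
  map_smul' _ _ := rfl
  left_inv _ := rfl
  right_inv _ := rfl

theorem P01_Phi_inner (X Y : Mat N) : inner ℝ (P01_Phi N X) (P01_Phi N Y) = fip X Y := by
  rw [P01_fip_eq, PiLp.inner_apply]
  refine Finset.sum_congr rfl fun p _ => ?_
  change Y p.1 p.2 * X p.1 p.2 = _
  rw [mul_comm]

/-- orthonormal basis of a subspace -/
theorem P01_basis (S : Submodule ℝ (Mat N)) : ∃ (m : ℕ) (Z : Fin m → Mat N), (∀ j, Z j ∈ S) ∧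
    (∀ i j, fip (Z i) (Z j) = if i = j then 1 else 0) ∧ ∀ X ∈ S, X = ∑ j, fip (Z j) X • Z j := by
  classical
  let T : Submodule ℝ (EuclideanSpace ℝ (Fin N × Fin N)) := S.map (P01_Phi N).toLinearMap
  let b := stdOrthonormalBasis ℝ T
  have hT : ∀ x : T, (P01_Phi N).symm (x : EuclideanSpace ℝ (Fin N × Fin N)) ∈ S := by
    rintro ⟨x, hx⟩
    obtain ⟨X, hX, rfl⟩ := Submodule.mem_map.1 hx
    change (P01_Phi N).symm (P01_Phi N X) ∈ S
    rw [LinearEquiv.symm_apply_apply]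
    exact hX
  refine ⟨Module.finrank ℝ T, fun i => (P01_Phi N).symm (b i), fun j => hT _, fun i j => ?_,
    fun X hX => ?_⟩
  · rw [← P01_Phi_inner, LinearEquiv.apply_symm_apply, LinearEquiv.apply_symm_apply]
    have h := orthonormal_iff_ite.1 b.orthonormal i j
    rwa [Submodule.coe_inner] at h
  · have hX' : P01_Phi N X ∈ T := Submodule.mem_map_of_mem hX
    have h := b.sum_repr ⟨P01_Phi N X, hX'⟩
    have h2 := congrArg (fun x : T => (P01_Phi N).symm (x : EuclideanSpace ℝ (Fin N × Fin N))) h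
    simp only [LinearEquiv.symm_apply_apply] at h2
    rw [Submodule.coe_sum, map_sum] at h2
    conv_lhs => rw [← h2]
    refine Finset.sum_congr rfl fun j _ => ?_
    rw [Submodule.coe_smul, map_smul, b.repr_apply_apply, Submodule.coe_inner, ← P01_Phi_inner,
      LinearEquiv.apply_symm_apply]

/-- the symmetric or skew part of the Lie algebra -/
def P01_part (L : LieData N G) (s : ℝ) : Submodule ℝ (Mat N) where
  carrier := {X | X ∈ L.𝔤 ∧ Xᵀ = s • X}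
  add_mem' := by
    rintro X Y ⟨h1, h2⟩ ⟨h3, h4⟩
    exact ⟨L.𝔤.add_mem h1 h3, by rw [Matrix.transpose_add, h2, h4, smul_add]⟩
  zero_mem' := ⟨L.𝔤.zero_mem, by rw [Matrix.transpose_zero, smul_zero]⟩
  smul_mem' := by
    rintro c X ⟨h1, h2⟩
    exact ⟨L.𝔤.smul_mem c h1, by rw [Matrix.transpose_smul, h2, smul_comm]⟩

theorem P01_fip_smul (t : ℝ) (X Y : Mat N) : fip X (t • Y) = t * fip X Y := by
  unfold fip
  rw [Matrix.mul_smul, Matrix.trace_smul, smul_eq_mul]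

theorem P01_fip_add (X Y Z : Mat N) : fip X (Y + Z) = fip X Y + fip X Z := by
  unfold fip
  rw [Matrix.mul_add, Matrix.trace_add]

theorem P01_fip_neg (X Y : Mat N) : fip X (-Y) = -fip X Y := by
  unfold fip
  rw [Matrix.mul_neg, Matrix.trace_neg]

theorem P01_fip_neg_left (X Y : Mat N) : fip (-X) Y = -fip X Y := by
  unfold fip
  rw [Matrix.transpose_neg, Matrix.neg_mul, Matrix.trace_neg]

/-- the two parts are orthogonal -/
theorem P01_orth (X Y : Mat N) (hX : Xᵀ = -X) (hY : Yᵀ = Y) : fip X Y = 0 ∧ fip Y X = 0 := by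
  have h1 := P01_fip_t X Y
  rw [hX, hY, P01_fip_neg_left] at h1
  have h2 := P01_fip_t Y X
  rw [hX, hY, P01_fip_neg] at h2
  exact ⟨by linarith, by linarith⟩

theorem exists_bases : ∃ (m n : ℕ) (Z : Fin m → Mat N) (P : Fin n → Mat N), IsKBasis L Z ∧
    (∀ j, P j ∈ L.𝔤 ∧ (P j)ᵀ = P j) ∧ (∀ i j, fip (P i) (P j) = if i = j then 1 else 0) ∧
    ∀ X ∈ L.𝔤, X = ∑ i, fip (Z i) X • Z i + ∑ i, fip (P i) X • P i := by
  obtain ⟨m, Z, hZ1, hZ2, hZ3⟩ := P01_basis (P01_part L (-1))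
  obtain ⟨n, P, hP1, hP2, hP3⟩ := P01_basis (P01_part L 1)
  have hZt : ∀ j, Z j ∈ L.𝔤 ∧ (Z j)ᵀ = -Z j := fun j => by
    refine ⟨(hZ1 j).1, ?_⟩
    rw [(hZ1 j).2, neg_smul, one_smul]
  have hPt : ∀ j, P j ∈ L.𝔤 ∧ (P j)ᵀ = P j := fun j => by
    refine ⟨(hP1 j).1, ?_⟩
    conv_lhs => rw [(hP1 j).2, one_smul]
  refine ⟨m, n, Z, P, ⟨hZt, hZ2, fun X hX hXt => hZ3 X ⟨hX, by rw [hXt, neg_smul, one_smul]⟩⟩,
    hPt, hP2, fun X hX => ?_⟩
  set A : Mat N := (1 / 2 : ℝ) • (X + -Xᵀ) with hA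
  set B : Mat N := (1 / 2 : ℝ) • (X + Xᵀ) with hB
  have hAB : A + B = X := by
    rw [hA, hB, ← smul_add]
    have : X + -Xᵀ + (X + Xᵀ) = (2 : ℝ) • X := by
      rw [two_smul]
      abel
    rw [this, smul_smul]
    norm_num
  have hAt : Aᵀ = -A := by
    rw [hA, Matrix.transpose_smul, Matrix.transpose_add, Matrix.transpose_neg,
      Matrix.transpose_transpose, ← smul_neg]
    congr 1
    abel
  have hBt : Bᵀ = B := by
    rw [hB, Matrix.transpose_smul, Matrix.transpose_add, Matrix.transpose_transpose]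
    congr 1
    abel
  have hXt := L.transpose_mem X hX
  have hAg : A ∈ L.𝔤 := L.𝔤.smul_mem _ (L.𝔤.add_mem hX (L.𝔤.neg_mem hXt))
  have hBg : B ∈ L.𝔤 := L.𝔤.smul_mem _ (L.𝔤.add_mem hX hXt)
  have h1 : A = ∑ i, fip (Z i) X • Z i := by
    have h2 := hZ3 A ⟨hAg, by rw [hAt, neg_smul, one_smul]⟩
    conv_lhs => rw [h2]
    refine Finset.sum_congr rfl fun i _ => ?_
    rw [← hAB, P01_fip_add, (P01_orth (Z i) B (hZt i).2 hBt).1, add_zero]
  have h2 : B = ∑ i, fip (P i) X • P i := by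
    have h3 := hP3 B ⟨hBg, by rw [hBt, one_smul]⟩
    conv_lhs => rw [h3]
    refine Finset.sum_congr rfl fun i _ => ?_
    rw [← hAB, P01_fip_add, (P01_orth A (P i) hAt (hPt i).2).2, zero_add]
  rw [← h1, ← h2, hAB]

end SBD
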