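import Pool.Agent.SBD.An
import Pool.Agent.SBD.A02
import Pool.Agent.SBD.P01

/-!
# Row SBD-P15 : the eigenvalues of `Δ` are unbounded if `dim H = ∞`

PROOF.  Suppose `A.eig lam = ⊥` for all `lam ≥ R`.  Then `V = A.low R` (`mem_all`, A02) is
finite-dimensional, so closed in `H` (as the submodule `KFin L π` of `H`).  Claim: `V` is invariant
under `π(e(tX))`, `X ∈ 𝔤`.  Let `T = D(X) : V → V` (a linear operator on a finite-dimensional space),
`u ∈ V`, `φ(t) = exp(tT)u ∈ V` (`φ' = Tφ`).  The function `ψ(t) = π(e(-tX))φ(t) ∈ H` has derivative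
`π(e(-tX))(-Tφ(t) + φ'(t)) = 0` (`IsPkg.line` with `-X`/chain rule and the product rule for the
strongly continuous family; to be safe: for fixed basis `b_i` of `V`, `φ(t) = ∑ φ_i(t)b_i` and
`ψ(t) = ∑ φ_i(t) π(e(-tX))b_i`, an honest finite sum of products of differentiable functions).
So `ψ` is constant `= u`, `π(e(tX))u = φ(t) ∈ V`.  With `K`-invariance of `V` and
`G = K e(𝔭)` (`L.polar`), `V` is `G`-invariant, closed and nonzero, so `V = H` by irreducibility, and `H` is
finite-dimensional: contradiction.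
-/

open MeasureTheory Filter Topology
open scoped ENNReal NNReal Matrix

noncomputable section

namespace SBD

variable {N : ℕ} {G : Type} [Group G] [TopologicalSpace G] [IsTopologicalGroup G]
  [LocallyCompactSpace G] [T2Space G]
variable {H : Type} [NormedAddCommGroup H] [InnerProductSpace ℂ H] [CompleteSpace H]

theorem p15_kinv (L : LieData N G) (π : G →* (H ≃ₗᵢ[ℂ] H)) (k : G) (hk : k ∈ L.K) (v : H)
    (hv : v ∈ KFin L π) : π k v ∈ KFin L π := by
  obtain ⟨W, hW, hvW, hinv⟩ := hv
  exact ⟨W, hW, hinv k hk v hvW, hinv⟩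

theorem p15_ode (L : LieData N G) (π : G →* (H ≃ₗᵢ[ℂ] H)) (A : LieRep N (KFin L π))
    (hP : IsPkg L π A) (hfd : FiniteDimensional ℂ (KFin L π)) (X : Mat N) (hX : X ∈ L.𝔤)
    (w : H) (hw : ∀ u ∈ KFin L π, inner ℂ w u = 0) (u : KFin L π) :
    inner ℂ w (π (L.e X) (u : H)) = 0 := by
  classical
  obtain ⟨d, b⟩ : ∃ d : ℕ, Nonempty (Module.Basis (Fin d) ℂ (KFin L π)) :=
    ⟨_, ⟨Module.finBasis ℂ (KFin L π)⟩⟩
  obtain ⟨b⟩ := b
  let g : ℝ → Fin d → ℂ := fun t i => inner ℂ w (π (L.e (t • X)) ((b i : KFin L π) : H))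
  let M : (Fin d → ℂ) →ₗ[ℂ] (Fin d → ℂ) :=
    { toFun := fun x i => ∑ j, b.repr (A.D X (b i)) j * x j
      map_add' := fun x y => by
        funext i
        simp only [Pi.add_apply, mul_add, Finset.sum_add_distrib]
      map_smul' := fun c x => by
        funext i
        simp only [Pi.smul_apply, smul_eq_mul, RingHom.id_apply, Finset.mul_sum]
        exact Finset.sum_congr rfl fun j _ => by ring }
  let M' : (Fin d → ℂ) →L[ℂ] (Fin d → ℂ) := LinearMap.toContinuousLinearMap M
  have hderiv : ∀ t : ℝ, HasDerivAt g (M' (g t)) t := by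
    intro t
    rw [hasDerivAt_pi]
    intro i
    have h1 := hP.line X hX (b i) t
    have h2 : HasDerivAt (fun s : ℝ => inner ℂ w (π (L.e (s • X)) ((b i : KFin L π) : H)))
        (inner ℂ w (π (L.e (t • X)) ((A.D X (b i) : KFin L π) : H))) t :=
      ((innerSL ℂ w).restrictScalars ℝ).hasFDerivAt.comp_hasDerivAt t h1
    have h3 : inner ℂ w (π (L.e (t • X)) ((A.D X (b i) : KFin L π) : H)) = M' (g t) i := by
      have h4 : ((A.D X (b i) : KFin L π) : H) =
          ∑ j, b.repr (A.D X (b i)) j • ((b j : KFin L π) : H) := by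
        conv_lhs => rw [← b.sum_repr (A.D X (b i))]
        rw [Submodule.coe_sum]
        rfl
      rw [h4, map_sum, inner_sum]
      show _ = ∑ j, b.repr (A.D X (b i)) j * g t j
      refine Finset.sum_congr rfl fun j _ => ?_
      rw [map_smul, inner_smul_right]
    rw [h3] at h2
    exact h2
  have hz : ∀ t : ℝ, HasDerivAt (fun _ : ℝ => (0 : Fin d → ℂ)) (M' 0) t := by
    intro t
    rw [map_zero]
    exact hasDerivAt_const t 0
  have huniq : g = fun _ => 0 := by
    apply ODE_solution_unique_univ (v := fun _ x => M' x) (s := fun _ => Set.univ)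
      (K := ‖M'‖₊) (t₀ := 0)
    · intro t
      exact M'.lipschitz.lipschitzOnWith
    · exact fun t => ⟨hderiv t, Set.mem_univ _⟩
    · exact fun t => ⟨hz t, Set.mem_univ _⟩
    · funext i
      show inner ℂ w (π (L.e ((0 : ℝ) • X)) ((b i : KFin L π) : H)) = 0
      rw [zero_smul, e_zero, map_one]
      exact hw _ (b i).2
  have h1 : ∀ i, inner ℂ w (π (L.e X) ((b i : KFin L π) : H)) = 0 := by
    intro i
    have := congrFun (congrFun huniq 1) i
    simpa [g] using this
  have h5 : (u : H) = ∑ j, b.repr u j • ((b j : KFin L π) : H) := by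
    conv_lhs => rw [← b.sum_repr u]
    rw [Submodule.coe_sum]
    rfl
  rw [h5, map_sum, inner_sum]
  refine Finset.sum_eq_zero fun j _ => ?_
  rw [map_smul, inner_smul_right, h1 j, mul_zero]

theorem unbounded (L : LieData N G) (π : G →* (H ≃ₗᵢ[ℂ] H)) (A : LieRep N (KFin L π))
    (hP : IsPkg L π A) (hinf : ¬ FiniteDimensional ℂ H) (hV : ∃ u ∈ KFin L π, u ≠ 0) (R : ℝ) :
    ∃ lam : ℝ, R ≤ lam ∧ A.eig lam ≠ ⊥ := by
  classical
  by_contra hcon
  push Not at hcon
  have hlow : ∀ v : KFin L π, v ∈ A.low R := by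
    intro v
    obtain ⟨s, f, hf, rfl⟩ := A.mem_all hP.adm v
    refine Submodule.sum_mem _ fun l hl => ?_
    rcases le_or_gt R l with h | h
    · have h1 := hf l hl
      rw [hcon l h, Submodule.mem_bot] at h1
      rw [h1]
      exact Submodule.zero_mem _
    · exact A.eig_le_low h.le (hf l hl)
  have hfd : FiniteDimensional ℂ (KFin L π) := by
    have h1 := hP.adm.fin R
    have h2 : A.low R = ⊤ := eq_top_iff.2 fun v _ => hlow v
    rw [h2] at h1
    exact Module.Finite.equiv (Submodule.topEquiv (R := ℂ) (M := KFin L π))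
  have hclosed : IsClosed ((KFin L π : Submodule ℂ H) : Set H) :=
    Submodule.closed_of_finiteDimensional _
  have hX : ∀ X ∈ L.𝔤, ∀ u : KFin L π, π (L.e X) (u : H) ∈ KFin L π := by
    intro X hX u
    have h1 : π (L.e X) (u : H) ∈ (KFin L π)ᗮᗮ := by
      rw [Submodule.mem_orthogonal]
      intro w hw
      rw [Submodule.mem_orthogonal'] at hw
      exact p15_ode L π A hP hfd X hX w hw u
    rwa [Submodule.orthogonal_orthogonal] at h1
  have hinv : ∀ g : G, ∀ v ∈ KFin L π, π g v ∈ KFin L π := by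
    intro g v hv
    obtain ⟨k, X, hXg, -, hk, rfl⟩ := L.polar g
    rw [map_mul]
    exact p15_kinv L π k hk _ (hX X hXg ⟨v, hv⟩)
  rcases hP.irr (KFin L π) hclosed hinv with h | h
  · obtain ⟨u, hu, hu0⟩ := hV
    rw [h, Submodule.mem_bot] at hu
    exact hu0 hu
  · apply hinf
    rw [h] at hfd
    exact Module.Finite.equiv (Submodule.topEquiv (R := ℂ) (M := H))

end SBD
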