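import Pool.Agent.SBD.C11
import Pool.Agent.SBD.C12
import Pool.Agent.SBD.P15
import Pool.Agent.SBD.P16

/-!
# Row SBD-C13 : the lower bound `d_→([q],[p^r]) ≥ c (1 - 2/r)`

* `exists_Z` : by `unbounded` (P15) there is `lam ≥ 2` with `A.eig lam ≠ ⊥`, so `Δ ≠ 1`, so `A.m ≠ 0`
  (if `A.m = 0` then `Δ = 1` and `A.eig lam = ⊥` for `lam ≠ 1`); `Z = A.Z 0` has `fsq Z = 1`, so `Z ≠ 0`.
* `lower` : `c` from C11.  Let `t = ofReal s` be in the set defining `dTo L π qn (pr π μ w r)`: `s ≥ 0` and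
  `‖u‖ ≤ C₀ p^r(v)` whenever `Sob L π s u v`, `u ∈ V`.  For `lam ≥ 1`, `A.eig lam ≠ ⊥` and `x ∈ A.eig lam`,
  `‖x‖ = 1`: `Sob L π s x (lam^{s/2}x)` (`sob_iff`, P16, with `s = {lam}`), so
  `1 ≤ C₀ lam^{s/2} p^r(x)` (`pr` is homogeneous: `eLpNorm_const_smul`).
  Case `r ≤ 4` (real `r`): with `x` from C11: `1 ≤ C₀C lam^{s/2 - c(1-2/r) + δ}` for a sequence
  `lam → ∞` (P15), so `s/2 - c(1-2/r) + δ ≥ 0` for every `δ > 0`: `s ≥ 2c(1-2/r) ≥ c(1-2/r)`.
  Case `r > 4`: `w''` from C12 and C11 for `w''`, `r = 4`: `p^r_w(x) ≤ C p^4_{w''}(x) ≤ C'lam^{-c/2+δ}`; so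
  `s ≥ c ≥ c(1-2/r)`.
-/

open MeasureTheory Filter Topology
open scoped ENNReal NNReal Matrix

noncomputable section

namespace SBD

variable {N : ℕ} {G : Type} [Group G] [TopologicalSpace G] [IsTopologicalGroup G]
  [LocallyCompactSpace G] [T2Space G]
variable [SecondCountableTopology G] [MeasurableSpace G] [BorelSpace G]
variable {H : Type} [NormedAddCommGroup H] [InnerProductSpace ℂ H] [CompleteSpace H]

variable (L : LieData N G) (π : G →* (H ≃ₗᵢ[ℂ] H)) (A : LieRep N (KFin L π))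
    (hP : IsPkg L π A) (hinf : ¬ FiniteDimensional ℂ H) (hV : ∃ u ∈ KFin L π, u ≠ 0)

include hP hinf hV

theorem exists_Z : ∃ Z ∈ L.𝔤, Zᵀ = -Z ∧ Z ≠ 0 := by
  obtain ⟨lam, h2, hne⟩ := unbounded L π A hP hinf hV 2
  have hm : A.m ≠ 0 := by
    intro h0
    refine hne ((Submodule.eq_bot_iff _).2 fun v hv => ?_)
    have hv' : A.Del v = (lam : ℂ) • v := hv
    have h1 : A.Del v = v := by
      have : IsEmpty (Fin A.m) := by
        rw [h0]
        infer_instance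
      unfold LieRep.Del
      rw [Finset.univ_eq_empty, Finset.sum_empty, sub_zero, LinearMap.id_apply]
    rw [h1] at hv'
    have h3 : ((lam : ℂ) - 1) • v = 0 := by
      rw [sub_smul, one_smul, ← hv', sub_self]
    rcases smul_eq_zero.1 h3 with h4 | h4
    · exfalso
      have h5 : (lam : ℂ) = ((1 : ℝ) : ℂ) := by
        rw [Complex.ofReal_one]
        exact sub_eq_zero.1 h4
      have h6 : lam = 1 := Complex.ofReal_injective h5
      linarith
    · exact h4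
  have hpos : 0 < A.m := Nat.pos_of_ne_zero hm
  refine ⟨A.Z ⟨0, hpos⟩, ?_, A.Z_t _, ?_⟩
  · rw [← hP.g_eq]
    exact A.Z_mem _
  · intro h0
    have h1 := A.Z_o ⟨0, hpos⟩ ⟨0, hpos⟩
    rw [h0, if_pos rfl] at h1
    unfold fip at h1
    rw [Matrix.mul_zero, Matrix.trace_zero] at h1
    exact zero_ne_one h1

omit hP hinf hV in
theorem C13_pr_smul (μ : Measure G) (w : H) (r : ℝ≥0∞) (a : ℂ) (v : H) :
    pr π μ w r (a • v) = ‖a‖ₑ * pr π μ w r v := by
  unfold pr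
  have h : mc π w (a • v) = a • mc π w v := by
    funext g
    change inner ℂ w (π g (a • v)) = a * inner ℂ w (π g v)
    rw [map_smul, inner_smul_right]
  rw [h, eLpNorm_const_smul]

/-- the main step -/
theorem C13_main (μ : Measure G) (w : H) (r : ℝ≥0∞) (θ : ℝ)
    (hx : ∀ δ : ℝ, 0 < δ → ∃ C : ℝ, 0 < C ∧ ∀ lam : ℝ, 1 ≤ lam → A.eig lam ≠ ⊥ →
      ∃ x ∈ A.eig lam, ‖x‖ = 1 ∧ pr π μ w r (x : H) ≤ ENNReal.ofReal (C * lam ^ (-θ + δ)))
    (s : ℝ) (C0 : ℝ≥0)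
    (hC0 : ∀ u v : H, u ∈ KFin L π → Sob L π s u v → qn u ≤ C0 * pr π μ w r v) : θ ≤ s / 2 := by
  by_contra hcon
  push Not at hcon
  set δ : ℝ := (θ - s / 2) / 2 with hδ
  have hδ0 : 0 < δ := by
    rw [hδ]
    linarith
  obtain ⟨C, hC, hCx⟩ := hx δ hδ0
  have hlim : Filter.Tendsto (fun x : ℝ => x ^ δ) Filter.atTop Filter.atTop :=
    tendsto_rpow_atTop hδ0
  obtain ⟨R, hR⟩ := Filter.eventually_atTop.1 (hlim.eventually_gt_atTop ((C0 : ℝ) * C))
  obtain ⟨lam, hlam, hne⟩ := unbounded L π A hP hinf hV (max 1 R)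
  have hl1 : 1 ≤ lam := (le_max_left _ _).trans hlam
  have hl0 : 0 < lam := by linarith
  obtain ⟨x, hxe, hx1, hxp⟩ := hCx lam hl1 hne
  have hsob : Sob L π s (x : H) ((((lam ^ (s / 2) : ℝ) : ℂ) • x : KFin L π) : H) := by
    rw [sob_iff L π A hP]
    refine ⟨{lam}, fun _ => x, ?_, ?_, ?_⟩
    · intro l hl
      rw [Finset.mem_singleton] at hl
      subst hl
      exact ⟨hl1, hxe⟩
    · rw [Finset.sum_singleton]
    · rw [Finset.sum_singleton]
  have h1 := hC0 _ _ x.2 hsob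
  rw [Submodule.coe_smul, C13_pr_smul] at h1
  have h2 : qn (x : H) = 1 := by
    unfold qn
    rw [← ofReal_norm]
    have : ‖(x : H)‖ = 1 := hx1
    rw [this, ENNReal.ofReal_one]
  have h3 : ‖((lam ^ (s / 2) : ℝ) : ℂ)‖ₑ = ENNReal.ofReal (lam ^ (s / 2)) := by
    rw [← ofReal_norm, Complex.norm_real, Real.norm_of_nonneg (Real.rpow_nonneg hl0.le _)]
  rw [h2, h3] at h1
  have h4 : (1 : ℝ≥0∞) ≤ ENNReal.ofReal ((C0 : ℝ) * (lam ^ (s / 2) * (C * lam ^ (-θ + δ)))) := by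
    refine h1.trans ?_
    rw [ENNReal.ofReal_mul (NNReal.coe_nonneg C0), ENNReal.ofReal_coe_nnreal,
      ENNReal.ofReal_mul (Real.rpow_nonneg hl0.le _)]
    gcongr
  rw [ENNReal.one_le_ofReal] at h4
  have h5 : lam ^ (s / 2) * (C * lam ^ (-θ + δ)) = C * (lam ^ δ)⁻¹ := by
    rw [mul_left_comm, ← Real.rpow_add hl0, ← Real.rpow_neg hl0.le]
    congr 2
    rw [hδ]
    ring
  rw [h5] at h4
  have h6 : 0 < lam ^ δ := Real.rpow_pos_of_pos hl0 δ
  have h7 : lam ^ δ ≤ (C0 : ℝ) * C := by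
    have h8 : (C0 : ℝ) * (C * (lam ^ δ)⁻¹) = ((C0 : ℝ) * C) / lam ^ δ := by ring
    rw [h8, one_le_div h6] at h4
    exact h4
  have h9 := hR lam ((le_max_right _ _).trans hlam)
  linarith

theorem lower (μ : Measure G) [μ.IsHaarMeasure] [μ.IsMulRightInvariant]
    (ht : Tempered L π μ) :
    ∃ c : ℝ, 0 < c ∧ ∀ r : ℝ≥0∞, 2 < r → ∀ w ∈ KFin L π, w ≠ 0 →
      ENNReal.ofReal c * (1 - 2 / r) ≤ dTo L π qn (pr π μ w r) := by
  obtain ⟨c, hc, hsv⟩ := small_vec L π A hP μ ht (exists_Z L π A hP hinf hV)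
  refine ⟨c, hc, fun r hr w hw _ => ?_⟩
  unfold dTo
  refine le_sInf ?_
  rintro t ⟨s, hs, rfl, C0, hC0⟩
  rcases le_or_gt r 4 with hr4 | hr4
  · have hrt : r ≠ ⊤ := ne_top_of_le_ne_top (by norm_num) hr4
    set ρ : ℝ := r.toReal with hρ
    have hrρ : r = ENNReal.ofReal ρ := (ENNReal.ofReal_toReal hrt).symm
    have hρ2 : 2 < ρ := by
      have h := (ENNReal.toReal_lt_toReal (by norm_num) hrt).2 hr
      norm_num at h
      exact h
    have hρ4 : ρ ≤ 4 := by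
      have h := ENNReal.toReal_mono (by norm_num) hr4
      norm_num at h
      exact h
    have hρ0 : 0 < ρ := by linarith
    have h1 := C13_main L π A hP hinf hV μ w r (c * (1 - 2 / ρ)) (fun δ hδ => by
      obtain ⟨C, hC, hCx⟩ := hsv ρ hρ2 hρ4 w hw δ hδ
      refine ⟨C, hC, fun lam hlam hne => ?_⟩
      rw [hrρ]
      exact hCx lam hlam hne) s C0 hC0
    have h2 : 0 ≤ 1 - 2 / ρ := by
      have : 2 / ρ ≤ 1 := by
        rw [div_le_one hρ0]
        exact hρ2.le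
      linarith
    have h3 : ENNReal.ofReal c * (1 - 2 / r) = ENNReal.ofReal (c * (1 - 2 / ρ)) := by
      rw [ENNReal.ofReal_mul hc.le, ENNReal.ofReal_sub _ (by positivity), ENNReal.ofReal_one,
        ENNReal.ofReal_div_of_pos hρ0, ← hrρ]
      norm_num
    rw [h3]
    refine ENNReal.ofReal_le_ofReal ?_
    have h4 : 0 ≤ c * (1 - 2 / ρ) := mul_nonneg hc.le h2
    linarith
  · obtain ⟨w2, hw2, hcmp⟩ := compare4 L π A hP μ w hw
    obtain ⟨C1, hC1⟩ := hcmp r hr4.le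
    have h1 := C13_main L π A hP hinf hV μ w r (c * (1 - 2 / 4)) (fun δ hδ => by
      obtain ⟨C, hC, hCx⟩ := hsv 4 (by norm_num) le_rfl w2 hw2 δ hδ
      refine ⟨((C1 : ℝ) + 1) * C, by positivity, fun lam hlam hne => ?_⟩
      obtain ⟨x, hxe, hx1, hxp⟩ := hCx lam hlam hne
      refine ⟨x, hxe, hx1, (hC1 _).trans ?_⟩
      have h4 : ENNReal.ofReal 4 = 4 := by norm_num
      rw [h4] at hxp
      have hl0 : 0 < lam := by linarith
      have h5 : (C1 : ℝ≥0∞) ≤ ENNReal.ofReal ((C1 : ℝ) + 1) := by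
        rw [← ENNReal.ofReal_coe_nnreal]
        exact ENNReal.ofReal_le_ofReal (by linarith)
      rw [mul_assoc, ENNReal.ofReal_mul (by positivity)]
      gcongr) s C0 hC0
    have h2 : c ≤ s := by
      have h3 : c * (1 - 2 / 4) = c / 2 := by ring
      rw [h3] at h1
      linarith
    calc ENNReal.ofReal c * (1 - 2 / r) ≤ ENNReal.ofReal c * 1 := by
          gcongr
          exact tsub_le_self
      _ = ENNReal.ofReal c := mul_one _
      _ ≤ ENNReal.ofReal s := ENNReal.ofReal_le_ofReal h2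

end SBD
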