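import Mathlib

/-!
# MP_15c9d8_al : definitions

`G` is a semisimple Lie group with finite centre, given by `LieData`; `π` is a unitary
representation of `G` on a Hilbert space `H`.
-/

open MeasureTheory Filter Topology
open scoped ENNReal NNReal Matrix

namespace SBD

/-- Real `N × N` matrices. -/
abbrev Mat (N : ℕ) := Matrix (Fin N) (Fin N) ℝ

/-- The Frobenius inner product `tr (Xᵀ Y)` of two real matrices. -/
def fip {N : ℕ} (X Y : Mat N) : ℝ := (Xᵀ * Y).trace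

/-- The square of the Frobenius norm. -/
def fsq {N : ℕ} (X : Mat N) : ℝ := fip X X

/-- A Lie group `G` given through a continuous proper homomorphism `ι` into real matrices
(for a connected semisimple group with finite centre: the adjoint representation, written in an
orthonormal basis of the Lie algebra for the Cartan inner product), its Lie algebra `𝔤`
(a Lie algebra of matrices through the differential of `ι`) and its exponential map `e`. -/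
structure LieData (N : ℕ) (G : Type) [Group G] [TopologicalSpace G] where
  /-- the homomorphism into matrices -/
  ι : G →* Mat N
  ι_cont : Continuous ι
  ι_proper : ∀ S : Set (Mat N), IsCompact S → IsCompact (ι ⁻¹' S)
  /-- the Lie algebra -/
  𝔤 : Submodule ℝ (Mat N)
  bracket_mem : ∀ X ∈ 𝔤, ∀ Y ∈ 𝔤, X * Y - Y * X ∈ 𝔤
  /-- the exponential map (its values outside `𝔤` are irrelevant) -/
  e : Mat N → G
  e_cont : ContinuousOn e 𝔤
  e_add : ∀ X ∈ 𝔤, ∀ s t : ℝ, e ((s + t) • X) = e (s • X) * e (t • X)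
  ι_e : ∀ X ∈ 𝔤, ι (e X) = NormedSpace.exp X
  /-- the exponential map covers a neighbourhood of `1` -/
  e_nhds : ∀ U ∈ 𝓝 (0 : Mat N), e '' (U ∩ 𝔤) ∈ 𝓝 (1 : G)
  /-- the adjoint action -/
  ad_mem : ∀ g : G, ∀ X ∈ 𝔤, ι g * X * ι g⁻¹ ∈ 𝔤
  ad_e : ∀ g : G, ∀ X ∈ 𝔤, e (ι g * X * ι g⁻¹) = g * e X * g⁻¹
  /-- the Cartan involution of the Lie algebra is `X ↦ -Xᵀ` -/
  transpose_mem : ∀ X ∈ 𝔤, Xᵀ ∈ 𝔤
  /-- the Cartan (polar) decomposition `G = K exp 𝔭` -/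
  polar : ∀ g : G, ∃ k : G, ∃ X ∈ 𝔤, Xᵀ = X ∧ ι k * (ι k)ᵀ = 1 ∧ g = k * e X
  /-- no nonzero element of `𝔭` commutes with `𝔨` -/
  ss : ∀ X ∈ 𝔤, Xᵀ = X → X ≠ 0 → ∃ Z ∈ 𝔤, Zᵀ = -Z ∧ X * Z ≠ Z * X

variable {N : ℕ} {G : Type} [Group G] [TopologicalSpace G]

/-- The maximal compact subgroup `K`. -/
def LieData.K (L : LieData N G) : Subgroup G where
  carrier := {g | L.ι g * (L.ι g)ᵀ = 1}
  mul_mem' := by
    intro a b ha hb
    simp only [Set.mem_ofPred_eq] at *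
    rw [map_mul, Matrix.transpose_mul]
    calc L.ι a * L.ι b * ((L.ι b)ᵀ * (L.ι a)ᵀ)
        = L.ι a * (L.ι b * (L.ι b)ᵀ) * (L.ι a)ᵀ := by simp only [Matrix.mul_assoc]
      _ = 1 := by rw [hb, Matrix.mul_one, ha]
  one_mem' := by simp
  inv_mem' := by
    intro a ha
    simp only [Set.mem_ofPred_eq] at *
    have h1 : L.ι a⁻¹ * L.ι a = 1 := by rw [← map_mul]; simp
    have h2 : L.ι a⁻¹ = (L.ι a)ᵀ := by
      calc L.ι a⁻¹ = L.ι a⁻¹ * (L.ι a * (L.ι a)ᵀ) := by rw [ha, Matrix.mul_one]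
        _ = (L.ι a)ᵀ := by rw [← Matrix.mul_assoc, h1, Matrix.one_mul]
    rw [h2, Matrix.transpose_transpose, ← h2, h1]

/-- A unitary representation: strongly continuous, irreducible (no proper closed invariant
subspace) on a nonzero space. -/
structure IsIrr {H : Type} [NormedAddCommGroup H] [InnerProductSpace ℂ H]
    (π : G →* (H ≃ₗᵢ[ℂ] H)) : Prop where
  cont : ∀ v : H, Continuous fun g => π g v
  nontriv : Nontrivial H
  irr : ∀ W : Submodule ℂ H, IsClosed (W : Set H) → (∀ g : G, ∀ v ∈ W, π g v ∈ W) →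
    W = ⊥ ∨ W = ⊤

section rep

variable {H : Type} [NormedAddCommGroup H] [InnerProductSpace ℂ H]

/-- The Harish-Chandra module `V` of `π`: the space of `K`-finite vectors. -/
def KFin (L : LieData N G) (π : G →* (H ≃ₗᵢ[ℂ] H)) : Submodule ℂ H where
  carrier := {v | ∃ W : Submodule ℂ H, FiniteDimensional ℂ W ∧ v ∈ W ∧
    ∀ k ∈ L.K, ∀ x ∈ W, π k x ∈ W}
  add_mem' := by
    rintro a b ⟨W1, h1, ha, hk1⟩ ⟨W2, h2, hb, hk2⟩
    refine ⟨W1 ⊔ W2, inferInstance, Submodule.add_mem_sup ha hb, ?_⟩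
    intro k hk x hx
    obtain ⟨y, hy, z, hz, rfl⟩ := Submodule.mem_sup.1 hx
    rw [map_add]
    exact Submodule.add_mem_sup (hk1 k hk y hy) (hk2 k hk z hz)
  zero_mem' := ⟨⊥, inferInstance, Submodule.zero_mem _, by
    intro k _ x hx
    rw [Submodule.mem_bot] at hx ⊢
    rw [hx, map_zero]⟩
  smul_mem' := by
    rintro c v ⟨W, h, hv, hk⟩
    exact ⟨W, h, W.smul_mem c hv, hk⟩

/-- `Z 0, …, Z (m-1)` is an orthonormal basis of `𝔨 = {X ∈ 𝔤 : Xᵀ = -X}`. -/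
def IsKBasis (L : LieData N G) {m : ℕ} (Z : Fin m → Mat N) : Prop :=
  (∀ j, Z j ∈ L.𝔤 ∧ (Z j)ᵀ = -Z j) ∧
  (∀ i j, fip (Z i) (Z j) = if i = j then 1 else 0) ∧
  ∀ X ∈ L.𝔤, Xᵀ = -X → X = ∑ j, fip (Z j) X • Z j

/-- `u` is an eigenvector of the Casimir operator `-∑ Z_j²` of `K` with eigenvalue `c`. -/
def IsCas (L : LieData N G) (π : G →* (H ≃ₗᵢ[ℂ] H)) (u : H) (c : ℝ) : Prop :=
  ∃ (m : ℕ) (Z : Fin m → Mat N), IsKBasis L Z ∧
    (∀ j, ContDiff ℝ 2 fun t : ℝ => π (L.e (t • Z j)) u) ∧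
    ∑ j, iteratedDeriv 2 (fun t : ℝ => π (L.e (t • Z j)) u) 0 = -((c : ℂ) • u)

/-- `v = D_s u`: the operator `D_s` acts on the `K`-finite Casimir eigenvectors with
eigenvalue `c` by `(1 + c)^(s/2)`. -/
def Sob (L : LieData N G) (π : G →* (H ≃ₗᵢ[ℂ] H)) (s : ℝ) (u v : H) : Prop :=
  ∃ (n : ℕ) (x : Fin n → H) (c : Fin n → ℝ),
    (∀ i, x i ∈ KFin L π ∧ 0 ≤ c i ∧ IsCas L π (x i) (c i)) ∧
    u = ∑ i, x i ∧ v = ∑ i, (((1 + c i) ^ (s / 2) : ℝ) : ℂ) • x i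

/-- Admissibility: for every `R` the `K`-finite Casimir eigenvectors with eigenvalue at most `R`
lie in a finite-dimensional space. -/
def Adm (L : LieData N G) (π : G →* (H ≃ₗᵢ[ℂ] H)) : Prop :=
  ∀ R : ℝ, ∃ W : Submodule ℂ H, FiniteDimensional ℂ W ∧
    ∀ u ∈ KFin L π, ∀ c ≤ R, IsCas L π u c → u ∈ W

/-- The matrix coefficient `g ↦ ⟨w, π(g) v⟩`. -/
noncomputable def mc (π : G →* (H ≃ₗᵢ[ℂ] H)) (w v : H) : G → ℂ :=
  fun g => inner ℂ w (π g v)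

/-- `π` is tempered: all `K`-finite matrix coefficients are in `L^r` for every `r > 2`. -/
def Tempered [MeasurableSpace G] (L : LieData N G) (π : G →* (H ≃ₗᵢ[ℂ] H)) (μ : Measure G) :
    Prop :=
  ∀ w ∈ KFin L π, ∀ v ∈ KFin L π, ∀ r : ℝ≥0∞, 2 < r → MemLp (mc π w v) r μ

/-- The norm `p^r(v) = ‖⟨w, π(·) v⟩‖_{L^r(G)}`. -/
noncomputable def pr [MeasurableSpace G] (π : G →* (H ≃ₗᵢ[ℂ] H)) (μ : Measure G) (w : H)
    (r : ℝ≥0∞) (v : H) : ℝ≥0∞ := eLpNorm (mc π w v) r μ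

/-- `d_→([p],[q]) = inf {s ≥ 0 : p ≲ q_s}`, `q_s(v) = q(D_s v)`. -/
noncomputable def dTo (L : LieData N G) (π : G →* (H ≃ₗᵢ[ℂ] H)) (p q : H → ℝ≥0∞) : ℝ≥0∞ :=
  sInf {t : ℝ≥0∞ | ∃ s : ℝ, 0 ≤ s ∧ t = ENNReal.ofReal s ∧
    ∃ C : ℝ≥0, ∀ u v : H, u ∈ KFin L π → Sob L π s u v → p u ≤ C * q v}

/-- `d([p],[q])`. -/
noncomputable def dist (L : LieData N G) (π : G →* (H ≃ₗᵢ[ℂ] H)) (p q : H → ℝ≥0∞) : ℝ≥0∞ :=
  max (dTo L π p q) (dTo L π q p)

/-- The unitary norm. -/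
noncomputable def qn (v : H) : ℝ≥0∞ := ‖v‖ₑ

end rep

end SBD
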