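import Pool.Agent.SBD.P10

/-!
# Row SBD-P11 : `D([X,Y]) = D(X)D(Y) - D(Y)D(X)`

PROOF.  For `u, v ∈ V` and `s : ℝ`, P10 `dif_weak` with `g = e(sX)`:
  `⟨u, π(e(sX)) D(Y)v⟩ = -⟨D(Ad(e(sX))Y)u, π(e(sX))v⟩`, `Ad(e(sX))Y = exp(sX) Y exp(-sX)`
(`ι(e(sX)) = exp(sX)`, `ι((e(sX))⁻¹) = ι(e(-sX)) = exp(-sX)`).
Differentiate at `s = 0`.  Left: `⟨u, D(X)(D(Y)v)⟩` (`Dif` for `D(Y)v ∈ V`).  Right: the map
`s ↦ exp(sX)Y exp(-sX) ∈ Mat N` has derivative `XY - YX` at `0` (a normed algebra structure on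
`Matrix`, `hasDerivAt_exp_smul_const`…), `Y' ↦ D(Y')u` is linear on the finite-dimensional space
`Mat N` so differentiable (into `H`, or into the finite-dimensional range), and the pairing is
bilinear continuous: derivative `-⟨D(XY-YX)u, v⟩ - ⟨D(Y)u, D(X)v⟩`.  By skewness (P10; `XY - YX ∈ 𝔤`)
this is `⟨u, D(XY-YX)v⟩ + ⟨u, D(Y)D(X)v⟩`.  So `D(X)D(Y)v - D(Y)D(X)v - D(XY-YX)v ∈ V` is orthogonal to
all `u ∈ V`, hence `0`.
-/

open MeasureTheory Filter Topology
open scoped ENNReal NNReal Matrix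

noncomputable section

namespace SBD

variable {N : ℕ} {G : Type} [Group G] [TopologicalSpace G] [IsTopologicalGroup G]
  [LocallyCompactSpace G] [T2Space G]
variable {H : Type} [NormedAddCommGroup H] [InnerProductSpace ℂ H] [CompleteSpace H]

section

attribute [local instance] Matrix.linftyOpNormedRing Matrix.linftyOpNormedAlgebra

/-- the derivative of `exp(sX) Y exp(-sX)` -/
private theorem p11_deriv {H' : Type} [NormedAddCommGroup H'] [NormedSpace ℝ H'] (X Y : Mat N)
    (F : Mat N →ₗ[ℝ] H') :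
    HasDerivAt (fun s : ℝ => F (NormedSpace.exp (s • X) * Y * NormedSpace.exp (s • (-X))))
      (F (X * Y - Y * X)) 0 := by
  have h1 : HasDerivAt (fun s : ℝ => NormedSpace.exp (s • X)) X 0 := by
    have h := hasDerivAt_exp_smul_const (𝕂 := ℝ) X (0 : ℝ)
    rw [zero_smul, NormedSpace.exp_zero, one_mul] at h
    exact h
  have h2 : HasDerivAt (fun s : ℝ => NormedSpace.exp (s • (-X))) (-X) 0 := by
    have h := hasDerivAt_exp_smul_const (𝕂 := ℝ) (-X) (0 : ℝ)
    rw [zero_smul, NormedSpace.exp_zero, one_mul] at h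
    exact h
  have h3 := (h1.mul_const Y).mul h2
  have h4 : X * Y * NormedSpace.exp ((0 : ℝ) • (-X)) +
      NormedSpace.exp ((0 : ℝ) • X) * Y * (-X) = X * Y - Y * X := by
    simp only [zero_smul, NormedSpace.exp_zero, mul_one, one_mul, mul_neg]
    abel
  rw [h4] at h3
  exact (LinearMap.toContinuousLinearMap F).hasFDerivAt.comp_hasDerivAt (0 : ℝ) h3

end

theorem dif_bracket (L : LieData N G) (π : G →* (H ≃ₗᵢ[ℂ] H))
    (D : Mat N →ₗ[ℝ] (KFin L π →ₗ[ℂ] KFin L π)) (hD : Dif L π D) {X Y : Mat N} (hX : X ∈ L.𝔤)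
    (hY : Y ∈ L.𝔤) (v : KFin L π) : D (X * Y - Y * X) v = D X (D Y v) - D Y (D X v) := by
  have hXY : X * Y - Y * X ∈ L.𝔤 := L.bracket_mem X hX Y hY
  have key : ∀ u : KFin L π, inner ℂ u (D X (D Y v)) =
      inner ℂ u (D Y (D X v)) + inner ℂ u (D (X * Y - Y * X) v) := by
    intro u
    let F : Mat N →ₗ[ℝ] H :=
      { toFun := fun Y' => ((D Y' u : KFin L π) : H)
        map_add' := fun a b => by simp
        map_smul' := fun c a => by simp }
    have hd1 : HasDerivAt (fun s : ℝ => inner ℂ (u : H)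
        (π (L.e (s • X)) ((D Y v : KFin L π) : H)))
        (inner ℂ (u : H) ((D X (D Y v) : KFin L π) : H)) 0 := by
      have h1 := (hasDerivAt_const (0 : ℝ) (u : H)).inner ℂ (hD X hX (D Y v))
      simpa using h1
    have hd2 : HasDerivAt (fun s : ℝ => - inner ℂ
        (F (NormedSpace.exp (s • X) * Y * NormedSpace.exp (s • (-X)))) (π (L.e (s • X)) (v : H)))
        (- (inner ℂ ((D Y u : KFin L π) : H) ((D X v : KFin L π) : H) +
          inner ℂ ((D (X * Y - Y * X) u : KFin L π) : H) (v : H))) 0 := by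
      have h1 := ((p11_deriv X Y F).inner ℂ (hD X hX v)).neg
      have h2 : NormedSpace.exp ((0 : ℝ) • X) * Y * NormedSpace.exp ((0 : ℝ) • (-X)) = Y := by
        simp
      have h3 : (π (L.e ((0 : ℝ) • X)) (v : H)) = v := by
        rw [zero_smul, e_zero, map_one]
        rfl
      rw [h2, h3] at h1
      exact h1
    have heq : (fun s : ℝ => inner ℂ (u : H) (π (L.e (s • X)) ((D Y v : KFin L π) : H))) =
        fun s : ℝ => - inner ℂ
        (F (NormedSpace.exp (s • X) * Y * NormedSpace.exp (s • (-X))))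
          (π (L.e (s • X)) (v : H)) := by
      funext s
      rw [dif_weak L π D hD hY u v (L.e (s • X))]
      have h1 : L.ι (L.e (s • X)) = NormedSpace.exp (s • X) := L.ι_e _ (L.𝔤.smul_mem s hX)
      have h2 : L.ι (L.e (s • X))⁻¹ = NormedSpace.exp (s • (-X)) := by
        rw [← e_neg L (L.𝔤.smul_mem s hX), ← smul_neg]
        exact L.ι_e _ (L.𝔤.smul_mem s (L.𝔤.neg_mem hX))
      rw [h1, h2]
      rfl
    rw [heq] at hd1
    have h1 := hd1.unique hd2
    have h2 := dif_skew L π D hD hY u (D X v)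
    have h3 := dif_skew L π D hD hXY u v
    rw [Submodule.coe_inner, Submodule.coe_inner] at h2 h3
    rw [Submodule.coe_inner, Submodule.coe_inner, Submodule.coe_inner, h1, h2, h3]
    ring
  have h0 : ∀ u : KFin L π, inner ℂ u (D X (D Y v) - D Y (D X v) - D (X * Y - Y * X) v) = 0 := by
    intro u
    rw [inner_sub_right, inner_sub_right, key u]
    ring
  have h1 := inner_self_eq_zero.1 (h0 _)
  exact (sub_eq_zero.1 h1).symm

end SBD
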