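import Pool.Agent.SBD.P09
import Pool.Agent.SBD.P11

/-!
# Row SBD-P13 : the `LieRep` of `π`; Casimir eigenvectors = eigenvectors of `Δ`

* `exists_rep` : P01 (`exists_bases`), P09 (`exists_D`), P10 (`dif_skew`), P11 (`dif_bracket`),
  `L.bracket_mem`.  (The measure `μ` is only used for P09.)
* `cas_iff` : let `u ∈ V`.  By `dif_line` (P10), `t ↦ π(e(tZ))u` has derivative `π(e(tZ))D(Z)u`, so it
  is `C²` with second derivative `D(Z)²u` at `0`, for every `Z ∈ 𝔤`.  So `IsCas L π u c` says: for some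
  `Z'` with `IsKBasis L Z'`, `∑_j D(Z'_j)²u = -c u`.  And `u ∈ A.eig (1+c)` says
  `u - ∑_i D(A.Z i)²u = (1+c)u`.  `A.Z` satisfies `IsKBasis L` (from `A.basis`, `A.g_eq`).  Basis
  independence: `Z'_j = ∑_i fip(Z_i,Z'_j) Z_i` and `∑_j fip(Z_i,Z'_j) fip(Z_k,Z'_j) = δ_{ik}`
  (Parseval for the orthonormal basis `Z'`), so `∑_j D(Z'_j)² = ∑_i D(Z_i)²`.
* `kinv` : for `k ∈ K`: `π(k)D(Z_i)²u = D(kZ_i)²π(k)u` (`dif_K`), `kZ_i := ι(k)Z_iι(k⁻¹)` is again an
  orthonormal basis of `𝔨` (P01 `fip_ad_K`, `ad_K_t`, `L.ad_mem`), so by basis independence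
  `Δπ(k)u = π(k)Δu`.
* `low_fin` : the eigenvectors of `Δ` with eigenvalue `lam ≤ R` are `K`-finite Casimir eigenvectors
  with eigenvalue `lam - 1 ≤ R`, so lie in the finite-dimensional `W` of `Adm`; so `A.low R` maps
  injectively into `W`.
* `eig_top` : P07: every `u ∈ V` is a sum of Casimir eigenvectors in `V`.
-/

open MeasureTheory Filter Topology
open scoped ENNReal NNReal Matrix

noncomputable section

namespace SBD

variable {N : ℕ} {G : Type} [Group G] [TopologicalSpace G] [IsTopologicalGroup G]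
  [LocallyCompactSpace G] [T2Space G]
variable [SecondCountableTopology G] [MeasurableSpace G] [BorelSpace G]
variable {H : Type} [NormedAddCommGroup H] [InnerProductSpace ℂ H] [CompleteSpace H]

variable (L : LieData N G) (π : G →* (H ≃ₗᵢ[ℂ] H))

omit [IsTopologicalGroup G] [LocallyCompactSpace G] [T2Space G] [SecondCountableTopology G]
  [MeasurableSpace G] [BorelSpace G] [TopologicalSpace G] [Group G] in
private theorem p13_comm (X Y : Mat N) : fip X Y = fip Y X := by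
  unfold fip
  rw [← Matrix.trace_transpose, Matrix.transpose_mul, Matrix.transpose_transpose]

omit [IsTopologicalGroup G] [LocallyCompactSpace G] [T2Space G] [SecondCountableTopology G]
  [MeasurableSpace G] [BorelSpace G] [TopologicalSpace G] [Group G] in
private theorem p13_sk {X Y : Mat N} (hX : Xᵀ = X) (hY : Yᵀ = -Y) : fip X Y = 0 := by
  have h1 : fip X Y = -fip X Y := by
    conv_lhs => rw [p13_comm]
    unfold fip
    rw [hX, hY, Matrix.neg_mul, Matrix.trace_neg, Matrix.trace_mul_comm]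
  linarith

private theorem p13_indep {V : Type} [NormedAddCommGroup V] [InnerProductSpace ℂ V]
    (D : Mat N →ₗ[ℝ] (V →ₗ[ℂ] V)) {m m' : ℕ} {Z : Fin m → Mat N} {Z' : Fin m' → Mat N}
    (h : IsKBasis L Z) (h' : IsKBasis L Z') (u : V) :
    ∑ j, D (Z' j) (D (Z' j) u) = ∑ i, D (Z i) (D (Z i) u) := by
  have h1 : ∀ j, D (Z' j) (D (Z' j) u) = ∑ i, D (Z i) (D (fip (Z' j) (Z i) • Z' j) u) := by
    intro j
    have h2 := h.2.2 (Z' j) (h'.1 j).1 (h'.1 j).2
    have h3 : ∀ w, D (Z' j) w = ∑ i, fip (Z i) (Z' j) • D (Z i) w := by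
      intro w
      conv_lhs => rw [h2]
      rw [map_sum, LinearMap.sum_apply]
      exact Finset.sum_congr rfl fun i _ => by rw [map_smul, LinearMap.smul_apply]
    rw [h3]
    refine Finset.sum_congr rfl fun i _ => ?_
    rw [map_smul, LinearMap.smul_apply, LinearMap.map_smul_of_tower, p13_comm]
  rw [Finset.sum_congr rfl fun j _ => h1 j, Finset.sum_comm]
  refine Finset.sum_congr rfl fun i _ => ?_
  rw [← map_sum (D (Z i)), ← LinearMap.sum_apply, ← map_sum D,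
    ← h'.2.2 (Z i) (h.1 i).1 (h.1 i).2]

private theorem p13_bas {V : Type} [NormedAddCommGroup V] [InnerProductSpace ℂ V]
    (A : LieRep N V) (hg : A.𝔤 = L.𝔤) : IsKBasis L A.Z := by
  refine ⟨fun j => ⟨hg ▸ A.Z_mem j, A.Z_t j⟩, A.Z_o, fun X hX ht => ?_⟩
  have h1 := A.basis X (hg.symm ▸ hX)
  have h2 : ∑ i, fip (A.P i) X • A.P i = 0 :=
    Finset.sum_eq_zero fun i _ => by rw [p13_sk (A.P_t i) ht, zero_smul]
  rw [h2, add_zero] at h1
  exact h1

theorem exists_rep (hc : ∀ v : H, Continuous fun g => π g v) (hadm : Adm L π) (μ : Measure G)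
    [μ.IsHaarMeasure] [μ.IsMulRightInvariant] :
    ∃ A : LieRep N (KFin L π), A.𝔤 = L.𝔤 ∧ Dif L π A.D := by
  obtain ⟨m, n, Z, P, hZ, hP, hPo, hb⟩ := exists_bases L
  obtain ⟨D, hD⟩ := exists_D L π hc hadm μ
  exact ⟨{
    𝔤 := L.𝔤
    br := L.bracket_mem
    m := m
    n := n
    Z := Z
    P := P
    Z_mem := fun i => (hZ.1 i).1
    P_mem := fun i => (hP i).1
    Z_t := fun i => (hZ.1 i).2
    P_t := fun i => (hP i).2
    Z_o := hZ.2.1
    P_o := hPo
    basis := hb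
    D := D
    skew := fun X hX u v => dif_skew L π D hD hX u v
    brD := fun X hX Y hY v => dif_bracket L π D hD hX hY v }, rfl, hD⟩

private theorem p13_line (D : Mat N →ₗ[ℝ] (KFin L π →ₗ[ℂ] KFin L π)) (hD : Dif L π D)
    {Z : Mat N} (hZ : Z ∈ L.𝔤) (u : KFin L π) :
    (ContDiff ℝ 2 fun t : ℝ => π (L.e (t • Z)) (u : H)) ∧
      iteratedDeriv 2 (fun t : ℝ => π (L.e (t • Z)) (u : H)) 0 =
        ((D Z (D Z u) : KFin L π) : H) := by
  have hd : ∀ v : KFin L π, deriv (fun s : ℝ => π (L.e (s • Z)) (v : H)) =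
      fun t => π (L.e (t • Z)) ((D Z v : KFin L π) : H) :=
    fun v => funext fun t => (dif_line L π D hD hZ v t).deriv
  have hdf : ∀ v : KFin L π, Differentiable ℝ (fun s : ℝ => π (L.e (s • Z)) (v : H)) :=
    fun v t => (dif_line L π D hD hZ v t).differentiableAt
  constructor
  · rw [show (2 : WithTop ℕ∞) = 1 + 1 by norm_num, contDiff_succ_iff_deriv]
    refine ⟨hdf u, by simp, ?_⟩
    rw [hd u, contDiff_one_iff_deriv]
    refine ⟨hdf (D Z u), ?_⟩
    rw [hd]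
    exact (hdf _).continuous
  · rw [iteratedDeriv_succ, iteratedDeriv_one, hd u, hd (D Z u)]
    show π (L.e ((0 : ℝ) • Z)) ((D Z (D Z u) : KFin L π) : H) = _
    rw [zero_smul, e_zero, map_one]
    rfl

variable (A : LieRep N (KFin L π)) (hg : A.𝔤 = L.𝔤) (hD : Dif L π A.D)

include hg hD

theorem cas_iff (u : KFin L π) (c : ℝ) : IsCas L π (u : H) c ↔ u ∈ A.eig (1 + c) := by
  have hbas : IsKBasis L A.Z := p13_bas L A hg
  have hDel : A.Del u = u - ∑ i, A.D (A.Z i) (A.D (A.Z i) u) := by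
    unfold LieRep.Del
    rw [LinearMap.sub_apply, LinearMap.id_apply, LinearMap.sum_apply]
    rfl
  have h1 : ∀ {m : ℕ} (Z : Fin m → Mat N), IsKBasis L Z →
      (∑ j, iteratedDeriv 2 (fun t : ℝ => π (L.e (t • Z j)) (u : H)) 0 = -((c : ℂ) • (u : H)) ↔
        u ∈ A.eig (1 + c)) := by
    intro m Z hZ
    rw [Finset.sum_congr rfl fun j _ => (p13_line L π A.D hD (hZ.1 j).1 u).2]
    have h2 : ∑ j, ((A.D (Z j) (A.D (Z j) u) : KFin L π) : H) =
        ((∑ i, A.D (A.Z i) (A.D (A.Z i) u) : KFin L π) : H) := by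
      rw [← p13_indep L A.D hbas hZ u, Submodule.coe_sum]
    rw [h2]
    have h3 : (((∑ i, A.D (A.Z i) (A.D (A.Z i) u) : KFin L π) : H) = -((c : ℂ) • (u : H))) ↔
        (∑ i, A.D (A.Z i) (A.D (A.Z i) u)) = -((c : ℂ) • u) := by
      rw [Subtype.ext_iff]
      rfl
    rw [h3]
    show _ ↔ A.Del u = ((1 + c : ℝ) : ℂ) • u
    rw [hDel]
    push_cast
    rw [add_smul, one_smul]
    constructor
    · intro h
      rw [h, sub_neg_eq_add]
    · intro h
      have h4 : ∑ i, A.D (A.Z i) (A.D (A.Z i) u) =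
          u - (u - ∑ i, A.D (A.Z i) (A.D (A.Z i) u)) := by abel
      rw [h4, h]
      abel
  exact ⟨fun ⟨m, Z, hZ, _, h⟩ => (h1 Z hZ).1 h,
    fun h => ⟨A.m, A.Z, hbas, fun j => (p13_line L π A.D hD (hbas.1 j).1 u).1,
      (h1 A.Z hbas).2 h⟩⟩

theorem eig_K (k : G) (hk : k ∈ L.K) (lam : ℝ) (u : KFin L π) (hu : u ∈ A.eig lam) :
    ∃ u' ∈ A.eig lam, ((u' : KFin L π) : H) = π k (u : H) := by
  have hbas : IsKBasis L A.Z := p13_bas L A hg
  have hinv : L.ι k⁻¹ * L.ι k = 1 := by rw [← map_mul, inv_mul_cancel, map_one]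
  have hinv' : L.ι k * L.ι k⁻¹ = 1 := by rw [← map_mul, mul_inv_cancel, map_one]
  have hbas' : IsKBasis L (fun i => L.ι k * A.Z i * L.ι k⁻¹) := by
    refine ⟨fun j => ⟨L.ad_mem k _ (hbas.1 j).1, ?_⟩, fun i j => ?_, fun X hX ht => ?_⟩
    · show (L.ι k * A.Z j * L.ι k⁻¹)ᵀ = -(L.ι k * A.Z j * L.ι k⁻¹)
      rw [ad_K_t L hk, (hbas.1 j).2, Matrix.mul_neg, Matrix.neg_mul]
    · show fip (L.ι k * A.Z i * L.ι k⁻¹) (L.ι k * A.Z j * L.ι k⁻¹) = _
      rw [fip_ad_K L hk]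
      exact hbas.2.1 i j
    · have hY : L.ι k⁻¹ * X * L.ι k ∈ L.𝔤 := by
        have := L.ad_mem k⁻¹ X hX
        rwa [inv_inv] at this
      have hYt : (L.ι k⁻¹ * X * L.ι k)ᵀ = -(L.ι k⁻¹ * X * L.ι k) := by
        have := ad_K_t L (L.K.inv_mem hk) X
        rw [inv_inv] at this
        rw [this, ht, Matrix.mul_neg, Matrix.neg_mul]
      have hX' : X = L.ι k * (L.ι k⁻¹ * X * L.ι k) * L.ι k⁻¹ := by
        calc X = (L.ι k * L.ι k⁻¹) * X * (L.ι k * L.ι k⁻¹) := by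
              rw [hinv', Matrix.one_mul, Matrix.mul_one]
          _ = _ := by simp only [Matrix.mul_assoc]
      have h3 := hbas.2.2 _ hY hYt
      have h4 : ∀ j, fip (L.ι k * A.Z j * L.ι k⁻¹) X = fip (A.Z j) (L.ι k⁻¹ * X * L.ι k) := by
        intro j
        conv_lhs => rw [hX']
        rw [fip_ad_K L hk]
      calc X = L.ι k * (L.ι k⁻¹ * X * L.ι k) * L.ι k⁻¹ := hX'
        _ = L.ι k * (∑ j, fip (A.Z j) (L.ι k⁻¹ * X * L.ι k) • A.Z j) * L.ι k⁻¹ := by
            rw [← h3]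
        _ = ∑ j, fip (L.ι k * A.Z j * L.ι k⁻¹) X • (L.ι k * A.Z j * L.ι k⁻¹) := by
            rw [Matrix.mul_sum, Matrix.sum_mul]
            refine Finset.sum_congr rfl fun j _ => ?_
            rw [h4, Matrix.mul_smul, Matrix.smul_mul]
  have hDel : ∀ v : KFin L π, A.Del v = v - ∑ i, A.D (A.Z i) (A.D (A.Z i) v) := by
    intro v
    unfold LieRep.Del
    rw [LinearMap.sub_apply, LinearMap.id_apply, LinearMap.sum_apply]
    rfl
  refine ⟨⟨π k (u : H), kfin_K L π hk u.2⟩, ?_, rfl⟩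
  show A.Del _ = (lam : ℂ) • _
  have hu' : A.Del u = (lam : ℂ) • u := hu
  rw [hDel, ← p13_indep L A.D hbas hbas']
  have h5 : ∀ i, A.D (L.ι k * A.Z i * L.ι k⁻¹) (A.D (L.ι k * A.Z i * L.ι k⁻¹)
      (⟨π k (u : H), kfin_K L π hk u.2⟩ : KFin L π)) =
      ⟨π k ((A.D (A.Z i) (A.D (A.Z i) u) : KFin L π) : H), kfin_K L π hk (SetLike.coe_mem _)⟩ := by
    intro i
    have h6 := dif_K L π A.D hD (hbas.1 i).1 hk u
    have h7 := dif_K L π A.D hD (hbas.1 i).1 hk (A.D (A.Z i) u)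
    refine Subtype.ext ?_
    show _ = π k ((A.D (A.Z i) (A.D (A.Z i) u) : KFin L π) : H)
    rw [h7]
    congr 3
    exact Subtype.ext h6.symm
  rw [Finset.sum_congr rfl fun i _ => h5 i]
  refine Subtype.ext ?_
  show π k (u : H) - ((∑ i, (⟨π k ((A.D (A.Z i) (A.D (A.Z i) u) : KFin L π) : H),
    kfin_K L π hk (SetLike.coe_mem _)⟩ : KFin L π) : KFin L π) : H) = (lam : ℂ) • π k (u : H)
  rw [Submodule.coe_sum, ← map_smul]
  show π k (u : H) - ∑ i, π k ((A.D (A.Z i) (A.D (A.Z i) u) : KFin L π) : H) = _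
  rw [← map_sum, ← map_sub]
  congr 1
  rw [hDel] at hu'
  have h8 := congrArg (fun z : KFin L π => (z : H)) hu'
  simp only [Submodule.coe_sub, Submodule.coe_sum, Submodule.coe_smul] at h8
  exact h8

theorem low_fin (hadm : Adm L π) (R : ℝ) : FiniteDimensional ℂ (A.low R) := by
  obtain ⟨W, hW, h⟩ := hadm R
  have h1 : A.low R ≤ W.comap (KFin L π).subtype := by
    refine iSup_le fun lam v hv => ?_
    rw [Submodule.mem_comap]
    refine h _ v.2 (lam.1 - 1) (by linarith [lam.2]) ?_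
    rw [Submodule.subtype_apply, cas_iff L π A hg hD]
    rw [show (1 : ℝ) + (lam.1 - 1) = lam.1 by ring]
    exact hv
  let f : A.low R →ₗ[ℂ] W :=
    LinearMap.codRestrict W ((KFin L π).subtype ∘ₗ (A.low R).subtype) (fun v => h1 v.2)
  have hf : Function.Injective f := by
    intro a b hab
    have h2 := congrArg (fun z : W => (z : H)) hab
    exact Subtype.ext (Subtype.ext h2)
  exact FiniteDimensional.of_injective f hf

theorem eig_top (hc : ∀ v : H, Continuous fun g => π g v) : ⨆ lam : ℝ, A.eig lam = ⊤ := by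
  rw [eq_top_iff]
  intro u _
  obtain ⟨W, hW, hu, hK⟩ := u.2
  obtain ⟨n, x, c, hx, hsum⟩ := diag_K L π hc W hK (u : H) hu
  have hxV : ∀ i, x i ∈ KFin L π := fun i => ⟨W, hW, (hx i).1, hK⟩
  have h1 : u = ∑ i, (⟨x i, hxV i⟩ : KFin L π) := by
    refine Subtype.ext ?_
    rw [Submodule.coe_sum]
    exact hsum
  rw [h1]
  refine Submodule.sum_mem _ fun i _ => ?_
  have h2 : (⟨x i, hxV i⟩ : KFin L π) ∈ A.eig (1 + c i) :=
    (cas_iff L π A hg hD ⟨x i, hxV i⟩ (c i)).1 (hx i).2.2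
  exact Submodule.mem_iSup_of_mem (1 + c i) h2

end SBD
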