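import Pool.Agent.SBD.P12
import Pool.Agent.SBD.P13

/-!
# Row SBD-P14 : the package exists

Combine P13 (`exists_rep`, `cas_iff`, `eig_K`, `low_fin`, `eig_top`), P12 (`trace_scalar`), P10
(`dif_line`, `dif_weak`) and P08 (`exists_smooth`).
-/

open MeasureTheory Filter Topology
open scoped ENNReal NNReal Matrix

noncomputable section

namespace SBD

variable {N : ℕ} {G : Type} [Group G] [TopologicalSpace G] [IsTopologicalGroup G]
  [LocallyCompactSpace G] [T2Space G]
variable [SecondCountableTopology G] [MeasurableSpace G] [BorelSpace G]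
variable {H : Type} [NormedAddCommGroup H] [InnerProductSpace ℂ H] [CompleteSpace H]

theorem exists_pkg (L : LieData N G) (π : G →* (H ≃ₗᵢ[ℂ] H)) (hirr : IsIrr π)
    (hadm : Adm L π) (μ : Measure G) [μ.IsHaarMeasure] [μ.IsMulRightInvariant] :
    ∃ A : LieRep N (KFin L π), IsPkg L π A := by
  obtain ⟨A, hg, hD⟩ := exists_rep L π hirr.cont hadm μ
  have hfin : ∀ R, FiniteDimensional ℂ (A.low R) := low_fin L π A hg hD hadm
  have htop : ⨆ lam : ℝ, A.eig lam = ⊤ := eig_top L π A hg hD hirr.cont
  refine ⟨A, ?_⟩
  exact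
    { cont := hirr.cont
      irr := hirr.irr
      g_eq := hg
      dif := hD
      adm := ⟨hfin, htop, fun j hj => trace_scalar L π hirr A hg hD hfin htop j hj⟩
      cas := cas_iff L π A hg hD
      kinv := fun k hk lam u hu => eig_K L π A hg hD k hk lam u hu
      line := fun X hX u t => dif_line L π A.D hD hX u t
      weak := fun X hX u v g => dif_weak L π A.D hD hX u v g
      smooth := by
        intro _ _ _ _ _ _ ν _ _ u hu O hO
        exact exists_smooth L π hirr.cont hadm ν u hu O hO }

end SBD
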