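import Pool.Agent.SBD.M08
import Pool.Agent.SBD.C08
import Pool.Agent.SBD.C13
import Pool.Agent.SBD.P14

/-!
# Row SBD-FIN : the theorem
-/

open MeasureTheory Filter Topology
open scoped ENNReal NNReal Matrix

noncomputable section

namespace SBD

variable {N : ℕ} {G : Type} [Group G] [TopologicalSpace G] [IsTopologicalGroup G]
  [LocallyCompactSpace G] [T2Space G]
variable [SecondCountableTopology G] [MeasurableSpace G] [BorelSpace G]
variable {H : Type} [NormedAddCommGroup H] [InnerProductSpace ℂ H] [CompleteSpace H]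

theorem main (L : LieData N G) (μ : Measure G) [μ.IsHaarMeasure] [μ.IsMulRightInvariant]
    (π : G →* (H ≃ₗᵢ[ℂ] H)) (hirr : IsIrr π) (hadm : Adm L π) (ht : Tempered L π μ)
    (hinf : ¬ FiniteDimensional ℂ H) :
    (∀ u ∈ KFin L π, ∀ s : ℝ, ∃! v : H, Sob L π s u v) ∧
    ∃ c C : ℝ, 0 < c ∧ c ≤ C ∧ ∀ r : ℝ≥0∞, 2 < r → ∀ w ∈ KFin L π, w ≠ 0 →
      ENNReal.ofReal c * (1 - 2 / r) ≤ dist L π (pr π μ w r) qn ∧
      dist L π (pr π μ w r) qn ≤ ENNReal.ofReal C * (1 - 2 / r) := by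
  obtain ⟨A, hP⟩ := exists_pkg L π hirr hadm μ
  refine ⟨fun u hu s => sob_exists_unique L π A hP s u hu, ?_⟩
  by_cases hV : ∃ u ∈ KFin L π, u ≠ 0
  · have hk := exists_Z L π A hP hinf hV
    obtain ⟨C, hC, hup⟩ := upper L π A hP μ ht
    obtain ⟨c, hc, hlo⟩ := lower L π A hP hinf hV μ ht
    refine ⟨c, max c C, hc, le_max_left _ _, fun r hr w hw hw0 => ⟨?_, ?_⟩⟩
    · exact (hlo r hr w hw hw0).trans (le_max_right _ _)
    · refine max_le ?_ ?_
      · rw [dTo_zero L π A hP μ ht hk w hw r hr]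
        exact bot_le
      · refine (hup r hr w hw hw0).trans ?_
        gcongr
        exact le_max_right _ _
  · exact ⟨1, 1, one_pos, le_rfl, fun r _ w hw hw0 => absurd ⟨w, hw, hw0⟩ hV⟩

end SBD
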