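import Pool.Agent.SBD.A02

/-!
# Definitions for the admissibility block: the filtration of a generated module, ordered symbols,
the Fock space
-/

open scoped Matrix

noncomputable section

namespace SBD

namespace LieRep

variable {N : ℕ} {V : Type} [NormedAddCommGroup V] [InnerProductSpace ℂ V] (A : LieRep N V)

/-- `Fil W m` is the span of the words of length at most `m` in the `D(P_b)` applied to `W`. -/
def Fil (W : Submodule ℂ V) : ℕ → Submodule ℂ V
  | 0 => W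
  | m + 1 => Fil W m ⊔ ⨆ b, (Fil W m).map (A.D (A.P b))

/-- Ordered quantisation: `x^α ↦ D(P_0)^(α_0) D(P_1)^(α_1) ⋯`. -/
def ord : MvPolynomial (Fin A.n) ℂ →ₗ[ℂ] Module.End ℂ V :=
  (MvPolynomial.basisMonomials (Fin A.n) ℂ).constr ℂ
    fun α => (List.ofFn fun b => (A.D (A.P b) : Module.End ℂ V) ^ α b).prod

/-- The generic element `∑ P_b x_b` of `𝔭`. -/
def PX : Matrix (Fin N) (Fin N) (MvPolynomial (Fin A.n) ℂ) :=
  fun i k => ∑ b, MvPolynomial.C ((A.P b i k : ℝ) : ℂ) * MvPolynomial.X b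

/-- The derivation of the polynomial ring given by `ad Z_i` on `𝔭`. -/
def rho (i : Fin A.m) : Derivation ℂ (MvPolynomial (Fin A.n) ℂ) (MvPolynomial (Fin A.n) ℂ) :=
  MvPolynomial.mkDerivation ℂ fun b =>
    ∑ c, MvPolynomial.C ((fip (A.P c) (A.Z i * A.P b - A.P b * A.Z i) : ℝ) : ℂ) *
      MvPolynomial.X c

end LieRep

/-- Creation operators `c b` and annihilation operators `a b`, `b < n`, on a pre-Hilbert space. -/
structure Fock (n : ℕ) (E : Type) [NormedAddCommGroup E] [InnerProductSpace ℂ E] where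
  a : Fin n → E →ₗ[ℂ] E
  c : Fin n → E →ₗ[ℂ] E
  adj : ∀ b (u v : E), inner ℂ (c b u) v = inner ℂ u (a b v)
  ccr : ∀ b b' (v : E), a b (c b' v) - c b' (a b v) = if b = b' then v else 0
  aa : ∀ b b' (v : E), a b (a b' v) = a b' (a b v)

namespace Fock

variable {n N : ℕ} {E : Type} [NormedAddCommGroup E] [InnerProductSpace ℂ E] (F : Fock n E)

/-- The number operator. -/
def num : E →ₗ[ℂ] E := ∑ b, F.c b ∘ₗ F.a b

/-- The matrix `∑ P_b ⊗ a_b`. -/
def pm (P : Fin n → Mat N) : Matrix (Fin N) (Fin N) (Module.End ℂ E) :=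
  fun i k => ∑ b, ((P b i k : ℝ) : ℂ) • (F.a b : Module.End ℂ E)

/-- `ρ(Y) = ∑ fip (P_c) [Y, P_b] c_c a_b`. -/
def rho (P : Fin n → Mat N) (Y : Mat N) : E →ₗ[ℂ] E :=
  ∑ b, ∑ c, ((fip (P c) (Y * P b - P b * Y) : ℝ) : ℂ) • (F.c c ∘ₗ F.a b)

end Fock

end SBD
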