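import Pool.Agent.SBD.M02

/-!
# Row SBD-M03 : volume growth; `∫ Θ^{-a} < ∞`

* `volume_Th` : Let `x ≥ 1`, `S = {g | Θ(g) ≤ x}`.  On `S`, `fsq(ι g) ≤ x`, `fsq(ι g⁻¹) ≤ x`.
  `Q := ι⁻¹{M | fsq(M - 1) ≤ 1}` is compact (`ι_proper`).  Cover the cube `[-√x, √x]^{N×N}` by cubes of
  side `η = 1/((N+1)√x)`: at most `(2√x/η + 2)^{N²} ≤ (C x)^{N²}` of them (index the cube of `M` by
  `(i,j) ↦ ⌊M_ij/η⌋ ∈ ℤ`, a function into the integers of absolute value `≤ √x/η + 1`).  If `g, h ∈ S`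
  have `ι g, ι h` in the same cube then `fsq(ι(g⁻¹h) - 1) = fsq(ι(g⁻¹)(ι h - ι g)) ≤ x · N² η² ≤ 1`, so
  `h ∈ gQ`.  Choosing one `g` in each cube met by `S`: `S ⊂ ⋃ g_i Q`, so
  `μ(S) ≤ (C x)^{N²} μ(Q)`.
* `int_Th` : `a₀ = N² + 1 + …`: `∫ Θ^{-a₀} ≤ ∑_n 2^{-n a₀} μ{2^n ≤ Θ < 2^{n+1}} ≤ ∑_n 2^{-na₀} C 2^{(n+1)a} < ∞` for
  `a₀ > a`.
-/

open MeasureTheory Filter Topology
open scoped ENNReal NNReal Matrix

noncomputable section

namespace SBD

variable {N : ℕ} {G : Type} [Group G] [TopologicalSpace G] [IsTopologicalGroup G]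
  [LocallyCompactSpace G] [T2Space G]
variable [SecondCountableTopology G] [MeasurableSpace G] [BorelSpace G]

private theorem m03_fsq_eq (M : Mat N) : fsq M = ∑ i, ∑ j, M i j ^ 2 := by
  unfold fsq fip
  rw [Matrix.trace, Finset.sum_comm]
  refine Finset.sum_congr rfl fun j _ => ?_
  rw [Matrix.diag_apply, Matrix.mul_apply]
  refine Finset.sum_congr rfl fun i _ => ?_
  rw [Matrix.transpose_apply, sq]

private theorem m03_fsq_nonneg (M : Mat N) : 0 ≤ fsq M := by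
  rw [m03_fsq_eq]
  exact Finset.sum_nonneg fun i _ => Finset.sum_nonneg fun j _ => sq_nonneg _

private theorem m03_entry (M : Mat N) (i j : Fin N) : M i j ^ 2 ≤ fsq M := by
  rw [m03_fsq_eq]
  calc M i j ^ 2 ≤ ∑ j, M i j ^ 2 :=
        Finset.single_le_sum (f := fun j => M i j ^ 2) (fun j _ => sq_nonneg _) (Finset.mem_univ j)
    _ ≤ ∑ i, ∑ j, M i j ^ 2 :=
        Finset.single_le_sum (f := fun i => ∑ j, M i j ^ 2)
          (fun i _ => Finset.sum_nonneg fun j _ => sq_nonneg _) (Finset.mem_univ i)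

private theorem m03_fsq_mul_le (A B : Mat N) : fsq (A * B) ≤ fsq A * fsq B := by
  rw [m03_fsq_eq, m03_fsq_eq A, m03_fsq_eq B]
  have h1 : ∀ i j, (A * B) i j ^ 2 ≤ (∑ k, A i k ^ 2) * ∑ k, B k j ^ 2 := by
    intro i j
    rw [Matrix.mul_apply]
    exact Finset.sum_mul_sq_le_sq_mul_sq _ _ _
  calc ∑ i, ∑ j, (A * B) i j ^ 2 ≤ ∑ i, ∑ j, (∑ k, A i k ^ 2) * ∑ k, B k j ^ 2 :=
        Finset.sum_le_sum fun i _ => Finset.sum_le_sum fun j _ => h1 i j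
    _ = (∑ i, ∑ k, A i k ^ 2) * ∑ j, ∑ k, B k j ^ 2 := by
        rw [Finset.sum_mul_sum]
    _ = (∑ i, ∑ j, A i j ^ 2) * ∑ i, ∑ j, B i j ^ 2 := by
        rw [Finset.sum_comm (f := fun j k => B k j ^ 2)]

private theorem m03_cont : Continuous (fun M : Mat N => fsq (M - 1)) := by
  have : (fun M : Mat N => fsq (M - 1)) = fun M => ∑ i, ∑ j, (M i j - (1 : Mat N) i j) ^ 2 := by
    funext M
    rw [m03_fsq_eq]
    rfl
  rw [this]
  fun_prop

private theorem m03_compact : IsCompact {M : Mat N | fsq (M - 1) ≤ 1} := by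
  have h1 : IsCompact (Set.pi Set.univ fun _ : Fin N => Set.pi Set.univ fun _ : Fin N =>
      Set.Icc (-2 : ℝ) 2) := isCompact_univ_pi fun i => isCompact_univ_pi fun j => isCompact_Icc
  refine h1.of_isClosed_subset (isClosed_le m03_cont continuous_const) ?_
  have key : ∀ (M : Mat N), fsq (M - 1) ≤ 1 → ∀ i j, M i j ∈ Set.Icc (-2 : ℝ) 2 := by
    intro M hM i j
    have h2 := (m03_entry (M - 1) i j).trans hM
    have h3 : |(M - 1) i j| ≤ 1 := by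
      rw [← sq_le_one_iff_abs_le_one]
      exact h2
    rw [abs_le, Matrix.sub_apply] at h3
    have h4 : (0 : ℝ) ≤ (1 : Mat N) i j ∧ (1 : Mat N) i j ≤ 1 := by
      rw [Matrix.one_apply]
      split_ifs <;> norm_num
    constructor <;> linarith [h4.1, h4.2, h3.1, h3.2]
  exact fun M hM i _ j _ => key M hM i j

private theorem m03_ball (L : LieData N G) (μ : Measure G) [μ.IsHaarMeasure] {x : ℝ} (hx : 1 ≤ x)
    (c : Fin N → Fin N → ℤ) :
    μ {g | Th L g ≤ x ∧ ∀ i j, ⌊L.ι g i j * ((N + 1) * Real.sqrt x)⌋ = c i j} ≤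
      μ (L.ι ⁻¹' {M : Mat N | fsq (M - 1) ≤ 1}) := by
  have hx0 : 0 < x := by linarith
  have hs : 0 < Real.sqrt x := Real.sqrt_pos.mpr hx0
  rcases Set.eq_empty_or_nonempty
    {g | Th L g ≤ x ∧ ∀ i j, ⌊L.ι g i j * ((N + 1) * Real.sqrt x)⌋ = c i j} with he | ⟨g, hg⟩
  · rw [he, measure_empty]
    exact bot_le
  · rw [← measure_preimage_mul μ g⁻¹ (L.ι ⁻¹' {M : Mat N | fsq (M - 1) ≤ 1})]
    refine measure_mono fun h hh => ?_
    show fsq (L.ι (g⁻¹ * h) - 1) ≤ 1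
    have h1 : L.ι (g⁻¹ * h) - 1 = L.ι g⁻¹ * (L.ι h - L.ι g) := by
      rw [mul_sub, ← map_mul, ← map_mul, inv_mul_cancel, map_one]
    rw [h1]
    refine (m03_fsq_mul_le _ _).trans ?_
    have h2 : fsq (L.ι g⁻¹) ≤ x := by
      have h3 : Th L g ≤ x := hg.1
      unfold Th at h3
      have h4 := m03_fsq_nonneg (L.ι g)
      linarith
    have h5 : fsq (L.ι h - L.ι g) ≤ 1 / x := by
      rw [m03_fsq_eq]
      have h6 : ∀ i j, (L.ι h - L.ι g) i j ^ 2 ≤ 1 / ((N + 1) ^ 2 * x) := by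
        intro i j
        have h7 : ⌊L.ι h i j * ((N + 1) * Real.sqrt x)⌋ =
            ⌊L.ι g i j * ((N + 1) * Real.sqrt x)⌋ := by rw [hh.2 i j, hg.2 i j]
        have h8 := Int.abs_sub_lt_one_of_floor_eq_floor h7
        rw [← sub_mul, abs_mul, abs_of_pos (a := (N + 1) * Real.sqrt x) (by positivity)] at h8
        have h9 : (|L.ι h i j - L.ι g i j| * ((N + 1) * Real.sqrt x)) ^ 2 ≤ 1 :=
          pow_le_one₀ (by positivity) h8.le
        rw [mul_pow, sq_abs, mul_pow, Real.sq_sqrt hx0.le] at h9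
        rw [Matrix.sub_apply, le_div_iff₀ (by positivity)]
        exact h9
      calc ∑ i, ∑ j, (L.ι h - L.ι g) i j ^ 2
          ≤ ∑ _i : Fin N, ∑ _j : Fin N, 1 / (((N : ℝ) + 1) ^ 2 * x) :=
            Finset.sum_le_sum fun i _ => Finset.sum_le_sum fun j _ => h6 i j
        _ = (N : ℝ) ^ 2 / (((N : ℝ) + 1) ^ 2 * x) := by
            rw [Finset.sum_const, Finset.sum_const, Finset.card_univ, Fintype.card_fin,
              nsmul_eq_mul, nsmul_eq_mul]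
            ring
        _ ≤ 1 / x := by
            rw [div_le_div_iff₀ (by positivity) hx0]
            have h10 : (N : ℝ) ^ 2 ≤ ((N : ℝ) + 1) ^ 2 := by
              have : (0 : ℝ) ≤ N := Nat.cast_nonneg N
              nlinarith
            nlinarith
    calc fsq (L.ι g⁻¹) * fsq (L.ι h - L.ι g) ≤ x * (1 / x) :=
          mul_le_mul h2 h5 (m03_fsq_nonneg _) hx0.le
      _ = 1 := by field_simp

private theorem m03_count (L : LieData N G) (μ : Measure G) [μ.IsHaarMeasure] {x : ℝ}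
    (hx : 1 ≤ x) :
    μ {g | Th L g ≤ x} ≤
      ((2 * (⌈(N + 1) * x⌉₊ + 1) + 1) ^ (N * N) : ℕ) *
        μ (L.ι ⁻¹' {M : Mat N | fsq (M - 1) ≤ 1}) := by
  classical
  have hx0 : 0 < x := by linarith
  have hs : 0 < Real.sqrt x := Real.sqrt_pos.mpr hx0
  let m : ℕ := ⌈(N + 1) * x⌉₊ + 1
  let I : Finset (Fin N → Fin N → ℤ) :=
    Fintype.piFinset fun _ => Fintype.piFinset fun _ => Finset.Icc (-(m : ℤ)) m
  have hI : I.card = (2 * m + 1) ^ (N * N) := by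
    show (Fintype.piFinset fun _ : Fin N => Fintype.piFinset fun _ : Fin N =>
      Finset.Icc (-(m : ℤ)) m).card = _
    rw [Fintype.card_piFinset, Finset.prod_const, Fintype.card_piFinset, Finset.prod_const,
      Int.card_Icc, Finset.card_univ, Fintype.card_fin, ← pow_mul]
    congr 1
    omega
  have hcov : {g | Th L g ≤ x} ⊆ ⋃ c ∈ I,
      {g | Th L g ≤ x ∧ ∀ i j, ⌊L.ι g i j * ((N + 1) * Real.sqrt x)⌋ = c i j} := by
    intro g hg
    rw [Set.mem_iUnion₂]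
    refine ⟨fun i j => ⌊L.ι g i j * ((N + 1) * Real.sqrt x)⌋, ?_, hg, fun i j => rfl⟩
    rw [Fintype.mem_piFinset]
    intro i
    rw [Fintype.mem_piFinset]
    intro j
    have h1 : fsq (L.ι g) ≤ x := by
      have h3 : Th L g ≤ x := hg
      unfold Th at h3
      have h4 := m03_fsq_nonneg (L.ι g⁻¹)
      linarith
    have h2 : |L.ι g i j| ≤ Real.sqrt x :=
      Real.abs_le_sqrt ((m03_entry _ i j).trans h1)
    have h3 : |L.ι g i j * ((N + 1) * Real.sqrt x)| ≤ (N + 1) * x := by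
      rw [abs_mul, abs_of_pos (a := (N + 1) * Real.sqrt x) (by positivity)]
      calc |L.ι g i j| * ((N + 1) * Real.sqrt x) ≤ Real.sqrt x * ((N + 1) * Real.sqrt x) :=
            mul_le_mul_of_nonneg_right h2 (by positivity)
        _ = (N + 1) * (Real.sqrt x * Real.sqrt x) := by ring
        _ = (N + 1) * x := by rw [Real.mul_self_sqrt hx0.le]
    rw [abs_le] at h3
    have h4 : (N + 1) * x ≤ (⌈(N + 1) * x⌉₊ : ℝ) := Nat.le_ceil _
    rw [Finset.mem_Icc]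
    constructor
    · rw [Int.le_floor]
      show ((-((⌈(N + 1) * x⌉₊ + 1 : ℕ) : ℤ) : ℤ) : ℝ) ≤ _
      push_cast
      linarith [h3.1]
    · have h5 : ((⌊L.ι g i j * ((N + 1) * Real.sqrt x)⌋ : ℤ) : ℝ) ≤ ((m : ℤ) : ℝ) := by
        refine (Int.floor_le _).trans ?_
        show _ ≤ (((⌈(N + 1) * x⌉₊ + 1 : ℕ) : ℤ) : ℝ)
        push_cast
        linarith [h3.2]
      exact_mod_cast h5
  calc μ {g | Th L g ≤ x} ≤ μ (⋃ c ∈ I,
      {g | Th L g ≤ x ∧ ∀ i j, ⌊L.ι g i j * ((N + 1) * Real.sqrt x)⌋ = c i j}) :=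
        measure_mono hcov
    _ ≤ ∑ c ∈ I, μ {g | Th L g ≤ x ∧ ∀ i j,
          ⌊L.ι g i j * ((N + 1) * Real.sqrt x)⌋ = c i j} := measure_biUnion_finset_le _ _
    _ ≤ ∑ _c ∈ I, μ (L.ι ⁻¹' {M : Mat N | fsq (M - 1) ≤ 1}) :=
        Finset.sum_le_sum fun c _ => m03_ball L μ hx c
    _ = _ := by rw [Finset.sum_const, hI, nsmul_eq_mul]

theorem volume_Th (L : LieData N G) (μ : Measure G) [μ.IsHaarMeasure] :
    ∃ C a : ℝ, 0 < C ∧ 0 < a ∧ ∀ x : ℝ, 1 ≤ x →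
      μ {g | Th L g ≤ x} ≤ ENNReal.ofReal (C * x ^ a) := by
  have hQ : μ (L.ι ⁻¹' {M : Mat N | fsq (M - 1) ≤ 1}) < ∞ :=
    (L.ι_proper _ m03_compact).measure_lt_top
  set q : ℝ := (μ (L.ι ⁻¹' {M : Mat N | fsq (M - 1) ≤ 1})).toReal with hq
  have hq0 : 0 ≤ q := ENNReal.toReal_nonneg
  refine ⟨(2 * N + 7 : ℝ) ^ (N * N) * q + 1, ((N * N : ℕ) : ℝ) + 1, by positivity, by positivity,
    fun x hx => ?_⟩
  have hx0 : 0 < x := by linarith
  refine (m03_count L μ hx).trans ?_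
  rw [← ENNReal.ofReal_toReal hQ.ne, ← hq, ← ENNReal.ofReal_natCast,
    ← ENNReal.ofReal_mul (Nat.cast_nonneg _)]
  apply ENNReal.ofReal_le_ofReal
  have h1 : (⌈(N + 1) * x⌉₊ : ℝ) ≤ (N + 1) * x + 1 := (Nat.ceil_lt_add_one (by positivity)).le
  have h2 : ((2 * (⌈(N + 1) * x⌉₊ + 1) + 1 : ℕ) : ℝ) ≤ (2 * N + 7) * x := by
    push_cast
    nlinarith
  have h3 : (((2 * (⌈(N + 1) * x⌉₊ + 1) + 1) ^ (N * N) : ℕ) : ℝ) ≤
      (2 * N + 7 : ℝ) ^ (N * N) * x ^ (N * N) := by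
    rw [← mul_pow, Nat.cast_pow]
    exact pow_le_pow_left₀ (Nat.cast_nonneg _) h2 _
  have h4 : (1 : ℝ) ≤ x ^ (N * N) := one_le_pow₀ hx
  calc (((2 * (⌈(N + 1) * x⌉₊ + 1) + 1) ^ (N * N) : ℕ) : ℝ) * q
      ≤ ((2 * N + 7 : ℝ) ^ (N * N) * x ^ (N * N)) * q := mul_le_mul_of_nonneg_right h3 hq0
    _ = ((2 * N + 7 : ℝ) ^ (N * N) * q) * x ^ (N * N) := by ring
    _ ≤ ((2 * N + 7 : ℝ) ^ (N * N) * q + 1) * x ^ (N * N) := by
        apply mul_le_mul_of_nonneg_right (by linarith) (by positivity)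
    _ ≤ ((2 * N + 7 : ℝ) ^ (N * N) * q + 1) * (x ^ (N * N) * x) := by
        apply mul_le_mul_of_nonneg_left _ (by positivity)
        nlinarith
    _ = ((2 * N + 7 : ℝ) ^ (N * N) * q + 1) * x ^ (((N * N : ℕ) : ℝ) + 1) := by
        rw [Real.rpow_add hx0, Real.rpow_natCast, Real.rpow_one]

theorem int_Th (L : LieData N G) (μ : Measure G) [μ.IsHaarMeasure] :
    ∃ a₀ : ℝ, 0 < a₀ ∧ ∫⁻ g, ENNReal.ofReal (Th L g ^ (-a₀)) ∂μ < ∞ := by
  obtain ⟨C, a, hC, ha, hv⟩ := volume_Th L μ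
  refine ⟨a + 1, by linarith, ?_⟩
  have hmeas : ∀ n : ℕ, MeasurableSet {g | Th L g ≤ (2 : ℝ) ^ (n + 1)} := fun n =>
    measurableSet_le (Th_cont L).measurable measurable_const
  have h1 : ∀ g, ENNReal.ofReal (Th L g ^ (-(a + 1))) ≤
      ∑' n : ℕ, {g | Th L g ≤ (2 : ℝ) ^ (n + 1)}.indicator
        (fun _ => ENNReal.ofReal (((2 : ℝ) ^ n) ^ (-(a + 1)))) g := by
    intro g
    obtain ⟨n, hn1, hn2⟩ := exists_nat_pow_near (one_le_Th L g) (one_lt_two : (1 : ℝ) < 2)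
    refine le_trans ?_ (ENNReal.le_tsum n)
    rw [Set.indicator_of_mem (show g ∈ {g | Th L g ≤ (2 : ℝ) ^ (n + 1)} from hn2.le)]
    apply ENNReal.ofReal_le_ofReal
    exact Real.rpow_le_rpow_of_nonpos (by positivity) hn1 (by linarith)
  have h2 : ∀ n : ℕ, ENNReal.ofReal (((2 : ℝ) ^ n) ^ (-(a + 1))) *
      μ {g | Th L g ≤ (2 : ℝ) ^ (n + 1)} ≤ ENNReal.ofReal (C * 2 ^ a * (1 / 2) ^ n) := by
    intro n
    refine (mul_le_mul_right (hv _ (one_le_pow₀ one_le_two)) _).trans ?_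
    rw [← ENNReal.ofReal_mul (by positivity)]
    apply le_of_eq
    congr 1
    have e1 : ((2 : ℝ) ^ (n + 1)) ^ a = ((2 : ℝ) ^ n) ^ a * 2 ^ a := by
      rw [pow_succ, Real.mul_rpow (by positivity) (by norm_num)]
    have e2 : ((2 : ℝ) ^ n) ^ (-(a + 1)) = (((2 : ℝ) ^ n) ^ a)⁻¹ * ((2 : ℝ) ^ n)⁻¹ := by
      rw [Real.rpow_neg (by positivity), Real.rpow_add (by positivity), Real.rpow_one, mul_inv]
    rw [e1, e2, one_div, inv_pow]
    have e3 : ((2 : ℝ) ^ n) ^ a ≠ 0 := (Real.rpow_pos_of_pos (by positivity) _).ne'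
    field_simp
  calc ∫⁻ g, ENNReal.ofReal (Th L g ^ (-(a + 1))) ∂μ
      ≤ ∫⁻ g, ∑' n : ℕ, {g | Th L g ≤ (2 : ℝ) ^ (n + 1)}.indicator
        (fun _ => ENNReal.ofReal (((2 : ℝ) ^ n) ^ (-(a + 1)))) g ∂μ := lintegral_mono h1
    _ = ∑' n : ℕ, ∫⁻ g, {g | Th L g ≤ (2 : ℝ) ^ (n + 1)}.indicator
        (fun _ => ENNReal.ofReal (((2 : ℝ) ^ n) ^ (-(a + 1)))) g ∂μ :=
        lintegral_tsum fun n => (measurable_const.indicator (hmeas n)).aemeasurable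
    _ = ∑' n : ℕ, ENNReal.ofReal (((2 : ℝ) ^ n) ^ (-(a + 1))) *
        μ {g | Th L g ≤ (2 : ℝ) ^ (n + 1)} := by
        congr 1
        funext n
        rw [lintegral_indicator_const (hmeas n)]
    _ ≤ ∑' n : ℕ, ENNReal.ofReal (C * 2 ^ a * (1 / 2) ^ n) := ENNReal.tsum_le_tsum h2
    _ = ENNReal.ofReal (∑' n : ℕ, C * 2 ^ a * (1 / 2) ^ n) :=
        (ENNReal.ofReal_tsum_of_nonneg (fun n => by positivity)
          ((summable_geometric_of_lt_one (by norm_num) (by norm_num)).mul_left _)).symm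
    _ < ∞ := ENNReal.ofReal_lt_top

end SBD
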