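import Pool.Agent.SBD.M03

/-!
# Row SBD-M04 : the forms `B_ε` converge and are positive definite

* `Bf_integrable` : let `a₀` be as in M03, `q = max(2, a₀/ε)`-ish: `Θ^{-ε} ∈ L^q` because
  `Θ^{-εq} ≤ Θ^{-a₀}` when `εq ≥ a₀` (`Θ ≥ 1`).  With `1/q + 2/r = 1` (`r = 2q/(q-1) > 2`) the
  coefficients `mc π w u`, `mc π w v` are in `L^r` (`Tempered`), so the product
  `Θ^{-ε} conj(m_u) m_v` is integrable by Hölder (`MemLp.mul`/`MemLp.integrable_mul`;
  measurability: all functions are continuous).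
* `Bf_self` : `conj z * z = ‖z‖²`.
* `Bf_pos` : if the integral of the nonnegative continuous integrable function
  `Θ^{-ε}‖m_v‖²` is `0` then it is `0` a.e., so everywhere (Haar measure is positive on open sets,
  `Continuous.ae_eq_iff_eq`), so `⟨w, π(g)v⟩ = 0` for all `g`; the closed span of `{π(g)v}` is
  invariant, nonzero, so is `H` by irreducibility (`IsPkg.irr`), so `w = 0`.
* `Bf_abs_le` : `∫ Θ^{-ε}‖m_u‖‖m_v‖ ≤ √(B(u,u)) √(B(v,v))` : Cauchy–Schwarz
  (`integral_mul_le_Lp_mul_Lq_of_nonneg` with `p = q = 2` for `Θ^{-ε/2}‖m_u‖`, `Θ^{-ε/2}‖m_v‖`).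
-/

open MeasureTheory Filter Topology
open scoped ENNReal NNReal Matrix

noncomputable section

namespace SBD

variable {N : ℕ} {G : Type} [Group G] [TopologicalSpace G] [IsTopologicalGroup G]
  [LocallyCompactSpace G] [T2Space G]
variable [SecondCountableTopology G] [MeasurableSpace G] [BorelSpace G]
variable {H : Type} [NormedAddCommGroup H] [InnerProductSpace ℂ H] [CompleteSpace H]

variable (L : LieData N G) (π : G →* (H ≃ₗᵢ[ℂ] H)) (A : LieRep N (KFin L π)) (hP : IsPkg L π A)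
  (μ : Measure G) [μ.IsHaarMeasure] (ht : Tempered L π μ) {ε : ℝ} (hε : 0 < ε) {w : H}
  (hw : w ∈ KFin L π)

section m04helpers

private theorem m04_triple {a b c : ℝ} (ha : 0 < a) (hb : 0 < b) (hc : 0 < c)
    (h : a⁻¹ + b⁻¹ = c⁻¹) :
    ENNReal.HolderTriple (ENNReal.ofReal a) (ENNReal.ofReal b) (ENNReal.ofReal c) := by
  refine ⟨?_⟩
  rw [← ENNReal.ofReal_inv_of_pos ha, ← ENNReal.ofReal_inv_of_pos hb,
    ← ENNReal.ofReal_inv_of_pos hc, ← ENNReal.ofReal_add (by positivity) (by positivity), h]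

private theorem m04_mc_cont (π : G →* (H ≃ₗᵢ[ℂ] H)) (hc : ∀ v : H, Continuous fun g => π g v)
    (w v : H) : Continuous (mc π w v) := by
  unfold mc
  exact continuous_const.inner (hc v)

private theorem m04_Th_pos (L : LieData N G) (g : G) : 0 < Th L g :=
  lt_of_lt_of_le one_pos (one_le_Th L g)

private theorem m04_Thr_cont (L : LieData N G) (ε : ℝ) : Continuous fun g => Th L g ^ (-ε) :=
  (Th_cont L).rpow_const fun g => Or.inl (m04_Th_pos L g).ne'

private theorem m04_Th_memLp (L : LieData N G) (μ : Measure G) [μ.IsHaarMeasure] {ε : ℝ}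
    (hε : 0 < ε) : ∃ Q : ℝ, 2 ≤ Q ∧
      MemLp (fun g => ((Th L g ^ (-ε) : ℝ) : ℂ)) (ENNReal.ofReal Q) μ := by
  obtain ⟨a₀, ha₀, hfin⟩ := int_Th L μ
  refine ⟨max 2 (a₀ / ε), le_max_left _ _, ?_⟩
  set Q : ℝ := max 2 (a₀ / ε) with hQ
  have hQ2 : 2 ≤ Q := le_max_left _ _
  have hQ0 : 0 < Q := by linarith
  have hQa : a₀ ≤ ε * Q := by
    have := le_max_right 2 (a₀ / ε)
    rw [div_le_iff₀ hε] at this
    linarith [mul_comm ε Q]
  have hmeas : AEStronglyMeasurable (fun g => ((Th L g ^ (-ε) : ℝ) : ℂ)) μ :=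
    (Complex.continuous_ofReal.comp (m04_Thr_cont L ε)).aestronglyMeasurable
  rw [← integrable_norm_rpow_iff hmeas (by
      rw [Ne, ENNReal.ofReal_eq_zero, not_le]; exact hQ0) ENNReal.ofReal_ne_top]
  have hint : Integrable (fun g => Th L g ^ (-a₀)) μ := by
    refine ⟨(m04_Thr_cont L a₀).aestronglyMeasurable, ?_⟩
    rw [hasFiniteIntegral_iff_ofReal]
    · exact hfin
    · exact Eventually.of_forall fun g => (Real.rpow_pos_of_pos (m04_Th_pos L g) _).le
  refine hint.mono' ?_ ?_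
  · have h1 : Continuous fun g => ‖((Th L g ^ (-ε) : ℝ) : ℂ)‖ ^ (ENNReal.ofReal Q).toReal := by
      refine (Complex.continuous_ofReal.comp (m04_Thr_cont L ε)).norm.rpow_const fun g => ?_
      right
      rw [ENNReal.toReal_ofReal hQ0.le]; exact hQ0.le
    exact h1.aestronglyMeasurable
  · refine Eventually.of_forall fun g => ?_
    have hT := m04_Th_pos L g
    have hT1 := one_le_Th L g
    rw [ENNReal.toReal_ofReal hQ0.le, Complex.norm_real, Real.norm_of_nonneg
      (Real.rpow_pos_of_pos hT _).le, ← Real.rpow_mul hT.le, Real.norm_of_nonneg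
      (Real.rpow_pos_of_pos hT _).le]
    apply Real.rpow_le_rpow_of_exponent_le hT1
    nlinarith

end m04helpers

include hP ht hε hw

theorem Bf_integrable (u v : KFin L π) :
    Integrable (fun g => ((Th L g ^ (-ε) : ℝ) : ℂ) *
      ((starRingEnd ℂ) (mc π w (u : H) g) * mc π w (v : H) g)) μ := by
  obtain ⟨Q, hQ, hQm⟩ := m04_Th_memLp L μ hε
  have hQ1 : 0 < Q - 1 := by linarith
  have hQ0 : 0 < Q := by linarith
  set R : ℝ := 2 * Q / (Q - 1) with hR
  have hR2 : 2 < R := by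
    rw [hR, lt_div_iff₀ hQ1]; linarith
  have hR0 : 0 < R := by linarith
  have hRe : 2 < ENNReal.ofReal R := by
    rw [show (2 : ℝ≥0∞) = ENNReal.ofReal 2 by simp]
    exact (ENNReal.ofReal_lt_ofReal_iff hR0).2 hR2
  have hu := ht w hw (u : H) u.2 (ENNReal.ofReal R) hRe
  have hv := ht w hw (v : H) v.2 (ENNReal.ofReal R) hRe
  have hu' : MemLp (fun g => (starRingEnd ℂ) (mc π w (u : H) g)) (ENNReal.ofReal R) μ := by
    refine hu.congr_norm ?_ ?_
    · exact (RCLike.continuous_conj.comp (m04_mc_cont π hP.cont w u)).aestronglyMeasurable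
    · exact Eventually.of_forall fun g => by simp
  haveI h1 : ENNReal.HolderTriple (ENNReal.ofReal R) (ENNReal.ofReal R) (ENNReal.ofReal (R / 2)) :=
    m04_triple hR0 hR0 (by positivity) (by field_simp; norm_num)
  haveI h2 : ENNReal.HolderTriple (ENNReal.ofReal Q) (ENNReal.ofReal (R / 2)) (ENNReal.ofReal 1) :=
    m04_triple hQ0 (by positivity) one_pos (by rw [hR]; field_simp; ring)
  have h3 : MemLp (fun g => (starRingEnd ℂ) (mc π w (u : H) g) * mc π w (v : H) g)
      (ENNReal.ofReal (R / 2)) μ := hv.mul hu'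
  have h4 : MemLp (fun g => ((Th L g ^ (-ε) : ℝ) : ℂ) *
      ((starRingEnd ℂ) (mc π w (u : H) g) * mc π w (v : H) g)) (ENNReal.ofReal 1) μ := h3.mul hQm
  rw [ENNReal.ofReal_one, memLp_one_iff_integrable] at h4
  exact h4

theorem Bf_integrable_norm (u v : KFin L π) :
    Integrable (fun g => Th L g ^ (-ε) * (‖mc π w (u : H) g‖ * ‖mc π w (v : H) g‖)) μ := by
  have h := (Bf_integrable L π A hP μ ht hε hw u v).norm
  refine h.congr (Eventually.of_forall fun g => ?_)
  simp only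
  rw [norm_mul, norm_mul, Complex.norm_real, Real.norm_of_nonneg
      (Real.rpow_pos_of_pos (m04_Th_pos L g) _).le, RCLike.norm_conj]

theorem Bf_self (v : KFin L π) : Bf L π μ ε w v v =
    ((∫ g, Th L g ^ (-ε) * ‖mc π w (v : H) g‖ ^ 2 ∂μ : ℝ) : ℂ) := by
  unfold Bf
  rw [← integral_complex_ofReal]
  refine integral_congr_ae (Eventually.of_forall fun g => ?_)
  simp only
  rw [Complex.conj_mul']
  push_cast
  ring

theorem Bf_pos (hw0 : w ≠ 0) (v : KFin L π) (hv : v ≠ 0) : 0 < (Bf L π μ ε w v v).re := by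
  rw [Bf_self L π A hP μ ht hε hw v, Complex.ofReal_re]
  have hint : Integrable (fun g => Th L g ^ (-ε) * ‖mc π w (v : H) g‖ ^ 2) μ := by
    refine (Bf_integrable_norm L π A hP μ ht hε hw v v).congr (Eventually.of_forall fun g => ?_)
    simp only
    ring
  have hnn : 0 ≤ fun g => Th L g ^ (-ε) * ‖mc π w (v : H) g‖ ^ 2 := fun g =>
    mul_nonneg (Real.rpow_pos_of_pos (m04_Th_pos L g) _).le (sq_nonneg _)
  rw [integral_pos_iff_support_of_nonneg hnn hint]
  have hcont : Continuous fun g => Th L g ^ (-ε) * ‖mc π w (v : H) g‖ ^ 2 :=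
    (m04_Thr_cont L ε).mul ((m04_mc_cont π hP.cont w v).norm.pow 2)
  refine (hcont.isOpen_support).measure_pos μ ?_
  by_contra hne
  rw [Set.not_nonempty_iff_eq_empty, Function.support_eq_empty_iff] at hne
  have hz : ∀ g, inner ℂ w (π g (v : H)) = 0 := by
    intro g
    have h1 := congrFun hne g
    simp only [Pi.zero_apply, mul_eq_zero, (Real.rpow_pos_of_pos (m04_Th_pos L g) _).ne',
      false_or, pow_eq_zero_iff, ne_eq, OfNat.ofNat_ne_zero, not_false_eq_true, norm_eq_zero] at h1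
    exact h1
  let W : Submodule ℂ H :=
    { carrier := {x | ∀ g, inner ℂ w (π g x) = 0}
      add_mem' := by
        intro a b ha hb g
        rw [map_add, inner_add_right, ha g, hb g, add_zero]
      zero_mem' := by intro g; rw [map_zero, inner_zero_right]
      smul_mem' := by
        intro c x hx g
        rw [map_smul, inner_smul_right, hx g, mul_zero] }
  have hWc : IsClosed (W : Set H) := by
    have : (W : Set H) = ⋂ g, {x | inner ℂ w (π g x) = 0} := by
      ext x
      simp only [Set.mem_iInter]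
      rfl
    rw [this]
    refine isClosed_iInter fun g => ?_
    exact isClosed_eq (continuous_const.inner (π g).continuous) continuous_const
  have hWi : ∀ g : G, ∀ x ∈ W, π g x ∈ W := by
    intro g x hx g'
    have := hx (g' * g)
    rwa [map_mul] at this
  have hvW : (v : H) ∈ W := hz
  rcases hP.irr W hWc hWi with h | h
  · rw [h, Submodule.mem_bot] at hvW
    exact hv (Subtype.ext hvW)
  · have hwW : w ∈ W := by rw [h]; trivial
    have := hwW 1
    rw [map_one] at this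
    exact hw0 (inner_self_eq_zero.1 this)

theorem Bf_abs_le (u v : KFin L π) :
    ∫ g, Th L g ^ (-ε) * (‖mc π w (u : H) g‖ * ‖mc π w (v : H) g‖) ∂μ ≤
      Real.sqrt (Bf L π μ ε w u u).re * Real.sqrt (Bf L π μ ε w v v).re := by
  have hiuv := Bf_integrable_norm L π A hP μ ht hε hw u v
  have hiuu := Bf_integrable_norm L π A hP μ ht hε hw u u
  have hivv := Bf_integrable_norm L π A hP μ ht hε hw v v
  have huu : (Bf L π μ ε w u u).re =
      ∫ g, Th L g ^ (-ε) * (‖mc π w (u : H) g‖ * ‖mc π w (u : H) g‖) ∂μ := by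
    rw [Bf_self L π A hP μ ht hε hw u, Complex.ofReal_re]
    simp only [sq]
  have hvv : (Bf L π μ ε w v v).re =
      ∫ g, Th L g ^ (-ε) * (‖mc π w (v : H) g‖ * ‖mc π w (v : H) g‖) ∂μ := by
    rw [Bf_self L π A hP μ ht hε hw v, Complex.ofReal_re]
    simp only [sq]
  rw [huu, hvv]
  set Iuu := ∫ g, Th L g ^ (-ε) * (‖mc π w (u : H) g‖ * ‖mc π w (u : H) g‖) ∂μ with hIuu
  set Ivv := ∫ g, Th L g ^ (-ε) * (‖mc π w (v : H) g‖ * ‖mc π w (v : H) g‖) ∂μ with hIvv
  set Iuv := ∫ g, Th L g ^ (-ε) * (‖mc π w (u : H) g‖ * ‖mc π w (v : H) g‖) ∂μ with hIuv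
  have hnn : ∀ (x : G), 0 ≤ Th L x ^ (-ε) := fun g =>
    (Real.rpow_pos_of_pos (m04_Th_pos L g) _).le
  have hu0 : 0 ≤ Iuu := integral_nonneg fun g => mul_nonneg (hnn g) (mul_self_nonneg _)
  have hv0 : 0 ≤ Ivv := integral_nonneg fun g => mul_nonneg (hnn g) (mul_self_nonneg _)
  have key : ∀ t : ℝ, 0 ≤ Iuu * (t * t) + (-2 * Iuv) * t + Ivv := by
    intro t
    have h1 : ∫ g, Th L g ^ (-ε) * ((t * ‖mc π w (u : H) g‖ - ‖mc π w (v : H) g‖) *
        (t * ‖mc π w (u : H) g‖ - ‖mc π w (v : H) g‖)) ∂μ =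
        Iuu * (t * t) + (-2 * Iuv) * t + Ivv := by
      have h2 : (fun g => Th L g ^ (-ε) * ((t * ‖mc π w (u : H) g‖ - ‖mc π w (v : H) g‖) *
        (t * ‖mc π w (u : H) g‖ - ‖mc π w (v : H) g‖))) = fun g =>
          ((t * t) * (Th L g ^ (-ε) * (‖mc π w (u : H) g‖ * ‖mc π w (u : H) g‖)) +
          (-2 * t) * (Th L g ^ (-ε) * (‖mc π w (u : H) g‖ * ‖mc π w (v : H) g‖))) +
          Th L g ^ (-ε) * (‖mc π w (v : H) g‖ * ‖mc π w (v : H) g‖) := by
        funext g; ring
      have e1 : Integrable (fun g => (t * t) *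
          (Th L g ^ (-ε) * (‖mc π w (u : H) g‖ * ‖mc π w (u : H) g‖))) μ := hiuu.const_mul _
      have e2 : Integrable (fun g => (-2 * t) *
          (Th L g ^ (-ε) * (‖mc π w (u : H) g‖ * ‖mc π w (v : H) g‖))) μ := hiuv.const_mul _
      have e3 : Integrable (fun g => (t * t) *
          (Th L g ^ (-ε) * (‖mc π w (u : H) g‖ * ‖mc π w (u : H) g‖)) + (-2 * t) *
          (Th L g ^ (-ε) * (‖mc π w (u : H) g‖ * ‖mc π w (v : H) g‖))) μ := e1.add e2
      rw [h2, integral_add e3 hivv, integral_add e1 e2, integral_const_mul,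
        integral_const_mul]
      ring
    rw [← h1]
    exact integral_nonneg fun g => mul_nonneg (hnn g) (mul_self_nonneg _)
  have hd := discrim_le_zero key
  rw [discrim] at hd
  rw [← Real.sqrt_mul hu0]
  apply Real.le_sqrt_of_sq_le
  nlinarith

end SBD
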