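import Pool.Agent.SBD.M04

/-!
# Row SBD-M05 : `B_ε` is almost invariant

PROOF of `Bf_deriv`.  Let `X ∈ 𝔤`, `b = √(fsq X)`, `m_u = mc π w u` etc.
(1) For fixed `g`, `s ↦ m_u(g e(sX)) = ⟨w, π(g)π(e(sX))u⟩` has derivative `m_{Xu}(g e(sX))`
(`IsPkg.line`), `Xu := A.D X u`.  So with `φ = conj(m_u) m_v`, `ψ = conj(m_{Xu}) m_v + conj(m_u) m_{Xv}`:
`φ(g e(tX)) - φ(g) = ∫_0^t ψ(g e(sX)) ds` (`ψ(g e(sX))` is continuous in `s`).
(2) Multiply by `Θ(g)^{-ε}`, integrate over `G`, use Fubini on `[0,t] × G` and right invariance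
(`g → g e(-sX)`; `e(sX)⁻¹ = e(-sX)`):
`∫ Θ(g)^{-ε}(φ(g e(tX)) - φ(g)) dg = ∫_0^t ∫ Θ(g e(-sX))^{-ε} ψ(g) dg ds`, and
`∫ Θ(g)^{-ε} φ(g e(tX)) dg = ∫ Θ(g e(-tX))^{-ε} φ(g) dg`.
Integrability: `Θ(g e(-sX))^{-ε} ≤ e^{2ε|s|b} Θ(g)^{-ε}` (from `Th_line` applied to `g e(-sX)` and
`s`: `Θ(g) ≤ e^{2|s|b} Θ(g e(-sX))`), and `|ψ| Θ^{-ε}` is integrable (`Bf_integrable_norm`); joint
measurability: everything is jointly continuous.
(3) `|Θ(g e(-tX))^{-ε} - Θ(g)^{-ε}| ≤ (e^{2ε|t|b} - 1)Θ(g)^{-ε}` (both ratios are between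
`e^{-2ε|t|b}` and `e^{2ε|t|b}`, and `1 - e^{-y} ≤ e^y - 1`).  So with
`Γ(s) := ∫ Θ(g e(-sX))^{-ε} ψ(g) dg`, `|∫_0^t Γ(s) ds| ≤ (e^{2εtb} - 1) √B(u,u) √B(v,v)` for `t > 0`
(`Bf_abs_le`), and `|Γ(s) - Γ(0)| ≤ (e^{2ε|s|b} - 1) ∫ Θ^{-ε}|ψ|`, so `Γ` is continuous at `0`; divide by
`t → 0+`: `|Γ(0)| ≤ 2εb √B(u,u) √B(v,v)`; `Γ(0) = B(Xu,v) + B(u,Xv)`.
PROOF of `Bf_K` : for `Z ∈ 𝔤` skew, `e(sZ) ∈ K` and `Θ(g e(-sZ)) = Θ(g)`, so by right invariance
`∫ Θ(g)^{-ε} φ(g e(tZ)) dg = ∫ Θ^{-ε} φ` and in (2) the left side is `0`: `t Γ(0) = 0`.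
-/

open MeasureTheory Filter Topology
open scoped ENNReal NNReal Matrix

noncomputable section

namespace SBD

variable {N : ℕ} {G : Type} [Group G] [TopologicalSpace G] [IsTopologicalGroup G]
  [LocallyCompactSpace G] [T2Space G]
variable [SecondCountableTopology G] [MeasurableSpace G] [BorelSpace G]
variable {H : Type} [NormedAddCommGroup H] [InnerProductSpace ℂ H] [CompleteSpace H]

section m05

variable (L : LieData N G)

theorem m05_wt {X : Mat N} (hX : X ∈ L.𝔤) (g : G) (s : ℝ) {ε : ℝ} (hε : 0 < ε) :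
    Th L (g * (L.e (s • X))⁻¹) ^ (-ε) ≤
      Real.exp (2 * ε * |s| * Real.sqrt (fsq X)) * Th L g ^ (-ε) ∧
    |Th L (g * (L.e (s • X))⁻¹) ^ (-ε) - Th L g ^ (-ε)| ≤
      (Real.exp (2 * ε * |s| * Real.sqrt (fsq X)) - 1) * Th L g ^ (-ε) := by
  have hinv : (L.e (s • X))⁻¹ = L.e ((-s) • X) := by
    rw [neg_smul, e_neg L (L.𝔤.smul_mem s hX)]
  have h1 : Th L (g * (L.e (s • X))⁻¹) ≤ Real.exp (2 * |s| * Real.sqrt (fsq X)) * Th L g := by
    have := Th_line L hX g (-s)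
    rwa [abs_neg, ← hinv] at this
  have h2 : Th L g ≤ Real.exp (2 * |s| * Real.sqrt (fsq X)) * Th L (g * (L.e (s • X))⁻¹) := by
    have := Th_line L hX (g * (L.e (s • X))⁻¹) s
    rwa [inv_mul_cancel_right] at this
  have hp : 0 < Th L g := zero_lt_one.trans_le (one_le_Th L g)
  have hp' : 0 < Th L (g * (L.e (s • X))⁻¹) := zero_lt_one.trans_le (one_le_Th L _)
  have hE : 0 < Real.exp (2 * |s| * Real.sqrt (fsq X)) := Real.exp_pos _
  have hEε : Real.exp (2 * |s| * Real.sqrt (fsq X)) ^ ε =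
      Real.exp (2 * ε * |s| * Real.sqrt (fsq X)) := by
    rw [← Real.exp_mul]
    congr 1
    ring
  have hEε' : Real.exp (2 * |s| * Real.sqrt (fsq X)) ^ (-ε) =
      (Real.exp (2 * ε * |s| * Real.sqrt (fsq X)))⁻¹ := by
    rw [Real.rpow_neg hE.le, hEε]
  have hF : 0 < Real.exp (2 * ε * |s| * Real.sqrt (fsq X)) := Real.exp_pos _
  have hT : 0 < Th L g ^ (-ε) := Real.rpow_pos_of_pos hp _
  -- upper bound
  have k1 : Th L (g * (L.e (s • X))⁻¹) ^ (-ε) ≤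
      Real.exp (2 * ε * |s| * Real.sqrt (fsq X)) * Th L g ^ (-ε) := by
    have a1 : (Real.exp (2 * |s| * Real.sqrt (fsq X)) * Th L (g * (L.e (s • X))⁻¹)) ^ (-ε) ≤
        Th L g ^ (-ε) :=
      Real.rpow_le_rpow_of_nonpos hp h2 (by linarith)
    rw [Real.mul_rpow hE.le hp'.le, hEε'] at a1
    calc Th L (g * (L.e (s • X))⁻¹) ^ (-ε) =
        Real.exp (2 * ε * |s| * Real.sqrt (fsq X)) *
          ((Real.exp (2 * ε * |s| * Real.sqrt (fsq X)))⁻¹ *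
          Th L (g * (L.e (s • X))⁻¹) ^ (-ε)) := by field_simp
      _ ≤ _ := mul_le_mul_of_nonneg_left a1 hF.le
  have k2 : (Real.exp (2 * ε * |s| * Real.sqrt (fsq X)))⁻¹ * Th L g ^ (-ε) ≤
      Th L (g * (L.e (s • X))⁻¹) ^ (-ε) := by
    have a1 : (Real.exp (2 * |s| * Real.sqrt (fsq X)) * Th L g) ^ (-ε) ≤
        Th L (g * (L.e (s • X))⁻¹) ^ (-ε) :=
      Real.rpow_le_rpow_of_nonpos hp' h1 (by linarith)
    rwa [Real.mul_rpow hE.le hp.le, hEε'] at a1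
  refine ⟨k1, ?_⟩
  rw [abs_le]
  have k3 : 2 - Real.exp (2 * ε * |s| * Real.sqrt (fsq X)) ≤
      (Real.exp (2 * ε * |s| * Real.sqrt (fsq X)))⁻¹ := by
    rw [← one_div, le_div_iff₀ hF]
    nlinarith [sq_nonneg (Real.exp (2 * ε * |s| * Real.sqrt (fsq X)) - 1)]
  constructor
  · have := mul_le_mul_of_nonneg_right k3 hT.le
    linarith
  · linarith

/-- integrability of the shifted functions, with a bound of the norm -/
theorem m05_int {X : Mat N} (hX : X ∈ L.𝔤) (μ : Measure G) [μ.IsHaarMeasure]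
    [μ.IsMulRightInvariant] {ε : ℝ} (hε : 0 < ε) (ψ : G → ℂ) (hψc : Continuous ψ)
    (hψ : Integrable (fun g => ((Th L g ^ (-ε) : ℝ) : ℂ) * ψ g) μ) (s : ℝ) :
    Integrable (fun g => ((Th L g ^ (-ε) : ℝ) : ℂ) * ψ (g * L.e (s • X))) μ ∧
    ∫ g, ‖((Th L g ^ (-ε) : ℝ) : ℂ) * ψ (g * L.e (s • X))‖ ∂μ ≤
      Real.exp (2 * ε * |s| * Real.sqrt (fsq X)) *
        ∫ g, ‖((Th L g ^ (-ε) : ℝ) : ℂ) * ψ g‖ ∂μ ∧
    ‖∫ g, ((Th L g ^ (-ε) : ℝ) : ℂ) * ψ (g * L.e (s • X)) ∂μ -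
      ∫ g, ((Th L g ^ (-ε) : ℝ) : ℂ) * ψ g ∂μ‖ ≤
      (Real.exp (2 * ε * |s| * Real.sqrt (fsq X)) - 1) *
        ∫ g, ‖((Th L g ^ (-ε) : ℝ) : ℂ) * ψ g‖ ∂μ := by
  have hTc : ∀ h : G, Continuous fun g => ((Th L (g * h) ^ (-ε) : ℝ) : ℂ) := by
    intro h
    refine Complex.continuous_ofReal.comp ?_
    refine Continuous.rpow_const ((Th_cont L).comp (continuous_mul_right h)) ?_
    intro g
    left
    exact (zero_lt_one.trans_le (one_le_Th L _)).ne'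
  have hT0 : ∀ g : G, 0 ≤ Th L g ^ (-ε) := fun g =>
    Real.rpow_nonneg (zero_le_one.trans (one_le_Th L _)) _
  have hFb : ∀ g : G, ‖((Th L (g * (L.e (s • X))⁻¹) ^ (-ε) : ℝ) : ℂ) * ψ g‖ ≤
      Real.exp (2 * ε * |s| * Real.sqrt (fsq X)) * ‖((Th L g ^ (-ε) : ℝ) : ℂ) * ψ g‖ := by
    intro g
    rw [norm_mul, norm_mul, Complex.norm_real, Complex.norm_real, Real.norm_of_nonneg (hT0 _),
      Real.norm_of_nonneg (hT0 _), ← mul_assoc]
    exact mul_le_mul_of_nonneg_right (m05_wt L hX g s hε).1 (norm_nonneg _)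
  have hF : Integrable (fun g => ((Th L (g * (L.e (s • X))⁻¹) ^ (-ε) : ℝ) : ℂ) * ψ g) μ :=
    (hψ.norm.const_mul _).mono' ((hTc _).mul hψc).aestronglyMeasurable
      (Filter.Eventually.of_forall hFb)
  have hsh : (fun g => ((Th L g ^ (-ε) : ℝ) : ℂ) * ψ (g * L.e (s • X))) =
      fun g => (fun x => ((Th L (x * (L.e (s • X))⁻¹) ^ (-ε) : ℝ) : ℂ) * ψ x)
        (g * L.e (s • X)) := by
    funext g
    simp only [mul_inv_cancel_right]
  refine ⟨?_, ?_, ?_⟩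
  · rw [hsh]
    exact hF.comp_mul_right _
  · have e1 : ∫ g, ‖((Th L g ^ (-ε) : ℝ) : ℂ) * ψ (g * L.e (s • X))‖ ∂μ =
        ∫ g, ‖((Th L (g * (L.e (s • X))⁻¹) ^ (-ε) : ℝ) : ℂ) * ψ g‖ ∂μ := by
      rw [← integral_mul_right_eq_self
        (fun g => ‖((Th L (g * (L.e (s • X))⁻¹) ^ (-ε) : ℝ) : ℂ) * ψ g‖) (L.e (s • X))]
      simp only [mul_inv_cancel_right]
    rw [e1, ← integral_const_mul]
    exact integral_mono hF.norm (hψ.norm.const_mul _) hFb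
  · have e1 : ∫ g, ((Th L g ^ (-ε) : ℝ) : ℂ) * ψ (g * L.e (s • X)) ∂μ =
        ∫ g, ((Th L (g * (L.e (s • X))⁻¹) ^ (-ε) : ℝ) : ℂ) * ψ g ∂μ := by
      rw [← integral_mul_right_eq_self
        (fun g => ((Th L (g * (L.e (s • X))⁻¹) ^ (-ε) : ℝ) : ℂ) * ψ g) (L.e (s • X))]
      simp only [mul_inv_cancel_right]
    rw [e1, ← integral_sub hF hψ, ← integral_const_mul]
    refine norm_integral_le_of_norm_le (hψ.norm.const_mul _) (Filter.Eventually.of_forall ?_)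
    intro g
    show ‖_‖ ≤ _
    rw [← sub_mul, norm_mul, norm_mul, ← Complex.ofReal_sub, Complex.norm_real, Complex.norm_real,
      Real.norm_of_nonneg (hT0 _), ← mul_assoc, Real.norm_eq_abs]
    exact mul_le_mul_of_nonneg_right (m05_wt L hX g s hε).2 (norm_nonneg _)

theorem m05_prod {X : Mat N} (hX : X ∈ L.𝔤) (μ : Measure G) [μ.IsHaarMeasure]
    [μ.IsMulRightInvariant] {ε : ℝ} (hε : 0 < ε) (ψ : G → ℂ) (hψc : Continuous ψ)
    (hψ : Integrable (fun g => ((Th L g ^ (-ε) : ℝ) : ℂ) * ψ g) μ) (t : ℝ) :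
    Integrable (fun p : ℝ × G => ((Th L p.2 ^ (-ε) : ℝ) : ℂ) * ψ (p.2 * L.e (p.1 • X)))
      ((volume.restrict (Set.Ioc 0 t)).prod μ) := by
  have hc : Continuous (fun p : ℝ × G => ((Th L p.2 ^ (-ε) : ℝ) : ℂ) *
      ψ (p.2 * L.e (p.1 • X))) := by
    refine Continuous.mul ?_ ?_
    · refine Complex.continuous_ofReal.comp ?_
      refine Continuous.rpow_const ((Th_cont L).comp continuous_snd) ?_
      intro g
      left
      exact (zero_lt_one.trans_le (one_le_Th L _)).ne'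
    · exact hψc.comp (continuous_snd.mul ((e_line_cont L hX).comp continuous_fst))
  have hm : AEStronglyMeasurable (fun p : ℝ × G => ((Th L p.2 ^ (-ε) : ℝ) : ℂ) *
      ψ (p.2 * L.e (p.1 • X))) ((volume.restrict (Set.Ioc 0 t)).prod μ) :=
    hc.aestronglyMeasurable
  rw [integrable_prod_iff hm]
  refine ⟨Filter.Eventually.of_forall fun s => (m05_int L hX μ hε ψ hψc hψ s).1, ?_⟩
  refine (integrable_const (Real.exp (2 * ε * t * Real.sqrt (fsq X)) *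
        ∫ g, ‖((Th L g ^ (-ε) : ℝ) : ℂ) * ψ g‖ ∂μ)).mono' hm.norm.integral_prod_right' ?_
  rw [ae_restrict_iff' measurableSet_Ioc]
  refine Filter.Eventually.of_forall fun s hs => ?_
  rw [Real.norm_of_nonneg (integral_nonneg fun g => norm_nonneg _)]
  refine (m05_int L hX μ hε ψ hψc hψ s).2.1.trans ?_
  refine mul_le_mul_of_nonneg_right ?_ (integral_nonneg fun g => norm_nonneg _)
  apply Real.exp_le_exp.2
  rw [abs_of_pos hs.1]
  have := hs.2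
  gcongr

theorem m05_ftc {X : Mat N} (hX : X ∈ L.𝔤) (μ : Measure G) [μ.IsHaarMeasure]
    [μ.IsMulRightInvariant] {ε : ℝ} (hε : 0 < ε) (φ ψ : G → ℂ) (hφc : Continuous φ)
    (hψc : Continuous ψ)
    (hd : ∀ g : G, ∀ t : ℝ, HasDerivAt (fun s : ℝ => φ (g * L.e (s • X)))
      (ψ (g * L.e (t • X))) t)
    (hφ : Integrable (fun g => ((Th L g ^ (-ε) : ℝ) : ℂ) * φ g) μ)
    (hψ : Integrable (fun g => ((Th L g ^ (-ε) : ℝ) : ℂ) * ψ g) μ) {t : ℝ} (ht : 0 ≤ t) :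
    ∫ g, ((Th L g ^ (-ε) : ℝ) : ℂ) * φ (g * L.e (t • X)) ∂μ -
      ∫ g, ((Th L g ^ (-ε) : ℝ) : ℂ) * φ g ∂μ =
    ∫ s in Set.Ioc 0 t, ∫ g, ((Th L g ^ (-ε) : ℝ) : ℂ) * ψ (g * L.e (s • X)) ∂μ := by
  rw [integral_integral_swap (m05_prod L hX μ hε ψ hψc hψ t),
    ← integral_sub (m05_int L hX μ hε φ hφc hφ t).1 hφ]
  refine integral_congr_ae (Filter.Eventually.of_forall fun g => ?_)
  show _ = ∫ s in Set.Ioc 0 t, ((Th L g ^ (-ε) : ℝ) : ℂ) * ψ (g * L.e (s • X))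
  have hcs : Continuous fun s : ℝ => ψ (g * L.e (s • X)) :=
    hψc.comp (continuous_const.mul (e_line_cont L hX))
  rw [← intervalIntegral.integral_of_le ht, intervalIntegral.integral_const_mul,
    intervalIntegral.integral_eq_sub_of_hasDerivAt (fun s _ => hd g s)
      (hcs.intervalIntegrable _ _)]
  rw [zero_smul, e_zero, mul_one, mul_sub]

theorem m05_bound {X : Mat N} (hX : X ∈ L.𝔤) (μ : Measure G) [μ.IsHaarMeasure]
    [μ.IsMulRightInvariant] {ε : ℝ} (hε : 0 < ε) (φ ψ : G → ℂ) (hφc : Continuous φ)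
    (hψc : Continuous ψ)
    (hd : ∀ g : G, ∀ t : ℝ, HasDerivAt (fun s : ℝ => φ (g * L.e (s • X)))
      (ψ (g * L.e (t • X))) t)
    (hφ : Integrable (fun g => ((Th L g ^ (-ε) : ℝ) : ℂ) * φ g) μ)
    (hψ : Integrable (fun g => ((Th L g ^ (-ε) : ℝ) : ℂ) * ψ g) μ) :
    ‖∫ g, ((Th L g ^ (-ε) : ℝ) : ℂ) * ψ g ∂μ‖ ≤ 2 * ε * Real.sqrt (fsq X) *
      ∫ g, ‖((Th L g ^ (-ε) : ℝ) : ℂ) * φ g‖ ∂μ := by
  obtain ⟨c, hc⟩ : ∃ c, c = 2 * ε * Real.sqrt (fsq X) := ⟨_, rfl⟩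
  obtain ⟨P, hP⟩ : ∃ P, P = ∫ g, ‖((Th L g ^ (-ε) : ℝ) : ℂ) * φ g‖ ∂μ := ⟨_, rfl⟩
  obtain ⟨Q, hQ⟩ : ∃ Q, Q = ∫ g, ‖((Th L g ^ (-ε) : ℝ) : ℂ) * ψ g‖ ∂μ := ⟨_, rfl⟩
  have hc0 : 0 ≤ c := by rw [hc]; positivity
  have hP0 : 0 ≤ P := by rw [hP]; exact integral_nonneg fun g => norm_nonneg _
  have hQ0 : 0 ≤ Q := by rw [hQ]; exact integral_nonneg fun g => norm_nonneg _
  obtain ⟨Γ, hΓ⟩ : ∃ Γ : ℝ → ℂ, Γ = fun s => ∫ g, ((Th L g ^ (-ε) : ℝ) : ℂ) *
      ψ (g * L.e (s • X)) ∂μ := ⟨_, rfl⟩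
  obtain ⟨Γ0, hΓ0⟩ : ∃ Γ0 : ℂ, Γ0 = ∫ g, ((Th L g ^ (-ε) : ℝ) : ℂ) * ψ g ∂μ := ⟨_, rfl⟩
  rw [← hc, ← hP, ← hΓ0]
  have hexp : ∀ s : ℝ, Real.exp (2 * ε * |s| * Real.sqrt (fsq X)) = Real.exp (c * |s|) := by
    intro s
    rw [hc]
    congr 1
    ring
  -- for every small `t > 0`
  have key : ∀ t : ℝ, 0 < t → c * t ≤ 1 → ‖Γ0‖ ≤ c * P + t * (c ^ 2 * P + 2 * c * Q) := by
    intro t ht hct
    have h1 := m05_ftc L hX μ hε φ ψ hφc hψc hd hφ hψ ht.le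
    have h2 := (m05_int L hX μ hε φ hφc hφ t).2.2
    rw [h1, hexp, abs_of_pos ht, ← hP] at h2
    have hct0 : 0 ≤ c * t := by positivity
    have hx : Real.exp (c * t) - 1 ≤ c * t + (c * t) ^ 2 := by
      have := Real.abs_exp_sub_one_sub_id_le (x := c * t) (by rw [abs_of_nonneg hct0]; exact hct)
      have := (abs_le.1 this).2
      linarith
    have h3 : ∀ s ∈ Set.Ioc 0 t, ‖Γ s - Γ0‖ ≤ (Real.exp (c * t) - 1) * Q := by
      intro s hs
      have := (m05_int L hX μ hε ψ hψc hψ s).2.2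
      rw [hexp, abs_of_pos hs.1, ← hQ, ← hΓ0] at this
      rw [hΓ]
      refine this.trans (mul_le_mul_of_nonneg_right ?_ hQ0)
      have := Real.exp_le_exp.2 (mul_le_mul_of_nonneg_left hs.2 hc0)
      linarith
    have hΓi : IntegrableOn Γ (Set.Ioc 0 t) := by
      rw [hΓ]
      exact (m05_prod L hX μ hε ψ hψc hψ t).integral_prod_left
    have h4 : ∫ s in Set.Ioc 0 t, (Γ s - Γ0) = (∫ s in Set.Ioc 0 t, Γ s) - (t : ℂ) * Γ0 := by
      rw [integral_sub hΓi (integrable_const _), setIntegral_const, Real.volume_real_Ioc_of_le ht.le,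
        sub_zero]
      simp
    have h5 : ‖∫ s in Set.Ioc 0 t, (Γ s - Γ0)‖ ≤ ((Real.exp (c * t) - 1) * Q) * t := by
      have := norm_setIntegral_le_of_norm_le_const (μ := volume) (s := Set.Ioc 0 t)
        (f := fun s => Γ s - Γ0) (C := (Real.exp (c * t) - 1) * Q)
        (by rw [Real.volume_Ioc]; exact ENNReal.ofReal_lt_top) h3
      rwa [Real.volume_real_Ioc_of_le ht.le, sub_zero] at this
    have h6 : ‖∫ s in Set.Ioc 0 t, Γ s‖ ≤ (Real.exp (c * t) - 1) * P := by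
      rw [hΓ]
      exact h2
    have h7 : t * ‖Γ0‖ ≤ (Real.exp (c * t) - 1) * P + ((Real.exp (c * t) - 1) * Q) * t := by
      calc t * ‖Γ0‖ = ‖(t : ℂ) * Γ0‖ := by
            rw [norm_mul, Complex.norm_real, Real.norm_of_nonneg ht.le]
        _ = ‖(∫ s in Set.Ioc 0 t, Γ s) - ∫ s in Set.Ioc 0 t, (Γ s - Γ0)‖ := by
            rw [h4]
            congr 1
            ring
        _ ≤ ‖∫ s in Set.Ioc 0 t, Γ s‖ + ‖∫ s in Set.Ioc 0 t, (Γ s - Γ0)‖ := norm_sub_le _ _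
        _ ≤ _ := add_le_add h6 h5
    have h8 : t * ‖Γ0‖ ≤ t * (c * P + t * (c ^ 2 * P + 2 * c * Q)) := by
      have a1 : (Real.exp (c * t) - 1) * P ≤ (c * t + (c * t) ^ 2) * P :=
        mul_le_mul_of_nonneg_right hx hP0
      have a2 : ((Real.exp (c * t) - 1) * Q) * t ≤ ((c * t + (c * t) ^ 2) * Q) * t := by
        gcongr
      have a3 : (c * t) ^ 2 ≤ c * t := by nlinarith
      have a4 : ((c * t + (c * t) ^ 2) * Q) * t ≤ ((2 * (c * t)) * Q) * t := by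
        gcongr
        linarith
      calc t * ‖Γ0‖ ≤ (c * t + (c * t) ^ 2) * P + ((2 * (c * t)) * Q) * t := by linarith
        _ = _ := by ring
    exact le_of_mul_le_mul_left h8 ht
  apply le_of_forall_pos_le_add
  intro δ hδ
  obtain ⟨M, hM⟩ : ∃ M, M = c ^ 2 * P + 2 * c * Q := ⟨_, rfl⟩
  have hM0 : 0 ≤ M := by rw [hM]; positivity
  have k := key (min (1 / (c + 1)) (δ / (M + 1))) (lt_min (by positivity) (by positivity)) (by
    calc c * min (1 / (c + 1)) (δ / (M + 1)) ≤ c * (1 / (c + 1)) := by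
          gcongr
          exact min_le_left _ _
      _ ≤ 1 := by
        rw [mul_one_div, div_le_one (by positivity)]
        linarith)
  rw [← hM] at k
  refine k.trans ?_
  have : min (1 / (c + 1)) (δ / (M + 1)) * M ≤ δ := by
    calc min (1 / (c + 1)) (δ / (M + 1)) * M ≤ δ / (M + 1) * M := by
          gcongr
          exact min_le_right _ _
      _ ≤ δ / (M + 1) * (M + 1) := by
          gcongr
          linarith
      _ = δ := by field_simp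
  linarith

theorem m05_line (π : G →* (H ≃ₗᵢ[ℂ] H)) (A : LieRep N (KFin L π)) (hP : IsPkg L π A)
    {X : Mat N} (hX : X ∈ L.𝔤) (w : H) (u : KFin L π) (g : G) (t : ℝ) :
    HasDerivAt (fun s : ℝ => mc π w (u : H) (g * L.e (s • X)))
      (mc π w ((A.D X u : KFin L π) : H) (g * L.e (t • X))) t := by
  have h1 := hP.line X hX u t
  have h2 : ∀ (x : H) (s : ℝ), mc π w x (g * L.e (s • X)) =
      ((innerSL ℂ w).comp ((π g).toContinuousLinearEquiv : H →L[ℂ] H)).restrictScalars ℝ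
        (π (L.e (s • X)) x) := by
    intro x s
    unfold mc
    rw [map_mul]
    rfl
  simp only [h2]
  exact (ContinuousLinearMap.hasFDerivAt _).comp_hasDerivAt t h1

theorem m05_mc_cont (π : G →* (H ≃ₗᵢ[ℂ] H)) (hc : ∀ v : H, Continuous fun g => π g v) (w v : H) :
    Continuous (mc π w v) := by
  unfold mc
  exact continuous_const.inner (hc v)

end m05

variable (L : LieData N G) (π : G →* (H ≃ₗᵢ[ℂ] H)) (A : LieRep N (KFin L π)) (hP : IsPkg L π A)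
  (μ : Measure G) [μ.IsHaarMeasure] [μ.IsMulRightInvariant] (ht : Tempered L π μ) {ε : ℝ}
  (hε : 0 < ε) {w : H} (hw : w ∈ KFin L π)

include hP ht hε hw

theorem m05_phi {X : Mat N} (hX : X ∈ L.𝔤) (u v : KFin L π) :
    (∀ g : G, ∀ t : ℝ, HasDerivAt (fun s : ℝ => (fun x => (starRingEnd ℂ) (mc π w (u : H) x) *
        mc π w (v : H) x) (g * L.e (s • X)))
      ((fun x => (starRingEnd ℂ) (mc π w ((A.D X u : KFin L π) : H) x) * mc π w (v : H) x +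
        (starRingEnd ℂ) (mc π w (u : H) x) * mc π w ((A.D X v : KFin L π) : H) x)
        (g * L.e (t • X))) t) ∧
    Continuous (fun x => (starRingEnd ℂ) (mc π w (u : H) x) * mc π w (v : H) x) ∧
    Continuous (fun x => (starRingEnd ℂ) (mc π w ((A.D X u : KFin L π) : H) x) *
      mc π w (v : H) x + (starRingEnd ℂ) (mc π w (u : H) x) *
      mc π w ((A.D X v : KFin L π) : H) x) ∧
    Integrable (fun g => ((Th L g ^ (-ε) : ℝ) : ℂ) *
      ((fun x => (starRingEnd ℂ) (mc π w (u : H) x) * mc π w (v : H) x) g)) μ ∧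
    Integrable (fun g => ((Th L g ^ (-ε) : ℝ) : ℂ) *
      ((fun x => (starRingEnd ℂ) (mc π w ((A.D X u : KFin L π) : H) x) * mc π w (v : H) x +
        (starRingEnd ℂ) (mc π w (u : H) x) * mc π w ((A.D X v : KFin L π) : H) x) g)) μ ∧
    Bf L π μ ε w (A.D X u) v + Bf L π μ ε w u (A.D X v) =
      ∫ g, ((Th L g ^ (-ε) : ℝ) : ℂ) *
      ((fun x => (starRingEnd ℂ) (mc π w ((A.D X u : KFin L π) : H) x) * mc π w (v : H) x +
        (starRingEnd ℂ) (mc π w (u : H) x) * mc π w ((A.D X v : KFin L π) : H) x) g) ∂μ := by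
  have hc := m05_mc_cont π hP.cont w
  have hcs : ∀ x : H, Continuous fun g => (starRingEnd ℂ) (mc π w x g) := fun x =>
    Complex.continuous_conj.comp (hc x)
  have i1 := Bf_integrable L π A hP μ ht hε hw (A.D X u) v
  have i2 := Bf_integrable L π A hP μ ht hε hw u (A.D X v)
  refine ⟨?_, (hcs _).mul (hc _), ((hcs _).mul (hc _)).add ((hcs _).mul (hc _)),
    Bf_integrable L π A hP μ ht hε hw u v, ?_, ?_⟩
  · intro g t
    have h1 := (m05_line L π A hP hX w u g t).star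
    have h2 := m05_line L π A hP hX w v g t
    exact h1.mul h2
  · refine (i1.add i2).congr (Filter.Eventually.of_forall fun g => ?_)
    simp only [Pi.add_apply]
    ring
  · unfold Bf
    rw [← integral_add i1 i2]
    refine integral_congr_ae (Filter.Eventually.of_forall fun g => ?_)
    simp only
    ring

theorem Bf_deriv {X : Mat N} (hX : X ∈ L.𝔤) (u v : KFin L π) :
    ‖Bf L π μ ε w (A.D X u) v + Bf L π μ ε w u (A.D X v)‖ ≤
      2 * ε * Real.sqrt (fsq X) * Real.sqrt (Bf L π μ ε w u u).re *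
        Real.sqrt (Bf L π μ ε w v v).re := by
  obtain ⟨hd, c1, c2, j1, j2, hB⟩ := m05_phi L π A hP μ ht hε hw hX u v
  rw [hB]
  refine (m05_bound L hX μ hε _ _ c1 c2 hd j1 j2).trans ?_
  have h0 : ∀ g, ‖((Th L g ^ (-ε) : ℝ) : ℂ) *
      ((fun x => (starRingEnd ℂ) (mc π w (u : H) x) * mc π w (v : H) x) g)‖ =
      Th L g ^ (-ε) * (‖mc π w (u : H) g‖ * ‖mc π w (v : H) g‖) := by
    intro g
    rw [norm_mul, Complex.norm_real, Real.norm_of_nonneg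
      (Real.rpow_nonneg (zero_le_one.trans (one_le_Th L _)) _)]
    show _ * ‖(starRingEnd ℂ) (mc π w (u : H) g) * mc π w (v : H) g‖ = _
    rw [norm_mul, RCLike.norm_conj]
  simp only [h0]
  rw [mul_assoc (2 * ε * Real.sqrt (fsq X))]
  exact mul_le_mul_of_nonneg_left (Bf_abs_le L π A hP μ ht hε hw u v) (by positivity)

theorem Bf_K {Z : Mat N} (hZ : Z ∈ L.𝔤) (hZt : Zᵀ = -Z) (u v : KFin L π) :
    Bf L π μ ε w (A.D Z u) v + Bf L π μ ε w u (A.D Z v) = 0 := by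
  obtain ⟨hd, c1, c2, j1, j2, hB⟩ := m05_phi L π A hP μ ht hε hw hZ u v
  rw [hB]
  have hinv : ∀ (f : G → ℂ) (s : ℝ),
      ∫ g, ((Th L g ^ (-ε) : ℝ) : ℂ) * f (g * L.e (s • Z)) ∂μ =
      ∫ g, ((Th L g ^ (-ε) : ℝ) : ℂ) * f g ∂μ := by
    intro f s
    rw [← integral_mul_right_eq_self (fun g => ((Th L g ^ (-ε) : ℝ) : ℂ) * f g)
      (L.e (s • Z))]
    refine integral_congr_ae (Filter.Eventually.of_forall fun g => ?_)
    show _ = ((Th L (g * L.e (s • Z)) ^ (-ε) : ℝ) : ℂ) * f (g * L.e (s • Z))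
    rw [Th_K_right L (e_mem_K L hZ hZt s)]
  have h1 := m05_ftc L hZ μ hε _ _ c1 c2 hd j1 j2 zero_le_one
  simp only [hinv (fun x => (starRingEnd ℂ) (mc π w (u : H) x) * mc π w (v : H) x),
    hinv (fun x => (starRingEnd ℂ) (mc π w ((A.D Z u : KFin L π) : H) x) * mc π w (v : H) x +
        (starRingEnd ℂ) (mc π w (u : H) x) * mc π w ((A.D Z v : KFin L π) : H) x)] at h1
  rw [sub_self, setIntegral_const, Real.volume_real_Ioc_of_le zero_le_one, sub_zero,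
    one_smul] at h1
  exact h1.symm

end SBD
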