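import Pool.Agent.SBD.M04

/-!
# Row SBD-M07 : Hölder: `B_ε(v,v) ≤ C p^r(v)²` for `ε = a₀(1-2/r)`

`a₀` from `int_Th` (M03).  Let `θ = (1 - 2/r).toReal ∈ (0,1]` (`2/r < 1` as `r > 2`; `2/∞ = 0`), and
`ε = a₀θ`.  `B_ε(v,v) = ∫ Θ^{-ε}‖m_v‖²` (`Bf_self`).  For `r = ∞`: `θ = 1` and
`∫ Θ^{-a₀}‖m_v‖² ≤ (∫Θ^{-a₀}) ‖m_v‖_∞²` (`‖m_v(g)‖ ≤ eLpNorm … ∞` a.e.: `ae_le_eLpNormEssSup`, or
everywhere by continuity).  For `r < ∞`: Hölder with exponents `1/θ` and `r/2`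
(`ENNReal.lintegral_mul_le_Lp_mul_Lq`, `Real.HolderConjugate (1/θ) (r/2)`: `θ + 2/r = 1`):
`∫ Θ^{-ε}‖m_v‖² ≤ (∫ Θ^{-a₀})^θ (∫ ‖m_v‖^r)^{2/r}`.
-/

open MeasureTheory Filter Topology
open scoped ENNReal NNReal Matrix

noncomputable section

namespace SBD

variable {N : ℕ} {G : Type} [Group G] [TopologicalSpace G] [IsTopologicalGroup G]
  [LocallyCompactSpace G] [T2Space G]
variable [SecondCountableTopology G] [MeasurableSpace G] [BorelSpace G]
variable {H : Type} [NormedAddCommGroup H] [InnerProductSpace ℂ H] [CompleteSpace H]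

private theorem M07_rpow_top {α : Type*} [MeasurableSpace α] (μ : Measure α) (A : α → ℝ≥0∞)
    (hA : Measurable A) (f : α → ℂ) :
    ∫⁻ x, A x * ‖f x‖ₑ ^ 2 ∂μ ≤ (∫⁻ x, A x ∂μ) * (eLpNorm f ∞ μ) ^ 2 := by
  rw [← lintegral_mul_const _ hA]
  refine lintegral_mono_ae ?_
  filter_upwards [ae_le_eLpNormEssSup (f := f) (μ := μ)] with x hx
  rw [eLpNorm_exponent_top]
  exact mul_le_mul_right (pow_le_pow_left' hx 2) _

private theorem M07_rpow {α : Type*} [MeasurableSpace α] (μ : Measure α) (A : α → ℝ≥0∞)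
    (hA : Measurable A) (f : α → ℂ) (hf : AEStronglyMeasurable f μ) (r : ℝ≥0∞) (hr2 : 2 < r)
    (hrt : r ≠ ∞) :
    ∫⁻ x, A x ^ (1 - 2 / r).toReal * ‖f x‖ₑ ^ 2 ∂μ ≤
      (∫⁻ x, A x ∂μ) ^ (1 - 2 / r).toReal * (eLpNorm f r μ) ^ 2 := by
  have hr0 : r ≠ 0 := by
    rintro rfl
    exact absurd hr2 (by simp)
  have hr2' : 2 < r.toReal := by
    have h := (ENNReal.toReal_lt_toReal (by simp) hrt).2 hr2
    simpa using h
  have hθ : (1 - 2 / r).toReal = 1 - 2 / r.toReal := by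
    rw [ENNReal.toReal_sub_of_le, ENNReal.toReal_div]
    · simp
    · exact ENNReal.div_le_of_le_mul (by rw [one_mul]; exact hr2.le)
    · simp
  rw [hθ]
  set s := r.toReal with hs
  have hs0 : 0 < s := by linarith
  have hθ0 : 0 < 1 - 2 / s := by
    have : 2 / s < 1 := by
      rw [div_lt_one hs0]
      exact hr2'
    linarith
  have hpq : (1 / (1 - 2 / s)).HolderConjugate (s / 2) := by
    rw [Real.holderConjugate_iff]
    constructor
    · rw [lt_div_iff₀ hθ0]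
      have : 0 < 2 / s := by positivity
      linarith
    · rw [one_div, inv_inv, inv_div]
      ring
  have hm : AEMeasurable (fun x => ‖f x‖ₑ ^ 2) μ := (hf.enorm).pow_const 2
  have key := ENNReal.lintegral_mul_le_Lp_mul_Lq μ hpq
    (f := fun x => A x ^ (1 - 2 / s)) (g := fun x => ‖f x‖ₑ ^ 2)
    (hA.pow_const _).aemeasurable hm
  have e1 : ∀ x, (A x ^ (1 - 2 / s)) ^ (1 / (1 - 2 / s)) = A x := by
    intro x
    rw [← ENNReal.rpow_mul, mul_one_div_cancel hθ0.ne', ENNReal.rpow_one]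
  have e2 : ∀ x, (‖f x‖ₑ ^ 2) ^ (s / 2) = ‖f x‖ₑ ^ s := by
    intro x
    rw [← ENNReal.rpow_natCast, ← ENNReal.rpow_mul]
    congr 1
    push_cast
    field_simp
  have e3 : (1 : ℝ) / (1 / (1 - 2 / s)) = 1 - 2 / s := by
    rw [one_div_one_div]
  have e4 : (eLpNorm f r μ) ^ 2 = (∫⁻ x, ‖f x‖ₑ ^ s ∂μ) ^ (1 / (s / 2)) := by
    rw [eLpNorm_eq_lintegral_rpow_enorm_toReal hr0 hrt, ← hs, ← ENNReal.rpow_natCast,
      ← ENNReal.rpow_mul]
    congr 1
    push_cast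
    field_simp
  simp only [Pi.mul_apply, e1, e2, e3] at key
  rw [e4]
  exact key

theorem holder (L : LieData N G) (π : G →* (H ≃ₗᵢ[ℂ] H)) (A : LieRep N (KFin L π))
    (hP : IsPkg L π A) (μ : Measure G) [μ.IsHaarMeasure] (ht : Tempered L π μ) :
    ∃ a₀ : ℝ, 0 < a₀ ∧ ∀ r : ℝ≥0∞, 2 < r → ∀ w ∈ KFin L π, ∃ C : ℝ≥0, ∀ v : KFin L π,
      ENNReal.ofReal (Bf L π μ (a₀ * (1 - 2 / r).toReal) w v v).re ≤
        C * (pr π μ w r (v : H)) ^ 2 := by
  obtain ⟨a₀, ha₀, hint⟩ := int_Th L μ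
  refine ⟨a₀, ha₀, ?_⟩
  intro r hr w hw
  have hTh0 : ∀ g, 0 < Th L g := fun g => lt_of_lt_of_le one_pos (one_le_Th L g)
  have hTc : ∀ s : ℝ, Continuous fun g => Th L g ^ s := fun s =>
    (Th_cont L).rpow_const fun g => Or.inl (hTh0 g).ne'
  have hAm : Measurable fun g => ENNReal.ofReal (Th L g ^ (-a₀)) :=
    (hTc _).measurable.ennreal_ofReal
  have hθ0 : 0 < (1 - 2 / r).toReal := by
    refine ENNReal.toReal_pos ?_ ?_
    · refine (tsub_pos_of_lt ?_).ne'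
      rcases eq_or_ne r ∞ with h | h
      · rw [h]
        simp
      · exact (ENNReal.div_lt_iff (Or.inl (lt_trans (by norm_num) hr).ne') (Or.inl h)).2
          (by rw [one_mul]; exact hr)
    · exact (lt_of_le_of_lt tsub_le_self ENNReal.one_lt_top).ne
  have hε : 0 < a₀ * (1 - 2 / r).toReal := mul_pos ha₀ hθ0
  have hmain : ∀ v : KFin L π,
      ENNReal.ofReal (Bf L π μ (a₀ * (1 - 2 / r).toReal) w v v).re ≤
        ∫⁻ g, ENNReal.ofReal (Th L g ^ (-a₀)) ^ (1 - 2 / r).toReal *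
          ‖mc π w (v : H) g‖ₑ ^ 2 ∂μ := by
    intro v
    rw [Bf_self L π A hP μ ht hε hw v, Complex.ofReal_re]
    have hmc : Continuous fun g => mc π w (v : H) g :=
      continuous_const.inner (hP.cont (v : H))
    have hI : ∫ g, Th L g ^ (-(a₀ * (1 - 2 / r).toReal)) * ‖mc π w (v : H) g‖ ^ 2 ∂μ =
        (∫⁻ g, ENNReal.ofReal (Th L g ^ (-(a₀ * (1 - 2 / r).toReal)) *
          ‖mc π w (v : H) g‖ ^ 2) ∂μ).toReal :=
      integral_eq_lintegral_of_nonneg_ae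
        (Filter.Eventually.of_forall fun g =>
          mul_nonneg (Real.rpow_nonneg (hTh0 g).le _) (sq_nonneg _))
        (((hTc (-(a₀ * (1 - 2 / r).toReal))).mul (hmc.norm.pow 2)).aestronglyMeasurable)
    rw [hI]
    refine (ENNReal.ofReal_toReal_le).trans (le_of_eq ?_)
    refine lintegral_congr fun g => ?_
    rw [ENNReal.ofReal_mul (Real.rpow_nonneg (hTh0 g).le _)]
    congr 1
    · rw [ENNReal.ofReal_rpow_of_nonneg (Real.rpow_nonneg (hTh0 g).le _) hθ0.le,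
        ← Real.rpow_mul (hTh0 g).le]
      congr 2
      ring
    · rw [ENNReal.ofReal_pow (norm_nonneg _), ofReal_norm]
  rcases eq_or_ne r ∞ with hrt | hrt
  · refine ⟨(∫⁻ g, ENNReal.ofReal (Th L g ^ (-a₀)) ∂μ).toNNReal, fun v => ?_⟩
    refine (hmain v).trans ?_
    rw [ENNReal.coe_toNNReal hint.ne]
    have h1 : (1 - 2 / r).toReal = 1 := by
      rw [hrt]
      simp
    rw [h1]
    simp only [ENNReal.rpow_one]
    unfold pr
    rw [hrt]
    exact M07_rpow_top μ _ hAm _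
  · refine ⟨((∫⁻ g, ENNReal.ofReal (Th L g ^ (-a₀)) ∂μ) ^ (1 - 2 / r).toReal).toNNReal,
      fun v => ?_⟩
    refine (hmain v).trans ?_
    rw [ENNReal.coe_toNNReal (ENNReal.rpow_ne_top_of_nonneg hθ0.le hint.ne)]
    exact M07_rpow μ _ hAm _ (continuous_const.inner (hP.cont (v : H))).aestronglyMeasurable r hr hrt

end SBD
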