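import Pool.Agent.SBD.M06
import Pool.Agent.SBD.M07
import Pool.Agent.SBD.A16
import Pool.Agent.SBD.P16

/-!
# Row SBD-M08 : the upper bound `d_→([q],[p^r]) ≤ C (1 - 2/r)`

PROOF.  `a` from `A.chain_sob hP.adm` (A16), `a₀` from `holder` (M07); `C = 2 a a₀ (+1)`; let `r > 2`,
`w ∈ V`, `w ≠ 0`, `θ = (1-2/r).toReal > 0`, `ε = a₀θ > 0`.  `B = Bf L π μ ε w` is `AlmostInv (2ε)` (M06).
Put `S = a·2ε = 2aa₀θ`.  If `u ∈ V` and `Sob L π S u v`, by `sob_iff` (P16) `u = ∑ f l`,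
`v = ∑ l^{S/2} f l`, and `chain_sob` gives `‖u‖² ≤ C₁ Re B(v,v) ≤ C₁ C₂ p^r(v)²` (M07).  So
`q(u) ≤ √(C₁C₂) p^r(v)`: `ofReal S` belongs to the set whose infimum is `dTo L π qn (pr π μ w r)`, and
`ofReal S = ofReal (2aa₀) * (1 - 2/r)`.
-/

open MeasureTheory Filter Topology
open scoped ENNReal NNReal Matrix

noncomputable section

namespace SBD

variable {N : ℕ} {G : Type} [Group G] [TopologicalSpace G] [IsTopologicalGroup G]
  [LocallyCompactSpace G] [T2Space G]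
variable [SecondCountableTopology G] [MeasurableSpace G] [BorelSpace G]
variable {H : Type} [NormedAddCommGroup H] [InnerProductSpace ℂ H] [CompleteSpace H]

theorem upper (L : LieData N G) (π : G →* (H ≃ₗᵢ[ℂ] H)) (A : LieRep N (KFin L π))
    (hP : IsPkg L π A) (μ : Measure G) [μ.IsHaarMeasure] [μ.IsMulRightInvariant]
    (ht : Tempered L π μ) :
    ∃ C : ℝ, 0 < C ∧ ∀ r : ℝ≥0∞, 2 < r → ∀ w ∈ KFin L π, w ≠ 0 →
      dTo L π qn (pr π μ w r) ≤ ENNReal.ofReal C * (1 - 2 / r) := by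
  obtain ⟨a, ha, hchain⟩ := A.chain_sob hP.adm
  obtain ⟨a₀, ha₀, hholder⟩ := holder L π A hP μ ht
  refine ⟨2 * a * a₀, by positivity, ?_⟩
  intro r hr w hw hw0
  have hne : (1 - 2 / r : ℝ≥0∞) ≠ ∞ := ne_top_of_le_ne_top ENNReal.one_ne_top tsub_le_self
  have hlt : (2 / r : ℝ≥0∞) < 1 := by
    rw [ENNReal.div_lt_iff (Or.inr (by norm_num)) (Or.inr (by norm_num))]
    rwa [one_mul]
  have hpos : (0 : ℝ≥0∞) < 1 - 2 / r := tsub_pos_of_lt hlt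
  set θ : ℝ := (1 - 2 / r : ℝ≥0∞).toReal with hθ
  have hθ0 : 0 < θ := ENNReal.toReal_pos hpos.ne' hne
  have hθe : (1 - 2 / r : ℝ≥0∞) = ENNReal.ofReal θ := (ENNReal.ofReal_toReal hne).symm
  have hε : 0 < a₀ * θ := by positivity
  have hB := almostInv L π A hP μ ht hε hw hw0
  obtain ⟨C1, hC1, h1, -⟩ := hchain (2 * (a₀ * θ)) (by positivity) _ hB
  obtain ⟨C2, h2⟩ := hholder r hr w hw
  have hS0 : 0 ≤ a * (2 * (a₀ * θ)) := by positivity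
  apply sInf_le
  refine ⟨a * (2 * (a₀ * θ)), hS0, ?_, ?_⟩
  · rw [hθe, ← ENNReal.ofReal_mul (by positivity)]
    congr 1
    ring
  · refine ⟨NNReal.sqrt (C1.toNNReal * C2), ?_⟩
    intro u v hu hS
    obtain ⟨s, f, hf, hu', hv'⟩ := (sob_iff L π A hP _ u v).1 hS
    have h3 := h1 (a * (2 * (a₀ * θ))) le_rfl s f (fun l hl => (hf l hl).2)
    set V : KFin L π := ∑ l ∈ s, ((l ^ (a * (2 * (a₀ * θ)) / 2) : ℝ) : ℂ) • f l with hV
    have h4 := h2 V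
    rw [← hv'] at h4
    rw [← ENNReal.pow_le_pow_left_iff (n := 2) two_ne_zero, mul_pow]
    have hsq : ((NNReal.sqrt (C1.toNNReal * C2) : ℝ≥0) : ℝ≥0∞) ^ 2 =
        ENNReal.ofReal C1 * (C2 : ℝ≥0∞) := by
      rw [← ENNReal.coe_pow, NNReal.sq_sqrt, ENNReal.coe_mul]
      rfl
    rw [hsq]
    have hq : qn u ^ 2 = ENNReal.ofReal (‖∑ l ∈ s, f l‖ ^ 2) := by
      rw [ENNReal.ofReal_pow (norm_nonneg _), ofReal_norm, hu']
      rfl
    rw [hq]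
    calc ENNReal.ofReal (‖∑ l ∈ s, f l‖ ^ 2)
        ≤ ENNReal.ofReal (C1 * (Bf L π μ (a₀ * θ) w V V).re) := ENNReal.ofReal_le_ofReal h3
      _ = ENNReal.ofReal C1 * ENNReal.ofReal (Bf L π μ (a₀ * θ) w V V).re :=
          ENNReal.ofReal_mul (by linarith)
      _ ≤ ENNReal.ofReal C1 * (C2 * (pr π μ w r v) ^ 2) := mul_le_mul_right h4 _
      _ = ENNReal.ofReal C1 * C2 * (pr π μ w r v) ^ 2 := by rw [mul_assoc]

end SBD
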