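import Pool.Agent.SBD.Q01

/-!
# The `LieRep` of a smooth space of vectors
-/

open MeasureTheory Filter Topology
open scoped ENNReal NNReal Matrix

noncomputable section

namespace SBD

variable {N : ℕ} {G : Type} [Group G] [TopologicalSpace G] [IsTopologicalGroup G]
  [LocallyCompactSpace G] [T2Space G]
variable {H : Type} [NormedAddCommGroup H] [InnerProductSpace ℂ H] [CompleteSpace H]

variable (L : LieData N G) (π : G →* (H ≃ₗᵢ[ℂ] H)) (B : Bases L) (E : Submodule ℂ H)
  (D : Mat N →ₗ[ℝ] (E →ₗ[ℂ] E)) (hD : DifE L π E D)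

/-- The `LieRep` of a smooth space of vectors. -/
def mkRep : LieRep N E where
  𝔤 := L.𝔤
  br := L.bracket_mem
  m := B.m
  n := B.n
  Z := B.Z
  P := B.P
  Z_mem := B.Z_mem
  P_mem := B.P_mem
  Z_t := B.Z_t
  P_t := B.P_t
  Z_o := B.Z_o
  P_o := B.P_o
  basis := B.basis
  D := D
  skew := fun _ hX u v => difE_skew L π E D hD hX u v
  brD := fun _ hX _ hY v => difE_bracket L π E D hD hX hY v

end SBD
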