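import Pool.Agent.SBD.P01

/-!
# Row SBD-P02 : a `K`-conjugation invariant sheet of `ι` around `1`

PROOF.  (1) `ι` is injective on some neighbourhood `O₂` of `1`: there is a neighbourhood `U` of `0` in
`Mat N` on which `NormedSpace.exp` is injective (strict derivative `1` at `0`:
`HasStrictFDerivAt.injOn…`/inverse function theorem, `hasStrictFDerivAt_exp_zero`; use a normed
algebra structure on `Matrix`, e.g. `open scoped Matrix.Norms.Operator` or
`Matrix.linftyOpNormedAlgebra` as local instances: the topology is the usual one), and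
`O₂ = e '' (U ∩ 𝔤)` is a neighbourhood of `1` (`e_nhds`); if `ι(e X) = ι(e Y)`, `X, Y ∈ U ∩ 𝔤`, then
`exp X = exp Y`, so `X = Y`.
(2) Let `O₃ ⊂ O ∩ O₂` be an open neighbourhood of `1` with compact closure contained in `O ∩ O₂`
(locally compact Hausdorff; use the interior of a compact neighbourhood contained in `O ∩ O₂`).
Put `O' = {x | ∀ k ∈ K, k x k⁻¹ ∈ O₃}`: contained in `O₃`, contains `1`, `K`-conjugation invariant,
and open because `K` is compact (`generalized_tube_lemma`, or: its complement is the image of the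
closed set `{(k,x) : k ∈ K, k x k⁻¹ ∉ O₃}` under the projection along the compact space `K`,
`isClosedMap_snd_of_compactSpace`).
(3) `closure O'` is compact and contained in `O₂`; `closure O' \ O'` is compact and does not contain
`1`, so (injectivity on `O₂`) the continuous function `x ↦ fsq (ι x - 1)` is positive on it
(`fsq M = ∑ M_ij² = 0 ↔ M = 0`), so it is `> 2ρ` there for some `ρ > 0` (if the set is empty take
`ρ = 1`).  Then `{x ∈ O' | fsq (ι x - 1) ≤ ρ} = {x ∈ closure O' | fsq (ι x - 1) ≤ ρ}` is compact.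
-/

open MeasureTheory Filter Topology
open scoped ENNReal NNReal Matrix

noncomputable section

namespace SBD

variable {N : ℕ} {G : Type} [Group G] [TopologicalSpace G] [IsTopologicalGroup G]
  [LocallyCompactSpace G] [T2Space G]

section
open scoped Matrix.Norms.Operator

theorem P02_exp_inj_aux (N : ℕ) :
    ∃ U ∈ 𝓝 (0 : Mat N), Set.InjOn (NormedSpace.exp : Mat N → Mat N) U := by
  have h : HasStrictFDerivAt (NormedSpace.exp : Mat N → Mat N)
      ((ContinuousLinearEquiv.refl ℝ (Mat N) : Mat N ≃L[ℝ] Mat N) : Mat N →L[ℝ] Mat N) 0 :=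
    hasStrictFDerivAt_exp_zero
  exact ⟨_, (h.toOpenPartialHomeomorph _).open_source.mem_nhds h.mem_toOpenPartialHomeomorph_source,
    (h.toOpenPartialHomeomorph _).injOn⟩

end

/-- the exponential map is injective near `0` -/
theorem P02_exp_inj (N : ℕ) :
    ∃ U ∈ 𝓝 (0 : Mat N), Set.InjOn (NormedSpace.exp : Mat N → Mat N) U :=
  P02_exp_inj_aux N

theorem P02_fsq_eq (M : Mat N) : fsq M = ∑ p : Fin N × Fin N, M p.1 p.2 * M p.1 p.2 :=
  P01_fip_eq M M

theorem P02_fsq_nonneg (M : Mat N) : 0 ≤ fsq M := by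
  rw [P02_fsq_eq]
  exact Finset.sum_nonneg fun p _ => mul_self_nonneg _

theorem P02_fsq_eq_zero (M : Mat N) (h : fsq M = 0) : M = 0 := by
  rw [P02_fsq_eq, Finset.sum_eq_zero_iff_of_nonneg fun p _ => mul_self_nonneg _] at h
  ext i j
  exact mul_self_eq_zero.1 (h (i, j) (Finset.mem_univ _))

theorem P02_fsq_cont : Continuous (fsq : Mat N → ℝ) := by
  have h : (fsq : Mat N → ℝ) = fun M => ∑ p : Fin N × Fin N, M p.1 p.2 * M p.1 p.2 :=
    funext P02_fsq_eq
  rw [h]
  refine continuous_finsetSum _ fun p _ => ?_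
  exact (continuous_id.matrix_elem p.1 p.2).mul (continuous_id.matrix_elem p.1 p.2)

theorem sheet (L : LieData N G) (O : Set G) (hO : O ∈ 𝓝 (1 : G)) :
    ∃ O' : Set G, O' ⊆ O ∧ IsOpen O' ∧ (1 : G) ∈ O' ∧
      (∀ k ∈ L.K, ∀ x ∈ O', k * x * k⁻¹ ∈ O') ∧
      ∃ ρ : ℝ, 0 < ρ ∧ IsCompact {x : G | x ∈ O' ∧ fsq (L.ι x - 1) ≤ ρ} := by
  obtain ⟨U, hU, hUi⟩ := P02_exp_inj N
  have hO2 := L.e_nhds U hU
  set O2 : Set G := L.e '' (U ∩ L.𝔤) with hO2d
  have hinj : Set.InjOn L.ι O2 := by
    rintro x ⟨X, ⟨hXU, hXg⟩, rfl⟩ y ⟨Y, ⟨hYU, hYg⟩, rfl⟩ hxy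
    rw [L.ι_e X hXg, L.ι_e Y hYg] at hxy
    rw [hUi hXU hYU hxy]
  obtain ⟨C, hC, hCs, hCc⟩ := local_compact_nhds (Filter.inter_mem hO hO2)
  have h1O2 : (1 : G) ∈ O2 := mem_of_mem_nhds hO2
  set O' : Set G := {x | ∀ k ∈ L.K, k * x * k⁻¹ ∈ interior C} with hO'
  have hsub : O' ⊆ interior C := by
    intro x hx
    have := hx 1 L.K.one_mem
    simpa using this
  have hopen : IsOpen O' := by
    rw [isOpen_iff_forall_mem_open]
    intro x hx
    have hn : IsOpen {p : G × G | p.1 * p.2 * p.1⁻¹ ∈ interior C} :=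
      isOpen_interior.preimage
        ((continuous_fst.mul continuous_snd).mul continuous_fst.inv)
    obtain ⟨u, v, -, hv, hu', hv', huv⟩ := generalized_tube_lemma (K_compact L)
      (isCompact_singleton (x := x)) hn (by
        rintro ⟨k, y⟩ ⟨hk, hy⟩
        rw [Set.mem_singleton_iff] at hy
        subst hy
        exact hx k hk)
    refine ⟨v, fun y hy k hk => ?_, hv, hv' rfl⟩
    exact huv (Set.mk_mem_prod (hu' hk) hy)
  have hone : (1 : G) ∈ O' := by
    intro k _
    rw [mul_one, mul_inv_cancel]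
    exact mem_interior_iff_mem_nhds.2 hC
  refine ⟨O', hsub.trans (interior_subset.trans (hCs.trans Set.inter_subset_left)), hopen, hone,
    ?_, ?_⟩
  · intro k hk x hx k' hk'
    have h := hx (k' * k) (L.K.mul_mem hk' hk)
    rw [mul_inv_rev] at h
    simpa only [mul_assoc] using h
  · have hcl : closure O' ⊆ C := by
      have h1 : closure O' ⊆ closure C := closure_mono (hsub.trans interior_subset)
      rwa [hCc.isClosed.closure_eq] at h1
    have hclc : IsCompact (closure O') := hCc.of_isClosed_subset isClosed_closure hcl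
    have hf : Continuous fun x : G => fsq (L.ι x - 1) :=
      P02_fsq_cont.comp (L.ι_cont.sub continuous_const)
    have hD : IsCompact (closure O' \ O') := hclc.diff hopen
    have hpos : ∀ x ∈ closure O' \ O', 0 < fsq (L.ι x - 1) := by
      intro x hx
      refine lt_of_le_of_ne (P02_fsq_nonneg _) fun h0 => hx.2 ?_
      have h1 : L.ι x - 1 = 0 := P02_fsq_eq_zero _ h0.symm
      have h2 : L.ι x = L.ι 1 := by
        rw [map_one]
        exact sub_eq_zero.1 h1
      rw [hinj (hCs (hcl hx.1)).2 h1O2 h2]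
      exact hone
    obtain ⟨r, hr, hrD⟩ := hD.exists_forall_le' hf.continuousOn hpos
    refine ⟨r / 2, by linarith, ?_⟩
    have heq : {x : G | x ∈ O' ∧ fsq (L.ι x - 1) ≤ r / 2} =
        closure O' ∩ {x | fsq (L.ι x - 1) ≤ r / 2} := by
      ext x
      constructor
      · rintro ⟨h1, h2⟩
        exact ⟨subset_closure h1, h2⟩
      · rintro ⟨h1, h2⟩
        refine ⟨?_, h2⟩
        by_contra h3
        have h4 := hrD x ⟨h1, h3⟩
        have h5 : fsq (L.ι x - 1) ≤ r / 2 := h2
        linarith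
    rw [heq]
    exact hclc.inter_right (isClosed_le hf continuous_const)

end SBD
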