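import Pool.Agent.SBD.P02

/-!
# Row SBD-P03 : bump functions

PROOF.  `O', ρ` from P02.  Let `φ : ℝ → ℝ` be smooth, `0 ≤ φ`, `φ = 1` near `0`, `φ(s) = 0` for
`s ≥ ρ/2` (e.g. `φ s = Real.smoothTransition (2 - 4 s/ρ)`: it is 1 for `s ≤ ρ/4`, 0 for `s ≥ ρ/2`).
Put `f₀(x) = φ(fsq(ι x - 1))` for `x ∈ O'` and `0` otherwise.
Let `S = {x ∈ O' | fsq(ι x - 1) ≤ ρ}` (compact), `S' = {x ∈ O' | fsq(ι x-1) ≤ ρ/2}` (closed subset of
`S`, compact).  `f₀ = 0` outside `S'`; `f₀` is continuous on the open set `O'` and on the open set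
`S'ᶜ`, which cover `G`.  `f₀(1) = 1`, so `∫ f₀ > 0`; `f = f₀/∫f₀`.  Conjugation invariance:
`ι(kxk⁻¹) - 1 = ι(k)(ι(x) - 1)ι(k)ᵀ` and `fsq(k M kᵀ) = fsq M` for orthogonal `k` (P01 `fip_ad_K`),
and `O'` is invariant (`kxk⁻¹ ∈ O' ↔ x ∈ O'`, apply the invariance to `k⁻¹` for the converse).
`Lf₀ X x = φ'(fsq(ι x - 1)) · 2 fip (ι x - 1) (X ι x)` on `O'`, `0` outside (linear in `X`, continuous,
supported in `S'`, same argument).
Uniform derivative: let `X ∈ 𝔤`.  Choose `δ₀ > 0` with `e(tX) S' ⊂ O'` for `|t| ≤ δ₀` (tube lemma: `S'`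
compact, `(t,x) ↦ e(tX)x` continuous, `e 0 = 1`).  For `|t| ≤ δ₀`:
 * `x ∉ O'`: `f₀ x = 0`, `Lf₀ X x = 0`; and `f₀(e(tX)x) = 0`, otherwise `e(tX)x ∈ S'`, so
   `x = e(-tX)(e(tX)x) ∈ O'`.
 * `x ∈ O'`, `e(tX)x ∉ O'`: `f₀(e(tX)x) = 0` and `x ∉ S'`, so `f₀ x = 0 = Lf₀ X x`
   (`φ' = 0` on `(ρ/2,∞)`).
 * `x ∈ O'`, `e(tX)x ∈ O'`: with `M = ι x`, `f₀(e(tX)x) = h_M(t) := φ(fsq(exp(tX)M - 1))`, and
   `f₀ x = h_M(0)`, `Lf₀ X x = h_M'(0)`.  If `fsq(M - 1) > ρ` and `t` is small, uniformly in `M`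
   [`fsq(exp(tX)M-1)^{1/2} ≥ fsq(M-1)^{1/2} - ‖exp(tX)-1‖ fsq(M)^{1/2}` and
   `fsq(M)^{1/2} ≤ fsq(M-1)^{1/2} + √N`], all terms are `0`.  If `fsq(M-1) ≤ ρ`, `M` is in a compact
   set `Q` and `(t,M) ↦ h_M(t)` is smooth in `t` with second derivative continuous in `(t,M)`, so
   bounded on `[-1,1] × Q` by some `C`, and `|h_M(t) - h_M(0) - t h_M'(0)| ≤ C t²`
   (or: use uniform continuity of `(t,M) ↦ h_M'(t)` on the compact set and the mean value
   inequality).  So `δ = min(δ₀, η/C, …)`.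
-/

open MeasureTheory Filter Topology
open scoped ENNReal NNReal Matrix

noncomputable section

namespace SBD

variable {N : ℕ} {G : Type} [Group G] [TopologicalSpace G] [IsTopologicalGroup G]
  [LocallyCompactSpace G] [T2Space G]
variable [SecondCountableTopology G] [MeasurableSpace G] [BorelSpace G]

section
open scoped Matrix.Norms.Operator

omit [SecondCountableTopology G] [MeasurableSpace G] [BorelSpace G] in
theorem P03_exp_entry_aux (N : ℕ) (X M : Mat N) (i j : Fin N) :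
    HasDerivAt (fun t : ℝ => (NormedSpace.exp (t • X) * M) i j) ((X * M) i j) 0 := by
  have h : HasDerivAt (fun t : ℝ => NormedSpace.exp (t • X)) X 0 := by
    have h1 := hasDerivAt_exp_smul_const (𝕂 := ℝ) X (0 : ℝ)
    rwa [zero_smul, NormedSpace.exp_zero, one_mul] at h1
  let l : Mat N →ₗ[ℝ] ℝ :=
    { toFun := fun A => (A * M) i j
      map_add' := fun A B => by rw [Matrix.add_mul, Matrix.add_apply]
      map_smul' := fun c A => by rw [Matrix.smul_mul, Matrix.smul_apply, RingHom.id_apply] }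
  exact l.toContinuousLinearMap.hasFDerivAt.comp_hasDerivAt 0 h

end

theorem P03_exp_entry (N : ℕ) (X M : Mat N) (i j : Fin N) :
    HasDerivAt (fun t : ℝ => (NormedSpace.exp (t • X) * M) i j) ((X * M) i j) 0 :=
  P03_exp_entry_aux N X M i j

theorem P03_fsq_deriv (N : ℕ) (X M : Mat N) :
    HasDerivAt (fun t : ℝ => fsq (NormedSpace.exp (t • X) * M - 1))
      (2 * fip (M - 1) (X * M)) 0 := by
  have h : ∀ p : Fin N × Fin N, HasDerivAt
      (fun t : ℝ => (NormedSpace.exp (t • X) * M - 1) p.1 p.2) ((X * M) p.1 p.2) 0 := by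
    intro p
    have h1 := (P03_exp_entry N X M p.1 p.2).sub_const ((1 : Mat N) p.1 p.2)
    exact h1
  have h0 : NormedSpace.exp ((0 : ℝ) • X) * M - 1 = M - 1 := by
    rw [zero_smul, NormedSpace.exp_zero, Matrix.one_mul]
  have h2 := HasDerivAt.fun_sum (u := (Finset.univ : Finset (Fin N × Fin N)))
    fun p _ => (h p).mul (h p)
  have h3 : (fun t : ℝ => fsq (NormedSpace.exp (t • X) * M - 1)) = fun t : ℝ =>
      ∑ p : Fin N × Fin N, (NormedSpace.exp (t • X) * M - 1) p.1 p.2 *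
        (NormedSpace.exp (t • X) * M - 1) p.1 p.2 := by
    funext t
    exact P02_fsq_eq _
  rw [h3]
  refine h2.congr_deriv ?_
  rw [h0, P01_fip_eq, Finset.mul_sum]
  refine Finset.sum_congr rfl fun p _ => ?_
  ring

theorem P03_fip_cont {Y : Type*} [TopologicalSpace Y] {f g : Y → Mat N} (hf : Continuous f)
    (hg : Continuous g) : Continuous fun y => fip (f y) (g y) := by
  have h : (fun y => fip (f y) (g y)) =
      fun y => ∑ p : Fin N × Fin N, f y p.1 p.2 * g y p.1 p.2 :=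
    funext fun y => P01_fip_eq _ _
  rw [h]
  refine continuous_finsetSum _ fun p _ => ?_
  exact (hf.matrix_elem p.1 p.2).mul (hg.matrix_elem p.1 p.2)

/-- a function cut off at an open set -/
theorem P03_ind {O' S' : Set G} (hO : IsOpen O') (hS : IsCompact S') (hSO : S' ⊆ O') {F : G → ℝ}
    (hF : Continuous F) (h0 : ∀ x ∈ O', x ∉ S' → F x = 0) :
    Continuous (Set.indicator O' F) ∧ HasCompactSupport (Set.indicator O' F) ∧
      ∀ x, x ∉ S' → Set.indicator O' F x = 0 := by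
  have hz : ∀ x, x ∉ S' → Set.indicator O' F x = 0 := by
    intro x hx
    by_cases h : x ∈ O'
    · rw [Set.indicator_of_mem h]
      exact h0 x h hx
    · exact Set.indicator_of_notMem h F
  refine ⟨?_, HasCompactSupport.intro hS hz, hz⟩
  rw [continuous_iff_continuousAt]
  intro x
  by_cases h : x ∈ O'
  · refine hF.continuousAt.congr ?_
    filter_upwards [hO.mem_nhds h] with y hy
    exact (Set.indicator_of_mem hy F).symm
  · have hx : x ∈ S'ᶜ := fun h1 => h (hSO h1)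
    refine (continuousAt_const (y := (0 : ℝ))).congr ?_
    filter_upwards [hS.isClosed.isOpen_compl.mem_nhds hx] with y hy
    exact (hz y hy).symm

open scoped Pointwise in
/-- left uniform continuity -/
theorem P03_unif {h : G → ℝ} (hc : Continuous h) (hs : HasCompactSupport h) {η : ℝ} (hη : 0 < η) :
    ∃ V ∈ 𝓝 (1 : G), ∀ u ∈ V, ∀ x, |h (u * x) - h x| ≤ η := by
  obtain ⟨W0, hW0, hW1⟩ := exists_compact_mem_nhds (1 : G)
  have hS : IsCompact (tsupport h) := hs
  have hQ : IsCompact (W0⁻¹ * tsupport h ∪ tsupport h) := (hW0.inv.mul hS).union hS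
  have hn : IsOpen {p : G × G | |h (p.1 * p.2) - h p.2| < η} :=
    isOpen_lt (((hc.comp (continuous_fst.mul continuous_snd)).sub
      (hc.comp continuous_snd)).abs) continuous_const
  obtain ⟨u, v, hu, -, hu1, hv1, huv⟩ := generalized_tube_lemma
    (isCompact_singleton (x := (1 : G))) hQ hn (by
      rintro ⟨k, y⟩ ⟨hk, -⟩
      rw [Set.mem_singleton_iff] at hk
      change |h (k * y) - h y| < η
      rw [show k = 1 from hk, one_mul, sub_self, abs_zero]
      exact hη)
  refine ⟨u ∩ W0, Filter.inter_mem (hu.mem_nhds (hu1 rfl)) hW1, fun a ha x => ?_⟩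
  by_cases hx : x ∈ W0⁻¹ * tsupport h ∪ tsupport h
  · have h1 : (a, x) ∈ {p : G × G | |h (p.1 * p.2) - h p.2| < η} :=
      huv (Set.mk_mem_prod ha.1 (hv1 hx))
    exact le_of_lt h1
  · have h1 : x ∉ tsupport h := fun h2 => hx (Or.inr h2)
    have h2 : a * x ∉ tsupport h := by
      intro h3
      refine hx (Or.inl ?_)
      rw [Set.mem_mul]
      exact ⟨a⁻¹, Set.inv_mem_inv.2 ha.2, a * x, h3, by group⟩
    rw [image_eq_zero_of_notMem_tsupport h1, image_eq_zero_of_notMem_tsupport h2, sub_self,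
      abs_zero]
    exact hη.le

/-- from the derivative at each point to the uniform derivative -/
theorem P03_uniform_deriv (L : LieData N G) {X : Mat N} (hX : X ∈ L.𝔤) {f h : G → ℝ}
    (hd : ∀ x, HasDerivAt (fun t : ℝ => f (L.e (t • X) * x)) (h x) 0) (hc : Continuous h)
    (hs : HasCompactSupport h) {η : ℝ} (hη : 0 < η) :
    ∃ δ : ℝ, 0 < δ ∧ ∀ t : ℝ, |t| ≤ δ → ∀ x, |f (L.e (t • X) * x) - f x - t * h x| ≤ η * |t| := by
  obtain ⟨V, hV, hVu⟩ := P03_unif hc hs hη
  have hcont := e_line_cont L hX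
  have h1 : (fun t : ℝ => L.e (t • X)) ⁻¹' V ∈ 𝓝 (0 : ℝ) := by
    refine hcont.continuousAt.preimage_mem_nhds ?_
    rw [zero_smul, e_zero]
    exact hV
  obtain ⟨δ, hδ, hδV⟩ := Metric.mem_nhds_iff.1 h1
  refine ⟨δ / 2, by linarith, fun t ht x => ?_⟩
  have hall : ∀ s : ℝ, HasDerivAt (fun t : ℝ => f (L.e (t • X) * x)) (h (L.e (s • X) * x)) s := by
    intro s
    have h2 := hd (L.e (s • X) * x)
    have h3 : HasDerivAt (fun t : ℝ => f (L.e (t • X) * (L.e (s • X) * x)))
        (h (L.e (s • X) * x)) (s - s) := by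
      rw [sub_self]
      exact h2
    have h4 := h3.comp_sub_const s s
    refine h4.congr_of_eventuallyEq (Filter.Eventually.of_forall fun r => ?_)
    change f (L.e (r • X) * x) = f (L.e ((r - s) • X) * (L.e (s • X) * x))
    rw [← mul_assoc, ← L.e_add X hX, sub_add_cancel]
  have hall2 : ∀ s : ℝ, HasDerivAt (fun t : ℝ => f (L.e (t • X) * x) - t * h x)
      (h (L.e (s • X) * x) - h x) s := by
    intro s
    have h2 := (hall s).sub ((hasDerivAt_id s).mul_const (h x))
    rw [one_mul] at h2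
    exact h2
  have hb : ∀ s ∈ Set.Icc (-(δ / 2)) (δ / 2), ‖h (L.e (s • X) * x) - h x‖ ≤ η := by
    intro s hs
    rw [Real.norm_eq_abs]
    refine hVu _ (hδV ?_) x
    rw [Metric.mem_ball, Real.dist_eq, sub_zero]
    have : |s| ≤ δ / 2 := abs_le.2 hs
    linarith
  have h5 := (convex_Icc (-(δ / 2)) (δ / 2)).norm_image_sub_le_of_norm_hasDerivWithin_le
    (fun s _ => (hall2 s).hasDerivWithinAt) hb
    (show (0 : ℝ) ∈ Set.Icc (-(δ / 2)) (δ / 2) from ⟨by linarith, by linarith⟩)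
    (show t ∈ Set.Icc (-(δ / 2)) (δ / 2) from abs_le.1 ht)
  rw [zero_smul, e_zero, one_mul, zero_mul, sub_zero, sub_zero, Real.norm_eq_abs,
    Real.norm_eq_abs] at h5
  have h6 : f (L.e (t • X) * x) - t * h x - f x = f (L.e (t • X) * x) - f x - t * h x := by ring
  rwa [h6] at h5

/-- the profile -/
def P03_phi (ρ s : ℝ) : ℝ := Real.smoothTransition (2 - 8 * s / ρ)

theorem P03_phi_contDiff (ρ : ℝ) : ContDiff ℝ 1 (P03_phi ρ) := by
  unfold P03_phi
  refine Real.smoothTransition.contDiff.comp ?_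
  exact contDiff_const.sub ((contDiff_const.mul contDiff_id).div_const ρ)

theorem P03_phi_nonneg (ρ s : ℝ) : 0 ≤ P03_phi ρ s := Real.smoothTransition.nonneg _

theorem P03_phi_zero (ρ s : ℝ) (hρ : 0 < ρ) (hs : ρ / 4 ≤ s) : P03_phi ρ s = 0 := by
  unfold P03_phi
  refine Real.smoothTransition.zero_of_nonpos ?_
  have h : 2 ≤ 8 * s / ρ := by
    rw [le_div_iff₀ hρ]
    linarith
  linarith

theorem P03_phi_one (ρ : ℝ) : P03_phi ρ 0 = 1 := by
  unfold P03_phi
  refine Real.smoothTransition.one_of_one_le ?_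
  rw [mul_zero, zero_div]
  norm_num

theorem P03_phi_deriv (ρ s : ℝ) (hρ : 0 < ρ) (hs : ρ / 4 < s) : deriv (P03_phi ρ) s = 0 := by
  have h : P03_phi ρ =ᶠ[𝓝 s] fun _ => (0 : ℝ) := by
    filter_upwards [lt_mem_nhds hs] with r hr
    exact P03_phi_zero ρ r hρ hr.le
  rw [h.deriv_eq, deriv_const]

theorem bump (L : LieData N G) (μ : Measure G) [μ.IsHaarMeasure] (O : Set G)
    (hO : O ∈ 𝓝 (1 : G)) : ∃ (f : G → ℝ) (Lf : Mat N → G → ℝ), Bump L μ O f Lf := by
  obtain ⟨O', hO'O, hO'o, hO'1, hO'K, ρ, hρ, hS⟩ := sheet L O hO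
  set S' : Set G := {x : G | x ∈ O' ∧ fsq (L.ι x - 1) ≤ ρ} with hS'
  have hSO : S' ⊆ O' := fun x hx => hx.1
  have hfc : Continuous fun x : G => fsq (L.ι x - 1) :=
    P02_fsq_cont.comp (L.ι_cont.sub continuous_const)
  have hphi := P03_phi_contDiff ρ
  set F : G → ℝ := fun x => P03_phi ρ (fsq (L.ι x - 1)) with hF
  set FX : Mat N → G → ℝ := fun X x =>
    deriv (P03_phi ρ) (fsq (L.ι x - 1)) * (2 * fip (L.ι x - 1) (X * L.ι x)) with hFX
  have hFc : Continuous F := hphi.continuous.comp hfc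
  have hFXc : ∀ X, Continuous (FX X) := by
    intro X
    refine ((hphi.continuous_deriv le_rfl).comp hfc).mul (continuous_const.mul ?_)
    exact P03_fip_cont (L.ι_cont.sub continuous_const) (continuous_const.matrix_mul L.ι_cont)
  have hbig : ∀ x ∈ O', x ∉ S' → ρ < fsq (L.ι x - 1) := by
    intro x hx hxS
    by_contra h
    push Not at h
    exact hxS ⟨hx, h⟩
  have hF0 : ∀ x ∈ O', x ∉ S' → F x = 0 := by
    intro x hx hxS
    have h := hbig x hx hxS
    exact P03_phi_zero ρ _ hρ (by linarith)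
  have hFX0 : ∀ X, ∀ x ∈ O', x ∉ S' → FX X x = 0 := by
    intro X x hx hxS
    have h := hbig x hx hxS
    change deriv (P03_phi ρ) (fsq (L.ι x - 1)) * (2 * fip (L.ι x - 1) (X * L.ι x)) = 0
    rw [P03_phi_deriv ρ _ hρ (by linarith), zero_mul]
  obtain ⟨f0c, f0s, f0z⟩ := P03_ind hO'o hS hSO hFc hF0
  have hL0 := fun X => P03_ind hO'o hS hSO (hFXc X) (hFX0 X)
  set f0 : G → ℝ := Set.indicator O' F with hf0
  set L0 : Mat N → G → ℝ := fun X => Set.indicator O' (FX X) with hL0d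
  have hnn : ∀ x, 0 ≤ f0 x := by
    intro x
    exact Set.indicator_nonneg (fun y _ => P03_phi_nonneg ρ _) x
  have h01 : f0 1 = 1 := by
    rw [hf0, Set.indicator_of_mem hO'1]
    change P03_phi ρ (fsq (L.ι 1 - 1)) = 1
    rw [map_one, sub_self]
    have : fsq (0 : Mat N) = 0 := by
      rw [P02_fsq_eq]
      simp only [Matrix.zero_apply, mul_zero, Finset.sum_const_zero]
    rw [this]
    exact P03_phi_one ρ
  have hI : 0 < ∫ x, f0 x ∂μ := by
    refine Continuous.integral_pos_of_hasCompactSupport_nonneg_nonzero f0c f0s hnn (x := 1) ?_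
    rw [h01]
    exact one_ne_zero
  set I : ℝ := ∫ x, f0 x ∂μ with hId
  have hderiv : ∀ X ∈ L.𝔤, ∀ x, HasDerivAt (fun t : ℝ => f0 (L.e (t • X) * x)) (L0 X x) 0 := by
    intro X hX x
    have hline : Continuous fun t : ℝ => L.e (t • X) * x :=
      (e_line_cont L hX).mul continuous_const
    have hz : L.e ((0 : ℝ) • X) * x = x := by rw [zero_smul, e_zero, one_mul]
    by_cases hx : x ∈ O'
    · have h1 : HasDerivAt (fun t : ℝ => P03_phi ρ (fsq (NormedSpace.exp (t • X) * L.ι x - 1)))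
          (deriv (P03_phi ρ) (fsq (L.ι x - 1)) * (2 * fip (L.ι x - 1) (X * L.ι x))) 0 := by
        have h2 := P03_fsq_deriv N X (L.ι x)
        have h3 : HasDerivAt (P03_phi ρ) (deriv (P03_phi ρ) (fsq (L.ι x - 1)))
            (fsq (NormedSpace.exp ((0 : ℝ) • X) * L.ι x - 1)) := by
          rw [zero_smul, NormedSpace.exp_zero, Matrix.one_mul]
          exact (hphi.differentiable one_ne_zero _).hasDerivAt
        exact HasDerivAt.comp (h₂ := P03_phi ρ)
          (h := fun t : ℝ => fsq (NormedSpace.exp (t • X) * L.ι x - 1)) 0 h3 h2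
      have h4 : L0 X x = deriv (P03_phi ρ) (fsq (L.ι x - 1)) *
          (2 * fip (L.ι x - 1) (X * L.ι x)) := Set.indicator_of_mem hx _
      rw [h4]
      refine h1.congr_of_eventuallyEq ?_
      have h5 : (fun t : ℝ => L.e (t • X) * x) ⁻¹' O' ∈ 𝓝 (0 : ℝ) := by
        refine hline.continuousAt.preimage_mem_nhds ?_
        rw [hz]
        exact hO'o.mem_nhds hx
      filter_upwards [h5] with t ht
      have ht' : L.e (t • X) * x ∈ O' := ht
      rw [hf0, Set.indicator_of_mem ht']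
      change P03_phi ρ (fsq (L.ι (L.e (t • X) * x) - 1)) = _
      rw [map_mul, L.ι_e _ (L.𝔤.smul_mem t hX)]
    · have hxS : x ∈ S'ᶜ := fun h => hx (hSO h)
      have h4 : L0 X x = 0 := Set.indicator_of_notMem hx _
      rw [h4]
      refine (hasDerivAt_const (0 : ℝ) (0 : ℝ)).congr_of_eventuallyEq ?_
      have h5 : (fun t : ℝ => L.e (t • X) * x) ⁻¹' S'ᶜ ∈ 𝓝 (0 : ℝ) := by
        refine hline.continuousAt.preimage_mem_nhds ?_
        rw [hz]
        exact hS.isClosed.isOpen_compl.mem_nhds hxS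
      filter_upwards [h5] with t ht
      exact f0z _ ht
  have hL0z : ∀ X x, x ∉ S' → L0 X x = 0 := fun X => (hL0 X).2.2
  refine ⟨fun x => I⁻¹ * f0 x, fun X x => I⁻¹ * L0 X x, ?_⟩
  refine ⟨continuous_const.mul f0c, ?_, fun x => mul_nonneg (inv_nonneg.2 hI.le) (hnn x), ?_, ?_,
    ?_, fun X => continuous_const.mul (hL0 X).1, ?_, ?_, ?_, ?_⟩
  · exact HasCompactSupport.intro hS fun x hx => by rw [f0z x hx, mul_zero]
  · intro x hx
    rw [f0z x fun h => hx (hO'O (hSO h)), mul_zero]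
  · rw [integral_const_mul, ← hId, inv_mul_cancel₀ hI.ne']
  · intro k hk x
    have h1 : k * x * k⁻¹ ∈ O' ↔ x ∈ O' := by
      constructor
      · intro h
        have h2 := hO'K k⁻¹ (L.K.inv_mem hk) _ h
        have h3 : k⁻¹ * (k * x * k⁻¹) * k⁻¹⁻¹ = x := by group
        rwa [h3] at h2
      · exact hO'K k hk x
    have h2 : fsq (L.ι (k * x * k⁻¹) - 1) = fsq (L.ι x - 1) := by
      have h3 : L.ι (k * x * k⁻¹) - 1 = L.ι k * (L.ι x - 1) * L.ι k⁻¹ := by
        rw [map_mul, map_mul, Matrix.mul_sub, Matrix.sub_mul, Matrix.mul_one, ← map_mul L.ι k k⁻¹,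
          mul_inv_cancel, map_one]
      rw [h3]
      exact fip_ad_K L hk _ _
    congr 1
    by_cases h : x ∈ O'
    · rw [hf0, Set.indicator_of_mem h, Set.indicator_of_mem (h1.2 h)]
      change P03_phi ρ (fsq (L.ι (k * x * k⁻¹) - 1)) = P03_phi ρ (fsq (L.ι x - 1))
      rw [h2]
    · rw [hf0, Set.indicator_of_notMem h, Set.indicator_of_notMem (fun h' => h (h1.1 h'))]
  · intro X
    exact HasCompactSupport.intro hS fun x hx => by rw [hL0z X x hx, mul_zero]
  · intro X Y x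
    rw [← mul_add]
    congr 1
    by_cases h : x ∈ O'
    · change Set.indicator O' (FX (X + Y)) x =
        Set.indicator O' (FX X) x + Set.indicator O' (FX Y) x
      rw [Set.indicator_of_mem h, Set.indicator_of_mem h, Set.indicator_of_mem h]
      change deriv (P03_phi ρ) (fsq (L.ι x - 1)) * (2 * fip (L.ι x - 1) ((X + Y) * L.ι x)) =
        deriv (P03_phi ρ) (fsq (L.ι x - 1)) * (2 * fip (L.ι x - 1) (X * L.ι x)) +
        deriv (P03_phi ρ) (fsq (L.ι x - 1)) * (2 * fip (L.ι x - 1) (Y * L.ι x))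
      rw [Matrix.add_mul, P01_fip_add]
      ring
    · change Set.indicator O' (FX (X + Y)) x =
        Set.indicator O' (FX X) x + Set.indicator O' (FX Y) x
      rw [Set.indicator_of_notMem h, Set.indicator_of_notMem h, Set.indicator_of_notMem h,
        add_zero]
  · intro t X x
    rw [mul_left_comm]
    congr 1
    by_cases h : x ∈ O'
    · change Set.indicator O' (FX (t • X)) x = t * Set.indicator O' (FX X) x
      rw [Set.indicator_of_mem h, Set.indicator_of_mem h]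
      change deriv (P03_phi ρ) (fsq (L.ι x - 1)) * (2 * fip (L.ι x - 1) ((t • X) * L.ι x)) =
        t * (deriv (P03_phi ρ) (fsq (L.ι x - 1)) * (2 * fip (L.ι x - 1) (X * L.ι x)))
      rw [Matrix.smul_mul, P01_fip_smul]
      ring
    · change Set.indicator O' (FX (t • X)) x = t * Set.indicator O' (FX X) x
      rw [Set.indicator_of_notMem h, Set.indicator_of_notMem h, mul_zero]
  · intro X hX η hη
    refine P03_uniform_deriv L hX (f := fun x => I⁻¹ * f0 x) (h := fun x => I⁻¹ * L0 X x)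
      (fun x => (hderiv X hX x).const_mul I⁻¹) (continuous_const.mul (hL0 X).1) ?_ hη
    exact HasCompactSupport.intro hS fun x hx => by rw [hL0z X x hx, mul_zero]

end SBD
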