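import Pool.Agent.SBD.P01

/-!
# Row SBD-P06 : one-parameter subgroups of `K` act smoothly on finite-dimensional invariant spaces

PROOF.  Let `W` be finite-dimensional and `K`-invariant, `Z ∈ 𝔤`, `Zᵀ = -Z`; `M(t) : W → W` the
restriction of `π(e(tZ))` (`e(tZ) ∈ K`, P01): `M(s+t) = M(s)M(t)`, `M(0) = 1`, and
`t ↦ M(t)` is continuous in operator norm (strongly continuous and `W` finite-dimensional, e.g. via a
basis).  Let `J = ∫_0^δ M(s) ds`; for `δ > 0` small `‖δ⁻¹J - 1‖ < 1`, so `J` is invertible, and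
`M(t)J = ∫_t^{t+δ} M(s) ds` is differentiable in `t`; so `M(t) = (M(t)J)J⁻¹` is differentiable at `0`.
Put `T = M'(0)`.  Then `(M(t+h)u - M(t)u)/h = M(t)(M(h)u-u)/h → M(t)Tu`.  So
`t ↦ π(e(tZ))u` has derivative `t ↦ π(e(tZ))(Tu)`, which is of the same form with `Tu ∈ W`; hence
`ContDiff ℝ 2` and the second derivative at `0` is `T(Tu)` (`contDiff_succ_iff_deriv` …).
Skewness: differentiate `⟨M(t)u, M(t)v⟩ = ⟨u,v⟩` at `0`.
-/

open MeasureTheory Filter Topology
open scoped ENNReal NNReal Matrix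

noncomputable section

namespace SBD

variable {N : ℕ} {G : Type} [Group G] [TopologicalSpace G] [IsTopologicalGroup G]
  [LocallyCompactSpace G] [T2Space G]
variable {H : Type} [NormedAddCommGroup H] [InnerProductSpace ℂ H] [CompleteSpace H]

private theorem P06_group {A : Type*} [NormedRing A] [NormedAlgebra ℝ A] [CompleteSpace A]
    (M : ℝ → A) (hM : Continuous M) (h0 : M 0 = 1) (hadd : ∀ s t, M (s + t) = M s * M t) :
    ∃ T : A, ∀ t, HasDerivAt M (M t * T) t := by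
  let F : ℝ → A := fun t => ∫ s in (0 : ℝ)..t, M s
  have hF : ∀ t, HasDerivAt F (M t) t := fun t =>
    intervalIntegral.integral_hasDerivAt_right (hM.intervalIntegrable _ _)
      (hM.stronglyMeasurableAtFilter _ _) hM.continuousAt
  have hF0 : F 0 = 0 := intervalIntegral.integral_same
  obtain ⟨δ, hδ⟩ : ∃ δ : ℝ, IsUnit (F δ) := by
    have h1 : Tendsto (fun t : ℝ => t⁻¹ • F t) (𝓝[≠] 0) (𝓝 1) := by
      have h2 := (hF 0).tendsto_slope_zero
      rw [h0, hF0] at h2
      refine h2.congr fun t => ?_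
      rw [zero_add, sub_zero]
    have h2 : ∀ᶠ t in 𝓝[≠] (0 : ℝ), IsUnit (t⁻¹ • F t) :=
      h1.eventually (Units.isOpen.mem_nhds isUnit_one)
    obtain ⟨δ, hδ1, hδ2⟩ := (h2.and self_mem_nhdsWithin).exists
    have hδ0 : δ ≠ 0 := hδ2
    refine ⟨δ, ?_⟩
    have h3 : F δ = algebraMap ℝ A δ * (δ⁻¹ • F δ) := by
      rw [← Algebra.smul_def, smul_smul, mul_inv_cancel₀ hδ0, one_smul]
    rw [h3]
    exact ((isUnit_iff_ne_zero.2 hδ0).map (algebraMap ℝ A)).mul hδ1
  obtain ⟨u, hu⟩ := hδ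
  have hMJ : ∀ t, M t * F δ = F (t + δ) - F t := by
    intro t
    have e1 : M t * F δ = ∫ s in (0 : ℝ)..δ, M t * M s :=
      ((ContinuousLinearMap.mul ℝ A (M t)).intervalIntegral_comp_comm
        (hM.intervalIntegrable (μ := volume) 0 δ)).symm
    have e2 : (∫ s in (0 : ℝ)..δ, M t * M s) = ∫ s in (0 : ℝ)..δ, M (t + s) :=
      intervalIntegral.integral_congr fun s _ => (hadd t s).symm
    have e3 : (∫ s in (0 : ℝ)..δ, M (t + s)) = ∫ s in t..(t + δ), M s := by
      rw [intervalIntegral.integral_comp_add_left M t, add_zero]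
    rw [e1, e2, e3]
    exact (intervalIntegral.integral_interval_sub_left (hM.intervalIntegrable _ _)
      (hM.intervalIntegrable _ _)).symm
  refine ⟨(M δ - 1) * (↑u⁻¹ : A), fun t => ?_⟩
  have h5 : HasDerivAt (fun t => (F (t + δ) - F t) * (↑u⁻¹ : A))
      ((M (t + δ) - M t) * (↑u⁻¹ : A)) t :=
    (((hF (t + δ)).comp_add_const t δ).sub (hF t)).mul_const _
  have h6 : (fun t => (F (t + δ) - F t) * (↑u⁻¹ : A)) = M := by
    funext t
    rw [← hMJ t, ← hu, Units.mul_inv_cancel_right]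
  rw [h6] at h5
  have h7 : (M (t + δ) - M t) * (↑u⁻¹ : A) = M t * ((M δ - 1) * (↑u⁻¹ : A)) := by
    rw [hadd, ← mul_assoc, mul_sub, mul_one]
  rw [← h7]
  exact h5

theorem smooth_K (L : LieData N G) (π : G →* (H ≃ₗᵢ[ℂ] H))
    (hc : ∀ v : H, Continuous fun g => π g v) (W : Submodule ℂ H) [FiniteDimensional ℂ W]
    (hW : ∀ k ∈ L.K, ∀ x ∈ W, π k x ∈ W) (Z : Mat N) (hZ : Z ∈ L.𝔤) (ht : Zᵀ = -Z) :
    ∃ T : W →ₗ[ℂ] W,
      (∀ (u : W) (t : ℝ), HasDerivAt (fun s : ℝ => π (L.e (s • Z)) (u : H))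
        (π (L.e (t • Z)) ((T u : W) : H)) t) ∧
      (∀ u : W, ContDiff ℝ 2 fun s : ℝ => π (L.e (s • Z)) (u : H)) ∧
      (∀ u : W, iteratedDeriv 2 (fun s : ℝ => π (L.e (s • Z)) (u : H)) 0 = ((T (T u) : W) : H)) ∧
      ∀ u v : W, inner ℂ ((T u : W) : H) (v : H) = -inner ℂ (u : H) ((T v : W) : H) := by
  have hK : ∀ t : ℝ, L.e (t • Z) ∈ L.K := fun t => e_mem_K L hZ ht t
  have hadd : ∀ s t : ℝ, L.e ((s + t) • Z) = L.e (s • Z) * L.e (t • Z) :=
    fun s t => L.e_add Z hZ s t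
  have hzero : L.e ((0 : ℝ) • Z) = 1 := by
    rw [zero_smul]
    exact e_zero L
  let M : ℝ → (W →L[ℂ] W) := fun t =>
    LinearMap.toContinuousLinearMap
      (((π (L.e (t • Z))).toLinearEquiv.toLinearMap).restrict fun x hx => hW _ (hK t) x hx)
  have hMv : ∀ (t : ℝ) (u : W), ((M t u : W) : H) = π (L.e (t • Z)) (u : H) := fun t u => rfl
  have : CompleteSpace W := FiniteDimensional.complete ℂ W
  have hMc : Continuous M := by
    rw [continuous_clm_apply]
    intro u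
    rw [continuous_induced_rng]
    exact (hc (u : H)).comp (e_line_cont L hZ)
  have hM0 : M 0 = 1 := by
    apply ContinuousLinearMap.ext
    intro u
    apply Subtype.ext
    rw [hMv, hzero, map_one]
    rfl
  have hMa : ∀ s t, M (s + t) = M s * M t := by
    intro s t
    apply ContinuousLinearMap.ext
    intro u
    apply Subtype.ext
    rw [hMv, hadd, map_mul]
    rfl
  obtain ⟨T, hT⟩ := P06_group M hMc hM0 hMa
  have hd : ∀ (u : W) (t : ℝ), HasDerivAt (fun s : ℝ => π (L.e (s • Z)) (u : H))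
        (π (L.e (t • Z)) ((T u : W) : H)) t := by
    intro u t
    have h1 : HasDerivAt (fun s : ℝ => M s u) ((M t * T) u) t := by
      have h2 := (ContinuousLinearMap.apply ℂ W u).restrictScalars ℝ |>.hasFDerivAt.comp_hasDerivAt t (hT t)
      exact h2
    have h3 := (W.subtypeL.restrictScalars ℝ).hasFDerivAt.comp_hasDerivAt t h1
    exact h3
  have hderiv : ∀ u : W, deriv (fun s : ℝ => π (L.e (s • Z)) (u : H)) =
      fun s : ℝ => π (L.e (s • Z)) ((T u : W) : H) := fun u => funext fun t => (hd u t).deriv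
  have hdiff : ∀ u : W, Differentiable ℝ (fun s : ℝ => π (L.e (s • Z)) (u : H)) :=
    fun u t => (hd u t).differentiableAt
  have hc1 : ∀ u : W, ContDiff ℝ 1 (fun s : ℝ => π (L.e (s • Z)) (u : H)) := by
    intro u
    rw [contDiff_one_iff_deriv]
    refine ⟨hdiff u, ?_⟩
    rw [hderiv u]
    exact (hdiff (T u)).continuous
  refine ⟨T.toLinearMap, hd, ?_, ?_, ?_⟩
  · intro u
    have h2 : (2 : WithTop ℕ∞) = 1 + 1 := by norm_num
    rw [h2, contDiff_succ_iff_deriv]
    refine ⟨hdiff u, ?_, ?_⟩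
    · intro h
      exact absurd h (by simp)
    · rw [hderiv u]
      exact hc1 (T u)
  · intro u
    rw [iteratedDeriv_succ, iteratedDeriv_one, hderiv u, hderiv (T u)]
    change π (L.e ((0 : ℝ) • Z)) ((T (T u) : W) : H) = ((T (T u) : W) : H)
    rw [hzero, map_one]
    rfl
  · intro u v
    have h1 : HasDerivAt (fun t : ℝ => inner ℂ (π (L.e (t • Z)) (u : H)) (π (L.e (t • Z)) (v : H)))
        (inner ℂ (π (L.e ((0 : ℝ) • Z)) (u : H)) (π (L.e ((0 : ℝ) • Z)) ((T v : W) : H)) +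
          inner ℂ (π (L.e ((0 : ℝ) • Z)) ((T u : W) : H)) (π (L.e ((0 : ℝ) • Z)) (v : H))) 0 :=
      HasDerivAt.inner ℂ (hd u 0) (hd v 0)
    have h2 : (fun t : ℝ => inner ℂ (π (L.e (t • Z)) (u : H)) (π (L.e (t • Z)) (v : H))) =
        fun _ : ℝ => inner ℂ (u : H) (v : H) := by
      funext t
      exact LinearIsometryEquiv.inner_map_map _ _ _
    rw [h2] at h1
    have h3 := h1.unique (hasDerivAt_const (0 : ℝ) (inner ℂ (u : H) (v : H)))
    rw [LinearIsometryEquiv.inner_map_map, LinearIsometryEquiv.inner_map_map] at h3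
    exact eq_neg_of_add_eq_zero_right h3

end SBD
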