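import Pool.Agent.SBD.P06

/-!
# Row SBD-P07 : Casimir eigenvectors span every finite-dimensional `K`-invariant space

PROOF.  Take `Z : Fin m → Mat N` with `IsKBasis L Z` (P01 `exists_bases`), `T_j : W → W` from P06 for
`Z_j`.  `C = -∑ T_j²` is symmetric and positive on the finite-dimensional inner product space `W`
(skewness), so there is an orthonormal basis `b_i` of `W` of eigenvectors, `C b_i = c_i b_i`
(`LinearMap.IsSymmetric.eigenvectorBasis`, `apply_eigenvectorBasis`), `c_i ≥ 0`.  Take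
`x_i = ⟨b_i,u⟩ b_i`; `IsCas L π (x_i) (c_i)` with the basis `Z`: `∑_j T_j²x_i = -c_i x_i`.
-/

open MeasureTheory Filter Topology
open scoped ENNReal NNReal Matrix

noncomputable section

namespace SBD

variable {N : ℕ} {G : Type} [Group G] [TopologicalSpace G] [IsTopologicalGroup G]
  [LocallyCompactSpace G] [T2Space G]
variable {H : Type} [NormedAddCommGroup H] [InnerProductSpace ℂ H] [CompleteSpace H]

theorem diag_K (L : LieData N G) (π : G →* (H ≃ₗᵢ[ℂ] H))
    (hc : ∀ v : H, Continuous fun g => π g v) (W : Submodule ℂ H) [FiniteDimensional ℂ W]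
    (hW : ∀ k ∈ L.K, ∀ x ∈ W, π k x ∈ W) (u : H) (hu : u ∈ W) :
    ∃ (n : ℕ) (x : Fin n → H) (c : Fin n → ℝ),
      (∀ i, x i ∈ W ∧ 0 ≤ c i ∧ IsCas L π (x i) (c i)) ∧ u = ∑ i, x i := by
  obtain ⟨m, n', Z, P, hZ, -⟩ := exists_bases L
  choose T hT1 hT2 hT3 hT4 using fun j => smooth_K L π hc W hW (Z j) (hZ.1 j).1 (hZ.1 j).2
  let C : W →ₗ[ℂ] W := -∑ j, (T j).comp (T j)
  have hCv : ∀ x : W, C x = -∑ j, T j (T j x) := by
    intro x
    change (-∑ j, (T j).comp (T j)) x = _
    rw [LinearMap.neg_apply, LinearMap.sum_apply]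
    rfl
  have hsk : ∀ j (x y : W), inner ℂ (T j x) y = -inner ℂ x (T j y) := fun j x y => hT4 j x y
  have hin : ∀ x y : W, inner ℂ (C x) y = ∑ j, inner ℂ (T j x) (T j y) := by
    intro x y
    rw [hCv, inner_neg_left, sum_inner, ← Finset.sum_neg_distrib]
    refine Finset.sum_congr rfl fun j _ => ?_
    rw [hsk j, neg_neg]
  have hin' : ∀ x y : W, inner ℂ x (C y) = ∑ j, inner ℂ (T j x) (T j y) := by
    intro x y
    rw [hCv, inner_neg_right, inner_sum, ← Finset.sum_neg_distrib]
    refine Finset.sum_congr rfl fun j _ => ?_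
    rw [hsk j x (T j y)]
  have hsym : C.IsSymmetric := fun x y => by rw [hin, hin']
  let b := hsym.eigenvectorBasis (rfl : Module.finrank ℂ W = Module.finrank ℂ W)
  let c : Fin (Module.finrank ℂ W) → ℝ := hsym.eigenvalues rfl
  have hb : ∀ i, C (b i) = (c i : ℂ) • b i := fun i => hsym.apply_eigenvectorBasis rfl i
  let uW : W := ⟨u, hu⟩
  have hx : ∀ i, C (b.repr uW i • b i) = (c i : ℂ) • (b.repr uW i • b i) := by
    intro i
    rw [map_smul, hb, smul_comm]
  refine ⟨Module.finrank ℂ W, fun i => ((b.repr uW i • b i : W) : H), c, ?_, ?_⟩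
  · intro i
    refine ⟨(b.repr uW i • b i : W).2, ?_, ?_⟩
    · have h1 : inner ℂ (b i) (C (b i)) = (c i : ℂ) := by
        rw [hb, inner_smul_right, b.inner_eq_one, mul_one]
      have h2 : inner ℂ (b i) (C (b i)) = ((∑ j, ‖T j (b i)‖ ^ 2 : ℝ) : ℂ) := by
        rw [hin']
        push_cast
        refine Finset.sum_congr rfl fun j _ => ?_
        rw [inner_self_eq_norm_sq_to_K]
        rfl
      rw [h1] at h2
      have h3 : c i = ∑ j, ‖T j (b i)‖ ^ 2 := by exact_mod_cast h2
      rw [h3]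
      positivity
    · refine ⟨m, Z, hZ, fun j => hT2 j _, ?_⟩
      have h4 : ∀ j, iteratedDeriv 2
          (fun t : ℝ => π (L.e (t • Z j)) ((b.repr uW i • b i : W) : H)) 0 =
          ((T j (T j (b.repr uW i • b i)) : W) : H) := fun j => hT3 j _
      rw [Finset.sum_congr rfl fun j _ => h4 j]
      have h5 := congrArg (fun w : W => ((-w : W) : H)) (hx i)
      change ((-C (b.repr uW i • b i) : W) : H) = ((-((c i : ℂ) • (b.repr uW i • b i)) : W) : H) at h5
      rw [hCv, neg_neg] at h5
      rw [Submodule.coe_neg, Submodule.coe_smul] at h5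
      rw [← h5]
      exact (Submodule.coe_sum W _ _).symm
  · have h6 : ∑ i, b.repr uW i • b i = uW := b.sum_repr uW
    have h7 := congrArg (fun w : W => (w : H)) h6
    change ((∑ i, b.repr uW i • b i : W) : H) = u at h7
    rw [← h7]
    exact Submodule.coe_sum W _ _

end SBD
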