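import Pool.Agent.SBD.P03
import Pool.Agent.SBD.P04
import Pool.Agent.SBD.P07

/-!
# Row SBD-P08 : every `K`-finite vector is `π(f)u'` with a bump function `f` and `u'` `K`-finite

PROOF.  `u ∈ V = KFin`: by definition `u ∈ W₀`, finite-dimensional and `K`-invariant, so (P07)
`u = ∑ x_i`, `x_i ∈ V`, `IsCas (x_i) (c_i)`.  Let `R = max c_i` and
`E = span {y | y ∈ V, ∃ c ≤ R, IsCas L π y c}`; `E` is contained in the finite-dimensional space given
by `Adm` so is finite-dimensional, `u ∈ E ⊂ V`.  For a bump function `f` (`P03`, for any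
neighbourhood), `π(f)E ⊂ E`: for a generator `y`: `π(f)y ∈ V` because for `W ∋ y` finite-dimensional
`K`-invariant, `π(f)W` (image under the linear map `sm`, P04) is finite-dimensional and `K`-invariant
(`sm_comm`), and `IsCas (π(f)y) c`: `π(e(tZ_j)) π(f) y = π(f) π(e(tZ_j)) y` (`sm_comm`, `e(tZ_j) ∈ K`)
and `π(f)` is a bounded linear operator (`sm_norm_le`), so it commutes with `ContDiff` and
`iteratedDeriv` (`ContinuousLinearMap.contDiff.comp`, `iteratedDeriv` of `T ∘ φ`:
`ContinuousLinearMap.iteratedFDeriv_comp_left` or via two `HasDerivAt`s).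
By `approx` (P04) with `η = 1/2`, `W = E`, choose `O₁` and take `f` supported in `O ∩ O₁`:
`‖π(f)y - y‖ ≤ ½‖y‖` on `E`, so `π(f)|_E` is injective, hence surjective (finite dimension):
`u = π(f)u'`, `u' ∈ E ⊂ V`.
-/

open MeasureTheory Filter Topology
open scoped ENNReal NNReal Matrix

noncomputable section

namespace SBD

variable {N : ℕ} {G : Type} [Group G] [TopologicalSpace G] [IsTopologicalGroup G]
  [LocallyCompactSpace G] [T2Space G]
variable [SecondCountableTopology G] [MeasurableSpace G] [BorelSpace G]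
variable {H : Type} [NormedAddCommGroup H] [InnerProductSpace ℂ H] [CompleteSpace H]

private theorem P08_iter {H : Type} [NormedAddCommGroup H] [NormedSpace ℝ H]
    (T : H →L[ℝ] H) (φ : ℝ → H) (hφ : ContDiff ℝ 2 φ) :
    iteratedDeriv 2 (fun t => T (φ t)) 0 = T (iteratedDeriv 2 φ 0) := by
  rw [iteratedDeriv_eq_iteratedFDeriv, iteratedDeriv_eq_iteratedFDeriv]
  have h := T.iteratedFDeriv_comp_left (f := φ) (x := (0 : ℝ)) (i := 2) (n := 2)
    hφ.contDiffAt le_rfl
  have h2 : iteratedFDeriv ℝ 2 (fun t => T (φ t)) 0 = iteratedFDeriv ℝ 2 (T ∘ φ) 0 := rfl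
  rw [h2, h]
  rfl

theorem exists_smooth (L : LieData N G) (π : G →* (H ≃ₗᵢ[ℂ] H))
    (hc : ∀ v : H, Continuous fun g => π g v) (hadm : Adm L π) (μ : Measure G)
    [μ.IsHaarMeasure] [μ.IsMulRightInvariant] (u : H) (hu : u ∈ KFin L π) (O : Set G)
    (hO : O ∈ 𝓝 (1 : G)) :
    ∃ (f : G → ℝ) (Lf : Mat N → G → ℝ), Bump L μ O f Lf ∧
      ∃ u' ∈ KFin L π, u = sm π μ f u' := by
  classical
  obtain ⟨W₀, hW₀f, huW₀, hW₀K⟩ := hu
  obtain ⟨n, x, c, hx, hux⟩ := diag_K L π hc W₀ hW₀K u huW₀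
  obtain ⟨W₁, hW₁f, hW₁⟩ := hadm (∑ i, c i)
  set E : Submodule ℂ H := Submodule.span ℂ
    {y | y ∈ KFin L π ∧ ∃ a ≤ ∑ i, c i, IsCas L π y a} with hE
  have hEW : E ≤ W₁ := by
    rw [hE, Submodule.span_le]
    rintro y ⟨hy, a, ha, hya⟩
    exact hW₁ y hy a ha hya
  have hEK : E ≤ KFin L π := by
    rw [hE, Submodule.span_le]
    rintro y ⟨hy, -⟩
    exact hy
  have hEf : FiniteDimensional ℂ E := Submodule.finiteDimensional_of_le hEW
  have huE : u ∈ E := by
    rw [hux]
    refine Submodule.sum_mem _ fun i _ => Submodule.subset_span ⟨?_, c i, ?_, (hx i).2.2⟩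
    · exact ⟨W₀, hW₀f, (hx i).1, hW₀K⟩
    · exact Finset.single_le_sum (fun j _ => (hx j).2.1) (Finset.mem_univ i)
  obtain ⟨O₁, hO₁, happ⟩ := approx π hc μ E (1 / 2) (by norm_num)
  obtain ⟨f, Lf, hB⟩ := bump L μ (O ∩ O₁) (Filter.inter_mem hO hO₁)
  have hB' : Bump L μ O f Lf :=
    { hB with out := fun y hy => hB.out y fun h => hy h.1 }
  refine ⟨f, Lf, hB', ?_⟩
  -- the operator
  let T₀ : H →ₗ[ℂ] H :=
    { toFun := sm π μ f
      map_add' := sm_add π hc μ f hB.cont hB.supp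
      map_smul' := sm_smul π hc μ f hB.cont hB.supp }
  let T : H →L[ℂ] H := T₀.mkContinuous (∫ y, |f y| ∂μ)
    (fun y => sm_norm_le π hc μ f hB.cont hB.supp y)
  have hT : ∀ y, T y = sm π μ f y := fun _ => rfl
  have hTk : ∀ k ∈ L.K, ∀ y, π k (T y) = T (π k y) := fun k hk y => by
    rw [hT, hT]
    exact sm_comm π hc μ f hB.cont hB.supp L hB.conj k hk y
  have hTE : ∀ y ∈ E, T y ∈ E := by
    intro y hy
    induction hy using Submodule.span_induction with
    | mem y hy =>
      obtain ⟨⟨W, hWf, hyW, hWK⟩, a, ha, m, Z, hZ, hZc, hZs⟩ := hy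
      refine Submodule.subset_span ⟨⟨W.map (T : H →ₗ[ℂ] H), inferInstance,
        Submodule.mem_map_of_mem hyW, ?_⟩, a, ha, m, Z, hZ, ?_, ?_⟩
      · rintro k hk _ ⟨w, hw, rfl⟩
        refine ⟨π k w, hWK k hk w hw, ?_⟩
        exact (hTk k hk w).symm
      · intro j
        have h1 : (fun t : ℝ => π (L.e (t • Z j)) (T y)) =
            fun t : ℝ => (T.restrictScalars ℝ) (π (L.e (t • Z j)) y) := by
          funext t
          exact hTk _ (e_mem_K L (hZ.1 j).1 (hZ.1 j).2 t) y
        rw [h1]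
        exact (T.restrictScalars ℝ).contDiff.comp (hZc j)
      · have h2 : ∀ j, iteratedDeriv 2 (fun t : ℝ => π (L.e (t • Z j)) (T y)) 0 =
            (T.restrictScalars ℝ) (iteratedDeriv 2 (fun t : ℝ => π (L.e (t • Z j)) y) 0) := by
          intro j
          rw [← P08_iter (T.restrictScalars ℝ) _ (hZc j)]
          congr 1
          funext t
          exact hTk _ (e_mem_K L (hZ.1 j).1 (hZ.1 j).2 t) y
        rw [Finset.sum_congr rfl fun j _ => h2 j, ← map_sum, hZs, map_neg]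
        congr 1
        exact T.map_smul _ _
    | zero => rw [map_zero]; exact E.zero_mem
    | add y z _ _ hy hz => rw [map_add]; exact E.add_mem hy hz
    | smul a y _ hy => rw [map_smul]; exact E.smul_mem a hy
  let S : E →ₗ[ℂ] E := (T : H →ₗ[ℂ] H).restrict hTE
  have hinj : Function.Injective S := by
    rw [injective_iff_map_eq_zero]
    intro y hy
    have h1 : T (y : H) = 0 := congrArg Subtype.val hy
    have h2 := happ f hB.cont hB.supp hB.nonneg (fun z hz => hB.out z fun h => hz h.2) hB.int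
      (y : H) y.2
    rw [← hT, h1, zero_sub, norm_neg] at h2
    have h3 : ‖(y : H)‖ = 0 := le_antisymm (by linarith [norm_nonneg (y : H)]) (norm_nonneg _)
    exact Subtype.ext (norm_eq_zero.1 h3)
  obtain ⟨u', hu'⟩ := LinearMap.injective_iff_surjective.1 hinj ⟨u, huE⟩
  exact ⟨u', hEK u'.2, (congrArg Subtype.val hu').symm⟩

end SBD
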