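import Pool.Agent.SBD.P05
import Pool.Agent.SBD.P08

/-!
# Row SBD-P09 : `K`-finite vectors are `C¹`; the operators `D(X)`

PROOF.  (a) For `u ∈ V`, by P08 `u = π(f)u'`, and by P05, for all `X ∈ 𝔤`, `t ↦ π(e(tX))u` has at `0`
the derivative `ℓ_u(X) := -π(Lf X)u'`, which is `ℝ`-linear in `X` (`Bump.Ladd`, `Bump.Lsmul`,
linearity of the integral).  By uniqueness of derivatives `ℓ_u(X)`, `X ∈ 𝔤`, is also `ℂ`-linear in
`u` and independent of the choices.
(b) `K`-equivariance: for `k ∈ K` (indeed for `k ∈ G`), `X ∈ 𝔤`, `u ∈ V`: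
`π(k)π(e(tX))u = π(k e(tX) k⁻¹) π(k)u = π(e(t ι(k)Xι(k)⁻¹)) π(k)u` (`ad_e` applied to `t•X`), so
`π(k) ℓ_u(X) = ℓ_{π(k)u}(ι(k)Xι(k⁻¹))` for `k ∈ K` (`π(k)u ∈ V`).
(c) `ℓ_u(X) ∈ V`: let `W ∋ u` be finite-dimensional `K`-invariant (`W ⊂ V`), `X_α` a basis of `𝔤`
(P01 `exists_bases`), `b_i` a basis of `W`; `W' = span {ℓ_{b_i}(X_α)}` contains all `ℓ_{u'}(X)`,
`u' ∈ W`, `X ∈ 𝔤`, is finite-dimensional, and `K`-invariant by (b).
(d) Define `D X u = ∑_α fip(X_α, X) ℓ_u(X_α)` (orthonormal basis `X_α = Z_i, P_i`): linear in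
`X ∈ Mat N`, and equal to `ℓ_u(X)` for `X ∈ 𝔤`.
-/

open MeasureTheory Filter Topology
open scoped ENNReal NNReal Matrix

noncomputable section

namespace SBD

variable {N : ℕ} {G : Type} [Group G] [TopologicalSpace G] [IsTopologicalGroup G]
  [LocallyCompactSpace G] [T2Space G]
variable [SecondCountableTopology G] [MeasurableSpace G] [BorelSpace G]
variable {H : Type} [NormedAddCommGroup H] [InnerProductSpace ℂ H] [CompleteSpace H]

omit [IsTopologicalGroup G] [LocallyCompactSpace G] [T2Space G] [SecondCountableTopology G]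
  [MeasurableSpace G] [BorelSpace G] [CompleteSpace H] in
theorem p09_K_sub (L : LieData N G) (π : G →* (H ≃ₗᵢ[ℂ] H)) (W : Submodule ℂ H)
    (hfin : FiniteDimensional ℂ W) (hW : ∀ k ∈ L.K, ∀ x ∈ W, π k x ∈ W) : W ≤ KFin L π :=
  fun _ hx => ⟨W, hfin, hx, hW⟩

omit [IsTopologicalGroup G] [LocallyCompactSpace G] [T2Space G] [SecondCountableTopology G]
  [MeasurableSpace G] [BorelSpace G] [CompleteSpace H] in
theorem p09_K_mem (L : LieData N G) (π : G →* (H ≃ₗᵢ[ℂ] H)) {k : G} (hk : k ∈ L.K) {u : H}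
    (hu : u ∈ KFin L π) : π k u ∈ KFin L π := by
  obtain ⟨W, hfin, hx, hW⟩ := hu
  exact ⟨W, hfin, hW k hk u hx, hW⟩

/-- (a) the derivative as a real linear function of `X` -/
theorem p09_ell (L : LieData N G) (π : G →* (H ≃ₗᵢ[ℂ] H))
    (hc : ∀ v : H, Continuous fun g => π g v) (hadm : Adm L π) (μ : Measure G)
    [μ.IsHaarMeasure] [μ.IsMulRightInvariant] (u : KFin L π) :
    ∃ ell : Mat N →ₗ[ℝ] H, ∀ X ∈ L.𝔤,
      HasDerivAt (fun t : ℝ => π (L.e (t • X)) (u : H)) (ell X) 0 := by
  obtain ⟨f, Lf, hf, u', hu', hu⟩ :=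
    exists_smooth L π hc hadm μ (u : H) u.2 Set.univ Filter.univ_mem
  have hint : ∀ X, Integrable (fun x => ((Lf X x : ℝ) : ℂ) • π x u') μ := by
    intro X
    apply Continuous.integrable_of_hasCompactSupport
    · exact (Complex.continuous_ofReal.comp (hf.Lcont X)).smul (hc u')
    · have h1 : HasCompactSupport (fun x => ((Lf X x : ℝ) : ℂ)) :=
        (hf.Lsupp X).comp_left (g := fun r : ℝ => (r : ℂ)) Complex.ofReal_zero
      exact h1.smul_right
  refine ⟨{ toFun := fun X => -(sm π μ (Lf X) u'), map_add' := ?_, map_smul' := ?_ },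
    fun X hX => ?_⟩
  · intro X Y
    rw [← neg_add]
    congr 1
    unfold sm
    rw [← integral_add (hint X) (hint Y)]
    apply integral_congr_ae
    filter_upwards with x
    rw [hf.Ladd X Y x, Complex.ofReal_add, add_smul]
  · intro t X
    rw [RingHom.id_apply, smul_neg]
    congr 1
    unfold sm
    rw [← integral_smul]
    apply integral_congr_ae
    filter_upwards with x
    rw [hf.Lsmul t X x, Complex.ofReal_mul, mul_smul, Complex.coe_smul]
  · have h1 := garding L π hc μ hf u' X hX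
    rw [← hu] at h1
    exact h1

theorem exists_D (L : LieData N G) (π : G →* (H ≃ₗᵢ[ℂ] H))
    (hc : ∀ v : H, Continuous fun g => π g v) (hadm : Adm L π) (μ : Measure G)
    [μ.IsHaarMeasure] [μ.IsMulRightInvariant] :
    ∃ D : Mat N →ₗ[ℝ] (KFin L π →ₗ[ℂ] KFin L π), Dif L π D := by
  choose ell hell using p09_ell L π hc hadm μ
  obtain ⟨m, n, Z, P, hZ, hP, hPo, hbas⟩ := exists_bases L
  -- linearity in `u`
  have hadd : ∀ X ∈ L.𝔤, ∀ u v : KFin L π, ell (u + v) X = ell u X + ell v X := by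
    intro X hX u v
    refine (hell (u + v) X hX).unique ?_
    have h1 := (hell u X hX).add (hell v X hX)
    convert! h1 using 1
    funext t
    simp
  have hsmul : ∀ X ∈ L.𝔤, ∀ (c : ℂ) (u : KFin L π), ell (c • u) X = c • ell u X := by
    intro X hX c u
    refine (hell (c • u) X hX).unique ?_
    have h1 := (hell u X hX).const_smul c
    convert! h1 using 1
    funext t
    simp
  let T : ∀ X : Mat N, X ∈ L.𝔤 → (KFin L π →ₗ[ℂ] H) := fun X hX =>
    { toFun := fun u => ell u X
      map_add' := hadd X hX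
      map_smul' := fun c u => hsmul X hX c u }
  have hT : ∀ (X : Mat N) (hX : X ∈ L.𝔤) (u : KFin L π), T X hX u = ell u X :=
    fun X hX u => rfl
  -- equivariance
  have hequiv : ∀ (k : G) (hk : k ∈ L.K), ∀ X ∈ L.𝔤, ∀ u : KFin L π,
      π k (ell u X) = ell ⟨π k (u : H), p09_K_mem L π hk u.2⟩ (L.ι k * X * L.ι k⁻¹) := by
    intro k hk X hX u
    have h1 := hell ⟨π k (u : H), p09_K_mem L π hk u.2⟩ _ (L.ad_mem k X hX)
    have h2 : HasDerivAt (fun t : ℝ => π k (π (L.e (t • X)) (u : H))) (π k (ell u X)) 0 := by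
      have h3 := (hell u X hX)
      have h4 := ((π k).toLinearIsometry.toContinuousLinearMap.restrictScalars ℝ).hasFDerivAt
        (x := π (L.e ((0 : ℝ) • X)) (u : H))
      exact h4.comp_hasDerivAt (0 : ℝ) h3
    refine h2.unique ?_
    convert! h1 using 1
    funext t
    have h3 : L.e (t • (L.ι k * X * L.ι k⁻¹)) = k * L.e (t • X) * k⁻¹ := by
      rw [← L.ad_e k (t • X) (L.𝔤.smul_mem t hX)]
      congr 1
      rw [Matrix.mul_smul, Matrix.smul_mul]
    rw [h3]
    simp only [map_mul, LinearIsometryEquiv.coe_mul, Function.comp_apply]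
    have h4 : π k⁻¹ (π k (u : H)) = u := by
      have h5 : (π k⁻¹ * π k) (u : H) = u := by
        rw [← map_mul, inv_mul_cancel, map_one]
        rfl
      exact h5
    rw [h4]
  -- membership
  have hexp : ∀ (u : KFin L π), ∀ X ∈ L.𝔤, ell u X = ∑ i, fip (Z i) X • ell u (Z i) +
      ∑ j, fip (P j) X • ell u (P j) := by
    intro u X hX
    conv_lhs => rw [hbas X hX]
    rw [map_add, map_sum, map_sum]
    simp only [map_smul]
  have hmem : ∀ X ∈ L.𝔤, ∀ u : KFin L π, ell u X ∈ KFin L π := by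
    intro X hX u
    obtain ⟨W, hfin, huW, hW⟩ := u.2
    have hWV := p09_K_sub L π W hfin hW
    let W' : Submodule ℂ H :=
      (⨆ i, LinearMap.range (T (Z i) (hZ.1 i).1 ∘ₗ Submodule.inclusion hWV)) ⊔
      (⨆ j, LinearMap.range (T (P j) (hP j).1 ∘ₗ Submodule.inclusion hWV))
    have hZW : ∀ i (v : W), ell (Submodule.inclusion hWV v) (Z i) ∈ W' := by
      intro i v
      apply Submodule.mem_sup_left
      apply Submodule.mem_iSup_of_mem i
      exact ⟨v, rfl⟩
    have hPW : ∀ j (v : W), ell (Submodule.inclusion hWV v) (P j) ∈ W' := by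
      intro j v
      apply Submodule.mem_sup_right
      apply Submodule.mem_iSup_of_mem j
      exact ⟨v, rfl⟩
    have hall : ∀ Y ∈ L.𝔤, ∀ v : W, ell (Submodule.inclusion hWV v) Y ∈ W' := by
      intro Y hY v
      rw [hexp _ Y hY]
      apply Submodule.add_mem
      · apply Submodule.sum_mem
        intro i _
        rw [← Complex.coe_smul]
        exact Submodule.smul_mem _ _ (hZW i v)
      · apply Submodule.sum_mem
        intro j _
        rw [← Complex.coe_smul]
        exact Submodule.smul_mem _ _ (hPW j v)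
    refine ⟨W', inferInstance, hall X hX ⟨u, huW⟩, ?_⟩
    intro k hk x hx
    have hle : W' ≤ W'.comap ((π k).toLinearIsometry.toLinearMap) := by
      apply sup_le
      · apply iSup_le
        rintro i _ ⟨v, rfl⟩
        rw [Submodule.mem_comap]
        have h1 := hequiv k hk (Z i) (hZ.1 i).1 (Submodule.inclusion hWV v)
        have h2 := hall _ (L.ad_mem k (Z i) (hZ.1 i).1) ⟨π k (v : H), hW k hk v v.2⟩
        have h3 : (Submodule.inclusion hWV ⟨π k (v : H), hW k hk v v.2⟩ : KFin L π) =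
          ⟨π k ((Submodule.inclusion hWV v : KFin L π) : H),
            p09_K_mem L π hk (Submodule.inclusion hWV v).2⟩ := rfl
        rw [h3, ← h1] at h2
        exact h2
      · apply iSup_le
        rintro j _ ⟨v, rfl⟩
        rw [Submodule.mem_comap]
        have h1 := hequiv k hk (P j) (hP j).1 (Submodule.inclusion hWV v)
        have h2 := hall _ (L.ad_mem k (P j) (hP j).1) ⟨π k (v : H), hW k hk v v.2⟩
        have h3 : (Submodule.inclusion hWV ⟨π k (v : H), hW k hk v v.2⟩ : KFin L π) =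
          ⟨π k ((Submodule.inclusion hWV v : KFin L π) : H),
            p09_K_mem L π hk (Submodule.inclusion hWV v).2⟩ := rfl
        rw [h3, ← h1] at h2
        exact h2
    exact hle hx
  let T' : ∀ X : Mat N, X ∈ L.𝔤 → (KFin L π →ₗ[ℂ] KFin L π) := fun X hX =>
    (T X hX).codRestrict (KFin L π) (hmem X hX)
  let φ : Mat N → (Mat N →ₗ[ℝ] ℝ) := fun A =>
    { toFun := fun X => fip A X
      map_add' := fun X Y => by simp [fip, Matrix.mul_add]
      map_smul' := fun t X => by simp [fip] }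
  refine ⟨∑ i, (φ (Z i)).smulRight (T' (Z i) (hZ.1 i).1) +
    ∑ j, (φ (P j)).smulRight (T' (P j) (hP j).1), ?_⟩
  intro X hX u
  have h1 := hell u X hX
  rw [hexp u X hX] at h1
  convert! h1 using 1
  simp only [LinearMap.add_apply, LinearMap.sum_apply, LinearMap.smulRight_apply,
    LinearMap.smul_apply, Submodule.coe_add, Submodule.coe_sum, Submodule.coe_smul_of_tower]
  rfl

end SBD
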