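import Pool.Agent.SBD.P01

/-!
# Row SBD-P10 : first properties of `D`

* `dif_line` : `π(e((t+h)X))u = π(e(tX)) π(e(hX))u` (`e_add`), and `π(e(tX))` is a bounded operator.
* `dif_skew` : differentiate `⟨π(e(tX))u, π(e(tX))v⟩ = ⟨u,v⟩` at `0` (`HasDerivAt.inner`, or the
  real-bilinear map).
* `kfin_K` : `π(k)u ∈ V` for `k ∈ K`.
* `dif_K` : `π(k)π(e(tX))u = π(e(t ι(k)Xι(k⁻¹)))π(k)u` (`ad_e`); differentiate; uniqueness of
  derivatives.  Note `ι k * (t•X) * ι k⁻¹ = t • (ι k * X * ι k⁻¹)`.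
* `dif_weak` : `⟨u, π(g)π(e(tX))v⟩ = ⟨u, π(e(tX'))π(g)v⟩ = ⟨π(e(tX'))⁻¹u, π(g)v⟩
  = ⟨π(e(-tX'))u, π(g)v⟩` with `X' = ι(g)Xι(g⁻¹) ∈ 𝔤`; differentiate at `0`.
-/

open MeasureTheory Filter Topology
open scoped ENNReal NNReal Matrix

noncomputable section

namespace SBD

variable {N : ℕ} {G : Type} [Group G] [TopologicalSpace G] [IsTopologicalGroup G]
  [LocallyCompactSpace G] [T2Space G]
variable {H : Type} [NormedAddCommGroup H] [InnerProductSpace ℂ H] [CompleteSpace H]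

variable (L : LieData N G) (π : G →* (H ≃ₗᵢ[ℂ] H))

theorem kfin_K {k : G} (hk : k ∈ L.K) {u : H} (hu : u ∈ KFin L π) : π k u ∈ KFin L π := by
  obtain ⟨W, h1, h2, h3⟩ := hu
  exact ⟨W, h1, h3 k hk u h2, h3⟩

omit [TopologicalSpace G] [IsTopologicalGroup G] [LocallyCompactSpace G] [T2Space G]
  [CompleteSpace H] in
private theorem p10_mul (g h : G) (v : H) : π (g * h) v = π g (π h v) := by
  rw [map_mul]
  rfl

omit [TopologicalSpace G] [IsTopologicalGroup G] [LocallyCompactSpace G] [T2Space G]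
  [CompleteSpace H] in
private theorem p10_deriv (g : G) {f : ℝ → H} {f' : H} {t : ℝ} (h : HasDerivAt f f' t) :
    HasDerivAt (fun s => π g (f s)) (π g f') t := by
  let l : H →L[ℝ] H := ((π g).toContinuousLinearEquiv : H →L[ℂ] H).restrictScalars ℝ
  exact l.hasFDerivAt.comp_hasDerivAt t h

variable (D : Mat N →ₗ[ℝ] (KFin L π →ₗ[ℂ] KFin L π)) (hD : Dif L π D)

include hD

theorem dif_line {X : Mat N} (hX : X ∈ L.𝔤) (u : KFin L π) (t : ℝ) :
    HasDerivAt (fun s : ℝ => π (L.e (s • X)) (u : H)) (π (L.e (t • X)) ((D X u : KFin L π) : H))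
      t := by
  have h1 := hD X hX u
  have h2 : HasDerivAt (fun s : ℝ => π (L.e ((s - t) • X)) (u : H)) ((D X u : KFin L π) : H) t := by
    have h3 : HasDerivAt (fun s : ℝ => π (L.e (s • X)) (u : H)) ((D X u : KFin L π) : H)
        (t - t) := by
      rw [sub_self]
      exact h1
    exact h3.comp_sub_const t t
  have h4 := p10_deriv π (L.e (t • X)) h2
  have h5 : (fun s : ℝ => π (L.e (s • X)) (u : H)) =
      fun s : ℝ => π (L.e (t • X)) (π (L.e ((s - t) • X)) (u : H)) := by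
    funext s
    rw [← p10_mul, ← L.e_add X hX, add_sub_cancel]
  rw [h5]
  exact h4

theorem dif_skew {X : Mat N} (hX : X ∈ L.𝔤) (u v : KFin L π) :
    inner ℂ (D X u) v = -inner ℂ u (D X v) := by
  have h1 := hD X hX u
  have h2 := hD X hX v
  have h3 := HasDerivAt.inner ℂ h1 h2
  have h4 : (fun t : ℝ => inner ℂ (π (L.e (t • X)) (u : H)) (π (L.e (t • X)) (v : H))) =
      fun _ : ℝ => inner ℂ (u : H) (v : H) := by
    funext t
    exact LinearIsometryEquiv.inner_map_map _ _ _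
  rw [h4] at h3
  have h5 := h3.unique (hasDerivAt_const (0 : ℝ) (inner ℂ (u : H) (v : H)))
  rw [zero_smul, e_zero, map_one] at h5
  have h6 : inner ℂ (u : H) ((D X v : KFin L π) : H) + inner ℂ ((D X u : KFin L π) : H) (v : H) = 0 :=
    h5
  rw [Submodule.coe_inner, Submodule.coe_inner]
  linear_combination h6

theorem dif_K {X : Mat N} (hX : X ∈ L.𝔤) {k : G} (hk : k ∈ L.K) (u : KFin L π) :
    π k ((D X u : KFin L π) : H) =
      ((D (L.ι k * X * L.ι k⁻¹) ⟨π k (u : H), kfin_K L π hk u.2⟩ : KFin L π) : H) := by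
  have h1 := p10_deriv π k (hD X hX u)
  have h2 := hD (L.ι k * X * L.ι k⁻¹) (L.ad_mem k X hX) ⟨π k (u : H), kfin_K L π hk u.2⟩
  have h3 : (fun t : ℝ => π k (π (L.e (t • X)) (u : H))) =
      fun t : ℝ => π (L.e (t • (L.ι k * X * L.ι k⁻¹))) (π k (u : H)) := by
    funext t
    have e1 : t • (L.ι k * X * L.ι k⁻¹) = L.ι k * (t • X) * L.ι k⁻¹ := by
      rw [Matrix.mul_smul, Matrix.smul_mul]
    rw [e1, L.ad_e k _ (L.𝔤.smul_mem t hX), ← p10_mul, ← p10_mul, inv_mul_cancel_right]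
  rw [h3] at h1
  exact h1.unique h2

theorem dif_weak {X : Mat N} (hX : X ∈ L.𝔤) (u v : KFin L π) (g : G) :
    inner ℂ (u : H) (π g ((D X v : KFin L π) : H)) =
      -inner ℂ ((D (L.ι g * X * L.ι g⁻¹) u : KFin L π) : H) (π g (v : H)) := by
  have hX' := L.ad_mem g X hX
  have h1 := HasDerivAt.inner ℂ (hasDerivAt_const (0 : ℝ) (u : H)) (p10_deriv π g (hD X hX v))
  have h2 : HasDerivAt (fun t : ℝ => π (L.e ((-t) • (L.ι g * X * L.ι g⁻¹))) (u : H))
      (-((D (L.ι g * X * L.ι g⁻¹) u : KFin L π) : H)) 0 := by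
    have h3 := hD (L.ι g * X * L.ι g⁻¹) hX' u
    have h4 : HasDerivAt (fun s : ℝ => π (L.e (s • (L.ι g * X * L.ι g⁻¹))) (u : H))
        ((D (L.ι g * X * L.ι g⁻¹) u : KFin L π) : H) (-(0 : ℝ)) := by
      rw [neg_zero]
      exact h3
    have h5 := h4.scomp (0 : ℝ) (hasDerivAt_neg (0 : ℝ))
    rw [neg_one_smul] at h5
    exact h5
  have h3 := HasDerivAt.inner ℂ h2 (hasDerivAt_const (0 : ℝ) (π g (v : H)))
  have h4 : (fun t : ℝ => inner ℂ (u : H) (π g (π (L.e (t • X)) (v : H)))) =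
      fun t : ℝ => inner ℂ (π (L.e ((-t) • (L.ι g * X * L.ι g⁻¹))) (u : H)) (π g (v : H)) := by
    funext t
    have e1 : t • (L.ι g * X * L.ι g⁻¹) = L.ι g * (t • X) * L.ι g⁻¹ := by
      rw [Matrix.mul_smul, Matrix.smul_mul]
    have e2 : L.e ((-t) • (L.ι g * X * L.ι g⁻¹)) = (L.e (t • (L.ι g * X * L.ι g⁻¹)))⁻¹ := by
      rw [neg_smul, e_neg L (L.𝔤.smul_mem t hX')]
    have e3 : g * L.e (t • X) = L.e (t • (L.ι g * X * L.ι g⁻¹)) * g := by
      rw [e1, L.ad_e g _ (L.𝔤.smul_mem t hX), inv_mul_cancel_right]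
    rw [← p10_mul, e3, p10_mul, e2]
    rw [← LinearIsometryEquiv.inner_map_map (π (L.e (t • (L.ι g * X * L.ι g⁻¹)))⁻¹) (u : H)
      (π (L.e (t • (L.ι g * X * L.ι g⁻¹))) (π g (v : H))), ← p10_mul, inv_mul_cancel, map_one]
    rfl
  rw [h4] at h1
  have h5 := h1.unique h3
  rw [zero_smul, neg_zero, zero_smul, e_zero, map_one] at h5
  have h6 : inner ℂ (u : H) (π g ((D X v : KFin L π) : H)) + inner ℂ (0 : H) (π g (v : H)) =
      inner ℂ (u : H) (0 : H) +
        inner ℂ (-((D (L.ι g * X * L.ι g⁻¹) u : KFin L π) : H)) (π g (v : H)) := h5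
  rw [inner_zero_left, inner_zero_right, add_zero, zero_add, inner_neg_left] at h6
  exact h6

end SBD
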