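import Pool.Agent.SBD.P10
import Pool.Agent.SBD.P11

/-!
# Row SBD-P12 : the operators `tr (X^j)` are scalars

`A` a `LieRep` on `V = KFin L π` with `A.𝔤 = L.𝔤` and `Dif L π A.D`; `π` irreducible; the spaces
`A.low R` finite-dimensional and the eigenspaces span.

PROOF.  Let `B_α` be the orthonormal basis `(Z,P)` of `𝔤`, `σ_α = -1` for the `Z`'s and `+1` for the
`P`'s, `M_α = σ_α B_α`; so `tr(M_α B_β) = δ_{αβ}` (`tr(Z_aZ_b) = -δ`, `tr(P_aP_b) = δ`, `tr(Z_aP_b)=0`),
and for `Y ∈ 𝔤`: `Y = ∑_α tr(M_α Y) B_α` and `Y = ∑_α tr(B_α Y) M_α`.  `A.X i j = ∑_α (M_α)_{ij} D(B_α)`,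
so for `j ≥ 1`
  `𝒵 := tr(X^j) = ∑_{α₁…α_j} tr(M_{α₁}⋯M_{α_j}) D(B_{α₁})⋯D(B_{α_j})`.
Put `𝒵' := (-1)^j ∑ tr(M_{α₁}⋯M_{α_j}) D(B_{α_j})⋯D(B_{α₁})` (reversed words), the adjoint of `𝒵`:
  (1) `⟨u, 𝒵v⟩ = ⟨𝒵'u, v⟩` (skewness; the coefficients are real).
  (2) `⟨u, π(g)𝒵v⟩ = ⟨𝒵'u, π(g)v⟩` for all `g ∈ G`, `u,v ∈ V`: by `dif_weak` `j` times
      `⟨u, π(g)D(B_{α₁})⋯D(B_{α_j})v⟩ = (-1)^j ⟨D(gB_{α_j})⋯D(gB_{α₁})u, π(g)v⟩`, `gB := ι(g)Bι(g⁻¹)`.
      Write `gB_α = ∑_β tr(M_β gB_α) B_β` and use `∑_α tr(M_β gB_α) M_α = ∑_α tr(g⁻¹M_β · B_α)M_α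
      = g⁻¹M_β` (`g⁻¹M := ι(g⁻¹)Mι(g)`); multilinear expansion turns
      `∑ tr(M_{α₁}⋯M_{α_j}) D(gB_{α_j})⋯D(gB_{α₁})` into
      `∑_β tr(g⁻¹M_{β₁}⋯g⁻¹M_{β_j}) D(B_{β_j})⋯D(B_{β₁})`, and the trace is `tr(M_{β₁}⋯M_{β_j})`.
      (Convenient way to organise this without multi-indices: induct on `j` with matrices of vectors:
      define `R_0 = 1`, and for a matrix of vectors...; e.g. prove by induction on `j` that for every
      matrix `C ∈ Mat N`: `⟨u, π(g) ∑_i (C X^j)_{ii} v⟩ = ⟨((X'^j)·gC)_{tr} u, π(g)v⟩` for a suitable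
      reversed product; any organisation is fine.)
  (3) `𝒵` commutes with `Δ`, so preserves each `A.eig lam`: from (2) with `g = k ∈ K` and (1):
      `⟨u, π(k)𝒵v⟩ = ⟨𝒵'u, π(k)v⟩ = ⟨u, 𝒵π(k)v⟩` (`π(k)v ∈ V`), so `π(k)𝒵 = 𝒵π(k)`; put `k = e(tZ_i)`,
      differentiate at 0: `⟨u, D(Z_i)𝒵v⟩ = ⟨𝒵'u, D(Z_i)v⟩ = ⟨u, 𝒵D(Z_i)v⟩`.  So `𝒵` commutes with
      `D(Z_i)`, hence with `Δ`.
If `V = 0` the claim is trivial.  Otherwise some `A.eig lam ≠ 0` (`htop`), it is finite-dimensional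
(`≤ low lam`), so `𝒵` has an eigenvector `v₀ ≠ 0` in it, `𝒵v₀ = zv₀` (`Module.End.exists_eigenvalue`).
For all `u ∈ V`, `g`: `⟨𝒵'u, π(g)v₀⟩ = ⟨u, π(g)𝒵v₀⟩ = z⟨u,π(g)v₀⟩`, i.e. `⟨𝒵'u - z̄u, π(g)v₀⟩ = 0`.
The closed span of the orbit of `v₀` is closed, invariant, nonzero, so is `H` (irreducibility); so
`𝒵'u = z̄u` for all `u ∈ V`, and by (1) `𝒵v = zv` for all `v ∈ V`.
-/

open MeasureTheory Filter Topology
open scoped ENNReal NNReal Matrix

noncomputable section

namespace SBD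

variable {N : ℕ} {G : Type} [Group G] [TopologicalSpace G] [IsTopologicalGroup G]
  [LocallyCompactSpace G] [T2Space G]
variable {H : Type} [NormedAddCommGroup H] [InnerProductSpace ℂ H] [CompleteSpace H]

section alg

variable {V : Type} [NormedAddCommGroup V] [InnerProductSpace ℂ V] (A : LieRep N V)

private theorem P12_fip_add (X Y T : Mat N) : fip (X + Y) T = fip X T + fip Y T := by
  simp [fip, Matrix.transpose_add, Matrix.add_mul, Matrix.trace_add]

private theorem P12_fip_neg (X T : Mat N) : fip (-X) T = -fip X T := by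
  simp [fip, Matrix.transpose_neg, Matrix.trace_neg]

private theorem P12_fip_smul (c : ℝ) (X T : Mat N) : fip (c • X) T = c * fip X T := by
  simp [fip, Matrix.transpose_smul, Matrix.trace_smul]

private theorem P12_fip_sum {ι : Type} (s : Finset ι) (f : ι → Mat N) (T : Mat N) :
    fip (∑ i ∈ s, f i) T = ∑ i ∈ s, fip (f i) T := by
  simp [fip, Matrix.transpose_sum, Finset.sum_mul, Matrix.trace_sum]

private theorem P12_fip_symm (X Y : Mat N) : fip X Y = fip Y X := by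
  unfold fip
  rw [← Matrix.trace_transpose, Matrix.transpose_mul, Matrix.transpose_transpose]

private theorem P12_W_mem (i j : Fin N) : A.W i j ∈ A.𝔤 := by
  unfold LieRep.W
  exact A.𝔤.add_mem
    (A.𝔤.neg_mem (A.𝔤.sum_mem fun a _ => A.𝔤.smul_mem _ (A.Z_mem a)))
    (A.𝔤.sum_mem fun b _ => A.𝔤.smul_mem _ (A.P_mem b))

private theorem P12_fip_W (i j : Fin N) {Y : Mat N} (hY : Y ∈ A.𝔤) : fip (A.W i j) Y = Y j i := by
  have h1 : Y j i = (∑ a, fip (A.Z a) Y • A.Z a + ∑ b, fip (A.P b) Y • A.P b) j i := by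
    rw [← A.basis Y hY]
  rw [h1, Matrix.add_apply, Matrix.sum_apply, Matrix.sum_apply]
  unfold LieRep.W
  rw [P12_fip_add, P12_fip_neg, P12_fip_sum, P12_fip_sum, ← Finset.sum_neg_distrib]
  congr 1
  · refine Finset.sum_congr rfl fun a _ => ?_
    have h2 : A.Z a j i = -A.Z a i j := by
      have := congrFun (congrFun (A.Z_t a) i) j
      rwa [Matrix.transpose_apply, Matrix.neg_apply] at this
    rw [P12_fip_smul, Matrix.smul_apply, h2, smul_eq_mul]
    ring
  · refine Finset.sum_congr rfl fun b _ => ?_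
    have h2 : A.P b j i = A.P b i j := by
      have := congrFun (congrFun (A.P_t b) i) j
      rwa [Matrix.transpose_apply] at this
    rw [P12_fip_smul, Matrix.smul_apply, h2, smul_eq_mul]
    ring

private theorem P12_nondeg {Y : Mat N} (hY : Y ∈ A.𝔤) (h : ∀ T ∈ A.𝔤, fip Y T = 0) : Y = 0 := by
  rw [A.basis Y hY]
  have h1 : ∀ a, fip (A.Z a) Y = 0 := fun a => by
    rw [P12_fip_symm]
    exact h _ (A.Z_mem a)
  have h2 : ∀ b, fip (A.P b) Y = 0 := fun b => by
    rw [P12_fip_symm]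
    exact h _ (A.P_mem b)
  simp [h1, h2]

/-- `ι(g) W_{ij} ι(g)⁻¹ = ∑ (ι(g)⁻¹)_{ia} ι(g)_{bj} W_{ab}` -/
private theorem P12_conj (h h' : Mat N) (hh : ∀ Y ∈ A.𝔤, h * Y * h' ∈ A.𝔤)
    (hh' : ∀ Y ∈ A.𝔤, hᵀ * Y * h'ᵀ ∈ A.𝔤) (i j : Fin N) :
    h * A.W i j * h' = ∑ a, ∑ b, (h' i a * h b j) • A.W a b := by
  rw [← sub_eq_zero]
  refine P12_nondeg A (A.𝔤.sub_mem (hh _ (P12_W_mem A i j))
    (A.𝔤.sum_mem fun a _ => A.𝔤.sum_mem fun b _ => A.𝔤.smul_mem _ (P12_W_mem A a b))) ?_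
  intro T hT
  have h1 : fip (h * A.W i j * h') T = (hᵀ * T * h'ᵀ) j i := by
    rw [← P12_fip_W A i j (hh' T hT)]
    unfold fip
    rw [Matrix.transpose_mul, Matrix.transpose_mul]
    calc (h'ᵀ * ((A.W i j)ᵀ * hᵀ) * T).trace
        = (h'ᵀ * ((A.W i j)ᵀ * hᵀ * T)).trace := by rw [Matrix.mul_assoc]
      _ = ((A.W i j)ᵀ * hᵀ * T * h'ᵀ).trace := Matrix.trace_mul_comm _ _
      _ = _ := by simp only [Matrix.mul_assoc]
  have h2 : fip (∑ a, ∑ b, (h' i a * h b j) • A.W a b) T = (hᵀ * T * h'ᵀ) j i := by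
    rw [P12_fip_sum, Matrix.mul_apply]
    refine Finset.sum_congr rfl fun a _ => ?_
    rw [P12_fip_sum, Matrix.mul_apply, Finset.sum_mul]
    refine Finset.sum_congr rfl fun b _ => ?_
    rw [P12_fip_smul, P12_fip_W A a b hT, Matrix.transpose_apply, Matrix.transpose_apply]
    ring
  rw [sub_eq_add_neg, P12_fip_add, P12_fip_neg, h1, h2, add_neg_cancel]

/-- scalar matrices -/
private def P12_S (M : Mat N) : Matrix (Fin N) (Fin N) (Module.End ℂ V) :=
  fun i j => (M i j) • (1 : Module.End ℂ V)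

private theorem P12_S_mul (M M' : Mat N) :
    (P12_S M : Matrix (Fin N) (Fin N) (Module.End ℂ V)) * P12_S M' = P12_S (M * M') := by
  ext1 i j
  rw [Matrix.mul_apply]
  unfold P12_S
  rw [Matrix.mul_apply, Finset.sum_smul]
  refine Finset.sum_congr rfl fun a _ => ?_
  ext v
  simp only [Module.End.mul_apply, LinearMap.smul_apply, Module.End.one_apply]
  rw [smul_smul]

private theorem P12_S_one : (P12_S 1 : Matrix (Fin N) (Fin N) (Module.End ℂ V)) = 1 := by
  ext1 i j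
  unfold P12_S
  rw [Matrix.one_apply, Matrix.one_apply]
  split_ifs
  · rw [one_smul]
  · rw [zero_smul]

private theorem P12_trace_S (M : Mat N) (Y : Matrix (Fin N) (Fin N) (Module.End ℂ V)) :
    (P12_S M * Y).trace = (Y * P12_S M).trace := by
  unfold Matrix.trace
  simp only [Matrix.diag_apply, Matrix.mul_apply]
  rw [Finset.sum_comm]
  refine Finset.sum_congr rfl fun a _ => Finset.sum_congr rfl fun b _ => ?_
  unfold P12_S
  ext v
  simp

/-- the transpose of `ι(g) X ι(g)⁻¹` -/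
private def P12_Y (h h' : Mat N) : Matrix (Fin N) (Fin N) (Module.End ℂ V) :=
  fun i j => A.D (h * A.W j i * h')

/-- the trace of `((ι(g) X ι(g)⁻¹)ᵀ)^n` -/
private theorem P12_trace (h h' : Mat N) (hh : ∀ Y ∈ A.𝔤, h * Y * h' ∈ A.𝔤)
    (hh' : ∀ Y ∈ A.𝔤, hᵀ * Y * h'ᵀ ∈ A.𝔤) (h1 : h * h' = 1) (h2 : h' * h = 1) (n : ℕ) :
    ((P12_Y A h h') ^ n).trace = (A.X.transpose ^ n).trace := by
  have key : P12_Y A h h' = P12_S hᵀ * A.X.transpose * P12_S h'ᵀ := by
    ext1 i j
    show A.D (h * A.W j i * h') = _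
    rw [P12_conj A h h' hh hh', map_sum, Matrix.mul_apply]
    refine Finset.sum_congr rfl fun a _ => ?_
    rw [map_sum, Matrix.mul_apply, Finset.sum_mul]
    refine Finset.sum_congr rfl fun b _ => ?_
    rw [map_smul]
    ext v
    show (h' j a * h b i) • (A.D (A.W a b)) v = h b i • (A.D (A.W a b)) (h' j a • v)
    rw [LinearMap.map_smul_of_tower, smul_smul, mul_comm]
  have e1 : (P12_S h'ᵀ : Matrix (Fin N) (Fin N) (Module.End ℂ V)) * P12_S hᵀ = 1 := by
    rw [P12_S_mul, ← Matrix.transpose_mul, h1, Matrix.transpose_one, P12_S_one]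
  have e2 : (P12_S hᵀ : Matrix (Fin N) (Fin N) (Module.End ℂ V)) * P12_S h'ᵀ = 1 := by
    rw [P12_S_mul, ← Matrix.transpose_mul, h2, Matrix.transpose_one, P12_S_one]
  rw [key]
  have hpow : ∀ n : ℕ, (P12_S hᵀ * A.X.transpose * P12_S h'ᵀ) ^ n =
      P12_S hᵀ * A.X.transpose ^ n * P12_S h'ᵀ := by
    intro n
    induction n with
    | zero => rw [pow_zero, pow_zero, Matrix.mul_one, e2]
    | succ n ih =>
      rw [pow_succ, ih, pow_succ]
      calc P12_S hᵀ * A.X.transpose ^ n * P12_S h'ᵀ * (P12_S hᵀ * A.X.transpose * P12_S h'ᵀ)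
          = P12_S hᵀ * A.X.transpose ^ n * (P12_S h'ᵀ * P12_S hᵀ) * A.X.transpose * P12_S h'ᵀ := by
            simp only [Matrix.mul_assoc]
        _ = _ := by rw [e1, Matrix.mul_one]; simp only [Matrix.mul_assoc]
  rw [hpow, Matrix.mul_assoc, P12_trace_S, Matrix.mul_assoc, e1, Matrix.mul_one]

end alg

/-- `⟨u, π(g) (X^n)_{il} v⟩ = (-1)^n ⟨((X_gᵀ)^n)_{li} u, π(g) v⟩` -/
private theorem P12_weak (L : LieData N G) (π : G →* (H ≃ₗᵢ[ℂ] H))
    (A : LieRep N (KFin L π)) (hg : A.𝔤 = L.𝔤) (hD : Dif L π A.D) (g : G) (n : ℕ) :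
    ∀ (i l : Fin N) (u v : KFin L π),
    inner ℂ (u : H) (π g (((A.X ^ n) i l v : KFin L π) : H)) =
      (-1) ^ n * inner ℂ ((((P12_Y A (L.ι g) (L.ι g⁻¹)) ^ n) l i u : KFin L π) : H)
        (π g (v : H)) := by
  induction n with
  | zero =>
    intro i l u v
    rw [pow_zero, pow_zero, pow_zero, one_mul, Matrix.one_apply, Matrix.one_apply]
    by_cases h : i = l
    · rw [if_pos h, if_pos h.symm]
      rfl
    · rw [if_neg h, if_neg (Ne.symm h)]
      simp
  | succ n ih =>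
    intro i l u v
    rw [pow_succ A.X, pow_succ' (P12_Y A (L.ι g) (L.ι g⁻¹)), Matrix.mul_apply, Matrix.mul_apply,
      LinearMap.sum_apply, LinearMap.sum_apply, Submodule.coe_sum, Submodule.coe_sum, map_sum,
      inner_sum, sum_inner, Finset.mul_sum]
    refine Finset.sum_congr rfl fun a _ => ?_
    rw [Module.End.mul_apply, Module.End.mul_apply, ih]
    have hW : A.W a l ∈ L.𝔤 := by
      rw [← hg]
      exact P12_W_mem A a l
    have h1 := dif_weak L π A.D hD hW (((P12_Y A (L.ι g) (L.ι g⁻¹)) ^ n) a i u) v g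
    have h2 : inner ℂ ((((P12_Y A (L.ι g) (L.ι g⁻¹)) ^ n) a i u : KFin L π) : H)
        (π g (((A.X a l) v : KFin L π) : H)) =
        -inner ℂ (((P12_Y A (L.ι g) (L.ι g⁻¹)) l a
          (((P12_Y A (L.ι g) (L.ι g⁻¹)) ^ n) a i u) : KFin L π) : H) (π g (v : H)) := h1
    rw [h2, pow_succ]
    ring

/-- the adjoint of `tr(X^n)` -/
private theorem P12_adj (L : LieData N G) (π : G →* (H ≃ₗᵢ[ℂ] H))
    (A : LieRep N (KFin L π)) (hg : A.𝔤 = L.𝔤) (hD : Dif L π A.D) (n : ℕ) (g : G)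
    (u v : KFin L π) :
    inner ℂ (u : H) (π g (((A.X ^ n).trace v : KFin L π) : H)) =
      inner ℂ (((((-1 : ℂ) ^ n) • (A.X.transpose ^ n).trace) u : KFin L π) : H) (π g (v : H)) := by
  have h0 : (A.X.transpose ^ n).trace = ((P12_Y A (L.ι g) (L.ι g⁻¹)) ^ n).trace := by
    refine (P12_trace A _ _ ?_ ?_ ?_ ?_ n).symm
    · rw [hg]
      exact fun Y hY => L.ad_mem g Y hY
    · rw [hg]
      intro Y hY
      have h := L.transpose_mem _ (L.ad_mem g⁻¹ _ (L.transpose_mem Y hY))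
      rw [inv_inv, Matrix.transpose_mul, Matrix.transpose_mul, Matrix.transpose_transpose,
        ← Matrix.mul_assoc] at h
      exact h
    · rw [← map_mul, mul_inv_cancel, map_one]
    · rw [← map_mul, inv_mul_cancel, map_one]
  rw [h0, LinearMap.smul_apply, Submodule.coe_smul, inner_smul_left]
  unfold Matrix.trace
  rw [LinearMap.sum_apply, LinearMap.sum_apply, Submodule.coe_sum, Submodule.coe_sum, map_sum,
    inner_sum, sum_inner, Finset.mul_sum]
  refine Finset.sum_congr rfl fun i _ => ?_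
  rw [Matrix.diag_apply, Matrix.diag_apply, P12_weak L π A hg hD g n i i u v]
  congr 1
  rw [map_pow, map_neg, map_one]

/-- `tr(X^n)` commutes with `D(X)` -/
private theorem P12_comm (L : LieData N G) (π : G →* (H ≃ₗᵢ[ℂ] H))
    (A : LieRep N (KFin L π)) (hg : A.𝔤 = L.𝔤) (hD : Dif L π A.D) (n : ℕ) {X : Mat N}
    (hX : X ∈ L.𝔤) (v : KFin L π) :
    A.D X ((A.X ^ n).trace v) = (A.X ^ n).trace (A.D X v) := by
  refine ext_inner_left ℂ fun u => ?_
  show inner ℂ (u : H) ((A.D X ((A.X ^ n).trace v) : KFin L π) : H) =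
    inner ℂ (u : H) (((A.X ^ n).trace (A.D X v) : KFin L π) : H)
  have h1 := (hasDerivAt_const (0 : ℝ) (u : H)).inner ℂ (hD X hX ((A.X ^ n).trace v))
  have h2 := (hasDerivAt_const (0 : ℝ)
    (((((-1 : ℂ) ^ n) • (A.X.transpose ^ n).trace) u : KFin L π) : H)).inner ℂ (hD X hX v)
  have h3 : (fun t : ℝ => inner ℂ (u : H)
      (π (L.e (t • X)) (((A.X ^ n).trace v : KFin L π) : H))) =
      fun t : ℝ => inner ℂ (((((-1 : ℂ) ^ n) • (A.X.transpose ^ n).trace) u : KFin L π) : H)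
        (π (L.e (t • X)) (v : H)) := by
    funext t
    exact P12_adj L π A hg hD n _ u v
  rw [h3] at h1
  have h4 := h1.unique h2
  rw [inner_zero_left, inner_zero_left, add_zero, add_zero] at h4
  rw [h4]
  have h5 := P12_adj L π A hg hD n 1 u (A.D X v)
  rw [map_one] at h5
  exact h5.symm

theorem trace_scalar (L : LieData N G) (π : G →* (H ≃ₗᵢ[ℂ] H)) (hirr : IsIrr π)
    (A : LieRep N (KFin L π)) (hg : A.𝔤 = L.𝔤) (hD : Dif L π A.D)
    (hfin : ∀ R, FiniteDimensional ℂ (A.low R)) (htop : ⨆ lam : ℝ, A.eig lam = ⊤)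
    (j : ℕ) (hj : 1 ≤ j) : ∃ z : ℂ, (A.X ^ j).trace = z • (1 : Module.End ℂ (KFin L π)) := by
  by_cases hV : ∀ lam : ℝ, A.eig lam = ⊥
  · refine ⟨0, ?_⟩
    have h1 : (⊤ : Submodule ℂ (KFin L π)) = ⊥ := by
      rw [← htop]
      simp [hV]
    ext1 v
    have h2 : ∀ x : KFin L π, x = 0 := fun x => by
      have : x ∈ (⊤ : Submodule ℂ (KFin L π)) := Submodule.mem_top
      rw [h1] at this
      exact (Submodule.mem_bot ℂ).mp this
    rw [h2 ((A.X ^ j).trace v), h2 ((0 • (1 : Module.End ℂ (KFin L π))) v)]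
  · push Not at hV
    obtain ⟨lam, hlam⟩ := hV
    have hle : A.eig lam ≤ A.low lam :=
      le_iSup (fun l : {x : ℝ // x ≤ lam} => A.eig l) ⟨lam, le_refl lam⟩
    have hf := hfin lam
    have hfd : FiniteDimensional ℂ (A.eig lam) := Submodule.finiteDimensional_of_le hle
    have hnt : Nontrivial (A.eig lam) := Submodule.nontrivial_iff_ne_bot.mpr hlam
    have hinv : ∀ x ∈ A.eig lam, (A.X ^ j).trace x ∈ A.eig lam := by
      intro x hx
      have hx' : A.Del x = (lam : ℂ) • x := hx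
      show A.Del ((A.X ^ j).trace x) = (lam : ℂ) • (A.X ^ j).trace x
      rw [← map_smul, ← hx']
      unfold LieRep.Del
      simp only [LinearMap.sub_apply, LinearMap.id_apply, LinearMap.sum_apply,
        LinearMap.comp_apply, map_sub, map_sum]
      congr 1
      refine Finset.sum_congr rfl fun i _ => ?_
      have hZ : A.Z i ∈ L.𝔤 := by
        rw [← hg]
        exact A.Z_mem i
      rw [P12_comm L π A hg hD j hZ, P12_comm L π A hg hD j hZ]
    obtain ⟨z, hz⟩ := Module.End.exists_eigenvalue ((A.X ^ j).trace.restrict hinv)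
    obtain ⟨⟨v₀, hv₀⟩, hev⟩ := hz.exists_hasEigenvector
    have hev1 : (A.X ^ j).trace v₀ = z • v₀ := congrArg Subtype.val hev.apply_eq_smul
    have hev2 : v₀ ≠ 0 := fun h => hev.2 (Subtype.ext h)
    refine ⟨z, ?_⟩
    have key : ∀ u : KFin L π, (((((-1 : ℂ) ^ j) • (A.X.transpose ^ j).trace) u : KFin L π) : H) =
        (starRingEnd ℂ) z • (u : H) := by
      intro u
      set w : H := (((((-1 : ℂ) ^ j) • (A.X.transpose ^ j).trace) u : KFin L π) : H) -
        (starRingEnd ℂ) z • (u : H) with hw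
      let W' : Submodule ℂ H :=
        { carrier := {x | ∀ g : G, inner ℂ w (π g x) = 0}
          add_mem' := by
            intro a b ha hb g
            rw [map_add, inner_add_right, ha g, hb g, add_zero]
          zero_mem' := by
            intro g
            rw [map_zero, inner_zero_right]
          smul_mem' := by
            intro c x hx g
            rw [map_smul, inner_smul_right, hx g, mul_zero] }
      have hmem : ∀ x, x ∈ W' ↔ ∀ g : G, inner ℂ w (π g x) = 0 := fun x => Iff.rfl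
      have hcl : IsClosed (W' : Set H) := by
        have : (W' : Set H) = ⋂ g : G, {x | inner ℂ w (π g x) = 0} := by
          ext x
          simp only [SetLike.mem_coe, hmem, Set.mem_iInter]
          rfl
        rw [this]
        exact isClosed_iInter fun g =>
          isClosed_eq (continuous_const.inner (π g).continuous) continuous_const
      have hv0 : (v₀ : H) ∈ W' := by
        rw [hmem]
        intro g
        have h1 := P12_adj L π A hg hD j g u v₀
        rw [hw, inner_sub_left, ← h1, hev1, Submodule.coe_smul, map_smul, inner_smul_right,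
          inner_smul_left, Complex.conj_conj, sub_self]
      rcases hirr.irr W' hcl (fun g v hv => by
        rw [hmem] at hv ⊢
        intro h
        have h9 := hv (h * g)
        rw [map_mul] at h9
        exact h9) with h | h
      · exfalso
        rw [h, Submodule.mem_bot] at hv0
        exact hev2 (Subtype.ext hv0)
      · have hwW : w ∈ W' := by
          rw [h]
          exact Submodule.mem_top
        have h1 := (hmem w).mp hwW 1
        rw [map_one] at h1
        have h2 : w = 0 := inner_self_eq_zero.mp h1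
        rw [hw, sub_eq_zero] at h2
        exact h2
    ext1 v
    refine ext_inner_left ℂ fun u => ?_
    show inner ℂ (u : H) (((A.X ^ j).trace v : KFin L π) : H) =
      inner ℂ (u : H) (((z • (1 : Module.End ℂ (KFin L π))) v : KFin L π) : H)
    have h5 := P12_adj L π A hg hD j 1 u v
    rw [map_one, key u] at h5
    have h6 : inner ℂ (u : H) (((A.X ^ j).trace v : KFin L π) : H) =
        inner ℂ ((starRingEnd ℂ) z • (u : H)) (v : H) := h5
    rw [h6, LinearMap.smul_apply, Module.End.one_apply, Submodule.coe_smul, inner_smul_left,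
      inner_smul_right, Complex.conj_conj]

end SBD
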