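import Pool.Agent.SBD.Sm
import Pool.Agent.SBD.P01

/-!
# Row SBD-Q01 : smooth spaces of vectors

The proofs are those of P10 (`dif_line`, `dif_skew`, `dif_weak`) and P11 (`dif_bracket`), store
`SBD_P10.lean`, `SBD_P11.lean`, with `KFin L π` replaced by an arbitrary submodule `E` (nothing
special about `KFin` is used there); copy and adapt them.
`difE_unique` : two smooth structures on `E` and `E₀ ≤ E` agree on `𝔤` (uniqueness of derivatives).
`difE_conj` : `π(g)π(e(tX))u = π(e(t ι(g)Xι(g⁻¹)))π(g)u` (`ad_e`), differentiate.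
`exists_Bases` : P01 `exists_bases`.
-/

open MeasureTheory Filter Topology
open scoped ENNReal NNReal Matrix

noncomputable section

namespace SBD

variable {N : ℕ} {G : Type} [Group G] [TopologicalSpace G] [IsTopologicalGroup G]
  [LocallyCompactSpace G] [T2Space G]
variable {H : Type} [NormedAddCommGroup H] [InnerProductSpace ℂ H] [CompleteSpace H]

variable (L : LieData N G) (π : G →* (H ≃ₗᵢ[ℂ] H)) (E : Submodule ℂ H)
  (D : Mat N →ₗ[ℝ] (E →ₗ[ℂ] E)) (hD : DifE L π E D)

section Q01priv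

omit [TopologicalSpace G] [IsTopologicalGroup G] [LocallyCompactSpace G] [T2Space G]
  [CompleteSpace H] in
private theorem q01_mul (g h : G) (v : H) : π (g * h) v = π g (π h v) := by
  rw [map_mul]
  rfl

omit [TopologicalSpace G] [IsTopologicalGroup G] [LocallyCompactSpace G] [T2Space G]
  [CompleteSpace H] in
private theorem q01_deriv (g : G) {f : ℝ → H} {f' : H} {t : ℝ} (h : HasDerivAt f f' t) :
    HasDerivAt (fun s => π g (f s)) (π g f') t := by
  let l : H →L[ℝ] H := ((π g).toContinuousLinearEquiv : H →L[ℂ] H).restrictScalars ℝ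
  exact l.hasFDerivAt.comp_hasDerivAt t h

attribute [local instance] Matrix.linftyOpNormedRing Matrix.linftyOpNormedAlgebra

/-- the derivative of `exp(sX) Y exp(-sX)` -/
private theorem q01_exp_deriv {H' : Type} [NormedAddCommGroup H'] [NormedSpace ℝ H'] (X Y : Mat N)
    (F : Mat N →ₗ[ℝ] H') :
    HasDerivAt (fun s : ℝ => F (NormedSpace.exp (s • X) * Y * NormedSpace.exp (s • (-X))))
      (F (X * Y - Y * X)) 0 := by
  have h1 : HasDerivAt (fun s : ℝ => NormedSpace.exp (s • X)) X 0 := by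
    have h := hasDerivAt_exp_smul_const (𝕂 := ℝ) X (0 : ℝ)
    rw [zero_smul, NormedSpace.exp_zero, one_mul] at h
    exact h
  have h2 : HasDerivAt (fun s : ℝ => NormedSpace.exp (s • (-X))) (-X) 0 := by
    have h := hasDerivAt_exp_smul_const (𝕂 := ℝ) (-X) (0 : ℝ)
    rw [zero_smul, NormedSpace.exp_zero, one_mul] at h
    exact h
  have h3 := (h1.mul_const Y).mul h2
  have h4 : X * Y * NormedSpace.exp ((0 : ℝ) • (-X)) +
      NormedSpace.exp ((0 : ℝ) • X) * Y * (-X) = X * Y - Y * X := by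
    simp only [zero_smul, NormedSpace.exp_zero, mul_one, one_mul, mul_neg]
    abel
  rw [h4] at h3
  exact (LinearMap.toContinuousLinearMap F).hasFDerivAt.comp_hasDerivAt (0 : ℝ) h3

end Q01priv

include hD

theorem difE_line {X : Mat N} (hX : X ∈ L.𝔤) (u : E) (t : ℝ) :
    HasDerivAt (fun s : ℝ => π (L.e (s • X)) (u : H)) (π (L.e (t • X)) ((D X u : E) : H))
      t := by
  have h1 := hD X hX u
  have h2 : HasDerivAt (fun s : ℝ => π (L.e ((s - t) • X)) (u : H)) ((D X u : E) : H) t := by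
    have h3 : HasDerivAt (fun s : ℝ => π (L.e (s • X)) (u : H)) ((D X u : E) : H)
        (t - t) := by
      rw [sub_self]
      exact h1
    exact h3.comp_sub_const t t
  have h4 := q01_deriv π (L.e (t • X)) h2
  have h5 : (fun s : ℝ => π (L.e (s • X)) (u : H)) =
      fun s : ℝ => π (L.e (t • X)) (π (L.e ((s - t) • X)) (u : H)) := by
    funext s
    rw [← q01_mul, ← L.e_add X hX, add_sub_cancel]
  rw [h5]
  exact h4

theorem difE_skew {X : Mat N} (hX : X ∈ L.𝔤) (u v : E) :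
    inner ℂ (D X u) v = -inner ℂ u (D X v) := by
  have h1 := hD X hX u
  have h2 := hD X hX v
  have h3 := HasDerivAt.inner ℂ h1 h2
  have h4 : (fun t : ℝ => inner ℂ (π (L.e (t • X)) (u : H)) (π (L.e (t • X)) (v : H))) =
      fun _ : ℝ => inner ℂ (u : H) (v : H) := by
    funext t
    exact LinearIsometryEquiv.inner_map_map _ _ _
  rw [h4] at h3
  have h5 := h3.unique (hasDerivAt_const (0 : ℝ) (inner ℂ (u : H) (v : H)))
  rw [zero_smul, e_zero, map_one] at h5
  have h6 : inner ℂ (u : H) ((D X v : E) : H) + inner ℂ ((D X u : E) : H) (v : H) = 0 :=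
    h5
  rw [Submodule.coe_inner, Submodule.coe_inner]
  linear_combination h6

theorem difE_weak {X : Mat N} (hX : X ∈ L.𝔤) (u v : E) (g : G) :
    inner ℂ (u : H) (π g ((D X v : E) : H)) =
      -inner ℂ ((D (L.ι g * X * L.ι g⁻¹) u : E) : H) (π g (v : H)) := by
  have hX' := L.ad_mem g X hX
  have h1 := HasDerivAt.inner ℂ (hasDerivAt_const (0 : ℝ) (u : H)) (q01_deriv π g (hD X hX v))
  have h2 : HasDerivAt (fun t : ℝ => π (L.e ((-t) • (L.ι g * X * L.ι g⁻¹))) (u : H))
      (-((D (L.ι g * X * L.ι g⁻¹) u : E) : H)) 0 := by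
    have h3 := hD (L.ι g * X * L.ι g⁻¹) hX' u
    have h4 : HasDerivAt (fun s : ℝ => π (L.e (s • (L.ι g * X * L.ι g⁻¹))) (u : H))
        ((D (L.ι g * X * L.ι g⁻¹) u : E) : H) (-(0 : ℝ)) := by
      rw [neg_zero]
      exact h3
    have h5 := h4.scomp (0 : ℝ) (hasDerivAt_neg (0 : ℝ))
    rw [neg_one_smul] at h5
    exact h5
  have h3 := HasDerivAt.inner ℂ h2 (hasDerivAt_const (0 : ℝ) (π g (v : H)))
  have h4 : (fun t : ℝ => inner ℂ (u : H) (π g (π (L.e (t • X)) (v : H)))) =
      fun t : ℝ => inner ℂ (π (L.e ((-t) • (L.ι g * X * L.ι g⁻¹))) (u : H)) (π g (v : H)) := by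
    funext t
    have e1 : t • (L.ι g * X * L.ι g⁻¹) = L.ι g * (t • X) * L.ι g⁻¹ := by
      rw [Matrix.mul_smul, Matrix.smul_mul]
    have e2 : L.e ((-t) • (L.ι g * X * L.ι g⁻¹)) = (L.e (t • (L.ι g * X * L.ι g⁻¹)))⁻¹ := by
      rw [neg_smul, e_neg L (L.𝔤.smul_mem t hX')]
    have e3 : g * L.e (t • X) = L.e (t • (L.ι g * X * L.ι g⁻¹)) * g := by
      rw [e1, L.ad_e g _ (L.𝔤.smul_mem t hX), inv_mul_cancel_right]
    rw [← q01_mul, e3, q01_mul, e2]
    rw [← LinearIsometryEquiv.inner_map_map (π (L.e (t • (L.ι g * X * L.ι g⁻¹)))⁻¹) (u : H)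
      (π (L.e (t • (L.ι g * X * L.ι g⁻¹))) (π g (v : H))), ← q01_mul, inv_mul_cancel, map_one]
    rfl
  rw [h4] at h1
  have h5 := h1.unique h3
  rw [zero_smul, neg_zero, zero_smul, e_zero, map_one] at h5
  have h6 : inner ℂ (u : H) (π g ((D X v : E) : H)) + inner ℂ (0 : H) (π g (v : H)) =
      inner ℂ (u : H) (0 : H) +
        inner ℂ (-((D (L.ι g * X * L.ι g⁻¹) u : E) : H)) (π g (v : H)) := h5
  rw [inner_zero_left, inner_zero_right, add_zero, zero_add, inner_neg_left] at h6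
  exact h6

theorem difE_bracket {X Y : Mat N} (hX : X ∈ L.𝔤) (hY : Y ∈ L.𝔤) (v : E) :
    D (X * Y - Y * X) v = D X (D Y v) - D Y (D X v) := by
  have hXY : X * Y - Y * X ∈ L.𝔤 := L.bracket_mem X hX Y hY
  have key : ∀ u : E, inner ℂ u (D X (D Y v)) =
      inner ℂ u (D Y (D X v)) + inner ℂ u (D (X * Y - Y * X) v) := by
    intro u
    let F : Mat N →ₗ[ℝ] H :=
      { toFun := fun Y' => ((D Y' u : E) : H)
        map_add' := fun a b => by simp
        map_smul' := fun c a => by simp }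
    have hd1 : HasDerivAt (fun s : ℝ => inner ℂ (u : H)
        (π (L.e (s • X)) ((D Y v : E) : H)))
        (inner ℂ (u : H) ((D X (D Y v) : E) : H)) 0 := by
      have h1 := (hasDerivAt_const (0 : ℝ) (u : H)).inner ℂ (hD X hX (D Y v))
      simpa using h1
    have hd2 : HasDerivAt (fun s : ℝ => - inner ℂ
        (F (NormedSpace.exp (s • X) * Y * NormedSpace.exp (s • (-X)))) (π (L.e (s • X)) (v : H)))
        (- (inner ℂ ((D Y u : E) : H) ((D X v : E) : H) +
          inner ℂ ((D (X * Y - Y * X) u : E) : H) (v : H))) 0 := by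
      have h1 := ((q01_exp_deriv X Y F).inner ℂ (hD X hX v)).neg
      have h2 : NormedSpace.exp ((0 : ℝ) • X) * Y * NormedSpace.exp ((0 : ℝ) • (-X)) = Y := by
        simp
      have h3 : (π (L.e ((0 : ℝ) • X)) (v : H)) = v := by
        rw [zero_smul, e_zero, map_one]
        rfl
      rw [h2, h3] at h1
      exact h1
    have heq : (fun s : ℝ => inner ℂ (u : H) (π (L.e (s • X)) ((D Y v : E) : H))) =
        fun s : ℝ => - inner ℂ
        (F (NormedSpace.exp (s • X) * Y * NormedSpace.exp (s • (-X))))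
          (π (L.e (s • X)) (v : H)) := by
      funext s
      rw [difE_weak L π E D hD hY u v (L.e (s • X))]
      have h1 : L.ι (L.e (s • X)) = NormedSpace.exp (s • X) := L.ι_e _ (L.𝔤.smul_mem s hX)
      have h2 : L.ι (L.e (s • X))⁻¹ = NormedSpace.exp (s • (-X)) := by
        rw [← e_neg L (L.𝔤.smul_mem s hX), ← smul_neg]
        exact L.ι_e _ (L.𝔤.smul_mem s (L.𝔤.neg_mem hX))
      rw [h1, h2]
      rfl
    rw [heq] at hd1
    have h1 := hd1.unique hd2
    have h2 := difE_skew L π E D hD hY u (D X v)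
    have h3 := difE_skew L π E D hD hXY u v
    rw [Submodule.coe_inner, Submodule.coe_inner] at h2 h3
    rw [Submodule.coe_inner, Submodule.coe_inner, Submodule.coe_inner, h1, h2, h3]
    ring
  have h0 : ∀ u : E, inner ℂ u (D X (D Y v) - D Y (D X v) - D (X * Y - Y * X) v) = 0 := by
    intro u
    rw [inner_sub_right, inner_sub_right, key u]
    ring
  have h1 := inner_self_eq_zero.1 (h0 _)
  exact (sub_eq_zero.1 h1).symm

theorem difE_unique (E₀ : Submodule ℂ H) (D₀ : Mat N →ₗ[ℝ] (E₀ →ₗ[ℂ] E₀))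
    (hD₀ : DifE L π E₀ D₀) {X : Mat N} (hX : X ∈ L.𝔤) (u₀ : E₀) (u : E) (h : (u₀ : H) = (u : H)) :
    ((D₀ X u₀ : E₀) : H) = ((D X u : E) : H) := by
  have h1 := hD₀ X hX u₀
  rw [h] at h1
  exact h1.unique (hD X hX u)

theorem difE_conj {X : Mat N} (hX : X ∈ L.𝔤) (g : G) (u u' : E) (h : (u' : H) = π g (u : H)) :
    π g ((D X u : E) : H) = ((D (L.ι g * X * L.ι g⁻¹) u' : E) : H) := by
  have h1 := q01_deriv π g (hD X hX u)
  have h2 := hD (L.ι g * X * L.ι g⁻¹) (L.ad_mem g X hX) u'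
  have h3 : (fun t : ℝ => π g (π (L.e (t • X)) (u : H))) =
      fun t : ℝ => π (L.e (t • (L.ι g * X * L.ι g⁻¹))) (u' : H) := by
    funext t
    have e1 : t • (L.ι g * X * L.ι g⁻¹) = L.ι g * (t • X) * L.ι g⁻¹ := by
      rw [Matrix.mul_smul, Matrix.smul_mul]
    rw [h, e1, L.ad_e g _ (L.𝔤.smul_mem t hX), ← q01_mul, ← q01_mul, inv_mul_cancel_right]
  rw [h3] at h1
  exact h1.unique h2

omit hD in
theorem exists_Bases : Nonempty (Bases L) := by
  obtain ⟨m, n, Z, P, h1, h2, h3, h4⟩ := exists_bases L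
  exact ⟨{
    m := m
    n := n
    Z := Z
    P := P
    Z_mem := fun i => (h1.1 i).1
    P_mem := fun i => (h2 i).1
    Z_t := fun i => (h1.1 i).2
    P_t := fun i => (h2 i).2
    Z_o := h1.2.1
    P_o := h3
    basis := h4 }⟩

end SBD
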