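import Pool.Agent.SBD.Q01

/-!
# Row SBD-Q02 : gluing the derivatives

If every `v ∈ E` has, for `X ∈ 𝔤`, a derivative `ℓ_v(X) ∈ E` linear in `X`, then there is
`D : Mat N →ₗ[ℝ] (E →ₗ[ℂ] E)` with `DifE L π E D`: choose a `Bases L`, `X_α` = its elements
(orthonormal basis of `𝔤`), `D X v = ∑_α fip(X_α, X) ℓ_v(X_α)`; additivity in `v` and `ℂ`-linearity by
uniqueness of derivatives; for `X ∈ 𝔤`: `D X v = ℓ_v(∑ fip(X_α,X)X_α) = ℓ_v(X)`.  (Same as the last
step of P09, store `SBD_P09.lean`.)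
-/

open MeasureTheory Filter Topology
open scoped ENNReal NNReal Matrix

noncomputable section

namespace SBD

variable {N : ℕ} {G : Type} [Group G] [TopologicalSpace G] [IsTopologicalGroup G]
  [LocallyCompactSpace G] [T2Space G]
variable {H : Type} [NormedAddCommGroup H] [InnerProductSpace ℂ H] [CompleteSpace H]

theorem exists_DE (L : LieData N G) (π : G →* (H ≃ₗᵢ[ℂ] H)) (E : Submodule ℂ H)
    (h : ∀ v ∈ E, ∃ ℓ : Mat N →ₗ[ℝ] H, ∀ X ∈ L.𝔤, ℓ X ∈ E ∧
      HasDerivAt (fun t : ℝ => π (L.e (t • X)) v) (ℓ X) 0) :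
    ∃ D : Mat N →ₗ[ℝ] (E →ₗ[ℂ] E), DifE L π E D := by
  have h' : ∀ v : E, ∃ ℓ : Mat N →ₗ[ℝ] H, ∀ X ∈ L.𝔤, ℓ X ∈ E ∧
      HasDerivAt (fun t : ℝ => π (L.e (t • X)) (v : H)) (ℓ X) 0 := fun v => h v v.2
  choose ell hell' using h'
  have hell : ∀ (u : E), ∀ X ∈ L.𝔤,
      HasDerivAt (fun t : ℝ => π (L.e (t • X)) (u : H)) (ell u X) 0 :=
    fun u X hX => (hell' u X hX).2
  have hmem : ∀ X ∈ L.𝔤, ∀ u : E, ell u X ∈ E := fun X hX u => (hell' u X hX).1
  obtain ⟨B⟩ := exists_Bases L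
  -- linearity in `u`
  have hadd : ∀ X ∈ L.𝔤, ∀ u v : E, ell (u + v) X = ell u X + ell v X := by
    intro X hX u v
    refine (hell (u + v) X hX).unique ?_
    have h1 := (hell u X hX).add (hell v X hX)
    have h2 : (fun t : ℝ => π (L.e (t • X)) ((u + v : E) : H)) =
        (fun t : ℝ => π (L.e (t • X)) (u : H)) + fun t : ℝ => π (L.e (t • X)) (v : H) := by
      funext t
      rw [Pi.add_apply, Submodule.coe_add, map_add]
    rw [h2]
    exact h1
  have hsmul : ∀ X ∈ L.𝔤, ∀ (c : ℂ) (u : E), ell (c • u) X = c • ell u X := by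
    intro X hX c u
    refine (hell (c • u) X hX).unique ?_
    have h1 := (hell u X hX).const_smul c
    have h2 : (fun t : ℝ => π (L.e (t • X)) ((c • u : E) : H)) =
        c • fun t : ℝ => π (L.e (t • X)) (u : H) := by
      funext t
      rw [Pi.smul_apply, Submodule.coe_smul, map_smul]
    rw [h2]
    exact h1
  let T : ∀ X : Mat N, X ∈ L.𝔤 → (E →ₗ[ℂ] E) := fun X hX =>
    { toFun := fun u => ⟨ell u X, hmem X hX u⟩
      map_add' := fun u v => Subtype.ext (hadd X hX u v)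
      map_smul' := fun c u => Subtype.ext (hsmul X hX c u) }
  have hexp : ∀ (u : E), ∀ X ∈ L.𝔤, ell u X = ∑ i, fip (B.Z i) X • ell u (B.Z i) +
      ∑ j, fip (B.P j) X • ell u (B.P j) := by
    intro u X hX
    conv_lhs => rw [B.basis X hX]
    rw [map_add, map_sum, map_sum]
    simp only [map_smul]
  let φ : Mat N → (Mat N →ₗ[ℝ] ℝ) := fun A =>
    { toFun := fun X => fip A X
      map_add' := fun X Y => by simp [fip, Matrix.mul_add]
      map_smul' := fun t X => by simp [fip] }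
  refine ⟨∑ i, (φ (B.Z i)).smulRight (T (B.Z i) (B.Z_mem i)) +
    ∑ j, (φ (B.P j)).smulRight (T (B.P j) (B.P_mem j)), ?_⟩
  intro X hX u
  have h1 := hell u X hX
  rw [hexp u X hX] at h1
  have h2 : (((∑ i, (φ (B.Z i)).smulRight (T (B.Z i) (B.Z_mem i)) +
      ∑ j, (φ (B.P j)).smulRight (T (B.P j) (B.P_mem j)) :
        Mat N →ₗ[ℝ] (E →ₗ[ℂ] E)) X u : E) : H) =
      ∑ i, fip (B.Z i) X • ell u (B.Z i) + ∑ j, fip (B.P j) X • ell u (B.P j) := by
    simp only [LinearMap.add_apply, LinearMap.sum_apply, LinearMap.smulRight_apply,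
      LinearMap.smul_apply, Submodule.coe_add, Submodule.coe_sum, Submodule.coe_smul_of_tower]
    rfl
  rw [h2]
  exact h1

end SBD
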