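import Pool.Agent.SBD.Sm
import Pool.Agent.SBD.P02

/-!
# Row SBD-Q03 : functions on a sheet

`S' = {x ∈ O | fsq(ι x - 1) ≤ ρ/2}` is a closed subset of the compact set `Sheet.compact`, so compact.
* `shf_cont`, `shf_supp` : `shf L O Φ` vanishes outside `S'`, is continuous on the open set `O` and on
  the open set `S'ᶜ`, which cover `G`.  (As in P03, store `SBD_P03.lean`.)
* `LX_smF` : `fderiv` of a smooth function is smooth; if `fsq(M-1) > ρ/2` then `Φ = 0` near `M`, so
  `fderiv Φ M = 0`; by continuity also for `fsq(M-1) = ρ/2` (the points with `fsq(M-1) > ρ/2` are dense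
  near such an `M`: move `M` away from `1`).  `N = 0`: `fsq = 0 < ρ/2`, nothing to show.
* `LX_add`, `LX_smul` : linearity of `fderiv Φ M` and of `X ↦ X M`.
* `shf_deriv` : uniform derivative, exactly the argument of P03 (store `SBD_P03.lean`): for `x ∈ O`
  with `e(tX)x ∈ O` use `t ↦ Φ(exp(tX) ι(x))`, whose derivative at `t` is `(LX X Φ)(exp(tX)ι(x))`;
  uniform continuity on compact sets and the mean value inequality.
* `shf_bump` : `Φ(M) = c φ(fsq(M - 1)/ρ')` with a smooth `φ ≥ 0`, `φ(s) = 1` for `s ≤ 1/4`, `φ(s) = 0` for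
  `s ≥ 1/2` (`Real.smoothTransition`), `ρ' ≤ ρ` so small that `{x ∈ O | fsq(ι x - 1) ≤ ρ'} ⊂ O₁`
  (compactness: the compact sets `{x ∈ O | fsq(ι x - 1) ≤ ρ'} \ interior O₁` decrease to
  `{x ∈ O | ι x = 1} \ interior O₁`; to make this empty use that `ι` is injective near 1 — simplest:
  the hypothesis `hinj` says that `1` is the only `x ∈ O` with `ι x = 1`), `c > 0` with `∫ = 1`.
-/

open MeasureTheory Filter Topology
open scoped ENNReal NNReal Matrix

noncomputable section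

namespace SBD

variable {N : ℕ} {G : Type} [Group G] [TopologicalSpace G] [IsTopologicalGroup G]
  [LocallyCompactSpace G] [T2Space G]
variable [SecondCountableTopology G] [MeasurableSpace G] [BorelSpace G]

section
open scoped Matrix.Norms.Operator

omit [SecondCountableTopology G] [MeasurableSpace G] [BorelSpace G] in
private theorem q03_exp_entry_aux (N : ℕ) (X M : Mat N) (i j : Fin N) :
    HasDerivAt (fun t : ℝ => (NormedSpace.exp (t • X) * M) i j) ((X * M) i j) 0 := by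
  have h : HasDerivAt (fun t : ℝ => NormedSpace.exp (t • X)) X 0 := by
    have h1 := hasDerivAt_exp_smul_const (𝕂 := ℝ) X (0 : ℝ)
    rwa [zero_smul, NormedSpace.exp_zero, one_mul] at h1
  let l : Mat N →ₗ[ℝ] ℝ :=
    { toFun := fun A => (A * M) i j
      map_add' := fun A B => by rw [Matrix.add_mul, Matrix.add_apply]
      map_smul' := fun c A => by rw [Matrix.smul_mul, Matrix.smul_apply, RingHom.id_apply] }
  exact l.toContinuousLinearMap.hasFDerivAt.comp_hasDerivAt 0 h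

end

private theorem q03_exp_entry (N : ℕ) (X M : Mat N) (i j : Fin N) :
    HasDerivAt (fun t : ℝ => (NormedSpace.exp (t • X) * M) i j) ((X * M) i j) 0 :=
  q03_exp_entry_aux N X M i j

/-- a function cut off at an open set -/
private theorem q03_ind {O' S' : Set G} (hO : IsOpen O') (hS : IsCompact S') (hSO : S' ⊆ O') {F : G → ℝ}
    (hF : Continuous F) (h0 : ∀ x ∈ O', x ∉ S' → F x = 0) :
    Continuous (Set.indicator O' F) ∧ HasCompactSupport (Set.indicator O' F) ∧
      ∀ x, x ∉ S' → Set.indicator O' F x = 0 := by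
  have hz : ∀ x, x ∉ S' → Set.indicator O' F x = 0 := by
    intro x hx
    by_cases h : x ∈ O'
    · rw [Set.indicator_of_mem h]
      exact h0 x h hx
    · exact Set.indicator_of_notMem h F
  refine ⟨?_, HasCompactSupport.intro hS hz, hz⟩
  rw [continuous_iff_continuousAt]
  intro x
  by_cases h : x ∈ O'
  · refine hF.continuousAt.congr ?_
    filter_upwards [hO.mem_nhds h] with y hy
    exact (Set.indicator_of_mem hy F).symm
  · have hx : x ∈ S'ᶜ := fun h1 => h (hSO h1)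
    refine (continuousAt_const (y := (0 : ℝ))).congr ?_
    filter_upwards [hS.isClosed.isOpen_compl.mem_nhds hx] with y hy
    exact (hz y hy).symm

open scoped Pointwise in
/-- left uniform continuity -/
private theorem q03_unif {h : G → ℝ} (hc : Continuous h) (hs : HasCompactSupport h) {η : ℝ} (hη : 0 < η) :
    ∃ V ∈ 𝓝 (1 : G), ∀ u ∈ V, ∀ x, |h (u * x) - h x| ≤ η := by
  obtain ⟨W0, hW0, hW1⟩ := exists_compact_mem_nhds (1 : G)
  have hS : IsCompact (tsupport h) := hs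
  have hQ : IsCompact (W0⁻¹ * tsupport h ∪ tsupport h) := (hW0.inv.mul hS).union hS
  have hn : IsOpen {p : G × G | |h (p.1 * p.2) - h p.2| < η} :=
    isOpen_lt (((hc.comp (continuous_fst.mul continuous_snd)).sub
      (hc.comp continuous_snd)).abs) continuous_const
  obtain ⟨u, v, hu, -, hu1, hv1, huv⟩ := generalized_tube_lemma
    (isCompact_singleton (x := (1 : G))) hQ hn (by
      rintro ⟨k, y⟩ ⟨hk, -⟩
      rw [Set.mem_singleton_iff] at hk
      change |h (k * y) - h y| < η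
      rw [show k = 1 from hk, one_mul, sub_self, abs_zero]
      exact hη)
  refine ⟨u ∩ W0, Filter.inter_mem (hu.mem_nhds (hu1 rfl)) hW1, fun a ha x => ?_⟩
  by_cases hx : x ∈ W0⁻¹ * tsupport h ∪ tsupport h
  · have h1 : (a, x) ∈ {p : G × G | |h (p.1 * p.2) - h p.2| < η} :=
      huv (Set.mk_mem_prod ha.1 (hv1 hx))
    exact le_of_lt h1
  · have h1 : x ∉ tsupport h := fun h2 => hx (Or.inr h2)
    have h2 : a * x ∉ tsupport h := by
      intro h3
      refine hx (Or.inl ?_)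
      rw [Set.mem_mul]
      exact ⟨a⁻¹, Set.inv_mem_inv.2 ha.2, a * x, h3, by group⟩
    rw [image_eq_zero_of_notMem_tsupport h1, image_eq_zero_of_notMem_tsupport h2, sub_self,
      abs_zero]
    exact hη.le

/-- from the derivative at each point to the uniform derivative -/
private theorem q03_uniform_deriv (L : LieData N G) {X : Mat N} (hX : X ∈ L.𝔤) {f h : G → ℝ}
    (hd : ∀ x, HasDerivAt (fun t : ℝ => f (L.e (t • X) * x)) (h x) 0) (hc : Continuous h)
    (hs : HasCompactSupport h) {η : ℝ} (hη : 0 < η) :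
    ∃ δ : ℝ, 0 < δ ∧ ∀ t : ℝ, |t| ≤ δ → ∀ x, |f (L.e (t • X) * x) - f x - t * h x| ≤ η * |t| := by
  obtain ⟨V, hV, hVu⟩ := q03_unif hc hs hη
  have hcont := e_line_cont L hX
  have h1 : (fun t : ℝ => L.e (t • X)) ⁻¹' V ∈ 𝓝 (0 : ℝ) := by
    refine hcont.continuousAt.preimage_mem_nhds ?_
    rw [zero_smul, e_zero]
    exact hV
  obtain ⟨δ, hδ, hδV⟩ := Metric.mem_nhds_iff.1 h1
  refine ⟨δ / 2, by linarith, fun t ht x => ?_⟩
  have hall : ∀ s : ℝ, HasDerivAt (fun t : ℝ => f (L.e (t • X) * x)) (h (L.e (s • X) * x)) s := by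
    intro s
    have h2 := hd (L.e (s • X) * x)
    have h3 : HasDerivAt (fun t : ℝ => f (L.e (t • X) * (L.e (s • X) * x)))
        (h (L.e (s • X) * x)) (s - s) := by
      rw [sub_self]
      exact h2
    have h4 := h3.comp_sub_const s s
    refine h4.congr_of_eventuallyEq (Filter.Eventually.of_forall fun r => ?_)
    change f (L.e (r • X) * x) = f (L.e ((r - s) • X) * (L.e (s • X) * x))
    rw [← mul_assoc, ← L.e_add X hX, sub_add_cancel]
  have hall2 : ∀ s : ℝ, HasDerivAt (fun t : ℝ => f (L.e (t • X) * x) - t * h x)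
      (h (L.e (s • X) * x) - h x) s := by
    intro s
    have h2 := (hall s).sub ((hasDerivAt_id s).mul_const (h x))
    rw [one_mul] at h2
    exact h2
  have hb : ∀ s ∈ Set.Icc (-(δ / 2)) (δ / 2), ‖h (L.e (s • X) * x) - h x‖ ≤ η := by
    intro s hs
    rw [Real.norm_eq_abs]
    refine hVu _ (hδV ?_) x
    rw [Metric.mem_ball, Real.dist_eq, sub_zero]
    have : |s| ≤ δ / 2 := abs_le.2 hs
    linarith
  have h5 := (convex_Icc (-(δ / 2)) (δ / 2)).norm_image_sub_le_of_norm_hasDerivWithin_le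
    (fun s _ => (hall2 s).hasDerivWithinAt) hb
    (show (0 : ℝ) ∈ Set.Icc (-(δ / 2)) (δ / 2) from ⟨by linarith, by linarith⟩)
    (show t ∈ Set.Icc (-(δ / 2)) (δ / 2) from abs_le.1 ht)
  rw [zero_smul, e_zero, one_mul, zero_mul, sub_zero, sub_zero, Real.norm_eq_abs,
    Real.norm_eq_abs] at h5
  have h6 : f (L.e (t • X) * x) - t * h x - f x = f (L.e (t • X) * x) - f x - t * h x := by ring
  rwa [h6] at h5

/-- the profile -/
private def q03_phi (ρ s : ℝ) : ℝ := Real.smoothTransition (2 - 8 * s / ρ)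

private theorem q03_phi_contDiff (ρ : ℝ) : ContDiff ℝ ((⊤ : ℕ∞) : WithTop ℕ∞) (q03_phi ρ) := by
  unfold q03_phi
  refine Real.smoothTransition.contDiff.comp ?_
  exact contDiff_const.sub ((contDiff_const.mul contDiff_id).div_const ρ)

private theorem q03_phi_nonneg (ρ s : ℝ) : 0 ≤ q03_phi ρ s := Real.smoothTransition.nonneg _

private theorem q03_phi_zero (ρ s : ℝ) (hρ : 0 < ρ) (hs : ρ / 4 ≤ s) : q03_phi ρ s = 0 := by
  unfold q03_phi
  refine Real.smoothTransition.zero_of_nonpos ?_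
  have h : 2 ≤ 8 * s / ρ := by
    rw [le_div_iff₀ hρ]
    linarith
  linarith

private theorem q03_phi_one (ρ : ℝ) : q03_phi ρ 0 = 1 := by
  unfold q03_phi
  refine Real.smoothTransition.one_of_one_le ?_
  rw [mul_zero, zero_div]
  norm_num


private theorem q03_of (A : Mat N) : Matrix.of (fun i j => A i j) = A := rfl

private theorem q03_qcd (N : ℕ) : ContDiff ℝ ((⊤ : ℕ∞) : WithTop ℕ∞)
    (fun M : Fin N → Fin N → ℝ => fsq (Matrix.of M - 1)) := by
  have h : (fun M : Fin N → Fin N → ℝ => fsq (Matrix.of M - 1)) = fun M =>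
      ∑ p : Fin N × Fin N, (M p.1 p.2 - (1 : Mat N) p.1 p.2) * (M p.1 p.2 - (1 : Mat N) p.1 p.2) := by
    funext M
    rw [P02_fsq_eq]
    rfl
  rw [h]
  refine ContDiff.sum fun p _ => ?_
  have h1 : ContDiff ℝ ((⊤ : ℕ∞) : WithTop ℕ∞) (fun M : Fin N → Fin N → ℝ => M p.1 p.2) := by
    exact contDiff_apply_apply ℝ ℝ p.1 p.2
  exact (h1.sub contDiff_const).mul (h1.sub contDiff_const)

private theorem q03_F_cont (L : LieData N G) {Φ : (Fin N → Fin N → ℝ) → ℝ} (hΦ : Continuous Φ) :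
    Continuous fun x : G => Φ fun i j => L.ι x i j := by
  refine hΦ.comp ?_
  refine continuous_pi fun i => continuous_pi fun j => ?_
  exact L.ι_cont.matrix_elem i j

private theorem q03_zero {ρ : ℝ} (hρ : 0 < ρ) (L : LieData N G) {O : Set G}
    {Φ : (Fin N → Fin N → ℝ) → ℝ} (hΦ : SmF N ρ Φ) :
    ∀ x ∈ O, x ∉ {x : G | x ∈ O ∧ fsq (L.ι x - 1) ≤ ρ} → (Φ fun i j => L.ι x i j) = 0 := by
  intro x hx hxS
  refine hΦ.2 _ ?_
  rw [q03_of]
  by_contra h
  push Not at h
  exact hxS ⟨hx, by linarith⟩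

private theorem q03_all (L : LieData N G) {O : Set G} {ρ : ℝ} (hO : Sheet L O ρ)
    {Φ : (Fin N → Fin N → ℝ) → ℝ} (hΦ : SmF N ρ Φ) :
    Continuous (shf L O Φ) ∧ HasCompactSupport (shf L O Φ) ∧
      ∀ x, x ∉ {x : G | x ∈ O ∧ fsq (L.ι x - 1) ≤ ρ} → shf L O Φ x = 0 :=
  q03_ind hO.isOpen hO.compact (fun x hx => hx.1) (q03_F_cont L hΦ.1.continuous)
    (q03_zero hO.pos L hΦ)

variable (L : LieData N G) {O : Set G} {ρ : ℝ} (hO : Sheet L O ρ)

include hO

theorem shf_cont {Φ : (Fin N → Fin N → ℝ) → ℝ} (hΦ : SmF N ρ Φ) : Continuous (shf L O Φ) := by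
  exact (q03_all L hO hΦ).1

theorem shf_supp {Φ : (Fin N → Fin N → ℝ) → ℝ} (hΦ : SmF N ρ Φ) :
    HasCompactSupport (shf L O Φ) := by
  exact (q03_all L hO hΦ).2.1

omit hO in
theorem LX_smF {Φ : (Fin N → Fin N → ℝ) → ℝ} (hΦ : SmF N ρ Φ) (X : Mat N) :
    SmF N ρ (LX X Φ) := by
  have hA : ContDiff ℝ ((⊤ : ℕ∞) : WithTop ℕ∞) (fun M : Fin N → Fin N → ℝ =>
      (fun i j => ∑ k, X i k * M k j : Fin N → Fin N → ℝ)) := by
    refine contDiff_pi.2 fun i => contDiff_pi.2 fun j => ContDiff.sum fun k _ => ?_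
    exact contDiff_const.mul (contDiff_apply_apply ℝ ℝ k j)
  have hfd : ContDiff ℝ ((⊤ : ℕ∞) : WithTop ℕ∞) (fderiv ℝ Φ) :=
    hΦ.1.fderiv_right (by norm_cast)
  refine ⟨hfd.clm_apply hA, fun M hM => ?_⟩
  have key : fderiv ℝ Φ M = 0 := by
    set q : (Fin N → Fin N → ℝ) → ℝ := fun M => fsq (Matrix.of M - 1) with hq
    have hqc : Continuous q := (q03_qcd N).continuous
    have hopen : ∀ M', ρ / 2 < q M' → fderiv ℝ Φ M' = 0 := by
      intro M' hM'
      have h1 : Φ =ᶠ[𝓝 M'] fun _ => (0 : ℝ) := by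
        filter_upwards [(isOpen_lt continuous_const hqc).mem_nhds hM'] with M'' h2
        exact hΦ.2 M'' (le_of_lt h2)
      rw [h1.fderiv_eq]
      exact fderiv_const_apply 0
    rcases lt_or_eq_of_le hM with h | h
    · exact hopen M h
    by_cases h0 : q M = 0
    · have hz : Φ = fun _ => (0 : ℝ) := by
        funext M'
        refine hΦ.2 M' ?_
        rw [h]
        change q M ≤ _
        rw [h0]
        exact P02_fsq_nonneg _
      rw [hz]
      exact fderiv_const_apply 0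
    · have hpos : 0 < q M := lt_of_le_of_ne (P02_fsq_nonneg _) (Ne.symm h0)
      have hline : Continuous fun s : ℝ => (fun i j => M i j + s * (M i j - (1 : Mat N) i j) :
          Fin N → Fin N → ℝ) := by
        refine continuous_pi fun i => continuous_pi fun j => ?_
        exact continuous_const.add (continuous_id.mul continuous_const)
      have hqs : ∀ s : ℝ, q (fun i j => M i j + s * (M i j - (1 : Mat N) i j)) =
          (1 + s) ^ 2 * q M := by
        intro s
        change fsq (_ - 1) = _ * fsq (_ - 1)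
        rw [P02_fsq_eq, P02_fsq_eq, Finset.mul_sum]
        refine Finset.sum_congr rfl fun p _ => ?_
        change (M p.1 p.2 + s * (M p.1 p.2 - (1 : Mat N) p.1 p.2) - (1 : Mat N) p.1 p.2) *
          (M p.1 p.2 + s * (M p.1 p.2 - (1 : Mat N) p.1 p.2) - (1 : Mat N) p.1 p.2) =
          (1 + s) ^ 2 * ((M p.1 p.2 - (1 : Mat N) p.1 p.2) * (M p.1 p.2 - (1 : Mat N) p.1 p.2))
        ring
      have h1 : Tendsto (fun s : ℝ => fderiv ℝ Φ
          (fun i j => M i j + s * (M i j - (1 : Mat N) i j))) (𝓝[>] 0) (𝓝 (fderiv ℝ Φ M)) := by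
        have h2 : Continuous fun s : ℝ => fderiv ℝ Φ
          (fun i j => M i j + s * (M i j - (1 : Mat N) i j)) := hfd.continuous.comp hline
        have h3 := (h2.tendsto 0).mono_left (nhdsWithin_le_nhds (s := Set.Ioi (0 : ℝ)))
        have h4 : (fun i j => M i j + (0 : ℝ) * (M i j - (1 : Mat N) i j)) = M := by
          funext i j
          rw [zero_mul, add_zero]
        rw [h4] at h3
        exact h3
      have h2 : Tendsto (fun s : ℝ => fderiv ℝ Φ
          (fun i j => M i j + s * (M i j - (1 : Mat N) i j))) (𝓝[>] 0) (𝓝 0) := by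
        refine tendsto_const_nhds.congr' ?_
        filter_upwards [self_mem_nhdsWithin] with s hs
        have hs' : (0 : ℝ) < s := hs
        refine (hopen _ ?_).symm
        rw [hqs s, h]
        have h9 : (1 + s) ^ 2 * q M - q M = (2 * s + s ^ 2) * q M := by ring
        have h10 : 0 < (2 * s + s ^ 2) * q M := mul_pos (by positivity) hpos
        have h11 : q M < (1 + s) ^ 2 * q M := by linarith
        exact h11
      exact tendsto_nhds_unique h1 h2
  change fderiv ℝ Φ M _ = 0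
  rw [key]
  rfl

omit hO in
theorem LX_add (Φ : (Fin N → Fin N → ℝ) → ℝ) (X Y : Mat N) : LX (X + Y) Φ = LX X Φ + LX Y Φ := by
  funext M
  change fderiv ℝ Φ M _ = fderiv ℝ Φ M _ + fderiv ℝ Φ M _
  rw [← map_add]
  congr 1
  funext i j
  change (∑ k, (X + Y) i k * M k j) = (∑ k, X i k * M k j) + ∑ k, Y i k * M k j
  rw [← Finset.sum_add_distrib]
  refine Finset.sum_congr rfl fun k _ => ?_
  rw [Matrix.add_apply, add_mul]

omit hO in
theorem LX_smul (Φ : (Fin N → Fin N → ℝ) → ℝ) (t : ℝ) (X : Mat N) : LX (t • X) Φ = t • LX X Φ := by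
  funext M
  change fderiv ℝ Φ M _ = t • fderiv ℝ Φ M _
  rw [← map_smul]
  congr 1
  funext i j
  change (∑ k, (t • X) i k * M k j) = t * ∑ k, X i k * M k j
  rw [Finset.mul_sum]
  refine Finset.sum_congr rfl fun k _ => ?_
  rw [Matrix.smul_apply, smul_eq_mul, mul_assoc]

theorem shf_deriv {Φ : (Fin N → Fin N → ℝ) → ℝ} (hΦ : SmF N ρ Φ) {X : Mat N} (hX : X ∈ L.𝔤)
    (η : ℝ) (hη : 0 < η) : ∃ δ : ℝ, 0 < δ ∧ ∀ t : ℝ, |t| ≤ δ → ∀ x : G,
      |shf L O Φ (L.e (t • X) * x) - shf L O Φ x - t * shf L O (LX X Φ) x| ≤ η * |t| := by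
  obtain ⟨c1, s1, z1⟩ := q03_all L hO hΦ
  obtain ⟨c2, s2, z2⟩ := q03_all L hO (LX_smF hΦ X)
  refine q03_uniform_deriv L hX (f := shf L O Φ) (h := shf L O (LX X Φ)) (fun x => ?_) c2 s2 hη
  have hline : Continuous fun t : ℝ => L.e (t • X) * x :=
    (e_line_cont L hX).mul continuous_const
  have hz : L.e ((0 : ℝ) • X) * x = x := by rw [zero_smul, e_zero, one_mul]
  by_cases hx : x ∈ O
  · have h4 : shf L O (LX X Φ) x = LX X Φ (fun i j => L.ι x i j) := Set.indicator_of_mem hx _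
    rw [h4]
    have h2 : HasDerivAt (fun t : ℝ => (fun i j => (NormedSpace.exp (t • X) * L.ι x) i j :
        Fin N → Fin N → ℝ)) (fun i j => (X * L.ι x) i j) 0 := by
      refine hasDerivAt_pi.2 fun i => hasDerivAt_pi.2 fun j => ?_
      exact q03_exp_entry N X (L.ι x) i j
    have h3 : HasFDerivAt Φ (fderiv ℝ Φ (fun i j => L.ι x i j))
        ((fun t : ℝ => (fun i j => (NormedSpace.exp (t • X) * L.ι x) i j :
          Fin N → Fin N → ℝ)) 0) := by
      have h5 : (fun t : ℝ => (fun i j => (NormedSpace.exp (t • X) * L.ι x) i j :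
          Fin N → Fin N → ℝ)) 0 = fun i j => L.ι x i j := by
        funext i j
        change (NormedSpace.exp ((0 : ℝ) • X) * L.ι x) i j = L.ι x i j
        rw [zero_smul, NormedSpace.exp_zero, Matrix.one_mul]
      rw [h5]
      exact ((hΦ.1.differentiable (by norm_cast)) _).hasFDerivAt
    have h1 := h3.comp_hasDerivAt 0 h2
    refine h1.congr_of_eventuallyEq ?_
    have h5 : (fun t : ℝ => L.e (t • X) * x) ⁻¹' O ∈ 𝓝 (0 : ℝ) := by
      refine hline.continuousAt.preimage_mem_nhds ?_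
      rw [hz]
      exact hO.isOpen.mem_nhds hx
    filter_upwards [h5] with t ht
    have ht' : L.e (t • X) * x ∈ O := ht
    have h6 : shf L O Φ (L.e (t • X) * x) = Φ fun i j => L.ι (L.e (t • X) * x) i j :=
      Set.indicator_of_mem ht' _
    rw [h6, map_mul, L.ι_e _ (L.𝔤.smul_mem t hX)]
    rfl
  · have h4 : shf L O (LX X Φ) x = 0 := Set.indicator_of_notMem hx _
    rw [h4]
    have hxS : x ∈ ({x : G | x ∈ O ∧ fsq (L.ι x - 1) ≤ ρ})ᶜ := fun h => hx h.1
    refine (hasDerivAt_const (0 : ℝ) (0 : ℝ)).congr_of_eventuallyEq ?_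
    have h5 : (fun t : ℝ => L.e (t • X) * x) ⁻¹' ({x : G | x ∈ O ∧ fsq (L.ι x - 1) ≤ ρ})ᶜ ∈
        𝓝 (0 : ℝ) := by
      refine hline.continuousAt.preimage_mem_nhds ?_
      rw [hz]
      exact hO.compact.isClosed.isOpen_compl.mem_nhds hxS
    filter_upwards [h5] with t ht
    exact z1 _ ht

theorem shf_bump (hinj : ∀ x ∈ O, L.ι x = 1 → x = 1) (μ : Measure G) [μ.IsHaarMeasure]
    (O₁ : Set G) (hO₁ : O₁ ∈ 𝓝 (1 : G)) :
    ∃ Φ : (Fin N → Fin N → ℝ) → ℝ, SmF N ρ Φ ∧ (∀ x, 0 ≤ shf L O Φ x) ∧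
      (∀ x, x ∉ O₁ → shf L O Φ x = 0) ∧ ∫ x, shf L O Φ x ∂μ = 1 ∧
      ∀ k ∈ L.K, ∀ x, shf L O Φ (k * x * k⁻¹) = shf L O Φ x := by
  have hfc : Continuous fun x : G => fsq (L.ι x - 1) :=
    P02_fsq_cont.comp (L.ι_cont.sub continuous_const)
  have hι1 : fsq (L.ι 1 - 1) = 0 := by
    rw [map_one, sub_self, P02_fsq_eq]
    simp only [Matrix.zero_apply, mul_zero, Finset.sum_const_zero]
  -- the radius
  obtain ⟨ρ', hρ', hρρ, hO1⟩ : ∃ ρ' : ℝ, 0 < ρ' ∧ ρ' ≤ ρ ∧
      ∀ x ∈ O, fsq (L.ι x - 1) ≤ ρ' → x ∈ O₁ := by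
    have hC : IsCompact ({x : G | x ∈ O ∧ fsq (L.ι x - 1) ≤ ρ} \ interior O₁) :=
      hO.compact.diff isOpen_interior
    rcases Set.eq_empty_or_nonempty ({x : G | x ∈ O ∧ fsq (L.ι x - 1) ≤ ρ} \ interior O₁) with
      he | hne
    · refine ⟨ρ, hO.pos, le_rfl, fun x hx hxρ => ?_⟩
      by_contra h
      have h1 : x ∈ ({x : G | x ∈ O ∧ fsq (L.ι x - 1) ≤ ρ} \ interior O₁) :=
        ⟨⟨hx, hxρ⟩, fun h2 => h (interior_subset h2)⟩
      rw [he] at h1
      exact h1
    · obtain ⟨x0, hx0, hmin⟩ := hC.exists_isMinOn hne hfc.continuousOn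
      have hm : 0 < fsq (L.ι x0 - 1) := by
        refine lt_of_le_of_ne (P02_fsq_nonneg _) fun h => hx0.2 ?_
        have h1 := P02_fsq_eq_zero _ h.symm
        have h2 := hinj x0 hx0.1.1 (sub_eq_zero.1 h1)
        rw [h2]
        exact mem_interior_iff_mem_nhds.2 hO₁
      refine ⟨min ρ (fsq (L.ι x0 - 1) / 2), lt_min hO.pos (by linarith), min_le_left _ _,
        fun x hx hxρ => ?_⟩
      by_contra h
      have h1 : x ∈ ({x : G | x ∈ O ∧ fsq (L.ι x - 1) ≤ ρ} \ interior O₁) :=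
        ⟨⟨hx, hxρ.trans (min_le_left _ _)⟩, fun h2 => h (interior_subset h2)⟩
      have h2 : fsq (L.ι x0 - 1) ≤ fsq (L.ι x - 1) := hmin h1
      have h3 := hxρ.trans (min_le_right _ _)
      linarith
  have hcd : ContDiff ℝ ((⊤ : ℕ∞) : WithTop ℕ∞)
      (fun M : Fin N → Fin N → ℝ => q03_phi ρ' (fsq (Matrix.of M - 1))) :=
    (q03_phi_contDiff ρ').comp (q03_qcd N)
  have hsm : ∀ c : ℝ, SmF N ρ
      (fun M : Fin N → Fin N → ℝ => c * q03_phi ρ' (fsq (Matrix.of M - 1))) := by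
    intro c
    refine ⟨contDiff_const.mul hcd, fun M hM => ?_⟩
    change c * q03_phi ρ' (fsq (Matrix.of M - 1)) = 0
    rw [q03_phi_zero ρ' _ hρ' (by linarith), mul_zero]
  set Φ₀ : (Fin N → Fin N → ℝ) → ℝ := fun M => 1 * q03_phi ρ' (fsq (Matrix.of M - 1)) with hΦ₀
  have hsm0 : SmF N ρ Φ₀ := hsm 1
  obtain ⟨c1, s1, z1⟩ := q03_all L hO hsm0
  have hval : ∀ c : ℝ, ∀ x, shf L O
      (fun M : Fin N → Fin N → ℝ => c * q03_phi ρ' (fsq (Matrix.of M - 1))) x =
      c * shf L O Φ₀ x := by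
    intro c x
    by_cases hx : x ∈ O
    · have h1 : shf L O (fun M : Fin N → Fin N → ℝ => c * q03_phi ρ' (fsq (Matrix.of M - 1))) x =
          c * q03_phi ρ' (fsq (L.ι x - 1)) := Set.indicator_of_mem hx _
      have h2 : shf L O Φ₀ x = 1 * q03_phi ρ' (fsq (L.ι x - 1)) := Set.indicator_of_mem hx _
      rw [h1, h2, one_mul]
    · have h1 : shf L O (fun M : Fin N → Fin N → ℝ => c * q03_phi ρ' (fsq (Matrix.of M - 1))) x =
          0 := Set.indicator_of_notMem hx _
      have h2 : shf L O Φ₀ x = 0 := Set.indicator_of_notMem hx _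
      rw [h1, h2, mul_zero]
  have hnn : ∀ x, 0 ≤ shf L O Φ₀ x := by
    intro x
    exact Set.indicator_nonneg (fun y _ => mul_nonneg zero_le_one (q03_phi_nonneg ρ' _)) x
  have h01 : shf L O Φ₀ 1 = 1 := by
    have h2 : shf L O Φ₀ 1 = 1 * q03_phi ρ' (fsq (L.ι 1 - 1)) := Set.indicator_of_mem hO.one_mem _
    rw [h2, hι1, q03_phi_one, mul_one]
  have hI : 0 < ∫ x, shf L O Φ₀ x ∂μ := by
    refine Continuous.integral_pos_of_hasCompactSupport_nonneg_nonzero c1 s1 hnn (x := 1) ?_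
    rw [h01]
    exact one_ne_zero
  refine ⟨_, hsm (∫ x, shf L O Φ₀ x ∂μ)⁻¹, ?_, ?_, ?_, ?_⟩
  · intro x
    rw [hval]
    exact mul_nonneg (inv_nonneg.2 hI.le) (hnn x)
  · intro x hx
    rw [hval]
    by_cases hxO : x ∈ O
    · have h2 : shf L O Φ₀ x = 1 * q03_phi ρ' (fsq (L.ι x - 1)) := Set.indicator_of_mem hxO _
      have h3 : ρ' < fsq (L.ι x - 1) := by
        by_contra h
        push Not at h
        exact hx (hO1 x hxO h)
      rw [h2, q03_phi_zero ρ' _ hρ' (by linarith), mul_zero, mul_zero]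
    · have h2 : shf L O Φ₀ x = 0 := Set.indicator_of_notMem hxO _
      rw [h2, mul_zero]
  · have h1 : (fun x => shf L O (fun M : Fin N → Fin N → ℝ =>
        (∫ x, shf L O Φ₀ x ∂μ)⁻¹ * q03_phi ρ' (fsq (Matrix.of M - 1))) x) =
        fun x => (∫ x, shf L O Φ₀ x ∂μ)⁻¹ * shf L O Φ₀ x := funext (hval _)
    rw [h1, integral_const_mul, inv_mul_cancel₀ hI.ne']
  · intro k hk x
    rw [hval _ (k * x * k⁻¹), hval _ x]
    congr 1
    have h1 : k * x * k⁻¹ ∈ O ↔ x ∈ O := by
      constructor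
      · intro h
        have h2 := hO.conj k⁻¹ (L.K.inv_mem hk) _ h
        have h3 : k⁻¹ * (k * x * k⁻¹) * k⁻¹⁻¹ = x := by group
        rwa [h3] at h2
      · exact hO.conj k hk x
    have h2 : fsq (L.ι (k * x * k⁻¹) - 1) = fsq (L.ι x - 1) := by
      have h3 : L.ι (k * x * k⁻¹) - 1 = L.ι k * (L.ι x - 1) * L.ι k⁻¹ := by
        rw [map_mul, map_mul, Matrix.mul_sub, Matrix.sub_mul, Matrix.mul_one, ← map_mul L.ι k k⁻¹,
          mul_inv_cancel, map_one]
      rw [h3]
      exact fip_ad_K L hk _ _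
    by_cases h : x ∈ O
    · have h4 : shf L O Φ₀ x = 1 * q03_phi ρ' (fsq (L.ι x - 1)) := Set.indicator_of_mem h _
      have h5 : shf L O Φ₀ (k * x * k⁻¹) = 1 * q03_phi ρ' (fsq (L.ι (k * x * k⁻¹) - 1)) :=
        Set.indicator_of_mem (h1.2 h) _
      rw [h4, h5, h2]
    · have h4 : shf L O Φ₀ x = 0 := Set.indicator_of_notMem h _
      have h5 : shf L O Φ₀ (k * x * k⁻¹) = 0 :=
        Set.indicator_of_notMem (fun h' => h (h1.1 h')) _
      rw [h4, h5]

end SBD
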