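import Pool.Agent.SBD.P04
import Pool.Agent.SBD.P01

/-!
# Row SBD-Q04 : derivative of `π(e(tX)) π(f) u`

The proof of P05 (`garding`, store `SBD_P05.lean`) uses only: `f`, `Lf` continuous with compact
support and the uniform derivative.  Copy and adapt.
-/

open MeasureTheory Filter Topology
open scoped ENNReal NNReal Matrix

noncomputable section

namespace SBD

variable {N : ℕ} {G : Type} [Group G] [TopologicalSpace G] [IsTopologicalGroup G]
  [LocallyCompactSpace G] [T2Space G]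
variable [SecondCountableTopology G] [MeasurableSpace G] [BorelSpace G]
variable {H : Type} [NormedAddCommGroup H] [InnerProductSpace ℂ H] [CompleteSpace H]

theorem garding2 (L : LieData N G) (π : G →* (H ≃ₗᵢ[ℂ] H))
    (hc : ∀ v : H, Continuous fun g => π g v) (μ : Measure G) [μ.IsHaarMeasure]
    {f Lf : G → ℝ} (hf : Continuous f) (hs : HasCompactSupport f) (hLf : Continuous Lf)
    (hLs : HasCompactSupport Lf) (X : Mat N) (hX : X ∈ L.𝔤)
    (hd : ∀ η : ℝ, 0 < η → ∃ δ : ℝ, 0 < δ ∧ ∀ t : ℝ, |t| ≤ δ → ∀ x : G,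
      |f (L.e (t • X) * x) - f x - t * Lf x| ≤ η * |t|) (u : H) :
    HasDerivAt (fun t : ℝ => π (L.e (t • X)) (sm π μ f u)) (-(sm π μ Lf u)) 0 := by
  -- integrability
  have hI : ∀ φ : G → ℝ, Continuous φ → HasCompactSupport φ →
      Integrable (fun x => ((φ x : ℝ) : ℂ) • π x u) μ := by
    intro φ hφ hφs
    have h1 : Continuous fun x => ((φ x : ℝ) : ℂ) • π x u :=
      (Complex.continuous_ofReal.comp hφ).smul (hc u)
    refine h1.integrable_of_hasCompactSupport ?_
    have h2 : HasCompactSupport fun x => ((φ x : ℝ) : ℂ) :=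
      hφs.comp_left (g := fun r : ℝ => (r : ℂ)) Complex.ofReal_zero
    exact h2.smul_right
  have hXt : ∀ t : ℝ, t • X ∈ L.𝔤 := fun t => L.𝔤.smul_mem t hX
  have he0 : L.e ((0 : ℝ) • X) = 1 := by rw [zero_smul, e_zero]
  have hinv : ∀ t : ℝ, (L.e (t • X))⁻¹ = L.e ((-t) • X) := by
    intro t
    rw [neg_smul, e_neg L (hXt t)]
  -- translation
  have htr : ∀ t : ℝ, π (L.e (t • X)) (sm π μ f u) =
      ∫ x, ((f (L.e ((-t) • X) * x) : ℝ) : ℂ) • π x u ∂μ := by
    intro t
    have h0 := integral_mul_left_eq_self (μ := μ)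
      (fun x => ((f (L.e ((-t) • X) * x) : ℝ) : ℂ) • π x u) (L.e (t • X))
    rw [sm, ← h0]
    have h1 := (π (L.e (t • X))).toContinuousLinearEquiv.integral_comp_comm
      (μ := μ) (fun x => ((f x : ℝ) : ℂ) • π x u)
    refine Eq.trans h1.symm ?_
    refine integral_congr_ae (Filter.Eventually.of_forall fun x => ?_)
    change π (L.e (t • X)) (((f x : ℝ) : ℂ) • π x u) = _
    rw [map_smul]
    have h2 : L.e ((-t) • X) * (L.e (t • X) * x) = x := by
      rw [← hinv t, inv_mul_cancel_left]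
    simp only [h2]
    rw [map_mul]
    rfl
  -- the compact set
  set Q : Set G := (fun p : ℝ × G => L.e (p.1 • X) * p.2) '' (Set.Icc (-1) 1 ×ˢ tsupport f) ∪
    tsupport Lf with hQdef
  have hcont : Continuous fun p : ℝ × G => L.e (p.1 • X) * p.2 :=
    ((e_line_cont L hX).comp continuous_fst).mul continuous_snd
  have hQ : IsCompact Q :=
    (((isCompact_Icc.prod hs.isCompact).image hcont)).union hLs.isCompact
  have hQμ : μ Q < ⊤ := hQ.measure_lt_top
  have hoff : ∀ t : ℝ, |t| ≤ 1 → ∀ x, x ∉ Q →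
      f (L.e ((-t) • X) * x) = 0 ∧ f x = 0 ∧ Lf x = 0 := by
    intro t ht x hx
    refine ⟨?_, ?_, ?_⟩
    · by_contra h
      apply hx
      left
      refine ⟨(t, L.e ((-t) • X) * x), ⟨abs_le.1 ht, subset_tsupport _ h⟩, ?_⟩
      change L.e (t • X) * (L.e ((-t) • X) * x) = x
      rw [← hinv t, mul_inv_cancel_left]
    · by_contra h
      apply hx
      left
      refine ⟨(0, x), ⟨by constructor <;> norm_num, subset_tsupport _ h⟩, ?_⟩
      change L.e ((0 : ℝ) • X) * x = x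
      rw [he0, one_mul]
    · by_contra h
      exact hx (Or.inr (subset_tsupport _ h))
  rw [hasDerivAt_iff_isLittleO, Asymptotics.isLittleO_iff]
  intro c hc0
  set m : ℝ := ‖u‖ * (μ Q).toReal with hm
  have hm0 : 0 ≤ m := mul_nonneg (norm_nonneg _) ENNReal.toReal_nonneg
  obtain ⟨δ, hδ, hd1⟩ := hd (c / (m + 1)) (by positivity)
  have hev : ∀ᶠ t : ℝ in 𝓝 0, |t| ≤ min δ 1 := by
    have h1 : Metric.closedBall (0 : ℝ) (min δ 1) ∈ 𝓝 (0 : ℝ) :=
      Metric.closedBall_mem_nhds _ (lt_min hδ one_pos)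
    filter_upwards [h1] with t ht
    rwa [Metric.mem_closedBall, dist_zero_right, Real.norm_eq_abs] at ht
  filter_upwards [hev] with t ht
  have ht1 : |t| ≤ 1 := ht.trans (min_le_right _ _)
  have htδ : |-t| ≤ δ := by
    rw [abs_neg]
    exact ht.trans (min_le_left _ _)
  have hA : Integrable (fun x => ((f (L.e ((-t) • X) * x) : ℝ) : ℂ) • π x u) μ := by
    refine hI (fun x => f (L.e ((-t) • X) * x)) (hf.comp (continuous_const_mul _)) ?_
    exact hs.comp_homeomorph (Homeomorph.mulLeft (L.e ((-t) • X)))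
  have hB := hI f hf hs
  have hC := hI Lf hLf hLs
  have hmain : π (L.e (t • X)) (sm π μ f u) - π (L.e ((0 : ℝ) • X)) (sm π μ f u) -
      (t - 0) • (-(sm π μ Lf u)) =
      ∫ x, (((f (L.e ((-t) • X) * x) - f x - (-t) * Lf x : ℝ)) : ℂ) • π x u ∂μ := by
    rw [he0, map_one, htr t]
    change _ - sm π μ f u - _ = _
    have e1 : ∫ x, (((f (L.e ((-t) • X) * x) : ℝ) : ℂ) • π x u - ((f x : ℝ) : ℂ) • π x u +
        t • (((Lf x : ℝ) : ℂ) • π x u)) ∂μ =
        ∫ x, ((f (L.e ((-t) • X) * x) : ℝ) : ℂ) • π x u ∂μ - ∫ x, ((f x : ℝ) : ℂ) • π x u ∂μ +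
        t • ∫ x, ((Lf x : ℝ) : ℂ) • π x u ∂μ := by
      rw [integral_add (f := fun x => ((f (L.e ((-t) • X) * x) : ℝ) : ℂ) • π x u -
          ((f x : ℝ) : ℂ) • π x u) (g := fun x => t • (((Lf x : ℝ) : ℂ) • π x u))
          (hA.sub hB) (hC.smul t), integral_sub hA hB, integral_smul]
    rw [sm, sm, sub_zero, smul_neg, sub_neg_eq_add, ← e1]
    refine integral_congr_ae (Filter.Eventually.of_forall fun x => ?_)
    change ((f (L.e ((-t) • X) * x) : ℝ) : ℂ) • π x u - ((f x : ℝ) : ℂ) • π x u +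
      t • (((Lf x : ℝ) : ℂ) • π x u) = _
    push_cast
    rw [← Complex.coe_smul t, smul_smul, ← sub_smul, ← add_smul]
    congr 1
    ring
  rw [hmain]
  have hzero : ∀ x, x ∉ Q →
      (((f (L.e ((-t) • X) * x) - f x - (-t) * Lf x : ℝ)) : ℂ) • π x u = 0 := by
    intro x hx
    obtain ⟨h1, h2, h3⟩ := hoff t ht1 x hx
    rw [h1, h2, h3]
    simp
  rw [← setIntegral_eq_integral_of_forall_compl_eq_zero hzero]
  have hb : ∀ x ∈ Q, ‖(((f (L.e ((-t) • X) * x) - f x - (-t) * Lf x : ℝ)) : ℂ) • π x u‖ ≤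
      c / (m + 1) * |t| * ‖u‖ := by
    intro x _
    rw [norm_smul, LinearIsometryEquiv.norm_map, Complex.norm_real, Real.norm_eq_abs]
    refine mul_le_mul_of_nonneg_right ?_ (norm_nonneg _)
    have h1 := hd1 (-t) htδ x
    rwa [abs_neg] at h1
  have h5 := norm_setIntegral_le_of_norm_le_const hQμ hb
  refine h5.trans ?_
  rw [sub_zero, Real.norm_eq_abs]
  have h6 : c / (m + 1) * |t| * ‖u‖ * μ.real Q = c * |t| * (m / (m + 1)) := by
    rw [hm, Measure.real]
    ring
  rw [h6]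
  have h7 : m / (m + 1) ≤ 1 := by
    rw [div_le_one (by positivity)]
    linarith
  calc c * |t| * (m / (m + 1)) ≤ c * |t| * 1 :=
        mul_le_mul_of_nonneg_left h7 (by positivity)
    _ = c * |t| := mul_one _

end SBD
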