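import Pool.Agent.SBD.Q02
import Pool.Agent.SBD.Q03
import Pool.Agent.SBD.Q04

/-!
# Row SBD-Q05 : the Gårding space

There are a sheet `O, ρ` on which `ι x = 1` only for `x = 1`, and a `G`-invariant smooth space `E`
containing all `π(shf Φ)u`.

PROOF.  Sheet: P02 (`sheet`) applied to a neighbourhood of `1` on which `ι` is injective (it exists:
first step of the proof of P02, store `SBD_P02.lean`: `exp` is injective near 0 and `e_nhds`).
`E` := span of `{π(g) π(shf Φ) u : g ∈ G, Φ ∈ SmF, u ∈ H}`.  It is `G`-invariant.  By Q02 it is enough to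
give, for `v ∈ E`, an `ℝ`-linear `ℓ : Mat N → H` with `ℓ X ∈ E` the derivative for `X ∈ 𝔤`; by linearity
(finite sums, `Submodule.span_induction`; for sums and scalar multiples add the `ℓ`'s) for
`v = π(g)π(shf Φ)u`: `π(e(tX))π(g)v' = π(g)π(e(t ι(g⁻¹)Xι(g)))v'` (`ad_e`), `v' = π(shf Φ)u`, so by Q04,
Q03 the derivative is `ℓ X = -π(g)π(shf (LX (ι(g⁻¹)Xι(g)) Φ))u`, linear in `X` (`LX_add`, `LX_smul`,
`shf` and `sm` are linear in the function).
-/

open MeasureTheory Filter Topology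
open scoped ENNReal NNReal Matrix

noncomputable section

namespace SBD

variable {N : ℕ} {G : Type} [Group G] [TopologicalSpace G] [IsTopologicalGroup G]
  [LocallyCompactSpace G] [T2Space G]
variable [SecondCountableTopology G] [MeasurableSpace G] [BorelSpace G]
variable {H : Type} [NormedAddCommGroup H] [InnerProductSpace ℂ H] [CompleteSpace H]

omit [SecondCountableTopology G] [MeasurableSpace G] [BorelSpace G] in
private theorem q05_sheet (L : LieData N G) :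
    ∃ (O : Set G) (ρ : ℝ), Sheet L O ρ ∧ (∀ x ∈ O, L.ι x = 1 → x = 1) := by
  obtain ⟨U, hU, hUi⟩ := P02_exp_inj N
  have hO2 := L.e_nhds U hU
  have hinj : Set.InjOn L.ι (L.e '' (U ∩ L.𝔤)) := by
    rintro x ⟨X, ⟨hXU, hXg⟩, rfl⟩ y ⟨Y, ⟨hYU, hYg⟩, rfl⟩ hxy
    rw [L.ι_e X hXg, L.ι_e Y hYg] at hxy
    rw [hUi hXU hYU hxy]
  obtain ⟨O', hO'O, hO'o, hO'1, hO'K, ρ, hρ, hS⟩ := sheet L _ hO2
  refine ⟨O', ρ, ⟨hO'o, hO'1, hO'K, hρ, hS⟩, fun x hx h => ?_⟩
  exact hinj (hO'O hx) (hO'O hO'1) (by rw [h, map_one])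

omit [SecondCountableTopology G] [CompleteSpace H] in
private theorem q05_int (π : G →* (H ≃ₗᵢ[ℂ] H)) (hc : ∀ v : H, Continuous fun g => π g v)
    (μ : Measure G) [μ.IsHaarMeasure] {f : G → ℝ} (hf : Continuous f) (hs : HasCompactSupport f)
    (u : H) : Integrable (fun x => ((f x : ℝ) : ℂ) • π x u) μ := by
  have h1 : Continuous fun x => ((f x : ℝ) : ℂ) • π x u :=
    (Complex.continuous_ofReal.comp hf).smul (hc u)
  refine h1.integrable_of_hasCompactSupport ?_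
  have h2 : HasCompactSupport fun x => ((f x : ℝ) : ℂ) :=
    hs.comp_left (g := fun r : ℝ => (r : ℂ)) Complex.ofReal_zero
  exact h2.smul_right

/-- the derivative, as a linear map -/
private theorem q05_lin (L : LieData N G) {O : Set G} {ρ : ℝ} (hO : Sheet L O ρ)
    (π : G →* (H ≃ₗᵢ[ℂ] H)) (hc : ∀ v : H, Continuous fun g => π g v) (μ : Measure G)
    [μ.IsHaarMeasure] {Φ : (Fin N → Fin N → ℝ) → ℝ} (hΦ : SmF N ρ Φ) (u : H) :
    ∃ ℓ : Mat N →ₗ[ℝ] H, ∀ X, ℓ X = sm π μ (shf L O (LX X Φ)) u := by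
  refine ⟨{ toFun := fun X => sm π μ (shf L O (LX X Φ)) u, map_add' := ?_, map_smul' := ?_ },
    fun X => rfl⟩
  · intro X Y
    have h1 := q05_int π hc μ (shf_cont L hO (LX_smF hΦ X)) (shf_supp L hO (LX_smF hΦ X)) u
    have h2 := q05_int π hc μ (shf_cont L hO (LX_smF hΦ Y)) (shf_supp L hO (LX_smF hΦ Y)) u
    have h3 := integral_add h1 h2
    refine Eq.trans ?_ h3
    refine integral_congr_ae (Filter.Eventually.of_forall fun x => ?_)
    change ((shf L O (LX (X + Y) Φ) x : ℝ) : ℂ) • π x u = _ + _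
    rw [← add_smul]
    congr 1
    rw [← Complex.ofReal_add]
    congr 1
    rw [LX_add]
    unfold shf
    by_cases hx : x ∈ O
    · rw [Set.indicator_of_mem hx, Set.indicator_of_mem hx, Set.indicator_of_mem hx]
      rfl
    · rw [Set.indicator_of_notMem hx, Set.indicator_of_notMem hx, Set.indicator_of_notMem hx,
        add_zero]
  · intro t X
    have h3 := integral_smul (μ := μ) t (fun x => ((shf L O (LX X Φ) x : ℝ) : ℂ) • π x u)
    refine Eq.trans ?_ h3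
    refine integral_congr_ae (Filter.Eventually.of_forall fun x => ?_)
    change ((shf L O (LX (t • X) Φ) x : ℝ) : ℂ) • π x u =
      t • (((shf L O (LX X Φ) x : ℝ) : ℂ) • π x u)
    rw [← Complex.coe_smul t, smul_smul]
    congr 1
    rw [← Complex.ofReal_mul]
    congr 1
    rw [LX_smul]
    unfold shf
    by_cases hx : x ∈ O
    · rw [Set.indicator_of_mem hx, Set.indicator_of_mem hx]
      rfl
    · rw [Set.indicator_of_notMem hx, Set.indicator_of_notMem hx, mul_zero]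

private theorem q05_gen (L : LieData N G) {O : Set G} {ρ : ℝ} (hO : Sheet L O ρ)
    (π : G →* (H ≃ₗᵢ[ℂ] H)) (hc : ∀ v : H, Continuous fun g => π g v) (μ : Measure G)
    [μ.IsHaarMeasure] {Φ : (Fin N → Fin N → ℝ) → ℝ} (hΦ : SmF N ρ Φ) (u : H) (g : G)
    {X : Mat N} (hX : X ∈ L.𝔤) :
    HasDerivAt (fun t : ℝ => π (L.e (t • X)) (π g (sm π μ (shf L O Φ) u)))
      (-(π g (sm π μ (shf L O (LX (L.ι g⁻¹ * X * L.ι g) Φ)) u))) 0 := by
  have hX' : L.ι g⁻¹ * X * L.ι g ∈ L.𝔤 := by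
    have h := L.ad_mem g⁻¹ X hX
    rwa [inv_inv] at h
  have h1 := garding2 L π hc μ (shf_cont L hO hΦ) (shf_supp L hO hΦ)
    (shf_cont L hO (LX_smF hΦ (L.ι g⁻¹ * X * L.ι g)))
    (shf_supp L hO (LX_smF hΦ (L.ι g⁻¹ * X * L.ι g))) _ hX'
    (shf_deriv L hO hΦ hX') u
  have h2 := (((π g).toContinuousLinearEquiv : H →L[ℂ] H).restrictScalars ℝ).hasFDerivAt.comp_hasDerivAt
    (0 : ℝ) h1
  have h3 : HasDerivAt (fun t : ℝ => π g (π (L.e (t • (L.ι g⁻¹ * X * L.ι g)))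
      (sm π μ (shf L O Φ) u))) (π g (-(sm π μ (shf L O (LX (L.ι g⁻¹ * X * L.ι g) Φ)) u))) 0 := h2
  rw [map_neg] at h3
  refine h3.congr_of_eventuallyEq (Filter.Eventually.of_forall fun t => ?_)
  change π (L.e (t • X)) (π g (sm π μ (shf L O Φ) u)) =
    π g (π (L.e (t • (L.ι g⁻¹ * X * L.ι g))) (sm π μ (shf L O Φ) u))
  have h4 : L.e (t • (L.ι g⁻¹ * X * L.ι g)) = g⁻¹ * L.e (t • X) * g := by
    have h := L.ad_e g⁻¹ (t • X) (L.𝔤.smul_mem t hX)
    rw [inv_inv, Matrix.mul_smul, Matrix.smul_mul] at h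
    exact h
  have h5 : ∀ (a b : G) (v : H), π a (π b v) = π (a * b) v := by
    intro a b v
    rw [map_mul]
    rfl
  rw [h4, h5, h5]
  congr 2
  group

theorem exists_E (L : LieData N G) (π : G →* (H ≃ₗᵢ[ℂ] H))
    (hc : ∀ v : H, Continuous fun g => π g v) (μ : Measure G) [μ.IsHaarMeasure]
    [μ.IsMulRightInvariant] :
    ∃ (O : Set G) (ρ : ℝ), Sheet L O ρ ∧ (∀ x ∈ O, L.ι x = 1 → x = 1) ∧
    ∃ (E : Submodule ℂ H) (D : Mat N →ₗ[ℝ] (E →ₗ[ℂ] E)), DifE L π E D ∧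
      (∀ g : G, ∀ v ∈ E, π g v ∈ E) ∧
      ∀ Φ : (Fin N → Fin N → ℝ) → ℝ, SmF N ρ Φ → ∀ u : H, sm π μ (shf L O Φ) u ∈ E := by
  obtain ⟨O, ρ, hO, hinj⟩ := q05_sheet L
  refine ⟨O, ρ, hO, hinj, ?_⟩
  set S : Set H := {v | ∃ (g : G) (Φ : (Fin N → Fin N → ℝ) → ℝ) (u : H), SmF N ρ Φ ∧
    v = π g (sm π μ (shf L O Φ) u)} with hS
  have h5 : ∀ (a b : G) (v : H), π a (π b v) = π (a * b) v := by
    intro a b v
    rw [map_mul]
    rfl
  have hG : ∀ g : G, ∀ v ∈ Submodule.span ℂ S, π g v ∈ Submodule.span ℂ S := by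
    intro g v hv
    induction hv using Submodule.span_induction with
    | mem v hv =>
      obtain ⟨a, Φ, u, hΦ, rfl⟩ := hv
      refine Submodule.subset_span ⟨g * a, Φ, u, hΦ, ?_⟩
      rw [h5]
    | zero =>
      rw [map_zero]
      exact Submodule.zero_mem _
    | add x y _ _ hx hy =>
      rw [map_add]
      exact Submodule.add_mem _ hx hy
    | smul c x _ hx =>
      rw [map_smul]
      exact Submodule.smul_mem _ c hx
  have hmem : ∀ Φ : (Fin N → Fin N → ℝ) → ℝ, SmF N ρ Φ → ∀ (g : G) (u : H),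
      π g (sm π μ (shf L O Φ) u) ∈ Submodule.span ℂ S := fun Φ hΦ g u =>
    Submodule.subset_span ⟨g, Φ, u, hΦ, rfl⟩
  obtain ⟨D, hD⟩ := exists_DE L π (Submodule.span ℂ S) (by
    intro v hv
    induction hv using Submodule.span_induction with
    | mem v hv =>
      obtain ⟨g, Φ, u, hΦ, rfl⟩ := hv
      obtain ⟨ℓ₀, hℓ₀⟩ := q05_lin L hO π hc μ hΦ u
      refine ⟨{ toFun := fun X => -(π g (ℓ₀ (L.ι g⁻¹ * X * L.ι g))), map_add' := ?_,
                map_smul' := ?_ }, fun X hX => ⟨?_, ?_⟩⟩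
      · intro X Y
        rw [Matrix.mul_add, Matrix.add_mul, map_add, map_add, neg_add]
      · intro t X
        rw [Matrix.mul_smul, Matrix.smul_mul, map_smul, RingHom.id_apply]
        have h6 : π g (t • ℓ₀ (L.ι g⁻¹ * X * L.ι g)) = t • π g (ℓ₀ (L.ι g⁻¹ * X * L.ι g)) := by
          rw [← Complex.coe_smul t, ← Complex.coe_smul t, map_smul]
        rw [h6, smul_neg]
      · change -(π g (ℓ₀ (L.ι g⁻¹ * X * L.ι g))) ∈ _
        rw [hℓ₀]
        exact Submodule.neg_mem _ (hmem _ (LX_smF hΦ _) g u)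
      · change HasDerivAt _ (-(π g (ℓ₀ (L.ι g⁻¹ * X * L.ι g)))) 0
        rw [hℓ₀]
        exact q05_gen L hO π hc μ hΦ u g hX
    | zero =>
      refine ⟨0, fun X hX => ⟨Submodule.zero_mem _, ?_⟩⟩
      simp only [map_zero]
      exact hasDerivAt_const _ _
    | add x y _ _ hx hy =>
      obtain ⟨ℓ₁, h1⟩ := hx
      obtain ⟨ℓ₂, h2⟩ := hy
      refine ⟨ℓ₁ + ℓ₂, fun X hX => ⟨Submodule.add_mem _ (h1 X hX).1 (h2 X hX).1, ?_⟩⟩
      simp only [map_add]
      exact (h1 X hX).2.add (h2 X hX).2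
    | smul c x _ hx =>
      obtain ⟨ℓ₁, h1⟩ := hx
      refine ⟨{ toFun := fun X => c • ℓ₁ X, map_add' := ?_, map_smul' := ?_ },
        fun X hX => ⟨Submodule.smul_mem _ c (h1 X hX).1, ?_⟩⟩
      · intro X Y
        rw [map_add, smul_add]
      · intro t X
        rw [map_smul, RingHom.id_apply, smul_comm]
      · simp only [map_smul]
        exact (h1 X hX).2.const_smul c)
  refine ⟨Submodule.span ℂ S, D, hD, hG, fun Φ hΦ u => ?_⟩
  have h7 := hmem Φ hΦ 1 u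
  rw [map_one] at h7
  exact h7

end SBD
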