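import Pool.Agent.SBD.An

/-!
# Row SBD-Q06 : Schur's lemma for bounded self-adjoint operators

PROOF.  `T` self-adjoint commuting with all `π g`.  By the continuous functional calculus
(`cfc`, `ℝ`-spectrum of a self-adjoint element of the C*-algebra `H →L[ℂ] H`) every `f(T)`, `f`
continuous, commutes with `π g` (e.g. `Commute.cfc`/`IsSelfAdjoint.commute_cfc`: what commutes with
`T` commutes with `cfc f T`).  `spectrum ℝ T` is nonempty (`H ≠ 0`).  If it contains `a ≠ b`, choose continuous
`f, h : ℝ → ℝ` with `f h = 0`, `f a ≠ 0`, `h b ≠ 0`; then `f(T) ≠ 0`, `h(T) ≠ 0` (spectral mapping or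
isometry of the calculus) and `f(T)h(T) = 0`.  `W = ker f(T)` is closed and invariant, contains the
range of `h(T)` (so `≠ ⊥`), and `≠ ⊤`: contradiction to irreducibility.  So `spectrum ℝ T = {a}` and
`T = cfc id T = a` (e.g. `CFC.eq_algebraMap_of_spectrum_subset_singleton`).
-/

open MeasureTheory Filter Topology
open scoped ENNReal NNReal Matrix

noncomputable section

namespace SBD

variable {N : ℕ} {G : Type} [Group G] [TopologicalSpace G] [IsTopologicalGroup G]
  [LocallyCompactSpace G] [T2Space G]
variable {H : Type} [NormedAddCommGroup H] [InnerProductSpace ℂ H] [CompleteSpace H]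

theorem schur (π : G →* (H ≃ₗᵢ[ℂ] H)) (hirr : IsIrr π) (T : H →L[ℂ] H) (hT : IsSelfAdjoint T)
    (hcomm : ∀ (g : G) (v : H), T (π g v) = π g (T v)) : ∃ a : ℝ, ∀ v : H, T v = (a : ℂ) • v := by
  classical
  have := hirr.nontriv
  -- everything in the functional calculus commutes with the group
  have hcf : ∀ (f : ℝ → ℝ) (g : G) (v : H), (cfc f T) (π g v) = π g ((cfc f T) v) := by
    intro f g v
    have h1 : Commute ((π g).toContinuousLinearEquiv : H →L[ℂ] H) T := by
      ext w
      exact (hcomm g w).symm
    have h2 : Commute ((π g).toContinuousLinearEquiv : H →L[ℂ] H) (cfc f T) :=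
      (hT.commute_cfc h1.symm f).symm
    have h3 := congrArg (fun A : H →L[ℂ] H => A v) h2.eq
    exact h3.symm
  obtain ⟨a, ha⟩ : (spectrum ℝ T).Nonempty := CFC.spectrum_nonempty ℝ T hT
  refine ⟨a, ?_⟩
  have hone : ∀ b ∈ spectrum ℝ T, b = a := by
    intro b hb
    by_contra hab
    set r : ℝ := |b - a| / 2 with hr
    have hr0 : 0 < r := by
      rw [hr]
      have := abs_pos.2 (sub_ne_zero.2 hab)
      linarith
    let f : ℝ → ℝ := fun t => max 0 (r - |t - a|)
    let h : ℝ → ℝ := fun t => max 0 (r - |t - b|)
    have hfc : Continuous f := by fun_prop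
    have hhc : Continuous h := by fun_prop
    have hfh : ∀ t, f t * h t = 0 := by
      intro t
      by_cases h1 : r ≤ |t - a|
      · have : f t = 0 := max_eq_left (by linarith)
        rw [this, zero_mul]
      · push Not at h1
        have h2 : r ≤ |t - b| := by
          have h3 : |b - a| ≤ |t - b| + |t - a| := by
            have := abs_sub_le b t a
            rwa [abs_sub_comm b t] at this
          have h4 : |b - a| = 2 * r := by rw [hr]; ring
          linarith
        have : h t = 0 := max_eq_left (by linarith)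
        rw [this, mul_zero]
    have hfa : f a ≠ 0 := by
      change max 0 (r - |a - a|) ≠ 0
      rw [sub_self, abs_zero, sub_zero, max_eq_right hr0.le]
      exact hr0.ne'
    have hhb : h b ≠ 0 := by
      change max 0 (r - |b - b|) ≠ 0
      rw [sub_self, abs_zero, sub_zero, max_eq_right hr0.le]
      exact hr0.ne'
    have key : ∀ (φ : ℝ → ℝ), Continuous φ → ∀ c ∈ spectrum ℝ T, φ c ≠ 0 → cfc φ T ≠ 0 := by
      intro φ hφ c hc hne h0
      have h1 : φ c ∈ spectrum ℝ (cfc φ T) := by
        rw [cfc_map_spectrum φ T hT hφ.continuousOn]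
        exact ⟨c, hc, rfl⟩
      rw [h0, spectrum.zero_eq] at h1
      exact hne h1
    have hf0 := key f hfc a ha hfa
    have hh0 := key h hhc b hb hhb
    have hmul : cfc f T * cfc h T = 0 := by
      rw [← cfc_mul f h T hfc.continuousOn hhc.continuousOn]
      have : (fun t => f t * h t) = fun _ => (0 : ℝ) := funext hfh
      rw [this]
      exact cfc_const_zero ℝ T
    have hW := hirr.irr (LinearMap.ker ((cfc f T : H →L[ℂ] H) : H →ₗ[ℂ] H))
      (cfc f T : H →L[ℂ] H).isClosed_ker (by
        intro g v hv
        rw [LinearMap.mem_ker] at hv ⊢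
        change (cfc f T) (π g v) = 0
        rw [hcf f g v]
        have hv' : (cfc f T) v = 0 := hv
        rw [hv', map_zero])
    rcases hW with hW | hW
    · apply hh0
      ext v
      have h1 : (cfc h T) v ∈ LinearMap.ker ((cfc f T : H →L[ℂ] H) : H →ₗ[ℂ] H) := by
        rw [LinearMap.mem_ker]
        exact congrArg (fun A : H →L[ℂ] H => A v) hmul
      rw [hW, Submodule.mem_bot] at h1
      exact h1
    · apply hf0
      ext v
      have h1 : v ∈ LinearMap.ker ((cfc f T : H →L[ℂ] H) : H →ₗ[ℂ] H) := by
        rw [hW]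
        trivial
      exact h1
  have hTa : T = algebraMap ℝ (H →L[ℂ] H) a :=
    CFC.eq_algebraMap_of_spectrum_subset_singleton T a (fun b hb => hone b hb) hT
  intro v
  rw [hTa]
  rfl

theorem schur' (π : G →* (H ≃ₗᵢ[ℂ] H)) (hirr : IsIrr π) (T : H →L[ℂ] H)
    (hcomm : ∀ (g : G) (v : H), T (π g v) = π g (T v)) : ∃ a : ℂ, ∀ v : H, T v = a • v := by
  have hadj : ∀ (g : G) (v : H), (ContinuousLinearMap.adjoint T) (π g v) =
      π g ((ContinuousLinearMap.adjoint T) v) := by
    intro g v
    refine ext_inner_right ℂ fun w => ?_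
    rw [ContinuousLinearMap.adjoint_inner_left]
    have h1 : ∀ z w : H, inner ℂ (π g z) w = inner ℂ z (π g⁻¹ w) := by
      intro z w
      have h2 := (π g).inner_map_map z (π g⁻¹ w)
      have h3 : π g (π g⁻¹ w) = w := by
        have : π g * π g⁻¹ = 1 := by rw [← map_mul, mul_inv_cancel, map_one]
        exact congrArg (fun A : H ≃ₗᵢ[ℂ] H => A w) this
      rw [h3] at h2
      exact h2
    rw [h1, h1, ContinuousLinearMap.adjoint_inner_left, hcomm]
  obtain ⟨a, ha⟩ := schur π hirr (T + ContinuousLinearMap.adjoint T) (by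
      rw [IsSelfAdjoint, ContinuousLinearMap.star_eq_adjoint, map_add,
        ContinuousLinearMap.adjoint_adjoint, add_comm]) (by
      intro g v
      rw [ContinuousLinearMap.add_apply, ContinuousLinearMap.add_apply, hcomm, hadj, map_add])
  obtain ⟨b, hb⟩ := schur π hirr (Complex.I • (T - ContinuousLinearMap.adjoint T)) (by
      rw [IsSelfAdjoint, star_smul, ContinuousLinearMap.star_eq_adjoint, map_sub,
        ContinuousLinearMap.adjoint_adjoint]
      have : star Complex.I = -Complex.I := Complex.conj_I
      rw [this, neg_smul, ← smul_neg, neg_sub]) (by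
      intro g v
      rw [ContinuousLinearMap.smul_apply, ContinuousLinearMap.smul_apply,
        ContinuousLinearMap.sub_apply, ContinuousLinearMap.sub_apply, hcomm, hadj, map_smul,
        map_sub])
  refine ⟨((a : ℂ) - Complex.I * b) / 2, fun v => ?_⟩
  have h1 := ha v
  have h2 := hb v
  rw [ContinuousLinearMap.add_apply] at h1
  rw [ContinuousLinearMap.smul_apply, ContinuousLinearMap.sub_apply] at h2
  have h3 : T v - (ContinuousLinearMap.adjoint T) v = (-Complex.I * b) • v := by
    have h4 := congrArg (fun z => (-Complex.I) • z) h2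
    simp only [smul_smul] at h4
    rw [show -Complex.I * Complex.I = 1 by rw [neg_mul, Complex.I_mul_I, neg_neg], one_smul] at h4
    exact h4
  have h5 : (2 : ℂ) • T v = ((a : ℂ) - Complex.I * b) • v := by
    calc (2 : ℂ) • T v = (T v + (ContinuousLinearMap.adjoint T) v) +
          (T v - (ContinuousLinearMap.adjoint T) v) := by rw [two_smul]; abel
      _ = (a : ℂ) • v + (-Complex.I * b) • v := by rw [h1, h3]
      _ = _ := by rw [← add_smul]; congr 1; ring
  have h6 := congrArg (fun z => (2 : ℂ)⁻¹ • z) h5
  simp only [smul_smul] at h6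
  rw [inv_mul_cancel₀ two_ne_zero, one_smul] at h6
  rw [h6]
  congr 1
  ring

end SBD
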