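import Pool.Agent.SBD.Q06

/-!
# Row SBD-Q07 : Schur's lemma for unbounded operators with an adjoint

PROOF.  (`schur'` of Q06: apply `schur` to the self-adjoint operators `T + T†`, `i(T - T†)`; `T†` also
commutes with the unitary operators `π g`.)
Let `Γ` be the closure in `H × H` (use `WithLp 2 (H × H)`, an inner product space) of the graph
`{(v, Zv) : v ∈ E}`; it is closed and invariant under `(x,y) ↦ (π(g)x, π(g)y)` (`hcomm`).
(a) closability: `(0,y) ∈ Γ → y = 0`: `(v_n, Zv_n) → (0,y)`, `⟨u,y⟩ = lim⟨u,Zv_n⟩ = lim⟨Z'u,v_n⟩ = 0` for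
`u ∈ E`, and `E` is dense (its closure is closed, invariant, nonzero).
(b) Let `P` be the orthogonal projection onto `Γ`; `v ↦ (P(v,0))_1` and `v ↦ (P(v,0))_2` are bounded
operators on `H` commuting with all `π g` (`P` commutes with `π g × π g` because `Γ` and its
orthogonal complement are invariant under this unitary), so they are scalars `a`, `c` (`schur'`):
`(a v, c v) ∈ Γ` for all `v ∈ H`.
(c) `a = 0`: `(0, cv) ∈ Γ` gives `cv = 0`, so `P(v,0) = 0` for all `v`: `(v,0) ⊥ Γ`, so `⟨v,u⟩ = 0` for all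
`u ∈ E`, `v ∈ H`: `E = 0`, contradiction.
(d) `a ≠ 0`: for `v ∈ E`: `(v, (c/a)v) ∈ Γ`, `(v,Zv) ∈ Γ`, so `(0, Zv - (c/a)v) ∈ Γ`, `Zv = (c/a)v`.
-/

open MeasureTheory Filter Topology
open scoped ENNReal NNReal Matrix

noncomputable section

namespace SBD

variable {N : ℕ} {G : Type} [Group G] [TopologicalSpace G] [IsTopologicalGroup G]
  [LocallyCompactSpace G] [T2Space G]
variable {H : Type} [NormedAddCommGroup H] [InnerProductSpace ℂ H] [CompleteSpace H]

omit [IsTopologicalGroup G] [LocallyCompactSpace G] [T2Space G] [CompleteSpace H]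
  [TopologicalSpace G] in
/-- The diagonal action. -/
private def q07_U (π : G →* (H ≃ₗᵢ[ℂ] H)) (g : G) : WithLp 2 (H × H) →ₗᵢ[ℂ] WithLp 2 (H × H) :=
  LinearMap.isometryOfInner
    { toFun := fun z => WithLp.toLp 2 (π g z.fst, π g z.snd)
      map_add' := fun x y => by
        apply WithLp.ofLp_injective
        show (π g (x + y).fst, π g (x + y).snd) = (π g x.fst + π g y.fst, π g x.snd + π g y.snd)
        rw [← map_add, ← map_add]
        rfl
      map_smul' := fun c x => by
        apply WithLp.ofLp_injective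
        show (π g (c • x).fst, π g (c • x).snd) = (c • π g x.fst, c • π g x.snd)
        rw [← map_smul, ← map_smul]
        rfl }
    (by
      intro x y
      rw [WithLp.prod_inner_apply, WithLp.prod_inner_apply]
      show inner ℂ (π g x.fst) (π g y.fst) + inner ℂ (π g x.snd) (π g y.snd) =
        inner ℂ x.fst y.fst + inner ℂ x.snd y.snd
      rw [LinearIsometryEquiv.inner_map_map, LinearIsometryEquiv.inner_map_map])

theorem schur_unb (π : G →* (H ≃ₗᵢ[ℂ] H)) (hirr : IsIrr π) (E : Submodule ℂ H)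
    (hE : ∀ g : G, ∀ v ∈ E, π g v ∈ E) (hE0 : E ≠ ⊥) (Z Z' : E →ₗ[ℂ] E)
    (hadj : ∀ u v : E, inner ℂ ((Z' u : E) : H) (v : H) = inner ℂ (u : H) ((Z v : E) : H))
    (hcomm : ∀ (g : G) (v : E), ((Z ⟨π g (v : H), hE g v v.2⟩ : E) : H) = π g ((Z v : E) : H)) :
    ∃ z : ℂ, ∀ v : E, Z v = z • v := by
  have hU : ∀ (g : G) (z : WithLp 2 (H × H)),
      q07_U π g z = WithLp.toLp 2 (π g z.fst, π g z.snd) := fun g z => rfl
  -- the graph
  let γ : E →ₗ[ℂ] WithLp 2 (H × H) :=
    { toFun := fun v => WithLp.toLp 2 ((v : H), ((Z v : E) : H))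
      map_add' := fun x y => by
        apply WithLp.ofLp_injective
        show (((x + y : E) : H), ((Z (x + y) : E) : H)) =
          ((x : H) + (y : H), ((Z x : E) : H) + ((Z y : E) : H))
        rw [map_add]
        rfl
      map_smul' := fun c x => by
        apply WithLp.ofLp_injective
        show (((c • x : E) : H), ((Z (c • x) : E) : H)) = (c • (x : H), c • ((Z x : E) : H))
        rw [map_smul]
        rfl }
  have hγ : ∀ v : E, γ v = WithLp.toLp 2 ((v : H), ((Z v : E) : H)) := fun v => rfl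
  set Γ0 : Submodule ℂ (WithLp 2 (H × H)) := LinearMap.range γ with hΓ0
  set Γ : Submodule ℂ (WithLp 2 (H × H)) := Γ0.topologicalClosure with hΓ
  have hΓcl : IsClosed (Γ : Set (WithLp 2 (H × H))) := Γ0.isClosed_topologicalClosure
  have _ : CompleteSpace Γ := hΓcl.completeSpace_coe
  have hsub : ∀ v : E, WithLp.toLp 2 ((v : H), ((Z v : E) : H)) ∈ Γ := fun v =>
    Γ0.le_topologicalClosure ⟨v, rfl⟩
  have hΓU : ∀ (g : G) (z : WithLp 2 (H × H)), z ∈ Γ → q07_U π g z ∈ Γ := by
    intro g z hz
    refine map_mem_closure (q07_U π g).continuous hz ?_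
    rintro _ ⟨v, rfl⟩
    refine ⟨⟨π g (v : H), hE g v v.2⟩, ?_⟩
    rw [hγ, hγ, hU, hcomm]
    rfl
  -- (a) closability
  have hdense : Eᗮ = ⊥ := by
    rw [← Submodule.topologicalClosure_eq_top_iff]
    rcases hirr.irr E.topologicalClosure E.isClosed_topologicalClosure (by
      intro g v hv
      exact map_mem_closure (π g).continuous hv (fun w hw => hE g w hw)) with h | h
    · exfalso
      apply hE0
      rw [eq_bot_iff, ← h]
      exact E.le_topologicalClosure
    · exact h
  have hclos : ∀ y : H, WithLp.toLp 2 ((0 : H), y) ∈ Γ → y = 0 := by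
    intro y hy
    have h1 : ∀ u : E, ∀ z ∈ Γ, inner ℂ (u : H) z.snd = inner ℂ ((Z' u : E) : H) z.fst := by
      intro u
      have hc : IsClosed {z : WithLp 2 (H × H) |
          inner ℂ (u : H) z.snd = inner ℂ ((Z' u : E) : H) z.fst} := by
        refine isClosed_eq ?_ ?_
        · exact continuous_const.inner
            (continuous_snd.comp (WithLp.prodContinuousLinearEquiv 2 ℂ H H).continuous)
        · exact continuous_const.inner
            (continuous_fst.comp (WithLp.prodContinuousLinearEquiv 2 ℂ H H).continuous)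
      intro z hz
      have h2 : (Γ0 : Set (WithLp 2 (H × H))) ⊆ {z : WithLp 2 (H × H) |
          inner ℂ (u : H) z.snd = inner ℂ ((Z' u : E) : H) z.fst} := by
        rintro _ ⟨v, rfl⟩
        exact (hadj u v).symm
      exact closure_minimal h2 hc hz
    have h2 : y ∈ Eᗮ := by
      rw [Submodule.mem_orthogonal]
      intro u hu
      have h3 := h1 ⟨u, hu⟩ _ hy
      have h4 : inner ℂ (((Z' ⟨u, hu⟩ : E)) : H) (0 : H) = (0 : ℂ) := inner_zero_right _
      exact h3.trans h4
    rw [hdense] at h2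
    exact (Submodule.mem_bot ℂ).1 h2
  -- (b) the projection
  let inj : H →L[ℂ] WithLp 2 (H × H) :=
    ((WithLp.prodContinuousLinearEquiv 2 ℂ H H).symm : (H × H) →L[ℂ] WithLp 2 (H × H)).comp
      (ContinuousLinearMap.inl ℂ H H)
  let p1 : WithLp 2 (H × H) →L[ℂ] H :=
    (ContinuousLinearMap.fst ℂ H H).comp
      ((WithLp.prodContinuousLinearEquiv 2 ℂ H H) : WithLp 2 (H × H) →L[ℂ] (H × H))
  let p2 : WithLp 2 (H × H) →L[ℂ] H :=
    (ContinuousLinearMap.snd ℂ H H).comp
      ((WithLp.prodContinuousLinearEquiv 2 ℂ H H) : WithLp 2 (H × H) →L[ℂ] (H × H))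
  have hinj : ∀ v, inj v = WithLp.toLp 2 (v, (0 : H)) := fun v => rfl
  have hp1 : ∀ z, p1 z = z.fst := fun z => rfl
  have hp2 : ∀ z, p2 z = z.snd := fun z => rfl
  have hPU : ∀ (g : G) (v : H), Γ.starProjection (inj (π g v)) =
      q07_U π g (Γ.starProjection (inj v)) := by
    intro g v
    refine Submodule.eq_starProjection_of_mem_of_inner_eq_zero
      (hΓU g _ (Submodule.starProjection_apply_mem _ _)) ?_
    intro w hw
    have e1 : inj (π g v) = q07_U π g (inj v) := by
      rw [hU, hinj, hinj]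
      show WithLp.toLp 2 (π g v, (0 : H)) = WithLp.toLp 2 (π g v, π g (0 : H))
      rw [map_zero]
    have e2 : w = q07_U π g (q07_U π g⁻¹ w) := by
      rw [hU, hU]
      apply WithLp.ofLp_injective
      show (w.fst, w.snd) = (π g (π g⁻¹ w.fst), π g (π g⁻¹ w.snd))
      have h3 : ∀ y : H, π g (π g⁻¹ y) = y := by
        intro y
        have h4 : π g * π g⁻¹ = 1 := by rw [← map_mul, mul_inv_cancel, map_one]
        exact congrArg (fun f : H ≃ₗᵢ[ℂ] H => f y) h4
      rw [h3, h3]
    rw [e1, ← map_sub, e2, LinearIsometry.inner_map_map]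
    exact Submodule.starProjection_inner_eq_zero _ _ (hΓU g⁻¹ w hw)
  obtain ⟨a, ha⟩ := schur' π hirr ((p1.comp Γ.starProjection).comp inj) (by
    intro g v
    show p1 (Γ.starProjection (inj (π g v))) = π g (p1 (Γ.starProjection (inj v)))
    rw [hPU]
    rfl)
  obtain ⟨c, hc⟩ := schur' π hirr ((p2.comp Γ.starProjection).comp inj) (by
    intro g v
    show p2 (Γ.starProjection (inj (π g v))) = π g (p2 (Γ.starProjection (inj v)))
    rw [hPU]
    rfl)
  have hPe : ∀ v : H, Γ.starProjection (inj v) = WithLp.toLp 2 (a • v, c • v) := by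
    intro v
    apply WithLp.ofLp_injective
    exact Prod.ext (ha v) (hc v)
  have hmem : ∀ v : H, WithLp.toLp 2 (a • v, c • v) ∈ Γ := by
    intro v
    rw [← hPe]
    exact Submodule.starProjection_apply_mem _ _
  by_cases ha0 : a = 0
  · -- (c)
    exfalso
    apply hE0
    rw [eq_bot_iff]
    intro u hu
    have hcv : ∀ v : H, c • v = 0 := by
      intro v
      apply hclos
      have := hmem v
      rwa [ha0, zero_smul] at this
    have h1 : Γ.starProjection (inj u) = 0 := by
      rw [hPe, ha0, zero_smul, hcv]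
      rfl
    rw [Submodule.starProjection_apply_eq_zero_iff, Submodule.mem_orthogonal] at h1
    have h2 := h1 _ (hsub ⟨u, hu⟩)
    rw [WithLp.prod_inner_apply, hinj] at h2
    have h3 : inner ℂ u u + inner ℂ (((Z ⟨u, hu⟩ : E)) : H) (0 : H) = 0 := h2
    rw [inner_zero_right, add_zero, inner_self_eq_zero] at h3
    exact (Submodule.mem_bot ℂ).2 h3
  · -- (d)
    refine ⟨c / a, fun v => ?_⟩
    have h1 : WithLp.toLp 2 ((v : H), (c / a) • (v : H)) ∈ Γ := by
      have h2 := Γ.smul_mem a⁻¹ (hmem (v : H))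
      have e : a⁻¹ • (WithLp.toLp 2 (a • (v : H), c • (v : H)) : WithLp 2 (H × H)) =
          WithLp.toLp 2 ((v : H), (c / a) • (v : H)) := by
        apply WithLp.ofLp_injective
        show (a⁻¹ • a • (v : H), a⁻¹ • c • (v : H)) = ((v : H), (c / a) • (v : H))
        rw [smul_smul, smul_smul, inv_mul_cancel₀ ha0, one_smul, div_eq_inv_mul]
      rwa [e] at h2
    have h2 := Γ.sub_mem (hsub v) h1
    have e : (WithLp.toLp 2 ((v : H), ((Z v : E) : H)) -
        WithLp.toLp 2 ((v : H), (c / a) • (v : H)) : WithLp 2 (H × H)) =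
        WithLp.toLp 2 ((0 : H), ((Z v : E) : H) - (c / a) • (v : H)) := by
      apply WithLp.ofLp_injective
      show ((v : H) - (v : H), ((Z v : E) : H) - (c / a) • (v : H)) = _
      rw [sub_self]
    rw [e] at h2
    have h3 := hclos _ h2
    apply Subtype.ext
    exact sub_eq_zero.1 h3

end SBD
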