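import Pool.Agent.SBD.MkRep

/-!
# Row SBD-Q08 : the operators `tr(X^j)` and the group

For `A = mkRep L π B E D hD` and `𝒵 = tr(A.X^j)`: there is `𝒵' : E → E` with
`⟨u, π(g)𝒵v⟩ = ⟨𝒵'u, π(g)v⟩` for all `g`, `u, v ∈ E`.  This is step (2) of P12 (store `SBD_P12.lean`), with
`KFin L π` replaced by `E` and `dif_weak` by `difE_weak`; copy and adapt.  (`j = 0` is trivial: `𝒵 = N`.)
-/

open MeasureTheory Filter Topology
open scoped ENNReal NNReal Matrix

noncomputable section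

namespace SBD

variable {N : ℕ} {G : Type} [Group G] [TopologicalSpace G] [IsTopologicalGroup G]
  [LocallyCompactSpace G] [T2Space G]
variable {H : Type} [NormedAddCommGroup H] [InnerProductSpace ℂ H] [CompleteSpace H]

section alg

variable {V : Type} [NormedAddCommGroup V] [InnerProductSpace ℂ V] (A : LieRep N V)

private theorem Q08_fip_add (X Y T : Mat N) : fip (X + Y) T = fip X T + fip Y T := by
  simp [fip, Matrix.transpose_add, Matrix.add_mul, Matrix.trace_add]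

private theorem Q08_fip_neg (X T : Mat N) : fip (-X) T = -fip X T := by
  simp [fip, Matrix.transpose_neg, Matrix.trace_neg]

private theorem Q08_fip_smul (c : ℝ) (X T : Mat N) : fip (c • X) T = c * fip X T := by
  simp [fip, Matrix.transpose_smul, Matrix.trace_smul]

private theorem Q08_fip_sum {ι : Type} (s : Finset ι) (f : ι → Mat N) (T : Mat N) :
    fip (∑ i ∈ s, f i) T = ∑ i ∈ s, fip (f i) T := by
  simp [fip, Matrix.transpose_sum, Finset.sum_mul, Matrix.trace_sum]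

private theorem Q08_fip_symm (X Y : Mat N) : fip X Y = fip Y X := by
  unfold fip
  rw [← Matrix.trace_transpose, Matrix.transpose_mul, Matrix.transpose_transpose]

private theorem Q08_W_mem (i j : Fin N) : A.W i j ∈ A.𝔤 := by
  unfold LieRep.W
  exact A.𝔤.add_mem
    (A.𝔤.neg_mem (A.𝔤.sum_mem fun a _ => A.𝔤.smul_mem _ (A.Z_mem a)))
    (A.𝔤.sum_mem fun b _ => A.𝔤.smul_mem _ (A.P_mem b))

private theorem Q08_fip_W (i j : Fin N) {Y : Mat N} (hY : Y ∈ A.𝔤) : fip (A.W i j) Y = Y j i := by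
  have h1 : Y j i = (∑ a, fip (A.Z a) Y • A.Z a + ∑ b, fip (A.P b) Y • A.P b) j i := by
    rw [← A.basis Y hY]
  rw [h1, Matrix.add_apply, Matrix.sum_apply, Matrix.sum_apply]
  unfold LieRep.W
  rw [Q08_fip_add, Q08_fip_neg, Q08_fip_sum, Q08_fip_sum, ← Finset.sum_neg_distrib]
  congr 1
  · refine Finset.sum_congr rfl fun a _ => ?_
    have h2 : A.Z a j i = -A.Z a i j := by
      have := congrFun (congrFun (A.Z_t a) i) j
      rwa [Matrix.transpose_apply, Matrix.neg_apply] at this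
    rw [Q08_fip_smul, Matrix.smul_apply, h2, smul_eq_mul]
    ring
  · refine Finset.sum_congr rfl fun b _ => ?_
    have h2 : A.P b j i = A.P b i j := by
      have := congrFun (congrFun (A.P_t b) i) j
      rwa [Matrix.transpose_apply] at this
    rw [Q08_fip_smul, Matrix.smul_apply, h2, smul_eq_mul]
    ring

private theorem Q08_nondeg {Y : Mat N} (hY : Y ∈ A.𝔤) (h : ∀ T ∈ A.𝔤, fip Y T = 0) : Y = 0 := by
  rw [A.basis Y hY]
  have h1 : ∀ a, fip (A.Z a) Y = 0 := fun a => by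
    rw [Q08_fip_symm]
    exact h _ (A.Z_mem a)
  have h2 : ∀ b, fip (A.P b) Y = 0 := fun b => by
    rw [Q08_fip_symm]
    exact h _ (A.P_mem b)
  simp [h1, h2]

/-- `ι(g) W_{ij} ι(g)⁻¹ = ∑ (ι(g)⁻¹)_{ia} ι(g)_{bj} W_{ab}` -/
private theorem Q08_conj (h h' : Mat N) (hh : ∀ Y ∈ A.𝔤, h * Y * h' ∈ A.𝔤)
    (hh' : ∀ Y ∈ A.𝔤, hᵀ * Y * h'ᵀ ∈ A.𝔤) (i j : Fin N) :
    h * A.W i j * h' = ∑ a, ∑ b, (h' i a * h b j) • A.W a b := by
  rw [← sub_eq_zero]
  refine Q08_nondeg A (A.𝔤.sub_mem (hh _ (Q08_W_mem A i j))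
    (A.𝔤.sum_mem fun a _ => A.𝔤.sum_mem fun b _ => A.𝔤.smul_mem _ (Q08_W_mem A a b))) ?_
  intro T hT
  have h1 : fip (h * A.W i j * h') T = (hᵀ * T * h'ᵀ) j i := by
    rw [← Q08_fip_W A i j (hh' T hT)]
    unfold fip
    rw [Matrix.transpose_mul, Matrix.transpose_mul]
    calc (h'ᵀ * ((A.W i j)ᵀ * hᵀ) * T).trace
        = (h'ᵀ * ((A.W i j)ᵀ * hᵀ * T)).trace := by rw [Matrix.mul_assoc]
      _ = ((A.W i j)ᵀ * hᵀ * T * h'ᵀ).trace := Matrix.trace_mul_comm _ _
      _ = _ := by simp only [Matrix.mul_assoc]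
  have h2 : fip (∑ a, ∑ b, (h' i a * h b j) • A.W a b) T = (hᵀ * T * h'ᵀ) j i := by
    rw [Q08_fip_sum, Matrix.mul_apply]
    refine Finset.sum_congr rfl fun a _ => ?_
    rw [Q08_fip_sum, Matrix.mul_apply, Finset.sum_mul]
    refine Finset.sum_congr rfl fun b _ => ?_
    rw [Q08_fip_smul, Q08_fip_W A a b hT, Matrix.transpose_apply, Matrix.transpose_apply]
    ring
  rw [sub_eq_add_neg, Q08_fip_add, Q08_fip_neg, h1, h2, add_neg_cancel]

/-- scalar matrices -/
private def Q08_S (M : Mat N) : Matrix (Fin N) (Fin N) (Module.End ℂ V) :=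
  fun i j => (M i j) • (1 : Module.End ℂ V)

private theorem Q08_S_mul (M M' : Mat N) :
    (Q08_S M : Matrix (Fin N) (Fin N) (Module.End ℂ V)) * Q08_S M' = Q08_S (M * M') := by
  ext1 i j
  rw [Matrix.mul_apply]
  unfold Q08_S
  rw [Matrix.mul_apply, Finset.sum_smul]
  refine Finset.sum_congr rfl fun a _ => ?_
  ext v
  simp only [Module.End.mul_apply, LinearMap.smul_apply, Module.End.one_apply]
  rw [smul_smul]

private theorem Q08_S_one : (Q08_S 1 : Matrix (Fin N) (Fin N) (Module.End ℂ V)) = 1 := by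
  ext1 i j
  unfold Q08_S
  rw [Matrix.one_apply, Matrix.one_apply]
  split_ifs
  · rw [one_smul]
  · rw [zero_smul]

private theorem Q08_trace_S (M : Mat N) (Y : Matrix (Fin N) (Fin N) (Module.End ℂ V)) :
    (Q08_S M * Y).trace = (Y * Q08_S M).trace := by
  unfold Matrix.trace
  simp only [Matrix.diag_apply, Matrix.mul_apply]
  rw [Finset.sum_comm]
  refine Finset.sum_congr rfl fun a _ => Finset.sum_congr rfl fun b _ => ?_
  unfold Q08_S
  ext v
  simp

/-- the transpose of `ι(g) X ι(g)⁻¹` -/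
private def Q08_Y (h h' : Mat N) : Matrix (Fin N) (Fin N) (Module.End ℂ V) :=
  fun i j => A.D (h * A.W j i * h')

/-- the trace of `((ι(g) X ι(g)⁻¹)ᵀ)^n` -/
private theorem Q08_trace (h h' : Mat N) (hh : ∀ Y ∈ A.𝔤, h * Y * h' ∈ A.𝔤)
    (hh' : ∀ Y ∈ A.𝔤, hᵀ * Y * h'ᵀ ∈ A.𝔤) (h1 : h * h' = 1) (h2 : h' * h = 1) (n : ℕ) :
    ((Q08_Y A h h') ^ n).trace = (A.X.transpose ^ n).trace := by
  have key : Q08_Y A h h' = Q08_S hᵀ * A.X.transpose * Q08_S h'ᵀ := by
    ext1 i j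
    show A.D (h * A.W j i * h') = _
    rw [Q08_conj A h h' hh hh', map_sum, Matrix.mul_apply]
    refine Finset.sum_congr rfl fun a _ => ?_
    rw [map_sum, Matrix.mul_apply, Finset.sum_mul]
    refine Finset.sum_congr rfl fun b _ => ?_
    rw [map_smul]
    ext v
    show (h' j a * h b i) • (A.D (A.W a b)) v = h b i • (A.D (A.W a b)) (h' j a • v)
    rw [LinearMap.map_smul_of_tower, smul_smul, mul_comm]
  have e1 : (Q08_S h'ᵀ : Matrix (Fin N) (Fin N) (Module.End ℂ V)) * Q08_S hᵀ = 1 := by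
    rw [Q08_S_mul, ← Matrix.transpose_mul, h1, Matrix.transpose_one, Q08_S_one]
  have e2 : (Q08_S hᵀ : Matrix (Fin N) (Fin N) (Module.End ℂ V)) * Q08_S h'ᵀ = 1 := by
    rw [Q08_S_mul, ← Matrix.transpose_mul, h2, Matrix.transpose_one, Q08_S_one]
  rw [key]
  have hpow : ∀ n : ℕ, (Q08_S hᵀ * A.X.transpose * Q08_S h'ᵀ) ^ n =
      Q08_S hᵀ * A.X.transpose ^ n * Q08_S h'ᵀ := by
    intro n
    induction n with
    | zero => rw [pow_zero, pow_zero, Matrix.mul_one, e2]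
    | succ n ih =>
      rw [pow_succ, ih, pow_succ]
      calc Q08_S hᵀ * A.X.transpose ^ n * Q08_S h'ᵀ * (Q08_S hᵀ * A.X.transpose * Q08_S h'ᵀ)
          = Q08_S hᵀ * A.X.transpose ^ n * (Q08_S h'ᵀ * Q08_S hᵀ) * A.X.transpose * Q08_S h'ᵀ := by
            simp only [Matrix.mul_assoc]
        _ = _ := by rw [e1, Matrix.mul_one]; simp only [Matrix.mul_assoc]
  rw [hpow, Matrix.mul_assoc, Q08_trace_S, Matrix.mul_assoc, e1, Matrix.mul_one]

end alg

/-- `⟨u, π(g) (X^n)_{il} v⟩ = (-1)^n ⟨((X_gᵀ)^n)_{li} u, π(g) v⟩` -/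
private theorem Q08_weak (L : LieData N G) (π : G →* (H ≃ₗᵢ[ℂ] H))
    (E : Submodule ℂ H) (A : LieRep N E) (hg : A.𝔤 = L.𝔤) (hD : DifE L π E A.D) (g : G) (n : ℕ) :
    ∀ (i l : Fin N) (u v : E),
    inner ℂ (u : H) (π g (((A.X ^ n) i l v : E) : H)) =
      (-1) ^ n * inner ℂ ((((Q08_Y A (L.ι g) (L.ι g⁻¹)) ^ n) l i u : E) : H)
        (π g (v : H)) := by
  induction n with
  | zero =>
    intro i l u v
    rw [pow_zero, pow_zero, pow_zero, one_mul, Matrix.one_apply, Matrix.one_apply]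
    by_cases h : i = l
    · rw [if_pos h, if_pos h.symm]
      rfl
    · rw [if_neg h, if_neg (Ne.symm h)]
      simp
  | succ n ih =>
    intro i l u v
    rw [pow_succ A.X, pow_succ' (Q08_Y A (L.ι g) (L.ι g⁻¹)), Matrix.mul_apply, Matrix.mul_apply,
      LinearMap.sum_apply, LinearMap.sum_apply, Submodule.coe_sum, Submodule.coe_sum, map_sum,
      inner_sum, sum_inner, Finset.mul_sum]
    refine Finset.sum_congr rfl fun a _ => ?_
    rw [Module.End.mul_apply, Module.End.mul_apply, ih]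
    have hW : A.W a l ∈ L.𝔤 := by
      rw [← hg]
      exact Q08_W_mem A a l
    have h1 := difE_weak L π E A.D hD hW (((Q08_Y A (L.ι g) (L.ι g⁻¹)) ^ n) a i u) v g
    have h2 : inner ℂ ((((Q08_Y A (L.ι g) (L.ι g⁻¹)) ^ n) a i u : E) : H)
        (π g (((A.X a l) v : E) : H)) =
        -inner ℂ (((Q08_Y A (L.ι g) (L.ι g⁻¹)) l a
          (((Q08_Y A (L.ι g) (L.ι g⁻¹)) ^ n) a i u) : E) : H) (π g (v : H)) := h1
    rw [h2, pow_succ]
    ring

/-- the adjoint of `tr(X^n)` -/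
private theorem Q08_adj (L : LieData N G) (π : G →* (H ≃ₗᵢ[ℂ] H))
    (E : Submodule ℂ H) (A : LieRep N E) (hg : A.𝔤 = L.𝔤) (hD : DifE L π E A.D) (n : ℕ) (g : G)
    (u v : E) :
    inner ℂ (u : H) (π g (((A.X ^ n).trace v : E) : H)) =
      inner ℂ (((((-1 : ℂ) ^ n) • (A.X.transpose ^ n).trace) u : E) : H) (π g (v : H)) := by
  have h0 : (A.X.transpose ^ n).trace = ((Q08_Y A (L.ι g) (L.ι g⁻¹)) ^ n).trace := by
    refine (Q08_trace A _ _ ?_ ?_ ?_ ?_ n).symm
    · rw [hg]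
      exact fun Y hY => L.ad_mem g Y hY
    · rw [hg]
      intro Y hY
      have h := L.transpose_mem _ (L.ad_mem g⁻¹ _ (L.transpose_mem Y hY))
      rw [inv_inv, Matrix.transpose_mul, Matrix.transpose_mul, Matrix.transpose_transpose,
        ← Matrix.mul_assoc] at h
      exact h
    · rw [← map_mul, mul_inv_cancel, map_one]
    · rw [← map_mul, inv_mul_cancel, map_one]
  rw [h0, LinearMap.smul_apply, Submodule.coe_smul, inner_smul_left]
  unfold Matrix.trace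
  rw [LinearMap.sum_apply, LinearMap.sum_apply, Submodule.coe_sum, Submodule.coe_sum, map_sum,
    inner_sum, sum_inner, Finset.mul_sum]
  refine Finset.sum_congr rfl fun i _ => ?_
  rw [Matrix.diag_apply, Matrix.diag_apply, Q08_weak L π E A hg hD g n i i u v]
  congr 1
  rw [map_pow, map_neg, map_one]

theorem trace_weakE (L : LieData N G) (π : G →* (H ≃ₗᵢ[ℂ] H)) (B : Bases L) (E : Submodule ℂ H)
    (D : Mat N →ₗ[ℝ] (E →ₗ[ℂ] E)) (hD : DifE L π E D) (j : ℕ) :
    ∃ Z' : E →ₗ[ℂ] E, ∀ (u v : E) (g : G),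
      inner ℂ (u : H) (π g (((((mkRep L π B E D hD).X ^ j).trace : Module.End ℂ E) v : E) : H)) =
        inner ℂ ((Z' u : E) : H) (π g (v : H)) :=
  ⟨((-1 : ℂ) ^ j) • ((mkRep L π B E D hD).X.transpose ^ j).trace,
    fun u v g => Q08_adj L π E (mkRep L π B E D hD) rfl hD j g u v⟩

end SBD
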