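import Pool.Agent.SBD.Q07
import Pool.Agent.SBD.Q08

/-!
# Row SBD-Q09 : `tr(X^j)` is a scalar on a `G`-invariant smooth space

PROOF.  `𝒵 = tr(A.X^j)`, `𝒵'` from Q08.  `hadj` is Q08 with `g = 1`.  `hcomm`: for `u ∈ E`:
`⟨u, π(g)𝒵v⟩ = ⟨𝒵'u, π(g)v⟩ = ⟨u, 𝒵π(g)v⟩` (Q08 with `g`, and with `1` for `π(g)v ∈ E`), both vectors are in
`E` (`hE`), so they are equal.  Q07.  If `E = ⊥` any scalar will do.
-/

open MeasureTheory Filter Topology
open scoped ENNReal NNReal Matrix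

noncomputable section

namespace SBD

variable {N : ℕ} {G : Type} [Group G] [TopologicalSpace G] [IsTopologicalGroup G]
  [LocallyCompactSpace G] [T2Space G]
variable {H : Type} [NormedAddCommGroup H] [InnerProductSpace ℂ H] [CompleteSpace H]

theorem trace_scalarE (L : LieData N G) (π : G →* (H ≃ₗᵢ[ℂ] H)) (hirr : IsIrr π) (B : Bases L)
    (E : Submodule ℂ H) (D : Mat N →ₗ[ℝ] (E →ₗ[ℂ] E)) (hD : DifE L π E D)
    (hE : ∀ g : G, ∀ v ∈ E, π g v ∈ E) (j : ℕ) :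
    ∃ z : ℂ, ((mkRep L π B E D hD).X ^ j).trace = z • (1 : Module.End ℂ E) := by
  by_cases hE0 : E = ⊥
  · refine ⟨0, ?_⟩
    ext1 v
    have h2 : ∀ x : E, x = 0 := fun x => by
      have hx : (x : H) ∈ (⊥ : Submodule ℂ H) := hE0 ▸ x.2
      exact Subtype.ext ((Submodule.mem_bot ℂ).mp hx)
    rw [h2 (((mkRep L π B E D hD).X ^ j).trace v), h2 ((0 • (1 : Module.End ℂ E)) v)]
  · obtain ⟨Z', hZ'⟩ := trace_weakE L π B E D hD j
    set Z : E →ₗ[ℂ] E := ((mkRep L π B E D hD).X ^ j).trace with hZ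
    have hadj : ∀ u v : E, inner ℂ ((Z' u : E) : H) (v : H) =
        inner ℂ (u : H) ((Z v : E) : H) := by
      intro u v
      have h := hZ' u v 1
      rw [map_one] at h
      exact h.symm
    have hcomm : ∀ (g : G) (v : E), ((Z ⟨π g (v : H), hE g v v.2⟩ : E) : H) =
        π g ((Z v : E) : H) := by
      intro g v
      have h1 : (Z ⟨π g (v : H), hE g v v.2⟩ : E) =
          (⟨π g ((Z v : E) : H), hE g _ (Z v).2⟩ : E) := by
        refine ext_inner_left ℂ fun u => ?_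
        show inner ℂ (u : H) ((Z ⟨π g (v : H), hE g v v.2⟩ : E) : H) =
          inner ℂ (u : H) (π g ((Z v : E) : H))
        rw [hZ' u v g, ← hadj u ⟨π g (v : H), hE g v v.2⟩]
      exact congrArg Subtype.val h1
    obtain ⟨z, hz⟩ := schur_unb π hirr E hE hE0 Z Z' hadj hcomm
    exact ⟨z, LinearMap.ext fun v => by rw [hz v]; rfl⟩

end SBD
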