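import Pool.Agent.SBD.Q05

/-!
# Row SBD-Q10 : a finite-dimensional `K`-invariant space of smooth vectors

PROOF.  `0 ≠ u ∈ KFin L π`, `u ∈ W₁` finite-dimensional `K`-invariant.  By `approx` (P04) with `η = 1/2` and
`shf_bump` (Q03) there is `Φ ∈ SmF` with `f = shf L O Φ` conjugation invariant, `∫f = 1`, and
`‖π(f)y - y‖ ≤ ½‖y‖` on `W₁`.  `W = π(f)W₁`: finite-dimensional (image under a linear map), in `E`,
`K`-invariant (`sm_comm`, P04), contains `π(f)u ≠ 0`.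
-/

open MeasureTheory Filter Topology
open scoped ENNReal NNReal Matrix

noncomputable section

namespace SBD

variable {N : ℕ} {G : Type} [Group G] [TopologicalSpace G] [IsTopologicalGroup G]
  [LocallyCompactSpace G] [T2Space G]
variable [SecondCountableTopology G] [MeasurableSpace G] [BorelSpace G]
variable {H : Type} [NormedAddCommGroup H] [InnerProductSpace ℂ H] [CompleteSpace H]

theorem exists_W0 (L : LieData N G) (π : G →* (H ≃ₗᵢ[ℂ] H))
    (hc : ∀ v : H, Continuous fun g => π g v) (μ : Measure G) [μ.IsHaarMeasure]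
    [μ.IsMulRightInvariant] {O : Set G} {ρ : ℝ} (hO : Sheet L O ρ)
    (hinj : ∀ x ∈ O, L.ι x = 1 → x = 1) (E : Submodule ℂ H)
    (hE : ∀ Φ : (Fin N → Fin N → ℝ) → ℝ, SmF N ρ Φ → ∀ u : H, sm π μ (shf L O Φ) u ∈ E)
    (hV : ∃ u ∈ KFin L π, u ≠ 0) :
    ∃ W : Submodule ℂ H, FiniteDimensional ℂ W ∧ W ≤ E ∧ W ≠ ⊥ ∧
      ∀ k ∈ L.K, ∀ x ∈ W, π k x ∈ W := by
  obtain ⟨u, ⟨W₁, hfin, huW, hK⟩, hu0⟩ := hV
  obtain ⟨O₁, hO₁, happ⟩ := approx π hc μ W₁ (1 / 2) (by norm_num)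
  obtain ⟨Φ, hΦ, hpos, hsupp, hint, hconj⟩ := shf_bump L hO hinj μ O₁ hO₁
  have hf := shf_cont L hO hΦ
  have hs := shf_supp L hO hΦ
  have h1 := happ (shf L O Φ) hf hs hpos hsupp hint
  let T : H →ₗ[ℂ] H :=
    { toFun := fun v => sm π μ (shf L O Φ) v
      map_add' := fun v w => sm_add π hc μ _ hf hs v w
      map_smul' := fun c v => sm_smul π hc μ _ hf hs c v }
  refine ⟨W₁.map T, inferInstance, ?_, ?_, ?_⟩
  · rintro _ ⟨v, -, rfl⟩
    exact hE Φ hΦ v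
  · intro hbot
    have h2 : T u ∈ W₁.map T := ⟨u, huW, rfl⟩
    rw [hbot, Submodule.mem_bot] at h2
    have h3 := h1 u huW
    have h4 : sm π μ (shf L O Φ) u = 0 := h2
    rw [h4, zero_sub, norm_neg] at h3
    have h5 : 0 < ‖u‖ := norm_pos_iff.2 hu0
    linarith
  · rintro k hk _ ⟨v, hv, rfl⟩
    exact ⟨π k v, hK k hk v hv, (sm_comm π hc μ _ hf hs L hconj k hk v).symm⟩

end SBD
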