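import Pool.Agent.SBD.R08

/-!
# Row SBD-R09 : a module generated by a finite-dimensional `W` is admissible

* `top` : each `Fil W m` is finite-dimensional and `D(Z_i)`-stable (R01), `-∑D(Z_i)²` is symmetric on
  it (`A.skew`), so it has a basis of eigenvectors (`LinearMap.IsSymmetric`), real eigenvalues `c`:
  `A.eig (1+c)`; and `⋃ Fil W m = V`.
* `fin` : `y ∈ A.eig lam`, `lam ≤ R`: `∑D(Z_i)²y = -(lam-1)y`, `lam - 1 ≤ R`; `y ∈ Fil W m` for some `m`;
  descend with `fil_stable` (R08) to `y ∈ Fil W M₀`.  So `A.low R ≤ Fil W M₀`.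
-/

open scoped Matrix

noncomputable section

namespace SBD

namespace LieRep

variable {N : ℕ} {V : Type} [NormedAddCommGroup V] [InnerProductSpace ℂ V] (A : LieRep N V)

private theorem r09_del (y : V) (lam : ℝ) (hy : y ∈ A.eig lam) :
    ∑ i, A.D (A.Z i) (A.D (A.Z i) y) = -(((lam - 1 : ℝ) : ℂ) • y) := by
  have h1 : A.Del y = (lam : ℂ) • y := hy
  unfold Del at h1
  rw [LinearMap.sub_apply, LinearMap.id_apply, LinearMap.sum_apply] at h1
  simp only [LinearMap.comp_apply] at h1
  have h2 : ∑ i, A.D (A.Z i) (A.D (A.Z i) y) = y - (lam : ℂ) • y := by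
    rw [← h1, sub_sub_cancel]
  rw [h2, Complex.ofReal_sub, Complex.ofReal_one, sub_smul, one_smul, neg_sub]

private theorem r09_sym (u v : V) : inner ℂ (A.Del u) v = inner ℂ u (A.Del v) := by
  unfold Del
  rw [LinearMap.sub_apply, LinearMap.id_apply, LinearMap.sum_apply, LinearMap.sub_apply,
    LinearMap.id_apply, LinearMap.sum_apply, inner_sub_left, inner_sub_right, sum_inner, inner_sum]
  congr 1
  apply Finset.sum_congr rfl
  intro i _
  rw [LinearMap.comp_apply, LinearMap.comp_apply, A.skew _ (A.Z_mem i), A.skew _ (A.Z_mem i),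
    neg_neg]

private theorem r09_top (U : Submodule ℂ V) [FiniteDimensional ℂ U]
    (hU : ∀ v ∈ U, A.Del v ∈ U) : U ≤ ⨆ lam : ℝ, A.eig lam := by
  set T : U →ₗ[ℂ] U := A.Del.restrict hU with hT
  have hTs : T.IsSymmetric := by
    intro x y
    exact A.r09_sym x y
  have h1 := hTs.orthogonalComplement_iSup_eigenspaces_eq_bot
  have h2 : (⨆ μ : ℂ, Module.End.eigenspace T μ) = ⊤ := by
    rw [← Submodule.orthogonal_orthogonal (⨆ μ : ℂ, Module.End.eigenspace T μ), h1,
      Submodule.bot_orthogonal_eq_top]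
  have h3 : U = (⊤ : Submodule ℂ U).map U.subtype := by
    rw [Submodule.map_top, Submodule.range_subtype]
  rw [h3, ← h2, Submodule.map_iSup]
  apply iSup_le
  intro μ
  rintro _ ⟨x, hx, rfl⟩
  by_cases hx0 : x = 0
  · rw [hx0, map_zero]
    exact Submodule.zero_mem _
  · have h4 : T x = μ • x := Module.End.mem_eigenspace_iff.1 hx
    have hev : Module.End.HasEigenvalue T μ := Module.End.hasEigenvalue_of_hasEigenvector ⟨hx, hx0⟩
    have h5 := hTs.conj_eigenvalue_eq_self hev
    have h6 : ((μ.re : ℝ) : ℂ) = μ := Complex.conj_eq_iff_re.1 h5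
    refine Submodule.mem_iSup_of_mem μ.re ?_
    show A.Del (x : V) = ((μ.re : ℝ) : ℂ) • (x : V)
    rw [h6]
    exact congrArg Subtype.val h4

theorem adm_of_gen (htr : ∀ j, 1 ≤ j → ∃ z : ℂ, (A.X ^ j).trace = z • (1 : Module.End ℂ V))
    (W : Submodule ℂ V) [FiniteDimensional ℂ W] (hW : ∀ i, ∀ w ∈ W, A.D (A.Z i) w ∈ W)
    (hgen : ∀ v : V, ∃ m : ℕ, v ∈ A.Fil W m) : A.IsAdm := by
  refine ⟨?_, ?_, htr⟩
  · intro R
    obtain ⟨M₀, hM₀⟩ := A.fil_stable htr W hW (R - 1)
    haveI := A.Fil_fin W M₀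
    have hle : A.low R ≤ A.Fil W M₀ := by
      unfold low
      apply iSup_le
      rintro ⟨lam, hlam⟩ y hy
      obtain ⟨m, hm⟩ := hgen y
      have key : ∀ m : ℕ, y ∈ A.Fil W m → y ∈ A.Fil W M₀ := by
        intro m
        induction m with
        | zero => intro h; exact A.Fil_mono W (Nat.zero_le _) h
        | succ M ih =>
          intro h
          by_cases hM : M + 1 ≤ M₀
          · exact A.Fil_mono W hM h
          · exact ih (hM₀ M (by omega) y h (lam - 1) (by linarith) (A.r09_del y lam hy))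
      exact key m hm
    exact Submodule.finiteDimensional_of_le hle
  · rw [eq_top_iff]
    intro v _
    obtain ⟨m, hm⟩ := hgen v
    haveI := A.Fil_fin W m
    refine A.r09_top (A.Fil W m) ?_ hm
    intro u hu
    unfold Del
    rw [LinearMap.sub_apply, LinearMap.id_apply, LinearMap.sum_apply]
    refine Submodule.sub_mem _ hu (Submodule.sum_mem _ fun i _ => ?_)
    rw [LinearMap.comp_apply]
    exact A.Fil_Z W hW (A.Fil_Z W hW hu i) i

end LieRep

end SBD

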