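import Pool.Agent.SBD.Q09
import Pool.Agent.SBD.Q10
import Pool.Agent.SBD.R09

/-!
# Row SBD-Q11 : an admissible smooth `(𝔤,K)`-submodule

PROOF.  `O, ρ, E, D` from Q05, `B` a `Bases L` (Q01), `A = mkRep L π B E D hD`; all `tr(A.X^j)` are scalars
(Q09).  `W` from Q10, `W' = W.comap E.subtype ≤ E`: finite-dimensional, stable under `A.D (A.Z i)`: for
`w ∈ W`, `π(e(tZ))w ∈ W` for all `t` (`e(tZ) ∈ K`, P01 `e_mem_K`), `W` is closed, so the derivative at 0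
(limit of difference quotients) is in `W`.
`V₀` := image in `H` of `⨆_m A.Fil W' m` (an increasing union, R01 `Fil_mono`, so every element is in some
`Fil W' m`).  For `v ∈ Fil W' m`, `X ∈ 𝔤`: `A.D X v ∈ Fil W' (m+1)` (R01 `Fil_X`), so Q02 gives `D₀` with
`DifE L π V₀ D₀` (take `ℓ X = D X v` for `v ∈ V₀`; for `X ∉ 𝔤` no condition, but `ℓ` must be linear:
`ℓ X := ((D X v : E) : H)` is linear on all of `Mat N`, and `ℓ X ∈ V₀` for `X ∈ 𝔤`).
`A₀ = mkRep L π B V₀ D₀ _`.  By `difE_unique` `D₀ X v = D X v` in `H` for `X ∈ 𝔤`; `A₀.X i j` and `A.X i j` are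
`D₀ (W i j)`, `D (W i j)` with the same `W i j ∈ 𝔤` (same bases), so `tr(A₀.X^j)` is the restriction of
`tr(A.X^j)`: a scalar.  `W₀ = W.comap V₀.subtype`, and the images in `H` of `A₀.Fil W₀ m` and
`A.Fil W' m` coincide (induction on `m`), so `hgen` holds; R09 gives `A₀.IsAdm`.
`K`-invariance of `V₀`: by induction on `m`, `π(k)` maps (the image of) `Fil W' m` to itself:
`π(k)D(P_b)v = D(ι(k)P_bι(k⁻¹))π(k)v` (`difE_conj`; `π(k)v ∈ E` by invariance) and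
`ι(k)P_bι(k⁻¹) ∈ 𝔤` is symmetric (P01 `ad_K_t`), so it is a combination of the `P_c`.
`V₀ ≠ ⊥` since `W ≤ V₀`.
-/

open MeasureTheory Filter Topology
open scoped ENNReal NNReal Matrix

noncomputable section

namespace SBD

variable {N : ℕ} {G : Type} [Group G] [TopologicalSpace G] [IsTopologicalGroup G]
  [LocallyCompactSpace G] [T2Space G]
variable [SecondCountableTopology G] [MeasurableSpace G] [BorelSpace G]
variable {H : Type} [NormedAddCommGroup H] [InnerProductSpace ℂ H] [CompleteSpace H]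

omit [CompleteSpace H] in
/-- a derivative at `0` of a curve in a finite-dimensional space is in this space -/
theorem q11_deriv_mem (W : Submodule ℂ H) [FiniteDimensional ℂ W] (f : ℝ → H) (d : H)
    (hf : ∀ t, f t ∈ W) (hd : HasDerivAt f d 0) : d ∈ W := by
  have hcl : IsClosed (W : Set H) := Submodule.closed_of_finiteDimensional W
  have h1 := hasDerivAt_iff_tendsto_slope.1 hd
  refine hcl.mem_of_tendsto h1 ?_
  filter_upwards with t
  rw [slope_def_module, ← Complex.coe_smul]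
  exact W.smul_mem _ (W.sub_mem (hf t) (hf 0))

omit [SecondCountableTopology G] [MeasurableSpace G] [BorelSpace G] in
/-- stability under `D(Z_i)` -/
theorem q11_Z (L : LieData N G) (π : G →* (H ≃ₗᵢ[ℂ] H)) (E : Submodule ℂ H)
    (D : Mat N →ₗ[ℝ] (E →ₗ[ℂ] E)) (hD : DifE L π E D) (W : Submodule ℂ H)
    [FiniteDimensional ℂ W] (hW : ∀ k ∈ L.K, ∀ x ∈ W, π k x ∈ W) {Z : Mat N} (hZ : Z ∈ L.𝔤)
    (hZt : Zᵀ = -Z) (u : E) (hu : (u : H) ∈ W) : ((D Z u : E) : H) ∈ W :=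
  q11_deriv_mem W _ _ (fun t => hW _ (e_mem_K L hZ hZt t) _ hu) (hD Z hZ u)

omit [SecondCountableTopology G] [MeasurableSpace G] [BorelSpace G] in
/-- the matrices `W i j` are in `𝔤` -/
theorem q11_W_mem (L : LieData N G) (π : G →* (H ≃ₗᵢ[ℂ] H)) (B : Bases L) (E : Submodule ℂ H)
    (D : Mat N →ₗ[ℝ] (E →ₗ[ℂ] E)) (hD : DifE L π E D) (i j : Fin N) :
    (mkRep L π B E D hD).W i j ∈ L.𝔤 := by
  unfold LieRep.W
  refine L.𝔤.add_mem (L.𝔤.neg_mem (Submodule.sum_mem _ fun a _ => L.𝔤.smul_mem _ ?_))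
    (Submodule.sum_mem _ fun b _ => L.𝔤.smul_mem _ ?_)
  · exact B.Z_mem a
  · exact B.P_mem b

omit [SecondCountableTopology G] [MeasurableSpace G] [BorelSpace G] in
/-- comparison of the powers of the matrices `X` for `V₀ ≤ E` -/
theorem q11_pow (L : LieData N G) (π : G →* (H ≃ₗᵢ[ℂ] H)) (B : Bases L) (E V₀ : Submodule ℂ H)
    (D : Mat N →ₗ[ℝ] (E →ₗ[ℂ] E)) (hD : DifE L π E D)
    (D₀ : Mat N →ₗ[ℝ] (V₀ →ₗ[ℂ] V₀)) (hD₀ : DifE L π V₀ D₀) (n : ℕ) :
    ∀ (i j : Fin N) (v : V₀) (u : E), (v : H) = (u : H) →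
      ((((mkRep L π B V₀ D₀ hD₀).X ^ n) i j v : V₀) : H) =
        ((((mkRep L π B E D hD).X ^ n) i j u : E) : H) := by
  induction n with
  | zero =>
    intro i j v u h
    rw [pow_zero, pow_zero]
    by_cases hij : i = j
    · subst hij
      rw [Matrix.one_apply_eq, Matrix.one_apply_eq]
      exact h
    · rw [Matrix.one_apply_ne hij, Matrix.one_apply_ne hij]
      rfl
  | succ n ih =>
    intro i j v u h
    rw [pow_succ, pow_succ, Matrix.mul_apply, Matrix.mul_apply, LinearMap.sum_apply,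
      LinearMap.sum_apply, Submodule.coe_sum, Submodule.coe_sum]
    refine Finset.sum_congr rfl fun l _ => ?_
    rw [Module.End.mul_apply, Module.End.mul_apply]
    refine ih i l _ _ ?_
    exact (difE_unique L π E D hD V₀ D₀ hD₀ (q11_W_mem L π B E D hD l j) v u h)

omit [SecondCountableTopology G] [MeasurableSpace G] [BorelSpace G] in
theorem q11_trace (L : LieData N G) (π : G →* (H ≃ₗᵢ[ℂ] H)) (B : Bases L) (E V₀ : Submodule ℂ H)
    (hVE : V₀ ≤ E) (D : Mat N →ₗ[ℝ] (E →ₗ[ℂ] E)) (hD : DifE L π E D)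
    (D₀ : Mat N →ₗ[ℝ] (V₀ →ₗ[ℂ] V₀)) (hD₀ : DifE L π V₀ D₀) (n : ℕ) (z : ℂ)
    (hz : ((mkRep L π B E D hD).X ^ n).trace = z • (1 : Module.End ℂ E)) :
    ((mkRep L π B V₀ D₀ hD₀).X ^ n).trace = z • (1 : Module.End ℂ V₀) := by
  apply LinearMap.ext
  intro v
  apply Subtype.ext
  have h1 := congrArg (fun f : Module.End ℂ E => ((f ⟨(v : H), hVE v.2⟩ : E) : H)) hz
  have h2 : ((((mkRep L π B V₀ D₀ hD₀).X ^ n).trace v : V₀) : H) =
      ((((mkRep L π B E D hD).X ^ n).trace ⟨(v : H), hVE v.2⟩ : E) : H) := by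
    rw [Matrix.trace, Matrix.trace, LinearMap.sum_apply, LinearMap.sum_apply, Submodule.coe_sum,
      Submodule.coe_sum]
    refine Finset.sum_congr rfl fun i _ => ?_
    rw [Matrix.diag_apply, Matrix.diag_apply]
    exact q11_pow L π B E V₀ D hD D₀ hD₀ n i i v ⟨(v : H), hVE v.2⟩ rfl
  rw [h2]
  exact h1

omit [SecondCountableTopology G] [MeasurableSpace G] [BorelSpace G] in
/-- comparison of the filtrations -/
theorem q11_fil (L : LieData N G) (π : G →* (H ≃ₗᵢ[ℂ] H)) (B : Bases L) (E V₀ W : Submodule ℂ H)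
    (D : Mat N →ₗ[ℝ] (E →ₗ[ℂ] E)) (hD : DifE L π E D)
    (D₀ : Mat N →ₗ[ℝ] (V₀ →ₗ[ℂ] V₀)) (hD₀ : DifE L π V₀ D₀)
    (hWV : W ≤ V₀) (m : ℕ) :
    ((mkRep L π B E D hD).Fil (W.comap E.subtype) m).map E.subtype ≤
      ((mkRep L π B V₀ D₀ hD₀).Fil (W.comap V₀.subtype) m).map V₀.subtype := by
  induction m with
  | zero =>
    rintro _ ⟨u, hu, rfl⟩
    have hu' : (u : H) ∈ W := hu
    exact ⟨⟨(u : H), hWV hu'⟩, hu', rfl⟩
  | succ m ih =>
    rw [LieRep.Fil, Submodule.map_sup, Submodule.map_iSup]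
    refine sup_le (ih.trans (Submodule.map_mono ?_)) (iSup_le fun b => ?_)
    · exact LieRep.Fil_mono _ _ (Nat.le_succ m)
    · rintro _ ⟨_, ⟨u, hu, rfl⟩, rfl⟩
      obtain ⟨v, hv, hvu⟩ := ih ⟨u, hu, rfl⟩
      refine ⟨_, LieRep.Fil_P _ _ hv b, ?_⟩
      exact difE_unique L π E D hD V₀ D₀ hD₀ (B.P_mem b) v u hvu

theorem exists_V0 (L : LieData N G) (π : G →* (H ≃ₗᵢ[ℂ] H)) (hirr : IsIrr π) (μ : Measure G)
    [μ.IsHaarMeasure] [μ.IsMulRightInvariant] (hV : ∃ u ∈ KFin L π, u ≠ 0) :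
    ∃ V₀ : Submodule ℂ H, V₀ ≠ ⊥ ∧ (∀ k ∈ L.K, ∀ v ∈ V₀, π k v ∈ V₀) ∧
      ∃ A₀ : LieRep N V₀, A₀.𝔤 = L.𝔤 ∧ DifE L π V₀ A₀.D ∧ A₀.IsAdm := by
  obtain ⟨O, ρ, hO, hinj, E, D, hD, hEinv, hEsm⟩ := exists_E L π hirr.cont μ
  obtain ⟨B⟩ := exists_Bases L
  obtain ⟨W, hWfin, hWE, hW0, hWK⟩ := exists_W0 L π hirr.cont μ hO hinj E hEsm hV
  set A := mkRep L π B E D hD with hA
  set W' : Submodule ℂ E := W.comap E.subtype with hW'
  have hfin : ∀ U : Submodule ℂ H, W ≤ U → FiniteDimensional ℂ (W.comap U.subtype) := by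
    intro U hU
    exact Module.Finite.equiv (Submodule.comapSubtypeEquivOfLe hU).symm
  have hW'fin : FiniteDimensional ℂ W' := hfin E hWE
  have hW'Z : ∀ i, ∀ w ∈ W', A.D (A.Z i) w ∈ W' := fun i w hw =>
    q11_Z L π E D hD W hWK (B.Z_mem i) (B.Z_t i) w hw
  have hmono : Monotone (A.Fil W') := fun m m' h => A.Fil_mono W' h
  set V₁ : Submodule ℂ E := ⨆ m, A.Fil W' m with hV₁
  have hV₁mem : ∀ u : E, u ∈ V₁ ↔ ∃ m, u ∈ A.Fil W' m := fun u => by
    rw [hV₁]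
    exact Submodule.mem_iSup_of_directed _ hmono.directed_le
  set V₀ : Submodule ℂ H := V₁.map E.subtype with hV₀
  have hVE : V₀ ≤ E := by
    rintro _ ⟨u, -, rfl⟩
    exact u.2
  have hV₀mem : ∀ v ∈ V₀, ∃ (u : E) (m : ℕ), (u : H) = v ∧ u ∈ A.Fil W' m := by
    rintro _ ⟨u, hu, rfl⟩
    obtain ⟨m, hm⟩ := (hV₁mem u).1 hu
    exact ⟨u, m, rfl, hm⟩
  have hmemV₀ : ∀ (u : E) (m : ℕ), u ∈ A.Fil W' m → (u : H) ∈ V₀ := fun u m hu =>
    ⟨u, (hV₁mem u).2 ⟨m, hu⟩, rfl⟩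
  have hWV : W ≤ V₀ := fun x hx => hmemV₀ ⟨x, hWE hx⟩ 0 hx
  obtain ⟨D₀, hD₀⟩ := exists_DE L π V₀ (by
    intro v hv
    obtain ⟨u, m, huv, hu⟩ := hV₀mem v hv
    let ell : Mat N →ₗ[ℝ] H :=
      { toFun := fun X => ((D X u : E) : H)
        map_add' := fun X Y => by
          rw [map_add, LinearMap.add_apply, Submodule.coe_add]
        map_smul' := fun t X => by
          rw [map_smul, LinearMap.smul_apply, RingHom.id_apply]
          rfl }
    refine ⟨ell, fun X hX => ⟨hmemV₀ _ (m + 1) (A.Fil_X W' hW'Z hu hX), ?_⟩⟩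
    have h1 := hD X hX u
    rw [huv] at h1
    exact h1)
  refine ⟨V₀, ?_, ?_, mkRep L π B V₀ D₀ hD₀, rfl, hD₀, ?_⟩
  · intro h0
    apply hW0
    rw [eq_bot_iff, ← h0]
    exact hWV
  · -- invariance under `K`
    intro k hk v hv
    have hstab : ∀ m, ∀ u : E, u ∈ A.Fil W' m →
        (⟨π k (u : H), hEinv k _ u.2⟩ : E) ∈ A.Fil W' m := by
      let τ : E →ₗ[ℂ] E := ((π k).toLinearEquiv.toLinearMap ∘ₗ E.subtype).codRestrict E
        (fun u => hEinv k _ u.2)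
      have hτ : ∀ u : E, τ u = (⟨π k (u : H), hEinv k _ u.2⟩ : E) := fun u => rfl
      intro m
      suffices h : A.Fil W' m ≤ (A.Fil W' m).comap τ from fun u hu => h hu
      induction m with
      | zero =>
        intro u hu
        exact hWK k hk _ hu
      | succ m ih =>
        have h1 : A.Fil W' (m + 1) = A.Fil W' m ⊔ ⨆ b, (A.Fil W' m).map (A.D (A.P b)) := rfl
        conv_lhs => rw [h1]
        refine sup_le (fun u hu => hmono (Nat.le_succ m) (ih hu)) (iSup_le fun b => ?_)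
        rintro _ ⟨u, hu, rfl⟩
        have h2 : τ (A.D (A.P b) u) = A.D (L.ι k * B.P b * L.ι k⁻¹) (τ u) := by
          apply Subtype.ext
          exact difE_conj L π E D hD (B.P_mem b) k u (τ u) rfl
        show τ (A.D (A.P b) u) ∈ A.Fil W' (m + 1)
        rw [h2]
        exact A.Fil_X W' hW'Z (ih hu) (L.ad_mem k _ (B.P_mem b))
    obtain ⟨u, m, huv, hu⟩ := hV₀mem v hv
    rw [← huv]
    exact hmemV₀ _ m (hstab m u hu)
  · -- admissibility
    have hW₀fin : FiniteDimensional ℂ (W.comap V₀.subtype) := hfin V₀ hWV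
    refine LieRep.adm_of_gen _ ?_ (W.comap V₀.subtype) ?_ ?_
    · intro j _
      obtain ⟨z, hz⟩ := trace_scalarE L π hirr B E D hD hEinv j
      exact ⟨z, q11_trace L π B E V₀ hVE D hD D₀ hD₀ j z hz⟩
    · intro i w hw
      exact q11_Z L π V₀ D₀ hD₀ W hWK (B.Z_mem i) (B.Z_t i) w hw
    · intro v
      obtain ⟨u, m, huv, hu⟩ := hV₀mem v v.2
      obtain ⟨v', hv', h1⟩ := q11_fil L π B E V₀ W D hD D₀ hD₀ hWV m ⟨u, hu, rfl⟩
      have h2 : v' = v := Subtype.ext (h1.trans huv)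
      exact ⟨m, h2 ▸ hv'⟩

end SBD
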