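import Pool.Agent.SBD.Q01
import Pool.Agent.SBD.A03
import Pool.Agent.SBD.A04

/-!
# Row SBD-Q12 : analytic vectors; `V₀` is dense

PROOF.  Let `C ≥ 1` be the constants of `band` (A03) and `C₁ ≥ 1` of `norm_D_le` (A04) for `A₀`.
(1) For `ψ ∈ low R`, `R ≥ 1`, `X ∈ 𝔤`: `D(X)ψ ∈ low ((√R + C)²)` (`band`: `l ≤ lam + C√lam ≤ (√R+C)²` for
`lam ≤ R`) and, if `fsq X ≤ 1`, `‖D(X)ψ‖ ≤ C₁√R‖ψ‖`.
(2) Let `v ∈ low R₀`, `a = √R₀ ≥ 1`, `fsq X ≤ 1`: by induction `D(X)^kv ∈ low((a + kC)²)` and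
`‖D(X)^kv‖ ≤ ∏_{j<k} C₁(a+jC) ‖v‖ ≤ (C₁C)^k ∏_{j<k}(A+j) ‖v‖ ≤ (C₁C)^k k! (A+k)^A ‖v‖` with an integer
`A ≥ a/C`, `A ≥ 1` (`∏_{j<k}(A+j) = (A+k-1)!/(A-1)! = k! binom(A+k-1,k) ≤ k! (A+k)^A`).
(3) `φ(t) = π(e(tX))v` is `C^∞` with `φ^{(k)}(t) = π(e(tX))D(X)^kv` (`difE_line`), so by Taylor
(`‖φ(t) - ∑_{j<k} t^j/j! D(X)^jv‖ ≤ |t|^k/k! sup‖φ^{(k)}‖ ≤ (C₁C|t|)^k (A+k)^A‖v‖ → 0` for
`|t| < t₀ := 1/(2C₁C)`; induct on `k` by integration/mean value inequality, or pair with a vector and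
use the scalar Taylor theorem `taylor_mean_remainder…`, or apply the norm version
`norm_image_sub_le…` repeatedly), `φ(t) ∈ closure V₀` for `|t| < t₀`.  `t₀` does not depend on `v`.
(4) So `π(e(tX))` maps `V₀`, hence `closure V₀`, into `closure V₀` for `|t| < t₀`, `fsq X ≤ 1`; by powers
(`e(tX) = e((t/n)X)^n`) for all `t` and all `X ∈ 𝔤`.  With `K`-invariance and `G = K e(𝔭)` (`L.polar`)
`closure V₀` is `G`-invariant, closed, nonzero, so `= ⊤`.
-/

open MeasureTheory Filter Topology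
open scoped ENNReal NNReal Matrix

noncomputable section

namespace SBD

variable {N : ℕ} {G : Type} [Group G] [TopologicalSpace G] [IsTopologicalGroup G]
  [LocallyCompactSpace G] [T2Space G]
variable {H : Type} [NormedAddCommGroup H] [InnerProductSpace ℂ H] [CompleteSpace H]

private theorem q12_low_mono {V : Type} [NormedAddCommGroup V] [InnerProductSpace ℂ V]
    (A : LieRep N V) {l R : ℝ} (h : l ≤ R) : A.eig l ≤ A.low R :=
  le_iSup (fun lam : {x : ℝ // x ≤ R} => A.eig lam) ⟨l, h⟩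

private theorem q12_band {V : Type} [NormedAddCommGroup V] [InnerProductSpace ℂ V]
    (A : LieRep N V) {C : ℝ} (hC : 1 ≤ C)
    (hb : ∀ X ∈ A.𝔤, ∀ lam : ℝ, ∀ ψ ∈ A.eig lam,
      ∃ (s : Finset ℝ) (f : ℝ → V),
        (∀ l ∈ s, |l - lam| ≤ C * Real.sqrt lam ∧ f l ∈ A.eig l) ∧ A.D X ψ = ∑ l ∈ s, f l)
    {a : ℝ} (ha : 1 ≤ a) {X : Mat N} (hX : X ∈ A.𝔤) {ψ : V} (hψ : ψ ∈ A.low (a ^ 2)) :
    A.D X ψ ∈ A.low ((a + C) ^ 2) := by
  unfold LieRep.low at hψ
  induction hψ using Submodule.iSup_induction' with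
  | mem lam x hx =>
    obtain ⟨s, f, hf, hs⟩ := hb X hX lam x hx
    rw [hs]
    refine Submodule.sum_mem _ fun l hl => ?_
    obtain ⟨h1, h2⟩ := hf l hl
    refine q12_low_mono A ?_ h2
    have h3 : (lam : ℝ) ≤ a ^ 2 := lam.2
    have h4 : Real.sqrt lam ≤ a := by
      rw [Real.sqrt_le_left (by linarith)]
      exact h3
    have h5 : l - lam ≤ C * Real.sqrt lam := le_trans (le_abs_self _) h1
    have h6 : C * Real.sqrt lam ≤ C * a := mul_le_mul_of_nonneg_left h4 (by linarith)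
    nlinarith
  | zero =>
    rw [map_zero]
    exact Submodule.zero_mem _
  | add x y _ _ hx hy =>
    rw [map_add]
    exact Submodule.add_mem _ hx hy

private theorem q12_pow {V : Type} [NormedAddCommGroup V] [InnerProductSpace ℂ V]
    (A : LieRep N V) {C : ℝ} (hC : 1 ≤ C)
    (hb : ∀ X ∈ A.𝔤, ∀ lam : ℝ, ∀ ψ ∈ A.eig lam,
      ∃ (s : Finset ℝ) (f : ℝ → V),
        (∀ l ∈ s, |l - lam| ≤ C * Real.sqrt lam ∧ f l ∈ A.eig l) ∧ A.D X ψ = ∑ l ∈ s, f l)
    {a : ℝ} (ha : 1 ≤ a) {X : Mat N} (hX : X ∈ A.𝔤) {ψ : V} (hψ : ψ ∈ A.low (a ^ 2)) (k : ℕ) :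
    (A.D X ^ k) ψ ∈ A.low ((a + k * C) ^ 2) := by
  induction k with
  | zero => simpa using hψ
  | succ k ih =>
    have e : (A.D X ^ (k + 1)) ψ = A.D X ((A.D X ^ k) ψ) := by
      rw [pow_succ' (A.D X) k]
      rfl
    rw [e]
    have h1 : 1 ≤ a + k * C := by
      have : 0 ≤ (k : ℝ) * C := mul_nonneg (Nat.cast_nonneg k) (by linarith)
      linarith
    have h2 := q12_band A hC hb h1 hX ih
    have h3 : a + k * C + C = a + ((k + 1 : ℕ) : ℝ) * C := by push_cast; ring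
    rwa [h3] at h2

omit [IsTopologicalGroup G] [LocallyCompactSpace G] [T2Space G] in
private theorem q12_e_zero (L : LieData N G) : L.e 0 = 1 := by
  have h := L.e_add 0 (Submodule.zero_mem _) 0 0
  simpa using h

private theorem q12_scalar (g : ℕ → ℝ → ℂ) (M : ℕ → ℝ)
    (hd : ∀ n t, HasDerivAt (g n) (g (n + 1) t) t) (h0 : ∀ n, g n 0 = 0)
    (hM : ∀ n t, ‖g n t‖ ≤ M n) (k : ℕ) :
    ∀ n, ∀ t ∈ Set.Icc (0 : ℝ) 1, ‖g n t‖ ≤ t ^ k / k.factorial * M (n + k) := by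
  induction k with
  | zero =>
    intro n t _
    simpa using hM n t
  | succ k ih =>
    intro n t ht
    have hB : ∀ x : ℝ, HasDerivAt (fun x : ℝ => x ^ (k + 1) / (k + 1).factorial * M (n + (k + 1)))
        (x ^ k / k.factorial * M (n + (k + 1))) x := by
      intro x
      have h1 := ((hasDerivAt_pow (k + 1) x).div_const ((k + 1).factorial : ℝ)).mul_const
        (M (n + (k + 1)))
      refine h1.congr_deriv ?_
      rw [Nat.factorial_succ]
      push_cast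
      have h2 : ((k : ℝ) + 1) ≠ 0 := by positivity
      have h3 : (k.factorial : ℝ) ≠ 0 := by positivity
      field_simp
    refine image_norm_le_of_norm_deriv_right_le_deriv_boundary (f := g n) (f' := g (n + 1))
      (a := 0) (b := 1) (fun x _ => (hd n x).continuousAt.continuousWithinAt)
      (fun x _ => (hd n x).hasDerivWithinAt) ?_ hB ?_ ht
    · rw [h0]
      simp
    · intro x hx
      have h1 := ih (n + 1) x ⟨hx.1, hx.2.le⟩
      have h2 : n + 1 + k = n + (k + 1) := by ring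
      rwa [h2] at h1

private theorem q12_tendsto (M : ℕ → ℝ) (h0 : ∀ k, 0 ≤ M k) (a q C : ℝ)
    (hqC : q * C ≤ 1 / 2) (h : ∀ k : ℕ, M (k + 1) ≤ q * (a + k * C) * M k) :
    Tendsto (fun k : ℕ => M k / k.factorial) atTop (𝓝 0) := by
  have hs : Summable (fun k : ℕ => M k / k.factorial) := by
    refine summable_of_ratio_norm_eventually_le (r := 3 / 4) (by norm_num) ?_
    filter_upwards [eventually_ge_atTop (Nat.ceil (4 * (q * a)))] with k hk
    have h1 : 4 * (q * a) ≤ k := le_trans (Nat.le_ceil _) (by exact_mod_cast hk)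
    have h2 : 0 ≤ M (k + 1) / ((k + 1).factorial : ℝ) := div_nonneg (h0 _) (by positivity)
    have h3 : 0 ≤ M k / (k.factorial : ℝ) := div_nonneg (h0 _) (by positivity)
    rw [Real.norm_of_nonneg h2, Real.norm_of_nonneg h3]
    have h4 : q * (a + k * C) ≤ 3 / 4 * (k + 1) := by nlinarith [Nat.cast_nonneg (α := ℝ) k]
    have h5 : M (k + 1) ≤ 3 / 4 * (k + 1) * M k :=
      le_trans (h k) (mul_le_mul_of_nonneg_right h4 (h0 k))
    rw [Nat.factorial_succ]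
    push_cast
    have h6 : (0 : ℝ) < k.factorial := by positivity
    have h7 : (0 : ℝ) < (k : ℝ) + 1 := by positivity
    rw [div_le_iff₀ (by positivity)]
    calc M (k + 1) ≤ 3 / 4 * (k + 1) * M k := h5
      _ = 3 / 4 * (M k / k.factorial) * ((k + 1) * k.factorial) := by field_simp
  exact hs.tendsto_atTop_zero

private theorem q12_small (L : LieData N G) (π : G →* (H ≃ₗᵢ[ℂ] H))
    (V₀ : Submodule ℂ H) (A₀ : LieRep N V₀) (hg : A₀.𝔤 = L.𝔤) (hD : DifE L π V₀ A₀.D)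
    (hA : A₀.IsAdm) : ∃ r : ℝ, 0 < r ∧ ∀ Y ∈ L.𝔤, fsq Y ≤ r ^ 2 → ∀ w ∈ V₀ᗮ, ∀ v : V₀,
      inner ℂ w (π (L.e Y) (v : H)) = 0 := by
  obtain ⟨C, hC, hb⟩ := A₀.band hA
  obtain ⟨C₁, hC₁, hn⟩ := A₀.norm_D_le hA
  have hpos : 0 < C₁ * C := by positivity
  refine ⟨1 / (2 * (C₁ * C)), by positivity, ?_⟩
  intro Y hY hr w hw v
  have hY' : Y ∈ A₀.𝔤 := by rw [hg]; exact hY
  have hsq : Real.sqrt (fsq Y) ≤ 1 / (2 * (C₁ * C)) := by
    rw [Real.sqrt_le_left (by positivity)]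
    exact hr
  have hv : v ∈ (⊤ : Submodule ℂ V₀) := Submodule.mem_top
  rw [← hA.top] at hv
  induction hv using Submodule.iSup_induction' with
  | mem lam x hx =>
    obtain ⟨a, ha, hlam⟩ : ∃ a : ℝ, 1 ≤ a ∧ lam ≤ a ^ 2 := by
      refine ⟨1 + |lam|, by linarith [abs_nonneg lam], ?_⟩
      nlinarith [abs_nonneg lam, le_abs_self lam]
    have hx' : x ∈ A₀.low (a ^ 2) := q12_low_mono A₀ hlam hx
    set u : ℕ → V₀ := fun k => (A₀.D Y ^ k) x with hu
    have hlow : ∀ k : ℕ, u k ∈ A₀.low ((a + k * C) ^ 2) := fun k => q12_pow A₀ hC hb ha hY' hx' k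
    have hsucc : ∀ k, u (k + 1) = A₀.D Y (u k) := fun k => by
      simp only [hu, pow_succ', Module.End.mul_apply]
    set q : ℝ := C₁ * Real.sqrt (fsq Y) with hq
    have hq0 : 0 ≤ q := by positivity
    have hqC : q * C ≤ 1 / 2 := by
      have h1 : q * C ≤ C₁ * (1 / (2 * (C₁ * C))) * C := by
        rw [hq]
        gcongr
      have h2 : C₁ * (1 / (2 * (C₁ * C))) * C = 1 / 2 := by
        have : C₁ ≠ 0 := by positivity
        have : C ≠ 0 := by positivity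
        field_simp
      linarith
    have hM : ∀ k : ℕ, ‖u (k + 1)‖ ≤ q * (a + k * C) * ‖u k‖ := by
      intro k
      have h1 : 1 ≤ a + k * C := by
        have : 0 ≤ (k : ℝ) * C := mul_nonneg (Nat.cast_nonneg k) (by linarith)
        linarith
      have h2 := hn Y hY' ((a + k * C) ^ 2) (by nlinarith) (u k) (hlow k)
      rw [Real.sqrt_sq (by linarith), ← hsucc] at h2
      exact h2
    set g : ℕ → ℝ → ℂ := fun n t => inner ℂ w (π (L.e (t • Y)) ((u n : V₀) : H)) with hgdef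
    have hd : ∀ n t, HasDerivAt (g n) (g (n + 1) t) t := by
      intro n t
      have h1 := difE_line L π V₀ A₀.D hD hY (u n) t
      have h2 := (hasDerivAt_const t w).inner ℂ h1
      simp only [hgdef]
      rw [hsucc]
      simpa using h2
    have h0 : ∀ n, g n 0 = 0 := by
      intro n
      simp only [hgdef, zero_smul, q12_e_zero, map_one]
      have h1 := Submodule.mem_orthogonal' V₀ w |>.1 hw _ (u n).2
      simpa using h1
    have hbd : ∀ n t, ‖g n t‖ ≤ ‖w‖ * ‖u n‖ := by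
      intro n t
      simp only [hgdef]
      refine le_trans (norm_inner_le_norm _ _) ?_
      rw [LinearIsometryEquiv.norm_map]
      exact le_rfl
    have key : ∀ k, ‖g 0 1‖ ≤ ‖w‖ * (‖u k‖ / k.factorial) := by
      intro k
      have h1 := q12_scalar g (fun n => ‖w‖ * ‖u n‖) hd h0 hbd k 0 1 ⟨zero_le_one, le_rfl⟩
      rw [one_pow, zero_add] at h1
      calc ‖g 0 1‖ ≤ 1 / k.factorial * (‖w‖ * ‖u k‖) := h1
        _ = ‖w‖ * (‖u k‖ / k.factorial) := by ring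
    have hlim := (q12_tendsto (fun k => ‖u k‖) (fun k => norm_nonneg _) a q C
      hqC hM).const_mul ‖w‖
    rw [mul_zero] at hlim
    have h2 : ‖g 0 1‖ ≤ 0 := ge_of_tendsto' hlim key
    have h3 : g 0 1 = 0 := by simpa using h2
    simpa [hgdef, hu] using h3
  | zero => simp
  | add x y _ _ hx hy =>
    rw [Submodule.coe_add, map_add, inner_add_right, hx, hy, add_zero]

omit [TopologicalSpace G] [IsTopologicalGroup G] [LocallyCompactSpace G] [T2Space G]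
  [CompleteSpace H] in
private theorem q12_adj (π : G →* (H ≃ₗᵢ[ℂ] H)) (g : G) (w v : H) :
    inner ℂ (π g w) v = inner ℂ w (π g⁻¹ v) := by
  have h1 := (π g⁻¹).inner_map_map (π g w) v
  rw [← h1]
  have h2 : π g⁻¹ (π g w) = w := by
    have h3 : (π g⁻¹ * π g) w = w := by
      rw [← map_mul]
      simp
    exact h3
  rw [h2]

omit [IsTopologicalGroup G] [LocallyCompactSpace G] [T2Space G] in
private theorem q12_e_pow (L : LieData N G) {X : Mat N} (hX : X ∈ L.𝔤) (t : ℝ) (n : ℕ) :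
    L.e ((n * t : ℝ) • X) = L.e (t • X) ^ n := by
  induction n with
  | zero => simp [q12_e_zero]
  | succ n ih =>
    rw [pow_succ, ← ih, ← L.e_add X hX]
    congr 2
    push_cast
    ring

theorem dense_V0 (L : LieData N G) (π : G →* (H ≃ₗᵢ[ℂ] H)) (hirr : IsIrr π)
    (V₀ : Submodule ℂ H) (h0 : V₀ ≠ ⊥) (hK : ∀ k ∈ L.K, ∀ v ∈ V₀, π k v ∈ V₀)
    (A₀ : LieRep N V₀) (hg : A₀.𝔤 = L.𝔤) (hD : DifE L π V₀ A₀.D) (hA : A₀.IsAdm) :
    V₀.topologicalClosure = ⊤ := by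
  obtain ⟨r, hr, hsm⟩ := q12_small L π V₀ A₀ hg hD hA
  -- small elements
  have hneg : ∀ Y ∈ L.𝔤, L.e (-Y) = (L.e Y)⁻¹ := by
    intro Y hY
    have h1 := L.e_add Y hY (-1) 1
    rw [neg_add_cancel, zero_smul, q12_e_zero, one_smul, neg_one_smul] at h1
    exact eq_inv_of_mul_eq_one_left h1.symm
  have h1 : ∀ Y ∈ L.𝔤, fsq Y ≤ r ^ 2 → ∀ w ∈ V₀ᗮ, π (L.e Y) w ∈ V₀ᗮ := by
    intro Y hY hf w hw
    rw [Submodule.mem_orthogonal']
    intro v hv
    rw [q12_adj, ← hneg Y hY]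
    refine hsm (-Y) (Submodule.neg_mem _ hY) ?_ w hw ⟨v, hv⟩
    have h2 : fsq (-Y) = fsq Y := by simp [fsq, fip]
    rw [h2]
    exact hf
  have h2 : ∀ (g : G), (∀ w ∈ V₀ᗮ, π g w ∈ V₀ᗮ) → ∀ n : ℕ, ∀ w ∈ V₀ᗮ, π (g ^ n) w ∈ V₀ᗮ := by
    intro g hg' n
    induction n with
    | zero =>
      intro w hw
      simpa using hw
    | succ n ih =>
      intro w hw
      rw [pow_succ, map_mul]
      exact ih _ (hg' w hw)
  have h3 : ∀ Y ∈ L.𝔤, ∀ w ∈ V₀ᗮ, π (L.e Y) w ∈ V₀ᗮ := by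
    intro Y hY w hw
    obtain ⟨n, hn⟩ := exists_nat_gt (Real.sqrt (fsq Y) / r)
    have hn0 : 0 ≤ Real.sqrt (fsq Y) / r := by positivity
    have hnpos : (0 : ℝ) < n := lt_of_le_of_lt hn0 hn
    have hfY : 0 ≤ fsq Y := by
      unfold fsq fip
      rw [Matrix.trace]
      refine Finset.sum_nonneg fun i _ => ?_
      rw [Matrix.diag_apply, Matrix.mul_apply]
      refine Finset.sum_nonneg fun j _ => ?_
      rw [Matrix.transpose_apply]
      exact mul_self_nonneg _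
    have e1 : L.e Y = L.e ((n : ℝ)⁻¹ • Y) ^ n := by
      rw [← q12_e_pow L hY, mul_inv_cancel₀ (ne_of_gt hnpos), one_smul]
    rw [e1]
    refine h2 _ (h1 _ (Submodule.smul_mem _ _ hY) ?_) n w hw
    have e2 : fsq ((n : ℝ)⁻¹ • Y) = ((n : ℝ)⁻¹) ^ 2 * fsq Y := by
      simp [fsq, fip, Matrix.transpose_smul, Matrix.trace_smul, smul_eq_mul, sq, mul_assoc]
    rw [e2]
    have e3 : fsq Y = Real.sqrt (fsq Y) ^ 2 := (Real.sq_sqrt hfY).symm
    rw [div_lt_iff₀ hr] at hn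
    rw [e3, ← mul_pow]
    have e4 : (n : ℝ)⁻¹ * Real.sqrt (fsq Y) ≤ r := by
      rw [inv_mul_le_iff₀ hnpos]
      exact hn.le
    exact pow_le_pow_left₀ (by positivity) e4 2
  have h4 : ∀ k ∈ L.K, ∀ w ∈ V₀ᗮ, π k w ∈ V₀ᗮ := by
    intro k hk w hw
    rw [Submodule.mem_orthogonal']
    intro v hv
    rw [q12_adj]
    exact (Submodule.mem_orthogonal' V₀ w).1 hw _ (hK _ (L.K.inv_mem hk) v hv)
  have h5 : ∀ g : G, ∀ w ∈ V₀ᗮ, π g w ∈ V₀ᗮ := by
    intro g w hw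
    obtain ⟨k, X, hX, hXt, hk, rfl⟩ := L.polar g
    rw [map_mul]
    exact h4 k hk _ (h3 X hX w hw)
  rw [Submodule.topologicalClosure_eq_top_iff]
  rcases hirr.irr V₀ᗮ (Submodule.isClosed_orthogonal V₀) h5 with h | h
  · exact h
  · exfalso
    apply h0
    rw [eq_bot_iff]
    intro v hv
    have h6 : v ∈ V₀ᗮ := by rw [h]; exact Submodule.mem_top
    have h7 := (Submodule.mem_orthogonal' V₀ v).1 h6 v hv
    rw [inner_self_eq_zero] at h7
    rw [Submodule.mem_bot]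
    exact h7

end SBD
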