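import Pool.Agent.SBD.Q12

/-!
# Row SBD-Q13 : `Adm L π` from a dense admissible smooth submodule

PROOF.  Let `R : ℝ`, `W` := image in `H` of `A₀.low (1 + R)`: finite-dimensional.  Let `u ∈ H` with
`IsCas L π u c`, `c ≤ R`: `∑_j d²/dt² π(e(tZ'_j))u|_0 = -c u` for an orthonormal basis `Z'` of `𝔨`.
(1) Let `v ∈ A₀.eig lam`.  `⟨π(e(tZ))u, v⟩ = ⟨u, π(e(-tZ))v⟩` for `Z ∈ 𝔨`; second derivative at 0:
`⟨u'', v⟩ = ⟨u, D(Z)²v⟩` (`difE_line` twice).  Sum over `Z = Z'_j`:
`-c⟨u,v⟩ = ⟨u, ∑_jD(Z'_j)²v⟩ = ⟨u, ∑_iD(A₀.Z i)²v⟩ = (1-lam)⟨u,v⟩` (`c` real; basis independence of the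
Casimir as in P13, store `SBD_P13.lean`: `∑_j fip(Z_i,Z'_j)fip(Z_k,Z'_j) = δ_{ik}`; `Δ = 1 - ∑D(Z_i)²`,
`Δv = lam v`).  So `⟨u,v⟩ = 0` unless `lam = 1 + c`.
(2) Let `y` be the orthogonal projection of `u` onto the (finite-dimensional, so closed) image of
`A₀.eig (1+c)`.  `u - y` is orthogonal to all `A₀.eig lam` (for `lam ≠ 1+c`: (1) and orthogonality of the
eigenspaces, A01 `eig_orth`), so to `V₀` (`hA.top`), so `u = y ∈ W` (`V₀` dense; `eig (1+c) ≤ low (1+R)`).
-/

open MeasureTheory Filter Topology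
open scoped ENNReal NNReal Matrix

noncomputable section

namespace SBD

variable {N : ℕ} {G : Type} [Group G] [TopologicalSpace G] [IsTopologicalGroup G]
  [LocallyCompactSpace G] [T2Space G]
variable {H : Type} [NormedAddCommGroup H] [InnerProductSpace ℂ H] [CompleteSpace H]

omit [IsTopologicalGroup G] [LocallyCompactSpace G] [T2Space G] [TopologicalSpace G] [CompleteSpace H] in
private theorem q13_adj (π : G →* (H ≃ₗᵢ[ℂ] H)) (g : G) (u v : H) :
    (inner ℂ (π g u) v : ℂ) = inner ℂ u (π g⁻¹ v) := by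
  have h1 : v = π g (π g⁻¹ v) := by
    show v = (π g * π g⁻¹) v
    rw [← map_mul, mul_inv_cancel, map_one]
    rfl
  conv_lhs => rw [h1]
  exact LinearIsometryEquiv.inner_map_map _ _ _

private theorem q13_comm (X Y : Mat N) : fip X Y = fip Y X := by
  unfold fip
  rw [← Matrix.trace_transpose, Matrix.transpose_mul, Matrix.transpose_transpose]

private theorem q13_sk {X Y : Mat N} (hX : Xᵀ = X) (hY : Yᵀ = -Y) : fip X Y = 0 := by
  have h1 : fip X Y = -fip X Y := by
    conv_lhs => rw [q13_comm]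
    unfold fip
    rw [hX, hY, Matrix.neg_mul, Matrix.trace_neg, Matrix.trace_mul_comm]
  linarith

omit [IsTopologicalGroup G] [LocallyCompactSpace G] [T2Space G] in
private theorem q13_indep (L : LieData N G) {V : Type} [NormedAddCommGroup V] [InnerProductSpace ℂ V]
    (D : Mat N →ₗ[ℝ] (V →ₗ[ℂ] V)) {m m' : ℕ} {Z : Fin m → Mat N} {Z' : Fin m' → Mat N}
    (h : IsKBasis L Z) (h' : IsKBasis L Z') (u : V) :
    ∑ j, D (Z' j) (D (Z' j) u) = ∑ i, D (Z i) (D (Z i) u) := by
  have h1 : ∀ j, D (Z' j) (D (Z' j) u) = ∑ i, D (Z i) (D (fip (Z' j) (Z i) • Z' j) u) := by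
    intro j
    have h2 := h.2.2 (Z' j) (h'.1 j).1 (h'.1 j).2
    have h3 : ∀ w, D (Z' j) w = ∑ i, fip (Z i) (Z' j) • D (Z i) w := by
      intro w
      conv_lhs => rw [h2]
      rw [map_sum, LinearMap.sum_apply]
      exact Finset.sum_congr rfl fun i _ => by rw [map_smul, LinearMap.smul_apply]
    rw [h3]
    refine Finset.sum_congr rfl fun i _ => ?_
    rw [map_smul, LinearMap.smul_apply, LinearMap.map_smul_of_tower, q13_comm]
  rw [Finset.sum_congr rfl fun j _ => h1 j, Finset.sum_comm]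
  refine Finset.sum_congr rfl fun i _ => ?_
  rw [← map_sum (D (Z i)), ← LinearMap.sum_apply, ← map_sum D,
    ← h'.2.2 (Z i) (h.1 i).1 (h.1 i).2]

omit [IsTopologicalGroup G] [LocallyCompactSpace G] [T2Space G] in
private theorem q13_bas (L : LieData N G) {V : Type} [NormedAddCommGroup V] [InnerProductSpace ℂ V]
    (A : LieRep N V) (hg : A.𝔤 = L.𝔤) : IsKBasis L A.Z := by
  refine ⟨fun j => ⟨hg ▸ A.Z_mem j, A.Z_t j⟩, A.Z_o, fun X hX ht => ?_⟩
  have h1 := A.basis X (hg.symm ▸ hX)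
  have h2 : ∑ i, fip (A.P i) X • A.P i = 0 :=
    Finset.sum_eq_zero fun i _ => by rw [q13_sk (A.P_t i) ht, zero_smul]
  rw [h2, add_zero] at h1
  exact h1

/-- the second derivative against a smooth vector -/
private theorem q13_two (L : LieData N G) (π : G →* (H ≃ₗᵢ[ℂ] H)) (V₀ : Submodule ℂ H)
    (D : Mat N →ₗ[ℝ] (V₀ →ₗ[ℂ] V₀)) (hD : DifE L π V₀ D) {X : Mat N} (hX : X ∈ L.𝔤) (u : H)
    (hu : ContDiff ℝ 2 fun t : ℝ => π (L.e (t • X)) u) (v : V₀) :
    (inner ℂ (iteratedDeriv 2 (fun t : ℝ => π (L.e (t • X)) u) 0) (v : H) : ℂ) =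
      inner ℂ u ((D X (D X v) : V₀) : H) := by
  set φ : ℝ → H := fun t : ℝ => π (L.e (t • X)) u with hφ
  have hφ1 : ∀ t, HasDerivAt φ (deriv φ t) t := fun t =>
    (hu.differentiable (by norm_num) t).hasDerivAt
  have hφ2 : HasDerivAt (deriv φ) (iteratedDeriv 2 φ 0) 0 := by
    rw [iteratedDeriv_succ, iteratedDeriv_one]
    have h1 : ContDiff ℝ 1 (deriv φ) := by
      have h2 : ContDiff ℝ (1 + 1) φ := by
        rw [show (1 : WithTop ℕ∞) + 1 = 2 by norm_num]
        exact hu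
      exact (contDiff_succ_iff_deriv.1 h2).2.2
    exact (h1.differentiable (by norm_num) 0).hasDerivAt
  have hinv : ∀ t : ℝ, (L.e (t • X))⁻¹ = L.e ((-t) • X) := by
    intro t
    rw [neg_smul, e_neg L (L.𝔤.smul_mem t hX)]
  have hneg : ∀ (w : V₀) (t : ℝ), HasDerivAt (fun s : ℝ => (π (L.e ((-s) • X)) (w : H)))
      (-(π (L.e ((-t) • X)) ((D X w : V₀) : H))) t := by
    intro w t
    have h1 := difE_line L π V₀ D hD hX w (-t)
    have h2 := h1.scomp t (hasDerivAt_neg t)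
    rw [neg_smul, one_smul] at h2
    exact h2
  -- first derivative
  have hone : ∀ t, (inner ℂ (deriv φ t) (v : H) : ℂ) =
      -inner ℂ u (π (L.e ((-t) • X)) ((D X v : V₀) : H)) := by
    intro t
    have h1 : HasDerivAt (fun s => (inner ℂ (φ s) (v : H) : ℂ)) (inner ℂ (deriv φ t) (v : H)) t := by
      have := (hφ1 t).inner ℂ (hasDerivAt_const t (v : H))
      rwa [inner_zero_right, zero_add] at this
    have h2 : HasDerivAt (fun s => (inner ℂ (φ s) (v : H) : ℂ))
        (-inner ℂ u (π (L.e ((-t) • X)) ((D X v : V₀) : H))) t := by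
      have h3 := (hasDerivAt_const t u).inner ℂ (hneg v t)
      rw [inner_zero_left, add_zero, inner_neg_right] at h3
      refine h3.congr_of_eventuallyEq (Filter.Eventually.of_forall fun s => ?_)
      show (inner ℂ (π (L.e (s • X)) u) (v : H) : ℂ) = inner ℂ u (π (L.e ((-s) • X)) (v : H))
      rw [q13_adj, hinv]
    exact h1.unique h2
  have h1 : HasDerivAt (fun s => (inner ℂ (deriv φ s) (v : H) : ℂ))
      (inner ℂ (iteratedDeriv 2 φ 0) (v : H)) 0 := by
    have := hφ2.inner ℂ (hasDerivAt_const (0 : ℝ) (v : H))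
    rwa [inner_zero_right, zero_add] at this
  have h2 : HasDerivAt (fun s => (inner ℂ (deriv φ s) (v : H) : ℂ))
      (inner ℂ u ((D X (D X v) : V₀) : H)) 0 := by
    have h3 := ((hasDerivAt_const (0 : ℝ) u).inner ℂ (hneg (D X v) 0)).neg
    rw [inner_zero_left, add_zero, inner_neg_right, neg_neg, neg_zero, zero_smul, e_zero, map_one] at h3
    exact h3.congr_of_eventuallyEq (Filter.Eventually.of_forall fun s => hone s)
  exact h1.unique h2

theorem adm_of_dense (L : LieData N G) (π : G →* (H ≃ₗᵢ[ℂ] H)) (V₀ : Submodule ℂ H)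
    (A₀ : LieRep N V₀) (hg : A₀.𝔤 = L.𝔤) (hD : DifE L π V₀ A₀.D) (hA : A₀.IsAdm)
    (hd : V₀.topologicalClosure = ⊤) : Adm L π := by
  intro R
  have hfin : FiniteDimensional ℂ (A₀.low (1 + R)) := hA.fin (1 + R)
  refine ⟨(A₀.low (1 + R)).map V₀.subtype, inferInstance, ?_⟩
  intro u _ c hc hcas
  obtain ⟨m, Z, hZ, hC2, hsum⟩ := hcas
  -- (1)
  have h1 : ∀ (lam : ℝ) (v : V₀), v ∈ A₀.eig lam → lam ≠ 1 + c → (inner ℂ u (v : H) : ℂ) = 0 := by
    intro lam v hv hne
    have e1 : (inner ℂ (∑ j, iteratedDeriv 2 (fun t : ℝ => π (L.e (t • Z j)) u) 0) (v : H) : ℂ) =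
        inner ℂ u ((∑ j, A₀.D (Z j) (A₀.D (Z j) v) : V₀) : H) := by
      rw [sum_inner, Submodule.coe_sum, inner_sum]
      exact Finset.sum_congr rfl fun j _ => q13_two L π V₀ A₀.D hD (hZ.1 j).1 u (hC2 j) v
    rw [hsum, q13_indep L A₀.D (q13_bas L A₀ hg) hZ v] at e1
    have e2 : ∑ i, A₀.D (A₀.Z i) (A₀.D (A₀.Z i) v) = ((1 - lam : ℝ) : ℂ) • v := by
      have e3 : A₀.Del v = v - ∑ i, A₀.D (A₀.Z i) (A₀.D (A₀.Z i) v) := by
        unfold LieRep.Del
        rw [LinearMap.sub_apply, LinearMap.id_apply, LinearMap.sum_apply]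
        rfl
      have e4 : A₀.Del v = (lam : ℂ) • v := hv
      have e5 : ∑ i, A₀.D (A₀.Z i) (A₀.D (A₀.Z i) v) = v - (lam : ℂ) • v := by
        rw [← e4, e3]
        abel
      rw [e5]
      push_cast
      rw [sub_smul, one_smul]
    rw [e2, Submodule.coe_smul, inner_smul_right, inner_neg_left, inner_smul_left,
      Complex.conj_ofReal] at e1
    have e6 : ((lam - (1 + c) : ℝ) : ℂ) * (inner ℂ u (v : H) : ℂ) = 0 := by
      push_cast at e1 ⊢
      linear_combination e1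
    rcases mul_eq_zero.1 e6 with h | h
    · exfalso
      rw [Complex.ofReal_eq_zero] at h
      exact hne (by linarith)
    · exact h
  -- (2)
  have hle : A₀.eig (1 + c) ≤ A₀.low (1 + R) := A₀.eig_le_low (by linarith)
  have hfin2 : FiniteDimensional ℂ (A₀.eig (1 + c)) := Submodule.finiteDimensional_of_le hle
  have hfin3 : FiniteDimensional ℂ ((A₀.eig (1 + c)).map V₀.subtype) := inferInstance
  obtain ⟨y, hy, z, hz, huyz⟩ := ((A₀.eig (1 + c)).map V₀.subtype).exists_add_mem_mem_orthogonal u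
  obtain ⟨y', hy', rfl⟩ := hy
  have hz0 : ∀ v : V₀, (inner ℂ (v : H) z : ℂ) = 0 := by
    intro v
    have hv : v ∈ ⨆ lam : ℝ, A₀.eig lam := by rw [hA.top]; exact Submodule.mem_top
    refine Submodule.iSup_induction _ (motive := fun v : V₀ => (inner ℂ (v : H) z : ℂ) = 0) hv ?_ ?_ ?_
    · intro lam w hw
      by_cases hne : lam = 1 + c
      · subst hne
        exact (Submodule.mem_orthogonal _ z).1 hz _ (Submodule.mem_map_of_mem hw)
      · have e1 := h1 lam w hw hne
        have e2 : (inner ℂ y' w : ℂ) = 0 := A₀.eig_orth (Ne.symm hne) hy' hw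
        have e3 : z = u - V₀.subtype y' := by rw [huyz]; abel
        rw [e3, inner_sub_right]
        have e4 : (inner ℂ (w : H) u : ℂ) = 0 := by
          rw [← inner_conj_symm, e1, map_zero]
        have e5 : (inner ℂ (w : H) (V₀.subtype y') : ℂ) = 0 := by
          rw [← inner_conj_symm]
          have : (inner ℂ (V₀.subtype y') (w : H) : ℂ) = inner ℂ y' w := rfl
          rw [this, e2, map_zero]
        rw [e4, e5, sub_zero]
    · simp
    · intro a b ha hb
      rw [Submodule.coe_add, inner_add_left, ha, hb, add_zero]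
  have hz1 : z = 0 := by
    have h2 : V₀.topologicalClosure ≤ (ℂ ∙ z)ᗮ := by
      apply Submodule.topologicalClosure_minimal _ _ (Submodule.isClosed_orthogonal _)
      intro v hv
      rw [Submodule.mem_orthogonal_singleton_iff_inner_left]
      exact hz0 ⟨v, hv⟩
    rw [hd] at h2
    have h3 := h2 (Submodule.mem_top (x := z))
    rw [Submodule.mem_orthogonal_singleton_iff_inner_left] at h3
    exact inner_self_eq_zero.1 h3
  rw [huyz, hz1, add_zero]
  exact Submodule.mem_map_of_mem (hle hy')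

end SBD
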