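import Pool.Agent.SBD.Q11
import Pool.Agent.SBD.Q13
import Pool.Agent.SBD.FIN

/-!
# Row SBD-Q14 : Harish-Chandra's admissibility theorem; the unconditional theorem
-/

open MeasureTheory Filter Topology
open scoped ENNReal NNReal Matrix

noncomputable section

namespace SBD

variable {N : ℕ} {G : Type} [Group G] [TopologicalSpace G] [IsTopologicalGroup G]
  [LocallyCompactSpace G] [T2Space G]
variable [SecondCountableTopology G] [MeasurableSpace G] [BorelSpace G]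
variable {H : Type} [NormedAddCommGroup H] [InnerProductSpace ℂ H] [CompleteSpace H]

theorem adm_of_irr (L : LieData N G) (μ : Measure G) [μ.IsHaarMeasure] [μ.IsMulRightInvariant]
    (π : G →* (H ≃ₗᵢ[ℂ] H)) (hirr : IsIrr π) : Adm L π := by
  by_cases hV : ∃ u ∈ KFin L π, u ≠ 0
  · obtain ⟨V₀, h0, hK, A₀, hg, hD, hA⟩ := exists_V0 L π hirr μ hV
    exact adm_of_dense L π V₀ A₀ hg hD hA (dense_V0 L π hirr V₀ h0 hK A₀ hg hD hA)
  · intro R
    refine ⟨⊥, inferInstance, fun u hu c _ _ => ?_⟩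
    by_contra h
    exact hV ⟨u, hu, fun h' => h (by simp [h'])⟩

theorem main2 (L : LieData N G) (μ : Measure G) [μ.IsHaarMeasure] [μ.IsMulRightInvariant]
    (π : G →* (H ≃ₗᵢ[ℂ] H)) (hirr : IsIrr π) (ht : Tempered L π μ)
    (hinf : ¬ FiniteDimensional ℂ H) :
    (∀ u ∈ KFin L π, ∀ s : ℝ, ∃! v : H, Sob L π s u v) ∧
    ∃ c C : ℝ, 0 < c ∧ c ≤ C ∧ ∀ r : ℝ≥0∞, 2 < r → ∀ w ∈ KFin L π, w ≠ 0 →
      ENNReal.ofReal c * (1 - 2 / r) ≤ dist L π (pr π μ w r) qn ∧
      dist L π (pr π μ w r) qn ≤ ENNReal.ofReal C * (1 - 2 / r) :=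
  main L μ π hirr (adm_of_irr L μ π hirr) ht hinf

end SBD
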