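import Pool.Agent.SBD.Fil

/-!
# Row SBD-R01 : the filtration `Fil W m`

`W` finite-dimensional and stable under the `D(Z_i)`.
* `Fil_mono`, `Fil_fin`, `Fil_P` : definition, induction.
* `Fil_Z` : induction on `m`: `D(Z)D(P_b)v = D(P_b)D(Z)v + D([Z,P_b])v` (`brD`), and `[Z,P_b]` is
  symmetric and in `𝔤`, so by `A.basis` a combination of the `P_c` (its `Z`-coefficients vanish:
  `fip` of a skew-symmetric and a symmetric matrix is 0).
* `Fil_X` : `X = ∑ fip(Z_i,X)Z_i + ∑ fip(P_b,X)P_b`.
* `Fil_swap` : `D(P_b)D(P_c)v - D(P_c)D(P_b)v = D([P_b,P_c])v` and `[P_b,P_c]` is skew-symmetric in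
  `𝔤`, a combination of the `Z_i`; use `Fil_Z`.
* `Fil_perm` : `(List.Perm)` induction; `wd l w := (l.map fun b => A.D (A.P b)).prod w`: words with
  the same letters differ by an element of `Fil W (length - 1)`; `swap` case:
  `(D(P_b)D(P_c) - D(P_c)D(P_b))(wd l'' w) ∈ Fil W l''.length`.
-/

open scoped Matrix

noncomputable section

namespace SBD

namespace LieRep

variable {N : ℕ} {V : Type} [NormedAddCommGroup V] [InnerProductSpace ℂ V] (A : LieRep N V)

theorem Fil_mono (W : Submodule ℂ V) {m m' : ℕ} (h : m ≤ m') : A.Fil W m ≤ A.Fil W m' := by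
  have h1 : Monotone (A.Fil W) := monotone_nat_of_le_succ fun n => by
    show A.Fil W n ≤ A.Fil W n ⊔ ⨆ b, (A.Fil W n).map (A.D (A.P b))
    exact le_sup_left
  exact h1 h

theorem Fil_fin (W : Submodule ℂ V) [FiniteDimensional ℂ W] (m : ℕ) :
    FiniteDimensional ℂ (A.Fil W m) := by
  induction m with
  | zero => exact ‹FiniteDimensional ℂ W›
  | succ m ih =>
    have := ih
    show FiniteDimensional ℂ
      (A.Fil W m ⊔ ⨆ b, (A.Fil W m).map (A.D (A.P b)) : Submodule ℂ V)
    have : ∀ b, FiniteDimensional ℂ ((A.Fil W m).map (A.D (A.P b))) := fun b => inferInstance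
    infer_instance

theorem Fil_P (W : Submodule ℂ V) {m : ℕ} {v : V} (hv : v ∈ A.Fil W m) (b : Fin A.n) :
    A.D (A.P b) v ∈ A.Fil W (m + 1) := by
  show A.D (A.P b) v ∈ A.Fil W m ⊔ ⨆ b, (A.Fil W m).map (A.D (A.P b))
  refine Submodule.mem_sup_right ?_
  exact Submodule.mem_iSup_of_mem b (Submodule.mem_map_of_mem hv)

private theorem R01_X {S : Submodule ℂ V} {v : V} (hZ : ∀ i, A.D (A.Z i) v ∈ S)
    (hP : ∀ b, A.D (A.P b) v ∈ S) {X : Mat N} (hX : X ∈ A.𝔤) : A.D X v ∈ S := by
  have h1 := A.basis X hX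
  have h2 : A.D X v = ∑ i, fip (A.Z i) X • A.D (A.Z i) v + ∑ i, fip (A.P i) X • A.D (A.P i) v := by
    conv_lhs => rw [h1]
    rw [map_add, map_sum, map_sum]
    simp only [LinearMap.add_apply, LinearMap.sum_apply, map_smul, LinearMap.smul_apply]
  rw [h2]
  refine S.add_mem (S.sum_mem fun i _ => ?_) (S.sum_mem fun i _ => ?_)
  · exact S.smul_of_tower_mem _ (hZ i)
  · exact S.smul_of_tower_mem _ (hP i)

private theorem R01_fip {S K : Mat N} (hS : Sᵀ = S) (hK : Kᵀ = -K) : fip S K = 0 := by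
  have h1 : fip S K = - fip S K := by
    unfold fip
    conv_lhs => rw [← Matrix.trace_transpose, Matrix.transpose_mul, Matrix.transpose_transpose, hK,
      Matrix.neg_mul, Matrix.trace_neg, Matrix.trace_mul_comm]
    rw [hS]
  linarith

variable (W : Submodule ℂ V) (hW : ∀ i, ∀ w ∈ W, A.D (A.Z i) w ∈ W)

include hW

theorem Fil_Z {m : ℕ} {v : V} (hv : v ∈ A.Fil W m) (i : Fin A.m) :
    A.D (A.Z i) v ∈ A.Fil W m := by
  induction m generalizing v i with
  | zero => exact hW i v hv
  | succ m ih =>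
    have h1 : A.Fil W (m + 1) ≤ (A.Fil W (m + 1)).comap (A.D (A.Z i)) := by
      show A.Fil W m ⊔ ⨆ b, (A.Fil W m).map (A.D (A.P b)) ≤ _
      refine sup_le ?_ (iSup_le fun b => ?_)
      · intro u hu
        exact A.Fil_mono W (Nat.le_succ m) (ih hu i)
      · rw [Submodule.map_le_iff_le_comap]
        intro u hu
        show A.D (A.Z i) (A.D (A.P b) u) ∈ A.Fil W (m + 1)
        have h2 := A.brD (A.Z i) (A.Z_mem i) (A.P b) (A.P_mem b) u
        have h3 : A.D (A.Z i) (A.D (A.P b) u) = A.D (A.P b) (A.D (A.Z i) u) +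
            A.D (A.Z i * A.P b - A.P b * A.Z i) u := by
          rw [h2]
          abel
        rw [h3]
        refine Submodule.add_mem _ (A.Fil_P W (ih hu i) b) ?_
        exact R01_X A (fun j => A.Fil_mono W (Nat.le_succ m) (ih hu j)) (fun c => A.Fil_P W hu c)
          (A.br _ (A.Z_mem i) _ (A.P_mem b))
    exact h1 hv

theorem Fil_X {m : ℕ} {v : V} (hv : v ∈ A.Fil W m) {X : Mat N} (hX : X ∈ A.𝔤) :
    A.D X v ∈ A.Fil W (m + 1) :=
  R01_X A (fun j => A.Fil_mono W (Nat.le_succ m) (A.Fil_Z W hW hv j)) (fun c => A.Fil_P W hv c) hX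

theorem Fil_swap {m : ℕ} {v : V} (hv : v ∈ A.Fil W m) (b c : Fin A.n) :
    A.D (A.P b) (A.D (A.P c) v) - A.D (A.P c) (A.D (A.P b) v) ∈ A.Fil W m := by
  rw [← A.brD (A.P b) (A.P_mem b) (A.P c) (A.P_mem c) v]
  have hmem := A.br _ (A.P_mem b) _ (A.P_mem c)
  have hsk : (A.P b * A.P c - A.P c * A.P b)ᵀ = -(A.P b * A.P c - A.P c * A.P b) := by
    rw [Matrix.transpose_sub, Matrix.transpose_mul, Matrix.transpose_mul, A.P_t, A.P_t, neg_sub]
  have h1 := A.basis _ hmem
  have h0 : ∀ a, fip (A.P a) (A.P b * A.P c - A.P c * A.P b) = 0 := fun a =>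
    R01_fip (A.P_t a) hsk
  have h2 : A.D (A.P b * A.P c - A.P c * A.P b) v =
      ∑ i, fip (A.Z i) (A.P b * A.P c - A.P c * A.P b) • A.D (A.Z i) v := by
    conv_lhs => rw [h1]
    rw [map_add, map_sum, map_sum]
    simp only [LinearMap.add_apply, LinearMap.sum_apply, map_smul, LinearMap.smul_apply, h0,
      zero_smul, map_zero, LinearMap.zero_apply, Finset.sum_const_zero, add_zero]
  rw [h2]
  exact Submodule.sum_mem _ fun i _ =>
    Submodule.smul_of_tower_mem _ _ (A.Fil_Z W hW hv i)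

omit hW in
private theorem R01_wd (l : List (Fin A.n)) {w : V} (hw : w ∈ W) :
    (l.map fun b => (A.D (A.P b) : Module.End ℂ V)).prod w ∈ A.Fil W l.length := by
  induction l with
  | nil => exact hw
  | cons b l ih =>
    rw [List.map_cons, List.prod_cons, Module.End.mul_apply, List.length_cons]
    exact A.Fil_P W ih b

theorem Fil_perm {l l' : List (Fin A.n)} (h : l.Perm l') {w : V} (hw : w ∈ W) :
    (l.map fun b => (A.D (A.P b) : Module.End ℂ V)).prod w -
      (l'.map fun b => (A.D (A.P b) : Module.End ℂ V)).prod w ∈ A.Fil W (l.length - 1) := by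
  induction h with
  | nil =>
    rw [sub_self]
    exact Submodule.zero_mem _
  | @cons x l l' hp ih =>
    rcases Nat.eq_zero_or_pos l.length with h0 | h0
    · have hl : l = [] := List.length_eq_zero_iff.1 h0
      have hl' : l' = [] := by
        rw [hl] at hp
        exact hp.nil_eq.symm
      rw [hl, hl', sub_self]
      exact Submodule.zero_mem _
    · rw [List.map_cons, List.prod_cons, Module.End.mul_apply, List.map_cons, List.prod_cons,
        Module.End.mul_apply, ← map_sub, List.length_cons, Nat.add_sub_cancel]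
      have h1 := A.Fil_P W ih x
      rwa [Nat.sub_add_cancel h0] at h1
  | swap x y l =>
    rw [List.map_cons, List.prod_cons, Module.End.mul_apply, List.map_cons, List.prod_cons,
      Module.End.mul_apply, List.map_cons, List.prod_cons, Module.End.mul_apply, List.map_cons,
      List.prod_cons, Module.End.mul_apply, List.length_cons, List.length_cons,
      Nat.add_sub_cancel]
    exact A.Fil_mono W (Nat.le_succ _) (A.Fil_swap W hW (R01_wd A W l hw) y x)
  | trans h1 h2 ih1 ih2 =>
    rw [← h1.length_eq] at ih2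
    have h3 := Submodule.add_mem _ ih1 ih2
    rwa [sub_add_sub_cancel] at h3

end LieRep

end SBD
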