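import Pool.Agent.SBD.R01

/-!
# Row SBD-R02 : the ordered quantisation modulo lower order

`ord (monomial α c)` is `c` times the word `0…0 1…1 …` (`α_b` letters `b`), a list of length `|α|`.
* `ord_mem` : by linearity for monomials; a word of length `m` applied to `w ∈ W` is in `Fil W m`.
* `ord_X` : for a monomial `s`: `ord (X b * s) w` and `D(P_b)(ord s w)` are words with the same
  letters (length `m + 1`), so differ by an element of `Fil W m` (`Fil_perm`, R01).
* `fil_gen` : induction on `m`.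
* `ord_Z` : induction on the degree with `ord_X`.
-/

open scoped Matrix

noncomputable section

namespace SBD

/-- induction for homogeneous polynomials through monomials -/
private theorem R02_ind {n m : ℕ} (C : MvPolynomial (Fin n) ℂ → Prop) (h0 : C 0)
    (hadd : ∀ s t, C s → C t → C (s + t))
    (hmon : ∀ α : Fin n →₀ ℕ, α.degree = m → ∀ c : ℂ, C (MvPolynomial.monomial α c))
    {s : MvPolynomial (Fin n) ℂ} (hs : s.IsHomogeneous m) : C s := by
  have h1 : ∀ T : Finset (Fin n →₀ ℕ), T ⊆ s.support →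
      C (∑ α ∈ T, MvPolynomial.monomial α (MvPolynomial.coeff α s)) := by
    classical
    intro T
    induction T using Finset.induction_on with
    | empty => intro _; simpa using h0
    | insert a T ha ih =>
      intro hT
      rw [Finset.sum_insert ha]
      refine hadd _ _ ?_ (ih (fun x hx => hT (Finset.mem_insert_of_mem hx)))
      apply hmon
      have h2 : a ∈ s.support := hT (Finset.mem_insert_self _ _)
      have h3 : MvPolynomial.coeff a s ≠ 0 := MvPolynomial.mem_support_iff.1 h2
      have h4 := hs h3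
      rw [Finsupp.degree_eq_weight_one]
      exact h4
  have h2 := h1 s.support (Finset.Subset.refl _)
  rw [MvPolynomial.support_sum_monomial_coeff] at h2
  exact h2

/-- induction for homogeneous polynomials of positive degree -/
private theorem R02_ind2 {n m : ℕ} (C : MvPolynomial (Fin n) ℂ → Prop) (h0 : C 0)
    (hadd : ∀ s t, C s → C t → C (s + t))
    (hX : ∀ (b : Fin n) (s : MvPolynomial (Fin n) ℂ), s.IsHomogeneous m →
      C (MvPolynomial.X b * s))
    {s : MvPolynomial (Fin n) ℂ} (hs : s.IsHomogeneous (m + 1)) : C s := by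
  refine R02_ind C h0 hadd ?_ hs
  intro α hα c
  have h1 : ∃ b, α b ≠ 0 := by
    by_contra hcon
    push Not at hcon
    have : α = 0 := Finsupp.ext hcon
    rw [this] at hα
    simp at hα
  obtain ⟨b, hb⟩ := h1
  have h2 : Finsupp.single b 1 ≤ α := by
    rw [Finsupp.single_le_iff]
    omega
  have h3 : Finsupp.single b 1 + (α - Finsupp.single b 1) = α := add_tsub_cancel_of_le h2
  have h4 : MvPolynomial.monomial α c =
      MvPolynomial.X b * MvPolynomial.monomial (α - Finsupp.single b 1) c := by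
    rw [MvPolynomial.X, MvPolynomial.monomial_mul, one_mul, h3]
  rw [h4]
  apply hX
  apply MvPolynomial.isHomogeneous_monomial
  have h5 : (Finsupp.single b 1 + (α - Finsupp.single b 1)).degree = m + 1 := by
    rw [h3, hα]
  rw [map_add, Finsupp.degree_single] at h5
  omega

namespace LieRep

variable {N : ℕ} {V : Type} [NormedAddCommGroup V] [InnerProductSpace ℂ V] (A : LieRep N V)

/-- the operator of a word -/
private def wd (l : List (Fin A.n)) : Module.End ℂ V :=
  (l.map fun b => (A.D (A.P b) : Module.End ℂ V)).prod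

/-- the sorted word of an exponent -/
private def wl {n : ℕ} (α : Fin n →₀ ℕ) : List (Fin n) :=
  (List.ofFn fun b => List.replicate (α b) b).flatten

private theorem wl_length {n : ℕ} (α : Fin n →₀ ℕ) : (wl α).length = α.degree := by
  rw [wl, List.length_flatten, List.map_ofFn, List.sum_ofFn, Finsupp.degree_eq_sum]
  simp

private theorem wl_count {n : ℕ} (α : Fin n →₀ ℕ) (a : Fin n) : (wl α).count a = α a := by
  rw [wl, List.count_flatten, List.map_ofFn, List.sum_ofFn]
  simp [List.count_replicate]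

private theorem wl_perm {n : ℕ} (α : Fin n →₀ ℕ) (b : Fin n) :
    (wl (Finsupp.single b 1 + α)).Perm (b :: wl α) := by
  classical
  rw [List.perm_iff_count]
  intro a
  rw [wl_count, List.count_cons, wl_count, Finsupp.add_apply, Finsupp.single_apply]
  by_cases h : b = a
  · simp [h, add_comm]
  · simp [h]

private theorem wd_cons (b : Fin A.n) (l : List (Fin A.n)) (w : V) :
    A.wd (b :: l) w = A.D (A.P b) (A.wd l w) := rfl

private theorem ord_mon (α : Fin A.n →₀ ℕ) (c : ℂ) (w : V) :
    A.ord (MvPolynomial.monomial α c) w = c • A.wd (wl α) w := by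
  have h1 : MvPolynomial.monomial α c = c • (MvPolynomial.basisMonomials (Fin A.n) ℂ) α := by
    rw [MvPolynomial.coe_basisMonomials, MvPolynomial.smul_monomial, smul_eq_mul, mul_one]
  have h2 : A.wd (wl α) = (List.ofFn fun b => (A.D (A.P b) : Module.End ℂ V) ^ α b).prod := by
    rw [wd, wl, List.map_flatten, List.prod_flatten, List.map_ofFn, List.map_ofFn]
    congr 1
    congr 1
    funext b
    simp
  rw [h1, map_smul, ord, Module.Basis.constr_basis, h2]
  rfl

variable (W : Submodule ℂ V)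

private theorem wd_mem (l : List (Fin A.n)) {w : V} (hw : w ∈ W) : A.wd l w ∈ A.Fil W l.length := by
  induction l with
  | nil => exact hw
  | cons b l ih =>
    rw [wd_cons]
    exact A.Fil_P W ih b

variable (hW : ∀ i, ∀ w ∈ W, A.D (A.Z i) w ∈ W)

include hW

theorem ord_mem {m : ℕ} {s : MvPolynomial (Fin A.n) ℂ} (hs : s.IsHomogeneous m) {w : V}
    (hw : w ∈ W) : A.ord s w ∈ A.Fil W m := by
  refine R02_ind (m := m) (fun s => A.ord s w ∈ A.Fil W m) ?_ ?_ ?_ hs
  · simp
  · intro s t hs ht
    rw [map_add]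
    exact add_mem hs ht
  · intro α hα c
    show A.ord (MvPolynomial.monomial α c) w ∈ A.Fil W m
    rw [ord_mon]
    apply Submodule.smul_mem
    have h := A.wd_mem W (wl α) hw
    rw [wl_length, hα] at h
    exact h

theorem ord_X {m : ℕ} {s : MvPolynomial (Fin A.n) ℂ} (hs : s.IsHomogeneous m) {w : V}
    (hw : w ∈ W) (b : Fin A.n) :
    A.ord (MvPolynomial.X b * s) w - A.D (A.P b) (A.ord s w) ∈ A.Fil W m := by
  refine R02_ind (m := m) (fun s => A.ord (MvPolynomial.X b * s) w -
    A.D (A.P b) (A.ord s w) ∈ A.Fil W m) ?_ ?_ ?_ hs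
  · simp
  · intro s t hs ht
    have h1 : A.ord (MvPolynomial.X b * (s + t)) w - A.D (A.P b) (A.ord (s + t) w) =
        (A.ord (MvPolynomial.X b * s) w - A.D (A.P b) (A.ord s w)) +
        (A.ord (MvPolynomial.X b * t) w - A.D (A.P b) (A.ord t w)) := by
      rw [mul_add, map_add, map_add, LinearMap.add_apply, LinearMap.add_apply, map_add]
      abel
    show A.ord (MvPolynomial.X b * (s + t)) w - A.D (A.P b) (A.ord (s + t) w) ∈ A.Fil W m
    rw [h1]
    exact add_mem hs ht
  · intro α hα c
    show A.ord (MvPolynomial.X b * MvPolynomial.monomial α c) w -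
      A.D (A.P b) (A.ord (MvPolynomial.monomial α c) w) ∈ A.Fil W m
    rw [MvPolynomial.X, MvPolynomial.monomial_mul, one_mul, ord_mon, ord_mon, map_smul,
      ← wd_cons, ← smul_sub]
    apply Submodule.smul_mem
    have h := A.Fil_perm W hW (wl_perm α b) hw
    rw [wl_length, map_add, Finsupp.degree_single, hα] at h
    have h2 : 1 + m - 1 = m := by omega
    rw [h2] at h
    exact h

/-- the span of the `ord s w`, `s` homogeneous of degree `m`, `w ∈ W` -/
private def osp (m : ℕ) : Submodule ℂ V :=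
  Submodule.span ℂ {x | ∃ s w, s.IsHomogeneous m ∧ w ∈ W ∧ x = A.ord s w}

omit hW in
private theorem mem_osp {m : ℕ} {s : MvPolynomial (Fin A.n) ℂ} (hs : s.IsHomogeneous m) {w : V}
    (hw : w ∈ W) : A.ord s w ∈ A.osp W m :=
  Submodule.subset_span ⟨s, w, hs, hw, rfl⟩

omit hW in
private theorem ord_X_one (b : Fin A.n) (w : V) :
    A.ord (MvPolynomial.X b) w = A.D (A.P b) w := by
  have h1 : (MvPolynomial.X b : MvPolynomial (Fin A.n) ℂ) =
      MvPolynomial.monomial (Finsupp.single b 1) 1 := rfl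
  rw [h1, ord_mon, one_smul]
  have h2 : wl (Finsupp.single b 1 : Fin A.n →₀ ℕ) = [b] := by
    have h3 := wl_perm (0 : Fin A.n →₀ ℕ) b
    rw [add_zero] at h3
    have h4 : wl (0 : Fin A.n →₀ ℕ) = [] := by
      rw [← List.length_eq_zero_iff, wl_length, map_zero]
    rw [h4] at h3
    exact List.perm_singleton.1 h3
  rw [h2, wd_cons]
  rfl

private theorem osp_P {m : ℕ} {x : V} (hx : x ∈ A.osp W m) (b : Fin A.n) :
    A.D (A.P b) x ∈ A.osp W (m + 1) ⊔ A.Fil W m := by
  induction hx using Submodule.span_induction with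
  | mem x hx =>
    obtain ⟨s, w, hs, hw, rfl⟩ := hx
    have h1 := A.ord_X W hW hs hw b
    have h2 : (MvPolynomial.X b * s).IsHomogeneous (m + 1) := by
      have := (MvPolynomial.isHomogeneous_X ℂ b).mul hs
      rwa [add_comm] at this
    have h3 : A.D (A.P b) (A.ord s w) = A.ord (MvPolynomial.X b * s) w -
        (A.ord (MvPolynomial.X b * s) w - A.D (A.P b) (A.ord s w)) := by abel
    rw [h3]
    exact sub_mem (Submodule.mem_sup_left (A.mem_osp W h2 hw)) (Submodule.mem_sup_right h1)
  | zero => rw [map_zero]; exact zero_mem _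
  | add x y _ _ hx hy => rw [map_add]; exact add_mem hx hy
  | smul c x _ hx => rw [map_smul]; exact Submodule.smul_mem _ _ hx

private theorem fil_le (m : ℕ) : A.Fil W (m + 1) ≤ A.osp W (m + 1) ⊔ A.Fil W m := by
  induction m with
  | zero =>
    show A.Fil W 0 ⊔ ⨆ b, (A.Fil W 0).map (A.D (A.P b)) ≤ _
    refine sup_le le_sup_right (iSup_le fun b => ?_)
    rw [Submodule.map_le_iff_le_comap]
    intro w hw
    rw [Submodule.mem_comap, ← ord_X_one]
    exact Submodule.mem_sup_left (A.mem_osp W (MvPolynomial.isHomogeneous_X ℂ b) hw)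
  | succ m ih =>
    show A.Fil W (m + 1) ⊔ ⨆ b, (A.Fil W (m + 1)).map (A.D (A.P b)) ≤ _
    refine sup_le le_sup_right (iSup_le fun b => ?_)
    rw [Submodule.map_le_iff_le_comap]
    intro v hv
    rw [Submodule.mem_comap]
    obtain ⟨x, hx, y, hy, rfl⟩ := Submodule.mem_sup.1 (ih hv)
    rw [map_add]
    exact add_mem (A.osp_P W hW hx b) (Submodule.mem_sup_right (A.Fil_P W hy b))

theorem fil_gen {m : ℕ} {v : V} (hv : v ∈ A.Fil W (m + 1)) :
    ∃ (q : ℕ) (s : Fin q → MvPolynomial (Fin A.n) ℂ) (w : Fin q → V),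
      (∀ k, (s k).IsHomogeneous (m + 1) ∧ w k ∈ W) ∧
      v - ∑ k, A.ord (s k) (w k) ∈ A.Fil W m := by
  obtain ⟨x, hx, y, hy, rfl⟩ := Submodule.mem_sup.1 (A.fil_le W hW m hv)
  rw [osp, Submodule.mem_span_set'] at hx
  obtain ⟨q, f, g, rfl⟩ := hx
  choose s w hs hw he using fun k => (g k).2
  refine ⟨q, s, fun k => f k • w k, fun k => ⟨hs k, Submodule.smul_mem _ _ (hw k)⟩, ?_⟩
  have h1 : ∑ k, A.ord (s k) (f k • w k) = ∑ k, f k • (g k : V) := by
    refine Finset.sum_congr rfl fun k _ => ?_
    rw [map_smul, he k]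
  rw [h1, add_sub_cancel_left]
  exact hy

omit hW in
private theorem rho_X (i : Fin A.m) (b : Fin A.n) :
    A.rho i (MvPolynomial.X b) =
      ∑ c, MvPolynomial.C ((fip (A.P c) (A.Z i * A.P b - A.P b * A.Z i) : ℝ) : ℂ) *
        MvPolynomial.X c := by
  rw [rho, MvPolynomial.mkDerivation_X]

omit hW in
private theorem rho_X_homog (i : Fin A.m) (b : Fin A.n) :
    (A.rho i (MvPolynomial.X b)).IsHomogeneous 1 := by
  rw [rho_X]
  apply MvPolynomial.IsHomogeneous.sum
  intro c _
  have := (MvPolynomial.isHomogeneous_C (Fin A.n)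
    ((fip (A.P c) (A.Z i * A.P b - A.P b * A.Z i) : ℝ) : ℂ)).mul (MvPolynomial.isHomogeneous_X ℂ c)
  rwa [zero_add] at this

omit hW in
private theorem rho_mul (i : Fin A.m) (b : Fin A.n) (s : MvPolynomial (Fin A.n) ℂ) :
    A.rho i (MvPolynomial.X b * s) =
      MvPolynomial.X b * A.rho i s + A.rho i (MvPolynomial.X b) * s := by
  rw [Derivation.leibniz, smul_eq_mul, smul_eq_mul]
  ring

omit hW in
private theorem homog_zero {s : MvPolynomial (Fin A.n) ℂ} (hs : s.IsHomogeneous 0) :
    ∃ c : ℂ, s = MvPolynomial.C c :=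
  ⟨MvPolynomial.coeff 0 s, (MvPolynomial.totalDegree_eq_zero_iff_eq_C.1
    (Nat.le_zero.1 hs.totalDegree_le))⟩

theorem rho_homog {m : ℕ} {s : MvPolynomial (Fin A.n) ℂ} (hs : s.IsHomogeneous m)
    (i : Fin A.m) : (A.rho i s).IsHomogeneous m := by
  induction m generalizing s with
  | zero =>
    obtain ⟨c, rfl⟩ := A.homog_zero hs
    rw [MvPolynomial.derivation_C]
    exact MvPolynomial.isHomogeneous_zero _ _ _
  | succ m ih =>
    refine R02_ind2 (m := m) (fun s => (A.rho i s).IsHomogeneous (m + 1)) ?_ ?_ ?_ hs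
    · rw [map_zero]
      exact MvPolynomial.isHomogeneous_zero _ _ _
    · intro s t hs ht
      rw [map_add]
      exact hs.add ht
    · intro b s hs
      rw [rho_mul]
      have h1 := (MvPolynomial.isHomogeneous_X ℂ b).mul (ih hs)
      have h2 := (A.rho_X_homog i b).mul hs
      rw [add_comm] at h1 h2
      exact h1.add h2

omit hW in
/-- `[Z, P_b]` in terms of the `P_c` -/
private theorem br_ZP (i : Fin A.m) (b : Fin A.n) :
    A.Z i * A.P b - A.P b * A.Z i =
      ∑ c, fip (A.P c) (A.Z i * A.P b - A.P b * A.Z i) • A.P c := by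
  have h1 := A.basis _ (A.br _ (A.Z_mem i) _ (A.P_mem b))
  have hs : (A.Z i * A.P b - A.P b * A.Z i)ᵀ = A.Z i * A.P b - A.P b * A.Z i := by
    rw [Matrix.transpose_sub, Matrix.transpose_mul, Matrix.transpose_mul, A.Z_t, A.P_t]
    simp only [Matrix.mul_neg, Matrix.neg_mul]
    abel
  have h2 : ∀ a, fip (A.Z a) (A.Z i * A.P b - A.P b * A.Z i) = 0 := by
    intro a
    generalize A.Z i * A.P b - A.P b * A.Z i = S at hs ⊢
    have h3 : fip (A.Z a) S = -fip (A.Z a) S := by
      calc fip (A.Z a) S = ((A.Z a)ᵀ * S).trace := rfl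
        _ = (((A.Z a)ᵀ * S)ᵀ).trace := by rw [Matrix.trace_transpose]
        _ = (S * A.Z a).trace := by
          rw [Matrix.transpose_mul, Matrix.transpose_transpose, hs]
        _ = (A.Z a * S).trace := Matrix.trace_mul_comm _ _
        _ = -((A.Z a)ᵀ * S).trace := by rw [A.Z_t, Matrix.neg_mul, Matrix.trace_neg, neg_neg]
        _ = -fip (A.Z a) S := rfl
    linarith
  conv_lhs => rw [h1]
  rw [Finset.sum_eq_zero (fun a _ => by rw [h2 a, zero_smul]), zero_add]

/-- the shifted filtration: `⊥` in degree `0`, `Fil W m` in degree `m + 1` -/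
private def fl : ℕ → Submodule ℂ V
  | 0 => ⊥
  | m + 1 => A.Fil W m

omit hW in
private theorem fl_P {m : ℕ} {v : V} (hv : v ∈ A.fl W m) (b : Fin A.n) :
    A.D (A.P b) v ∈ A.Fil W m := by
  cases m with
  | zero =>
    have : v = 0 := (Submodule.mem_bot ℂ).1 hv
    rw [this, map_zero]
    exact zero_mem _
  | succ m => exact A.Fil_P W hv b

private theorem ord_Z_aux (i : Fin A.m) : ∀ (m : ℕ) {s : MvPolynomial (Fin A.n) ℂ}
    (_ : s.IsHomogeneous m) {w : V} (_ : w ∈ W),
    A.D (A.Z i) (A.ord s w) - A.ord (A.rho i s) w - A.ord s (A.D (A.Z i) w) ∈ A.fl W m := by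
  intro m
  induction m with
  | zero =>
    intro s hs w hw
    obtain ⟨c, rfl⟩ := A.homog_zero hs
    have h1 : ∀ v : V, A.ord (MvPolynomial.C c) v = c • v := by
      intro v
      have h2 : (MvPolynomial.C c : MvPolynomial (Fin A.n) ℂ) = MvPolynomial.monomial 0 c := rfl
      rw [h2, ord_mon]
      have h4 : wl (0 : Fin A.n →₀ ℕ) = [] := by
        rw [← List.length_eq_zero_iff, wl_length, map_zero]
      rw [h4]
      rfl
    rw [h1, h1, MvPolynomial.derivation_C, map_zero, LinearMap.zero_apply, map_smul, sub_zero, sub_self]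
    exact zero_mem _
  | succ m ih =>
    intro s hs w hw
    show _ ∈ A.Fil W m
    refine R02_ind2 (m := m) (fun s => A.D (A.Z i) (A.ord s w) - A.ord (A.rho i s) w -
      A.ord s (A.D (A.Z i) w) ∈ A.Fil W m) ?_ ?_ ?_ hs
    · simp
    · intro s t hs ht
      have h1 : A.D (A.Z i) (A.ord (s + t) w) - A.ord (A.rho i (s + t)) w -
          A.ord (s + t) (A.D (A.Z i) w) =
          (A.D (A.Z i) (A.ord s w) - A.ord (A.rho i s) w - A.ord s (A.D (A.Z i) w)) +
          (A.D (A.Z i) (A.ord t w) - A.ord (A.rho i t) w - A.ord t (A.D (A.Z i) w)) := by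
        rw [map_add, map_add, map_add, LinearMap.add_apply, LinearMap.add_apply,
          LinearMap.add_apply, map_add]
        abel
      show A.D (A.Z i) (A.ord (s + t) w) - A.ord (A.rho i (s + t)) w -
          A.ord (s + t) (A.D (A.Z i) w) ∈ A.Fil W m
      rw [h1]
      exact add_mem hs ht
    · intro b s hs
      show A.D (A.Z i) (A.ord (MvPolynomial.X b * s) w) -
        A.ord (A.rho i (MvPolynomial.X b * s)) w -
        A.ord (MvPolynomial.X b * s) (A.D (A.Z i) w) ∈ A.Fil W m
      have e1 := A.Fil_Z W hW (A.ord_X W hW hs hw b) i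
      have e2 := A.fl_P W (ih hs hw) b
      have e3 := A.ord_X W hW (A.rho_homog W hW hs i) hw b
      have e4 := A.ord_X W hW hs (hW i w hw) b
      have e5 : ∑ c, ((fip (A.P c) (A.Z i * A.P b - A.P b * A.Z i) : ℝ) : ℂ) •
          (A.ord (MvPolynomial.X c * s) w - A.D (A.P c) (A.ord s w)) ∈ A.Fil W m :=
        Submodule.sum_mem _ fun c _ => Submodule.smul_mem _ _ (A.ord_X W hW hs hw c)
      have e6 : A.D (A.Z i) (A.D (A.P b) (A.ord s w)) =
          A.D (A.P b) (A.D (A.Z i) (A.ord s w)) +
          ∑ c, ((fip (A.P c) (A.Z i * A.P b - A.P b * A.Z i) : ℝ) : ℂ) •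
            A.D (A.P c) (A.ord s w) := by
        have h1 := A.brD _ (A.Z_mem i) _ (A.P_mem b) (A.ord s w)
        rw [A.br_ZP i b, map_sum, LinearMap.sum_apply] at h1
        have h2 : ∑ c, (A.D (fip (A.P c) (A.Z i * A.P b - A.P b * A.Z i) • A.P c)) (A.ord s w) =
            ∑ c, ((fip (A.P c) (A.Z i * A.P b - A.P b * A.Z i) : ℝ) : ℂ) •
            A.D (A.P c) (A.ord s w) := by
          refine Finset.sum_congr rfl fun c _ => ?_
          rw [map_smul, LinearMap.smul_apply, Complex.coe_smul]
        rw [h2] at h1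
        rw [h1]
        abel
      have e7 : A.ord (A.rho i (MvPolynomial.X b) * s) w =
          ∑ c, ((fip (A.P c) (A.Z i * A.P b - A.P b * A.Z i) : ℝ) : ℂ) •
            A.ord (MvPolynomial.X c * s) w := by
        rw [rho_X, Finset.sum_mul, map_sum, LinearMap.sum_apply]
        refine Finset.sum_congr rfl fun c _ => ?_
        rw [mul_assoc, MvPolynomial.C_mul', map_smul]
        rfl
      have e8 : A.D (A.Z i) (A.ord (MvPolynomial.X b * s) w) -
          A.ord (A.rho i (MvPolynomial.X b * s)) w -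
          A.ord (MvPolynomial.X b * s) (A.D (A.Z i) w) =
          A.D (A.Z i) (A.ord (MvPolynomial.X b * s) w - A.D (A.P b) (A.ord s w)) +
          A.D (A.P b) (A.D (A.Z i) (A.ord s w) - A.ord (A.rho i s) w -
            A.ord s (A.D (A.Z i) w)) -
          (A.ord (MvPolynomial.X b * A.rho i s) w - A.D (A.P b) (A.ord (A.rho i s) w)) -
          (A.ord (MvPolynomial.X b * s) (A.D (A.Z i) w) -
            A.D (A.P b) (A.ord s (A.D (A.Z i) w))) -
          ∑ c, ((fip (A.P c) (A.Z i * A.P b - A.P b * A.Z i) : ℝ) : ℂ) •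
            (A.ord (MvPolynomial.X c * s) w - A.D (A.P c) (A.ord s w)) := by
        simp only [smul_sub, Finset.sum_sub_distrib]
        rw [← e7, rho_mul, map_add, LinearMap.add_apply, map_sub (A.D (A.Z i)), e6,
          map_sub (A.D (A.P b)), map_sub (A.D (A.P b))]
        abel
      rw [e8]
      exact sub_mem (sub_mem (sub_mem (add_mem e1 e2) e3) e4) e5

theorem ord_Z {m : ℕ} {s : MvPolynomial (Fin A.n) ℂ} (hs : s.IsHomogeneous (m + 1)) {w : V}
    (hw : w ∈ W) (i : Fin A.m) :
    A.D (A.Z i) (A.ord s w) - A.ord (A.rho i s) w - A.ord s (A.D (A.Z i) w) ∈ A.Fil W m :=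
  A.ord_Z_aux W hW i (m + 1) hs hw

end LieRep

end SBD
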