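import Pool.Agent.SBD.R02

/-!
# Row SBD-R03 : multiples of `tr(p^j)` go to lower order

If `tr(X^j)` (`A.X`) is a scalar then `ord (tr(PX^j) * s) w ∈ Fil W (m + j - 1)` for `s` homogeneous of
degree `m`, `j ≥ 1`.

PROOF.  Let `Y_{ik} = ∑_b (P_b)_{ik} D(P_b)` (a matrix over `End V`), so `A.X = Y - Z'`,
`Z'_{ik} = ∑_a (Z_a)_{ik} D(Z_a)`.
(1) For `v ∈ Fil W m` and `j ≥ 1`: `(A.X^j)_{ik} v - (Y^j)_{ik} v ∈ Fil W (m+j-1)`, and
`(A.X^j)_{ik}v, (Y^j)_{ik}v ∈ Fil W (m+j)`: induction on `j`: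
`X^{j+1} - Y^{j+1} = X(X^j - Y^j) - Z' Y^j`, `Z'` preserves each `Fil W _` (`Fil_Z`), `X` raises the
degree by 1.
(2) `ord ((PX^j)_{ik} * s) w - (Y^j)_{ik}(ord s w) ∈ Fil W (m+j-1)` for `j ≥ 1`, by induction on `j`
from `ord_X` (R02): `(PX^{j+1})_{ik} = ∑_l PX_{il} (PX^j)_{lk}`, `(PX^j)_{lk}` homogeneous of degree `j`.
(3) Take traces: `ord(tr(PX^j) s) w ≡ tr(Y^j)(ord s w) ≡ tr(A.X^j)(ord s w) = z ord s w ∈ Fil W m`,
modulo `Fil W (m+j-1) ⊇ Fil W m`.
-/

open scoped Matrix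

noncomputable section

namespace SBD

namespace LieRep

variable {N : ℕ} {V : Type} [NormedAddCommGroup V] [InnerProductSpace ℂ V] (A : LieRep N V)

private theorem PX_entry (i k : Fin N) : (A.PX i k).IsHomogeneous 1 := by
  apply MvPolynomial.IsHomogeneous.sum
  intro b _
  have := (MvPolynomial.isHomogeneous_C (Fin A.n) ((A.P b i k : ℝ) : ℂ)).mul
    (MvPolynomial.isHomogeneous_X ℂ b)
  rwa [zero_add] at this

theorem PX_homog (j : ℕ) (i k : Fin N) : ((A.PX ^ j) i k).IsHomogeneous j := by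
  induction j generalizing i k with
  | zero =>
    rw [pow_zero, Matrix.one_apply]
    split_ifs
    · exact MvPolynomial.isHomogeneous_one _ _
    · exact MvPolynomial.isHomogeneous_zero _ _ _
  | succ j ih =>
    rw [pow_succ, Matrix.mul_apply]
    apply MvPolynomial.IsHomogeneous.sum
    intro l _
    exact (ih i l).mul (A.PX_entry l k)

/-- the matrix `∑ P_b ⊗ D(P_b)` -/
private def Y : Matrix (Fin N) (Fin N) (Module.End ℂ V) :=
  fun i k => ∑ b, ((A.P b i k : ℝ) : ℂ) • (A.D (A.P b) : Module.End ℂ V)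

private theorem Y_apply (i k : Fin N) (v : V) :
    A.Y i k v = ∑ b, ((A.P b i k : ℝ) : ℂ) • A.D (A.P b) v := by
  rw [Y, LinearMap.sum_apply]
  rfl

private theorem X_apply (i k : Fin N) (v : V) :
    A.X i k v = A.Y i k v - ∑ a, ((A.Z a i k : ℝ) : ℂ) • A.D (A.Z a) v := by
  rw [X, W, map_add, map_neg, map_sum, map_sum, LinearMap.add_apply, LinearMap.neg_apply,
    LinearMap.sum_apply, LinearMap.sum_apply, Y_apply]
  have h1 : ∑ a, (A.D (A.Z a i k • A.Z a)) v = ∑ a, ((A.Z a i k : ℝ) : ℂ) • A.D (A.Z a) v := by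
    refine Finset.sum_congr rfl fun a _ => ?_
    rw [map_smul, LinearMap.smul_apply, Complex.coe_smul]
  have h2 : ∑ a, (A.D (A.P a i k • A.P a)) v = ∑ a, ((A.P a i k : ℝ) : ℂ) • A.D (A.P a) v := by
    refine Finset.sum_congr rfl fun a _ => ?_
    rw [map_smul, LinearMap.smul_apply, Complex.coe_smul]
  rw [h1, h2]
  abel

private theorem mul_app (M M' : Matrix (Fin N) (Fin N) (Module.End ℂ V)) (i k : Fin N) (v : V) :
    (M * M') i k v = ∑ l, M i l (M' l k v) := by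
  rw [Matrix.mul_apply, LinearMap.sum_apply]
  rfl

section

variable (W : Submodule ℂ V)

private theorem Y_mem {m : ℕ} {v : V} (hv : v ∈ A.Fil W m) (i k : Fin N) :
    A.Y i k v ∈ A.Fil W (m + 1) := by
  rw [Y_apply]
  exact Submodule.sum_mem _ fun b _ => Submodule.smul_mem _ _ (A.Fil_P W hv b)

private theorem Ypow_mem {m : ℕ} {v : V} (hv : v ∈ A.Fil W m) (j : ℕ) (i k : Fin N) :
    (A.Y ^ j) i k v ∈ A.Fil W (m + j) := by
  induction j generalizing i k with
  | zero =>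
    rw [pow_zero, Matrix.one_apply]
    split_ifs
    · exact hv
    · exact zero_mem _
  | succ j ih =>
    rw [pow_succ', mul_app]
    exact Submodule.sum_mem _ fun l _ => A.Y_mem W (ih l k) i l

variable (hW : ∀ i, ∀ w ∈ W, A.D (A.Z i) w ∈ W)

include hW

private theorem XY_mem {m : ℕ} {v : V} (hv : v ∈ A.Fil W m) (i k : Fin N) :
    A.X i k v - A.Y i k v ∈ A.Fil W m := by
  rw [X_apply, sub_sub_cancel_left]
  exact neg_mem (Submodule.sum_mem _ fun a _ => Submodule.smul_mem _ _ (A.Fil_Z W hW hv a))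

private theorem X_mem {m : ℕ} {v : V} (hv : v ∈ A.Fil W m) (i k : Fin N) :
    A.X i k v ∈ A.Fil W (m + 1) := by
  have h1 : A.X i k v = (A.X i k v - A.Y i k v) + A.Y i k v := by abel
  rw [h1]
  exact add_mem (A.Fil_mono W (Nat.le_succ m) (A.XY_mem W hW hv i k)) (A.Y_mem W hv i k)

private theorem XYpow {m : ℕ} {v : V} (hv : v ∈ A.Fil W m) (j : ℕ) (i k : Fin N) :
    (A.X ^ (j + 1)) i k v - (A.Y ^ (j + 1)) i k v ∈ A.Fil W (m + j) := by
  induction j generalizing i k with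
  | zero =>
    rw [zero_add, pow_one, pow_one]
    exact A.XY_mem W hW hv i k
  | succ j ih =>
    rw [pow_succ' A.X, pow_succ' A.Y, mul_app, mul_app, ← Finset.sum_sub_distrib]
    refine Submodule.sum_mem _ fun l _ => ?_
    have h1 : A.X i l ((A.X ^ (j + 1)) l k v) - A.Y i l ((A.Y ^ (j + 1)) l k v) =
        A.X i l ((A.X ^ (j + 1)) l k v - (A.Y ^ (j + 1)) l k v) +
        (A.X i l ((A.Y ^ (j + 1)) l k v) - A.Y i l ((A.Y ^ (j + 1)) l k v)) := by
      rw [map_sub]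
      abel
    rw [h1]
    exact add_mem (A.X_mem W hW (ih l k) i l) (A.XY_mem W hW (A.Ypow_mem W hv (j + 1) l k) i l)

private theorem ordY {m : ℕ} {s : MvPolynomial (Fin A.n) ℂ} (hs : s.IsHomogeneous m) {w : V}
    (hw : w ∈ W) (i k : Fin N) :
    A.ord (A.PX i k * s) w - A.Y i k (A.ord s w) ∈ A.Fil W m := by
  have h1 : A.ord (A.PX i k * s) w =
      ∑ b, ((A.P b i k : ℝ) : ℂ) • A.ord (MvPolynomial.X b * s) w := by
    rw [PX, Finset.sum_mul, map_sum, LinearMap.sum_apply]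
    refine Finset.sum_congr rfl fun c _ => ?_
    rw [mul_assoc, MvPolynomial.C_mul', map_smul]
    rfl
  rw [h1, Y_apply, ← Finset.sum_sub_distrib]
  refine Submodule.sum_mem _ fun b _ => ?_
  rw [← smul_sub]
  exact Submodule.smul_mem _ _ (A.ord_X W hW hs hw b)

private theorem ordYpow {m : ℕ} {s : MvPolynomial (Fin A.n) ℂ} (hs : s.IsHomogeneous m) {w : V}
    (hw : w ∈ W) (j : ℕ) (i k : Fin N) :
    A.ord ((A.PX ^ (j + 1)) i k * s) w - (A.Y ^ (j + 1)) i k (A.ord s w) ∈ A.Fil W (m + j) := by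
  induction j generalizing i k with
  | zero =>
    rw [zero_add, pow_one, pow_one]
    exact A.ordY W hW hs hw i k
  | succ j ih =>
    rw [pow_succ' A.PX, pow_succ' A.Y, mul_app, Matrix.mul_apply, Finset.sum_mul, map_sum,
      LinearMap.sum_apply, ← Finset.sum_sub_distrib]
    refine Submodule.sum_mem _ fun l _ => ?_
    have h1 : A.ord (A.PX i l * (A.PX ^ (j + 1)) l k * s) w -
        A.Y i l ((A.Y ^ (j + 1)) l k (A.ord s w)) =
        (A.ord (A.PX i l * ((A.PX ^ (j + 1)) l k * s)) w -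
          A.Y i l (A.ord ((A.PX ^ (j + 1)) l k * s) w)) +
        A.Y i l (A.ord ((A.PX ^ (j + 1)) l k * s) w - (A.Y ^ (j + 1)) l k (A.ord s w)) := by
      rw [map_sub, mul_assoc]
      abel
    rw [h1]
    have h2 : ((A.PX ^ (j + 1)) l k * s).IsHomogeneous (m + (j + 1)) := by
      have h3 := (A.PX_homog (j + 1) l k).mul hs
      have h4 : j + 1 + m = m + (j + 1) := by omega
      rw [h4] at h3
      exact h3
    exact add_mem (A.ordY W hW h2 hw i l) (A.Y_mem W (ih l k) i l)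

end

theorem ord_p (W : Submodule ℂ V) (hW : ∀ i, ∀ w ∈ W, A.D (A.Z i) w ∈ W) {m : ℕ}
    {s : MvPolynomial (Fin A.n) ℂ} (hs : s.IsHomogeneous m) {w : V} (hw : w ∈ W) (j : ℕ)
    (hj : 1 ≤ j) (z : ℂ) (hz : (A.X ^ j).trace = z • (1 : Module.End ℂ V)) :
    A.ord ((A.PX ^ j).trace * s) w ∈ A.Fil W (m + j - 1) := by
  obtain ⟨j, rfl⟩ : ∃ j', j = j' + 1 := ⟨j - 1, by omega⟩
  have h0 : m + (j + 1) - 1 = m + j := by omega
  rw [h0]
  have hv := A.ord_mem W hW hs hw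
  have h1 : A.ord ((A.PX ^ (j + 1)).trace * s) w =
      ∑ i, (A.ord ((A.PX ^ (j + 1)) i i * s) w - (A.Y ^ (j + 1)) i i (A.ord s w)) -
      ∑ i, ((A.X ^ (j + 1)) i i (A.ord s w) - (A.Y ^ (j + 1)) i i (A.ord s w)) +
      (A.X ^ (j + 1)).trace (A.ord s w) := by
    have h2 : (A.X ^ (j + 1)).trace (A.ord s w) = ∑ i, (A.X ^ (j + 1)) i i (A.ord s w) := by
      rw [Matrix.trace, LinearMap.sum_apply]
      rfl
    have h3 : A.ord ((A.PX ^ (j + 1)).trace * s) w =
        ∑ i, A.ord ((A.PX ^ (j + 1)) i i * s) w := by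
      rw [Matrix.trace, Finset.sum_mul, map_sum, LinearMap.sum_apply]
      rfl
    rw [h2, h3, Finset.sum_sub_distrib, Finset.sum_sub_distrib]
    abel
  rw [h1, hz]
  refine add_mem (sub_mem (Submodule.sum_mem _ fun i _ => A.ordYpow W hW hs hw j i i)
    (Submodule.sum_mem _ fun i _ => A.XYpow W hW hv j i i)) ?_
  rw [LinearMap.smul_apply]
  exact Submodule.smul_mem _ _ (A.Fil_mono W (Nat.le_add_right m j) hv)

end LieRep

end SBD
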