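import Pool.Agent.SBD.A07

/-!
# Row SBD-R04 : nilpotency modulo ideals, two matrices

`R` a ring (a ℚ-algebra), `I` a two-sided ideal, `J ⊇ I` a left ideal, `M, M' ∈ Mat_N(R)`, all entries of
`M` and `M'` commute with each other modulo `I`, `tr(M^j) ∈ J` for `1 ≤ j ≤ N`, and all entries of
`M' M - M M'` in `J`.  Then all entries of `(M' M)^N` are in `J`.

PROOF.  As in A08 (`SBD.nc_nilpotent`, store `SBD_A08.lean`, whose proof can be adapted): pass to
`Q = R ⧸ I`, `S = Algebra.adjoin ℚ {images of the entries of M and M'}` (commutative),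
`J' = {a ∈ S : a ∈ image of J}` an ideal of `S`, `B = S ⧸ J'`: `tr(M_B^j) = 0`, so `M_B^N = 0` (A07),
`M'_B M_B = M_B M'_B`, so `(M'_B M_B)^N = M'_B^N M_B^N = 0`.
-/

private theorem R04_comm {N : ℕ} {S Q : Type*} [CommRing S] [Algebra ℚ S] [Ring Q] (φ : S →+* Q)
    (J : Ideal Q) (M M' : Matrix (Fin N) (Fin N) S)
    (htr : ∀ j, 1 ≤ j → j ≤ N → φ ((M ^ j).trace) ∈ J)
    (hnorm : ∀ i j, φ ((M' * M - M * M') i j) ∈ J) :
    ∀ i j, φ (((M' * M) ^ N) i j) ∈ J := by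
  let K : Ideal S := Ideal.comap φ J
  have hmem : ∀ s : S, φ s ∈ J ↔ Ideal.Quotient.mk K s = 0 := by
    intro s
    rw [Ideal.Quotient.eq_zero_iff_mem]
    exact Iff.rfl
  let π : S →+* (S ⧸ K) := Ideal.Quotient.mk K
  let B : Matrix (Fin N) (Fin N) (S ⧸ K) := π.mapMatrix M
  let B' : Matrix (Fin N) (Fin N) (S ⧸ K) := π.mapMatrix M'
  have hB0 : B ^ N = 0 := by
    refine SBD.matrix_nilpotent_of_traces B ?_
    intro j hj hjN
    have h1 : B ^ j = π.mapMatrix (M ^ j) := (map_pow π.mapMatrix M j).symm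
    rw [h1]
    have h2 : (π.mapMatrix (M ^ j)).trace = π ((M ^ j).trace) :=
      (AddMonoidHom.map_trace π (M ^ j)).symm
    rw [h2]
    exact (hmem _).1 (htr j hj hjN)
  have hcom : B' * B - B * B' = 0 := by
    have h3 : B' * B - B * B' = π.mapMatrix (M' * M - M * M') := by
      rw [map_sub, map_mul, map_mul]
    rw [h3]
    ext i j
    exact (hmem _).1 (hnorm i j)
  have hC : Commute B' B := sub_eq_zero.1 hcom
  have hfin : (B' * B) ^ N = 0 := by
    rw [hC.mul_pow, hB0, mul_zero]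
  intro i j
  rw [hmem]
  have h4 : (B' * B) ^ N = π.mapMatrix ((M' * M) ^ N) := by
    rw [map_pow, map_mul]
  rw [h4] at hfin
  exact congrFun (congrFun hfin i) j

theorem SBD.nc_nilpotent2 {N : ℕ} {R : Type*} [Ring R] [Algebra ℚ R] (I : Ideal R)
    [I.IsTwoSided] (J : Ideal R) (hIJ : I ≤ J) (M M' : Matrix (Fin N) (Fin N) R)
    (h1 : ∀ i j k l, M i j * M k l - M k l * M i j ∈ I)
    (h2 : ∀ i j k l, M i j * M' k l - M' k l * M i j ∈ I)
    (h3 : ∀ i j k l, M' i j * M' k l - M' k l * M' i j ∈ I)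
    (htr : ∀ j, 1 ≤ j → j ≤ N → (M ^ j).trace ∈ J)
    (hnorm : ∀ i j, (M' * M - M * M') i j ∈ J) :
    ∀ i j, ((M' * M) ^ N) i j ∈ J := by
  let π : R →+* (R ⧸ I) := Ideal.Quotient.mk I
  have hπs : Function.Surjective π := Ideal.Quotient.mk_surjective
  let J' : Ideal (R ⧸ I) := Ideal.map π J
  have hJ' : ∀ r : R, π r ∈ J' ↔ r ∈ J := by
    intro r
    have h1 : Ideal.comap π (Ideal.map π J) = J ⊔ RingHom.ker π :=
      Ideal.comap_map_of_surjective' π hπs J
    have h2 : RingHom.ker π = I := Ideal.mk_ker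
    rw [h2, sup_eq_left.2 hIJ] at h1
    rw [← h1]
    exact Iff.rfl
  let s : Set (R ⧸ I) := (Set.range fun p : Fin N × Fin N => π (M p.1 p.2)) ∪
    (Set.range fun p : Fin N × Fin N => π (M' p.1 p.2))
  have hq : ∀ a b : R, a * b - b * a ∈ I → π a * π b = π b * π a := by
    intro a b h
    rw [← map_mul, ← map_mul, ← sub_eq_zero, ← map_sub]
    exact Ideal.Quotient.eq_zero_iff_mem.2 h
  have hs : ∀ x ∈ s, ∀ y ∈ s, x * y = y * x := by
    rintro _ (⟨p, rfl⟩ | ⟨p, rfl⟩) _ (⟨q, rfl⟩ | ⟨q, rfl⟩)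
    · exact hq _ _ (h1 _ _ _ _)
    · exact hq _ _ (h2 _ _ _ _)
    · exact (hq _ _ (h2 _ _ _ _)).symm
    · exact hq _ _ (h3 _ _ _ _)
  have hc : IsMulCommutative (Algebra.adjoin ℚ s) := Algebra.isMulCommutative_adjoin ℚ hs
  let _ : CommRing (Algebra.adjoin ℚ s) :=
    { (inferInstance : Ring (Algebra.adjoin ℚ s)) with
      mul_comm := fun a b => hc.is_comm.comm a b }
  let φ : Algebra.adjoin ℚ s →+* (R ⧸ I) := (Algebra.adjoin ℚ s).val.toRingHom
  let MS : Matrix (Fin N) (Fin N) (Algebra.adjoin ℚ s) :=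
    fun i j => ⟨π (M i j), Algebra.subset_adjoin (Or.inl ⟨(i, j), rfl⟩)⟩
  let MT : Matrix (Fin N) (Fin N) (Algebra.adjoin ℚ s) :=
    fun i j => ⟨π (M' i j), Algebra.subset_adjoin (Or.inr ⟨(i, j), rfl⟩)⟩
  have hMS : φ.mapMatrix MS = π.mapMatrix M := rfl
  have hMT : φ.mapMatrix MT = π.mapMatrix M' := rfl
  have key := R04_comm φ J' MS MT
    (by
      intro j hj hjN
      have h2 : φ ((MS ^ j).trace) = (φ.mapMatrix (MS ^ j)).trace :=
        AddMonoidHom.map_trace φ (MS ^ j)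
      have h3 : (π.mapMatrix (M ^ j)).trace = π ((M ^ j).trace) :=
        (AddMonoidHom.map_trace π (M ^ j)).symm
      rw [h2, map_pow, hMS, ← map_pow, h3, hJ']
      exact htr j hj hjN)
    (by
      intro i j
      have h2 : φ ((MT * MS - MS * MT) i j) = (φ.mapMatrix (MT * MS - MS * MT)) i j := rfl
      have h3 : (π.mapMatrix (M' * M - M * M')) i j = π ((M' * M - M * M') i j) := rfl
      rw [h2, map_sub, map_mul, map_mul, hMS, hMT, ← map_mul, ← map_mul, ← map_sub, h3, hJ']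
      exact hnorm i j)
  intro i j
  have h4 := key i j
  have h5 : φ (((MT * MS) ^ N) i j) = (φ.mapMatrix ((MT * MS) ^ N)) i j := rfl
  have h6 : (π.mapMatrix ((M' * M) ^ N)) i j = π (((M' * M) ^ N) i j) := rfl
  rw [h5, map_pow, map_mul, hMS, hMT, ← map_mul, ← map_pow, h6, hJ'] at h4
  exact h4

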