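import Pool.Agent.SBD.Fil
import Pool.Agent.SBD.R04
import Pool.Agent.SBD.A09

/-!
# Row SBD-R05 : on the common kernel of the `tr(p(a)^j)` the operators `ρ(Z_i)` are large

Let `F` be Fock data on `E`, `P_b` symmetric orthonormal, `Z_i` skew-symmetric orthonormal, with all
`[P_b,P_c]` in the span of the `Z_i`.  There are `c > 0`, `M₀` such that for `M ≥ M₀` and `s ∈ E` with
`num s = M s` and `tr(pm^j) s = 0` for `1 ≤ j ≤ N`:  `c M² ‖s‖² ≤ ∑_i ‖ρ(Z_i)s‖²`.

PROOF.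
(0) Let `low k` be the sum of the `ker (num - l)`, `l ∈ ℕ`, `l ≤ k`.  `num` is symmetric; `a_b` maps
`ker (num - l)` to `ker (num - (l-1))` (to `0` if `l = 0`), `c_b` to `ker(num-(l+1))` (from `ccr`;
`[num, a_b] = -a_b`, `[num, c_b] = c_b`, using that the `c`'s commute, which follows from `aa` by
taking adjoints).  For `v ∈ low k`: `∑_b ‖a_b v‖² = ⟨num v,v⟩ ≤ k‖v‖²` (the kernels are mutually
orthogonal), `‖c_b v‖² = ‖a_b v‖² + ‖v‖² ≤ (k+1)‖v‖²`.
(1) Let `M'` := the matrix of creation operators `pm'_{ik} = ∑_b (P_b)_{ik} c_b` (`P_b` symmetric, so this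
is the adjoint matrix of `pm`).  From `ccr`:
  `(pm' pm - pm pm')_{ik} = ∑_{b,c} (P_cP_b - P_bP_c)_{ik} c_c a_b - (∑_b P_b²)_{ik}`,
and `fip(P_c,[Z_i,P_b]) = -fip(Z_i,[P_b,P_c])` (both are `tr`s; `Z_i` skew), so with
`[P_c,P_b] = ∑_i fip(Z_i,[P_c,P_b]) Z_i`:
  `(pm' pm - pm pm')_{ik} = ∑_j (Z_j)_{ik} ρ(Z_j) - (∑_b P_b²)_{ik}`.
(2) Suppose the statement false: for every `k` there are `M_k ≥ k+1` and `s_k` with `‖s_k‖ = 1`,
`num s_k = M_k s_k`, `tr(pm^j)s_k = 0` (`1 ≤ j ≤ N`), `∑_i‖ρ(Z_i)s_k‖² < M_k²/(k+1)`.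
`R` := the algebra of sequences `T : ℕ → End E` such that for every `D : ℕ` there is `C : ℕ` with
`T_k (low (D M_k)) ⊂ low (C M_k)` and `‖T_kv‖ ≤ C‖v‖` for `v ∈ low (D M_k)`, all `k`.
`I` := those with moreover `‖T_kv‖ ≤ (C/M_k)‖v‖` on `low (D M_k)`: a two-sided ideal.
`J` := those `T ∈ R` with `‖T_ks_k‖ → 0`: a left ideal containing `I`.
`M := (pm_{ij}/√M_k)_k`, `M' := (pm'_{ij}/√M_k)_k` are in `Mat_N(R)` by (0); the entries of `M` commute
exactly, so do those of `M'`, and `[a_b,c_c]/M_k = δ_{bc}/M_k ∈ I`.  `tr(M^j) ∈ J` by assumption.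
`(M'M - MM')_{ij} s_k = M_k⁻¹(∑(Z_j)_{ik}ρ(Z_j)s_k - (∑P_b²)_{ik}s_k) → 0`: in `J`.
By R04, `‖((pm' pm)^N)_{ij} s_k‖/M_k^N → 0` for all `i,j`.
(3) But `pm' pm` acts on `PiLp 2 (fun _ : Fin N => E)` as `𝐚* 𝐚` with `(𝐚ζ)_i = ∑ pm_{ij}ζ_j`, a positive
symmetric operator, so by A09 with `ζ = e_i ⊗ s_k`:
`Re⟨((pm'pm)^N)_{ii}s_k,s_k⟩ ≥ (Re⟨(pm'pm)_{ii}s_k,s_k⟩)^N`, and
`∑_i Re⟨(pm'pm)_{ii}s_k,s_k⟩ = ∑_{b,c} tr(P_cP_b)⟨c_ca_bs_k,s_k⟩ = ⟨num s_k,s_k⟩ = M_k`; so for some `i` the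
left side is `≥ (M_k/N)^N`: contradiction for large `k` (sum over the finitely many `i`).
(If `N = 0` there is no `P_b`, `n = 0`, `num = 0`, so `s = 0` for `M ≥ 1`.)
The proofs of A10, A11 (store `SBD_A10.lean`, `SBD_A11.lean`) have the same structure and can be
adapted.
-/

open scoped Matrix
open Filter Topology

noncomputable section

namespace SBD

section R05basic

variable {n : ℕ} {E : Type} [NormedAddCommGroup E] [InnerProductSpace ℂ E] (F : Fock n E)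

private theorem R05_adj' (b : Fin n) (u v : E) : inner ℂ u (F.c b v) = inner ℂ (F.a b u) v := by
  rw [← inner_conj_symm, F.adj, inner_conj_symm]

private theorem R05_num (v : E) : F.num v = ∑ b, F.c b (F.a b v) := by
  unfold Fock.num
  rw [LinearMap.sum_apply]
  rfl

private theorem R05_num_inner (u v : E) :
    inner ℂ (F.num u) v = ∑ b, inner ℂ (F.a b u) (F.a b v) := by
  rw [R05_num, sum_inner]
  exact Finset.sum_congr rfl fun b _ => F.adj b _ _

private theorem R05_num_symm (u v : E) : inner ℂ (F.num u) v = inner ℂ u (F.num v) := by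
  rw [R05_num_inner, R05_num, inner_sum]
  exact Finset.sum_congr rfl fun b _ => (R05_adj' F b _ _).symm

private theorem R05_cc (b b' : Fin n) (v : E) : F.c b (F.c b' v) = F.c b' (F.c b v) := by
  refine ext_inner_right ℂ fun w => ?_
  rw [F.adj, F.adj, F.adj, F.adj, F.aa]

private theorem R05_num_a (b : Fin n) (v : E) : F.num (F.a b v) = F.a b (F.num v) - F.a b v := by
  rw [R05_num, R05_num, map_sum]
  have h : ∀ c, F.c c (F.a c (F.a b v)) =
      F.a b (F.c c (F.a c v)) - if b = c then F.a c v else 0 := by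
    intro c
    rw [F.aa c b, ← F.ccr b c (F.a c v)]
    abel
  rw [Finset.sum_congr rfl fun c _ => h c, Finset.sum_sub_distrib, Finset.sum_ite_eq]
  simp

private theorem R05_num_c (b : Fin n) (v : E) : F.num (F.c b v) = F.c b (F.num v) + F.c b v := by
  rw [R05_num, R05_num, map_sum]
  have h : ∀ c, F.c c (F.a c (F.c b v)) =
      F.c b (F.c c (F.a c v)) + if c = b then F.c c v else 0 := by
    intro c
    have h1 : F.a c (F.c b v) = F.c b (F.a c v) + if c = b then v else 0 := by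
      rw [← F.ccr c b v]
      abel
    rw [h1, map_add, R05_cc F c b]
    congr 1
    split_ifs <;> simp
  rw [Finset.sum_congr rfl fun c _ => h c, Finset.sum_add_distrib, Finset.sum_ite_eq']
  simp

private theorem R05_norm_a (v : E) : ∑ b, ‖F.a b v‖ ^ 2 = (inner ℂ (F.num v) v).re := by
  rw [R05_num_inner, Complex.re_sum]
  refine Finset.sum_congr rfl fun b _ => ?_
  rw [inner_self_eq_norm_sq_to_K]
  norm_cast

private theorem R05_norm_c (b : Fin n) (v : E) : ‖F.c b v‖ ^ 2 = ‖F.a b v‖ ^ 2 + ‖v‖ ^ 2 := by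
  have h1 : (inner ℂ (F.c b v) (F.c b v) : ℂ) =
      inner ℂ (F.a b v) (F.a b v) + inner ℂ v v := by
    have h2 : F.a b (F.c b v) = F.c b (F.a b v) + v := by
      have := F.ccr b b v
      rw [if_pos rfl, sub_eq_iff_eq_add] at this
      rw [this, add_comm]
    rw [F.adj, h2, inner_add_right, R05_adj']
  rw [inner_self_eq_norm_sq_to_K, inner_self_eq_norm_sq_to_K, inner_self_eq_norm_sq_to_K] at h1
  exact_mod_cast h1

/-- The sum of the eigenspaces of the number operator of the eigenvalues `≤ R`. -/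
private def R05_low (R : ℕ) : Submodule ℂ E where
  carrier := {v | ∃ f : ℕ → E, (∀ l, F.num (f l) = (l : ℂ) • f l) ∧
    v = ∑ l ∈ Finset.range (R + 1), f l}
  add_mem' := by
    rintro u v ⟨f, hf, rfl⟩ ⟨g, hg, rfl⟩
    exact ⟨fun l => f l + g l, fun l => by rw [map_add, hf, hg, smul_add],
      by rw [Finset.sum_add_distrib]⟩
  zero_mem' := ⟨fun _ => 0, fun l => by rw [map_zero, smul_zero], by rw [Finset.sum_const_zero]⟩
  smul_mem' := by
    rintro c v ⟨f, hf, rfl⟩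
    exact ⟨fun l => c • f l, fun l => by rw [map_smul, hf, smul_comm],
      by rw [Finset.smul_sum]⟩

private theorem R05_eig_low {l R : ℕ} (h : l ≤ R) {v : E} (hv : F.num v = (l : ℂ) • v) :
    v ∈ R05_low F R := by
  refine ⟨fun i => if i = l then v else 0, fun i => ?_, ?_⟩
  · by_cases hi : i = l
    · simp only [hi, if_true]
      exact hv
    · simp only [hi, if_false, map_zero, smul_zero]
  · rw [Finset.sum_ite_eq', if_pos (Finset.mem_range.2 (by omega))]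

private theorem R05_low_mono {R S : ℕ} (h : R ≤ S) : R05_low F R ≤ R05_low F S := by
  rintro v ⟨f, hf, rfl⟩
  refine Submodule.sum_mem _ fun l hl => R05_eig_low F ?_ (hf l)
  have := Finset.mem_range.1 hl
  omega

private theorem R05_a_eig {l R : ℕ} (h : l ≤ R) (b : Fin n) {v : E} (hv : F.num v = (l : ℂ) • v) :
    F.a b v ∈ R05_low F R := by
  rcases l with _ | l
  · have h1 := R05_norm_a F v
    rw [hv, Nat.cast_zero, zero_smul, inner_zero_left, Complex.zero_re] at h1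
    have h2 : ‖F.a b v‖ ^ 2 = 0 :=
      (Finset.sum_eq_zero_iff_of_nonneg (fun i _ => sq_nonneg ‖F.a i v‖)).1 h1 b
        (Finset.mem_univ b)
    have h3 : F.a b v = 0 := by
      rw [← norm_eq_zero]
      exact pow_eq_zero_iff two_ne_zero |>.1 h2
    rw [h3]
    exact Submodule.zero_mem _
  · refine R05_eig_low F (l := l) (by omega) ?_
    rw [R05_num_a, hv, map_smul]
    push_cast
    rw [add_smul, one_smul]
    abel

private theorem R05_a_low {R : ℕ} (b : Fin n) {v : E} (hv : v ∈ R05_low F R) :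
    F.a b v ∈ R05_low F R := by
  obtain ⟨f, hf, rfl⟩ := hv
  rw [map_sum]
  refine Submodule.sum_mem _ fun l hl => R05_a_eig F ?_ b (hf l)
  have := Finset.mem_range.1 hl
  omega

private theorem R05_c_low {R : ℕ} (b : Fin n) {v : E} (hv : v ∈ R05_low F R) :
    F.c b v ∈ R05_low F (R + 1) := by
  obtain ⟨f, hf, rfl⟩ := hv
  rw [map_sum]
  refine Submodule.sum_mem _ fun l hl => R05_eig_low F (l := l + 1) ?_ ?_
  · have := Finset.mem_range.1 hl
    omega
  · rw [R05_num_c, hf, map_smul]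
    push_cast
    rw [add_smul, one_smul]

private theorem R05_num_le {R : ℕ} {v : E} (hv : v ∈ R05_low F R) :
    (inner ℂ (F.num v) v).re ≤ R * ‖v‖ ^ 2 := by
  obtain ⟨f, hf, rfl⟩ := hv
  have horth : ∀ l l', l ≠ l' → inner ℂ (f l) (f l') = (0 : ℂ) := by
    intro l l' hne
    have h1 := R05_num_symm F (f l) (f l')
    rw [hf, hf, inner_smul_left, inner_smul_right, Complex.conj_natCast] at h1
    have h2 : ((l : ℂ) - (l' : ℂ)) * inner ℂ (f l) (f l') = 0 := by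
      rw [sub_mul, h1, sub_self]
    rcases mul_eq_zero.1 h2 with h3 | h3
    · exfalso
      apply hne
      have : (l : ℂ) = (l' : ℂ) := sub_eq_zero.1 h3
      exact_mod_cast this
    · exact h3
  have hgen : ∀ w : ℕ → ℝ, (inner ℂ (∑ l ∈ Finset.range (R + 1), ((w l : ℝ) : ℂ) • f l)
      (∑ l ∈ Finset.range (R + 1), f l)).re = ∑ l ∈ Finset.range (R + 1), w l * ‖f l‖ ^ 2 := by
    intro w
    rw [sum_inner, Complex.re_sum]
    refine Finset.sum_congr rfl fun l hl => ?_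
    rw [inner_sum, Finset.sum_eq_single l]
    · rw [inner_smul_left, Complex.conj_ofReal, inner_self_eq_norm_sq_to_K, Complex.re_ofReal_mul]
      norm_cast
    · intro l' _ hne
      rw [inner_smul_left, horth l l' (Ne.symm hne), mul_zero]
    · intro h
      exact absurd hl h
  have h1 : F.num (∑ l ∈ Finset.range (R + 1), f l) =
      ∑ l ∈ Finset.range (R + 1), (((l : ℝ) : ℝ) : ℂ) • f l := by
    rw [map_sum]
    refine Finset.sum_congr rfl fun l _ => ?_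
    rw [hf]
    push_cast
    rfl
  have h2 : ‖∑ l ∈ Finset.range (R + 1), f l‖ ^ 2 =
      ∑ l ∈ Finset.range (R + 1), (1 : ℝ) * ‖f l‖ ^ 2 := by
    rw [← hgen (fun _ => 1)]
    simp only [Complex.ofReal_one, one_smul]
    exact (inner_self_eq_norm_sq (𝕜 := ℂ) _).symm
  rw [h1, hgen (fun l => (l : ℝ)), h2, Finset.mul_sum]
  refine Finset.sum_le_sum fun l hl => ?_
  have h3 : (l : ℝ) ≤ R := by
    have := Finset.mem_range.1 hl
    exact_mod_cast (by omega : l ≤ R)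
  rw [one_mul]
  exact mul_le_mul_of_nonneg_right h3 (sq_nonneg _)

private theorem R05_a_le {R : ℕ} (b : Fin n) {v : E} (hv : v ∈ R05_low F R) :
    ‖F.a b v‖ ^ 2 ≤ R * ‖v‖ ^ 2 := by
  refine le_trans ?_ (R05_num_le F hv)
  rw [← R05_norm_a]
  exact Finset.single_le_sum (f := fun b => ‖F.a b v‖ ^ 2) (fun _ _ => sq_nonneg _)
    (Finset.mem_univ b)

private theorem R05_c_le {R : ℕ} (b : Fin n) {v : E} (hv : v ∈ R05_low F R) :
    ‖F.c b v‖ ^ 2 ≤ (R + 1) * ‖v‖ ^ 2 := by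
  rw [R05_norm_c]
  have := R05_a_le F b hv
  linarith

/-- The algebra of the sequences of operators which are uniformly bounded on `low (D L_k)`. -/
private def R05_R (L : ℕ → ℕ) (_hL : ∀ k, 1 ≤ L k) : Subalgebra ℂ (ℕ → Module.End ℂ E) where
  carrier := {T | ∀ D : ℕ, ∃ C : ℕ, ∀ k, ∀ φ ∈ R05_low F (D * L k),
    T k φ ∈ R05_low F (C * L k) ∧ ‖T k φ‖ ≤ C * ‖φ‖}
  mul_mem' := by
    intro S T hS hT D
    obtain ⟨C1, h1⟩ := hT D
    obtain ⟨C2, h2⟩ := hS C1
    refine ⟨C2 * C1 + C2, ?_⟩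
    intro k φ hφ
    obtain ⟨h3, h4⟩ := h1 k φ hφ
    obtain ⟨h5, h6⟩ := h2 k _ h3
    refine ⟨R05_low_mono F ?_ h5, ?_⟩
    · exact Nat.mul_le_mul_right _ (Nat.le_add_left _ _)
    · calc ‖(S * T) k φ‖ = ‖S k (T k φ)‖ := rfl
        _ ≤ C2 * ‖T k φ‖ := h6
        _ ≤ C2 * (C1 * ‖φ‖) := by gcongr
        _ ≤ C2 * (C1 * ‖φ‖) + C2 * ‖φ‖ := by
            have : (0 : ℝ) ≤ C2 * ‖φ‖ := by positivity
            linarith
        _ = ((C2 * C1 + C2 : ℕ) : ℝ) * ‖φ‖ := by push_cast; ring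
  add_mem' := by
    intro S T hS hT D
    obtain ⟨C1, h1⟩ := hT D
    obtain ⟨C2, h2⟩ := hS D
    refine ⟨C2 + C1, ?_⟩
    intro k φ hφ
    obtain ⟨h3, h4⟩ := h1 k φ hφ
    obtain ⟨h5, h6⟩ := h2 k _ hφ
    refine ⟨?_, ?_⟩
    · have e : (S + T) k φ = S k φ + T k φ := rfl
      rw [e]
      exact Submodule.add_mem _
        (R05_low_mono F (Nat.mul_le_mul_right _ (Nat.le_add_right _ _)) h5)
        (R05_low_mono F (Nat.mul_le_mul_right _ (Nat.le_add_left _ _)) h3)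
    · calc ‖(S + T) k φ‖ = ‖S k φ + T k φ‖ := rfl
        _ ≤ ‖S k φ‖ + ‖T k φ‖ := norm_add_le _ _
        _ ≤ C2 * ‖φ‖ + C1 * ‖φ‖ := by gcongr
        _ = ((C2 + C1 : ℕ) : ℝ) * ‖φ‖ := by push_cast; ring
  algebraMap_mem' := by
    intro r D
    refine ⟨D + ⌈‖r‖⌉₊, ?_⟩
    intro k φ hφ
    have e : (algebraMap ℂ (ℕ → Module.End ℂ E) r) k φ = r • φ := rfl
    rw [e]
    refine ⟨Submodule.smul_mem _ _
      (R05_low_mono F (Nat.mul_le_mul_right _ (Nat.le_add_right _ _)) hφ), ?_⟩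
    rw [norm_smul]
    have h1 : ‖r‖ ≤ ((⌈‖r‖⌉₊ : ℕ) : ℝ) := Nat.le_ceil _
    have h2 : ‖r‖ ≤ ((D + ⌈‖r‖⌉₊ : ℕ) : ℝ) := by
      push_cast
      have : (0 : ℝ) ≤ D := Nat.cast_nonneg D
      linarith
    exact mul_le_mul_of_nonneg_right h2 (norm_nonneg _)

/-- The ideal of the sequences of norm `O(1/L_k)`. -/
private def R05_I (L : ℕ → ℕ) (hL : ∀ k, 1 ≤ L k) : Ideal (R05_R F L hL) where
  carrier := {T | ∀ D : ℕ, ∃ C : ℕ, ∀ k, ∀ φ ∈ R05_low F (D * L k),
    ‖(T : ℕ → Module.End ℂ E) k φ‖ ≤ C / (L k : ℝ) * ‖φ‖}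
  add_mem' := by
    intro S T hS hT D
    obtain ⟨C1, h1⟩ := hT D
    obtain ⟨C2, h2⟩ := hS D
    refine ⟨C2 + C1, ?_⟩
    intro k φ hφ
    calc ‖((S + T : R05_R F L hL) : ℕ → Module.End ℂ E) k φ‖
        = ‖(S : ℕ → Module.End ℂ E) k φ + (T : ℕ → Module.End ℂ E) k φ‖ := rfl
      _ ≤ ‖(S : ℕ → Module.End ℂ E) k φ‖ + ‖(T : ℕ → Module.End ℂ E) k φ‖ := norm_add_le _ _
      _ ≤ C2 / (L k : ℝ) * ‖φ‖ + C1 / (L k : ℝ) * ‖φ‖ := by
          gcongr
          · exact h2 k φ hφ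
          · exact h1 k φ hφ
      _ = ((C2 + C1 : ℕ) : ℝ) / (L k : ℝ) * ‖φ‖ := by push_cast; ring
  zero_mem' := by
    intro D
    refine ⟨0, ?_⟩
    intro k φ hφ
    have e : ((0 : R05_R F L hL) : ℕ → Module.End ℂ E) k φ = 0 := rfl
    rw [e, norm_zero]
    positivity
  smul_mem' := by
    intro S T hT D
    obtain ⟨C1, h1⟩ := hT D
    obtain ⟨C3, h3⟩ := T.2 D
    obtain ⟨C2, h2⟩ := S.2 C3
    refine ⟨C2 * C1, ?_⟩
    intro k φ hφ
    calc ‖((S • T : R05_R F L hL) : ℕ → Module.End ℂ E) k φ‖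
        = ‖(S : ℕ → Module.End ℂ E) k ((T : ℕ → Module.End ℂ E) k φ)‖ := rfl
      _ ≤ C2 * ‖(T : ℕ → Module.End ℂ E) k φ‖ := (h2 k _ (h3 k φ hφ).1).2
      _ ≤ C2 * (C1 / (L k : ℝ) * ‖φ‖) := by
          gcongr
          exact h1 k φ hφ
      _ = ((C2 * C1 : ℕ) : ℝ) / (L k : ℝ) * ‖φ‖ := by push_cast; ring

private theorem R05_two (L : ℕ → ℕ) (hL : ∀ k, 1 ≤ L k) : (R05_I F L hL).IsTwoSided where
  mul_mem_of_left := by
    intro T S hT D
    obtain ⟨C1, h1⟩ := S.2 D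
    obtain ⟨C2, h2⟩ := hT C1
    refine ⟨C2 * C1, ?_⟩
    intro k φ hφ
    calc ‖((T * S : R05_R F L hL) : ℕ → Module.End ℂ E) k φ‖
        = ‖(T : ℕ → Module.End ℂ E) k ((S : ℕ → Module.End ℂ E) k φ)‖ := rfl
      _ ≤ C2 / (L k : ℝ) * ‖(S : ℕ → Module.End ℂ E) k φ‖ := h2 k _ (h1 k φ hφ).1
      _ ≤ C2 / (L k : ℝ) * (C1 * ‖φ‖) := by
          gcongr
          exact (h1 k φ hφ).2
      _ = ((C2 * C1 : ℕ) : ℝ) / (L k : ℝ) * ‖φ‖ := by push_cast; ring

/-- The left ideal of the sequences with `T_k s_k → 0`. -/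
private def R05_J (L : ℕ → ℕ) (hL : ∀ k, 1 ≤ L k) (s : ℕ → E)
    (hs : ∀ k, F.num (s k) = (L k : ℂ) • s k) : Ideal (R05_R F L hL) where
  carrier := {T | Tendsto (fun k => ‖(T : ℕ → Module.End ℂ E) k (s k)‖) atTop (𝓝 0)}
  add_mem' := by
    intro S T hS hT
    have h : Tendsto (fun k => ‖(S : ℕ → Module.End ℂ E) k (s k)‖
        + ‖(T : ℕ → Module.End ℂ E) k (s k)‖) atTop (𝓝 0) := by
      simpa using Filter.Tendsto.add hS hT
    exact squeeze_zero (fun k => norm_nonneg _) (fun k => norm_add_le _ _) h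
  zero_mem' := by
    have e : (fun k => ‖((0 : R05_R F L hL) : ℕ → Module.End ℂ E) k (s k)‖) = fun _ => (0:ℝ) := by
      funext k
      exact norm_zero
    show Tendsto (fun k => ‖((0 : R05_R F L hL) : ℕ → Module.End ℂ E) k (s k)‖) atTop (𝓝 0)
    rw [e]
    exact tendsto_const_nhds
  smul_mem' := by
    intro S T hT
    obtain ⟨C3, h3⟩ := T.2 1
    obtain ⟨C2, h2⟩ := S.2 C3
    have h : Tendsto (fun k => C2 * ‖(T : ℕ → Module.End ℂ E) k (s k)‖) atTop (𝓝 0) := by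
      simpa using Filter.Tendsto.const_mul (C2 : ℝ) hT
    refine squeeze_zero (fun k => norm_nonneg _) (fun k => ?_) h
    have h4 : s k ∈ R05_low F (1 * L k) := R05_eig_low F (by omega) (hs k)
    exact (h2 k _ (h3 k _ h4).1).2

private theorem R05_mem_J (L : ℕ → ℕ) (hL : ∀ k, 1 ≤ L k) (s : ℕ → E)
    (hs : ∀ k, F.num (s k) = (L k : ℂ) • s k) (T : R05_R F L hL) :
    T ∈ R05_J F L hL s hs ↔
      Tendsto (fun k => ‖(T : ℕ → Module.End ℂ E) k (s k)‖) atTop (𝓝 0) := Iff.rfl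

private theorem R05_tend (L : ℕ → ℕ) (hLk : ∀ k : ℕ, k + 1 ≤ L k) (C : ℝ) :
    Tendsto (fun k => C / (L k : ℝ)) atTop (𝓝 0) := by
  have h1 : Tendsto (fun k => (L k : ℝ)) atTop atTop := by
    refine tendsto_natCast_atTop_atTop.comp (tendsto_atTop_mono (f := fun k : ℕ => k) ?_ tendsto_id)
    intro k
    have := hLk k
    show k ≤ L k
    omega
  exact h1.const_div_atTop C

private theorem R05_I_le (L : ℕ → ℕ) (hL : ∀ k, 1 ≤ L k) (hLk : ∀ k : ℕ, k + 1 ≤ L k)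
    (s : ℕ → E) (hs : ∀ k, F.num (s k) = (L k : ℂ) • s k) (hn : ∀ k, ‖s k‖ = 1) :
    R05_I F L hL ≤ R05_J F L hL s hs := by
  intro T hT
  obtain ⟨C, h⟩ := hT 1
  refine squeeze_zero (fun k => norm_nonneg _) (fun k => ?_) (R05_tend L hLk C)
  have h4 : s k ∈ R05_low F (1 * L k) := R05_eig_low F (by omega) (hs k)
  have h5 := h k _ h4
  rw [hn k, mul_one] at h5
  exact h5

private theorem R05_bd {L D : ℕ} (hL : 1 ≤ L) {x y : ℝ} (hy : 0 ≤ y)
    (h : x ^ 2 ≤ ((D * L : ℕ) + 1 : ℝ) * y ^ 2) : (Real.sqrt L)⁻¹ * x ≤ ((D + 1 : ℕ) : ℝ) * y := by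
  have hL1 : (1 : ℝ) ≤ L := by exact_mod_cast hL
  have hs : 0 < Real.sqrt L := Real.sqrt_pos.2 (by linarith)
  rw [inv_mul_le_iff₀ hs]
  refine le_of_sq_le_sq ?_ (by positivity)
  refine h.trans ?_
  rw [mul_pow, Real.sq_sqrt (by linarith), mul_pow]
  have h1 : ((D * L : ℕ) + 1 : ℝ) ≤ L * ((D + 1 : ℕ) : ℝ) ^ 2 := by
    push_cast
    have hD : (0 : ℝ) ≤ D := Nat.cast_nonneg D
    nlinarith [mul_nonneg hD (by linarith : (0:ℝ) ≤ L), mul_nonneg (mul_nonneg hD hD) (by linarith : (0:ℝ) ≤ L)]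
  nlinarith [sq_nonneg y]

/-- the rescaled annihilation operators -/
private def R05_al (L : ℕ → ℕ) (hL : ∀ k, 1 ≤ L k) (b : Fin n) : R05_R F L hL :=
  ⟨fun k => (((Real.sqrt (L k))⁻¹ : ℝ) : ℂ) • (F.a b : Module.End ℂ E), by
    intro D
    refine ⟨D + 1, fun k φ hφ => ?_⟩
    have e : ((((Real.sqrt (L k))⁻¹ : ℝ) : ℂ) • (F.a b : Module.End ℂ E)) φ =
      (((Real.sqrt (L k))⁻¹ : ℝ) : ℂ) • F.a b φ := rfl
    show ((((Real.sqrt (L k))⁻¹ : ℝ) : ℂ) • (F.a b : Module.End ℂ E)) φ ∈ _ ∧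
      ‖((((Real.sqrt (L k))⁻¹ : ℝ) : ℂ) • (F.a b : Module.End ℂ E)) φ‖ ≤ _
    rw [e]
    refine ⟨Submodule.smul_mem _ _ (R05_low_mono F ?_ (R05_a_low F b hφ)), ?_⟩
    · exact Nat.mul_le_mul_right _ (Nat.le_succ _)
    · rw [norm_smul, Complex.norm_real, Real.norm_of_nonneg (by positivity)]
      refine R05_bd (hL k) (norm_nonneg _) ?_
      refine (R05_a_le F b hφ).trans ?_
      gcongr
      linarith⟩

/-- the rescaled creation operators -/
private def R05_ga (L : ℕ → ℕ) (hL : ∀ k, 1 ≤ L k) (b : Fin n) : R05_R F L hL :=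
  ⟨fun k => (((Real.sqrt (L k))⁻¹ : ℝ) : ℂ) • (F.c b : Module.End ℂ E), by
    intro D
    refine ⟨D + 1, fun k φ hφ => ?_⟩
    have e : ((((Real.sqrt (L k))⁻¹ : ℝ) : ℂ) • (F.c b : Module.End ℂ E)) φ =
      (((Real.sqrt (L k))⁻¹ : ℝ) : ℂ) • F.c b φ := rfl
    show ((((Real.sqrt (L k))⁻¹ : ℝ) : ℂ) • (F.c b : Module.End ℂ E)) φ ∈ _ ∧
      ‖((((Real.sqrt (L k))⁻¹ : ℝ) : ℂ) • (F.c b : Module.End ℂ E)) φ‖ ≤ _
    rw [e]
    refine ⟨Submodule.smul_mem _ _ (R05_low_mono F ?_ (R05_c_low F b hφ)), ?_⟩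
    · rw [add_mul, one_mul]
      exact Nat.add_le_add_left (hL k) _
    · rw [norm_smul, Complex.norm_real, Real.norm_of_nonneg (by positivity)]
      exact R05_bd (hL k) (norm_nonneg _) (R05_c_le F b hφ)⟩

private theorem R05_sq (l : ℕ) : (((Real.sqrt l)⁻¹ : ℝ) : ℂ) * (((Real.sqrt l)⁻¹ : ℝ) : ℂ)
    = (((l : ℝ)⁻¹ : ℝ) : ℂ) := by
  rw [← Complex.ofReal_mul, ← mul_inv, Real.mul_self_sqrt (Nat.cast_nonneg l)]

private theorem R05_al_al (L : ℕ → ℕ) (hL : ∀ k, 1 ≤ L k) (b c : Fin n) :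
    R05_al F L hL b * R05_al F L hL c - R05_al F L hL c * R05_al F L hL b = 0 := by
  rw [sub_eq_zero]
  apply Subtype.ext
  funext k
  refine LinearMap.ext fun v => ?_
  show (((Real.sqrt (L k))⁻¹ : ℝ) : ℂ) • F.a b ((((Real.sqrt (L k))⁻¹ : ℝ) : ℂ) • F.a c v) =
    (((Real.sqrt (L k))⁻¹ : ℝ) : ℂ) • F.a c ((((Real.sqrt (L k))⁻¹ : ℝ) : ℂ) • F.a b v)
  rw [map_smul, map_smul, F.aa]

private theorem R05_ga_ga (L : ℕ → ℕ) (hL : ∀ k, 1 ≤ L k) (b c : Fin n) :
    R05_ga F L hL b * R05_ga F L hL c - R05_ga F L hL c * R05_ga F L hL b = 0 := by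
  rw [sub_eq_zero]
  apply Subtype.ext
  funext k
  refine LinearMap.ext fun v => ?_
  show (((Real.sqrt (L k))⁻¹ : ℝ) : ℂ) • F.c b ((((Real.sqrt (L k))⁻¹ : ℝ) : ℂ) • F.c c v) =
    (((Real.sqrt (L k))⁻¹ : ℝ) : ℂ) • F.c c ((((Real.sqrt (L k))⁻¹ : ℝ) : ℂ) • F.c b v)
  rw [map_smul, map_smul, R05_cc]

private theorem R05_al_ga (L : ℕ → ℕ) (hL : ∀ k, 1 ≤ L k) (b c : Fin n) :
    R05_al F L hL b * R05_ga F L hL c - R05_ga F L hL c * R05_al F L hL b ∈ R05_I F L hL := by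
  intro D
  refine ⟨1, fun k φ _ => ?_⟩
  have e : ((R05_al F L hL b * R05_ga F L hL c - R05_ga F L hL c * R05_al F L hL b :
      R05_R F L hL) : ℕ → Module.End ℂ E) k φ =
      (((Real.sqrt (L k))⁻¹ : ℝ) : ℂ) • F.a b ((((Real.sqrt (L k))⁻¹ : ℝ) : ℂ) • F.c c φ) -
      (((Real.sqrt (L k))⁻¹ : ℝ) : ℂ) • F.c c ((((Real.sqrt (L k))⁻¹ : ℝ) : ℂ) • F.a b φ) := rfl
  rw [e, map_smul, map_smul, smul_smul, smul_smul, ← smul_sub, F.ccr, R05_sq, norm_smul,
    Complex.norm_real, Real.norm_of_nonneg (by positivity)]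
  have h1 : ‖(if b = c then φ else 0 : E)‖ ≤ ‖φ‖ := by
    split_ifs
    · exact le_rfl
    · rw [norm_zero]
      exact norm_nonneg _
  rw [Nat.cast_one, one_div]
  gcongr

private theorem R05_comm {R : Type} [Ring R] [Algebra ℂ R] (I : Ideal R) {p q : ℕ}
    (x : Fin p → R) (y : Fin q → R) (h : ∀ b c, x b * y c - y c * x b ∈ I)
    (u : Fin p → ℂ) (w : Fin q → ℂ) :
    (∑ b, u b • x b) * (∑ c, w c • y c) - (∑ c, w c • y c) * (∑ b, u b • x b) ∈ I := by
  have e : (∑ b, u b • x b) * (∑ c, w c • y c) - (∑ c, w c • y c) * (∑ b, u b • x b) =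
      ∑ b, ∑ c, algebraMap ℂ R (u b * w c) * (x b * y c - y c * x b) := by
    rw [Finset.sum_mul_sum, Finset.sum_mul_sum, Finset.sum_comm (γ := Fin q),
      ← Finset.sum_sub_distrib]
    refine Finset.sum_congr rfl fun b _ => ?_
    rw [← Finset.sum_sub_distrib]
    refine Finset.sum_congr rfl fun c _ => ?_
    rw [smul_mul_smul_comm, smul_mul_smul_comm, mul_comm (w c), ← smul_sub, Algebra.smul_def]
  rw [e]
  exact Submodule.sum_mem _ fun b _ => Submodule.sum_mem _ fun c _ => Ideal.mul_mem_left _ _ (h b c)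

/-- The matrix `∑ P_b ⊗ A_b`. -/
private def R05_mx {N : ℕ} (P : Fin n → Mat N) (A : Fin n → E →ₗ[ℂ] E) :
    Matrix (Fin N) (Fin N) (Module.End ℂ E) :=
  fun i k => ∑ b, ((P b i k : ℝ) : ℂ) • (A b : Module.End ℂ E)

private theorem R05_mx_mul {N : ℕ} (P : Fin n → Mat N) (A B : Fin n → E →ₗ[ℂ] E) (i k : Fin N)
    (v : E) : (R05_mx P A * R05_mx P B) i k v =
      ∑ c, ∑ b, (((P c * P b) i k : ℝ) : ℂ) • A c (B b v) := by
  rw [Matrix.mul_apply, LinearMap.sum_apply]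
  have h1 : ∀ j, (R05_mx P A i j * R05_mx P B j k) v =
      ∑ c, ∑ b, (((P c i j * P b j k : ℝ)) : ℂ) • A c (B b v) := by
    intro j
    unfold R05_mx
    rw [Finset.sum_mul_sum, LinearMap.sum_apply]
    refine Finset.sum_congr rfl fun c _ => ?_
    rw [LinearMap.sum_apply]
    refine Finset.sum_congr rfl fun b _ => ?_
    rw [smul_mul_smul_comm, Complex.ofReal_mul]
    rfl
  rw [Finset.sum_congr rfl fun j _ => h1 j, Finset.sum_comm]
  refine Finset.sum_congr rfl fun c _ => ?_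
  rw [Finset.sum_comm]
  refine Finset.sum_congr rfl fun b _ => ?_
  rw [← Finset.sum_smul, ← Complex.ofReal_sum, Matrix.mul_apply]

/-- The adjoint matrix of `pm`. -/
private def R05_pc {N : ℕ} (P : Fin n → Mat N) : Matrix (Fin N) (Fin N) (Module.End ℂ E) :=
  fun i k => ∑ b, ((P b i k : ℝ) : ℂ) • (F.c b : Module.End ℂ E)

/-- evaluation at `k` -/
private def R05_ev (L : ℕ → ℕ) (hL : ∀ k, 1 ≤ L k) (k : ℕ) :
    R05_R F L hL →+* Module.End ℂ E :=
  (Pi.evalRingHom (fun _ : ℕ => Module.End ℂ E) k).comp (R05_R F L hL).val.toRingHom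

private theorem R05_ev_apply (L : ℕ → ℕ) (hL : ∀ k, 1 ≤ L k) (k : ℕ) (T : R05_R F L hL) :
    R05_ev F L hL k T = (T : ℕ → Module.End ℂ E) k := rfl

/-- The matrix `M` over `R`. -/
private def R05_M {N : ℕ} (P : Fin n → Mat N) (L : ℕ → ℕ) (hL : ∀ k, 1 ≤ L k) :
    Matrix (Fin N) (Fin N) (R05_R F L hL) := fun i j =>
  ∑ b, ((P b i j : ℝ) : ℂ) • R05_al F L hL b

/-- The matrix `M'` over `R`. -/
private def R05_M' {N : ℕ} (P : Fin n → Mat N) (L : ℕ → ℕ) (hL : ∀ k, 1 ≤ L k) :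
    Matrix (Fin N) (Fin N) (R05_R F L hL) := fun i j =>
  ∑ b, ((P b i j : ℝ) : ℂ) • R05_ga F L hL b

private theorem R05_ev_smul (L : ℕ → ℕ) (hL : ∀ k, 1 ≤ L k) (k : ℕ) (c : ℂ) (T : R05_R F L hL) :
    R05_ev F L hL k (c • T) = c • R05_ev F L hL k T := rfl

private theorem R05_map_M {N : ℕ} (P : Fin n → Mat N) (L : ℕ → ℕ) (hL : ∀ k, 1 ≤ L k) (k : ℕ) :
    (R05_ev F L hL k).mapMatrix (R05_M F P L hL)
      = (((Real.sqrt (L k))⁻¹ : ℝ) : ℂ) • F.pm P := by
  ext1 i j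
  show R05_ev F L hL k (R05_M F P L hL i j) = (((Real.sqrt (L k))⁻¹ : ℝ) : ℂ) • F.pm P i j
  unfold R05_M Fock.pm
  rw [map_sum, Finset.smul_sum]
  refine Finset.sum_congr rfl fun b _ => ?_
  rw [R05_ev_smul, smul_comm]
  rfl

private theorem R05_map_M' {N : ℕ} (P : Fin n → Mat N) (L : ℕ → ℕ) (hL : ∀ k, 1 ≤ L k) (k : ℕ) :
    (R05_ev F L hL k).mapMatrix (R05_M' F P L hL)
      = (((Real.sqrt (L k))⁻¹ : ℝ) : ℂ) • R05_pc F P := by
  ext1 i j
  show R05_ev F L hL k (R05_M' F P L hL i j) = (((Real.sqrt (L k))⁻¹ : ℝ) : ℂ) • R05_pc F P i j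
  unfold R05_M' R05_pc
  rw [map_sum, Finset.smul_sum]
  refine Finset.sum_congr rfl fun b _ => ?_
  rw [R05_ev_smul, smul_comm]
  rfl

/-- the commutator of `pc` and `pm` -/
private theorem R05_bracket {N m : ℕ} (P : Fin n → Mat N) (Z : Fin m → Mat N)
    (Pt : ∀ b, (P b)ᵀ = P b) (Zt : ∀ i, (Z i)ᵀ = -Z i)
    (hbr : ∀ b c, P b * P c - P c * P b = ∑ i, fip (Z i) (P b * P c - P c * P b) • Z i)
    (i k : Fin N) (v : E) :
    ((R05_pc F P * F.pm P - F.pm P * R05_pc F P) i k) v =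
      ∑ l, ((Z l i k : ℝ) : ℂ) • F.rho P (Z l) v - ((∑ b, (P b * P b) i k : ℝ) : ℂ) • v := by
  have h1 := R05_mx_mul P F.c F.a i k v
  have h2 := R05_mx_mul P F.a F.c i k v
  have h3 : ((R05_pc F P * F.pm P - F.pm P * R05_pc F P) i k) v =
      ((R05_pc F P * F.pm P) i k) v - ((F.pm P * R05_pc F P) i k) v := rfl
  have h1' : ((R05_pc F P * F.pm P) i k) v =
      ∑ c, ∑ b, (((P c * P b) i k : ℝ) : ℂ) • F.c c (F.a b v) := h1
  have h2' : ((F.pm P * R05_pc F P) i k) v =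
      ∑ c, ∑ b, (((P c * P b) i k : ℝ) : ℂ) • F.a c (F.c b v) := h2
  have h4 : ((F.pm P * R05_pc F P) i k) v =
      ∑ c, ∑ b, (((P b * P c) i k : ℝ) : ℂ) • F.c c (F.a b v) +
        ((∑ b, (P b * P b) i k : ℝ) : ℂ) • v := by
    rw [h2', Finset.sum_comm, Complex.ofReal_sum, Finset.sum_smul, ← Finset.sum_add_distrib]
    refine Finset.sum_congr rfl fun c _ => ?_
    have h5 : ∀ b, (((P b * P c) i k : ℝ) : ℂ) • F.a b (F.c c v) =
        (((P b * P c) i k : ℝ) : ℂ) • F.c c (F.a b v) +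
          if b = c then (((P b * P c) i k : ℝ) : ℂ) • v else 0 := by
      intro b
      have h6 := F.ccr b c v
      rw [sub_eq_iff_eq_add] at h6
      rw [h6, smul_add, add_comm]
      congr 1
      split_ifs <;> simp
    rw [Finset.sum_congr rfl fun b _ => h5 b, Finset.sum_add_distrib, Finset.sum_ite_eq']
    simp
  have hfip : ∀ (l : Fin m) (b c : Fin n), fip (Z l) (P c * P b - P b * P c) =
      fip (P c) (Z l * P b - P b * Z l) := by
    intro l b c
    unfold fip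
    rw [Zt, Pt, Matrix.neg_mul, Matrix.mul_sub, Matrix.mul_sub, Matrix.trace_neg,
      Matrix.trace_sub, Matrix.trace_sub, ← Matrix.mul_assoc, ← Matrix.mul_assoc,
      ← Matrix.mul_assoc, ← Matrix.mul_assoc]
    have e1 : (Z l * P b * P c).trace = (P c * Z l * P b).trace := by
      rw [Matrix.trace_mul_comm, ← Matrix.mul_assoc]
    have e2 : (Z l * P c * P b).trace = (P c * P b * Z l).trace := by
      rw [Matrix.mul_assoc, Matrix.trace_mul_comm]
    rw [e1, e2]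
    ring
  have hrho : ∑ l, ((Z l i k : ℝ) : ℂ) • F.rho P (Z l) v =
      ∑ c, ∑ b, (((P c * P b - P b * P c) i k : ℝ) : ℂ) • F.c c (F.a b v) := by
    have e1 : ∀ l, ((Z l i k : ℝ) : ℂ) • F.rho P (Z l) v = ∑ c, ∑ b,
        (((fip (Z l) (P c * P b - P b * P c) * Z l i k : ℝ)) : ℂ) • F.c c (F.a b v) := by
      intro l
      unfold Fock.rho
      rw [LinearMap.sum_apply, Finset.smul_sum, Finset.sum_comm]
      refine Finset.sum_congr rfl fun b _ => ?_
      rw [LinearMap.sum_apply, Finset.smul_sum]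
      refine Finset.sum_congr rfl fun c _ => ?_
      rw [LinearMap.smul_apply, smul_smul, ← Complex.ofReal_mul, hfip, mul_comm]
      rfl
    rw [Finset.sum_congr rfl fun l _ => e1 l, Finset.sum_comm]
    refine Finset.sum_congr rfl fun c _ => ?_
    rw [Finset.sum_comm]
    refine Finset.sum_congr rfl fun b _ => ?_
    rw [← Finset.sum_smul, ← Complex.ofReal_sum]
    congr 2
    have h7 := congrFun (congrFun (hbr c b) i) k
    rw [h7, Matrix.sum_apply]
    rfl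
  rw [h3, h1', h4, hrho, sub_add_eq_sub_sub, ← Finset.sum_sub_distrib]
  congr 1
  refine Finset.sum_congr rfl fun c _ => ?_
  rw [← Finset.sum_sub_distrib]
  refine Finset.sum_congr rfl fun b _ => ?_
  rw [← sub_smul, Matrix.sub_apply, Complex.ofReal_sub]

private theorem R05_norm {ι κ V : Type} [Fintype ι] [DecidableEq ι] [Fintype κ]
    [NormedAddCommGroup V] [InnerProductSpace ℂ V] (q : ι → κ → ℝ)
    (hq : ∀ α β, ∑ k, q α k * q β k = if α = β then 1 else 0) (c : ι → V) :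
    ∑ k, ‖∑ α, ((q α k : ℝ) : ℂ) • c α‖ ^ 2 = ∑ α, ‖c α‖ ^ 2 := by
  have h1 : ∀ k, ((‖∑ α, ((q α k : ℝ) : ℂ) • c α‖ ^ 2 : ℝ) : ℂ) =
      ∑ α, ∑ β, ((q α k * q β k : ℝ) : ℂ) * inner ℂ (c α) (c β) := by
    intro k
    have := inner_self_eq_norm_sq_to_K (𝕜 := ℂ) (∑ α, ((q α k : ℝ) : ℂ) • c α)
    rw [Complex.ofReal_pow]
    refine this.symm.trans ?_
    rw [sum_inner]
    refine Finset.sum_congr rfl fun α _ => ?_
    rw [inner_sum]
    refine Finset.sum_congr rfl fun β _ => ?_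
    rw [inner_smul_left, inner_smul_right, Complex.conj_ofReal]
    push_cast
    ring
  have h2 : ((∑ k, ‖∑ α, ((q α k : ℝ) : ℂ) • c α‖ ^ 2 : ℝ) : ℂ) = ((∑ α, ‖c α‖ ^ 2 : ℝ) : ℂ) := by
    rw [Complex.ofReal_sum, Finset.sum_congr rfl fun k _ => h1 k, Finset.sum_comm]
    rw [Complex.ofReal_sum]
    refine Finset.sum_congr rfl fun α _ => ?_
    rw [Finset.sum_comm]
    have h3 : ∀ β, ∑ k, ((q α k * q β k : ℝ) : ℂ) * inner ℂ (c α) (c β) =
        if α = β then inner ℂ (c α) (c β) else 0 := by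
      intro β
      rw [← Finset.sum_mul, ← Complex.ofReal_sum, hq]
      split_ifs <;> simp
    rw [Finset.sum_congr rfl fun β _ => h3 β, Finset.sum_ite_eq]
    simp only [Finset.mem_univ, if_true]
    rw [Complex.ofReal_pow]
    exact inner_self_eq_norm_sq_to_K (𝕜 := ℂ) (c α)
  exact_mod_cast h2

private theorem R05_fip {N : ℕ} (X Y : Mat N) :
    fip X Y = ∑ p : Fin N × Fin N, X p.1 p.2 * Y p.1 p.2 := by
  unfold fip
  rw [Matrix.trace, Fintype.sum_prod_type, Finset.sum_comm]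
  refine Finset.sum_congr rfl fun i _ => ?_
  rw [Matrix.diag_apply, Matrix.mul_apply]
  rfl

/-- The operator given by a matrix of operators. -/
private def R05_op {N : ℕ} {V : Type} [NormedAddCommGroup V] [InnerProductSpace ℂ V]
    (M : Matrix (Fin N) (Fin N) (Module.End ℂ V)) :
    Module.End ℂ (PiLp 2 (fun _ : Fin N => V)) where
  toFun ζ := WithLp.toLp 2 (fun i => ∑ j, M i j (ζ j))
  map_add' ζ η := by
    ext i
    simp [Finset.sum_add_distrib]
  map_smul' c ζ := by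
    ext i
    simp [Finset.smul_sum]

private theorem R05_op_apply {N : ℕ} {V : Type} [NormedAddCommGroup V] [InnerProductSpace ℂ V]
    (M : Matrix (Fin N) (Fin N) (Module.End ℂ V)) (ζ : PiLp 2 (fun _ : Fin N => V)) (i : Fin N) :
    R05_op M ζ i = ∑ j, M i j (ζ j) := rfl

private theorem R05_op_mul {N : ℕ} {V : Type} [NormedAddCommGroup V] [InnerProductSpace ℂ V]
    (M M' : Matrix (Fin N) (Fin N) (Module.End ℂ V)) :
    R05_op (M * M') = R05_op M * R05_op M' := by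
  refine LinearMap.ext fun ζ => ?_
  ext i
  rw [Module.End.mul_apply, R05_op_apply, R05_op_apply]
  simp only [R05_op_apply, Matrix.mul_apply, LinearMap.sum_apply, Module.End.mul_apply, map_sum]
  exact Finset.sum_comm

private theorem R05_op_one {N : ℕ} {V : Type} [NormedAddCommGroup V] [InnerProductSpace ℂ V] :
    R05_op (1 : Matrix (Fin N) (Fin N) (Module.End ℂ V)) = 1 := by
  refine LinearMap.ext fun ζ => ?_
  ext i
  rw [R05_op_apply, Finset.sum_eq_single i]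
  · rw [Matrix.one_apply_eq]
    rfl
  · intro j _ hj
    rw [Matrix.one_apply_ne (Ne.symm hj)]
    rfl
  · simp

private theorem R05_op_pow {N : ℕ} {V : Type} [NormedAddCommGroup V] [InnerProductSpace ℂ V]
    (M : Matrix (Fin N) (Fin N) (Module.End ℂ V)) (n : ℕ) :
    R05_op (M ^ n) = R05_op M ^ n := by
  induction n with
  | zero => rw [pow_zero, pow_zero, R05_op_one]
  | succ n ih => rw [pow_succ, pow_succ, R05_op_mul, ih]

private theorem R05_single {N : ℕ} {V : Type} [NormedAddCommGroup V] [InnerProductSpace ℂ V]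
    (M : Matrix (Fin N) (Fin N) (Module.End ℂ V)) (i : Fin N) (ψ : V) :
    inner ℂ (R05_op M (WithLp.toLp 2 (Pi.single i ψ))) (WithLp.toLp 2 (Pi.single i ψ)) =
      inner ℂ (M i i ψ) ψ := by
  rw [PiLp.inner_apply, Finset.sum_eq_single i]
  · rw [R05_op_apply, Finset.sum_eq_single i]
    · simp
    · intro j _ hj
      simp [Pi.single_eq_of_ne hj]
    · simp
  · intro j _ hj
    simp [Pi.single_eq_of_ne hj]
  · simp

private theorem R05_norm_single {N : ℕ} {V : Type} [NormedAddCommGroup V] [InnerProductSpace ℂ V]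
    (i : Fin N) (ψ : V) :
    ‖(WithLp.toLp 2 (Pi.single i ψ) : PiLp 2 (fun _ : Fin N => V))‖ ^ 2 = ‖ψ‖ ^ 2 := by
  rw [PiLp.norm_sq_eq_of_L2, Finset.sum_eq_single i]
  · simp
  · intro j _ hj
    simp [Pi.single_eq_of_ne hj]
  · simp

private theorem R05_pm_apply {N : ℕ} (P : Fin n → Mat N) (i k : Fin N) (v : E) :
    F.pm P i k v = ∑ b, ((P b i k : ℝ) : ℂ) • F.a b v := by
  unfold Fock.pm
  rw [LinearMap.sum_apply]
  rfl

private theorem R05_pc_adj {N : ℕ} (P : Fin n → Mat N) (Pt : ∀ b, (P b)ᵀ = P b) (i k : Fin N)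
    (u v : E) : inner ℂ (R05_pc F P i k u) v = inner ℂ u (F.pm P k i v) := by
  rw [R05_pm_apply, inner_sum]
  have h : R05_pc F P i k u = ∑ b, ((P b i k : ℝ) : ℂ) • F.c b u := by
    unfold R05_pc
    rw [LinearMap.sum_apply]
    rfl
  rw [h, sum_inner]
  refine Finset.sum_congr rfl fun b _ => ?_
  have e : P b k i = P b i k := by
    have := congrFun (congrFun (Pt b) i) k
    rwa [Matrix.transpose_apply] at this
  rw [inner_smul_left, inner_smul_right, Complex.conj_ofReal, F.adj, e]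

private theorem R05_inner {N : ℕ} (P : Fin n → Mat N) (Pt : ∀ b, (P b)ᵀ = P b)
    (ζ η : PiLp 2 (fun _ : Fin N => E)) :
    inner ℂ (R05_op (R05_pc F P * F.pm P) ζ) η =
      ∑ k, inner ℂ (∑ j, F.pm P k j (ζ j)) (∑ i, F.pm P k i (η i)) := by
  rw [PiLp.inner_apply]
  have h1 : ∀ i, inner ℂ (R05_op (R05_pc F P * F.pm P) ζ i) (η i) =
      ∑ j, ∑ k, inner ℂ (F.pm P k j (ζ j)) (F.pm P k i (η i)) := by
    intro i
    rw [R05_op_apply, sum_inner]
    refine Finset.sum_congr rfl fun j _ => ?_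
    have e : (R05_pc F P * F.pm P) i j (ζ j) = ∑ k, R05_pc F P i k (F.pm P k j (ζ j)) := by
      rw [Matrix.mul_apply, LinearMap.sum_apply]
      rfl
    rw [e, sum_inner]
    exact Finset.sum_congr rfl fun k _ => R05_pc_adj F P Pt i k _ _
  rw [Finset.sum_congr rfl fun i _ => h1 i]
  have h2 : ∀ k, inner ℂ (∑ j, F.pm P k j (ζ j)) (∑ i, F.pm P k i (η i)) =
      ∑ i, ∑ j, inner ℂ (F.pm P k j (ζ j)) (F.pm P k i (η i)) := by
    intro k
    rw [inner_sum]
    refine Finset.sum_congr rfl fun i _ => ?_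
    rw [sum_inner]
  rw [Finset.sum_congr rfl fun k _ => h2 k, Finset.sum_comm (s := (Finset.univ : Finset (Fin N)))
    (t := (Finset.univ : Finset (Fin N)))
    (f := fun k i => ∑ j, inner ℂ (F.pm P k j (ζ j)) (F.pm P k i (η i)))]
  refine Finset.sum_congr rfl fun i _ => ?_
  exact Finset.sum_comm

private theorem R05_pos {N : ℕ} (hN : 0 < N) (P : Fin n → Mat N) (Pt : ∀ b, (P b)ᵀ = P b)
    (Po : ∀ i j, fip (P i) (P j) = if i = j then 1 else 0) (p : ℕ) (hp1 : 1 ≤ p) (ψ : E) :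
    ∃ i : Fin N, ((∑ b, ‖F.a b ψ‖ ^ 2) / N) ^ p ≤
      (inner ℂ (((R05_pc F P * F.pm P) ^ p) i i ψ) ψ).re * (‖ψ‖ ^ 2) ^ (p - 1) := by
  have hNR : (0 : ℝ) < N := by exact_mod_cast hN
  set S : ℝ := ∑ b, ‖F.a b ψ‖ ^ 2 with hS
  have hS0 : 0 ≤ S := Finset.sum_nonneg fun _ _ => sq_nonneg _
  have hTii : ∀ i, (inner ℂ ((R05_pc F P * F.pm P) i i ψ) ψ).re = ∑ k, ‖F.pm P k i ψ‖ ^ 2 := by
    intro i
    have e : (R05_pc F P * F.pm P) i i ψ = ∑ k, R05_pc F P i k (F.pm P k i ψ) := by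
      rw [Matrix.mul_apply, LinearMap.sum_apply]
      rfl
    rw [e, sum_inner, Complex.re_sum]
    refine Finset.sum_congr rfl fun k _ => ?_
    rw [R05_pc_adj F P Pt, inner_self_eq_norm_sq_to_K (𝕜 := ℂ)]
    norm_cast
  have hsum : ∑ i, (inner ℂ ((R05_pc F P * F.pm P) i i ψ) ψ).re = S := by
    rw [Finset.sum_congr rfl fun i _ => hTii i, hS]
    have h := R05_norm (ι := Fin n) (κ := Fin N × Fin N) (fun b p => P b p.1 p.2) (by
      intro α β
      rw [← R05_fip, Po]) (fun b => F.a b ψ)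
    rw [← h, Fintype.sum_prod_type, Finset.sum_comm]
    refine Finset.sum_congr rfl fun k _ => Finset.sum_congr rfl fun i _ => ?_
    rw [R05_pm_apply]
  obtain ⟨i, hi⟩ : ∃ i : Fin N, S / N ≤ (inner ℂ ((R05_pc F P * F.pm P) i i ψ) ψ).re := by
    by_contra hcon
    push Not at hcon
    have hne : (Finset.univ : Finset (Fin N)).Nonempty := ⟨⟨0, hN⟩, Finset.mem_univ _⟩
    have := Finset.sum_lt_sum_of_nonempty hne (fun i _ => hcon i)
    rw [hsum, Finset.sum_const, Finset.card_univ, Fintype.card_fin, nsmul_eq_mul,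
      mul_div_cancel₀ _ hNR.ne'] at this
    exact lt_irrefl _ this
  refine ⟨i, ?_⟩
  have hs : ∀ x y : PiLp 2 (fun _ : Fin N => E),
      inner ℂ (R05_op (R05_pc F P * F.pm P) x) y =
        inner ℂ x (R05_op (R05_pc F P * F.pm P) y) := by
    intro x y
    rw [← inner_conj_symm x, R05_inner F P Pt, R05_inner F P Pt, map_sum]
    refine Finset.sum_congr rfl fun k _ => ?_
    rw [inner_conj_symm]
  have hp : ∀ x : PiLp 2 (fun _ : Fin N => E),
      0 ≤ (inner ℂ (R05_op (R05_pc F P * F.pm P) x) x).re := by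
    intro x
    rw [R05_inner F P Pt, Complex.re_sum]
    exact Finset.sum_nonneg fun k _ => inner_self_nonneg (𝕜 := ℂ)
  have key := pos_pow (R05_op (R05_pc F P * F.pm P)) hs hp
    (WithLp.toLp 2 (Pi.single i ψ)) p hp1
  rw [← R05_op_pow, R05_single, R05_single, R05_norm_single] at key
  refine le_trans ?_ key
  exact pow_le_pow_left₀ (div_nonneg hS0 hNR.le) hi p

end R05basic

theorem fock_lower {N n m : ℕ} (P : Fin n → Mat N) (Z : Fin m → Mat N)
    (Pt : ∀ b, (P b)ᵀ = P b) (Zt : ∀ i, (Z i)ᵀ = -Z i)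
    (Po : ∀ i j, fip (P i) (P j) = if i = j then 1 else 0)
    (Zo : ∀ i j, fip (Z i) (Z j) = if i = j then 1 else 0)
    (hbr : ∀ b c, P b * P c - P c * P b = ∑ i, fip (Z i) (P b * P c - P c * P b) • Z i)
    {E : Type} [NormedAddCommGroup E] [InnerProductSpace ℂ E] (F : Fock n E) :
    ∃ c : ℝ, 0 < c ∧ ∃ M₀ : ℕ, ∀ M : ℕ, M₀ ≤ M → ∀ s : E, F.num s = (M : ℂ) • s →
      (∀ j, 1 ≤ j → j ≤ N → (F.pm P ^ j).trace s = 0) →
      c * (M : ℝ) ^ 2 * ‖s‖ ^ 2 ≤ ∑ i, ‖F.rho P (Z i) s‖ ^ 2 := by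
  classical
  rcases Nat.eq_zero_or_pos N with hN | hN
  · subst hN
    have hn : n = 0 := by
      by_contra hn
      have h1 := Po ⟨0, Nat.pos_of_ne_zero hn⟩ ⟨0, Nat.pos_of_ne_zero hn⟩
      rw [if_pos rfl] at h1
      have h2 : fip (P ⟨0, Nat.pos_of_ne_zero hn⟩) (P ⟨0, Nat.pos_of_ne_zero hn⟩) = 0 := by
        unfold fip
        simp [Matrix.trace]
      linarith
    subst hn
    refine ⟨1, one_pos, 1, ?_⟩
    intro M hM s hs _
    have h1 : F.num s = 0 := by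
      rw [R05_num]
      simp
    rw [h1] at hs
    have h2 : s = 0 := by
      rcases smul_eq_zero.1 hs.symm with h | h
      · exfalso
        have : M = 0 := by exact_mod_cast h
        omega
      · exact h
    rw [h2, norm_zero]
    simp
  by_contra hcon
  push Not at hcon
  have hseq : ∀ k : ℕ, ∃ (l : ℕ) (s : E), k + 1 ≤ l ∧ F.num s = (l : ℂ) • s ∧ ‖s‖ = 1 ∧
      (∀ j, 1 ≤ j → j ≤ N → (F.pm P ^ j).trace s = 0) ∧
      ∑ i, ‖F.rho P (Z i) s‖ ^ 2 < (l : ℝ) ^ 2 / ((k : ℝ) + 1) := by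
    intro k
    obtain ⟨l, hl, s, hs, htr, h⟩ := hcon (1 / ((k : ℝ) + 1)) (by positivity) (k + 1)
    have hne : ‖s‖ ≠ 0 := by
      intro h0
      rw [h0] at h
      have : 0 ≤ ∑ i, ‖F.rho P (Z i) s‖ ^ 2 := by positivity
      have h2 : 1 / ((k : ℝ) + 1) * (l : ℝ) ^ 2 * 0 ^ 2 = 0 := by ring
      rw [h2] at h
      linarith
    refine ⟨l, (((‖s‖)⁻¹ : ℝ) : ℂ) • s, hl, ?_, ?_, ?_, ?_⟩
    · rw [map_smul, hs, smul_comm]
    · rw [norm_smul, Complex.norm_real, Real.norm_of_nonneg (by positivity)]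
      field_simp
    · intro j hj hjN
      rw [map_smul, htr j hj hjN, smul_zero]
    · have e : ∀ i, ‖F.rho P (Z i) ((((‖s‖)⁻¹ : ℝ) : ℂ) • s)‖ ^ 2
          = (‖s‖ ^ 2)⁻¹ * ‖F.rho P (Z i) s‖ ^ 2 := by
        intro i
        rw [map_smul, norm_smul, Complex.norm_real,
          Real.norm_of_nonneg (by positivity), mul_pow, inv_pow]
      rw [Finset.sum_congr rfl fun b _ => e b, ← Finset.mul_sum]
      have hp : 0 < ‖s‖ ^ 2 := by positivity
      rw [inv_mul_lt_iff₀ hp]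
      calc _ < _ := h
        _ = ‖s‖ ^ 2 * ((l : ℝ) ^ 2 / ((k : ℝ) + 1)) := by ring
  choose L s hLk hs hn htr hQ using hseq
  have hL : ∀ k, 1 ≤ L k := fun k => by
    have := hLk k
    omega
  have := R05_two F L hL
  let _ : Algebra ℚ (R05_R F L hL) :=
    Algebra.compHom (R05_R F L hL) (algebraMap ℚ ℂ)
  have h1 : ∀ i j k l, R05_M F P L hL i j * R05_M F P L hL k l
      - R05_M F P L hL k l * R05_M F P L hL i j ∈ R05_I F L hL := fun i j k l =>
    R05_comm (R05_I F L hL) _ _ (fun b c => by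
      rw [R05_al_al]
      exact Ideal.zero_mem _) _ _
  have h2 : ∀ i j k l, R05_M F P L hL i j * R05_M' F P L hL k l
      - R05_M' F P L hL k l * R05_M F P L hL i j ∈ R05_I F L hL := fun i j k l =>
    R05_comm (R05_I F L hL) _ _ (fun b c => R05_al_ga F L hL b c) _ _
  have h3 : ∀ i j k l, R05_M' F P L hL i j * R05_M' F P L hL k l
      - R05_M' F P L hL k l * R05_M' F P L hL i j ∈ R05_I F L hL := fun i j k l =>
    R05_comm (R05_I F L hL) _ _ (fun b c => by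
      rw [R05_ga_ga]
      exact Ideal.zero_mem _) _ _
  have htr' : ∀ j, 1 ≤ j → j ≤ N → (R05_M F P L hL ^ j).trace ∈ R05_J F L hL s hs := by
    intro j hj hjN
    rw [R05_mem_J]
    have e3 : ∀ t, ((R05_M F P L hL ^ j).trace : ℕ → Module.End ℂ E) t (s t) = 0 := by
      intro t
      have e1 : R05_ev F L hL t ((R05_M F P L hL ^ j).trace)
          = ((((Real.sqrt (L t))⁻¹ : ℝ) : ℂ) ^ j) • (F.pm P ^ j).trace := by
        rw [AddMonoidHom.map_trace]
        have e2 : (R05_M F P L hL ^ j).map (R05_ev F L hL t)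
            = (R05_ev F L hL t).mapMatrix (R05_M F P L hL ^ j) := rfl
        rw [e2, map_pow, R05_map_M, smul_pow, Matrix.trace_smul]
      rw [← R05_ev_apply, e1, LinearMap.smul_apply, htr t j hj hjN, smul_zero]
    simp only [e3, norm_zero]
    exact tendsto_const_nhds
  have hnorm : ∀ i j, (R05_M' F P L hL * R05_M F P L hL
      - R05_M F P L hL * R05_M' F P L hL) i j ∈ R05_J F L hL s hs := by
    intro i j
    rw [R05_mem_J]
    have key : ∀ t, ((R05_M' F P L hL * R05_M F P L hL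
      - R05_M F P L hL * R05_M' F P L hL) i j : ℕ → Module.End ℂ E) t (s t)
        = (((L t : ℝ)⁻¹ : ℝ) : ℂ) •
          (((R05_pc F P * F.pm P - F.pm P * R05_pc F P) i j) (s t)) := by
      intro t
      rw [← R05_ev_apply]
      have e1 : R05_ev F L hL t ((R05_M' F P L hL * R05_M F P L hL
          - R05_M F P L hL * R05_M' F P L hL) i j)
          = ((R05_ev F L hL t).mapMatrix (R05_M' F P L hL * R05_M F P L hL
          - R05_M F P L hL * R05_M' F P L hL)) i j := rfl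
      rw [e1, map_sub, map_mul, map_mul, R05_map_M, R05_map_M', Matrix.smul_mul,
        Matrix.mul_smul, smul_smul, Matrix.smul_mul, Matrix.mul_smul, smul_smul, ← smul_sub,
        R05_sq]
      rfl
    have hb : ∀ t, ‖((R05_M' F P L hL * R05_M F P L hL
      - R05_M F P L hL * R05_M' F P L hL) i j : ℕ → Module.End ℂ E) t (s t)‖
        ≤ (∑ l, |Z l i j|) * Real.sqrt (1 / ((t : ℝ) + 1)) +
          |∑ b, (P b * P b) i j| / (L t : ℝ) := by
      intro t
      have hLt : (0 : ℝ) < L t := by exact_mod_cast hL t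
      rw [key t, R05_bracket F P Z Pt Zt hbr, smul_sub]
      refine (norm_sub_le _ _).trans (add_le_add ?_ ?_)
      · rw [norm_smul, Complex.norm_real, Real.norm_of_nonneg (by positivity)]
        have h1 : ‖∑ l, ((Z l i j : ℝ) : ℂ) • F.rho P (Z l) (s t)‖ ≤
            ∑ l, |Z l i j| * (L t * Real.sqrt (1 / ((t : ℝ) + 1))) := by
          refine (norm_sum_le _ _).trans (Finset.sum_le_sum fun l _ => ?_)
          rw [norm_smul, Complex.norm_real, Real.norm_eq_abs]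
          refine mul_le_mul_of_nonneg_left ?_ (abs_nonneg _)
          have h3 : ‖F.rho P (Z l) (s t)‖ ^ 2 ≤ (L t : ℝ) ^ 2 / ((t : ℝ) + 1) := by
            refine le_trans ?_ (hQ t).le
            exact Finset.single_le_sum (f := fun l => ‖F.rho P (Z l) (s t)‖ ^ 2)
              (fun b _ => by positivity) (Finset.mem_univ l)
          refine (sq_le_sq₀ (norm_nonneg _) (by positivity)).1 ?_
          rw [mul_pow, Real.sq_sqrt (by positivity)]
          calc _ ≤ _ := h3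
            _ = _ := by ring
        calc ((L t : ℝ))⁻¹ * ‖∑ l, ((Z l i j : ℝ) : ℂ) • F.rho P (Z l) (s t)‖
            ≤ ((L t : ℝ))⁻¹ * ∑ l, |Z l i j| * (L t * Real.sqrt (1 / ((t : ℝ) + 1))) := by
              gcongr
          _ = (∑ l, |Z l i j|) * Real.sqrt (1 / ((t : ℝ) + 1)) := by
              rw [← Finset.sum_mul]
              field_simp
      · rw [norm_smul, norm_smul, hn t, mul_one, Complex.norm_real, Complex.norm_real,
          Real.norm_of_nonneg (by positivity : (0 : ℝ) ≤ ((L t : ℝ))⁻¹), Real.norm_eq_abs,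
          inv_mul_eq_div]
    have hlim : Tendsto (fun t : ℕ => (∑ l, |Z l i j|) * Real.sqrt (1 / ((t : ℝ) + 1))
        + |∑ b, (P b * P b) i j| / (L t : ℝ)) atTop (𝓝 0) := by
      have h1 : Tendsto (fun t : ℕ => Real.sqrt (1 / ((t : ℝ) + 1))) atTop (𝓝 0) := by
        have h0 : Tendsto (fun t : ℕ => Real.sqrt (1 / ((t : ℝ) + 1))) atTop (𝓝 (Real.sqrt 0)) :=
          (Real.continuous_sqrt.tendsto 0).comp tendsto_one_div_add_atTop_nhds_zero_nat
        rwa [Real.sqrt_zero] at h0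
      have h2 := (h1.const_mul (∑ l, |Z l i j|)).add (R05_tend L hLk |∑ b, (P b * P b) i j|)
      simpa using h2
    exact squeeze_zero (fun k => norm_nonneg _) hb hlim
  have hfin := SBD.nc_nilpotent2 (R05_I F L hL) (R05_J F L hL s hs)
    (R05_I_le F L hL hLk s hs hn) (R05_M F P L hL) (R05_M' F P L hL) h1 h2 h3 htr' hnorm
  -- the contradiction
  have hsum : Tendsto (fun t => ∑ i : Fin N,
      ‖(((R05_M' F P L hL * R05_M F P L hL) ^ N) i i : ℕ → Module.End ℂ E) t (s t)‖)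
      atTop (𝓝 0) := by
    have : Tendsto (fun t => ∑ i : Fin N,
      ‖(((R05_M' F P L hL * R05_M F P L hL) ^ N) i i : ℕ → Module.End ℂ E) t (s t)‖)
      atTop (𝓝 (∑ i : Fin N, (0:ℝ))) := by
      refine tendsto_finsetSum _ fun i _ => ?_
      exact (R05_mem_J F L hL s hs _).1 (hfin i i)
    simpa using this
  have hNr : (0 : ℝ) < N := by exact_mod_cast hN
  have hlow : ∀ t : ℕ, (1 / (N : ℝ)) ^ N ≤ ∑ i : Fin N,
      ‖(((R05_M' F P L hL * R05_M F P L hL) ^ N) i i : ℕ → Module.End ℂ E) t (s t)‖ := by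
    intro t
    obtain ⟨i, hi⟩ := R05_pos F hN P Pt Po N hN (s t)
    have hLt : (0 : ℝ) < L t := by exact_mod_cast hL t
    refine le_trans ?_ (Finset.single_le_sum (f := fun i : Fin N =>
      ‖(((R05_M' F P L hL * R05_M F P L hL) ^ N) i i : ℕ → Module.End ℂ E) t (s t)‖)
      (fun b _ => norm_nonneg _) (Finset.mem_univ i))
    have key : (((R05_M' F P L hL * R05_M F P L hL) ^ N) i i : ℕ → Module.End ℂ E) t (s t)
        = (((L t : ℝ)⁻¹ : ℝ) : ℂ) ^ N • (((R05_pc F P * F.pm P) ^ N) i i (s t)) := by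
      rw [← R05_ev_apply]
      have e1 : R05_ev F L hL t (((R05_M' F P L hL * R05_M F P L hL) ^ N) i i)
          = ((R05_ev F L hL t).mapMatrix ((R05_M' F P L hL * R05_M F P L hL) ^ N)) i i := rfl
      rw [e1, map_pow, map_mul, R05_map_M, R05_map_M', Matrix.smul_mul,
        Matrix.mul_smul, smul_smul, R05_sq, smul_pow]
      rfl
    rw [key, norm_smul, norm_pow, Complex.norm_real, Real.norm_of_nonneg (by positivity)]
    rw [hn t] at hi
    have e3 : (inner ℂ (((R05_pc F P * F.pm P) ^ N) i i (s t)) (s t)).re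
        ≤ ‖((R05_pc F P * F.pm P) ^ N) i i (s t)‖ := by
      refine (Complex.re_le_norm _).trans ((norm_inner_le_norm _ _).trans ?_)
      rw [hn t, mul_one]
    have e5 := R05_norm_a F (s t)
    rw [hs t, inner_smul_left, inner_self_eq_norm_sq_to_K, hn t] at e5
    have e7 : ∑ b, ‖F.a b (s t)‖ ^ 2 = (L t : ℝ) := by
      rw [e5]
      simp
    rw [e7] at hi
    calc (1 / (N : ℝ)) ^ N = ((L t : ℝ)⁻¹ * ((L t : ℝ) / N)) ^ N := by
          congr 1
          field_simp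
      _ = ((L t : ℝ)⁻¹) ^ N * ((L t : ℝ) / N) ^ N := mul_pow _ _ _
      _ ≤ ((L t : ℝ)⁻¹) ^ N * ‖((R05_pc F P * F.pm P) ^ N) i i (s t)‖ := by
          gcongr
          refine hi.trans ?_
          simpa using e3
  have hpos : (0 : ℝ) < (1 / (N : ℝ)) ^ N := by positivity
  obtain ⟨t, ht1⟩ := (hsum.eventually (gt_mem_nhds hpos)).exists
  exact absurd (hlow t) (not_le.2 ht1)

end SBD
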