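import Pool.Agent.SBD.Fil

/-!
# Row SBD-R06 : the Fock space of polynomials

`E` = `MvPolynomial (Fin n) ℂ` with the Fischer inner product `⟨x^α, x^β⟩ = δ_{αβ} α!`
(conjugate linear in the first variable), `c b` = multiplication by `x_b`, `a b` = `∂_b`.
(E.g. `E` := a type synonym of `(Fin n →₀ ℕ) →₀ ℂ` with an `InnerProductSpace.Core`;
`inner f g = ∑_{α ∈ f.support} α! conj(f α) g α`.)  `⟨x_b x^α, x^β⟩ = ⟨x^α, ∂_b x^β⟩`: both are
`β!` if `α + e_b = β`, else 0.
-/

open scoped Matrix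

noncomputable section

namespace SBD

/-- `α!` -/
def r06_fac {n : ℕ} (α : Fin n →₀ ℕ) : ℝ := ∏ b, ((α b).factorial : ℝ)

theorem r06_fac_pos {n : ℕ} (α : Fin n →₀ ℕ) : 0 < r06_fac α :=
  Finset.prod_pos fun b _ => by exact_mod_cast Nat.factorial_pos _

theorem r06_fac_add {n : ℕ} (α : Fin n →₀ ℕ) (b : Fin n) :
    r06_fac (Finsupp.single b 1 + α) = r06_fac α * ((α b : ℝ) + 1) := by
  unfold r06_fac
  have h1 : ∀ c : Fin n, (((Finsupp.single b 1 + α : Fin n →₀ ℕ) c).factorial : ℝ) =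
      ((α c).factorial : ℝ) * (if c = b then ((α b : ℝ) + 1) else 1) := by
    intro c
    by_cases hc : c = b
    · subst hc
      rw [if_pos rfl, Finsupp.add_apply, Finsupp.single_eq_same, Nat.add_comm, Nat.factorial_succ]
      push_cast
      ring
    · rw [if_neg hc, mul_one, Finsupp.add_apply, Finsupp.single_eq_of_ne hc, zero_add]
  rw [Finset.prod_congr rfl fun c _ => h1 c, Finset.prod_mul_distrib]
  congr 1
  rw [Finset.prod_ite_eq' Finset.univ b, if_pos (Finset.mem_univ b)]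

/-- the Fischer inner product -/
def r06_ip {n : ℕ} (f g : MvPolynomial (Fin n) ℂ) : ℂ :=
  ∑ α ∈ f.support, (r06_fac α : ℂ) * (starRingEnd ℂ (f.coeff α) * g.coeff α)

theorem r06_ip_sub {n : ℕ} (f g : MvPolynomial (Fin n) ℂ) (S : Finset (Fin n →₀ ℕ))
    (h : f.support ⊆ S) :
    r06_ip f g = ∑ α ∈ S, (r06_fac α : ℂ) * (starRingEnd ℂ (f.coeff α) * g.coeff α) := by
  unfold r06_ip
  refine Finset.sum_subset h fun α _ hα => ?_
  rw [MvPolynomial.notMem_support_iff.1 hα, map_zero, zero_mul, mul_zero]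

/-- the core -/
@[reducible] def r06_core (n : ℕ) : InnerProductSpace.Core ℂ (MvPolynomial (Fin n) ℂ) where
  inner := r06_ip
  conj_inner_symm f g := by
    classical
    show starRingEnd ℂ (r06_ip g f) = r06_ip f g
    rw [r06_ip_sub g f (f.support ∪ g.support) Finset.subset_union_right,
      r06_ip_sub f g (f.support ∪ g.support) Finset.subset_union_left, map_sum]
    refine Finset.sum_congr rfl fun α _ => ?_
    rw [map_mul, map_mul, Complex.conj_ofReal, starRingEnd_self_apply]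
    ring
  re_inner_nonneg f := by
    show 0 ≤ RCLike.re (r06_ip f f)
    unfold r06_ip
    rw [map_sum]
    refine Finset.sum_nonneg fun α _ => ?_
    rw [← Complex.normSq_eq_conj_mul_self, ← Complex.ofReal_mul]
    exact mul_nonneg (r06_fac_pos α).le (Complex.normSq_nonneg _)
  add_left f g h := by
    classical
    show r06_ip (f + g) h = r06_ip f h + r06_ip g h
    rw [r06_ip_sub (f + g) h (f.support ∪ g.support) MvPolynomial.support_add,
      r06_ip_sub f h (f.support ∪ g.support) Finset.subset_union_left,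
      r06_ip_sub g h (f.support ∪ g.support) Finset.subset_union_right, ← Finset.sum_add_distrib]
    refine Finset.sum_congr rfl fun α _ => ?_
    rw [MvPolynomial.coeff_add, map_add]
    ring
  smul_left f g r := by
    show r06_ip (r • f) g = starRingEnd ℂ r * r06_ip f g
    rw [r06_ip_sub (r • f) g f.support MvPolynomial.support_smul]
    unfold r06_ip
    rw [Finset.mul_sum]
    refine Finset.sum_congr rfl fun α _ => ?_
    rw [MvPolynomial.coeff_smul, smul_eq_mul, map_mul]
    ring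
  definite f hf := by
    have hf' : r06_ip f f = 0 := hf
    have h1 : ∑ α ∈ f.support, r06_fac α * Complex.normSq (f.coeff α) = 0 := by
      have h2 : ((∑ α ∈ f.support, r06_fac α * Complex.normSq (f.coeff α) : ℝ) : ℂ) = 0 := by
        rw [← hf']
        unfold r06_ip
        push_cast
        refine Finset.sum_congr rfl fun α _ => ?_
        rw [Complex.normSq_eq_conj_mul_self]
      exact_mod_cast h2
    rw [Finset.sum_eq_zero_iff_of_nonneg fun α _ =>
      mul_nonneg (r06_fac_pos α).le (Complex.normSq_nonneg _)] at h1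
    ext α
    rw [MvPolynomial.coeff_zero]
    by_contra hne
    have h2 := h1 α (MvPolynomial.mem_support_iff.2 hne)
    rcases mul_eq_zero.1 h2 with h3 | h3
    · exact (r06_fac_pos α).ne' h3
    · exact hne (Complex.normSq_eq_zero.1 h3)

theorem r06_adj {n : ℕ} (b : Fin n) (u v : MvPolynomial (Fin n) ℂ) :
    r06_ip (MvPolynomial.X b * u) v = r06_ip u (MvPolynomial.pderiv b v) := by
  unfold r06_ip
  rw [MvPolynomial.support_X_mul, Finset.sum_map]
  refine Finset.sum_congr rfl fun α _ => ?_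
  rw [addLeftEmbedding_apply, MvPolynomial.coeff_X_mul, r06_fac_add, MvPolynomial.coeff_pderiv,
    add_comm (Finsupp.single b 1) α]
  push_cast
  ring

theorem r06_comm {n : ℕ} (b b' : Fin n) (v : MvPolynomial (Fin n) ℂ) :
    MvPolynomial.pderiv b (MvPolynomial.pderiv b' v) =
      MvPolynomial.pderiv b' (MvPolynomial.pderiv b v) := by
  ext α
  rw [MvPolynomial.coeff_pderiv, MvPolynomial.coeff_pderiv, MvPolynomial.coeff_pderiv,
    MvPolynomial.coeff_pderiv, add_right_comm α (Finsupp.single b 1)]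
  by_cases h : b = b'
  · rw [h]
  · rw [Finsupp.add_apply, Finsupp.add_apply, Finsupp.single_eq_of_ne h,
      Finsupp.single_eq_of_ne (Ne.symm h), add_zero, add_zero]
    ring

theorem r06_gen (n : ℕ) (E₀ : Type) [AddCommGroup E₀] [Module ℂ E₀]
    (core : InnerProductSpace.Core ℂ E₀) (a c : Fin n → E₀ →ₗ[ℂ] E₀)
    (adj : ∀ b u v, core.inner (c b u) v = core.inner u (a b v))
    (ccr : ∀ b b' (v : E₀), a b (c b' v) - c b' (a b v) = if b = b' then v else 0)
    (aa : ∀ b b' (v : E₀), a b (a b' v) = a b' (a b v))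
    {P : Type} [AddCommMonoid P] [Module ℂ P] (φ : P ≃ₗ[ℂ] E₀) :
    ∃ (E : Type) (_ : NormedAddCommGroup E) (_ : InnerProductSpace ℂ E) (F : Fock n E)
      (ψ : P ≃ₗ[ℂ] E), (∀ b s t, φ t = c b (φ s) → ψ t = F.c b (ψ s)) ∧
        ∀ b s t, φ t = a b (φ s) → ψ t = F.a b (ψ s) := by
  let iN : NormedAddCommGroup E₀ := core.toNormedAddCommGroup
  let iI : InnerProductSpace ℂ E₀ := InnerProductSpace.ofCore core.toCore
  exact ⟨E₀, iN, iI, ⟨a, c, adj, ccr, aa⟩, φ, fun b s t h => h, fun b s t h => h⟩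

/-- annihilation -/
def r06_a {n : ℕ} (b : Fin n) : MvPolynomial (Fin n) ℂ →ₗ[ℂ] MvPolynomial (Fin n) ℂ :=
  (MvPolynomial.pderiv b).toLinearMap

/-- creation -/
def r06_c {n : ℕ} (b : Fin n) : MvPolynomial (Fin n) ℂ →ₗ[ℂ] MvPolynomial (Fin n) ℂ :=
  LinearMap.mulLeft ℂ (MvPolynomial.X b)

theorem r06_a_apply {n : ℕ} (b : Fin n) (v : MvPolynomial (Fin n) ℂ) :
    r06_a b v = MvPolynomial.pderiv b v := rfl

theorem r06_c_apply {n : ℕ} (b : Fin n) (v : MvPolynomial (Fin n) ℂ) :
    r06_c b v = MvPolynomial.X b * v := rfl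

theorem r06_ccr {n : ℕ} (b b' : Fin n) (v : MvPolynomial (Fin n) ℂ) :
    r06_a b (r06_c b' v) - r06_c b' (r06_a b v) = if b = b' then v else 0 := by
  rw [r06_c_apply, r06_a_apply, r06_c_apply, r06_a_apply, MvPolynomial.pderiv_mul,
    add_sub_cancel_right]
  split_ifs with h
  · rw [h, MvPolynomial.pderiv_X_self, one_mul]
  · rw [MvPolynomial.pderiv_X_of_ne (Ne.symm h), zero_mul]

theorem exists_fock (n : ℕ) : ∃ (E : Type) (_ : NormedAddCommGroup E)
    (_ : InnerProductSpace ℂ E) (F : Fock n E) (φ : MvPolynomial (Fin n) ℂ ≃ₗ[ℂ] E),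
    (∀ b s, φ (MvPolynomial.X b * s) = F.c b (φ s)) ∧
    (∀ b s, φ (MvPolynomial.pderiv b s) = F.a b (φ s)) := by
  obtain ⟨E, iN, iI, F, ψ, h1, h2⟩ := r06_gen n (MvPolynomial (Fin n) ℂ) (r06_core n)
    r06_a r06_c (fun b u v => r06_adj b u v) (fun b b' v => r06_ccr b b' v)
    (fun b b' v => r06_comm b b' v) (LinearEquiv.refl ℂ (MvPolynomial (Fin n) ℂ))
  exact ⟨E, iN, iI, F, ψ, fun b s => h1 b s _ rfl, fun b s => h2 b s _ rfl⟩

end SBD
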