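import Pool.Agent.SBD.R03

/-!
# Row SBD-R07 : consequences on polynomials; the orthogonal decomposition

Given `E, F, φ` as in R06.
* `num_homog` : `num (φ s) = φ (∑ X_b ∂_b s) = m φ s` for `s` homogeneous of degree `m` (Euler).
* `rho_fock` : `φ (A.rho i s) = F.rho A.P (A.Z i) (φ s)`: `rho i s = ∑_b rho(X_b) ∂_b s`
  (`MvPolynomial.mkDerivation`, e.g. `Derivation` ext on generators or `mkDerivationₗ`).
* `decomp` : `s` homogeneous of degree `m` can be written `s = h + ∑_{j<m} tr(PX^{j+1}) q_j`, `h`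
  homogeneous of degree `m` with `tr(pm^{j+1}) (φ h) = 0` for all `j`, `q_j` homogeneous of degree
  `m - (j+1)`.  Let `U` ⊂ `φ (homogeneous of degree m)` be the finite-dimensional subspace of all
  `φ(∑ tr(PX^{j+1}) q_j)`; `φ s = u + φ h` with `u ∈ U`, `φ h ⊥ U` (orthogonal projection), `h`
  homogeneous of degree `m`.  The operator `tr(pm^{j})` is `p_j(a)`, `p_j = tr(PX^j)` with real
  coefficients, whose adjoint is `p_j(c)`, i.e. multiplication by `p_j`:
  `⟨φ(p_j q), φ h⟩ = ⟨φ q, tr(pm^j) φ h⟩` (induct on `j` with matrix entries: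
  `⟨φ((PX^j)_{ik} q), y⟩ = ⟨φ q, (pm^j)_{ki}… y⟩`; the order of the commuting factors does not matter,
  `P_b` symmetric).  So `tr(pm^j)φ h`, which is `φ` of a homogeneous polynomial of degree `m - j`
  (0 if `j > m`), is orthogonal to all `φ q`, `q` homogeneous of degree `m - j`: it is 0.
-/

open scoped Matrix

noncomputable section

namespace SBD

namespace LieRep

variable {N : ℕ} {V : Type} [NormedAddCommGroup V] [InnerProductSpace ℂ V] (A : LieRep N V)

variable {E : Type} [NormedAddCommGroup E] [InnerProductSpace ℂ E] (F : Fock A.n E)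
  (φ : MvPolynomial (Fin A.n) ℂ ≃ₗ[ℂ] E) (h1 : ∀ b s, φ (MvPolynomial.X b * s) = F.c b (φ s))
  (h2 : ∀ b s, φ (MvPolynomial.pderiv b s) = F.a b (φ s))

omit [NormedAddCommGroup V] [InnerProductSpace ℂ V] in
private theorem r07_dsum {ι : Type} {n : ℕ} (t : Finset ι)
    (D : ι → Derivation ℂ (MvPolynomial (Fin n) ℂ) (MvPolynomial (Fin n) ℂ))
    (s : MvPolynomial (Fin n) ℂ) : (∑ b ∈ t, D b) s = ∑ b ∈ t, D b s := by
  classical
  induction t using Finset.induction_on with
  | empty => simp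
  | insert a t ha ih => rw [Finset.sum_insert ha, Finset.sum_insert ha, Derivation.add_apply, ih]

include h1 h2

theorem num_homog {m : ℕ} {s : MvPolynomial (Fin A.n) ℂ} (hs : s.IsHomogeneous m) :
    F.num (φ s) = (m : ℂ) • φ s := by
  have h := hs.sum_X_mul_pderiv
  calc F.num (φ s) = ∑ b, (F.c b ∘ₗ F.a b) (φ s) := by rw [Fock.num, LinearMap.sum_apply]
    _ = ∑ b, φ (MvPolynomial.X b * MvPolynomial.pderiv b s) :=
      Finset.sum_congr rfl fun b _ => by rw [LinearMap.comp_apply, h1, h2]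
    _ = φ (∑ b, MvPolynomial.X b * MvPolynomial.pderiv b s) := (map_sum φ _ _).symm
    _ = (m : ℂ) • φ s := by rw [h, map_nsmul, Nat.cast_smul_eq_nsmul]

theorem rho_fock (i : Fin A.m) (s : MvPolynomial (Fin A.n) ℂ) :
    φ (A.rho i s) = F.rho A.P (A.Z i) (φ s) := by
  classical
  have hD : A.rho i = ∑ b, (∑ c, MvPolynomial.C
      ((fip (A.P c) (A.Z i * A.P b - A.P b * A.Z i) : ℝ) : ℂ) * MvPolynomial.X c) •
        MvPolynomial.pderiv b := by
    refine MvPolynomial.derivation_ext fun j => ?_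
    rw [LieRep.rho, MvPolynomial.mkDerivation_X, r07_dsum]
    symm
    refine (Finset.sum_eq_single j ?_ ?_).trans ?_
    · intro b _ hb
      rw [Derivation.smul_apply, MvPolynomial.pderiv_X_of_ne (Ne.symm hb), smul_zero]
    · intro h
      exact absurd (Finset.mem_univ j) h
    · rw [Derivation.smul_apply, MvPolynomial.pderiv_X_self, smul_eq_mul, mul_one]
  have hval : A.rho i s = ∑ b, ∑ c, ((fip (A.P c) (A.Z i * A.P b - A.P b * A.Z i) : ℝ) : ℂ) •
      (MvPolynomial.X c * MvPolynomial.pderiv b s) := by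
    rw [hD, r07_dsum]
    refine Finset.sum_congr rfl fun b _ => ?_
    rw [Derivation.smul_apply, smul_eq_mul, Finset.sum_mul]
    refine Finset.sum_congr rfl fun c _ => ?_
    rw [MvPolynomial.smul_eq_C_mul, mul_assoc]
  rw [hval, map_sum, Fock.rho, LinearMap.sum_apply]
  refine Finset.sum_congr rfl fun b _ => ?_
  rw [map_sum, LinearMap.sum_apply]
  refine Finset.sum_congr rfl fun c _ => ?_
  rw [map_smul, h1, h2]
  rfl

private theorem r07_pm (hq : ∀ b : Fin A.n, ∀ i k, A.P b i k = A.P b k i) (i k : Fin N) :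
    F.pm A.P i k = F.pm A.P k i := by
  rw [Fock.pm]
  exact Finset.sum_congr rfl fun b _ => by rw [hq b i k]

private theorem r07_PX (i k : Fin N) (r : MvPolynomial (Fin A.n) ℂ) (y : E) :
    inner ℂ (φ (A.PX i k * r)) y = inner ℂ (φ r) (F.pm A.P i k y) := by
  have e1 : A.PX i k * r = ∑ b, ((A.P b i k : ℝ) : ℂ) • (MvPolynomial.X b * r) := by
    rw [LieRep.PX, Finset.sum_mul]
    refine Finset.sum_congr rfl fun b _ => ?_
    rw [MvPolynomial.smul_eq_C_mul, mul_assoc]
  have e2 : F.pm A.P i k y = ∑ b, ((A.P b i k : ℝ) : ℂ) • F.a b y := by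
    rw [Fock.pm, LinearMap.sum_apply]
    rfl
  rw [e1, e2, map_sum, sum_inner, inner_sum]
  refine Finset.sum_congr rfl fun b _ => ?_
  rw [map_smul, inner_smul_left, inner_smul_right, Complex.conj_ofReal, h1, F.adj]

private theorem r07_adj (j : ℕ) : ∀ (i k : Fin N) (r : MvPolynomial (Fin A.n) ℂ) (y : E),
    inner ℂ (φ ((A.PX ^ j) i k * r)) y = inner ℂ (φ r) ((F.pm A.P ^ j) k i y) := by
  classical
  have hsym : ∀ b : Fin A.n, ∀ i k, A.P b i k = A.P b k i := fun b i k => by
    conv_lhs => rw [← A.P_t b]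
    rfl
  induction j with
  | zero =>
    intro i k r y
    rw [pow_zero, pow_zero]
    by_cases h : i = k
    · subst h
      rw [Matrix.one_apply_eq, Matrix.one_apply_eq, one_mul]
      rfl
    · rw [Matrix.one_apply_ne h, Matrix.one_apply_ne (Ne.symm h), zero_mul, map_zero, inner_zero_left]
      rw [LinearMap.zero_apply, inner_zero_right]
  | succ j ih =>
    intro i k r y
    have e1 : (A.PX ^ (j + 1)) i k * r = ∑ l, A.PX i l * ((A.PX ^ j) l k * r) := by
      rw [pow_succ', Matrix.mul_apply, Finset.sum_mul]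
      exact Finset.sum_congr rfl fun l _ => mul_assoc _ _ _
    have e2 : (F.pm A.P ^ (j + 1)) k i y = ∑ l, (F.pm A.P ^ j) k l (F.pm A.P l i y) := by
      rw [pow_succ, Matrix.mul_apply, LinearMap.sum_apply]
      rfl
    rw [e1, e2, map_sum, sum_inner, inner_sum]
    refine Finset.sum_congr rfl fun l _ => ?_
    rw [r07_PX A F φ h1 h2, ih, r07_pm A F φ h1 h2 hsym i l]

private theorem r07_tr (j : ℕ) (r : MvPolynomial (Fin A.n) ℂ) (y : E) :
    inner ℂ (φ ((A.PX ^ j).trace * r)) y = inner ℂ (φ r) ((F.pm A.P ^ j).trace y) := by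
  have e2 : (F.pm A.P ^ j).trace y = ∑ i, (F.pm A.P ^ j) i i y := by
    rw [Matrix.trace, LinearMap.sum_apply]
    rfl
  rw [e2, Matrix.trace, Finset.sum_mul, map_sum, sum_inner, inner_sum]
  exact Finset.sum_congr rfl fun i _ => r07_adj A F φ h1 h2 j i i r y

private theorem r07_deg {m : ℕ} {q : MvPolynomial (Fin A.n) ℂ} (hq : q.IsHomogeneous m) (j : ℕ) :
    ∀ i k : Fin N, ∃ y : MvPolynomial (Fin A.n) ℂ, (F.pm A.P ^ j) i k (φ q) = φ y ∧
      y.IsHomogeneous (m - j) ∧ (m < j → y = 0) := by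
  classical
  induction j with
  | zero =>
    intro i k
    by_cases h : i = k
    · subst h
      refine ⟨q, ?_, hq, fun h => absurd h (Nat.not_lt_zero _)⟩
      rw [pow_zero, Matrix.one_apply_eq]
      rfl
    · refine ⟨0, ?_, MvPolynomial.isHomogeneous_zero _ _ _, fun _ => rfl⟩
      rw [pow_zero, Matrix.one_apply_ne h, map_zero]
      rfl
  | succ j ih =>
    intro i k
    choose y hy1 hy2 hy3 using fun l => ih l k
    refine ⟨∑ l, ∑ b, ((A.P b i l : ℝ) : ℂ) • MvPolynomial.pderiv b (y l), ?_, ?_, ?_⟩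
    · have e2 : (F.pm A.P ^ (j + 1)) i k (φ q) =
          ∑ l, F.pm A.P i l ((F.pm A.P ^ j) l k (φ q)) := by
        rw [pow_succ', Matrix.mul_apply, LinearMap.sum_apply]
        rfl
      rw [e2, map_sum]
      refine Finset.sum_congr rfl fun l _ => ?_
      have e3 : F.pm A.P i l (φ (y l)) = ∑ b, ((A.P b i l : ℝ) : ℂ) • F.a b (φ (y l)) := by
        rw [Fock.pm, LinearMap.sum_apply]
        rfl
      rw [hy1, e3, map_sum]
      exact Finset.sum_congr rfl fun b _ => by rw [map_smul, h2]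
    · refine MvPolynomial.IsHomogeneous.sum _ _ _ fun l _ =>
        MvPolynomial.IsHomogeneous.sum _ _ _ fun b _ => ?_
      rw [MvPolynomial.smul_eq_C_mul]
      have e4 := (MvPolynomial.isHomogeneous_C (Fin A.n) ((A.P b i l : ℝ) : ℂ)).mul
        ((hy2 l).pderiv (i := b))
      have e5 : 0 + (m - j - 1) = m - (j + 1) := by omega
      rwa [e5] at e4
    · intro hm
      refine Finset.sum_eq_zero fun l _ => Finset.sum_eq_zero fun b _ => ?_
      have e6 : MvPolynomial.pderiv b (y l) = 0 := by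
        rcases Nat.lt_or_ge m j with h | h
        · rw [hy3 l h, map_zero]
        · have e7 : m - j = 0 := by omega
          have e8 := hy2 l
          rw [e7] at e8
          have e9 := MvPolynomial.totalDegree_eq_zero_iff_eq_C.1
            (Nat.le_zero.1 e8.totalDegree_le)
          rw [e9, MvPolynomial.pderiv_C]
      rw [e6, smul_zero]

theorem decomp {m : ℕ} {s : MvPolynomial (Fin A.n) ℂ} (hs : s.IsHomogeneous m) :
    ∃ (h : MvPolynomial (Fin A.n) ℂ) (q : Fin m → MvPolynomial (Fin A.n) ℂ),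
      h.IsHomogeneous m ∧ (∀ j : ℕ, 1 ≤ j → (F.pm A.P ^ j).trace (φ h) = 0) ∧
      (∀ j : Fin m, (q j).IsHomogeneous (m - (j + 1))) ∧
      s = h + ∑ j : Fin m, (A.PX ^ ((j : ℕ) + 1)).trace * q j := by
  classical
  let Λ : (∀ j : Fin m, MvPolynomial.homogeneousSubmodule (Fin A.n) ℂ (m - (j + 1))) →ₗ[ℂ] E :=
    { toFun := fun q => φ (∑ j : Fin m, (A.PX ^ ((j : ℕ) + 1)).trace *
        ((q j : MvPolynomial.homogeneousSubmodule (Fin A.n) ℂ (m - (j + 1))) :
          MvPolynomial (Fin A.n) ℂ))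
      map_add' := fun q q' => by
        rw [← map_add, ← Finset.sum_add_distrib]
        congr 1
        refine Finset.sum_congr rfl fun j _ => ?_
        rw [Pi.add_apply, Submodule.coe_add, mul_add]
      map_smul' := fun c q => by
        rw [RingHom.id_apply, ← map_smul, Finset.smul_sum]
        congr 1
        refine Finset.sum_congr rfl fun j _ => ?_
        rw [Pi.smul_apply, Submodule.coe_smul, mul_smul_comm] }
  have hΛ : ∀ q, Λ q = φ (∑ j : Fin m, (A.PX ^ ((j : ℕ) + 1)).trace *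
        ((q j : MvPolynomial.homogeneousSubmodule (Fin A.n) ℂ (m - (j + 1))) :
          MvPolynomial (Fin A.n) ℂ)) := fun _ => rfl
  have hfin : ∀ j : Fin m, FiniteDimensional ℂ
      (MvPolynomial.homogeneousSubmodule (Fin A.n) ℂ (m - (j + 1))) := fun j =>
    Module.Finite.iff_fg.2 (MvPolynomial.homogeneousSubmodule_fg (Fin A.n) ℂ (m - (j + 1)))
  have hfin2 : FiniteDimensional ℂ (LinearMap.range Λ) := inferInstance
  obtain ⟨u, hu, w, hw, huw⟩ := (LinearMap.range Λ).exists_add_mem_mem_orthogonal (φ s)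
  obtain ⟨q, rfl⟩ := hu
  have hsum : (∑ j : Fin m, (A.PX ^ ((j : ℕ) + 1)).trace *
      ((q j : MvPolynomial.homogeneousSubmodule (Fin A.n) ℂ (m - (j + 1))) :
          MvPolynomial (Fin A.n) ℂ)).IsHomogeneous m := by
    refine MvPolynomial.IsHomogeneous.sum _ _ _ fun j _ => ?_
    have e1 : (A.PX ^ ((j : ℕ) + 1)).trace.IsHomogeneous ((j : ℕ) + 1) := by
      rw [Matrix.trace]
      exact MvPolynomial.IsHomogeneous.sum _ _ _ fun i _ => A.PX_homog _ i i
    have e2 := e1.mul (q j).2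
    have e3 : (j : ℕ) + 1 + (m - ((j : ℕ) + 1)) = m := by
      have := j.2
      omega
    rwa [e3] at e2
  obtain ⟨h, hh⟩ : ∃ h : MvPolynomial (Fin A.n) ℂ, h = s - ∑ j : Fin m,
      (A.PX ^ ((j : ℕ) + 1)).trace *
      ((q j : MvPolynomial.homogeneousSubmodule (Fin A.n) ℂ (m - (j + 1))) :
          MvPolynomial (Fin A.n) ℂ) := ⟨_, rfl⟩
  have hhom : h.IsHomogeneous m := by
    rw [hh]
    exact hs.sub hsum
  have hφ : φ h = w := by
    rw [hh, map_sub, ← hΛ, huw, add_sub_cancel_left]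
  refine ⟨h, fun j => (q j : MvPolynomial (Fin A.n) ℂ), hhom, fun j hj => ?_, fun j => (q j).2, ?_⟩
  · choose y hy1 hy2 hy3 using fun i => r07_deg A F φ h1 h2 hhom j i i
    have ht : (F.pm A.P ^ j).trace (φ h) = φ (∑ i, y i) := by
      rw [Matrix.trace, LinearMap.sum_apply, map_sum]
      exact Finset.sum_congr rfl fun i _ => hy1 i
    rcases Nat.lt_or_ge m j with hm | hm
    · rw [ht, Finset.sum_eq_zero fun i _ => hy3 i hm, map_zero]
    · have hyh : (∑ i, y i).IsHomogeneous (m - j) :=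
        MvPolynomial.IsHomogeneous.sum _ _ _ fun i _ => hy2 i
      obtain ⟨j', rfl⟩ : ∃ j', j = j' + 1 := ⟨j - 1, by omega⟩
      have hmem : φ ((A.PX ^ (j' + 1)).trace * ∑ i, y i) ∈ LinearMap.range Λ := by
        refine ⟨Pi.single (⟨j', by omega⟩ : Fin m) ⟨∑ i, y i, hyh⟩, ?_⟩
        rw [hΛ]
        congr 1
        rw [Finset.sum_eq_single (⟨j', by omega⟩ : Fin m)]
        · rw [Pi.single_eq_same]
        · intro b _ hb
          rw [Pi.single_eq_of_ne hb, Submodule.coe_zero, mul_zero]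
        · intro hn
          exact absurd (Finset.mem_univ _) hn
      have h0 := Submodule.inner_right_of_mem_orthogonal hmem hw
      rw [← hφ, r07_tr A F φ h1 h2, ht] at h0
      rw [ht]
      exact inner_self_eq_zero.1 h0
  · rw [hh, sub_add_cancel]

end LieRep

end SBD

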