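import Pool.Agent.SBD.R05
import Pool.Agent.SBD.R06
import Pool.Agent.SBD.R07

/-!
# Row SBD-R08 : Casimir eigenvectors of bounded eigenvalue have bounded degree

Let all `tr(A.X^j)`, `j ≥ 1`, be scalars, `W` finite-dimensional and stable under the `D(Z_i)`, `R : ℝ`.
There is `M₀` such that for `M ≥ M₀` every `y ∈ Fil W (M+1)` with `∑_i D(Z_i)²y = -c y`, `c ≤ R`, is in
`Fil W M`.

PROOF.  `E, F, φ` from R06 for `n = A.n`; `c₀, M₁` from R05 (`fock_lower`, with `P = A.P`, `Z = A.Z`;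
`hbr` holds by `A.basis`, since `[P_b,P_c] ∈ 𝔤` is skew-symmetric).  Let `w_1,…,w_d` be an orthonormal
basis of `W`, `D(Z_i)w_k = ∑_l τ^i_{lk} w_l`; `τ^i` is skew-hermitian.
Let `m = M+1`.  `𝓗` := the space of `s = (s_k)_{k<d}`, `s_k` homogeneous of degree `m` with
`tr(pm^j)(φ s_k) = 0` for all `j ≥ 1`; with the inner product `∑_k⟨φ s_k, φ t_k⟩`, finite-dimensional.
On `𝓗` let `(ζ_i s)_l = rho_i s_l + ∑_k τ^i_{lk}s_k`.  It maps `𝓗` to `𝓗`: `ρ(Z_i)` commutes with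
`tr(pm^j)` (invariance of `tr p^j` under `ad Z_i`: `[ρ(Z_i), pm] = -[Z_i, pm]` (or `+`) as matrices, so
`ρ(Z_i)` commutes with the trace of powers).  `ζ_i` is skew-symmetric (`ρ(Z_i)` is skew: its
coefficient matrix `fip(P_c,[Z_i,P_b])` is real antisymmetric).  For `s ∈ 𝓗`:
`(∑_i‖ζ_is‖²)^{1/2} ≥ (∑_i‖ρ(Z_i)s‖²)^{1/2} - C₀‖s‖ ≥ (√c₀ m - C₀)‖s‖` (`num_homog`, `rho_fock`, R05 for
each component; `C₀` depends on the `τ^i`).  So for `m` large the symmetric operator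
`𝒞 = -∑ζ_i²` on `𝓗` satisfies `⟨𝒞s,s⟩ = ∑‖ζ_is‖² ≥ (R+1)‖s‖²`, and `𝒞 - c` is injective on `𝓗`
for every `c ≤ R`.
Map `Σ : 𝓗 → Fil W m / Fil W (m-1)`, `Σ s = ∑_k ord(s_k)w_k` mod `Fil W (m-1)`.
 * `Σ` is onto: `fil_gen` (R02) writes `v ∈ Fil W m` as `∑ ord(s_k)w_k` mod `Fil W (m-1)` (expand the
   elements of `W` in the basis `w_k`), `decomp` (R07) replaces `s_k` by `h_k` plus multiples of the
   `tr(PX^{j+1})`, and these go to `Fil W (m-1)` by `ord_p` (R03).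
 * `D(Z_i) Σ s = Σ (ζ_i s)`: `ord_Z` (R02).
Let `K = ker Σ ⊂ 𝓗`; it is `ζ_i`-stable (`Fil_Z`), so `𝒞`-stable, and `𝒞 - c` restricted to the
finite-dimensional `K` is injective, so bijective.  Let `y` be as in the statement, `y ≡ Σ s`.  Then
`0 = (-∑D(Z_i)² - c)y ≡ Σ((𝒞-c)s)`, so `(𝒞-c)s ∈ K`, hence `(𝒞-c)s = (𝒞-c)s'` with `s' ∈ K`, `s = s'`,
`Σ s = 0`, `y ∈ Fil W (m-1) = Fil W M`.
-/

open scoped Matrix

noncomputable section

namespace SBD

theorem r08_fip_comm {N : ℕ} (X Y : Mat N) : fip X Y = fip Y X := by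
  unfold fip
  rw [← Matrix.trace_transpose, Matrix.transpose_mul, Matrix.transpose_transpose]

theorem r08_fip {N : ℕ} {X Y : Mat N} (hX : Xᵀ = -X) (hY : Yᵀ = Y) : fip X Y = 0 := by
  have h1 : fip X Y = -(X * Y).trace := by
    unfold fip
    rw [hX, neg_mul, Matrix.trace_neg]
  have h2 : fip X Y = (X * Y).trace := by
    rw [r08_fip_comm]
    unfold fip
    rw [hY, Matrix.trace_mul_comm]
  linarith

theorem r08_fip' {N : ℕ} {X Y : Mat N} (hX : Xᵀ = X) (hY : Yᵀ = -Y) : fip X Y = 0 := by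
  rw [r08_fip_comm]
  exact r08_fip hY hX

/-- the coefficients of `ρ(Y)` are antisymmetric -/
theorem r08_anti {N : ℕ} {P P' Y : Mat N} (hP : Pᵀ = P) (hP' : P'ᵀ = P') (hY : Yᵀ = -Y) :
    fip P (Y * P' - P' * Y) = -fip P' (Y * P - P * Y) := by
  unfold fip
  rw [hP, hP', mul_sub, mul_sub, Matrix.trace_sub, Matrix.trace_sub]
  have h1 : (P * (Y * P')).trace = -(P' * (Y * P)).trace := by
    rw [← Matrix.trace_transpose, Matrix.transpose_mul, Matrix.transpose_mul, hP, hP', hY,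
      mul_neg, neg_mul, Matrix.trace_neg, Matrix.mul_assoc]
  have h2 : (P * (P' * Y)).trace = -(P' * (P * Y)).trace := by
    rw [← Matrix.trace_transpose, Matrix.transpose_mul, Matrix.transpose_mul, hP, hP', hY,
      neg_mul, neg_mul, Matrix.trace_neg, Matrix.mul_assoc, Matrix.trace_mul_comm,
      Matrix.mul_assoc]
  rw [h1, h2]
  ring

namespace LieRep

variable {N : ℕ} {V : Type} [NormedAddCommGroup V] [InnerProductSpace ℂ V] (A : LieRep N V)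

theorem r08_br (b c : Fin A.n) : A.P b * A.P c - A.P c * A.P b =
    ∑ i, fip (A.Z i) (A.P b * A.P c - A.P c * A.P b) • A.Z i := by
  have ht : (A.P b * A.P c - A.P c * A.P b)ᵀ = -(A.P b * A.P c - A.P c * A.P b) := by
    rw [Matrix.transpose_sub, Matrix.transpose_mul, Matrix.transpose_mul, A.P_t, A.P_t, neg_sub]
  have h := A.basis _ (A.br _ (A.P_mem b) _ (A.P_mem c))
  have h0 : ∑ i, fip (A.P i) (A.P b * A.P c - A.P c * A.P b) • A.P i = 0 :=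
    Finset.sum_eq_zero fun i _ => by rw [r08_fip' (A.P_t i) ht, zero_smul]
  rw [h0, add_zero] at h
  exact h

theorem r08_zp (i : Fin A.m) (b : Fin A.n) : A.Z i * A.P b - A.P b * A.Z i =
    ∑ c, fip (A.P c) (A.Z i * A.P b - A.P b * A.Z i) • A.P c := by
  have ht : (A.Z i * A.P b - A.P b * A.Z i)ᵀ = A.Z i * A.P b - A.P b * A.Z i := by
    rw [Matrix.transpose_sub, Matrix.transpose_mul, Matrix.transpose_mul, A.P_t, A.Z_t, mul_neg,
      neg_mul]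
    abel
  have h := A.basis _ (A.br _ (A.Z_mem i) _ (A.P_mem b))
  have h0 : ∑ j, fip (A.Z j) (A.Z i * A.P b - A.P b * A.Z i) • A.Z j = 0 :=
    Finset.sum_eq_zero fun j _ => by rw [r08_fip (A.Z_t j) ht, zero_smul]
  rw [h0, zero_add] at h
  exact h

end LieRep

namespace Fock

variable {n N : ℕ} {E : Type} [NormedAddCommGroup E] [InnerProductSpace ℂ E] (F : Fock n E)

theorem r08_adj' (b : Fin n) (u v : E) : inner ℂ (F.a b u) v = inner ℂ u (F.c b v) := by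
  rw [← inner_conj_symm, ← F.adj, inner_conj_symm]

theorem r08_rho_apply (P : Fin n → Mat N) (Y : Mat N) (v : E) :
    F.rho P Y v = ∑ b, ∑ c, ((fip (P c) (Y * P b - P b * Y) : ℝ) : ℂ) • F.c c (F.a b v) := by
  unfold rho
  rw [LinearMap.sum_apply]
  refine Finset.sum_congr rfl fun b _ => ?_
  rw [LinearMap.sum_apply]
  rfl

/-- `ρ(Y)` is skew-symmetric -/
theorem r08_skew (P : Fin n → Mat N) (hP : ∀ b, (P b)ᵀ = P b) (Y : Mat N) (hY : Yᵀ = -Y)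
    (u v : E) : inner ℂ (F.rho P Y u) v = -inner ℂ u (F.rho P Y v) := by
  rw [r08_rho_apply, r08_rho_apply, sum_inner, inner_sum, ← Finset.sum_neg_distrib]
  have h1 : ∀ b : Fin n, inner ℂ (∑ c, ((fip (P c) (Y * P b - P b * Y) : ℝ) : ℂ) •
      F.c c (F.a b u)) v = ∑ c, ((fip (P c) (Y * P b - P b * Y) : ℝ) : ℂ) *
        inner ℂ u (F.c b (F.a c v)) := by
    intro b
    rw [sum_inner]
    refine Finset.sum_congr rfl fun c _ => ?_
    rw [inner_smul_left, Complex.conj_ofReal, F.adj, r08_adj']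
  have h2 : ∀ b : Fin n, -inner ℂ u (∑ c, ((fip (P c) (Y * P b - P b * Y) : ℝ) : ℂ) •
      F.c c (F.a b v)) = ∑ c, -(((fip (P c) (Y * P b - P b * Y) : ℝ) : ℂ) *
        inner ℂ u (F.c c (F.a b v))) := by
    intro b
    rw [inner_sum, ← Finset.sum_neg_distrib]
    refine Finset.sum_congr rfl fun c _ => ?_
    rw [inner_smul_right]
  rw [Finset.sum_congr rfl fun b _ => h1 b, Finset.sum_congr rfl fun b _ => h2 b,
    Finset.sum_comm]
  refine Finset.sum_congr rfl fun c _ => Finset.sum_congr rfl fun b _ => ?_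
  rw [r08_anti (hP c) (hP b) hY]
  push_cast
  ring

/-- the commutator with an annihilation operator -/
theorem r08_comm (P : Fin n → Mat N) (Y : Mat N) (e : Fin n) (v : E) :
    F.rho P Y (F.a e v) - F.a e (F.rho P Y v) =
      -∑ b, ((fip (P e) (Y * P b - P b * Y) : ℝ) : ℂ) • F.a b v := by
  rw [r08_rho_apply, r08_rho_apply, map_sum, ← Finset.sum_sub_distrib, ← Finset.sum_neg_distrib]
  refine Finset.sum_congr rfl fun b _ => ?_
  rw [map_sum, ← Finset.sum_sub_distrib]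
  have h1 : ∀ c : Fin n, ((fip (P c) (Y * P b - P b * Y) : ℝ) : ℂ) • F.c c (F.a b (F.a e v)) -
      F.a e (((fip (P c) (Y * P b - P b * Y) : ℝ) : ℂ) • F.c c (F.a b v)) =
      if e = c then -(((fip (P c) (Y * P b - P b * Y) : ℝ) : ℂ) • F.a b v) else 0 := by
    intro c
    have h' : F.c c (F.a e (F.a b v)) - F.a e (F.c c (F.a b v)) =
        -(if e = c then F.a b v else 0) := by
      rw [← F.ccr e c (F.a b v), neg_sub]
    rw [map_smul, ← smul_sub, F.aa b e v, h']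
    split_ifs with h
    · rw [smul_neg]
    · rw [neg_zero, smul_zero]
  rw [Finset.sum_congr rfl fun c _ => h1 c, Finset.sum_ite_eq, if_pos (Finset.mem_univ e)]

theorem r08_pm_apply (P : Fin n → Mat N) (i k : Fin N) (v : E) :
    F.pm P i k v = ∑ b, ((P b i k : ℝ) : ℂ) • F.a b v := by
  unfold pm
  rw [LinearMap.sum_apply]
  rfl

theorem r08_pm_comm (P : Fin n → Mat N) (Y : Mat N)
    (hYP : ∀ b, Y * P b - P b * Y = ∑ c, fip (P c) (Y * P b - P b * Y) • P c)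
    (i k : Fin N) (v : E) :
    F.rho P Y (F.pm P i k v) + ∑ l, ((Y i l : ℝ) : ℂ) • F.pm P l k v =
      F.pm P i k (F.rho P Y v) + ∑ l, ((Y l k : ℝ) : ℂ) • F.pm P i l v := by
  have h1 : F.rho P Y (F.pm P i k v) - F.pm P i k (F.rho P Y v) =
      -∑ b, (((Y * P b - P b * Y) i k : ℝ) : ℂ) • F.a b v := by
    rw [r08_pm_apply, r08_pm_apply, map_sum, ← Finset.sum_sub_distrib]
    have h2 : ∀ e : Fin n, F.rho P Y (((P e i k : ℝ) : ℂ) • F.a e v) -
        ((P e i k : ℝ) : ℂ) • F.a e (F.rho P Y v) =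
        -∑ b, (((fip (P e) (Y * P b - P b * Y) • P e) i k : ℝ) : ℂ) • F.a b v := by
      intro e
      rw [map_smul, ← smul_sub, r08_comm, smul_neg, Finset.smul_sum]
      congr 1
      refine Finset.sum_congr rfl fun b _ => ?_
      rw [smul_smul, Matrix.smul_apply, smul_eq_mul]
      push_cast
      rw [mul_comm]
    rw [Finset.sum_congr rfl fun e _ => h2 e, Finset.sum_neg_distrib, Finset.sum_comm]
    congr 1
    refine Finset.sum_congr rfl fun b _ => ?_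
    rw [← Finset.sum_smul]
    congr 1
    conv_rhs => rw [hYP b]
    rw [Matrix.sum_apply]
    push_cast
    rfl
  have h3 : ∑ b, (((Y * P b - P b * Y) i k : ℝ) : ℂ) • F.a b v =
      ∑ l, ((Y i l : ℝ) : ℂ) • F.pm P l k v - ∑ l, ((Y l k : ℝ) : ℂ) • F.pm P i l v := by
    have h4 : ∀ l : Fin N, ((Y i l : ℝ) : ℂ) • F.pm P l k v =
        ∑ b, (((Y i l : ℝ) : ℂ) * ((P b l k : ℝ) : ℂ)) • F.a b v := by
      intro l
      rw [r08_pm_apply, Finset.smul_sum]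
      refine Finset.sum_congr rfl fun b _ => ?_
      rw [smul_smul]
    have h5 : ∀ l : Fin N, ((Y l k : ℝ) : ℂ) • F.pm P i l v =
        ∑ b, (((P b i l : ℝ) : ℂ) * ((Y l k : ℝ) : ℂ)) • F.a b v := by
      intro l
      rw [r08_pm_apply, Finset.smul_sum]
      refine Finset.sum_congr rfl fun b _ => ?_
      rw [smul_smul, mul_comm]
    rw [Finset.sum_congr rfl fun l _ => h4 l, Finset.sum_congr rfl fun l _ => h5 l,
      Finset.sum_comm, Finset.sum_comm (f := fun l b =>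
        (((P b i l : ℝ) : ℂ) * ((Y l k : ℝ) : ℂ)) • F.a b v), ← Finset.sum_sub_distrib]
    refine Finset.sum_congr rfl fun b _ => ?_
    rw [← Finset.sum_smul, ← Finset.sum_smul, ← sub_smul]
    congr 1
    rw [Matrix.sub_apply, Matrix.mul_apply, Matrix.mul_apply]
    push_cast
    rfl
  rw [h3] at h1
  have h6 := sub_eq_iff_eq_add.1 h1
  rw [h6]
  abel

/-- `ρ(Y)` commutes with the traces -/
theorem r08_tr_comm (P : Fin n → Mat N) (Y : Mat N)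
    (hYP : ∀ b, Y * P b - P b * Y = ∑ c, fip (P c) (Y * P b - P b * Y) • P c)
    (j : ℕ) (v : E) :
    (F.pm P ^ j).trace (F.rho P Y v) = F.rho P Y ((F.pm P ^ j).trace v) := by
  obtain ⟨Q, hQ⟩ : ∃ Q : Matrix (Fin N) (Fin N) (Module.End ℂ E), Q =
      fun i k => (if i = k then (F.rho P Y : Module.End ℂ E) else 0) +
        ((Y i k : ℝ) : ℂ) • (1 : Module.End ℂ E) := ⟨_, rfl⟩
  have hmul : ∀ (T : Matrix (Fin N) (Fin N) (Module.End ℂ E)) (i k : Fin N) (v : E),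
      (Q * T) i k v = F.rho P Y (T i k v) + ∑ l, ((Y i l : ℝ) : ℂ) • T l k v := by
    intro T i k v
    rw [Matrix.mul_apply, LinearMap.sum_apply]
    have h1 : ∀ l : Fin N, (Q i l * T l k) v =
        (if i = l then F.rho P Y (T l k v) else 0) + ((Y i l : ℝ) : ℂ) • T l k v := by
      intro l
      rw [hQ]
      show ((if i = l then (F.rho P Y : Module.End ℂ E) else 0) +
        ((Y i l : ℝ) : ℂ) • (1 : Module.End ℂ E)) (T l k v) = _
      rw [LinearMap.add_apply]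
      congr 1
      split_ifs <;> rfl
    rw [Finset.sum_congr rfl fun l _ => h1 l, Finset.sum_add_distrib, Finset.sum_ite_eq,
      if_pos (Finset.mem_univ i)]
  have hmul' : ∀ (T : Matrix (Fin N) (Fin N) (Module.End ℂ E)) (i k : Fin N) (v : E),
      (T * Q) i k v = T i k (F.rho P Y v) + ∑ l, ((Y l k : ℝ) : ℂ) • T i l v := by
    intro T i k v
    rw [Matrix.mul_apply, LinearMap.sum_apply]
    have h1 : ∀ l : Fin N, (T i l * Q l k) v =
        (if l = k then T i l (F.rho P Y v) else 0) + ((Y l k : ℝ) : ℂ) • T i l v := by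
      intro l
      rw [hQ]
      show T i l (((if l = k then (F.rho P Y : Module.End ℂ E) else 0) +
        ((Y l k : ℝ) : ℂ) • (1 : Module.End ℂ E)) v) = _
      rw [LinearMap.add_apply, map_add]
      congr 1
      · split_ifs
        · rfl
        · rw [LinearMap.zero_apply, map_zero]
      · rw [LinearMap.smul_apply, map_smul]
        rfl
    rw [Finset.sum_congr rfl fun l _ => h1 l, Finset.sum_add_distrib, Finset.sum_ite_eq',
      if_pos (Finset.mem_univ k)]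
  have hc : Commute Q (F.pm P) := by
    refine Matrix.ext fun i k => LinearMap.ext fun v => ?_
    rw [hmul, hmul']
    exact r08_pm_comm F P Y hYP i k v
  have hcj : Commute Q (F.pm P ^ j) := hc.pow_right j
  have h2 : ∀ i : Fin N, F.rho P Y ((F.pm P ^ j) i i v) +
      ∑ l, ((Y i l : ℝ) : ℂ) • (F.pm P ^ j) l i v =
      (F.pm P ^ j) i i (F.rho P Y v) + ∑ l, ((Y l i : ℝ) : ℂ) • (F.pm P ^ j) i l v := by
    intro i
    rw [← hmul, ← hmul', hcj.eq]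
  have h3 : ∑ i, (F.rho P Y ((F.pm P ^ j) i i v) +
      ∑ l, ((Y i l : ℝ) : ℂ) • (F.pm P ^ j) l i v) =
      ∑ i, ((F.pm P ^ j) i i (F.rho P Y v) + ∑ l, ((Y l i : ℝ) : ℂ) • (F.pm P ^ j) i l v) :=
    Finset.sum_congr rfl fun i _ => h2 i
  rw [Finset.sum_add_distrib, Finset.sum_add_distrib,
    Finset.sum_comm (f := fun i l => ((Y i l : ℝ) : ℂ) • (F.pm P ^ j) l i v)] at h3
  have h4 := add_right_cancel h3
  unfold Matrix.trace
  simp only [Matrix.diag_apply]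
  rw [LinearMap.sum_apply, LinearMap.sum_apply, map_sum]
  exact h4.symm

end Fock

theorem r08_energy {E : Type} [NormedAddCommGroup E] [InnerProductSpace ℂ E] {d m : ℕ}
    (x : Fin d → E) (r : Fin m → Fin d → E) (τ : Fin m → Fin d → Fin d → ℂ) (c : ℝ)
    (h : ∀ l, c * ‖x l‖ ^ 2 ≤ ∑ i, ‖r i l‖ ^ 2) :
    (c / 2 - ∑ i, ∑ l, ∑ k, ‖τ i l k‖ ^ 2) * ∑ l, ‖x l‖ ^ 2 ≤
      ∑ i, ∑ l, ‖r i l + ∑ k, τ i l k • x k‖ ^ 2 := by
  have h1 : ∀ i l, ‖r i l‖ ^ 2 ≤ 2 * ‖r i l + ∑ k, τ i l k • x k‖ ^ 2 +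
      2 * ((∑ k, ‖τ i l k‖ ^ 2) * ∑ k, ‖x k‖ ^ 2) := by
    intro i l
    obtain ⟨y, hy⟩ : ∃ y, y = ∑ k, τ i l k • x k := ⟨_, rfl⟩
    rw [← hy]
    have h2 : ‖y‖ ^ 2 ≤ (∑ k, ‖τ i l k‖ ^ 2) * ∑ k, ‖x k‖ ^ 2 := by
      have h3 : ‖y‖ ≤ ∑ k, ‖τ i l k‖ * ‖x k‖ := by
        rw [hy]
        refine (norm_sum_le _ _).trans (le_of_eq ?_)
        exact Finset.sum_congr rfl fun k _ => norm_smul _ _
      have h4 := Finset.sum_mul_sq_le_sq_mul_sq Finset.univ (fun k => ‖τ i l k‖) fun k => ‖x k‖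
      exact (pow_le_pow_left₀ (norm_nonneg _) h3 2).trans h4
    have h5 : ‖r i l‖ ≤ ‖r i l + y‖ + ‖y‖ := by
      have h6 := norm_sub_le (r i l + y) y
      rwa [add_sub_cancel_right] at h6
    have h7 : ‖r i l‖ ^ 2 ≤ (‖r i l + y‖ + ‖y‖) ^ 2 := pow_le_pow_left₀ (norm_nonneg _) h5 2
    nlinarith [sq_nonneg (‖r i l + y‖ - ‖y‖)]
  have h2 : ∑ i, ∑ l, ‖r i l‖ ^ 2 ≤ 2 * ∑ i, ∑ l, ‖r i l + ∑ k, τ i l k • x k‖ ^ 2 +
      2 * ((∑ i, ∑ l, ∑ k, ‖τ i l k‖ ^ 2) * ∑ k, ‖x k‖ ^ 2) := by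
    have h3 : ∀ i, ∑ l, ‖r i l‖ ^ 2 ≤ 2 * ∑ l, ‖r i l + ∑ k, τ i l k • x k‖ ^ 2 +
        2 * ((∑ l, ∑ k, ‖τ i l k‖ ^ 2) * ∑ k, ‖x k‖ ^ 2) := by
      intro i
      rw [Finset.sum_mul, Finset.mul_sum, Finset.mul_sum, ← Finset.sum_add_distrib]
      exact Finset.sum_le_sum fun l _ => h1 i l
    rw [Finset.sum_mul, Finset.mul_sum, Finset.mul_sum, ← Finset.sum_add_distrib]
    exact Finset.sum_le_sum fun i _ => h3 i
  have h3 : c * ∑ l, ‖x l‖ ^ 2 ≤ ∑ i, ∑ l, ‖r i l‖ ^ 2 := by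
    rw [Finset.sum_comm, Finset.mul_sum]
    exact Finset.sum_le_sum fun l _ => h l
  rw [sub_mul]
  linarith

theorem r08_skew_sum {E : Type} [NormedAddCommGroup E] [InnerProductSpace ℂ E] {d : ℕ}
    (B : E →ₗ[ℂ] E) (hB : ∀ u v, inner ℂ (B u) v = -inner ℂ u (B v))
    (τ : Fin d → Fin d → ℂ) (hτ : ∀ l k, starRingEnd ℂ (τ l k) = -τ k l) (x y : Fin d → E) :
    ∑ l, inner ℂ (B (x l) + ∑ k, τ l k • x k) (y l) =
      -∑ l, inner ℂ (x l) (B (y l) + ∑ k, τ l k • y k) := by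
  have h1 : ∀ l, inner ℂ (B (x l) + ∑ k, τ l k • x k) (y l) =
      -inner ℂ (x l) (B (y l)) - ∑ k, τ k l * inner ℂ (x k) (y l) := by
    intro l
    rw [inner_add_left, hB, sum_inner, sub_eq_add_neg, ← Finset.sum_neg_distrib]
    congr 1
    refine Finset.sum_congr rfl fun k _ => ?_
    rw [inner_smul_left, hτ]
    ring
  have h2 : ∀ l, inner ℂ (x l) (B (y l) + ∑ k, τ l k • y k) =
      inner ℂ (x l) (B (y l)) + ∑ k, τ l k * inner ℂ (x l) (y k) := by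
    intro l
    rw [inner_add_right, inner_sum]
    congr 1
    refine Finset.sum_congr rfl fun k _ => ?_
    rw [inner_smul_right]
  rw [Finset.sum_congr rfl fun l _ => h1 l, Finset.sum_congr rfl fun l _ => h2 l,
    Finset.sum_sub_distrib, Finset.sum_add_distrib, Finset.sum_neg_distrib,
    Finset.sum_comm (f := fun l k => τ k l * inner ℂ (x k) (y l))]
  ring

theorem r08_zero {E : Type} [NormedAddCommGroup E] [InnerProductSpace ℂ E] {d m : ℕ}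
    (B : Fin m → E →ₗ[ℂ] E) (hB : ∀ i u v, inner ℂ (B i u) v = -inner ℂ u (B i v))
    (τ : Fin m → Fin d → Fin d → ℂ) (hτ : ∀ i l k, starRingEnd ℂ (τ i l k) = -τ i k l)
    (c c₁ R : ℝ) (hc : c ≤ R) (hR : R < c₁ / 2 - ∑ i, ∑ l, ∑ k, ‖τ i l k‖ ^ 2)
    (x : Fin d → E) (hx : ∀ l, c₁ * ‖x l‖ ^ 2 ≤ ∑ i, ‖B i (x l)‖ ^ 2)
    (z : Fin m → Fin d → E) (hz : ∀ i l, z i l = B i (x l) + ∑ k, τ i l k • x k)
    (h : ∀ l, ∑ i, (B i (z i l) + ∑ k, τ i l k • z i k) = -((c : ℂ) • x l)) (l : Fin d) :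
    x l = 0 := by
  have h1 := r08_energy x (fun i l => B i (x l)) τ c₁ hx
  have h2 : ((∑ i, ∑ l, ‖B i (x l) + ∑ k, τ i l k • x k‖ ^ 2 : ℝ) : ℂ) =
      ((c * ∑ l, ‖x l‖ ^ 2 : ℝ) : ℂ) := by
    have h3 : ∀ i, ((∑ l, ‖B i (x l) + ∑ k, τ i l k • x k‖ ^ 2 : ℝ) : ℂ) =
        -∑ l, inner ℂ (x l) (B i (z i l) + ∑ k, τ i l k • z i k) := by
      intro i
      rw [← r08_skew_sum (B i) (hB i) (τ i) (hτ i) x (z i)]
      push_cast
      refine Finset.sum_congr rfl fun l _ => ?_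
      rw [← hz, inner_self_eq_norm_sq_to_K]
      rfl
    rw [Complex.ofReal_sum, Finset.sum_congr rfl fun i _ => h3 i, Finset.sum_neg_distrib,
      Finset.sum_comm]
    have h4 : ∀ l, ∑ i, inner ℂ (x l) (B i (z i l) + ∑ k, τ i l k • z i k) =
        -((c * ‖x l‖ ^ 2 : ℝ) : ℂ) := by
      intro l
      rw [← inner_sum, h l, inner_neg_right, inner_smul_right, inner_self_eq_norm_sq_to_K]
      push_cast
      rfl
    rw [Finset.sum_congr rfl fun l _ => h4 l, Finset.sum_neg_distrib, neg_neg, Finset.mul_sum]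
    push_cast
    rfl
  have h5 : ∑ i, ∑ l, ‖B i (x l) + ∑ k, τ i l k • x k‖ ^ 2 = c * ∑ l, ‖x l‖ ^ 2 := by
    exact_mod_cast h2
  have h6 : 0 ≤ ∑ l, ‖x l‖ ^ 2 := Finset.sum_nonneg fun l _ => sq_nonneg _
  have h7 : ∑ l, ‖x l‖ ^ 2 = 0 := by
    by_contra hne
    have h8 : 0 < ∑ l, ‖x l‖ ^ 2 := lt_of_le_of_ne h6 (Ne.symm hne)
    have h9 : c * ∑ l, ‖x l‖ ^ 2 < (c₁ / 2 - ∑ i, ∑ l, ∑ k, ‖τ i l k‖ ^ 2) * ∑ l, ‖x l‖ ^ 2 :=
      mul_lt_mul_of_pos_right (lt_of_le_of_lt hc hR) h8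
    have h10 := h1
    rw [h5] at h10
    linarith
  rw [Finset.sum_eq_zero_iff_of_nonneg fun l _ => sq_nonneg _] at h7
  exact norm_eq_zero.1 (pow_eq_zero_iff (two_ne_zero)|>.1 (h7 l (Finset.mem_univ l)))

/-- linear algebra -/
theorem r08_lin {H : Type} [AddCommGroup H] [Module ℂ H] (T : H →ₗ[ℂ] H) (HH K : Submodule ℂ H)
    [FiniteDimensional ℂ K] (hKH : K ≤ HH) (hT : ∀ s ∈ HH, T s = 0 → s = 0)
    (hTK : ∀ s ∈ K, T s ∈ K) {s : H} (hs : s ∈ HH) (hTs : T s ∈ K) : s ∈ K := by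
  have hinj : Function.Injective (T.restrict hTK) := by
    rw [← LinearMap.ker_eq_bot, LinearMap.ker_eq_bot']
    intro u hu
    have h1 : T u = 0 := by
      have h2 := congrArg Subtype.val hu
      exact h2
    exact Subtype.ext (hT u (hKH u.2) h1)
  obtain ⟨u, hu⟩ := LinearMap.injective_iff_surjective.1 hinj ⟨T s, hTs⟩
  have h1 : T u = T s := congrArg Subtype.val hu
  have h2 : T (s - u) = 0 := by rw [map_sub, h1, sub_self]
  have h3 := hT _ (HH.sub_mem hs (hKH u.2)) h2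
  rw [sub_eq_zero.1 h3]
  exact u.2

namespace LieRep

variable {N : ℕ} {V : Type} [NormedAddCommGroup V] [InnerProductSpace ℂ V] (A : LieRep N V)

/-- the map `Σ` -/
def r08_Sg {d : ℕ} (e : Fin d → V) : (Fin d → MvPolynomial (Fin A.n) ℂ) →ₗ[ℂ] V where
  toFun s := ∑ k, A.ord (s k) (e k)
  map_add' s t := by
    rw [← Finset.sum_add_distrib]
    refine Finset.sum_congr rfl fun k _ => ?_
    rw [Pi.add_apply, map_add, LinearMap.add_apply]
  map_smul' c s := by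
    rw [RingHom.id_apply, Finset.smul_sum]
    refine Finset.sum_congr rfl fun k _ => ?_
    rw [Pi.smul_apply, map_smul, LinearMap.smul_apply]

theorem r08_Sg_apply {d : ℕ} (e : Fin d → V) (s : Fin d → MvPolynomial (Fin A.n) ℂ) :
    A.r08_Sg e s = ∑ k, A.ord (s k) (e k) := rfl

/-- the operator `ζ_i` -/
def r08_zt {d : ℕ} (τ : Fin d → Fin d → ℂ) (i : Fin A.m) :
    (Fin d → MvPolynomial (Fin A.n) ℂ) →ₗ[ℂ] (Fin d → MvPolynomial (Fin A.n) ℂ) where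
  toFun s l := A.rho i (s l) + ∑ k, τ l k • s k
  map_add' s t := by
    funext l
    show A.rho i (s l + t l) + ∑ k, τ l k • (s k + t k) =
      (A.rho i (s l) + ∑ k, τ l k • s k) + (A.rho i (t l) + ∑ k, τ l k • t k)
    rw [map_add, Finset.sum_congr rfl fun k _ => smul_add (τ l k) (s k) (t k),
      Finset.sum_add_distrib]
    exact add_add_add_comm _ _ _ _
  map_smul' c s := by
    funext l
    show A.rho i (c • s l) + ∑ k, τ l k • c • s k = c • (A.rho i (s l) + ∑ k, τ l k • s k)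
    rw [Derivation.map_smul, smul_add, Finset.smul_sum]
    congr 1
    exact Finset.sum_congr rfl fun k _ => smul_comm _ _ _

theorem r08_zt_apply {d : ℕ} (τ : Fin d → Fin d → ℂ) (i : Fin A.m)
    (s : Fin d → MvPolynomial (Fin A.n) ℂ) (l : Fin d) :
    A.r08_zt τ i s l = A.rho i (s l) + ∑ k, τ l k • s k := rfl

variable {E : Type} [NormedAddCommGroup E] [InnerProductSpace ℂ E] (F : Fock A.n E)
  (φ : MvPolynomial (Fin A.n) ℂ ≃ₗ[ℂ] E)

/-- the harmonic polynomials of degree `m` -/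
def r08_H (m : ℕ) : Submodule ℂ (MvPolynomial (Fin A.n) ℂ) where
  carrier := {s | s.IsHomogeneous m ∧ ∀ j, 1 ≤ j → (F.pm A.P ^ j).trace (φ s) = 0}
  add_mem' ha hb := ⟨ha.1.add hb.1, fun j hj => by
    rw [map_add, map_add, ha.2 j hj, hb.2 j hj, add_zero]⟩
  zero_mem' := ⟨MvPolynomial.isHomogeneous_zero _ _ _, fun j _ => by rw [map_zero, map_zero]⟩
  smul_mem' c s hs := ⟨(MvPolynomial.homogeneousSubmodule (Fin A.n) ℂ m).smul_mem c hs.1,
    fun j hj => by rw [map_smul, map_smul, hs.2 j hj, smul_zero]⟩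

theorem r08_H_mem {m : ℕ} {s : MvPolynomial (Fin A.n) ℂ} :
    s ∈ A.r08_H F φ m ↔ s.IsHomogeneous m ∧ ∀ j, 1 ≤ j → (F.pm A.P ^ j).trace (φ s) = 0 :=
  Iff.rfl

theorem r08_HH_fin (m d : ℕ) (K : Submodule ℂ (Fin d → MvPolynomial (Fin A.n) ℂ))
    (hK : ∀ s ∈ K, ∀ k, s k ∈ A.r08_H F φ m) : FiniteDimensional ℂ K := by
  have h1 : (Submodule.pi Set.univ fun _ : Fin d =>
      MvPolynomial.homogeneousSubmodule (Fin A.n) ℂ m).FG :=
    Submodule.fg_pi fun _ => MvPolynomial.homogeneousSubmodule_fg _ _ _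
  have h2 : K ≤ Submodule.pi Set.univ fun _ : Fin d =>
      MvPolynomial.homogeneousSubmodule (Fin A.n) ℂ m :=
    fun s hs k _ => (hK s hs k).1
  have h3 : FiniteDimensional ℂ (Submodule.pi Set.univ fun _ : Fin d =>
      MvPolynomial.homogeneousSubmodule (Fin A.n) ℂ m) := Module.Finite.iff_fg.2 h1
  exact Submodule.finiteDimensional_of_le h2

end LieRep

namespace LieRep

variable {N : ℕ} {V : Type} [NormedAddCommGroup V] [InnerProductSpace ℂ V] (A : LieRep N V)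

theorem r08_Sg_zt (W : Submodule ℂ V) (hW : ∀ i, ∀ w ∈ W, A.D (A.Z i) w ∈ W) {d m : ℕ}
    (e : Fin d → V) (he : ∀ k, e k ∈ W) (τ : Fin d → Fin d → ℂ) (i : Fin A.m)
    (hτ : ∀ k, A.D (A.Z i) (e k) = ∑ l, τ l k • e l) (s : Fin d → MvPolynomial (Fin A.n) ℂ)
    (hs : ∀ k, (s k).IsHomogeneous (m + 1)) :
    A.D (A.Z i) (A.r08_Sg e s) - A.r08_Sg e (A.r08_zt τ i s) ∈ A.Fil W m := by
  have h : A.D (A.Z i) (A.r08_Sg e s) - A.r08_Sg e (A.r08_zt τ i s) =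
      ∑ k, (A.D (A.Z i) (A.ord (s k) (e k)) - A.ord (A.rho i (s k)) (e k) -
        A.ord (s k) (A.D (A.Z i) (e k))) := by
    rw [r08_Sg_apply, r08_Sg_apply, map_sum, Finset.sum_sub_distrib, Finset.sum_sub_distrib,
      sub_sub]
    congr 1
    have h1 : ∀ k, A.ord (A.r08_zt τ i s k) (e k) = A.ord (A.rho i (s k)) (e k) +
        ∑ l, τ k l • A.ord (s l) (e k) := by
      intro k
      rw [r08_zt_apply, map_add, LinearMap.add_apply, map_sum, LinearMap.sum_apply]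
      congr 1
      refine Finset.sum_congr rfl fun l _ => ?_
      rw [map_smul, LinearMap.smul_apply]
    have h2 : ∀ k, A.ord (s k) (A.D (A.Z i) (e k)) = ∑ l, τ l k • A.ord (s k) (e l) := by
      intro k
      rw [hτ, map_sum]
      refine Finset.sum_congr rfl fun l _ => ?_
      rw [map_smul]
    rw [Finset.sum_congr rfl fun k _ => h1 k, Finset.sum_congr rfl fun k _ => h2 k,
      Finset.sum_add_distrib, Finset.sum_comm (f := fun k l => τ k l • A.ord (s l) (e k))]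
  rw [h]
  exact Submodule.sum_mem _ fun k _ => A.ord_Z W hW (hs k) (he k) i

section

variable {E : Type} [NormedAddCommGroup E] [InnerProductSpace ℂ E] (F : Fock A.n E)
  (φ : MvPolynomial (Fin A.n) ℂ ≃ₗ[ℂ] E) (h1 : ∀ b s, φ (MvPolynomial.X b * s) = F.c b (φ s))
  (h2 : ∀ b s, φ (MvPolynomial.pderiv b s) = F.a b (φ s))

include h1 h2

theorem r08_rho_H (W : Submodule ℂ V) (hW : ∀ i, ∀ w ∈ W, A.D (A.Z i) w ∈ W) {m : ℕ}
    {s : MvPolynomial (Fin A.n) ℂ} (hs : s ∈ A.r08_H F φ m) (i : Fin A.m) :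
    A.rho i s ∈ A.r08_H F φ m := by
  refine ⟨A.rho_homog W hW hs.1 i, fun j hj => ?_⟩
  rw [A.rho_fock F φ h1 h2 i s, F.r08_tr_comm A.P (A.Z i) (fun b => A.r08_zp i b), hs.2 j hj,
    map_zero]

theorem r08_zt_H (W : Submodule ℂ V) (hW : ∀ i, ∀ w ∈ W, A.D (A.Z i) w ∈ W) {m d : ℕ}
    (τ : Fin d → Fin d → ℂ) {s : Fin d → MvPolynomial (Fin A.n) ℂ}
    (hs : ∀ k, s k ∈ A.r08_H F φ m) (i : Fin A.m) (l : Fin d) :
    A.r08_zt τ i s l ∈ A.r08_H F φ m := by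
  rw [r08_zt_apply]
  exact Submodule.add_mem _ (A.r08_rho_H F φ h1 h2 W hW (hs l) i)
    (Submodule.sum_mem _ fun k _ => Submodule.smul_mem _ _ (hs k))

theorem r08_onto (htr : ∀ j, 1 ≤ j → ∃ z : ℂ, (A.X ^ j).trace = z • (1 : Module.End ℂ V))
    (W : Submodule ℂ V) (hW : ∀ i, ∀ w ∈ W, A.D (A.Z i) w ∈ W) {M d : ℕ} (e : Fin d → V)
    (he : ∀ k, e k ∈ W) (hrep : ∀ w ∈ W, w = ∑ k, inner ℂ (e k) w • e k) {y : V}
    (hy : y ∈ A.Fil W (M + 1)) :
    ∃ s : Fin d → MvPolynomial (Fin A.n) ℂ, (∀ k, s k ∈ A.r08_H F φ (M + 1)) ∧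
      y - A.r08_Sg e s ∈ A.Fil W M := by
  classical
  obtain ⟨Q, hQ⟩ : ∃ Q : Submodule ℂ V, Q = A.Fil W M ⊔
      (Submodule.pi Set.univ fun _ : Fin d => A.r08_H F φ (M + 1)).map (A.r08_Sg e) := ⟨_, rfl⟩
  have hF : A.Fil W M ≤ Q := by rw [hQ]; exact le_sup_left
  have hS : ∀ t : Fin d → MvPolynomial (Fin A.n) ℂ, (∀ k, t k ∈ A.r08_H F φ (M + 1)) →
      A.r08_Sg e t ∈ Q := by
    intro t ht
    rw [hQ]
    exact Submodule.mem_sup_right ⟨t, fun k _ => ht k, rfl⟩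
  have hb : ∀ (s : MvPolynomial (Fin A.n) ℂ), s.IsHomogeneous (M + 1) → ∀ k : Fin d,
      A.ord s (e k) ∈ Q := by
    intro s hs k
    obtain ⟨h, q, hh, hh2, hq, hdec⟩ := A.decomp F φ h1 h2 hs
    have h3 : A.ord s (e k) = A.ord h (e k) +
        ∑ j : Fin (M + 1), A.ord ((A.PX ^ ((j : ℕ) + 1)).trace * q j) (e k) := by
      conv_lhs => rw [hdec]
      rw [map_add, LinearMap.add_apply, map_sum, LinearMap.sum_apply]
    rw [h3]
    refine Submodule.add_mem _ ?_ (Submodule.sum_mem _ fun j _ => ?_)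
    · have h4 : A.ord h (e k) = A.r08_Sg e (Pi.single k h) := by
        rw [r08_Sg_apply, Finset.sum_eq_single k]
        · rw [Pi.single_eq_same]
        · intro l _ hl
          rw [Pi.single_eq_of_ne hl, map_zero, LinearMap.zero_apply]
        · intro hk
          exact absurd (Finset.mem_univ k) hk
      rw [h4]
      refine hS _ fun l => ?_
      by_cases hl : l = k
      · subst hl
        rw [Pi.single_eq_same]
        exact ⟨hh, hh2⟩
      · rw [Pi.single_eq_of_ne hl]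
        exact Submodule.zero_mem _
    · obtain ⟨z, hz⟩ := htr ((j : ℕ) + 1) (Nat.succ_le_succ (Nat.zero_le _))
      have h5 := A.ord_p W hW (hq j) (he k) ((j : ℕ) + 1) (Nat.succ_le_succ (Nat.zero_le _)) z hz
      have h6 : M + 1 - ((j : ℕ) + 1) + ((j : ℕ) + 1) - 1 = M := by
        have := j.2
        omega
      rw [h6] at h5
      exact hF h5
  have hc : ∀ (s : MvPolynomial (Fin A.n) ℂ), s.IsHomogeneous (M + 1) → ∀ w ∈ W,
      A.ord s w ∈ Q := by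
    intro s hs w hw
    rw [hrep w hw, map_sum]
    refine Submodule.sum_mem _ fun k _ => ?_
    rw [map_smul]
    exact Submodule.smul_mem _ _ (hb s hs k)
  obtain ⟨q, s, w, hsw, hyd⟩ := A.fil_gen W hW hy
  have hyQ : y ∈ Q := by
    have h3 : y = (y - ∑ k, A.ord (s k) (w k)) + ∑ k, A.ord (s k) (w k) := by
      rw [sub_add_cancel]
    rw [h3]
    exact Submodule.add_mem _ (hF hyd)
      (Submodule.sum_mem _ fun k _ => hc (s k) (hsw k).1 (w k) (hsw k).2)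
  rw [hQ] at hyQ
  obtain ⟨f, hf, g, ⟨t, ht, rfl⟩, hfg⟩ := Submodule.mem_sup.1 hyQ
  refine ⟨t, fun k => ht k (Set.mem_univ k), ?_⟩
  rw [← hfg, add_sub_cancel_right]
  exact hf

end

theorem r08_final {E : Type} [NormedAddCommGroup E] [InnerProductSpace ℂ E] (F : Fock A.n E)
    (φ : MvPolynomial (Fin A.n) ℂ ≃ₗ[ℂ] E) (h1 : ∀ b s, φ (MvPolynomial.X b * s) = F.c b (φ s))
    (h2 : ∀ b s, φ (MvPolynomial.pderiv b s) = F.a b (φ s))
    (htr : ∀ j, 1 ≤ j → ∃ z : ℂ, (A.X ^ j).trace = z • (1 : Module.End ℂ V))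
    (W : Submodule ℂ V) (hW : ∀ i, ∀ w ∈ W, A.D (A.Z i) w ∈ W) {d : ℕ} (e : Fin d → V)
    (he : ∀ k, e k ∈ W) (hrep : ∀ w ∈ W, w = ∑ k, inner ℂ (e k) w • e k)
    (τ : Fin A.m → Fin d → Fin d → ℂ)
    (hτ1 : ∀ i k, A.D (A.Z i) (e k) = ∑ l, τ i l k • e l)
    (hτ2 : ∀ i l k, starRingEnd ℂ (τ i l k) = -τ i k l) (R c₁ : ℝ) (M : ℕ)
    (hlow : ∀ s : E, F.num s = ((M + 1 : ℕ) : ℂ) • s →
      (∀ j, 1 ≤ j → j ≤ N → (F.pm A.P ^ j).trace s = 0) →
      c₁ * ‖s‖ ^ 2 ≤ ∑ i, ‖F.rho A.P (A.Z i) s‖ ^ 2)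
    (hR : R < c₁ / 2 - ∑ i, ∑ l, ∑ k, ‖τ i l k‖ ^ 2) {y : V} (hy : y ∈ A.Fil W (M + 1))
    (c : ℝ) (hc : c ≤ R) (hyc : ∑ i, A.D (A.Z i) (A.D (A.Z i) y) = -((c : ℂ) • y)) :
    y ∈ A.Fil W M := by
  obtain ⟨s, hs, hys⟩ := A.r08_onto F φ h1 h2 htr W hW e he hrep hy
  obtain ⟨T, hT⟩ : ∃ T : (Fin d → MvPolynomial (Fin A.n) ℂ) →ₗ[ℂ]
      (Fin d → MvPolynomial (Fin A.n) ℂ), ∀ t, T t =
        ∑ i, A.r08_zt (τ i) i (A.r08_zt (τ i) i t) + (c : ℂ) • t := by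
    refine ⟨∑ i, A.r08_zt (τ i) i ∘ₗ A.r08_zt (τ i) i + (c : ℂ) • LinearMap.id, fun t => ?_⟩
    rw [LinearMap.add_apply, LinearMap.sum_apply]
    rfl
  obtain ⟨HH, hHH⟩ : ∃ HH : Submodule ℂ (Fin d → MvPolynomial (Fin A.n) ℂ),
      HH = Submodule.pi Set.univ fun _ : Fin d => A.r08_H F φ (M + 1) := ⟨_, rfl⟩
  have hmem : ∀ t, t ∈ HH ↔ ∀ k, t k ∈ A.r08_H F φ (M + 1) := by
    intro t
    rw [hHH, Submodule.mem_pi]
    exact ⟨fun h k => h k (Set.mem_univ k), fun h k _ => h k⟩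
  have hzH : ∀ i, ∀ t ∈ HH, A.r08_zt (τ i) i t ∈ HH := by
    intro i t ht
    rw [hmem] at ht ⊢
    exact fun l => A.r08_zt_H F φ h1 h2 W hW (τ i) ht i l
  have hTH : ∀ t ∈ HH, T t ∈ HH := by
    intro t ht
    rw [hT]
    exact Submodule.add_mem _ (Submodule.sum_mem _ fun i _ => hzH i _ (hzH i t ht))
      (Submodule.smul_mem _ _ ht)
  have hSz : ∀ i, ∀ t ∈ HH, A.D (A.Z i) (A.r08_Sg e t) - A.r08_Sg e (A.r08_zt (τ i) i t) ∈
      A.Fil W M := by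
    intro i t ht
    rw [hmem] at ht
    exact A.r08_Sg_zt W hW e he (τ i) i (hτ1 i) t fun k => (ht k).1
  have hSzz : ∀ i, ∀ t ∈ HH, A.D (A.Z i) (A.D (A.Z i) (A.r08_Sg e t)) -
      A.r08_Sg e (A.r08_zt (τ i) i (A.r08_zt (τ i) i t)) ∈ A.Fil W M := by
    intro i t ht
    have h3 := A.Fil_Z W hW (hSz i t ht) i
    have h4 := hSz i _ (hzH i t ht)
    have h5 := Submodule.add_mem _ h3 h4
    rw [map_sub, sub_add_sub_cancel] at h5
    exact h5
  have hST : ∀ t ∈ HH, (∑ i, A.D (A.Z i) (A.D (A.Z i) (A.r08_Sg e t)) +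
      (c : ℂ) • A.r08_Sg e t) - A.r08_Sg e (T t) ∈ A.Fil W M := by
    intro t ht
    rw [hT, map_add, map_sum, map_smul, add_sub_add_right_eq_sub, ← Finset.sum_sub_distrib]
    exact Submodule.sum_mem _ fun i _ => hSzz i t ht
  obtain ⟨K, hK⟩ : ∃ K : Submodule ℂ (Fin d → MvPolynomial (Fin A.n) ℂ),
      K = HH ⊓ (A.Fil W M).comap (A.r08_Sg e) := ⟨_, rfl⟩
  have hKmem : ∀ t, t ∈ K ↔ t ∈ HH ∧ A.r08_Sg e t ∈ A.Fil W M := by
    intro t
    rw [hK]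
    exact Iff.rfl
  have hKfin : FiniteDimensional ℂ K :=
    A.r08_HH_fin F φ (M + 1) d K fun t ht => (hmem t).1 ((hKmem t).1 ht).1
  have hKT : ∀ t ∈ K, T t ∈ K := by
    intro t ht
    rw [hKmem] at ht ⊢
    refine ⟨hTH t ht.1, ?_⟩
    have h3 : ∑ i, A.D (A.Z i) (A.D (A.Z i) (A.r08_Sg e t)) + (c : ℂ) • A.r08_Sg e t ∈
        A.Fil W M :=
      Submodule.add_mem _ (Submodule.sum_mem _ fun i _ =>
        A.Fil_Z W hW (A.Fil_Z W hW ht.2 i) i) (Submodule.smul_mem _ _ ht.2)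
    have h4 := Submodule.sub_mem _ h3 (hST t ht.1)
    rwa [sub_sub_cancel] at h4
  have hinj : ∀ t ∈ HH, T t = 0 → t = 0 := by
    intro t ht hTt
    have htm := (hmem t).1 ht
    have h3 : ∀ l, φ (t l) = 0 := by
      refine r08_zero (fun i => F.rho A.P (A.Z i))
        (fun i u v => F.r08_skew A.P A.P_t (A.Z i) (A.Z_t i) u v) τ hτ2 c c₁ R hc hR
        (fun l => φ (t l)) (fun l => ?_) (fun i l => φ (A.r08_zt (τ i) i t l)) (fun i l => ?_)
        (fun l => ?_)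
      · exact hlow _ (A.num_homog F φ h1 h2 (htm l).1) fun j hj _ => (htm l).2 j hj
      · rw [r08_zt_apply, map_add, A.rho_fock F φ h1 h2 i (t l), map_sum]
        congr 1
        exact Finset.sum_congr rfl fun k _ => by rw [map_smul]
      · have h4 : ∀ i, F.rho A.P (A.Z i) (φ (A.r08_zt (τ i) i t l)) +
            ∑ k, τ i l k • φ (A.r08_zt (τ i) i t k) =
            φ (A.r08_zt (τ i) i (A.r08_zt (τ i) i t) l) := by
          intro i
          rw [r08_zt_apply A (τ i) i (A.r08_zt (τ i) i t) l, map_add,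
            A.rho_fock F φ h1 h2 i (A.r08_zt (τ i) i t l), map_sum]
          congr 1
          exact Finset.sum_congr rfl fun k _ => by rw [map_smul]
        have h5 : ∑ i, φ (A.r08_zt (τ i) i (A.r08_zt (τ i) i t) l) + (c : ℂ) • φ (t l) = 0 := by
          have h6 := congrFun (congrArg (fun u => u) hTt) l
          rw [hT, Pi.add_apply, Finset.sum_apply, Pi.smul_apply, Pi.zero_apply] at h6
          have h7 := congrArg φ h6
          rw [map_add, map_sum, map_smul, map_zero] at h7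
          exact h7
        rw [Finset.sum_congr rfl fun i _ => h4 i]
        exact eq_neg_of_add_eq_zero_left h5
    funext l
    exact φ.map_eq_zero_iff.1 (h3 l)
  have hsH : s ∈ HH := (hmem s).2 hs
  have hTs : T s ∈ K := by
    rw [hKmem]
    refine ⟨hTH s hsH, ?_⟩
    have h3 : ∑ i, A.D (A.Z i) (A.D (A.Z i) (y - A.r08_Sg e s)) +
        (c : ℂ) • (y - A.r08_Sg e s) ∈ A.Fil W M :=
      Submodule.add_mem _ (Submodule.sum_mem _ fun i _ =>
        A.Fil_Z W hW (A.Fil_Z W hW hys i) i) (Submodule.smul_mem _ _ hys)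
    have h4 : ∑ i, A.D (A.Z i) (A.D (A.Z i) (y - A.r08_Sg e s)) +
        (c : ℂ) • (y - A.r08_Sg e s) =
        -(∑ i, A.D (A.Z i) (A.D (A.Z i) (A.r08_Sg e s)) + (c : ℂ) • A.r08_Sg e s) := by
      have h5 : ∀ i, A.D (A.Z i) (A.D (A.Z i) (y - A.r08_Sg e s)) =
          A.D (A.Z i) (A.D (A.Z i) y) - A.D (A.Z i) (A.D (A.Z i) (A.r08_Sg e s)) := by
        intro i
        rw [map_sub, map_sub]
      rw [Finset.sum_congr rfl fun i _ => h5 i, Finset.sum_sub_distrib, hyc, smul_sub]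
      abel
    rw [h4] at h3
    have h5 := Submodule.add_mem _ h3 (hST s hsH)
    have h6 : -(∑ i, A.D (A.Z i) (A.D (A.Z i) (A.r08_Sg e s)) + (c : ℂ) • A.r08_Sg e s) +
        ((∑ i, A.D (A.Z i) (A.D (A.Z i) (A.r08_Sg e s)) + (c : ℂ) • A.r08_Sg e s) -
          A.r08_Sg e (T s)) = -A.r08_Sg e (T s) := by abel
    rw [h6] at h5
    exact (Submodule.neg_mem_iff _).1 h5
  have hsK := r08_lin T HH K (fun t ht => ((hKmem t).1 ht).1) hinj hKT hsH hTs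
  have h3 := Submodule.add_mem _ hys ((hKmem s).1 hsK).2
  rwa [sub_add_cancel] at h3

theorem fil_stable (htr : ∀ j, 1 ≤ j → ∃ z : ℂ, (A.X ^ j).trace = z • (1 : Module.End ℂ V))
    (W : Submodule ℂ V) [FiniteDimensional ℂ W] (hW : ∀ i, ∀ w ∈ W, A.D (A.Z i) w ∈ W) (R : ℝ) :
    ∃ M₀ : ℕ, ∀ M : ℕ, M₀ ≤ M → ∀ y ∈ A.Fil W (M + 1), ∀ c : ℝ, c ≤ R →
      ∑ i, A.D (A.Z i) (A.D (A.Z i) y) = -((c : ℂ) • y) → y ∈ A.Fil W M := by
  obtain ⟨E, iN, iI, F, φ, h1, h2⟩ := exists_fock A.n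
  obtain ⟨c₀, hc₀, M₁, hM₁⟩ := fock_lower A.P A.Z A.P_t A.Z_t A.P_o A.Z_o A.r08_br F
  obtain ⟨d, e, he, hrep⟩ : ∃ (d : ℕ) (e : Fin d → V), (∀ k, e k ∈ W) ∧
      ∀ w ∈ W, w = ∑ k, inner ℂ (e k) w • e k := by
    refine ⟨Module.finrank ℂ W, fun k => (stdOrthonormalBasis ℂ W k : V),
      fun k => (stdOrthonormalBasis ℂ W k).2, fun w hw => ?_⟩
    have h := congrArg (W.subtype) ((stdOrthonormalBasis ℂ W).sum_repr' ⟨w, hw⟩)
    rw [map_sum] at h
    exact h.symm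
  obtain ⟨τ, hτ⟩ : ∃ τ : Fin A.m → Fin d → Fin d → ℂ, ∀ i l k,
      τ i l k = inner ℂ (e l) (A.D (A.Z i) (e k)) := ⟨_, fun _ _ _ => rfl⟩
  have hτ1 : ∀ i k, A.D (A.Z i) (e k) = ∑ l, τ i l k • e l := by
    intro i k
    conv_lhs => rw [hrep _ (hW i _ (he k))]
    exact Finset.sum_congr rfl fun l _ => by rw [hτ]
  have hτ2 : ∀ i l k, starRingEnd ℂ (τ i l k) = -τ i k l := by
    intro i l k
    rw [hτ, hτ, inner_conj_symm, A.skew _ (A.Z_mem i)]
  obtain ⟨C, hC⟩ : ∃ C : ℝ, C = ∑ i, ∑ l, ∑ k, ‖τ i l k‖ ^ 2 := ⟨_, rfl⟩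
  obtain ⟨M₂, hM₂⟩ := exists_nat_gt (2 * (R + C) / c₀)
  refine ⟨max M₁ M₂, fun M hM y hy c hc hyc => ?_⟩
  refine A.r08_final F φ h1 h2 htr W hW e he hrep τ hτ1 hτ2 R (c₀ * ((M + 1 : ℕ) : ℝ) ^ 2) M
    (fun s hs hs2 => hM₁ (M + 1) (by omega) s hs hs2) ?_ hy c hc hyc
  rw [← hC]
  have h3 : 2 * (R + C) < c₀ * (M₂ : ℝ) := by
    rw [div_lt_iff₀ hc₀] at hM₂
    linarith
  have h4 : (M₂ : ℝ) ≤ ((M + 1 : ℕ) : ℝ) := by
    exact_mod_cast (by omega : M₂ ≤ M + 1)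
  have h5 : (1 : ℝ) ≤ ((M + 1 : ℕ) : ℝ) := by
    exact_mod_cast (by omega : 1 ≤ M + 1)
  have h6 : ((M + 1 : ℕ) : ℝ) ≤ ((M + 1 : ℕ) : ℝ) ^ 2 := by nlinarith
  have h7 : c₀ * (M₂ : ℝ) ≤ c₀ * ((M + 1 : ℕ) : ℝ) ^ 2 :=
    mul_le_mul_of_nonneg_left (h4.trans h6) hc₀.le
  linarith

end LieRep

end SBD
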