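import Pool.Agent.SBD.An
import Pool.Agent.SBD.Fil

/-!
# Definitions for the admissibility block: spaces of smooth vectors
-/

open MeasureTheory Filter Topology
open scoped ENNReal NNReal Matrix

noncomputable section

namespace SBD

variable {N : ℕ} {G : Type} [Group G] [TopologicalSpace G]
  {H : Type} [NormedAddCommGroup H] [InnerProductSpace ℂ H]

/-- `E` is a space of smooth vectors: `D X` is the derivative of `π(e(tX))` on `E`, and `D X`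
maps `E` to itself. -/
def DifE (L : LieData N G) (π : G →* (H ≃ₗᵢ[ℂ] H)) (E : Submodule ℂ H)
    (D : Mat N →ₗ[ℝ] (E →ₗ[ℂ] E)) : Prop :=
  ∀ X ∈ L.𝔤, ∀ u : E, HasDerivAt (fun t : ℝ => π (L.e (t • X)) (u : H)) ((D X u : E) : H) 0

/-- Orthonormal bases of `𝔨` and `𝔭`. -/
structure Bases (L : LieData N G) where
  m : ℕ
  n : ℕ
  Z : Fin m → Mat N
  P : Fin n → Mat N
  Z_mem : ∀ i, Z i ∈ L.𝔤
  P_mem : ∀ i, P i ∈ L.𝔤
  Z_t : ∀ i, (Z i)ᵀ = -Z i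
  P_t : ∀ i, (P i)ᵀ = P i
  Z_o : ∀ i j, fip (Z i) (Z j) = if i = j then 1 else 0
  P_o : ∀ i j, fip (P i) (P j) = if i = j then 1 else 0
  basis : ∀ X ∈ L.𝔤, X = ∑ i, fip (Z i) X • Z i + ∑ i, fip (P i) X • P i

/-- `O` is a sheet of `ι` around `1`. -/
structure Sheet (L : LieData N G) (O : Set G) (ρ : ℝ) : Prop where
  isOpen : IsOpen O
  one_mem : (1 : G) ∈ O
  conj : ∀ k ∈ L.K, ∀ x ∈ O, k * x * k⁻¹ ∈ O
  pos : 0 < ρ
  compact : IsCompact {x : G | x ∈ O ∧ fsq (L.ι x - 1) ≤ ρ}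

/-- Smooth functions of a matrix supported in the ball of radius `√(ρ/2)` around `1`. -/
def SmF (N : ℕ) (ρ : ℝ) (Φ : (Fin N → Fin N → ℝ) → ℝ) : Prop :=
  ContDiff ℝ ((⊤ : ℕ∞) : WithTop ℕ∞) Φ ∧
    ∀ M : Fin N → Fin N → ℝ, ρ / 2 ≤ fsq (Matrix.of M - 1) → Φ M = 0

/-- The derivative of `Φ` in the direction `M ↦ X M`. -/
def LX (X : Mat N) (Φ : (Fin N → Fin N → ℝ) → ℝ) : (Fin N → Fin N → ℝ) → ℝ :=
  fun M => fderiv ℝ Φ M fun i j => ∑ k, X i k * M k j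

/-- The function `Φ(ι(x))` on the sheet `O`, zero elsewhere. -/
def shf (L : LieData N G) (O : Set G) (Φ : (Fin N → Fin N → ℝ) → ℝ) : G → ℝ :=
  O.indicator fun x => Φ fun i j => L.ι x i j

end SBD
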